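import Pool.Agent.Work.DiscPS.Div

/-!
# Pointwise bound for the good multipliers: (2.5)
-/

namespace DiscPS

open Finset

variable {m r M : ℕ} {l : ℕ → ℕ}

namespace GoodB

/-- the index of a signed dyadic box -/
noncomputable def idx (x : ℤ × ℤ) : (ℕ × ℕ) × (Bool × Bool) :=
  ((Nat.log 2 x.1.natAbs, Nat.log 2 x.2.natAbs), (decide (0 < x.1), decide (0 < x.2)))

lemma mem_SL {κ : ℤ} {x : ℤ × ℤ} (hx : x ∈ SL M κ) : x.1 ≠ 0 ∧ x.2 ≠ 0 ∧ 2 * x.1.natAbs < M ∧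
    2 * x.2.natAbs < M ∧ (M : ℤ) ∣ x.2 + x.1 * κ := by
  unfold SL SR at hx
  simp only [mem_filter, mem_product] at hx
  exact ⟨hx.1.1.2.1, hx.1.2.2.1, hx.1.1.2.2, hx.1.2.2.2, hx.2⟩

lemma dist_lt {a b i : ℕ} (h1 : 2 ^ i ≤ a) (h2 : a < 2 ^ (i + 1)) (h3 : 2 ^ i ≤ b)
    (h4 : b < 2 ^ (i + 1)) : ((a : ℤ) - b).natAbs < 2 ^ i := by
  rw [pow_succ] at h2 h4
  omega

lemma natAbs_sub {x y : ℤ} (_hx : x ≠ 0) (_hy : y ≠ 0) (h : decide (0 < x) = decide (0 < y)) :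
    (x - y).natAbs = ((x.natAbs : ℤ) - y.natAbs).natAbs := by
  have h' : (0 < x) ↔ (0 < y) := by simpa using h
  omega

/-- two points of a signed box with the same cell are equal -/
lemma inj_aux (hM0 : 0 < M) (hM : IsMM l r M) {κ : ℤ} (hκ : Int.gcd κ M = 1)
    (hg : ¬ Bad m r l κ) {i j s : ℕ} (hs : 2 ^ i * 2 ^ j * m ^ 28 < s * M) {x y : ℤ × ℤ}
    (hx : x ∈ SL M κ) (hy : y ∈ SL M κ)
    (hxi : 2 ^ i ≤ x.1.natAbs ∧ x.1.natAbs < 2 ^ (i + 1))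
    (hyi : 2 ^ i ≤ y.1.natAbs ∧ y.1.natAbs < 2 ^ (i + 1))
    (hxj : 2 ^ j ≤ x.2.natAbs ∧ x.2.natAbs < 2 ^ (j + 1))
    (hyj : 2 ^ j ≤ y.2.natAbs ∧ y.2.natAbs < 2 ^ (j + 1))
    (h1 : decide (0 < x.1) = decide (0 < y.1)) (h2 : decide (0 < x.2) = decide (0 < y.2))
    (h : (x.1.natAbs - 2 ^ i) * s / 2 ^ i = (y.1.natAbs - 2 ^ i) * s / 2 ^ i) : x = y := by
  obtain ⟨x1, x2, x3, x4, x5⟩ := mem_SL hx
  obtain ⟨y1, y2, y3, y4, y5⟩ := mem_SL hy
  by_contra hne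
  have hdvd : (M : ℤ) ∣ (x.2 - y.2) + (x.1 - y.1) * κ := by
    have := dvd_sub x5 y5
    have e : x.2 + x.1 * κ - (y.2 + y.1 * κ) = (x.2 - y.2) + (x.1 - y.1) * κ := by ring
    rwa [e] at this
  have hcop : IsCoprime κ (M : ℤ) := Int.isCoprime_iff_gcd_eq_one.2 hκ
  have hq : x.1 - y.1 ≠ 0 := by
    intro h0
    rw [h0, zero_mul, add_zero] at hdvd
    have h3 : (x.2 - y.2).natAbs < M := by omega
    have h4 : x.2 - y.2 = 0 := Int.eq_zero_of_abs_lt_dvd hdvd (by rw [Int.abs_eq_natAbs]; omega)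
    exact hne (Prod.ext (by omega) (by omega))
  have hp : x.2 - y.2 ≠ 0 := by
    intro h0
    rw [h0, zero_add] at hdvd
    have h3 : (M : ℤ) ∣ x.1 - y.1 := hcop.symm.dvd_of_dvd_mul_right hdvd
    have h4 : (x.1 - y.1).natAbs < M := by omega
    exact hq (Int.eq_zero_of_abs_lt_dvd h3 (by rw [Int.abs_eq_natAbs]; omega))
  have hwp : (x.2 - y.2).natAbs < 2 ^ j := by
    rw [natAbs_sub x2 y2 h2]
    exact dist_lt hxj.1 hxj.2 hyj.1 hyj.2
  have hwq : (x.1 - y.1).natAbs * s < 2 ^ i := by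
    rw [natAbs_sub x1 y1 h1]
    have hpos : 0 < 2 ^ i := by positivity
    have e1 := Nat.div_add_mod ((x.1.natAbs - 2 ^ i) * s) (2 ^ i)
    have e2 := Nat.div_add_mod ((y.1.natAbs - 2 ^ i) * s) (2 ^ i)
    have m1 := Nat.mod_lt ((x.1.natAbs - 2 ^ i) * s) hpos
    have m2 := Nat.mod_lt ((y.1.natAbs - 2 ^ i) * s) hpos
    rw [h] at e1
    rcases le_total x.1.natAbs y.1.natAbs with hle | hle
    · have e3 : ((x.1.natAbs : ℤ) - y.1.natAbs).natAbs = (y.1.natAbs - 2 ^ i) - (x.1.natAbs - 2 ^ i) := by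
        omega
      rw [e3, Nat.sub_mul]
      omega
    · have e3 : ((x.1.natAbs : ℤ) - y.1.natAbs).natAbs = (x.1.natAbs - 2 ^ i) - (y.1.natAbs - 2 ^ i) := by
        omega
      rw [e3, Nat.sub_mul]
      omega
  refine hg ⟨M, x.1 - y.1, x.2 - y.2, hM, hq, hp, hdvd, ?_⟩
  have hb : br (x.1 - y.1) (x.2 - y.2) ≤ (x.1 - y.1).natAbs * (x.2 - y.2).natAbs := by
    unfold br
    exact Nat.mul_le_mul (Nat.pow_log_le_self 2 (Int.natAbs_ne_zero.2 hq))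
      (Nat.pow_log_le_self 2 (Int.natAbs_ne_zero.2 hp))
  have hspos : 0 < s := by
    rcases Nat.eq_zero_or_pos s with h0 | h0
    · rw [h0] at hs; omega
    · exact h0
  have hfin : s * ((x.1 - y.1).natAbs * (x.2 - y.2).natAbs * m ^ 28) ≤ s * M := by
    calc s * ((x.1 - y.1).natAbs * (x.2 - y.2).natAbs * m ^ 28)
        = ((x.1 - y.1).natAbs * s) * (x.2 - y.2).natAbs * m ^ 28 := by ring
      _ ≤ 2 ^ i * 2 ^ j * m ^ 28 := by gcongr
      _ ≤ s * M := hs.le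
  exact (Nat.mul_le_mul_right _ hb).trans (Nat.le_of_mul_le_mul_left hfin hspos)

/-- the contribution of a signed dyadic box -/
lemma box_le (hM0 : 0 < M) (hM : IsMM l r M) {κ : ℤ} (hκ : Int.gcd κ M = 1)
    (hg : ¬ Bad m r l κ) (c : (ℕ × ℕ) × (Bool × Bool)) :
    ∑ x ∈ (SL M κ).filter (fun x => idx x = c), aw M x ≤ 2 * (m : ℝ) ^ 28 := by
  obtain ⟨⟨i, j⟩, ⟨u, v⟩⟩ := c
  set F := (SL M κ).filter (fun x => idx x = ((i, j), (u, v))) with hF
  have hmem : ∀ x ∈ F, x ∈ SL M κ ∧ (2 ^ i ≤ x.1.natAbs ∧ x.1.natAbs < 2 ^ (i + 1)) ∧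
      (2 ^ j ≤ x.2.natAbs ∧ x.2.natAbs < 2 ^ (j + 1)) ∧ decide (0 < x.1) = u ∧
      decide (0 < x.2) = v ∧ br x.1 x.2 = 2 ^ i * 2 ^ j := by
    intro x hx
    obtain ⟨h1, h2⟩ := mem_filter.1 hx
    unfold idx at h2
    simp only [Prod.mk.injEq] at h2
    obtain ⟨⟨h3, h4⟩, h5, h6⟩ := h2
    obtain ⟨x1, x2, -⟩ := mem_SL h1
    refine ⟨h1, ⟨?_, ?_⟩, ⟨?_, ?_⟩, h5, h6, ?_⟩
    · rw [← h3]; exact Nat.pow_log_le_self 2 (Int.natAbs_ne_zero.2 x1)
    · rw [← h3]; exact Nat.lt_pow_succ_log_self (by norm_num) _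
    · rw [← h4]; exact Nat.pow_log_le_self 2 (Int.natAbs_ne_zero.2 x2)
    · rw [← h4]; exact Nat.lt_pow_succ_log_self (by norm_num) _
    · unfold br; rw [h3, h4]
  rcases F.eq_empty_or_nonempty with hemp | ⟨x₀, hx₀⟩
  · rw [hemp, sum_empty]; positivity
  obtain ⟨g1, g2, g3, g4, g5, g6⟩ := hmem x₀ hx₀
  obtain ⟨y1, y2, y3, y4, y5⟩ := mem_SL g1
  set T : ℕ := 2 ^ i * 2 ^ j * m ^ 28 with hT
  have hTM : M < T := by
    by_contra hle
    push Not at hle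
    refine hg ⟨M, x₀.1, x₀.2, hM, y1, y2, y5, ?_⟩
    rw [g6]
    exact hle
  set s : ℕ := T / M + 1 with hs
  have hsM : T < s * M := by
    have := Nat.lt_mul_div_succ T hM0
    rw [hs, mul_comm]
    exact this
  have hcard : F.card ≤ s := by
    have h1 : F.card ≤ (range s).card := by
      refine card_le_card_of_injOn (fun x => (x.1.natAbs - 2 ^ i) * s / 2 ^ i) ?_ ?_
      · intro x hx
        obtain ⟨-, h2, -⟩ := hmem x hx
        rw [mem_coe, mem_range]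
        have hpos : 0 < 2 ^ i := by positivity
        rw [Nat.div_lt_iff_lt_mul hpos, mul_comm s]
        have h3 : x.1.natAbs - 2 ^ i < 2 ^ i := by
          have := h2.2
          rw [pow_succ] at this
          omega
        exact Nat.mul_lt_mul_of_pos_right h3 (Nat.succ_pos _)
      · intro x hx y hy hxy
        obtain ⟨a1, a2, a3, a4, a5, -⟩ := hmem x hx
        obtain ⟨b1, b2, b3, b4, b5, -⟩ := hmem y hy
        exact inj_aux hM0 hM hκ hg hsM a1 b1 a2 b2 a3 b3 (a4.trans b4.symm) (a5.trans b5.symm) hxy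
    rwa [card_range] at h1
  have hterm : ∀ x ∈ F, aw M x ≤ (M : ℝ) / (2 ^ i * 2 ^ j) := by
    intro x hx
    obtain ⟨-, h2, h3, -⟩ := hmem x hx
    unfold aw
    have e1 : (2 : ℝ) ^ i ≤ |(x.1 : ℝ)| := by
      have : ((2 ^ i : ℕ) : ℝ) ≤ ((x.1.natAbs : ℕ) : ℝ) := by exact_mod_cast h2.1
      rw [Nat.cast_natAbs, Int.cast_abs] at this
      simpa using this
    have e2 : (2 : ℝ) ^ j ≤ |(x.2 : ℝ)| := by
      have : ((2 ^ j : ℕ) : ℝ) ≤ ((x.2.natAbs : ℕ) : ℝ) := by exact_mod_cast h3.1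
      rw [Nat.cast_natAbs, Int.cast_abs] at this
      simpa using this
    gcongr
  have hMr : (0 : ℝ) < M := by exact_mod_cast hM0
  have hs2 : (s : ℝ) * M ≤ 2 * T := by
    have h1 : s * M ≤ T + M := by
      rw [hs, add_mul, one_mul]
      exact Nat.add_le_add_right (Nat.div_mul_le_self T M) M
    have h2 : s * M ≤ 2 * T := by omega
    exact_mod_cast h2
  calc ∑ x ∈ F, aw M x ≤ ∑ _x ∈ F, (M : ℝ) / (2 ^ i * 2 ^ j) := sum_le_sum hterm
    _ = (F.card : ℝ) * ((M : ℝ) / (2 ^ i * 2 ^ j)) := by rw [sum_const, nsmul_eq_mul]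
    _ ≤ (s : ℝ) * ((M : ℝ) / (2 ^ i * 2 ^ j)) := by gcongr
    _ = (s : ℝ) * M / (2 ^ i * 2 ^ j) := by ring
    _ ≤ 2 * T / (2 ^ i * 2 ^ j) := by gcongr
    _ = 2 * (m : ℝ) ^ 28 := by
        rw [hT]
        push_cast
        field_simp

end GoodB

theorem good_bound (h : Par m r l) (hM : IsMM l r M) {κ : ℤ} (hκ : Int.gcd κ M = 1)
    (hg : ¬ Bad m r l κ) : ∑ x ∈ SL M κ, aw M x ≤ 100 * (m : ℝ) ^ 30 := by
  have hb := h.bmM hM
  have hM0 := hb.pos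
  have hmaps : ∀ x ∈ SL M κ, GoodB.idx x ∈
      (range m ×ˢ range m) ×ˢ ((univ : Finset Bool) ×ˢ (univ : Finset Bool)) := by
    intro x hx
    obtain ⟨x1, x2, x3, x4, -⟩ := GoodB.mem_SL hx
    unfold GoodB.idx
    simp only [mem_product, mem_range, mem_univ, and_true]
    have hle := hb.le
    constructor
    · exact Nat.log_lt_of_lt_pow (Int.natAbs_ne_zero.2 x1) (by omega)
    · exact Nat.log_lt_of_lt_pow (Int.natAbs_ne_zero.2 x2) (by omega)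
  rw [← sum_fiberwise_of_maps_to hmaps]
  calc ∑ c ∈ (range m ×ˢ range m) ×ˢ ((univ : Finset Bool) ×ˢ (univ : Finset Bool)),
        ∑ x ∈ (SL M κ).filter (fun x => GoodB.idx x = c), aw M x
      ≤ ∑ _c ∈ (range m ×ˢ range m) ×ˢ ((univ : Finset Bool) ×ˢ (univ : Finset Bool)),
          2 * (m : ℝ) ^ 28 := sum_le_sum fun c _ => GoodB.box_le hM0 hM hκ hg c
    _ = 8 * (m : ℝ) ^ 30 := by
        rw [sum_const, card_product, card_product, card_product, card_range, card_univ,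
          Fintype.card_bool, nsmul_eq_mul]
        push_cast
        ring
    _ ≤ 100 * (m : ℝ) ^ 30 := by
        have : (0 : ℝ) ≤ (m : ℝ) ^ 30 := by positivity
        linarith

end DiscPS
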