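import Pool.Agent.Work.DiscPS.DefsA

set_option autoImplicit false
set_option maxHeartbeats 400000

/-! # Choice of the primes (Lemma 1) -/

namespace DiscPS

open Finset

/-- the primes in `(m ^ 16, 4 m ^ 16]` -/
def PR (m : ℕ) : Finset ℕ := (Ioc (m ^ 16) (4 * m ^ 16)).filter Nat.Prime

theorem pr_theta (m : ℕ) (hm : 1000 ≤ m) :
    (m : ℝ) ^ 16 ≤ (PR m).card * Real.log (4 * (m : ℝ) ^ 16) := by
  have hm1 : (1000 : ℝ) ≤ m := by exact_mod_cast hm
  have hm0 : (0 : ℝ) < m := by linarith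
  have h1 := Chebyshev.theta_ge (4 * m ^ 16)
  have h2 := Chebyshev.theta_le_log4_mul_x (x := (m : ℝ) ^ 16) (by positivity)
  have h3 : Chebyshev.theta ((4 * m ^ 16 : ℕ) : ℝ) - Chebyshev.theta ((m : ℝ) ^ 16) ≤
      (PR m).card * Real.log (4 * (m : ℝ) ^ 16) := by
    have e1 : ⌊((4 * m ^ 16 : ℕ) : ℝ)⌋₊ = 4 * m ^ 16 := Nat.floor_natCast _
    have e2 : ⌊(m : ℝ) ^ 16⌋₊ = m ^ 16 := by
      rw [← Nat.cast_pow]
      exact Nat.floor_natCast _
    rw [Chebyshev.theta, Chebyshev.theta, e1, e2]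
    have h4 : (Ioc 0 (4 * m ^ 16)).filter Nat.Prime = (Ioc 0 (m ^ 16)).filter Nat.Prime ∪ PR m := by
      rw [PR, ← filter_union, Ioc_union_Ioc_eq_Ioc (Nat.zero_le _) (by omega)]
    have h5 : Disjoint ((Ioc 0 (m ^ 16)).filter Nat.Prime) (PR m) := by
      rw [disjoint_left]
      intro x hx hx'
      rw [mem_filter, mem_Ioc] at hx
      rw [PR, mem_filter, mem_Ioc] at hx'
      omega
    rw [h4, sum_union h5, add_sub_cancel_left, ← nsmul_eq_mul]
    refine sum_le_card_nsmul _ _ _ fun p hp => ?_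
    rw [PR, mem_filter, mem_Ioc] at hp
    refine Real.log_le_log (by exact_mod_cast hp.2.pos) ?_
    exact_mod_cast hp.1.2
  have h6 : Real.log (((4 * m ^ 16 : ℕ) : ℝ) + 1) ≤ 3 + 16 * m := by
    have h7 : (((4 * m ^ 16 : ℕ) : ℝ) + 1) ≤ 8 * (m : ℝ) ^ 16 := by
      push_cast
      have : (1 : ℝ) ≤ (m : ℝ) ^ 16 := one_le_pow₀ (by linarith)
      linarith
    have h8 : Real.log (8 * (m : ℝ) ^ 16) = 3 * Real.log 2 + 16 * Real.log m := by
      rw [Real.log_mul (by norm_num) (by positivity), Real.log_pow,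
        show (8 : ℝ) = 2 ^ 3 by norm_num, Real.log_pow]
      push_cast
      ring
    have h9 := Real.log_le_log (by positivity) h7
    have h10 := Real.log_two_lt_d9
    have h11 : Real.log m ≤ m := (Real.log_le_sub_one_of_pos hm0).trans (by linarith)
    rw [h8] at h9
    linarith
  have h7 : Real.log ((4 * m ^ 16 : ℕ) : ℝ) ≤ 3 + 16 * m :=
    (Real.log_le_log (by positivity) (by linarith)).trans h6
  have h8 : √((4 * m ^ 16 : ℕ) : ℝ) = 2 * (m : ℝ) ^ 8 := by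
    rw [show (((4 * m ^ 16 : ℕ) : ℕ) : ℝ) = (2 * (m : ℝ) ^ 8) ^ 2 by push_cast; ring]
    exact Real.sqrt_sq (by positivity)
  rw [h8] at h1
  have hl2 := Real.log_two_gt_d9
  have hl4 : Real.log 4 = 2 * Real.log 2 := by
    rw [show (4 : ℝ) = 2 ^ 2 by norm_num, Real.log_pow]
    push_cast
    ring
  rw [hl4] at h2
  have h9 : 2 * (2 * (m : ℝ) ^ 8) * Real.log ((4 * m ^ 16 : ℕ) : ℝ) ≤
      2 * (2 * (m : ℝ) ^ 8) * (3 + 16 * m) := by gcongr
  have h10 : (3 + 16 * (m : ℝ)) + 2 * (2 * (m : ℝ) ^ 8) * (3 + 16 * m) ≤ (1 / 4) * (m : ℝ) ^ 16 := by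
    have h11 : (1 : ℝ) ≤ (m : ℝ) ^ 8 := one_le_pow₀ (by linarith)
    have h12 : (1000 : ℝ) ^ 7 ≤ (m : ℝ) ^ 7 := pow_le_pow_left₀ (by norm_num) hm1 7
    have h13 : (m : ℝ) ^ 16 = m ^ 8 * m ^ 7 * m := by ring
    have h14 : (m : ℝ) ^ 8 * (1000 : ℝ) ^ 7 * m ≤ (m : ℝ) ^ 16 := by
      rw [h13]
      gcongr
    nlinarith [mul_nonneg (sub_nonneg.2 h11) hm0.le]
  have h11 : (0 : ℝ) < (m : ℝ) ^ 16 := by positivity
  have h12 : ((4 * m ^ 16 : ℕ) : ℝ) = 4 * (m : ℝ) ^ 16 := by push_cast; ring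
  rw [h12] at h1 h3 h6 h9
  nlinarith

theorem pr_card : ∃ m0 : ℕ, ∀ m ≥ m0, 1000 ≤ m ∧ m ^ 15 + 1 ≤ (PR m).card := by
  have h1 : ∀ᶠ x : ℝ in Filter.atTop, Real.log x ≤ x / 64 := by
    have := Real.isLittleO_log_id_atTop.bound (show (0 : ℝ) < 1 / 64 by norm_num)
    filter_upwards [this, Filter.eventually_ge_atTop 1] with x hx hx1
    rw [Real.norm_eq_abs, id, Real.norm_eq_abs] at hx
    have h2 : |x| = x := abs_of_nonneg (by linarith)
    rw [h2] at hx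
    linarith [le_abs_self (Real.log x)]
  obtain ⟨x0, hx0⟩ := Filter.eventually_atTop.1 h1
  refine ⟨max 1000 ⌈x0⌉₊, fun m hm => ?_⟩
  have hm1 : 1000 ≤ m := (le_max_left _ _).trans hm
  refine ⟨hm1, ?_⟩
  have hm2 : x0 ≤ m := (Nat.le_ceil x0).trans (by exact_mod_cast (le_max_right _ _).trans hm)
  have h2 := hx0 m hm2
  have h3 := pr_theta m hm1
  have hmr : (1000 : ℝ) ≤ m := by exact_mod_cast hm1
  have h4 : Real.log (4 * (m : ℝ) ^ 16) ≤ m / 2 := by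
    rw [Real.log_mul (by norm_num) (by positivity), Real.log_pow,
      show (4 : ℝ) = 2 ^ 2 by norm_num, Real.log_pow]
    push_cast
    have := Real.log_two_lt_d9
    linarith
  have h5 : (m : ℝ) ^ 16 ≤ (PR m).card * (m / 2) := h3.trans (by gcongr)
  have h6 : 2 * (m : ℝ) ^ 15 ≤ (PR m).card := by
    have h7 : (m : ℝ) ^ 16 = (2 * (m : ℝ) ^ 15) * (m / 2) := by ring
    rw [h7] at h5
    exact le_of_mul_le_mul_right h5 (by linarith)
  have h7 : 2 * m ^ 15 ≤ (PR m).card := by exact_mod_cast h6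
  have h8 : 1 ≤ m ^ 15 := Nat.one_le_pow _ _ (by omega)
  omega

/-- few primes of `PR m` divide a small nonzero integer -/
theorem pr_dvd_card (m : ℕ) (hm : 1000 ≤ m) (Δ : ℤ) (h0 : Δ ≠ 0)
    (hΔ : |Δ| < 2 ^ (2 * m + 3)) : ((PR m).filter (fun p : ℕ => (p : ℤ) ∣ Δ)).card ≤ m := by
  set S := (PR m).filter (fun p : ℕ => (p : ℤ) ∣ Δ) with hS
  have h1 : ∏ p ∈ S, p ∣ Δ.natAbs := by
    refine Finset.prod_primes_dvd _ (fun p hp => ?_) fun p hp => ?_
    · rw [hS, mem_filter, PR, mem_filter] at hp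
      exact hp.1.2.prime
    · rw [hS, mem_filter] at hp
      exact Int.natCast_dvd.1 hp.2
  have h2 : (2 ^ 16) ^ S.card ≤ ∏ p ∈ S, p := by
    refine pow_card_le_prod S _ _ fun p hp => ?_
    rw [hS, mem_filter, PR, mem_filter, mem_Ioc] at hp
    have : 2 ^ 16 ≤ m ^ 16 := Nat.pow_le_pow_left (by omega) 16
    omega
  have h3 : ∏ p ∈ S, p ≤ Δ.natAbs := Nat.le_of_dvd (Int.natAbs_pos.2 h0) h1
  have h4 : Δ.natAbs < 2 ^ (2 * m + 3) := by
    have : (Δ.natAbs : ℤ) < ((2 ^ (2 * m + 3) : ℕ) : ℤ) := by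
      rw [Int.natCast_natAbs]
      exact_mod_cast hΔ
    exact_mod_cast this
  have h5 : 2 ^ (16 * S.card) < 2 ^ (2 * m + 3) := by
    rw [pow_mul]
    omega
  have h6 := (Nat.pow_lt_pow_iff_right (by norm_num)).1 h5
  omega

theorem dt_lt (m i j i1 j1 : ℕ) (hi : i ≤ m) (hj : j ≤ m) (hi1 : i1 ≤ m) (hj1 : j1 ≤ m)
    (v w : ℤ × ℤ) (hv1 : v.1 ∈ dy i) (hv2 : v.2 ∈ dy j) (hw1 : w.1 ∈ dy i1) (hw2 : w.2 ∈ dy j1) :
    |dt v w| < 2 ^ (2 * m + 3) := by
  have h1 := (mem_dy.1 hv1).2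
  have h2 := (mem_dy.1 hv2).2
  have h3 := (mem_dy.1 hw1).2
  have h4 := (mem_dy.1 hw2).2
  have key : ∀ (a b : ℤ) (s t : ℕ), s ≤ m → t ≤ m → |a| < 2 ^ (s + 1) → |b| < 2 ^ (t + 1) →
      |a * b| < 2 ^ (2 * m + 2) := by
    intro a b s t hs ht ha hb
    rw [abs_mul]
    calc |a| * |b| < 2 ^ (s + 1) * 2 ^ (t + 1) :=
          mul_lt_mul'' ha hb (abs_nonneg _) (abs_nonneg _)
      _ = 2 ^ (s + 1 + (t + 1)) := (pow_add _ _ _).symm
      _ ≤ 2 ^ (2 * m + 2) := pow_le_pow_right₀ (by norm_num) (by omega)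
  have h5 := key v.1 w.2 i j1 hi hj1 h1 h4
  have h6 := key w.1 v.2 i1 j hi1 hj h3 h2
  calc |dt v w| ≤ |v.1 * w.2| + |w.1 * v.2| := abs_sub _ _
    _ < 2 ^ (2 * m + 2) + 2 ^ (2 * m + 2) := add_lt_add h5 h6
    _ = 2 ^ (2 * m + 3) := by ring

theorem sum_Nst (m D i j i1 j1 : ℕ) (hm : 1000 ≤ m) (hi : i ≤ m) (hj : j ≤ m) (hi1 : i1 ≤ m)
    (hj1 : j1 ≤ m) : ∑ p ∈ PR m, Nst (D * p) i j i1 j1 ≤ m * Nst D i j i1 j1 := by
  set F := (vb D i j ×ˢ vb D i1 j1).filter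
    (fun p => dt p.1 p.2 ≠ 0 ∧ (D : ℤ) ∣ dt p.1 p.2) with hF
  have h1 : ∀ p ∈ PR m, Nst (D * p) i j i1 j1 ≤ (F.filter (fun x => (p : ℤ) ∣ dt x.1 x.2)).card := by
    intro p _
    refine card_le_card fun x hx => ?_
    rw [mem_filter, mem_product, mem_vb, mem_vb] at hx
    obtain ⟨⟨⟨a1, a2, a3⟩, b1, b2, b3⟩, c1, c2⟩ := hx
    push_cast at a2 a3 b2 b3 c2
    rw [mem_filter, hF, mem_filter, mem_product, mem_vb, mem_vb]
    refine ⟨⟨⟨⟨a1, ?_, ?_⟩, b1, ?_, ?_⟩, c1, ?_⟩, ?_⟩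
    · exact IsCoprime.of_mul_right_left a2
    · exact IsCoprime.of_mul_right_left a3
    · exact IsCoprime.of_mul_right_left b2
    · exact IsCoprime.of_mul_right_left b3
    · exact dvd_of_mul_right_dvd c2
    · exact dvd_of_mul_left_dvd c2
  refine (sum_le_sum h1).trans ?_
  have h2 : ∑ p ∈ PR m, (F.filter (fun x => (p : ℤ) ∣ dt x.1 x.2)).card =
      ∑ x ∈ F, ((PR m).filter (fun p : ℕ => (p : ℤ) ∣ dt x.1 x.2)).card := by
    simp only [card_filter]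
    exact sum_comm
  rw [h2]
  calc ∑ x ∈ F, ((PR m).filter (fun p : ℕ => (p : ℤ) ∣ dt x.1 x.2)).card ≤ ∑ x ∈ F, m := by
        refine sum_le_sum fun x hx => ?_
        rw [hF, mem_filter, mem_product, mem_vb, mem_vb] at hx
        exact pr_dvd_card m hm _ hx.2.1 (dt_lt m i j i1 j1 hi hj hi1 hj1 _ _ hx.1.1.1.1
          hx.1.1.1.2 hx.1.2.1.1 hx.1.2.1.2)
    _ = m * Nst D i j i1 j1 := by
        rw [sum_const, smul_eq_mul, mul_comm]
        rfl

theorem card_bad (m D i j i1 j1 : ℕ) (hm : 1000 ≤ m) (hi : i ≤ m) (hj : j ≤ m) (hi1 : i1 ≤ m)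
    (hj1 : j1 ≤ m) : ((PR m).filter (fun p => ¬ m ^ 9 * Nst (D * p) i j i1 j1 ≤
      Nst D i j i1 j1)).card ≤ m ^ 10 := by
  set B := (PR m).filter (fun p => ¬ m ^ 9 * Nst (D * p) i j i1 j1 ≤ Nst D i j i1 j1) with hB
  have h1 : B.card * (Nst D i j i1 j1 + 1) ≤ m ^ 10 * Nst D i j i1 j1 := by
    calc B.card * (Nst D i j i1 j1 + 1) = ∑ p ∈ B, (Nst D i j i1 j1 + 1) := by
          rw [sum_const, smul_eq_mul]
      _ ≤ ∑ p ∈ B, m ^ 9 * Nst (D * p) i j i1 j1 := by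
          refine sum_le_sum fun p hp => ?_
          rw [hB, mem_filter] at hp
          omega
      _ ≤ ∑ p ∈ PR m, m ^ 9 * Nst (D * p) i j i1 j1 :=
          sum_le_sum_of_subset (filter_subset _ _)
      _ = m ^ 9 * ∑ p ∈ PR m, Nst (D * p) i j i1 j1 := by rw [mul_sum]
      _ ≤ m ^ 9 * (m * Nst D i j i1 j1) :=
          Nat.mul_le_mul_left _ (sum_Nst m D i j i1 j1 hm hi hj hi1 hj1)
      _ = m ^ 10 * Nst D i j i1 j1 := by ring
  have h2 : m ^ 10 * Nst D i j i1 j1 ≤ m ^ 10 * (Nst D i j i1 j1 + 1) :=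
    Nat.mul_le_mul_left _ (by omega)
  exact Nat.le_of_mul_le_mul_right (h1.trans h2) (by omega)

theorem IP_succ (l : ℕ → ℕ) {a k : ℕ} (h : a ≤ k) : IP l a (k + 1) = IP l a k * l k := by
  rw [IP, IP, prod_Ico_succ_top h]

theorem exists_step (m r : ℕ) (l : ℕ → ℕ) (hm : 1000 ≤ m) (hr : 4 * (r + 1) ≤ m)
    (hc : m ^ 15 + 1 ≤ (PR m).card) :
    ∃ p ∈ PR m, (∀ i < r, l i ≠ p) ∧ ∀ a ≤ r, ∀ i ≤ m, ∀ j ≤ m, ∀ i1 ≤ m, ∀ j1 ≤ m,
      m ^ 9 * Nst (IP l a r * p) i j i1 j1 ≤ Nst (IP l a r) i j i1 j1 := by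
  set I := range (r + 1) ×ˢ (range (m + 1) ×ˢ (range (m + 1) ×ˢ (range (m + 1) ×ˢ range (m + 1))))
    with hI
  set B : Finset ℕ := I.biUnion fun t => (PR m).filter (fun p =>
    ¬ m ^ 9 * Nst (IP l t.1 r * p) t.2.1 t.2.2.1 t.2.2.2.1 t.2.2.2.2 ≤
      Nst (IP l t.1 r) t.2.1 t.2.2.1 t.2.2.2.1 t.2.2.2.2) with hB
  have hBc : B.card ≤ (r + 1) * (m + 1) ^ 4 * m ^ 10 := by
    refine card_biUnion_le.trans ?_
    calc ∑ t ∈ I, ((PR m).filter (fun p =>
        ¬ m ^ 9 * Nst (IP l t.1 r * p) t.2.1 t.2.2.1 t.2.2.2.1 t.2.2.2.2 ≤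
          Nst (IP l t.1 r) t.2.1 t.2.2.1 t.2.2.2.1 t.2.2.2.2)).card
        ≤ ∑ t ∈ I, m ^ 10 := by
          refine sum_le_sum fun t ht => ?_
          simp only [hI, mem_product, mem_range, Nat.lt_succ_iff] at ht
          exact card_bad m _ _ _ _ _ hm ht.2.1 ht.2.2.1 ht.2.2.2.1 ht.2.2.2.2
      _ = (r + 1) * (m + 1) ^ 4 * m ^ 10 := by
          rw [sum_const, smul_eq_mul, hI]
          simp only [card_product, card_range]
          ring
  have hcard : (B ∪ (range r).image l).card < (PR m).card := by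
    have h1 : ((range r).image l).card ≤ r := card_image_le.trans (card_range r).le
    have h2 : (m + 1) ^ 4 ≤ 2 * m ^ 4 := by
      have h3 : ((m + 1) * 1000) ^ 4 ≤ (1001 * m) ^ 4 := Nat.pow_le_pow_left (by omega) 4
      rw [mul_pow, mul_pow] at h3
      omega
    have h3 : 4 * ((r + 1) * (m + 1) ^ 4 * m ^ 10) ≤ 2 * m ^ 15 := by
      calc 4 * ((r + 1) * (m + 1) ^ 4 * m ^ 10) = (4 * (r + 1)) * (m + 1) ^ 4 * m ^ 10 := by ring
        _ ≤ m * (2 * m ^ 4) * m ^ 10 := by gcongr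
        _ = 2 * m ^ 15 := by ring
    have h4 : m ≤ m ^ 15 := Nat.le_self_pow (by norm_num) m
    have h5 := card_union_le B ((range r).image l)
    omega
  obtain ⟨p, hp, hpn⟩ := exists_mem_notMem_of_card_lt_card hcard
  rw [mem_union, not_or] at hpn
  refine ⟨p, hp, fun i hi h => hpn.2 (mem_image.2 ⟨i, mem_range.2 hi, h⟩), ?_⟩
  intro a ha i hi j hj i1 hi1 j1 hj1
  by_contra hcon
  apply hpn.1
  rw [hB, mem_biUnion]
  refine ⟨(a, i, j, i1, j1), ?_, mem_filter.2 ⟨hp, hcon⟩⟩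
  simp only [hI, mem_product, mem_range, Nat.lt_succ_iff]
  exact ⟨ha, hi, hj, hi1, hj1⟩

theorem exists_chain (m : ℕ) (hm : 1000 ≤ m) (hc : m ^ 15 + 1 ≤ (PR m).card) :
    ∀ r : ℕ, 4 * r ≤ m → ∃ l : ℕ → ℕ, (∀ i < r, l i ∈ PR m) ∧
      (∀ i < r, ∀ j < r, l i = l j → i = j) ∧
      ∀ a k, a ≤ k → k < r → ∀ i ≤ m, ∀ j ≤ m, ∀ i1 ≤ m, ∀ j1 ≤ m,
        m ^ 9 * Nst (IP l a (k + 1)) i j i1 j1 ≤ Nst (IP l a k) i j i1 j1 := by
  intro r
  induction r with
  | zero => exact fun _ => ⟨fun _ => 0, by simp, by simp, by simp⟩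
  | succ r ih =>
    intro hr
    obtain ⟨l, h1, h2, h3⟩ := ih (by omega)
    obtain ⟨p, hp, hpl, hpb⟩ := exists_step m r l hm hr hc
    have hne : ∀ i < r, Function.update l r p i = l i := fun i hi =>
      Function.update_of_ne (by omega) _ _
    have heq : Function.update l r p r = p := Function.update_self _ _ _
    have hIP : ∀ a k, k ≤ r → IP (Function.update l r p) a k = IP l a k := by
      intro a k hk
      refine prod_congr rfl fun i hi => hne i ?_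
      have := (mem_Ico.1 hi).2
      omega
    refine ⟨Function.update l r p, ?_, ?_, ?_⟩
    · intro i hi
      rcases Nat.lt_succ_iff_lt_or_eq.1 hi with h | rfl
      · rw [hne i h]
        exact h1 i h
      · rw [heq]
        exact hp
    · intro i hi j hj hij
      rcases Nat.lt_succ_iff_lt_or_eq.1 hi with h | rfl
      · rcases Nat.lt_succ_iff_lt_or_eq.1 hj with h' | rfl
        · rw [hne i h, hne j h'] at hij
          exact h2 i h j h' hij
        · rw [hne i h, heq] at hij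
          exact absurd hij (hpl i h)
      · rcases Nat.lt_succ_iff_lt_or_eq.1 hj with h' | rfl
        · rw [hne j h', heq] at hij
          exact absurd hij.symm (hpl j h')
        · rfl
    · intro a k hak hk i hi j hj i1 hi1 j1 hj1
      rcases Nat.lt_succ_iff_lt_or_eq.1 hk with h | rfl
      · rw [hIP a (k + 1) (by omega), hIP a k (by omega)]
        exact h3 a k hak h i hi j hj i1 hi1 j1 hj1
      · rw [IP_succ _ hak, heq, hIP a k le_rfl]
        exact hpb a hak i hi j hj i1 hi1 j1 hj1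

/-- Lemma 1: the successive choice of the primes -/
theorem exists_primes : ∃ m0 : ℕ, ∀ m : ℕ, m0 ≤ m → ∃ (r : ℕ) (l : ℕ → ℕ),
    Par m r l ∧ Gen m r l ∧ 2 ^ m ≤ Mk l r ^ 4 := by
  obtain ⟨m0, hm0⟩ := pr_card
  refine ⟨m0, fun m hmm => ?_⟩
  obtain ⟨hm, hc⟩ := hm0 m hmm
  set L := Nat.log 2 m with hL
  have hL1 : 2 ^ L ≤ m := Nat.pow_log_le_self 2 (by omega)
  have hL2 : m < 2 ^ (L + 1) := Nat.lt_pow_succ_log_self (by norm_num) m
  have hL9 : 9 ≤ L := by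
    by_contra h
    have : 2 ^ (L + 1) ≤ 2 ^ 9 := Nat.pow_le_pow_right (by norm_num) (by omega)
    omega
  have h36 : ∀ n : ℕ, 9 ≤ n → 36 * n ≤ 2 ^ n := by
    intro n hn
    induction n, hn using Nat.le_induction with
    | base => norm_num
    | succ n hn ih =>
      rw [pow_succ]
      omega
  have h36L := (h36 L hL9).trans hL1
  set r := m / (18 * L) with hr
  have hL0 : 0 < 18 * L := by omega
  have hr1 : 18 * L * r ≤ m := Nat.mul_div_le m (18 * L)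
  have hr2 : m < 18 * L * (r + 1) := by
    have := Nat.lt_mul_div_succ m hL0
    exact this
  have hr3 : 2 ≤ r := (Nat.le_div_iff_mul_le hL0).2 (by omega)
  have hr4 : 162 * r ≤ m := by
    calc 162 * r ≤ 18 * L * r := by gcongr; omega
      _ ≤ m := hr1
  obtain ⟨l, h1, h2, h3⟩ := exists_chain m hm hc r (by omega)
  have hlo : ∀ i < r, m ^ 16 < l i := by
    intro i hi
    have := h1 i hi
    rw [PR, mem_filter, mem_Ioc] at this
    exact this.1.1
  have hhi : ∀ i < r, l i ≤ 4 * m ^ 16 := by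
    intro i hi
    have := h1 i hi
    rw [PR, mem_filter, mem_Ioc] at this
    exact this.1.2
  have hb : Mk l r ≤ 2 ^ m := by
    calc Mk l r ≤ ∏ i ∈ range r, 2 ^ (18 * L) := by
          refine prod_le_prod (fun _ _ => Nat.zero_le _) fun i hi => ?_
          calc l i ≤ 4 * m ^ 16 := hhi i (mem_range.1 hi)
            _ ≤ 4 * (2 ^ (L + 1)) ^ 16 := by gcongr
            _ = 2 ^ (16 * L + 18) := by
                rw [← pow_mul, show 16 * L + 18 = 2 + (L + 1) * 16 by ring, pow_add]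
                norm_num
            _ ≤ 2 ^ (18 * L) := Nat.pow_le_pow_right (by norm_num) (by omega)
      _ = 2 ^ (18 * L * r) := by rw [prod_const, card_range, ← pow_mul]
      _ ≤ 2 ^ m := Nat.pow_le_pow_right (by norm_num) hr1
  have hb4 : 2 ^ m ≤ Mk l r ^ 4 := by
    have h4 : 2 ^ (16 * L * r) ≤ Mk l r := by
      calc 2 ^ (16 * L * r) = ∏ i ∈ range r, 2 ^ (16 * L) := by
            rw [prod_const, card_range, ← pow_mul]
        _ ≤ Mk l r := by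
            refine prod_le_prod (fun _ _ => Nat.zero_le _) fun i hi => ?_
            calc 2 ^ (16 * L) = (2 ^ L) ^ 16 := by rw [← pow_mul, mul_comm]
              _ ≤ m ^ 16 := Nat.pow_le_pow_left hL1 16
              _ ≤ l i := (hlo i (mem_range.1 hi)).le
    calc 2 ^ m ≤ 2 ^ (16 * L * r * 4) := by
          refine Nat.pow_le_pow_right (by norm_num) ?_
          have h5 : 18 * L * (r + 1) ≤ 16 * L * r * 4 := by nlinarith
          omega
      _ = (2 ^ (16 * L * r)) ^ 4 := by rw [pow_mul]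
      _ ≤ Mk l r ^ 4 := Nat.pow_le_pow_left h4 4
  refine ⟨r, l, ⟨hm, by omega, by omega, ?_, h2, hlo, hhi, hb⟩, ?_, hb4⟩
  · intro i hi
    have := h1 i hi
    rw [PR, mem_filter] at this
    exact this.2
  · intro a k hak hk i j i1 j1 hi hj hi1 hj1
    exact h3 a k hak hk i hi j hj i1 hi1 j1 hj1

end DiscPS
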