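import Pool.Agent.Work.DiscPS.MeanG
import Pool.Agent.Work.DiscPS.GoodB
import Pool.Agent.Work.DiscPS.Primes

/-!
# The arithmetic part: final statement
-/

namespace DiscPS

open Finset

open Classical in
theorem arith : ∃ C m0 : ℕ, ∀ m, m0 ≤ m → ∃ (r : ℕ) (l : ℕ → ℕ) (_ : NeZero (Mk l r))
    (G : Finset (ZMod (Mk l r))ˣ), Arith C m r l G := by
  obtain ⟨m0, hP⟩ := exists_primes
  obtain ⟨C0, hC0, hmean⟩ := mean_good
  obtain ⟨C1, hC1⟩ := exists_nat_ge (2 * C0)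
  refine ⟨max C1 1000, m0, fun m hm => ?_⟩
  obtain ⟨r, l, h, hgen, hb4⟩ := hP m hm
  haveI hne : NeZero (Mk l r) := ⟨h.pos.ne'⟩
  refine ⟨r, l, hne, Good m r l, ?_⟩
  have hC1' : (2 * C0 : ℝ) ≤ ((max C1 1000 : ℕ) : ℝ) :=
    hC1.trans (by exact_mod_cast le_max_left C1 1000)
  have hC2 : (1000 : ℝ) ≤ ((max C1 1000 : ℕ) : ℝ) := by exact_mod_cast le_max_right C1 1000
  have hm1000 : (1000 : ℝ) ≤ (m : ℝ) := by exact_mod_cast h.hm
  have hm0 : (0 : ℝ) < m := by linarith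
  have hcard : ((Fintype.card (ZMod (Mk l r))ˣ : ℕ) : ℝ) = (Nat.totient (Mk l r) : ℝ) := by
    rw [ZMod.card_units_eq_totient]
  have hF0 : (0 : ℝ) ≤ (Nat.totient (Mk l r) : ℝ) := by positivity
  have hgc := good_card h
  have hpow : (1000 : ℝ) / (m : ℝ) ^ 26 ≤ 1 / 2 := by
    rw [div_le_div_iff₀ (by positivity) (by norm_num)]
    have h1 : (1000 : ℝ) ^ 2 ≤ (m : ℝ) ^ 2 := pow_le_pow_left₀ (by norm_num) hm1000 2
    have h2 : (m : ℝ) ^ 2 ≤ (m : ℝ) ^ 26 := pow_le_pow_right₀ (by linarith) (by norm_num)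
    nlinarith
  have haw : ∀ (M : ℕ) (x : ℤ × ℤ), 0 ≤ aw M x := fun M x => by unfold aw; positivity
  refine
    { one_le_r := h.hr
      r_le := by have := h.hrm; omega
      prime := h.prime
      inj := h.inj
      lo := h.lo
      hi := h.hi
      b_le := h.hb
      b_ge := hb4
      card := ?_
      bound := ?_
      mean := ?_
      triv := ?_ }
  · rw [hcard]
    refine le_trans (mul_le_mul_of_nonneg_right ?_ hF0) hgc
    have : (1000 : ℝ) / (m : ℝ) ^ 26 ≤ ((max C1 1000 : ℕ) : ℝ) / (m : ℝ) ^ 26 :=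
      div_le_div_of_nonneg_right hC2 (by positivity)
    linarith
  · intro κ hκ M hM a X c Y
    have hodd : Odd M := (h.bmM hM).odd
    have hg : Int.gcd (uv κ) M = 1 := MeanG_uv_gcd (h.dvd hM) κ
    have hnb : ¬ Bad m r l (uv κ) := by
      unfold Good at hκ
      rw [mem_filter] at hκ
      exact hκ.2
    have h1 := DM_le hodd hg a X c Y
    have h2 := good_bound h hM hg hnb
    have h3 : (100 : ℝ) * (m : ℝ) ^ 30 / 4 ≤ ((max C1 1000 : ℕ) : ℝ) * (m : ℝ) ^ 30 := by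
      have h4 : (1000 : ℝ) * (m : ℝ) ^ 30 ≤ ((max C1 1000 : ℕ) : ℝ) * (m : ℝ) ^ 30 :=
        mul_le_mul_of_nonneg_right hC2 (by positivity)
      have h5 : (0 : ℝ) ≤ (m : ℝ) ^ 30 := by positivity
      linarith
    linarith
  · intro M hM a X c Y
    have h1 := hmean m r l h hgen M hM a X c Y
    have h2 : (Nat.totient (Mk l r) : ℝ) ≤ 2 * ((Good m r l).card : ℝ) := by
      have h3 : (1 / 2 : ℝ) * (Nat.totient (Mk l r) : ℝ) ≤
          (1 - 1000 / (m : ℝ) ^ 26) * (Nat.totient (Mk l r) : ℝ) :=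
        mul_le_mul_of_nonneg_right (by linarith) hF0
      linarith
    have h4 : C0 * (Nat.totient (Mk l r) : ℝ) ≤ 2 * C0 * ((Good m r l).card : ℝ) := by
      have := mul_le_mul_of_nonneg_left h2 hC0.le
      linarith
    have h5 : 2 * C0 * ((Good m r l).card : ℝ) ≤
        ((max C1 1000 : ℕ) : ℝ) * ((Good m r l).card : ℝ) :=
      mul_le_mul_of_nonneg_right hC1' (Nat.cast_nonneg _)
    linarith
  · intro M hM
    refine ⟨fun κ => (∑ x ∈ SL M (uv κ), aw M x) / 4, ?_, ?_⟩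
    · intro κ a X c Y
      exact DM_le (h.bm.dvd hM).odd (MeanG_uv_gcd hM κ) a X c Y
    · rw [← sum_div, hcard]
      have h1 := har2 h.bm hM
      have h2 : (1000 : ℝ) * ((m : ℝ) ^ 2 * (Nat.totient (Mk l r) : ℝ)) ≤
          ((max C1 1000 : ℕ) : ℝ) * ((m : ℝ) ^ 2 * (Nat.totient (Mk l r) : ℝ)) :=
        mul_le_mul_of_nonneg_right hC2 (by positivity)
      have h3 : (0 : ℝ) ≤ (m : ℝ) ^ 2 * (Nat.totient (Mk l r) : ℝ) := by positivity
      linarith

end DiscPS
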