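import Mathlib

/-!
# Bernstein inequality for martingale differences on a finite product space
-/

namespace DiscPS

open Finset

/-- summing over all words is the same as averaging over the coordinate `i` first -/
theorem bern_avg {α : Type} [Fintype α] [Nonempty α] {I : Type} [Fintype I] [DecidableEq I]
    (i : I) (f : (I → α) → ℝ) :
    ∑ w, ∑ a, f (Function.update w i a) = (Fintype.card α : ℝ) * ∑ w, f w := by
  classical
  have h1 : ∀ g : (I → α) → ℝ, ∑ w, g w =
      ∑ p : α × ({j // j ≠ i} → α), g ((Equiv.funSplitAt i α).symm p) := fun g =>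
    (Equiv.sum_comp (Equiv.funSplitAt i α).symm g).symm
  have h2 : ∀ (p : α × ({j // j ≠ i} → α)) (a : α),
      Function.update ((Equiv.funSplitAt i α).symm p) i a = (Equiv.funSplitAt i α).symm (a, p.2) := by
    intro p a
    funext j
    by_cases hj : j = i
    · subst hj; simp [Equiv.funSplitAt]
    · simp [Equiv.funSplitAt, hj]
  rw [h1 (fun w => ∑ a, f (Function.update w i a)), h1 f]
  simp only [h2]
  rw [Fintype.sum_prod_type, Fintype.sum_prod_type]
  simp only [Finset.sum_const, Finset.card_univ, nsmul_eq_mul]
  congr 1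
  rw [Finset.sum_comm]

theorem bern_mgf {α : Type} [Fintype α] [Nonempty α] (N : ℕ) (d : Fin N → (Fin N → α) → ℝ)
    (B v : ℝ)
    (hdep : ∀ j (w w' : Fin N → α), (∀ i ≤ j, w i = w' i) → d j w = d j w')
    (hb : ∀ j w, |d j w| ≤ B) (hz : ∀ j w, ∑ a, d j (Function.update w j a) = 0)
    (hv : ∀ j w, ∑ a, d j (Function.update w j a) ^ 2 ≤ v * Fintype.card α)
    {s : ℝ} (hs : 0 < s) (hsB : s * B ≤ 1) (k : ℕ) (hk : k ≤ N) :
    ∑ w : Fin N → α, Real.exp (s * ∑ j ∈ univ.filter (fun j : Fin N => (j : ℕ) < k), d j w) ≤
      Real.exp (k * (s ^ 2 * v)) * (Fintype.card (Fin N → α) : ℝ) := by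
  induction k with
  | zero => simp
  | succ k ih =>
    have ih' := ih (by omega)
    have hkN : k < N := by omega
    set i : Fin N := ⟨k, hkN⟩ with hi
    set S : (Fin N → α) → ℝ := fun w => ∑ j ∈ univ.filter (fun j : Fin N => (j : ℕ) < k), d j w
      with hS
    have hcard : (0 : ℝ) < Fintype.card α := by exact_mod_cast Fintype.card_pos
    have hsplit : ∀ w, ∑ j ∈ univ.filter (fun j : Fin N => (j : ℕ) < k + 1), d j w =
        S w + d i w := by
      intro w
      have : univ.filter (fun j : Fin N => (j : ℕ) < k + 1) =
          insert i (univ.filter (fun j : Fin N => (j : ℕ) < k)) := by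
        ext j
        simp only [mem_filter, mem_univ, true_and, mem_insert, hi, Fin.ext_iff]
        omega
      rw [this, Finset.sum_insert (by simp [hi]), add_comm]
    have hSup : ∀ w a, S (Function.update w i a) = S w := by
      intro w a
      simp only [hS]
      refine Finset.sum_congr rfl fun j hj => ?_
      have hjk : (j : ℕ) < k := by simpa using hj
      refine hdep j _ _ fun l hl => ?_
      have : l ≠ i := by
        intro h
        rw [h, hi] at hl
        have : k ≤ (j : ℕ) := by exact_mod_cast hl
        omega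
      simp [Function.update_of_ne this]
    have hin : ∀ w, ∑ a, Real.exp (s * d i (Function.update w i a)) ≤
        Real.exp (s ^ 2 * v) * Fintype.card α := by
      intro w
      have h1 : ∀ a, Real.exp (s * d i (Function.update w i a)) ≤
          1 + s * d i (Function.update w i a) + s ^ 2 * d i (Function.update w i a) ^ 2 := by
        intro a
        have habs : |s * d i (Function.update w i a)| ≤ 1 := by
          rw [abs_mul, abs_of_pos hs]
          exact le_trans (mul_le_mul_of_nonneg_left (hb _ _) hs.le) hsB
        have := Real.abs_exp_sub_one_sub_id_le habs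
        have h2 := (abs_le.mp this).2
        nlinarith [h2]
      calc ∑ a, Real.exp (s * d i (Function.update w i a))
          ≤ ∑ a, (1 + s * d i (Function.update w i a) +
              s ^ 2 * d i (Function.update w i a) ^ 2) := Finset.sum_le_sum fun a _ => h1 a
        _ = Fintype.card α + s * ∑ a, d i (Function.update w i a) +
              s ^ 2 * ∑ a, d i (Function.update w i a) ^ 2 := by
            rw [Finset.sum_add_distrib, Finset.sum_add_distrib, Finset.mul_sum, Finset.mul_sum]
            simp
        _ ≤ Fintype.card α + s ^ 2 * (v * Fintype.card α) := by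
            rw [hz i w, mul_zero, add_zero]
            have := mul_le_mul_of_nonneg_left (hv i w) (sq_nonneg s)
            linarith
        _ = (s ^ 2 * v + 1) * Fintype.card α := by ring
        _ ≤ Real.exp (s ^ 2 * v) * Fintype.card α :=
            mul_le_mul_of_nonneg_right (Real.add_one_le_exp _) hcard.le
    have hmain : (Fintype.card α : ℝ) * ∑ w : Fin N → α, Real.exp (s * (S w + d i w)) ≤
        (Fintype.card α : ℝ) * (Real.exp (s ^ 2 * v) * ∑ w : Fin N → α, Real.exp (s * S w)) := by
      rw [← bern_avg i (fun w => Real.exp (s * (S w + d i w)))]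
      calc ∑ w : Fin N → α, ∑ a, Real.exp (s * (S (Function.update w i a) +
              d i (Function.update w i a)))
          = ∑ w : Fin N → α, Real.exp (s * S w) *
              ∑ a, Real.exp (s * d i (Function.update w i a)) := by
            refine Finset.sum_congr rfl fun w _ => ?_
            rw [Finset.mul_sum]
            refine Finset.sum_congr rfl fun a _ => ?_
            rw [hSup, mul_add, Real.exp_add]
        _ ≤ ∑ w : Fin N → α, Real.exp (s * S w) * (Real.exp (s ^ 2 * v) * Fintype.card α) :=
            Finset.sum_le_sum fun w _ =>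
              mul_le_mul_of_nonneg_left (hin w) (Real.exp_pos _).le
        _ = (Fintype.card α : ℝ) * (Real.exp (s ^ 2 * v) *
              ∑ w : Fin N → α, Real.exp (s * S w)) := by
            rw [← Finset.sum_mul]; ring
    have hmain' := le_of_mul_le_mul_left hmain hcard
    calc ∑ w : Fin N → α, Real.exp (s * ∑ j ∈ univ.filter
            (fun j : Fin N => (j : ℕ) < k + 1), d j w)
        = ∑ w : Fin N → α, Real.exp (s * (S w + d i w)) := by simp only [hsplit]
      _ ≤ Real.exp (s ^ 2 * v) * ∑ w : Fin N → α, Real.exp (s * S w) := hmain'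
      _ ≤ Real.exp (s ^ 2 * v) * (Real.exp (k * (s ^ 2 * v)) *
            (Fintype.card (Fin N → α) : ℝ)) :=
          mul_le_mul_of_nonneg_left ih' (Real.exp_pos _).le
      _ = Real.exp ((k + 1 : ℕ) * (s ^ 2 * v)) * (Fintype.card (Fin N → α) : ℝ) := by
          rw [← mul_assoc, ← Real.exp_add]
          congr 2
          push_cast
          ring

theorem bern_one {α : Type} [Fintype α] [Nonempty α] (N : ℕ) (d : Fin N → (Fin N → α) → ℝ)
    (B v : ℝ)
    (hdep : ∀ j (w w' : Fin N → α), (∀ i ≤ j, w i = w' i) → d j w = d j w')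
    (hb : ∀ j w, |d j w| ≤ B) (hz : ∀ j w, ∑ a, d j (Function.update w j a) = 0)
    (hv : ∀ j w, ∑ a, d j (Function.update w j a) ^ 2 ≤ v * Fintype.card α)
    {s lam : ℝ} (hs : 0 < s) (hsB : s * B ≤ 1) :
    ((univ.filter fun w : Fin N → α => lam < ∑ j, d j w).card : ℝ) ≤
      Real.exp (-(s * lam) + N * (s ^ 2 * v)) * (Fintype.card (Fin N → α) : ℝ) := by
  have h1 := bern_mgf N d B v hdep hb hz hv hs hsB N le_rfl
  have h2 : ∀ w : Fin N → α,
      ∑ j ∈ univ.filter (fun j : Fin N => (j : ℕ) < N), d j w = ∑ j, d j w := by
    intro w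
    congr 1
    ext j
    simp
  simp only [h2] at h1
  have h3 : ((univ.filter fun w : Fin N → α => lam < ∑ j, d j w).card : ℝ) *
      Real.exp (s * lam) ≤ ∑ w : Fin N → α, Real.exp (s * ∑ j, d j w) := by
    calc ((univ.filter fun w : Fin N → α => lam < ∑ j, d j w).card : ℝ) * Real.exp (s * lam)
        = ∑ _w ∈ (univ.filter fun w : Fin N → α => lam < ∑ j, d j w), Real.exp (s * lam) := by
          rw [Finset.sum_const, nsmul_eq_mul]
      _ ≤ ∑ w ∈ (univ.filter fun w : Fin N → α => lam < ∑ j, d j w),
            Real.exp (s * ∑ j, d j w) := by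
          refine Finset.sum_le_sum fun w hw => ?_
          have hw' : lam < ∑ j, d j w := by simpa using hw
          exact Real.exp_le_exp.mpr (mul_le_mul_of_nonneg_left hw'.le hs.le)
      _ ≤ ∑ w : Fin N → α, Real.exp (s * ∑ j, d j w) :=
          Finset.sum_le_sum_of_subset_of_nonneg (Finset.filter_subset _ _)
            fun _ _ _ => (Real.exp_pos _).le
  have h4 : ((univ.filter fun w : Fin N → α => lam < ∑ j, d j w).card : ℝ) =
      (((univ.filter fun w : Fin N → α => lam < ∑ j, d j w).card : ℝ) * Real.exp (s * lam)) *
        Real.exp (-(s * lam)) := by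
    rw [mul_assoc, ← Real.exp_add, add_neg_cancel, Real.exp_zero, mul_one]
  rw [h4, Real.exp_add]
  calc _ ≤ (Real.exp (N * (s ^ 2 * v)) * (Fintype.card (Fin N → α) : ℝ)) *
        Real.exp (-(s * lam)) :=
        mul_le_mul_of_nonneg_right (h3.trans h1) (Real.exp_pos _).le
    _ = _ := by ring

/-- Bernstein's inequality on a product space, coordinates ordered by `Fin N` -/
theorem bern {α : Type} [Fintype α] [Nonempty α] (N : ℕ) (d : Fin N → (Fin N → α) → ℝ) (B v : ℝ)
    (hdep : ∀ j (w w' : Fin N → α), (∀ i ≤ j, w i = w' i) → d j w = d j w')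
    (hb : ∀ j w, |d j w| ≤ B) (hz : ∀ j w, ∑ a, d j (Function.update w j a) = 0)
    (hv : ∀ j w, ∑ a, d j (Function.update w j a) ^ 2 ≤ v * Fintype.card α)
    {s lam : ℝ} (hs : 0 < s) (hsB : s * B ≤ 1) :
    ((univ.filter fun w : Fin N → α => lam < |∑ j, d j w|).card : ℝ) ≤
      2 * Real.exp (-(s * lam) + N * (s ^ 2 * v)) * (Fintype.card (Fin N → α) : ℝ) := by
  classical
  have h1 := bern_one N d B v hdep hb hz hv (lam := lam) hs hsB
  have h2 := bern_one N (fun j w => -(d j w)) B v
    (fun j w w' h => by rw [hdep j w w' h]) (fun j w => by rw [abs_neg]; exact hb j w)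
    (fun j w => by rw [Finset.sum_neg_distrib, hz j w, neg_zero])
    (fun j w => by simpa only [neg_sq] using hv j w) (lam := lam) hs hsB
  have hsub : (univ.filter fun w : Fin N → α => lam < |∑ j, d j w|) ⊆
      (univ.filter fun w : Fin N → α => lam < ∑ j, d j w) ∪
        (univ.filter fun w : Fin N → α => lam < ∑ j, -(d j w)) := by
    intro w hw
    simp only [mem_filter, mem_univ, true_and, mem_union] at hw ⊢
    rw [Finset.sum_neg_distrib]
    exact lt_abs.mp hw
  have h3 : ((univ.filter fun w : Fin N → α => lam < |∑ j, d j w|).card : ℝ) ≤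
      ((univ.filter fun w : Fin N → α => lam < ∑ j, d j w).card : ℝ) +
        ((univ.filter fun w : Fin N → α => lam < ∑ j, -(d j w)).card : ℝ) := by
    exact_mod_cast (Finset.card_le_card hsub).trans (Finset.card_union_le _ _)
  linarith

theorem bern_equiv {I : Type} [Fintype I] (rk : I → ℕ) (hrk : Function.Injective rk) :
    ∃ e : Fin (Fintype.card I) ≃ I, ∀ a b, rk (e a) ≤ rk (e b) ↔ a ≤ b := by
  let _ : LinearOrder I := LinearOrder.lift' rk hrk
  let e := Fintype.orderIsoFinOfCardEq I (rfl : Fintype.card I = Fintype.card I)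
  refine ⟨e.toEquiv, fun a b => ?_⟩
  exact e.le_iff_le

/-- the version with a rank function on a finite index set -/
theorem bern_rank {α : Type} [Fintype α] [Nonempty α] {I : Type} [Fintype I] [DecidableEq I]
    (rk : I → ℕ) (hrk : Function.Injective rk) (f : I → (I → α) → ℝ) (B B1 : ℝ) (hB : 0 ≤ B)
    (hdep : ∀ j (w w' : I → α), (∀ i, rk i ≤ rk j → w i = w' i) → f j w = f j w')
    (hb : ∀ j w, |f j w| ≤ B)
    (hb1 : ∀ j w, ∑ a, |f j (Function.update w j a)| ≤ B1 * Fintype.card α)
    {s lam : ℝ} (hs : 0 < s) (hsB : s * (2 * B) ≤ 1) :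
    ((univ.filter fun w : I → α => lam <
        |∑ j, (f j w - (∑ a, f j (Function.update w j a)) / Fintype.card α)|).card : ℝ) ≤
      2 * Real.exp (-(s * lam) + Fintype.card I * (s ^ 2 * (B * B1))) *
        (Fintype.card (I → α) : ℝ) := by
  classical
  have hcard : (0 : ℝ) < Fintype.card α := by exact_mod_cast Fintype.card_pos
  obtain ⟨e, he⟩ := bern_equiv rk hrk
  set g : I → (I → α) → ℝ := fun j w =>
    f j w - (∑ a, f j (Function.update w j a)) / Fintype.card α with hg
  have hgz : ∀ j w, ∑ a, g j (Function.update w j a) = 0 := by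
    intro j w
    simp only [hg, Function.update_idem, Finset.sum_sub_distrib, Finset.sum_const,
      Finset.card_univ, nsmul_eq_mul]
    field_simp
    ring
  have hgb : ∀ j w, |g j w| ≤ 2 * B := by
    intro j w
    have h1 : |(∑ a, f j (Function.update w j a)) / Fintype.card α| ≤ B := by
      rw [abs_div, abs_of_pos hcard, div_le_iff₀ hcard]
      calc |∑ a, f j (Function.update w j a)| ≤ ∑ a, |f j (Function.update w j a)| :=
            Finset.abs_sum_le_sum_abs _ _
        _ ≤ ∑ _a : α, B := Finset.sum_le_sum fun a _ => hb _ _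
        _ = B * Fintype.card α := by simp [mul_comm]
    calc |g j w| ≤ |f j w| + |(∑ a, f j (Function.update w j a)) / Fintype.card α| :=
          abs_sub _ _
      _ ≤ 2 * B := by linarith [hb j w]
  have hgv : ∀ j w, ∑ a, g j (Function.update w j a) ^ 2 ≤ B * B1 * Fintype.card α := by
    intro j w
    set m : ℝ := (∑ a, f j (Function.update w j a)) / Fintype.card α with hm
    have hm' : ∑ a, f j (Function.update w j a) = m * Fintype.card α := by
      rw [hm]; field_simp
    calc ∑ a, g j (Function.update w j a) ^ 2
        = ∑ a, (f j (Function.update w j a) - m) ^ 2 := by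
          simp only [hg, Function.update_idem, hm]
      _ = ∑ a, (f j (Function.update w j a)) ^ 2 - m ^ 2 * Fintype.card α := by
          have : ∀ a, (f j (Function.update w j a) - m) ^ 2 =
              (f j (Function.update w j a)) ^ 2 - 2 * m * f j (Function.update w j a) + m ^ 2 := by
            intro a; ring
          simp only [this, Finset.sum_add_distrib, Finset.sum_sub_distrib, ← Finset.mul_sum, hm',
            Finset.sum_const, Finset.card_univ, nsmul_eq_mul]
          ring
      _ ≤ ∑ a, (f j (Function.update w j a)) ^ 2 := by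
          have := mul_nonneg (sq_nonneg m) hcard.le
          linarith
      _ ≤ ∑ a, B * |f j (Function.update w j a)| := by
          refine Finset.sum_le_sum fun a _ => ?_
          rw [← sq_abs, sq]
          exact mul_le_mul_of_nonneg_right (hb _ _) (abs_nonneg _)
      _ = B * ∑ a, |f j (Function.update w j a)| := by rw [Finset.mul_sum]
      _ ≤ B * (B1 * Fintype.card α) := mul_le_mul_of_nonneg_left (hb1 j w) hB
      _ = B * B1 * Fintype.card α := by ring
  -- transport to `Fin N`
  have hupd : ∀ (w : Fin (Fintype.card I) → α) j a,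
      (Function.update w j a) ∘ e.symm = Function.update (w ∘ e.symm) (e j) a := by
    intro w j a
    funext i
    by_cases hi : i = e j
    · subst hi; simp
    · have : e.symm i ≠ j := fun h => hi (by rw [← h, Equiv.apply_symm_apply])
      simp [Function.update_of_ne hi, Function.update_of_ne this]
  have key := bern (α := α) (Fintype.card I) (fun j w => g (e j) (w ∘ e.symm)) (2 * B) (B * B1)
    (by
      intro j w w' h
      have hagree : ∀ i, rk i ≤ rk (e j) → (w ∘ e.symm) i = (w' ∘ e.symm) i := by
        intro i hi
        refine h _ ((he _ _).mp ?_)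
        simpa using hi
      simp only [hg]
      rw [hdep (e j) _ _ hagree]
      congr 2
      refine Finset.sum_congr rfl fun a _ => ?_
      refine hdep (e j) _ _ fun i hi => ?_
      by_cases hij : i = e j
      · subst hij; simp
      · simp only [Function.update_of_ne hij]
        exact hagree i hi)
    (fun j w => hgb _ _)
    (by intro j w; simp only [hupd]; exact hgz _ _)
    (by intro j w; simp only [hupd]; exact hgv _ _) (s := s) (lam := lam) hs hsB
  have hsum : ∀ w : Fin (Fintype.card I) → α,
      ∑ j, g (e j) (w ∘ e.symm) = ∑ j, g j (w ∘ e.symm) := by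
    intro w
    exact Equiv.sum_comp e (fun j => g j (w ∘ e.symm))
  simp only [hsum] at key
  have hc1 : (univ.filter fun w : I → α => lam < |∑ j, g j w|).card =
      (univ.filter fun w : Fin (Fintype.card I) → α => lam < |∑ j, g j (w ∘ e.symm)|).card := by
    refine Finset.card_bij (fun w _ => w ∘ e) ?_ ?_ ?_
    · intro w hw
      simp only [mem_filter, mem_univ, true_and] at hw ⊢
      have : (w ∘ e) ∘ e.symm = w := by funext i; simp
      rw [this]; exact hw
    · intro w _ w' _ h
      funext i
      have := congrFun h (e.symm i)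
      simpa using this
    · intro w hw
      simp only [mem_filter, mem_univ, true_and] at hw
      refine ⟨w ∘ e.symm, by simpa using hw, ?_⟩
      funext i; simp
  have hc2 : (Fintype.card (Fin (Fintype.card I) → α) : ℝ) = (Fintype.card (I → α) : ℝ) := by
    simp
  rw [hc1, ← hc2]
  exact key

end DiscPS
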