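import Pool.Agent.Work.DiscPS.Scal

/-!
# Power saving for the three-dimensional box discrepancy: cells with `i' = i + t + 1` (helper57)
-/

namespace DiscPS

open Finset

namespace Cell2

/-- divisibility by a divisor of the modulus -/
lemma dvd_iff {b M : ℕ} (hM : M ∣ b) (E : ℤ) :
    (M : ℤ) ∣ E ↔ ZMod.castHom hM (ZMod M) (E : ZMod b) = 0 := by
  rw [map_intCast, ZMod.intCast_zmod_eq_zero_iff_dvd]

/-- units do not matter -/
lemma dvd_mul_unit {b M : ℕ} (hM : M ∣ b) (u : (ZMod b)ˣ) {E F : ℤ}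
    (h : (E : ZMod b) = u * (F : ZMod b)) : (M : ℤ) ∣ E ↔ (M : ℤ) ∣ F := by
  rw [dvd_iff hM, dvd_iff hM, h, map_mul]
  exact (u.isUnit.map (ZMod.castHom hM (ZMod M))).mul_right_eq_zero

lemma uv_cast {b : ℕ} [NeZero b] (κ : (ZMod b)ˣ) : ((uv κ : ℤ) : ZMod b) = κ := by
  unfold uv
  rw [Int.cast_natCast, ZMod.natCast_val, ZMod.cast_id]

lemma val_cast {b : ℕ} [NeZero b] (v : ZMod b) : (((v.val : ℕ) : ℤ) : ZMod b) = v := by
  rw [Int.cast_natCast, ZMod.natCast_val, ZMod.cast_id]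

/-- the points of a cell in a residue class -/
lemma class_iff {b M : ℕ} [NeZero b] (hM : M ∣ b) (V ω y : ZMod b) (A κ : (ZMod b)ˣ) (w : ℤ) :
    ∃ c : ℤ, ∀ j j' : ℕ,
      (M : ℤ) ∣ ((V + A * ((j : ZMod b) - ω) - A * (κ⁻¹ : (ZMod b)ˣ) * ((j' : ZMod b) - y)).val : ℤ)
        - w ↔ (M : ℤ) ∣ (c + j') - uv κ * (0 + j) := by
  refine ⟨((-(y + κ * (A⁻¹ : (ZMod b)ˣ) * (V - w) - κ * ω) : ZMod b).val : ℤ), fun j j' => ?_⟩
  refine dvd_mul_unit hM (-(A * κ⁻¹)) ?_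
  push_cast
  simp only [uv_cast, ZMod.natCast_val, ZMod.cast_id', id_eq]
  have h1 : (A : ZMod b) * ((A⁻¹ : (ZMod b)ˣ) : ZMod b) = 1 := by
    rw [← Units.val_mul, mul_inv_cancel, Units.val_one]
  have h2 : (κ : ZMod b) * ((κ⁻¹ : (ZMod b)ˣ) : ZMod b) = 1 := by
    rw [← Units.val_mul, mul_inv_cancel, Units.val_one]
  set a := (A : ZMod b)
  set a' := ((A⁻¹ : (ZMod b)ˣ) : ZMod b)
  set k := (κ : ZMod b)
  set k' := ((κ⁻¹ : (ZMod b)ˣ) : ZMod b)
  linear_combination (-(V - w) * k * k') * h1 + (-(V - w) - a * (j - ω)) * h2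

lemma Mk_succ (l : ℕ → ℕ) (k : ℕ) : Mk l (k + 1) = Mk l k * l k := by
  unfold Mk
  rw [prod_range_succ]

lemma Mk_dvd (l : ℕ → ℕ) {k r : ℕ} (h : k ≤ r) : Mk l k ∣ Mk l r :=
  prod_dvd_prod_of_subset _ _ _ (range_subset_range.2 h)

lemma coprime_Mk {l : ℕ → ℕ} {r k : ℕ} (hp : ∀ i < r, (l i).Prime)
    (hinj : ∀ i < r, ∀ j < r, l i = l j → i = j) (hk : k < r) : Nat.Coprime (Mk l k) (l k) := by
  unfold Mk
  refine Nat.Coprime.prod_left fun i hi => ?_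
  have hi' : i < k := mem_range.1 hi
  refine (Nat.coprime_primes (hp i (hi'.trans hk)) (hp k hk)).2 fun h => ?_
  have := hinj i (hi'.trans hk) k hk h
  omega

/-- the residue classes of one level -/
lemma crt {l : ℕ → ℕ} {r k : ℕ} (hp : ∀ i < r, (l i).Prime)
    (hinj : ∀ i < r, ∀ j < r, l i = l j → i = j) (hk : k < r) (z u : ℕ) (hu : u < l k) :
    ∃ w : ℤ, ∀ v : ℕ, ((Mk l k : ℤ) ∣ (v : ℤ) - z ∧ v % l k = u) ↔
      ((Mk l (k + 1) : ℕ) : ℤ) ∣ (v : ℤ) - w := by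
  have hco := coprime_Mk hp hinj hk
  obtain ⟨w, hw1, hw2⟩ := Nat.chineseRemainder hco z u
  refine ⟨w, fun v => ?_⟩
  have hco' : IsCoprime (Mk l k : ℤ) (l k : ℤ) := Nat.isCoprime_iff_coprime.2 hco
  have e1 : (Mk l k : ℤ) ∣ (w : ℤ) - z := by
    have := (Int.natCast_modEq_iff.2 hw1).symm
    exact Int.ModEq.dvd this
  have e2 : (l k : ℤ) ∣ (w : ℤ) - u := by
    have := (Int.natCast_modEq_iff.2 hw2).symm
    exact Int.ModEq.dvd this
  have e3 : v % l k = u ↔ (l k : ℤ) ∣ (v : ℤ) - u := by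
    constructor
    · intro h
      have : (u : ℤ) ≡ v [ZMOD l k] := Int.natCast_modEq_iff.2 (by
        rw [← h]; exact Nat.mod_modEq _ _)
      exact this.dvd
    · intro h
      have : (u : ℤ) ≡ v [ZMOD l k] := Int.modEq_iff_dvd.2 h
      have h2 : u ≡ v [MOD l k] := Int.natCast_modEq_iff.1 this
      have h3 : u % l k = v % l k := h2
      rw [← h3, Nat.mod_eq_of_lt hu]
  rw [e3, Mk_succ, Nat.cast_mul]
  constructor
  · rintro ⟨h1, h2⟩
    refine hco'.mul_dvd ?_ ?_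
    · have := dvd_sub h1 e1
      rwa [sub_sub_sub_cancel_right] at this
    · have := dvd_sub h2 e2
      rwa [sub_sub_sub_cancel_right] at this
  · intro h
    constructor
    · have h1 := (dvd_mul_right (Mk l k : ℤ) (l k)).trans h
      have := dvd_add h1 e1
      rwa [sub_add_sub_cancel] at this
    · have h1 := (dvd_mul_left (l k : ℤ) (Mk l k)).trans h
      have := dvd_add h1 e2
      rwa [sub_add_sub_cancel] at this

/-- the number of points of the cell in a class, as a sum -/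
lemma cntM_eq (M : ℕ) (κ c : ℤ) (X Y : ℕ) : (cntM M κ 0 X c Y : ℝ) =
    ∑ j ∈ range X, ∑ j' ∈ range Y, if (M : ℤ) ∣ (c + j') - κ * (0 + j) then (1 : ℝ) else 0 := by
  unfold cntM
  rw [card_filter, Nat.cast_sum, sum_product]
  refine sum_congr rfl fun j _ => sum_congr rfl fun j' _ => ?_
  push_cast
  rfl

/-- **the bound of a cell by two-dimensional discrepancies** -/
theorem F2_le {l : ℕ → ℕ} {r : ℕ} [NeZero (Mk l r)] (hp : ∀ i < r, (l i).Prime)
    (hinj : ∀ i < r, ∀ j < r, l i = l j → i = j) {G : ZMod (Mk l r) → ℝ} (hG : LevG l r G)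
    (V ω x y : ZMod (Mk l r)) (A κ : (ZMod (Mk l r))ˣ) (W : ℕ → ℝ)
    (hW : ∀ k < r, ∀ c : ℤ, |DM (Mk l (k + 1)) (uv κ) 0 x.val c y.val| ≤ W k) :
    |F2 G V ω x y A κ| ≤ ∑ k ∈ range r, (l k : ℝ) * W k := by
  obtain ⟨z, γ, hγ, hγ0, hG⟩ := hG
  set v : ℕ → ℕ → ZMod (Mk l r) := fun j j' =>
    V + A * ((j : ZMod (Mk l r)) - ω) - A * (κ⁻¹ : (ZMod (Mk l r))ˣ) *
      ((j' : ZMod (Mk l r)) - y) with hv
  have h1 : F2 G V ω x y A κ = ∑ k ∈ range r, ∑ j ∈ range x.val, ∑ j' ∈ range y.val,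
      if (Mk l k : ℤ) ∣ ((v j j').val : ℤ) - z.val then γ k ((v j j').val % l k) else 0 := by
    unfold F2
    rw [sum_comm' (s := range r) (t := fun _ => range x.val) (s' := fun _ => range r)
      (t' := range x.val) (by simp)]
    refine sum_congr rfl fun j _ => ?_
    rw [sum_comm' (s := range r) (t := fun _ => range y.val) (s' := fun _ => range r)
      (t' := range y.val) (by simp)]
    refine sum_congr rfl fun j' _ => ?_
    exact hG (v j j')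
  rw [h1]
  refine (abs_sum_le_sum_abs _ _).trans (sum_le_sum fun k hk => ?_)
  have hk : k < r := mem_range.1 hk
  have hlk : 0 < l k := (hp k hk).pos
  have hMdvd : Mk l (k + 1) ∣ Mk l r := Mk_dvd l hk
  -- the classes
  have h2 : ∀ u : ℕ, u < l k → ∃ c : ℤ, ∀ j j' : ℕ,
      ((Mk l k : ℤ) ∣ ((v j j').val : ℤ) - z.val ∧ (v j j').val % l k = u) ↔
        ((Mk l (k + 1) : ℕ) : ℤ) ∣ (c + j') - uv κ * (0 + j) := by
    intro u hu
    obtain ⟨w, hw⟩ := crt hp hinj hk z.val u hu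
    obtain ⟨c, hc⟩ := class_iff hMdvd V ω y A κ w
    exact ⟨c, fun j j' => (hw _).trans (hc j j')⟩
  choose! c hc using h2
  have h3 : ∀ j j' : ℕ, (if (Mk l k : ℤ) ∣ ((v j j').val : ℤ) - z.val then
      γ k ((v j j').val % l k) else 0) = ∑ u ∈ range (l k), γ k u *
        (if ((Mk l (k + 1) : ℕ) : ℤ) ∣ (c u + j') - uv κ * (0 + j) then (1 : ℝ) else 0) := by
    intro j j'
    have h4 : ∀ u ∈ range (l k), γ k u *
        (if ((Mk l (k + 1) : ℕ) : ℤ) ∣ (c u + j') - uv κ * (0 + j) then (1 : ℝ) else 0) =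
        if u = (v j j').val % l k then (if (Mk l k : ℤ) ∣ ((v j j').val : ℤ) - z.val then
          γ k u else 0) else 0 := by
      intro u hu
      have h5 := hc u (mem_range.1 hu) j j'
      by_cases h6 : ((Mk l (k + 1) : ℕ) : ℤ) ∣ (c u + j') - uv κ * (0 + j)
      · obtain ⟨h7, h8⟩ := h5.2 h6
        rw [if_pos h6, if_pos h8.symm, if_pos h7, mul_one]
      · rw [if_neg h6, mul_zero]
        by_cases h8 : u = (v j j').val % l k
        · rw [if_pos h8]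
          by_cases h7 : (Mk l k : ℤ) ∣ ((v j j').val : ℤ) - z.val
          · exact absurd (h5.1 ⟨h7, h8.symm⟩) h6
          · rw [if_neg h7]
        · rw [if_neg h8]
    rw [sum_congr rfl h4, sum_ite_eq' (range (l k)) ((v j j').val % l k),
      if_pos (show (v j j').val % l k ∈ range (l k) from mem_range.2 (Nat.mod_lt _ hlk))]
  have h4 : ∑ j ∈ range x.val, ∑ j' ∈ range y.val,
      (if (Mk l k : ℤ) ∣ ((v j j').val : ℤ) - z.val then γ k ((v j j').val % l k) else 0) =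
      ∑ u ∈ range (l k), γ k u * DM (Mk l (k + 1)) (uv κ) 0 x.val (c u) y.val := by
    have h5 : ∑ j ∈ range x.val, ∑ j' ∈ range y.val,
        (if (Mk l k : ℤ) ∣ ((v j j').val : ℤ) - z.val then γ k ((v j j').val % l k) else 0) =
        ∑ u ∈ range (l k), γ k u * (cntM (Mk l (k + 1)) (uv κ) 0 x.val (c u) y.val : ℝ) := by
      simp_rw [h3, cntM_eq, mul_sum]
      rw [sum_comm' (s := range (l k)) (t := fun _ => range x.val) (s' := fun _ => range (l k))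
        (t' := range x.val) (by simp)]
      refine sum_congr rfl fun j _ => ?_
      rw [sum_comm' (s := range (l k)) (t := fun _ => range y.val) (s' := fun _ => range (l k))
        (t' := range y.val) (by simp)]
    rw [h5]
    unfold DM
    simp_rw [mul_sub]
    rw [sum_sub_distrib, ← sum_mul, hγ0 k hk, zero_mul, sub_zero]
  rw [h4]
  calc |∑ u ∈ range (l k), γ k u * DM (Mk l (k + 1)) (uv κ) 0 x.val (c u) y.val|
      ≤ ∑ u ∈ range (l k), |γ k u * DM (Mk l (k + 1)) (uv κ) 0 x.val (c u) y.val| :=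
        abs_sum_le_sum_abs _ _
    _ ≤ ∑ _u ∈ range (l k), W k := by
        refine sum_le_sum fun u _ => ?_
        rw [abs_mul]
        calc |γ k u| * |DM (Mk l (k + 1)) (uv κ) 0 x.val (c u) y.val|
            ≤ 1 * |DM (Mk l (k + 1)) (uv κ) 0 x.val (c u) y.val| := by
              gcongr
              exact hγ k u
          _ ≤ W k := by rw [one_mul]; exact hW k hk (c u)
    _ = (l k : ℝ) * W k := by rw [sum_const, card_range, nsmul_eq_mul]

end Cell2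

theorem cell2_bound (C : ℕ) {m r : ℕ} {l : ℕ → ℕ} [NeZero (Mk l r)]
    {G0 : Finset (ZMod (Mk l r))ˣ} (h : Arith C m r l G0) {G : ZMod (Mk l r) → ℝ}
    (hG : LevG l r G) (V ω x y : ZMod (Mk l r)) (A : (ZMod (Mk l r))ˣ) :
    (∀ κ ∈ G0, |F2 G V ω x y A κ| ≤ (r : ℝ) * (4 * m ^ 16) * (C * (m : ℝ) ^ 30)) ∧
      ∑ κ ∈ G0, |F2 G V ω x y A κ| ≤ (r : ℝ) * (4 * m ^ 16) * (C * (m : ℝ) ^ 2) *
        (Fintype.card (ZMod (Mk l r))ˣ : ℝ) := by
  have hl : ∀ k ∈ range r, (l k : ℝ) ≤ 4 * m ^ 16 := fun k hk => by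
    exact_mod_cast h.hi k (mem_range.1 hk)
  constructor
  · intro κ hκ
    have h1 := Cell2.F2_le h.prime h.inj hG V ω x y A κ (fun _ => (C : ℝ) * (m : ℝ) ^ 30)
      (fun k hk c => h.bound κ hκ _ ⟨k + 1, hk, Or.inl rfl⟩ 0 _ c _)
    refine h1.trans ?_
    calc ∑ k ∈ range r, (l k : ℝ) * ((C : ℝ) * (m : ℝ) ^ 30)
        ≤ ∑ _k ∈ range r, (4 * (m : ℝ) ^ 16) * ((C : ℝ) * (m : ℝ) ^ 30) := by
          refine sum_le_sum fun k hk => ?_
          have := hl k hk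
          gcongr
      _ = (r : ℝ) * (4 * m ^ 16) * (C * (m : ℝ) ^ 30) := by
          rw [sum_const, card_range, nsmul_eq_mul]; ring
  · have h2 : ∀ k : ℕ, ∃ W : (ZMod (Mk l r))ˣ → ℝ, k < r →
        (∀ κ (a : ℤ) (X : ℕ) (c : ℤ) (Y : ℕ), |DM (Mk l (k + 1)) (uv κ) a X c Y| ≤ W κ) ∧
          ∑ κ, W κ ≤ (C : ℝ) * (m : ℝ) ^ 2 * (Fintype.card (ZMod (Mk l r))ˣ : ℝ) := by
      intro k
      by_cases hk : k < r
      · obtain ⟨W, hW⟩ := h.triv (Mk l (k + 1)) (Cell2.Mk_dvd l hk)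
        exact ⟨W, fun _ => hW⟩
      · exact ⟨fun _ => 0, fun h => absurd h hk⟩
    choose W hW using h2
    have hW0 : ∀ k ∈ range r, ∀ κ, 0 ≤ W k κ := fun k hk κ =>
      (abs_nonneg _).trans ((hW k (mem_range.1 hk)).1 κ 0 0 0 0)
    calc ∑ κ ∈ G0, |F2 G V ω x y A κ|
        ≤ ∑ κ ∈ G0, ∑ k ∈ range r, (l k : ℝ) * W k κ := by
          refine sum_le_sum fun κ _ => ?_
          exact Cell2.F2_le h.prime h.inj hG V ω x y A κ (fun k => W k κ)
            (fun k hk c => (hW k hk).1 κ 0 _ c _)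
      _ ≤ ∑ κ, ∑ k ∈ range r, (l k : ℝ) * W k κ :=
          sum_le_univ_sum_of_nonneg fun κ => sum_nonneg fun k hk =>
            mul_nonneg (Nat.cast_nonneg _) (hW0 k hk κ)
      _ = ∑ k ∈ range r, (l k : ℝ) * ∑ κ, W k κ := by
          rw [sum_comm]
          exact sum_congr rfl fun k _ => by rw [mul_sum]
      _ ≤ ∑ _k ∈ range r, (4 * (m : ℝ) ^ 16) *
            ((C : ℝ) * (m : ℝ) ^ 2 * (Fintype.card (ZMod (Mk l r))ˣ : ℝ)) := by
          refine sum_le_sum fun k hk => ?_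
          have h3 := hl k hk
          have h4 := (hW k (mem_range.1 hk)).2
          have h5 : 0 ≤ ∑ κ, W k κ := sum_nonneg fun κ _ => hW0 k hk κ
          gcongr
      _ = (r : ℝ) * (4 * m ^ 16) * (C * (m : ℝ) ^ 2) *
            (Fintype.card (ZMod (Mk l r))ˣ : ℝ) := by
          rw [sum_const, card_range, nsmul_eq_mul]; ring

namespace Cell2

/-- many good multipliers -/
lemma card_le {C m r : ℕ} {l : ℕ → ℕ} [NeZero (Mk l r)] {G0 : Finset (ZMod (Mk l r))ˣ}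
    (h : Arith C m r l G0) (hm : 2 * C + 1 ≤ m) :
    (Fintype.card (ZMod (Mk l r))ˣ : ℝ) ≤ 2 * G0.card := by
  have h1 := h.card
  have hm1 : (1 : ℝ) ≤ m := by exact_mod_cast (by omega : 1 ≤ m)
  have hm2 : (2 * C + 1 : ℝ) ≤ m := by exact_mod_cast hm
  have h2 : (m : ℝ) ≤ (m : ℝ) ^ 26 := le_self_pow₀ hm1 (by norm_num)
  have h3 : (C : ℝ) / (m : ℝ) ^ 26 ≤ 1 / 2 := by
    rw [div_le_div_iff₀ (by positivity) (by norm_num)]
    linarith
  have h4 : (0 : ℝ) ≤ (Fintype.card (ZMod (Mk l r))ˣ : ℝ) := Nat.cast_nonneg _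
  nlinarith

/-- the count of the scalar average is a two-dimensional count -/
lemma filter_card {b d : ℕ} [NeZero b] (hd : d ∣ b) (ω x y : ZMod b) (κ : (ZMod b)ˣ) :
    ((range x.val ×ˢ range y.val).filter fun p : ℕ × ℕ =>
      d ∣ (((p.1 : ZMod b) - ω) - (κ⁻¹ : (ZMod b)ˣ) * ((p.2 : ZMod b) - y)).val).card =
    cntM d (uv κ) (-(ω.val : ℤ)) x.val (-(y.val : ℤ)) y.val := by
  unfold cntM
  congr 1
  refine filter_congr fun p _ => ?_
  rw [← Int.natCast_dvd_natCast]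
  refine dvd_mul_unit hd (-κ⁻¹) ?_
  push_cast
  simp only [uv_cast, ZMod.natCast_val, ZMod.cast_id', id_eq]
  have h2 : (κ : ZMod b) * ((κ⁻¹ : (ZMod b)ˣ) : ZMod b) = 1 := by
    rw [← Units.val_mul, mul_inv_cancel, Units.val_one]
  set k := (κ : ZMod b)
  set k' := ((κ⁻¹ : (ZMod b)ˣ) : ZMod b)
  linear_combination (-(p.1 - ω)) * h2

end Cell2

theorem cell2_mean (C : ℕ) : ∃ (m1 : ℕ) (C' : ℝ), ∀ (m r : ℕ) (l : ℕ → ℕ) [NeZero (Mk l r)]
    (G0 : Finset (ZMod (Mk l r))ˣ), m1 ≤ m → Arith C m r l G0 → ∀ G, LevG l r G →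
    ∀ V ω x y : ZMod (Mk l r), |∑ κ ∈ G0, ∑ A : (ZMod (Mk l r))ˣ, F2 G V ω x y A κ| ≤
      C' * m * G0.card * (Fintype.card (ZMod (Mk l r))ˣ : ℝ) := by
  obtain ⟨m1, C', hs⟩ := scal (2 * C)
  refine ⟨max m1 (2 * C + 1), C', fun m r l _ G0 hm hA G hG V ω x y => ?_⟩
  have hm1 : m1 ≤ m := (le_max_left _ _).trans hm
  have hm2 : 2 * C + 1 ≤ m := (le_max_right _ _).trans hm
  have hcard := Cell2.card_le hA hm2
  have key := hs m r l hm1 hA.one_le_r hA.r_le hA.prime hA.inj hA.lo G hG V G0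
    (fun _ => range x.val ×ˢ range y.val)
    (fun κ p => ((p.1 : ZMod (Mk l r)) - ω) - (κ⁻¹ : (ZMod (Mk l r))ˣ) *
      ((p.2 : ZMod (Mk l r)) - y)) ((x.val : ℝ) * y.val)
    (fun κ d => DM d (uv κ) (-(ω.val : ℤ)) x.val (-(y.val : ℤ)) y.val) ?_ ?_ ?_
  · have e : ∀ κ ∈ G0, ∑ A : (ZMod (Mk l r))ˣ, F2 G V ω x y A κ =
        ∑ g : (ZMod (Mk l r))ˣ, ∑ p ∈ range x.val ×ˢ range y.val,
          G (V + g * (((p.1 : ZMod (Mk l r)) - ω) - (κ⁻¹ : (ZMod (Mk l r))ˣ) *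
            ((p.2 : ZMod (Mk l r)) - y))) := by
      intro κ _
      refine sum_congr rfl fun A _ => ?_
      unfold F2
      rw [sum_product]
      refine sum_congr rfl fun j _ => sum_congr rfl fun j' _ => ?_
      congr 1
      ring
    rw [sum_congr rfl e]
    exact key
  · intro κ _ d hd
    rw [Cell2.filter_card hd]
    unfold DM
    ring
  · intro k hk
    refine (hA.mean (Mk l k) ⟨k, hk, Or.inl rfl⟩ _ _ _ _).trans ?_
    push_cast
    have h1 : (0 : ℝ) ≤ (C : ℝ) := Nat.cast_nonneg _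
    have h2 : (0 : ℝ) ≤ (G0.card : ℝ) := Nat.cast_nonneg _
    nlinarith [mul_nonneg h1 h2]
  · intro d hd
    obtain ⟨W, hW1, hW2⟩ := hA.triv d hd
    have hW0 : ∀ κ, 0 ≤ W κ := fun κ => (abs_nonneg _).trans (hW1 κ 0 0 0 0)
    calc ∑ κ ∈ G0, |DM d (uv κ) (-(ω.val : ℤ)) x.val (-(y.val : ℤ)) y.val|
        ≤ ∑ κ ∈ G0, W κ := sum_le_sum fun κ _ => hW1 κ _ _ _ _
      _ ≤ ∑ κ, W κ := sum_le_univ_sum_of_nonneg hW0
      _ ≤ (C : ℝ) * (m : ℝ) ^ 2 * (Fintype.card (ZMod (Mk l r))ˣ : ℝ) := hW2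
      _ ≤ (C : ℝ) * (m : ℝ) ^ 2 * (2 * G0.card) := by gcongr
      _ = ((2 * C : ℕ) : ℝ) * (m : ℝ) ^ 2 * G0.card := by push_cast; ring

end DiscPS
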