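import Pool.Agent.Work.DiscPS.Cell2

/-!
# Cells with `i' = i + t`
-/

namespace DiscPS

open Finset

/-- first `j` with `0 ≤ s + M j` -/
def cell3_lo (s : ℤ) (M : ℕ) : ℤ := -(s / M)

/-- number of `j` with `0 ≤ s + M j < L` -/
def cell3_len (s : ℤ) (L M : ℕ) : ℕ := (s / M - (s - L) / M).toNat

theorem cell3_len_cast (s : ℤ) (L M : ℕ) (hM : 0 < M) :
    ((cell3_len s L M : ℕ) : ℤ) = s / M - (s - L) / M := by
  unfold cell3_len
  rw [Int.toNat_of_nonneg]
  have : (s - L) / (M : ℤ) ≤ s / M := Int.ediv_le_ediv (by exact_mod_cast hM) (by omega)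
  omega

theorem cell3_mem (s : ℤ) (L M : ℕ) (hM : 0 < M) (j : ℤ) :
    (0 ≤ s + M * j ∧ s + M * j < L) ↔
      (cell3_lo s M ≤ j ∧ j < cell3_lo s M + cell3_len s L M) := by
  have hM' : (0 : ℤ) < M := by exact_mod_cast hM
  rw [cell3_len_cast s L M hM]
  unfold cell3_lo
  have h1 : 0 ≤ s + M * j ↔ -(s / M) ≤ j := by
    rw [neg_le, Int.le_ediv_iff_mul_le hM']
    constructor <;> intro h <;> nlinarith
  have h2 : s + M * j < L ↔ j < -(s / M) + (s / M - (s - L) / M) := by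
    have : j < -(s / M) + (s / M - (s - L) / M) ↔ (s - L) / M < -j := by
      constructor <;> intro h <;> linarith
    rw [this, Int.ediv_lt_iff_lt_mul hM']
    constructor <;> intro h <;> nlinarith
  rw [h1, h2]

theorem cell3_len_bound (s : ℤ) (L M : ℕ) (hM : 0 < M) :
    |(M : ℝ) * (cell3_len s L M : ℝ) - L| ≤ M := by
  have hM' : (0 : ℤ) < M := by exact_mod_cast hM
  have h0 := cell3_len_cast s L M hM
  have a1 := Int.mul_ediv_add_emod s M
  have a2 := Int.emod_nonneg s hM'.ne'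
  have a3 := Int.emod_lt_of_pos s hM'
  have b1 := Int.mul_ediv_add_emod (s - L) M
  have b2 := Int.emod_nonneg (s - L) hM'.ne'
  have b3 := Int.emod_lt_of_pos (s - L) hM'
  have key : (M : ℤ) * (cell3_len s L M : ℤ) - L = (s - L) % M - s % M := by
    rw [h0, mul_sub]; linarith
  have h1 : |(M : ℤ) * (cell3_len s L M : ℤ) - L| ≤ M := by
    rw [key, abs_le]; constructor <;> linarith
  have h2 : ((|(M : ℤ) * (cell3_len s L M : ℤ) - L| : ℤ) : ℝ) ≤ ((M : ℤ) : ℝ) := by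
    exact_mod_cast h1
  push_cast at h2
  exact h2

/-- the counting lemma -/
theorem cell3_cnt (M M' x0 y0 : ℕ) (hM : 0 < M) (hy : y0 ≤ M * M')
    (k w h0 : ℤ) :
    ((range x0).filter fun j : ℕ =>
      (∃ j' ∈ range y0, ((M * M' : ℕ) : ℤ) ∣ (y0 + k * (j - w)) - j') ∧
        (M : ℤ) ∣ (j - w - h0)).card =
    cntM M' k (cell3_lo (w + h0) M) (cell3_len (w + h0) x0 M)
      (cell3_lo (y0 + k * h0) M) (cell3_len (y0 + k * h0) y0 M) := by
  classical
  have hMZ : (0 : ℤ) < M := by exact_mod_cast hM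
  unfold cntM
  symm
  apply Finset.card_bij
    (fun (p : ℕ × ℕ) _ => ((w + h0) + M * (cell3_lo (w + h0) M + p.1)).toNat)
  · rintro ⟨p1, p2⟩ hp
    simp only [mem_filter, mem_product, mem_range] at hp ⊢
    obtain ⟨⟨hp1, hp2⟩, hd⟩ := hp
    have e1 := (cell3_mem (w + h0) x0 M hM (cell3_lo (w + h0) M + p1)).2
      ⟨by omega, by omega⟩
    have e2 := (cell3_mem (y0 + k * h0) y0 M hM (cell3_lo (y0 + k * h0) M + p2)).2
      ⟨by omega, by omega⟩
    have c1 : ((((w + h0) + M * (cell3_lo (w + h0) M + p1)).toNat : ℕ) : ℤ) =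
        (w + h0) + M * (cell3_lo (w + h0) M + p1) := Int.toNat_of_nonneg e1.1
    refine ⟨?_, ⟨((y0 + k * h0) + M * (cell3_lo (y0 + k * h0) M + p2)).toNat, ?_, ?_⟩, ?_⟩
    · have : ((((w + h0) + M * (cell3_lo (w + h0) M + p1)).toNat : ℕ) : ℤ) < x0 := by
        rw [c1]; exact e1.2
      exact_mod_cast this
    · have c2 : ((((y0 + k * h0) + M * (cell3_lo (y0 + k * h0) M + p2)).toNat : ℕ) : ℤ) =
        (y0 + k * h0) + M * (cell3_lo (y0 + k * h0) M + p2) := Int.toNat_of_nonneg e2.1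
      have : ((((y0 + k * h0) + M * (cell3_lo (y0 + k * h0) M + p2)).toNat : ℕ) : ℤ) < y0 := by
        rw [c2]; exact e2.2
      exact_mod_cast this
    · have c2 : ((((y0 + k * h0) + M * (cell3_lo (y0 + k * h0) M + p2)).toNat : ℕ) : ℤ) =
        (y0 + k * h0) + M * (cell3_lo (y0 + k * h0) M + p2) := Int.toNat_of_nonneg e2.1
      rw [c1, c2]
      obtain ⟨q, hq⟩ := hd
      refine ⟨-q, ?_⟩
      push_cast
      linear_combination (-(M : ℤ)) * hq
    · rw [c1]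
      exact ⟨cell3_lo (w + h0) M + p1, by ring⟩
  · rintro ⟨p1, p2⟩ hp ⟨q1, q2⟩ hq heq
    simp only [mem_filter, mem_product, mem_range] at hp hq
    obtain ⟨⟨hp1, hp2⟩, hd⟩ := hp
    obtain ⟨⟨hq1, hq2⟩, hd'⟩ := hq
    have e1 := (cell3_mem (w + h0) x0 M hM (cell3_lo (w + h0) M + p1)).2
      ⟨by omega, by omega⟩
    have e1' := (cell3_mem (w + h0) x0 M hM (cell3_lo (w + h0) M + q1)).2
      ⟨by omega, by omega⟩
    have e2 := (cell3_mem (y0 + k * h0) y0 M hM (cell3_lo (y0 + k * h0) M + p2)).2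
      ⟨by omega, by omega⟩
    have e2' := (cell3_mem (y0 + k * h0) y0 M hM (cell3_lo (y0 + k * h0) M + q2)).2
      ⟨by omega, by omega⟩
    have heq' : (w + h0) + M * (cell3_lo (w + h0) M + p1) =
        (w + h0) + M * (cell3_lo (w + h0) M + (q1 : ℤ)) := by
      have := congrArg (fun n : ℕ => (n : ℤ)) heq
      simp only at this
      rwa [Int.toNat_of_nonneg e1.1, Int.toNat_of_nonneg e1'.1] at this
    have h1 : (p1 : ℤ) = q1 := by
      have : (M : ℤ) * p1 = M * q1 := by linarith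
      exact mul_left_cancel₀ hMZ.ne' this
    have h1' : p1 = q1 := by exact_mod_cast h1
    have h2 : (M' : ℤ) ∣ (p2 : ℤ) - q2 := by
      have e : (p2 : ℤ) - q2 = ((cell3_lo (y0 + k * h0) M + p2) - k * (cell3_lo (w + h0) M + p1)) -
          ((cell3_lo (y0 + k * h0) M + q2) - k * (cell3_lo (w + h0) M + q1)) := by
        rw [h1]; ring
      rw [e]
      exact dvd_sub hd hd'
    have hb : ((M : ℤ) * M') ≥ y0 := by exact_mod_cast hy
    have h3 : |(p2 : ℤ) - q2| < M' := by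
      have hlt : (M : ℤ) * |(p2 : ℤ) - q2| < M * M' := by
        rw [← abs_of_pos hMZ, ← abs_mul, abs_of_pos hMZ, abs_lt]
        constructor <;> nlinarith [e2.1, e2.2, e2'.1, e2'.2]
      exact lt_of_mul_lt_mul_left hlt hMZ.le
    have h4 : (p2 : ℤ) - q2 = 0 := Int.eq_zero_of_abs_lt_dvd h2 h3
    have h5 : p2 = q2 := by omega
    rw [h1', h5]
  · intro j hj
    simp only [mem_filter, mem_range] at hj
    obtain ⟨hjx, ⟨j', hj', hd⟩, hdM⟩ := hj
    obtain ⟨j1, hj1⟩ := hdM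
    have hjj : (j : ℤ) = (w + h0) + M * j1 := by linarith
    have hdM2 : (M : ℤ) ∣ ((y0 : ℤ) + k * (j - w)) - j' := by
      refine dvd_trans ?_ hd
      push_cast
      exact dvd_mul_right _ _
    have hdM3 : (M : ℤ) ∣ (j' : ℤ) - (y0 + k * h0) := by
      obtain ⟨q, hq⟩ := hdM2
      refine ⟨k * j1 - q, ?_⟩
      have : (j : ℤ) - w = h0 + M * j1 := by linarith
      rw [this] at hq
      linear_combination (-1 : ℤ) * hq
    obtain ⟨j2, hj2⟩ := hdM3
    have hjj' : (j' : ℤ) = (y0 + k * h0) + M * j2 := by linarith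
    have r1 := (cell3_mem (w + h0) x0 M hM j1).1 ⟨by rw [← hjj]; positivity, by
      rw [← hjj]; exact_mod_cast hjx⟩
    have r2 := (cell3_mem (y0 + k * h0) y0 M hM j2).1 ⟨by rw [← hjj']; positivity, by
      rw [← hjj']; exact_mod_cast hj'⟩
    refine ⟨((j1 - cell3_lo (w + h0) M).toNat, (j2 - cell3_lo (y0 + k * h0) M).toNat), ?_, ?_⟩
    · simp only [mem_filter, mem_product, mem_range]
      have t1 : (((j1 - cell3_lo (w + h0) M).toNat : ℕ) : ℤ) = j1 - cell3_lo (w + h0) M :=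
        Int.toNat_of_nonneg (by omega)
      have t2 : (((j2 - cell3_lo (y0 + k * h0) M).toNat : ℕ) : ℤ) =
        j2 - cell3_lo (y0 + k * h0) M := Int.toNat_of_nonneg (by omega)
      refine ⟨⟨by omega, by omega⟩, ?_⟩
      rw [t1, t2]
      have hd2 : ((M : ℤ) * M') ∣ (M : ℤ) * (k * j1 - j2) := by
        obtain ⟨q, hq⟩ := hd
        refine ⟨q, ?_⟩
        have : (j : ℤ) - w = h0 + M * j1 := by linarith
        rw [this, hjj'] at hq
        push_cast at hq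
        linear_combination hq
      have hd3 : (M' : ℤ) ∣ k * j1 - j2 := (mul_dvd_mul_iff_left hMZ.ne').1 hd2
      have : (cell3_lo (y0 + k * h0) M + (j2 - cell3_lo (y0 + k * h0) M)) -
          k * (cell3_lo (w + h0) M + (j1 - cell3_lo (w + h0) M)) = -(k * j1 - j2) := by ring
      rw [this]
      exact (dvd_neg).2 hd3
    · simp only
      have t1 : (((j1 - cell3_lo (w + h0) M).toNat : ℕ) : ℤ) = j1 - cell3_lo (w + h0) M :=
        Int.toNat_of_nonneg (by omega)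
      rw [t1]
      have : (w + h0) + M * (cell3_lo (w + h0) M + (j1 - cell3_lo (w + h0) M)) = (j : ℤ) := by
        rw [hjj]; ring
      rw [this]
      exact Int.toNat_natCast j

/-- the main term -/
theorem cell3_main (M M' X1 Y1 x0 y0 : ℝ) (hM : 0 < M) (hM' : 1 ≤ M')
    (h1 : |M * X1 - x0| ≤ M) (h2 : |M * Y1 - y0| ≤ M) (hx0 : 0 ≤ x0) (hy0 : 0 ≤ y0)
    (hx : x0 ≤ M * M') (hy : y0 ≤ M * M') :
    |X1 * Y1 / M' - x0 * y0 / (M * (M * M'))| ≤ 3 := by
  have hM'0 : 0 < M' := by linarith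
  have e : X1 * Y1 / M' - x0 * y0 / (M * (M * M')) =
      ((M * X1 - x0) * (M * Y1) + x0 * (M * Y1 - y0)) / (M * (M * M')) := by
    field_simp
    ring
  have hpos : 0 < M * (M * M') := by positivity
  rw [e, abs_div, abs_of_pos hpos, div_le_iff₀ hpos]
  have h3 : |M * Y1| ≤ y0 + M := by
    have : M * Y1 = y0 + (M * Y1 - y0) := by ring
    rw [this]
    exact (abs_add_le _ _).trans (by rw [abs_of_nonneg hy0]; linarith)
  calc |(M * X1 - x0) * (M * Y1) + x0 * (M * Y1 - y0)|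
      ≤ |(M * X1 - x0) * (M * Y1)| + |x0 * (M * Y1 - y0)| := abs_add_le _ _
    _ = |M * X1 - x0| * |M * Y1| + x0 * |M * Y1 - y0| := by
        rw [abs_mul (M * X1 - x0), abs_mul x0, abs_of_nonneg hx0]
    _ ≤ M * (y0 + M) + x0 * M := by gcongr
    _ ≤ M * (M * M' + M) + (M * M') * M := by gcongr
    _ ≤ 3 * (M * (M * M')) := by
        have : M * M ≤ M * M * M' := by nlinarith [mul_pos hM hM]
        nlinarith

/-- the count in a class: main term and discrepancy -/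
theorem cell3_cnt_err (M M' x0 y0 : ℕ) (hM : 0 < M) (hM' : 0 < M') (hx : x0 ≤ M * M')
    (hy : y0 ≤ M * M') (k w h0 : ℤ) :
    |(((range x0).filter fun j : ℕ =>
      (∃ j' ∈ range y0, ((M * M' : ℕ) : ℤ) ∣ (y0 + k * (j - w)) - j') ∧
        (M : ℤ) ∣ (j - w - h0)).card : ℝ) -
      DM M' k (cell3_lo (w + h0) M) (cell3_len (w + h0) x0 M)
      (cell3_lo (y0 + k * h0) M) (cell3_len (y0 + k * h0) y0 M) -
      (x0 : ℝ) * y0 / (M * (M * M'))| ≤ 3 := by
  rw [cell3_cnt M M' x0 y0 hM hy k w h0]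
  unfold DM
  have h := cell3_main (M : ℝ) (M' : ℝ) (cell3_len (w + h0) x0 M : ℝ)
    (cell3_len (y0 + k * h0) y0 M : ℝ) x0 y0 (by exact_mod_cast hM) (by exact_mod_cast hM')
    (cell3_len_bound _ _ _ hM) (cell3_len_bound _ _ _ hM) (by positivity) (by positivity)
    (by exact_mod_cast hx) (by exact_mod_cast hy)
  refine le_trans (le_of_eq ?_) h
  congr 1
  ring

/-- the condition on the second digit -/
theorem cell3_cond {b : ℕ} [NeZero b] (ω y : ZMod b) (κ : (ZMod b)ˣ) (j : ℕ) :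
    (y + κ * ((j : ZMod b) - ω)).val < y.val ↔
      ∃ j' ∈ range y.val, (b : ℤ) ∣ ((y.val : ℤ) + uv κ * (j - (ω.val : ℤ))) - j' := by
  have h1 : ∀ j' : ℕ, (b : ℤ) ∣ ((y.val : ℤ) + uv κ * (j - (ω.val : ℤ))) - j' ↔
      y + κ * ((j : ZMod b) - ω) = (j' : ZMod b) := by
    intro j'
    rw [← ZMod.intCast_zmod_eq_zero_iff_dvd]
    push_cast
    simp only [Cell2.uv_cast, ZMod.natCast_val, ZMod.cast_id', id_eq]
    exact sub_eq_zero
  constructor
  · intro h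
    refine ⟨_, mem_range.2 h, (h1 _).2 ?_⟩
    rw [ZMod.natCast_val, ZMod.cast_id]
  · rintro ⟨j', hj', hd⟩
    rw [(h1 j').1 hd, ZMod.val_natCast_of_lt]
    · exact mem_range.1 hj'
    · exact (mem_range.1 hj').trans (ZMod.val_lt y)

/-- the condition on the class of the third digit -/
theorem cell3_class {b M : ℕ} [NeZero b] (hM : M ∣ b) (V ω : ZMod b) (A : (ZMod b)ˣ) (w : ℤ) :
    ∃ h0 : ℤ, ∀ j : ℕ, (M : ℤ) ∣ ((V + A * ((j : ZMod b) - ω)).val : ℤ) - w ↔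
      (M : ℤ) ∣ ((j : ℤ) - (ω.val : ℤ) - h0) := by
  refine ⟨((((A⁻¹ : (ZMod b)ˣ) : ZMod b) * (w - V)).val : ℤ), fun j => ?_⟩
  refine Cell2.dvd_mul_unit hM A ?_
  push_cast
  simp only [ZMod.natCast_val, ZMod.cast_id', id_eq]
  have h1 : (A : ZMod b) * ((A⁻¹ : (ZMod b)ˣ) : ZMod b) = 1 := by
    rw [← Units.val_mul, mul_inv_cancel, Units.val_one]
  linear_combination ((w : ZMod b) - V) * h1

/-- **the bound of a cell by two-dimensional discrepancies** -/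
theorem cell3_le {l : ℕ → ℕ} {r : ℕ} [NeZero (Mk l r)] (hp : ∀ i < r, (l i).Prime)
    (hinj : ∀ i < r, ∀ j < r, l i = l j → i = j) {G : ZMod (Mk l r) → ℝ} (hG : LevG l r G)
    (V ω x y : ZMod (Mk l r)) (A κ : (ZMod (Mk l r))ˣ) (W : ℕ → ℝ)
    (hW : ∀ k < r, ∀ M', Mk l (k + 1) * M' = Mk l r → ∀ (a : ℤ) (X : ℕ) (c : ℤ) (Y : ℕ),
      |DM M' (uv κ) a X c Y| ≤ W k) :
    |F3 G V ω x y A κ| ≤ ∑ k ∈ range r, (l k : ℝ) * (3 + W k) := by
  classical
  obtain ⟨z, γ, hγ, hγ0, hG⟩ := hG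
  set v : ℕ → ZMod (Mk l r) := fun j => V + A * ((j : ZMod (Mk l r)) - ω) with hv
  set P : ℕ → Prop := fun j => (y + κ * ((j : ZMod (Mk l r)) - ω)).val < y.val with hP
  have h1 : F3 G V ω x y A κ = ∑ k ∈ range r, ∑ j ∈ range x.val,
      if P j ∧ (Mk l k : ℤ) ∣ ((v j).val : ℤ) - z.val then γ k ((v j).val % l k) else 0 := by
    unfold F3
    rw [sum_comm]
    refine sum_congr rfl fun j _ => ?_
    by_cases hj : P j
    · rw [if_pos hj, hG]
      refine sum_congr rfl fun k _ => ?_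
      simp only [hj, true_and]
      rfl
    · rw [if_neg hj]
      symm
      exact sum_eq_zero fun k _ => if_neg fun hc => hj hc.1
  rw [h1]
  refine (abs_sum_le_sum_abs _ _).trans (sum_le_sum fun k hk => ?_)
  have hk : k < r := mem_range.1 hk
  have hlk : 0 < l k := (hp k hk).pos
  have hMdvd : Mk l (k + 1) ∣ Mk l r := Cell2.Mk_dvd l hk
  obtain ⟨M', hM'⟩ := hMdvd
  have hMpos : 0 < Mk l (k + 1) := Nat.pos_of_ne_zero fun h => by
    rw [h, zero_mul] at hM'; exact NeZero.ne _ hM'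
  have hM'pos : 0 < M' := Nat.pos_of_ne_zero fun h => by
    rw [h, mul_zero] at hM'; exact NeZero.ne _ hM'
  have hMdvd : Mk l (k + 1) ∣ Mk l r := ⟨M', hM'⟩
  -- the classes
  have h2 : ∀ u : ℕ, u < l k → ∃ h0 : ℤ, ∀ j : ℕ,
      ((Mk l k : ℤ) ∣ ((v j).val : ℤ) - z.val ∧ (v j).val % l k = u) ↔
        ((Mk l (k + 1) : ℕ) : ℤ) ∣ ((j : ℤ) - (ω.val : ℤ) - h0) := by
    intro u hu
    obtain ⟨w, hw⟩ := Cell2.crt hp hinj hk z.val u hu
    obtain ⟨c, hc⟩ := cell3_class hMdvd V ω A w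
    exact ⟨c, fun j => (hw _).trans (hc j)⟩
  choose! c hc using h2
  set Nu : ℕ → ℝ := fun u => (((range x.val).filter fun j : ℕ =>
      (∃ j' ∈ range y.val, ((Mk l (k + 1) * M' : ℕ) : ℤ) ∣
        ((y.val : ℕ) + uv κ * (j - (ω.val : ℤ))) - j') ∧
        ((Mk l (k + 1) : ℕ) : ℤ) ∣ ((j : ℤ) - (ω.val : ℤ) - c u)).card : ℝ) with hNu
  have h4 : ∑ j ∈ range x.val, (if P j ∧ (Mk l k : ℤ) ∣ ((v j).val : ℤ) - z.val then
      γ k ((v j).val % l k) else 0) = ∑ u ∈ range (l k), γ k u * Nu u := by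
    have h5 : ∀ u ∈ range (l k), γ k u * Nu u = ∑ j ∈ range x.val,
        if P j ∧ ((Mk l (k + 1) : ℕ) : ℤ) ∣ ((j : ℤ) - (ω.val : ℤ) - c u) then γ k u else 0 := by
      intro u _
      rw [hNu]
      simp only
      rw [card_filter, Nat.cast_sum, mul_sum]
      refine sum_congr rfl fun j _ => ?_
      have e1 : P j ↔ ∃ j' ∈ range y.val, ((Mk l (k + 1) * M' : ℕ) : ℤ) ∣
          ((y.val : ℕ) + uv κ * (j - (ω.val : ℤ))) - j' := by
        rw [← hM']
        exact cell3_cond ω y κ j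
      by_cases hq : P j ∧ ((Mk l (k + 1) : ℕ) : ℤ) ∣ ((j : ℤ) - (ω.val : ℤ) - c u)
      · rw [if_pos ⟨e1.1 hq.1, hq.2⟩, if_pos hq]
        simp
      · rw [if_neg (fun hc => hq ⟨e1.2 hc.1, hc.2⟩), if_neg hq]
        simp
    rw [sum_congr rfl h5, sum_comm]
    refine sum_congr rfl fun j _ => ?_
    by_cases hj : P j
    · simp only [hj, true_and]
      have h6 : ∀ u ∈ range (l k),
          (if ((Mk l (k + 1) : ℕ) : ℤ) ∣ ((j : ℤ) - (ω.val : ℤ) - c u) then γ k u else 0) =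
          if u = (v j).val % l k then (if (Mk l k : ℤ) ∣ ((v j).val : ℤ) - z.val then
            γ k u else 0) else 0 := by
        intro u hu
        have h5 := hc u (mem_range.1 hu) j
        by_cases h6 : ((Mk l (k + 1) : ℕ) : ℤ) ∣ ((j : ℤ) - (ω.val : ℤ) - c u)
        · obtain ⟨h7, h8⟩ := h5.2 h6
          rw [if_pos h6, if_pos h8.symm, if_pos h7]
        · rw [if_neg h6]
          by_cases h8 : u = (v j).val % l k
          · rw [if_pos h8]
            by_cases h7 : (Mk l k : ℤ) ∣ ((v j).val : ℤ) - z.val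
            · exact absurd (h5.1 ⟨h7, h8.symm⟩) h6
            · rw [if_neg h7]
          · rw [if_neg h8]
      rw [sum_congr rfl h6, sum_ite_eq' (range (l k)) ((v j).val % l k),
        if_pos (show (v j).val % l k ∈ range (l k) from mem_range.2 (Nat.mod_lt _ hlk))]
    · simp only [hj, false_and, if_false, sum_const_zero]
  rw [h4]
  set c0 : ℝ := (x.val : ℝ) * y.val / (Mk l (k + 1) * (Mk l (k + 1) * M')) with hc0
  have h7 : ∑ u ∈ range (l k), γ k u * Nu u = ∑ u ∈ range (l k), γ k u * (Nu u - c0) := by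
    simp_rw [mul_sub]
    rw [sum_sub_distrib, ← sum_mul, hγ0 k hk, zero_mul, sub_zero]
  have hxb : x.val ≤ Mk l (k + 1) * M' := by rw [← hM']; exact (ZMod.val_lt x).le
  have hyb : y.val ≤ Mk l (k + 1) * M' := by rw [← hM']; exact (ZMod.val_lt y).le
  have h8 : ∀ u, |Nu u - c0| ≤ 3 + W k := by
    intro u
    have h9 := cell3_cnt_err (Mk l (k + 1)) M' x.val y.val hMpos hM'pos hxb hyb (uv κ)
      (ω.val : ℤ) (c u)
    have h10 := hW k hk M' hM'.symm (cell3_lo ((ω.val : ℤ) + c u) (Mk l (k + 1)))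
      (cell3_len ((ω.val : ℤ) + c u) x.val (Mk l (k + 1)))
      (cell3_lo ((y.val : ℕ) + uv κ * c u) (Mk l (k + 1)))
      (cell3_len ((y.val : ℕ) + uv κ * c u) y.val (Mk l (k + 1)))
    set D := DM M' (uv κ) (cell3_lo ((ω.val : ℤ) + c u) (Mk l (k + 1)))
      (cell3_len ((ω.val : ℤ) + c u) x.val (Mk l (k + 1)))
      (cell3_lo ((y.val : ℕ) + uv κ * c u) (Mk l (k + 1)))
      (cell3_len ((y.val : ℕ) + uv κ * c u) y.val (Mk l (k + 1))) with hD
    have h11 : Nu u - c0 = (Nu u - D - c0) + D := by ring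
    rw [h11]
    exact (abs_add_le _ _).trans (add_le_add h9 h10)
  rw [h7]
  calc |∑ u ∈ range (l k), γ k u * (Nu u - c0)|
      ≤ ∑ u ∈ range (l k), |γ k u * (Nu u - c0)| := abs_sum_le_sum_abs _ _
    _ ≤ ∑ _u ∈ range (l k), (3 + W k) := by
        refine sum_le_sum fun u _ => ?_
        rw [abs_mul]
        calc |γ k u| * |Nu u - c0| ≤ 1 * |Nu u - c0| := by
              gcongr
              exact hγ k u
          _ ≤ 3 + W k := by rw [one_mul]; exact h8 u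
    _ = (l k : ℝ) * (3 + W k) := by rw [sum_const, card_range, nsmul_eq_mul]

theorem cell3_isMM {l : ℕ → ℕ} {r k M' : ℕ} (hk : k < r) (h : Mk l (k + 1) * M' = Mk l r) :
    IsMM l r M' := ⟨k + 1, hk, Or.inr (by rw [← h, mul_comm])⟩

theorem cell3_bound (C : ℕ) {m r : ℕ} {l : ℕ → ℕ} [NeZero (Mk l r)]
    {G0 : Finset (ZMod (Mk l r))ˣ} (h : Arith C m r l G0) {G : ZMod (Mk l r) → ℝ}
    (hG : LevG l r G) (V ω x y : ZMod (Mk l r)) :
    (∀ A, ∀ κ ∈ G0, |F3 G V ω x y A κ| ≤ (r : ℝ) * (4 * m ^ 16) * (3 + C * (m : ℝ) ^ 30)) ∧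
      ∀ c : (ZMod (Mk l r))ˣ, ∑ κ ∈ G0, |F3 G V ω x y (c * κ) κ| ≤
        (r : ℝ) * (4 * m ^ 16) * (3 + C * (m : ℝ) ^ 2) *
          (Fintype.card (ZMod (Mk l r))ˣ : ℝ) := by
  have hl : ∀ k ∈ range r, (l k : ℝ) ≤ 4 * m ^ 16 := fun k hk => by
    exact_mod_cast h.hi k (mem_range.1 hk)
  constructor
  · intro A κ hκ
    have h1 := cell3_le h.prime h.inj hG V ω x y A κ (fun _ => (C : ℝ) * (m : ℝ) ^ 30)
      (fun k hk M' hM' a X c Y => h.bound κ hκ _ (cell3_isMM hk hM') a X c Y)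
    refine h1.trans ?_
    calc ∑ k ∈ range r, (l k : ℝ) * (3 + (C : ℝ) * (m : ℝ) ^ 30)
        ≤ ∑ _k ∈ range r, (4 * (m : ℝ) ^ 16) * (3 + (C : ℝ) * (m : ℝ) ^ 30) := by
          refine sum_le_sum fun k hk => ?_
          have := hl k hk
          gcongr
      _ = (r : ℝ) * (4 * m ^ 16) * (3 + C * (m : ℝ) ^ 30) := by
          rw [sum_const, card_range, nsmul_eq_mul]; ring
  · intro c
    have h2 : ∀ k : ℕ, ∃ W : (ZMod (Mk l r))ˣ → ℝ, k < r →
        (∀ M', Mk l (k + 1) * M' = Mk l r → ∀ κ (a : ℤ) (X : ℕ) (c : ℤ) (Y : ℕ),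
          |DM M' (uv κ) a X c Y| ≤ W κ) ∧ (∀ κ, 0 ≤ W κ) ∧
          ∑ κ, W κ ≤ (C : ℝ) * (m : ℝ) ^ 2 * (Fintype.card (ZMod (Mk l r))ˣ : ℝ) := by
      intro k
      by_cases hk : k < r
      · obtain ⟨M', hM'⟩ := Cell2.Mk_dvd l hk
        obtain ⟨W, hW1, hW2⟩ := h.triv M' ⟨Mk l (k + 1), by rw [hM', mul_comm]⟩
        refine ⟨W, fun _ => ⟨?_, fun κ => (abs_nonneg _).trans (hW1 κ 0 0 0 0), hW2⟩⟩
        intro M'' hM'' κ a X c Y
        have hMpos : 0 < Mk l (k + 1) := Nat.pos_of_ne_zero fun h => by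
          rw [h, zero_mul] at hM'; exact NeZero.ne _ hM'
        have : M'' = M' := Nat.eq_of_mul_eq_mul_left hMpos (hM''.trans hM')
        rw [this]
        exact hW1 κ a X c Y
      · exact ⟨fun _ => 0, fun h => absurd h hk⟩
    choose W hW using h2
    have hcard : (G0.card : ℝ) ≤ (Fintype.card (ZMod (Mk l r))ˣ : ℝ) := by
      exact_mod_cast card_le_univ _
    have hG0 : (0 : ℝ) ≤ G0.card := Nat.cast_nonneg _
    calc ∑ κ ∈ G0, |F3 G V ω x y (c * κ) κ|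
        ≤ ∑ κ ∈ G0, ∑ k ∈ range r, (l k : ℝ) * (3 + W k κ) := by
          refine sum_le_sum fun κ _ => ?_
          exact cell3_le h.prime h.inj hG V ω x y (c * κ) κ (fun k => W k κ)
            (fun k hk M' hM' a X c Y => (hW k hk).1 M' hM' κ a X c Y)
      _ = ∑ k ∈ range r, (l k : ℝ) * ∑ κ ∈ G0, (3 + W k κ) := by
          rw [sum_comm]
          exact sum_congr rfl fun k _ => by rw [mul_sum]
      _ ≤ ∑ _k ∈ range r, (4 * (m : ℝ) ^ 16) *
            ((3 + (C : ℝ) * (m : ℝ) ^ 2) * (Fintype.card (ZMod (Mk l r))ˣ : ℝ)) := by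
          refine sum_le_sum fun k hk => ?_
          have h3 := hl k hk
          obtain ⟨-, hW0, hW2⟩ := hW k (mem_range.1 hk)
          have h5 : 0 ≤ ∑ κ ∈ G0, (3 + W k κ) := sum_nonneg fun κ _ => by
            have := hW0 κ; linarith
          have h6 : ∑ κ ∈ G0, (3 + W k κ) ≤
              (3 + (C : ℝ) * (m : ℝ) ^ 2) * (Fintype.card (ZMod (Mk l r))ˣ : ℝ) := by
            rw [sum_add_distrib, sum_const, nsmul_eq_mul]
            have h7 : ∑ κ ∈ G0, W k κ ≤ ∑ κ, W k κ :=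
              sum_le_univ_sum_of_nonneg hW0
            nlinarith
          gcongr
      _ = (r : ℝ) * (4 * m ^ 16) * (3 + C * (m : ℝ) ^ 2) *
            (Fintype.card (ZMod (Mk l r))ˣ : ℝ) := by
          rw [sum_const, card_range, nsmul_eq_mul]; ring

/-- the points of the cell -/
noncomputable def cell3_S {b : ℕ} (ω x y : ZMod b) (κ : (ZMod b)ˣ) : Finset (ℕ × ℕ) :=
  (range x.val ×ˢ range 1).filter fun p : ℕ × ℕ => (y + κ * ((p.1 : ZMod b) - ω)).val < y.val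

theorem cell3_sum {b : ℕ} (G : ZMod b → ℝ) (V ω x y : ZMod b) (A κ : (ZMod b)ˣ) :
    F3 G V ω x y A κ = ∑ p ∈ cell3_S ω x y κ, G (V + A * ((p.1 : ZMod b) - ω)) := by
  unfold F3 cell3_S
  rw [sum_filter, sum_product]
  simp

theorem cell3_e {b d M' : ℕ} [NeZero b] (hd : d * M' = b) (ω x y : ZMod b) (κ : (ZMod b)ˣ) :
    |((((cell3_S ω x y κ).filter fun p : ℕ × ℕ => d ∣ ((p.1 : ZMod b) - ω).val).card : ℝ) -
      ((x.val : ℝ) * y.val / b) / d) -
      DM M' (uv κ) (cell3_lo (ω.val : ℤ) d) (cell3_len (ω.val : ℤ) x.val d)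
      (cell3_lo (y.val : ℕ) d) (cell3_len (y.val : ℕ) y.val d)| ≤ 3 := by
  classical
  have hdpos : 0 < d := Nat.pos_of_ne_zero fun h => by
    rw [h, zero_mul] at hd; exact NeZero.ne b hd.symm
  have hM'pos : 0 < M' := Nat.pos_of_ne_zero fun h => by
    rw [h, mul_zero] at hd; exact NeZero.ne b hd.symm
  have h1 : ((cell3_S ω x y κ).filter fun p : ℕ × ℕ => d ∣ ((p.1 : ZMod b) - ω).val).card =
      ((range x.val).filter fun j : ℕ =>
      (∃ j' ∈ range y.val, ((d * M' : ℕ) : ℤ) ∣ ((y.val : ℕ) + uv κ * (j - (ω.val : ℤ))) - j') ∧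
        (d : ℤ) ∣ (j - (ω.val : ℤ) - 0)).card := by
    apply card_bij (fun (p : ℕ × ℕ) _ => p.1)
    · rintro ⟨p1, p2⟩ hp
      simp only [cell3_S, mem_filter, mem_product] at hp ⊢
      obtain ⟨⟨⟨h2, h3⟩, h4⟩, h5⟩ := hp
      refine ⟨h2, ?_, ?_⟩
      · rw [hd]; exact (cell3_cond ω y κ p1).1 h4
      · have := (Cell2.dvd_mul_unit (b := b) ⟨M', hd.symm⟩ 1
          (E := ((((p1 : ZMod b) - ω).val : ℕ) : ℤ)) (F := (p1 : ℤ) - (ω.val : ℤ) - 0) (by
          push_cast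
          simp only [ZMod.natCast_val, ZMod.cast_id', id_eq]
          ring)).1 (by exact_mod_cast h5)
        exact this
    · rintro ⟨p1, p2⟩ hp ⟨q1, q2⟩ hq h
      simp only [cell3_S, mem_filter, mem_product, mem_range] at hp hq
      simp only at h
      ext
      · exact h
      · simp only; omega
    · intro j hj
      simp only [mem_filter] at hj
      refine ⟨(j, 0), ?_, rfl⟩
      simp only [cell3_S, mem_filter, mem_product]
      refine ⟨⟨⟨hj.1, by simp⟩, ?_⟩, ?_⟩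
      · rw [hd] at hj
        exact (cell3_cond ω y κ j).2 hj.2.1
      · have := (Cell2.dvd_mul_unit (b := b) ⟨M', hd.symm⟩ 1
          (E := ((((j : ZMod b) - ω).val : ℕ) : ℤ)) (F := (j : ℤ) - (ω.val : ℤ) - 0) (by
          push_cast
          simp only [ZMod.natCast_val, ZMod.cast_id', id_eq]
          ring)).2 hj.2.2
        exact_mod_cast this
  have h2 := cell3_cnt_err d M' x.val y.val hdpos hM'pos (by rw [hd]; exact (ZMod.val_lt x).le)
    (by rw [hd]; exact (ZMod.val_lt y).le) (uv κ) (ω.val : ℤ) 0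
  rw [← h1] at h2
  simp only [mul_zero, add_zero] at h2
  refine le_trans (le_of_eq ?_) h2
  congr 1
  have hbR : (b : ℝ) = d * M' := by rw [← hd]; push_cast; ring
  have hd0 : (d : ℝ) ≠ 0 := by positivity
  have hM0 : (M' : ℝ) ≠ 0 := by positivity
  rw [hbR]
  field_simp
  ring

theorem cell3_mean (C : ℕ) : ∃ (m1 : ℕ) (C' : ℝ), ∀ (m r : ℕ) (l : ℕ → ℕ) [NeZero (Mk l r)]
    (G0 : Finset (ZMod (Mk l r))ˣ), m1 ≤ m → Arith C m r l G0 → ∀ G, LevG l r G →
    ∀ V ω x y : ZMod (Mk l r), |∑ κ ∈ G0, ∑ A : (ZMod (Mk l r))ˣ, F3 G V ω x y A κ| ≤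
      C' * m * G0.card * (Fintype.card (ZMod (Mk l r))ˣ : ℝ) := by
  obtain ⟨m1, C', hs⟩ := scal (2 * C + 3)
  refine ⟨max m1 (2 * C + 1), C', fun m r l _ G0 hm hA G hG V ω x y => ?_⟩
  have hm1 : m1 ≤ m := (le_max_left _ _).trans hm
  have hm2 : 2 * C + 1 ≤ m := (le_max_right _ _).trans hm
  have hm1R : (1 : ℝ) ≤ m := by exact_mod_cast (by omega : 1 ≤ m)
  have hcard := Cell2.card_le hA hm2
  have hC0 : (0 : ℝ) ≤ (C : ℝ) := Nat.cast_nonneg _
  have hg0 : (0 : ℝ) ≤ (G0.card : ℝ) := Nat.cast_nonneg _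
  have key := hs m r l hm1 hA.one_le_r hA.r_le hA.prime hA.inj hA.lo G hG V G0
    (fun κ => cell3_S ω x y κ)
    (fun κ p => (p.1 : ZMod (Mk l r)) - ω) ((x.val : ℝ) * y.val / (Mk l r : ℕ))
    (fun κ d => (((cell3_S ω x y κ).filter fun p : ℕ × ℕ =>
        d ∣ ((p.1 : ZMod (Mk l r)) - ω).val).card : ℝ) -
      ((x.val : ℝ) * y.val / (Mk l r : ℕ)) / d) ?_ ?_ ?_
  · have e : ∀ κ ∈ G0, ∑ A : (ZMod (Mk l r))ˣ, F3 G V ω x y A κ =
        ∑ g : (ZMod (Mk l r))ˣ, ∑ p ∈ cell3_S ω x y κ,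
          G (V + g * ((p.1 : ZMod (Mk l r)) - ω)) := by
      intro κ _
      exact sum_congr rfl fun A _ => cell3_sum G V ω x y A κ
    rw [sum_congr rfl e]
    exact key
  · intro κ _ d hd
    ring
  · intro k hk
    obtain ⟨M', hM'⟩ := Cell2.Mk_dvd l hk
    have h1 := hA.mean M' ⟨k, hk, Or.inr (by rw [hM', mul_comm])⟩
      (cell3_lo (ω.val : ℤ) (Mk l k)) (cell3_len (ω.val : ℤ) x.val (Mk l k))
      (cell3_lo (y.val : ℕ) (Mk l k)) (cell3_len (y.val : ℕ) y.val (Mk l k))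
    set D : (ZMod (Mk l r))ˣ → ℝ := fun κ => DM M' (uv κ)
      (cell3_lo (ω.val : ℤ) (Mk l k)) (cell3_len (ω.val : ℤ) x.val (Mk l k))
      (cell3_lo (y.val : ℕ) (Mk l k)) (cell3_len (y.val : ℕ) y.val (Mk l k)) with hD
    set e : (ZMod (Mk l r))ˣ → ℝ := fun κ => (((cell3_S ω x y κ).filter fun p : ℕ × ℕ =>
        Mk l k ∣ ((p.1 : ZMod (Mk l r)) - ω).val).card : ℝ) -
      ((x.val : ℝ) * y.val / (Mk l r : ℕ)) / (Mk l k : ℕ) with he
    have h2 : ∀ κ, |e κ - D κ| ≤ 3 := fun κ => cell3_e hM'.symm ω x y κ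
    have h3 : ∑ κ ∈ G0, e κ = ∑ κ ∈ G0, (e κ - D κ) + ∑ κ ∈ G0, D κ := by
      rw [← sum_add_distrib]
      exact sum_congr rfl fun κ _ => by ring
    have h4 : |∑ κ ∈ G0, (e κ - D κ)| ≤ 3 * G0.card := by
      refine (abs_sum_le_sum_abs _ _).trans ?_
      refine (sum_le_sum fun κ _ => h2 κ).trans ?_
      rw [sum_const, nsmul_eq_mul, mul_comm]
    calc |∑ κ ∈ G0, e κ| ≤ |∑ κ ∈ G0, (e κ - D κ)| + |∑ κ ∈ G0, D κ| := by
          rw [h3]; exact abs_add_le _ _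
      _ ≤ 3 * G0.card + C * G0.card := add_le_add h4 h1
      _ ≤ ((2 * C + 3 : ℕ) : ℝ) * G0.card := by
          push_cast
          nlinarith [mul_nonneg hC0 hg0]
  · intro d hd
    obtain ⟨M', hM'⟩ := hd
    obtain ⟨W, hW1, hW2⟩ := hA.triv M' ⟨d, by rw [hM', mul_comm]⟩
    have hW0 : ∀ κ, 0 ≤ W κ := fun κ => (abs_nonneg _).trans (hW1 κ 0 0 0 0)
    have h5 : ∀ κ, |(((cell3_S ω x y κ).filter fun p : ℕ × ℕ =>
        d ∣ ((p.1 : ZMod (Mk l r)) - ω).val).card : ℝ) -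
      ((x.val : ℝ) * y.val / (Mk l r : ℕ)) / d| ≤ 3 + W κ := by
      intro κ
      have h6 := cell3_e hM'.symm ω x y κ
      have h7 := hW1 κ (cell3_lo (ω.val : ℤ) d) (cell3_len (ω.val : ℤ) x.val d)
        (cell3_lo (y.val : ℕ) d) (cell3_len (y.val : ℕ) y.val d)
      set D := DM M' (uv κ) (cell3_lo (ω.val : ℤ) d) (cell3_len (ω.val : ℤ) x.val d)
        (cell3_lo (y.val : ℕ) d) (cell3_len (y.val : ℕ) y.val d) with hD
      set e := (((cell3_S ω x y κ).filter fun p : ℕ × ℕ =>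
        d ∣ ((p.1 : ZMod (Mk l r)) - ω).val).card : ℝ) -
          ((x.val : ℝ) * y.val / (Mk l r : ℕ)) / d with he
      have h8 : e = (e - D) + D := by ring
      rw [h8]
      exact (abs_add_le _ _).trans (add_le_add h6 h7)
    calc ∑ κ ∈ G0, |(((cell3_S ω x y κ).filter fun p : ℕ × ℕ =>
        d ∣ ((p.1 : ZMod (Mk l r)) - ω).val).card : ℝ) -
      ((x.val : ℝ) * y.val / (Mk l r : ℕ)) / d|
        ≤ ∑ κ ∈ G0, (3 + W κ) := sum_le_sum fun κ _ => h5 κ
      _ = 3 * G0.card + ∑ κ ∈ G0, W κ := by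
          rw [sum_add_distrib, sum_const, nsmul_eq_mul, mul_comm]
      _ ≤ 3 * G0.card + ∑ κ, W κ := by
          have := sum_le_univ_sum_of_nonneg (s := G0) hW0
          linarith
      _ ≤ 3 * G0.card + (C : ℝ) * (m : ℝ) ^ 2 * (2 * G0.card) := by
          have h9 : (C : ℝ) * (m : ℝ) ^ 2 * (Fintype.card (ZMod (Mk l r))ˣ : ℝ) ≤
            (C : ℝ) * (m : ℝ) ^ 2 * (2 * G0.card) := by gcongr
          linarith
      _ ≤ ((2 * C + 3 : ℕ) : ℝ) * (m : ℝ) ^ 2 * G0.card := by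
          push_cast
          have h10 : (1 : ℝ) ≤ (m : ℝ) ^ 2 := one_le_pow₀ hm1R
          nlinarith [mul_nonneg hg0 (sub_nonneg.2 h10)]

end DiscPS
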