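import Pool.Agent.Work.DiscPS.DefsB
import Pool.Agent.Work.DiscPS.Cell2
import Pool.Agent.Work.DiscPS.Cell3

/-!
# The interface `Cells` from the cell estimates
-/

namespace DiscPS

open Finset

/-- from the average over all units to the average over the good ones -/
theorem cellB_corr {b : ℕ} [NeZero b] (G0 : Finset (ZMod b)ˣ) (Φ : (ZMod b)ˣ → ℝ) (T S : ℝ)
    (hT : |∑ A, Φ A| ≤ T) (hS : ∀ A, |Φ A| ≤ S) (a : (ZMod b)ˣ) :
    |∑ κ' ∈ G0, Φ (a * κ'⁻¹)| ≤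
      T + ((Fintype.card (ZMod b)ˣ : ℝ) - G0.card) * S := by
  classical
  have h1 : ∑ κ' : (ZMod b)ˣ, Φ (a * κ'⁻¹) = ∑ A, Φ A := by
    exact Fintype.sum_equiv ((Equiv.inv (ZMod b)ˣ).trans (Equiv.mulLeft a)) _ _ (fun _ => rfl)
  have h2 : ∑ κ' ∈ G0, Φ (a * κ'⁻¹) = ∑ A, Φ A - ∑ κ' ∈ G0ᶜ, Φ (a * κ'⁻¹) := by
    rw [← h1, ← Finset.sum_add_sum_compl G0]; ring
  rw [h2]
  calc |∑ A, Φ A - ∑ κ' ∈ G0ᶜ, Φ (a * κ'⁻¹)|
      ≤ |∑ A, Φ A| + |∑ κ' ∈ G0ᶜ, Φ (a * κ'⁻¹)| := abs_sub _ _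
    _ ≤ T + ∑ κ' ∈ G0ᶜ, |Φ (a * κ'⁻¹)| := add_le_add hT (Finset.abs_sum_le_sum_abs _ _)
    _ ≤ T + ∑ κ' ∈ G0ᶜ, S := by
        gcongr with κ' _
        exact hS _
    _ = T + ((Fintype.card (ZMod b)ˣ : ℝ) - G0.card) * S := by
        rw [Finset.sum_const, Finset.card_compl, nsmul_eq_mul,
          Nat.cast_sub (Finset.card_le_univ _)]

theorem cells (C : ℕ) : ∃ (m1 : ℕ) (C' : ℝ), 0 ≤ C' ∧ ∀ (m r : ℕ) (l : ℕ → ℕ)
    [NeZero (Mk l r)] (G0 : Finset (ZMod (Mk l r))ˣ), m1 ≤ m → Arith C m r l G0 →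
    Cells ((m : ℝ) ^ 48) ((m : ℝ) ^ 20) (C' * m) G0 (LevG l r) := by
  obtain ⟨m2, C2, h2⟩ := cell2_mean C
  obtain ⟨m3, C3, h3⟩ := cell3_mean C
  set D : ℝ := 2 * max (max C2 C3) 0 + 1 with hD
  have hD0 : 0 ≤ D := by positivity
  refine ⟨max (max m2 m3) (8 * C + 24), D, hD0, ?_⟩
  intro m r l _ G0 hm hA
  have hm2 : m2 ≤ m := le_trans (le_trans (le_max_left _ _) (le_max_left _ _)) hm
  have hm3 : m3 ≤ m := le_trans (le_trans (le_max_right _ _) (le_max_left _ _)) hm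
  have hm4 : 8 * C + 24 ≤ m := le_trans (le_max_right _ _) hm
  have hmR : 8 * (C : ℝ) + 24 ≤ m := by exact_mod_cast hm4
  have hC0 : (0 : ℝ) ≤ C := Nat.cast_nonneg _
  have hm1 : (1 : ℝ) ≤ m := by linarith
  have hm0 : (0 : ℝ) < m := by linarith
  have hrm : (r : ℝ) ≤ m := by exact_mod_cast hA.r_le
  have hr0 : (0 : ℝ) ≤ r := Nat.cast_nonneg _
  set U : ℝ := (Fintype.card (ZMod (Mk l r))ˣ : ℝ) with hU
  set g : ℝ := (G0.card : ℝ) with hg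
  have hU1 : 1 ≤ U := by
    rw [hU]; exact_mod_cast Fintype.card_pos
  have hpow : ∀ k : ℕ, (0 : ℝ) < (m : ℝ) ^ k := fun k => pow_pos hm0 k
  have hCm : (C : ℝ) / (m : ℝ) ^ 26 ≤ 1 / 2 := by
    rw [div_le_div_iff₀ (hpow 26) (by norm_num)]
    have : (m : ℝ) ≤ (m : ℝ) ^ 26 := le_self_pow₀ hm1 (by norm_num)
    linarith
  have hcard := hA.card
  have hUg : U ≤ 2 * g := by
    have : (1 / 2 : ℝ) * U ≤ (1 - (C : ℝ) / (m : ℝ) ^ 26) * U := by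
      apply mul_le_mul_of_nonneg_right _ (by linarith)
      linarith
    linarith
  have hgpos : 0 < g := by linarith
  have hg0 : 0 ≤ g := hgpos.le
  have hgap : U - g ≤ (C : ℝ) / (m : ℝ) ^ 26 * U := by
    have : (1 - (C : ℝ) / (m : ℝ) ^ 26) * U = U - (C : ℝ) / (m : ℝ) ^ 26 * U := by ring
    linarith
  have hne : G0.Nonempty := by
    rw [← Finset.card_pos]
    have h5 := hgpos
    rw [hg] at h5
    exact_mod_cast h5
  -- the numerical bounds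
  have hB2 : (r : ℝ) * (4 * m ^ 16) * (C * (m : ℝ) ^ 30) ≤ (m : ℝ) ^ 48 := by
    calc (r : ℝ) * (4 * m ^ 16) * (C * (m : ℝ) ^ 30)
        ≤ m * (4 * m ^ 16) * (C * (m : ℝ) ^ 30) := by gcongr
      _ = (4 * C) * (m : ℝ) ^ 47 := by ring
      _ ≤ m * (m : ℝ) ^ 47 := by
          apply mul_le_mul_of_nonneg_right _ (hpow 47).le
          linarith
      _ = (m : ℝ) ^ 48 := by ring
  have hB3 : (r : ℝ) * (4 * m ^ 16) * (3 + C * (m : ℝ) ^ 30) ≤ (m : ℝ) ^ 48 := by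
    have h1 : (1 : ℝ) ≤ (m : ℝ) ^ 30 := one_le_pow₀ hm1
    calc (r : ℝ) * (4 * m ^ 16) * (3 + C * (m : ℝ) ^ 30)
        ≤ m * (4 * m ^ 16) * (3 * (m : ℝ) ^ 30 + C * (m : ℝ) ^ 30) := by
          gcongr
          linarith
      _ = (4 * (3 + C)) * (m : ℝ) ^ 47 := by ring
      _ ≤ m * (m : ℝ) ^ 47 := by
          apply mul_le_mul_of_nonneg_right _ (hpow 47).le
          linarith
      _ = (m : ℝ) ^ 48 := by ring
  have hS2 : (r : ℝ) * (4 * m ^ 16) * (C * (m : ℝ) ^ 2) * U ≤ (m : ℝ) ^ 20 * g := by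
    calc (r : ℝ) * (4 * m ^ 16) * (C * (m : ℝ) ^ 2) * U
        ≤ m * (4 * m ^ 16) * (C * (m : ℝ) ^ 2) * (2 * g) := by gcongr
      _ = (8 * C) * (m : ℝ) ^ 19 * g := by ring
      _ ≤ m * (m : ℝ) ^ 19 * g := by
          apply mul_le_mul_of_nonneg_right _ hg0
          apply mul_le_mul_of_nonneg_right _ (hpow 19).le
          linarith
      _ = (m : ℝ) ^ 20 * g := by ring
  have hS3 : (r : ℝ) * (4 * m ^ 16) * (3 + C * (m : ℝ) ^ 2) * U ≤ (m : ℝ) ^ 20 * g := by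
    have h1 : (1 : ℝ) ≤ (m : ℝ) ^ 2 := one_le_pow₀ hm1
    calc (r : ℝ) * (4 * m ^ 16) * (3 + C * (m : ℝ) ^ 2) * U
        ≤ m * (4 * m ^ 16) * (3 * (m : ℝ) ^ 2 + C * (m : ℝ) ^ 2) * (2 * g) := by
          gcongr
          linarith
      _ = (8 * (3 + C)) * (m : ℝ) ^ 19 * g := by ring
      _ ≤ m * (m : ℝ) ^ 19 * g := by
          apply mul_le_mul_of_nonneg_right _ hg0
          apply mul_le_mul_of_nonneg_right _ (hpow 19).le
          linarith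
      _ = (m : ℝ) ^ 20 * g := by ring
  have hfin : ∀ c2 : ℝ, c2 ≤ max (max C2 C3) 0 →
      c2 * m * g * U + (U - g) * ((m : ℝ) ^ 20 * g) ≤ D * m * g ^ 2 := by
    intro c2 hc2
    set M0 := max (max C2 C3) 0 with hM0
    have hM0' : 0 ≤ M0 := le_max_right _ _
    have e1 : c2 * m * g * U ≤ M0 * m * g * (2 * g) := by gcongr
    have e2 : (U - g) * ((m : ℝ) ^ 20 * g) ≤ m * g ^ 2 := by
      calc (U - g) * ((m : ℝ) ^ 20 * g)
          ≤ ((C : ℝ) / (m : ℝ) ^ 26 * U) * ((m : ℝ) ^ 20 * g) := by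
            apply mul_le_mul_of_nonneg_right hgap; positivity
        _ ≤ ((C : ℝ) / (m : ℝ) ^ 26 * (2 * g)) * ((m : ℝ) ^ 20 * g) := by gcongr
        _ = (2 * C / (m : ℝ) ^ 6) * g ^ 2 := by
            field_simp
        _ ≤ m * g ^ 2 := by
            apply mul_le_mul_of_nonneg_right _ (by positivity)
            rw [div_le_iff₀ (hpow 6)]
            have h6 : (1 : ℝ) ≤ (m : ℝ) ^ 6 := one_le_pow₀ hm1
            nlinarith
    have e3 : D * m * g ^ 2 = M0 * m * g * (2 * g) + m * g ^ 2 := by rw [hD]; ring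
    linarith
  refine ⟨hne, one_le_pow₀ hm1, pow_le_pow_right₀ hm1 (by norm_num), by positivity, ?_, ?_, ?_,
    ?_, ?_, ?_, ?_⟩
  · intro κ hκ X Y
    refine (hA.bound κ hκ (Mk l r) ⟨r, le_rfl, Or.inl rfl⟩ 0 X 0 Y).trans ?_
    calc (C : ℝ) * (m : ℝ) ^ 30 ≤ m * (m : ℝ) ^ 30 := by
          apply mul_le_mul_of_nonneg_right _ (hpow 30).le
          linarith
      _ = (m : ℝ) ^ 31 := by ring
      _ ≤ (m : ℝ) ^ 48 := pow_le_pow_right₀ hm1 (by norm_num)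
  · intro G hG V ω x y A κ hκ
    exact ((cell2_bound C hA hG V ω x y A).1 κ hκ).trans hB2
  · intro G hG V ω x y A κ hκ
    exact ((cell3_bound C hA hG V ω x y).1 A κ hκ).trans hB3
  · intro G hG V ω x y A
    exact ((cell2_bound C hA hG V ω x y A).2).trans hS2
  · intro G hG V ω x y c
    exact ((cell3_bound C hA hG V ω x y).2 c).trans hS3
  · intro G hG V ω x y a
    have hT : |∑ A, ∑ κ ∈ G0, F2 G V ω x y A κ| ≤ C2 * m * g * U := by
      rw [Finset.sum_comm]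
      exact h2 m r l G0 hm2 hA G hG V ω x y
    have hS : ∀ A, |∑ κ ∈ G0, F2 G V ω x y A κ| ≤ (m : ℝ) ^ 20 * g := fun A =>
      (Finset.abs_sum_le_sum_abs _ _).trans (((cell2_bound C hA hG V ω x y A).2).trans hS2)
    refine (cellB_corr G0 (fun A => ∑ κ ∈ G0, F2 G V ω x y A κ) _ _ hT hS a).trans ?_
    exact hfin C2 ((le_max_left _ _).trans (le_max_left _ _))
  · intro G hG V ω x y a
    have hT : |∑ A, ∑ κ ∈ G0, F3 G V ω x y (A * κ) κ| ≤ C3 * m * g * U := by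
      rw [Finset.sum_comm]
      have : ∑ κ ∈ G0, ∑ A : (ZMod (Mk l r))ˣ, F3 G V ω x y (A * κ) κ =
          ∑ κ ∈ G0, ∑ A : (ZMod (Mk l r))ˣ, F3 G V ω x y A κ := by
        refine Finset.sum_congr rfl fun κ _ => ?_
        exact Fintype.sum_equiv (Equiv.mulRight κ) _ _ (fun _ => rfl)
      rw [this]
      exact h3 m r l G0 hm3 hA G hG V ω x y
    have hS : ∀ A, |∑ κ ∈ G0, F3 G V ω x y (A * κ) κ| ≤ (m : ℝ) ^ 20 * g := fun A =>
      (Finset.abs_sum_le_sum_abs _ _).trans (((cell3_bound C hA hG V ω x y).2 A).trans hS3)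
    refine (cellB_corr G0 (fun A => ∑ κ ∈ G0, F3 G V ω x y (A * κ) κ) _ _ hT hS a).trans ?_
    exact hfin C3 ((le_max_right _ _).trans (le_max_left _ _))

end DiscPS
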