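import Pool.Agent.Work.DiscPS.DefsA

/-!
# Counting units in residue classes
-/

namespace DiscPS

open Finset

theorem Cnt_uv_cast (b : ℕ) [NeZero b] {M : ℕ} (hM : M ∣ b) (κ : (ZMod b)ˣ) :
    ((uv κ : ℤ) : ZMod M) = ((ZMod.unitsMap hM κ : (ZMod M)ˣ) : ZMod M) := by
  rw [ZMod.unitsMap_val, uv, Int.cast_natCast, ZMod.natCast_val]

theorem Cnt_mem (b : ℕ) [NeZero b] {M : ℕ} (hM : M ∣ b) (x : ℤ × ℤ) (κ : (ZMod b)ˣ) :
    κ ∈ UL b M x ↔
      (x.2 : ZMod M) + (x.1 : ZMod M) * ((ZMod.unitsMap hM κ : (ZMod M)ˣ) : ZMod M) = 0 := by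
  rw [UL, mem_filter, ← Cnt_uv_cast, ← ZMod.intCast_zmod_eq_zero_iff_dvd]
  simp

/-- the fibres of the reduction of units -/
theorem Cnt_fib (b : ℕ) [NeZero b] {M : ℕ} (hM : M ∣ b) (κ₀ : (ZMod b)ˣ) :
    Nat.totient M * (univ.filter (fun κ : (ZMod b)ˣ =>
      ZMod.unitsMap hM κ = ZMod.unitsMap hM κ₀)).card = Nat.totient b := by
  classical
  have hM0 : NeZero M := ⟨fun h => NeZero.ne b (Nat.eq_zero_of_zero_dvd (h ▸ hM))⟩
  have hsurj := ZMod.unitsMap_surjective hM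
  have h1 := Finset.card_eq_sum_card_fiberwise (s := (univ : Finset (ZMod b)ˣ))
    (t := (univ : Finset (ZMod M)ˣ)) (f := ZMod.unitsMap hM) (fun _ _ => by simp)
  have h2 : ∀ u ∈ (univ : Finset (ZMod M)ˣ),
      (univ.filter (fun κ : (ZMod b)ˣ => ZMod.unitsMap hM κ = u)).card =
      (univ.filter (fun κ : (ZMod b)ˣ =>
        ZMod.unitsMap hM κ = ZMod.unitsMap hM κ₀)).card := fun u _ =>
    MonoidHom.card_fiber_eq_of_mem_range (ZMod.unitsMap hM) (hsurj u) ⟨κ₀, rfl⟩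
  rw [Finset.sum_congr rfl h2, Finset.sum_const, Finset.card_univ, Finset.card_univ,
    ZMod.card_units_eq_totient, ZMod.card_units_eq_totient, smul_eq_mul] at h1
  exact h1.symm

theorem Cnt_isUnit {M : ℕ} {a : ℤ} (h : Int.gcd a M = 1) : IsUnit ((a : ℤ) : ZMod M) := by
  rw [ZMod.coe_int_isUnit_iff_isCoprime]
  exact (Int.isCoprime_iff_gcd_eq_one.mpr h).symm

/-- if one multiplier is given, the set is the fibre of the reduction -/
theorem Cnt_UL_eq (b : ℕ) [NeZero b] {M : ℕ} (hM : M ∣ b) (x : ℤ × ℤ)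
    (h1 : Int.gcd x.1 M = 1) {κ₀ : (ZMod b)ˣ} (h : κ₀ ∈ UL b M x) :
    UL b M x = univ.filter (fun κ : (ZMod b)ˣ =>
      ZMod.unitsMap hM κ = ZMod.unitsMap hM κ₀) := by
  ext κ
  rw [Cnt_mem b hM x] at h ⊢
  rw [mem_filter]
  have hu := Cnt_isUnit h1
  constructor
  · intro hκ
    refine ⟨mem_univ _, ?_⟩
    have h2 : (x.1 : ZMod M) * ((ZMod.unitsMap hM κ : (ZMod M)ˣ) : ZMod M) =
        (x.1 : ZMod M) * ((ZMod.unitsMap hM κ₀ : (ZMod M)ˣ) : ZMod M) := by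
      linear_combination hκ - h
    exact Units.ext (hu.mul_left_cancel h2)
  · rintro ⟨-, h2⟩
    rw [h2]
    exact h

/-- One vector with first coordinate coprime to `M`: upper bound. -/
theorem cnt_le (b : ℕ) [NeZero b] {M : ℕ} (hM : M ∣ b) (x : ℤ × ℤ)
    (h1 : Int.gcd x.1 M = 1) : Nat.totient M * (UL b M x).card ≤ Nat.totient b := by
  rcases (UL b M x).eq_empty_or_nonempty with h | ⟨κ₀, h⟩
  · rw [h, card_empty, mul_zero]
    exact Nat.zero_le _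
  · rw [Cnt_UL_eq b hM x h1 h]
    exact (Cnt_fib b hM κ₀).le

/-- One coprime vector: exact count. -/
theorem cnt_eq (b : ℕ) [NeZero b] {M : ℕ} (hM : M ∣ b) (x : ℤ × ℤ)
    (h1 : Int.gcd x.1 M = 1) (h2 : Int.gcd x.2 M = 1) :
    Nat.totient M * (UL b M x).card = Nat.totient b := by
  have hu1 := Cnt_isUnit h1
  have hu2 := Cnt_isUnit h2
  obtain ⟨κ₀, hκ₀⟩ := ZMod.unitsMap_surjective hM (-(hu2.unit * hu1.unit⁻¹))
  have h : κ₀ ∈ UL b M x := by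
    rw [Cnt_mem b hM x, hκ₀, Units.val_neg, Units.val_mul, IsUnit.unit_spec]
    have h3 : (x.1 : ZMod M) * ((hu1.unit⁻¹ : (ZMod M)ˣ) : ZMod M) = 1 := by
      have h4 := hu1.unit.mul_inv
      rwa [IsUnit.unit_spec] at h4
    linear_combination -(x.2 : ZMod M) * h3
  rw [Cnt_UL_eq b hM x h1 h]
  exact Cnt_fib b hM κ₀

theorem Cnt_gcd_uv (b : ℕ) [NeZero b] {M : ℕ} (hM : M ∣ b) (κ : (ZMod b)ˣ) :
    IsCoprime (M : ℤ) (uv κ) := by
  rw [uv, Nat.isCoprime_iff_coprime]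
  exact (Nat.Coprime.coprime_dvd_right hM (ZMod.val_coe_unit_coprime κ)).symm

/-- If the lattice of some unit contains `x` then both coordinates have the same gcd with `M`. -/
theorem UL_gcd (b : ℕ) [NeZero b] {M : ℕ} (hM : M ∣ b) (x : ℤ × ℤ) {κ : (ZMod b)ˣ}
    (h : κ ∈ UL b M x) : Int.gcd x.1 M = Int.gcd x.2 M := by
  rw [UL, mem_filter] at h
  have hdvd := h.2
  have hco := Cnt_gcd_uv b hM κ
  apply Nat.dvd_antisymm
  · -- gcd x.1 M divides x.2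
    apply Int.dvd_gcd
    · have h1 : ((Int.gcd x.1 M : ℕ) : ℤ) ∣ x.2 + x.1 * uv κ :=
        (Int.gcd_dvd_right x.1 M).trans hdvd
      have h2 : ((Int.gcd x.1 M : ℕ) : ℤ) ∣ x.1 * uv κ :=
        (Int.gcd_dvd_left x.1 M).mul_right _
      exact (dvd_add_left h2).mp h1
    · exact Int.gcd_dvd_right x.1 M
  · apply Int.dvd_gcd
    · have h1 : ((Int.gcd x.2 M : ℕ) : ℤ) ∣ x.2 + x.1 * uv κ :=
        (Int.gcd_dvd_right x.2 M).trans hdvd
      have h2 : ((Int.gcd x.2 M : ℕ) : ℤ) ∣ x.1 * uv κ :=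
        (dvd_add_right (Int.gcd_dvd_left x.2 M)).mp h1
      have h3 : IsCoprime ((Int.gcd x.2 M : ℕ) : ℤ) (uv κ) :=
        hco.of_isCoprime_of_dvd_left (Int.gcd_dvd_right x.2 M)
      exact h3.dvd_of_dvd_mul_right h2
    · exact Int.gcd_dvd_right x.2 M

/-- General exact count. -/
theorem cnt_gcd (b : ℕ) [NeZero b] {M : ℕ} (hM : M ∣ b) (x : ℤ × ℤ)
    (h : Int.gcd x.1 M = Int.gcd x.2 M) :
    Nat.totient (M / Int.gcd x.1 M) * (UL b M x).card = Nat.totient b := by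
  have hM0 : M ≠ 0 := fun h0 => NeZero.ne b (Nat.eq_zero_of_zero_dvd (h0 ▸ hM))
  set g := Int.gcd x.1 M with hg
  have hgpos : 0 < g := Int.gcd_pos_of_ne_zero_right _ (by exact_mod_cast hM0)
  have hgM : g ∣ M := by
    have := Int.gcd_dvd_right x.1 M
    exact_mod_cast this
  obtain ⟨N, hN⟩ := hgM
  obtain ⟨q, hq⟩ : (g : ℤ) ∣ x.1 := Int.gcd_dvd_left x.1 M
  obtain ⟨p, hp⟩ : (g : ℤ) ∣ x.2 := by
    rw [h]
    exact Int.gcd_dvd_left x.2 M
  have hNb : N ∣ b := (Dvd.intro_left g hN.symm).trans hM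
  have hdiv : M / g = N := by rw [hN, Nat.mul_div_cancel_left _ hgpos]
  have hgq : Int.gcd q N = 1 := by
    have h1 : Int.gcd x.1 M = g * Int.gcd q N := by
      rw [hq, hN, Nat.cast_mul, Int.gcd_mul_left, Int.natAbs_natCast]
    rw [← hg] at h1
    exact (Nat.eq_of_mul_eq_mul_left hgpos (by rw [mul_one]; exact h1)).symm
  have hgp : Int.gcd p N = 1 := by
    have h1 : Int.gcd x.2 M = g * Int.gcd p N := by
      rw [hp, hN, Nat.cast_mul, Int.gcd_mul_left, Int.natAbs_natCast]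
    rw [← h] at h1
    exact (Nat.eq_of_mul_eq_mul_left hgpos (by rw [mul_one]; exact h1)).symm
  have hUL : UL b M x = UL b N (q, p) := by
    ext κ
    rw [UL, UL, mem_filter, mem_filter]
    have h1 : x.2 + x.1 * uv κ = (g : ℤ) * (p + q * uv κ) := by
      rw [hq, hp]
      ring
    have h2 : (M : ℤ) = (g : ℤ) * (N : ℤ) := by rw [hN, Nat.cast_mul]
    rw [h1, h2, mul_dvd_mul_iff_left (by exact_mod_cast hgpos.ne')]
  rw [hdiv, hUL]
  exact cnt_eq b hNb (q, p) hgq hgp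

/-- Two vectors with first coordinates coprime to the two moduli. -/
theorem cnt_pair (b : ℕ) [NeZero b] {M M' : ℕ} (hM : M ∣ b) (hM' : M' ∣ b) (x y : ℤ × ℤ)
    (h1 : Int.gcd x.1 M = 1) (h2 : Int.gcd y.1 M' = 1) :
    Nat.totient (Nat.lcm M M') * (UL b M x ∩ UL b M' y).card ≤ Nat.totient b := by
  have hL : Nat.lcm M M' ∣ b := Nat.lcm_dvd hM hM'
  rcases (UL b M x ∩ UL b M' y).eq_empty_or_nonempty with h | ⟨κ₀, h⟩
  · rw [h, card_empty, mul_zero]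
    exact Nat.zero_le _
  · rw [← Cnt_fib b hL κ₀]
    apply Nat.mul_le_mul_left
    apply card_le_card
    rw [mem_inter] at h
    intro κ hκ
    rw [mem_inter, Cnt_UL_eq b hM x h1 h.1, Cnt_UL_eq b hM' y h2 h.2, mem_filter,
      mem_filter] at hκ
    rw [mem_filter]
    refine ⟨mem_univ _, Units.ext ?_⟩
    have e1 : ((ZMod.unitsMap hM κ : (ZMod M)ˣ) : ZMod M) =
        ((ZMod.unitsMap hM κ₀ : (ZMod M)ˣ) : ZMod M) := by rw [hκ.1.2]
    have e2 : ((ZMod.unitsMap hM' κ : (ZMod M')ˣ) : ZMod M') =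
        ((ZMod.unitsMap hM' κ₀ : (ZMod M')ˣ) : ZMod M') := by rw [hκ.2.2]
    rw [← Cnt_uv_cast, ← Cnt_uv_cast, ZMod.intCast_eq_intCast_iff_dvd_sub] at e1 e2
    rw [← Cnt_uv_cast, ← Cnt_uv_cast, ZMod.intCast_eq_intCast_iff_dvd_sub]
    rw [Int.natCast_dvd] at e1 e2 ⊢
    exact Nat.lcm_dvd e1 e2

/-- Two vectors in the lattices of the same unit: the determinant is divisible by the gcd. -/
theorem cnt_pair_dvd (b : ℕ) [NeZero b] {M M' : ℕ} (x y : ℤ × ℤ) {κ : (ZMod b)ˣ}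
    (h : κ ∈ UL b M x ∩ UL b M' y) : ((Nat.gcd M M' : ℕ) : ℤ) ∣ dt x y := by
  rw [mem_inter, UL, UL, mem_filter, mem_filter] at h
  have h1 : ((Nat.gcd M M' : ℕ) : ℤ) ∣ x.2 + x.1 * uv κ :=
    (Int.natCast_dvd_natCast.mpr (Nat.gcd_dvd_left M M')).trans h.1.2
  have h2 : ((Nat.gcd M M' : ℕ) : ℤ) ∣ y.2 + y.1 * uv κ :=
    (Int.natCast_dvd_natCast.mpr (Nat.gcd_dvd_right M M')).trans h.2.2
  have h3 : dt x y = x.1 * (y.2 + y.1 * uv κ) - y.1 * (x.2 + x.1 * uv κ) := by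
    rw [dt]
    ring
  rw [h3]
  exact dvd_sub (h2.mul_left _) (h1.mul_left _)

end DiscPS
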