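import Pool.Agent.Work.DiscPS.DefsB

/-!
What the tables depend on.
-/

namespace DiscPS

open Finset

theorem At_dep {b : ℕ} {κ κ' : ℕ → ℕ → (ZMod b)ˣ} {t i : ℕ}
    (h : ∀ p, 1 ≤ p → p ≤ i → κ t p = κ' t p) (h' : ∀ p < i, κ (t + 1) p = κ' (t + 1) p) :
    At κ t i = At κ' t i := by
  induction i with
  | zero => rfl
  | succ i ih =>
    simp only [At]
    rw [ih (fun p h1 h2 => h p h1 (by omega)) (fun p hp => h' p (by omega)),
      h (i + 1) (by omega) le_rfl, h' i (by omega)]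

theorem Vt_dep_congr {b : ℕ} {κ κ' : ℕ → ℕ → (ZMod b)ˣ} {X : ℕ → ZMod b} {v : ZMod b}
    {ω ω' : ℕ → ZMod b} {t i : ℕ} (hA : ∀ p < i, At κ t p = At κ' t p)
    (hω : ∀ p < i, ω p = ω' p) : Vt κ X v ω t i = Vt κ' X v ω' t i := by
  unfold Vt
  congr 1
  refine Finset.sum_congr rfl fun p hp => ?_
  rw [hA p (Finset.mem_range.mp hp), hω p (Finset.mem_range.mp hp)]

/-- row order -/
theorem om_dep_row {b : ℕ} {κ κ' : ℕ → ℕ → (ZMod b)ˣ} {X Y Z V0 : ℕ → ZMod b} {t : ℕ}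
    (h : ∀ s ≤ t, ∀ p, κ s p = κ' s p) (i : ℕ) :
    om κ X Y Z V0 t i = om κ' X Y Z V0 t i := by
  induction t generalizing i with
  | zero => simp only [om]; rw [h 0 le_rfl i]
  | succ t ih =>
    have ih' := ih (fun s hs => h s (by omega))
    have hA : ∀ p, At κ t p = At κ' t p := fun p =>
      At_dep (fun p' _ _ => h t (by omega) p') (fun p' _ => h (t + 1) le_rfl p')
    simp only [om]
    rw [ih', hA i, Vt_dep_congr (fun p _ => hA p) (fun p _ => ih' p)]

theorem VV_dep_row {b : ℕ} {κ κ' : ℕ → ℕ → (ZMod b)ˣ} {X Y Z V0 : ℕ → ZMod b} {t i : ℕ}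
    (h : ∀ s ≤ t, ∀ p, κ s p = κ' s p) (h' : ∀ p, p + 2 ≤ i → κ (t + 1) p = κ' (t + 1) p) :
    VV κ X Y Z V0 t i = VV κ' X Y Z V0 t i := by
  unfold VV
  refine Vt_dep_congr (fun p hp => ?_) (fun p _ => om_dep_row h p)
  exact At_dep (fun p' _ _ => h t le_rfl p') (fun p' hp' => h' p' (by omega))

theorem om_dep_col_le {b : ℕ} {κ κ' : ℕ → ℕ → (ZMod b)ˣ} {X Y Z V0 : ℕ → ZMod b} (t : ℕ) :
    ∀ {i : ℕ}, (∀ p ≤ i, ∀ s, κ s p = κ' s p) → om κ X Y Z V0 t i = om κ' X Y Z V0 t i := by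
  induction t with
  | zero => intro i h; simp only [om]; rw [h i le_rfl 0]
  | succ t ih =>
    intro i h
    have hA : ∀ p ≤ i, At κ t p = At κ' t p := fun p hp =>
      At_dep (fun p' _ hp' => h p' (by omega) t) (fun p' hp' => h p' (by omega) (t + 1))
    simp only [om]
    rw [ih h, hA i le_rfl, Vt_dep_congr (fun p hp => hA p (by omega))
      (fun p hp => ih (fun p' hp' => h p' (by omega)))]

/-- column order -/
theorem VV_dep_col {b : ℕ} {κ κ' : ℕ → ℕ → (ZMod b)ˣ} {X Y Z V0 : ℕ → ZMod b} {i : ℕ}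
    (h : ∀ p < i, ∀ s, κ s p = κ' s p) (t : ℕ) :
    VV κ X Y Z V0 t i = VV κ' X Y Z V0 t i := by
  unfold VV
  refine Vt_dep_congr (fun p hp => ?_) (fun p hp => ?_)
  · exact At_dep (fun p' _ hp' => h p' (by omega) t) (fun p' hp' => h p' (by omega) (t + 1))
  · exact om_dep_col_le t (fun p' hp' => h p' (by omega))

theorem om_dep_col {b : ℕ} {κ κ' : ℕ → ℕ → (ZMod b)ˣ} {X Y Z V0 : ℕ → ZMod b} {t i : ℕ}
    (ht : 1 ≤ t) (h : ∀ p < i, ∀ s, κ s p = κ' s p) (h' : ∀ s < t, κ s i = κ' s i) :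
    om κ X Y Z V0 t i = om κ' X Y Z V0 t i := by
  induction t, ht using Nat.le_induction with
  | base =>
    have hA : At κ 0 i = At κ' 0 i := by
      refine At_dep (fun p _ hp => ?_) (fun p hp => h p hp 1)
      rcases Nat.lt_or_ge p i with h1 | h1
      · exact h p h1 0
      · have : p = i := le_antisymm hp h1
        subst this
        exact h' 0 Nat.one_pos
    have hV : VV κ X Y Z V0 0 i = VV κ' X Y Z V0 0 i := VV_dep_col h 0
    unfold VV at hV
    simp only [om] at hV ⊢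
    rw [hA, hV, h' 0 Nat.one_pos]
  | succ t ht ih =>
    have hA : At κ t i = At κ' t i := by
      refine At_dep (fun p _ hp => ?_) (fun p hp => h p hp (t + 1))
      rcases Nat.lt_or_ge p i with h1 | h1
      · exact h p h1 t
      · have : p = i := le_antisymm hp h1
        subst this
        exact h' t (Nat.lt_succ_self t)
    have hV : VV κ X Y Z V0 t i = VV κ' X Y Z V0 t i := VV_dep_col h t
    unfold VV at hV
    simp only [om]
    rw [hA, hV, ih (fun s hs => h' s (by omega))]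

end DiscPS
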