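import Pool.Agent.Work.DiscPS.Bern
import Pool.Agent.Work.DiscPS.Dep

/-!
Concentration for one corner: four families of martingale differences.
-/

namespace DiscPS

open Finset

/-- the finite index set of the table -/
abbrev ConcI (n : ℕ) := Fin (n + 1) × Fin (n + 1)

/-- row order -/
def concR (n : ℕ) (j : ConcI n) : ℕ := (j.1 : ℕ) * (n + 1) + j.2

/-- column order -/
def concC (n : ℕ) (j : ConcI n) : ℕ := (j.2 : ℕ) * (n + 1) + j.1

theorem conc_lex {n a b c d : ℕ} (hb : b < n + 1) (hd : d < n + 1) :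
    a * (n + 1) + b ≤ c * (n + 1) + d ↔ a < c ∨ a = c ∧ b ≤ d := by
  constructor
  · intro h
    rcases lt_trichotomy a c with h1 | h1 | h1
    · exact Or.inl h1
    · subst h1
      exact Or.inr ⟨rfl, by omega⟩
    · exfalso
      have h2 : (c + 1) * (n + 1) ≤ a * (n + 1) := Nat.mul_le_mul_right _ h1
      rw [Nat.succ_mul] at h2
      omega
  · rintro (h | ⟨h, h'⟩)
    · have h2 : (a + 1) * (n + 1) ≤ c * (n + 1) := Nat.mul_le_mul_right _ h
      rw [Nat.succ_mul] at h2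
      omega
    · subst h
      omega

theorem concR_inj (n : ℕ) : Function.Injective (concR n) := by
  intro j j' h
  unfold concR at h
  have h1 := (conc_lex j.2.2 j'.2.2).1 h.le
  have h2 := (conc_lex j'.2.2 j.2.2).1 h.ge
  refine Prod.ext (Fin.ext ?_) (Fin.ext ?_) <;> omega

theorem concC_inj (n : ℕ) : Function.Injective (concC n) := by
  intro j j' h
  unfold concC at h
  have h1 := (conc_lex j.1.2 j'.1.2).1 h.le
  have h2 := (conc_lex j'.1.2 j.1.2).1 h.ge
  refine Prod.ext (Fin.ext ?_) (Fin.ext ?_) <;> omega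

section table

variable {b n : ℕ} {G0 : Finset (ZMod b)ˣ}

/-- the extended table -/
def concT (w : ConcI n → {x // x ∈ G0}) : ℕ → ℕ → (ZMod b)ˣ :=
  extT n 1 fun t i => (w (t, i) : (ZMod b)ˣ)

theorem concT_congr {w w' : ConcI n → {x // x ∈ G0}} {t i : ℕ}
    (h : ∀ j : ConcI n, (j.1 : ℕ) = t → (j.2 : ℕ) = i → w j = w' j) :
    concT w t i = concT w' t i := by
  unfold concT extT
  split_ifs with h1
  · beta_reduce
    rw [h (⟨t, h1.1⟩, ⟨i, h1.2⟩) rfl rfl]
  · rfl

theorem concT_ne {w : ConcI n → {x // x ∈ G0}} {j : ConcI n} {a : {x // x ∈ G0}} {t i : ℕ}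
    (h : ¬((j.1 : ℕ) = t ∧ (j.2 : ℕ) = i)) :
    concT (Function.update w j a) t i = concT w t i := by
  refine concT_congr fun j' h1 h2 => ?_
  rw [Function.update_of_ne]
  rintro rfl
  exact h ⟨h1, h2⟩

theorem concT_self {w : ConcI n → {x // x ∈ G0}} {j : ConcI n} {a : {x // x ∈ G0}} {t i : ℕ}
    (h1 : (j.1 : ℕ) = t) (h2 : (j.2 : ℕ) = i) :
    concT (Function.update w j a) t i = a := by
  unfold concT extT
  have h : t < n + 1 ∧ i < n + 1 := ⟨h1 ▸ j.1.2, h2 ▸ j.2.2⟩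
  rw [dif_pos h]
  have h3 : ((⟨t, h.1⟩, ⟨i, h.2⟩) : ConcI n) = j := by
    refine Prod.ext (Fin.ext h1.symm) (Fin.ext h2.symm)
  beta_reduce
  rw [h3, Function.update_self]

theorem concT_mem (w : ConcI n → {x // x ∈ G0}) {t i : ℕ} (ht : t ≤ n) (hi : i ≤ n) :
    concT w t i ∈ G0 := by
  unfold concT extT
  rw [dif_pos ⟨by omega, by omega⟩]
  exact (w _).2

theorem concT_row {w w' : ConcI n → {x // x ∈ G0}} {j : ConcI n}
    (h : ∀ i, concR n i ≤ concR n j → w i = w' i) {t i : ℕ}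
    (ht : t < j.1 ∨ t = j.1 ∧ i ≤ j.2) : concT w t i = concT w' t i := by
  refine concT_congr fun j' h1 h2 => h j' ?_
  unfold concR
  rw [conc_lex j'.2.2 j.2.2, h1, h2]
  exact ht

theorem concT_col {w w' : ConcI n → {x // x ∈ G0}} {j : ConcI n}
    (h : ∀ i, concC n i ≤ concC n j → w i = w' i) {t i : ℕ}
    (ht : i < j.2 ∨ i = j.2 ∧ t ≤ j.1) : concT w t i = concT w' t i := by
  refine concT_congr fun j' h1 h2 => h j' ?_
  unfold concC
  rw [conc_lex j'.1.2 j.1.2, h1, h2]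
  exact ht

end table

/-! ### sums -/

theorem conc_sum {n a c : ℕ} (ha : a ≤ 2) (hc : c ≤ 1) (φ : ConcI n → ℝ) (ψ : ℕ → ℕ → ℝ)
    (h : ∀ j : ConcI n, a ≤ j.1 ∧ c ≤ j.2 ∧ (j.1 - a) + (j.2 - c) + 2 < n →
      φ j = ψ (j.1 - a) (j.2 - c))
    (h0 : ∀ j : ConcI n, ¬(a ≤ j.1 ∧ c ≤ j.2 ∧ (j.1 - a) + (j.2 - c) + 2 < n) → φ j = 0) :
    ∑ j, φ j = ∑ t ∈ range n, ∑ v ∈ range (n - 2 - t), ψ t v := by
  rw [Finset.sum_sigma' (range n) (fun t => range (n - 2 - t)) (fun t v => ψ t v)]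
  symm
  refine Finset.sum_of_injOn (fun p => ((Fin.ofNat (n + 1) (p.1 + a), Fin.ofNat (n + 1) (p.2 + c)) :
    ConcI n)) ?_ ?_ ?_ ?_
  · rintro ⟨t, v⟩ h1 ⟨t', v'⟩ h1' he
    simp only [coe_sigma, coe_range, Set.mem_sigma_iff, Set.mem_Iio] at h1 h1'
    simp only [Prod.mk.injEq, Fin.ext_iff, Fin.val_ofNat] at he
    rw [Nat.mod_eq_of_lt (by omega), Nat.mod_eq_of_lt (by omega), Nat.mod_eq_of_lt (by omega),
      Nat.mod_eq_of_lt (by omega)] at he
    obtain ⟨h2, h3⟩ := he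
    have h4 : t = t' := by omega
    have h5 : v = v' := by omega
    rw [h4, h5]
  · intro p _
    exact mem_coe.2 (mem_univ _)
  · intro j _ hj
    refine h0 j fun hcon => hj ?_
    obtain ⟨h1, h2, h3⟩ := hcon
    refine ⟨⟨j.1 - a, j.2 - c⟩, ?_, ?_⟩
    · simp only [coe_sigma, coe_range, Set.mem_sigma_iff, Set.mem_Iio]
      omega
    · refine Prod.ext (Fin.ext ?_) (Fin.ext ?_)
      · simp only [Fin.val_ofNat]
        rw [Nat.mod_eq_of_lt (by omega)]
        omega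
      · simp only [Fin.val_ofNat]
        rw [Nat.mod_eq_of_lt (by omega)]
        omega
  · rintro ⟨t, v⟩ h1
    simp only [mem_sigma, mem_range] at h1
    have e1 : ((Fin.ofNat (n + 1) (t + a) : Fin (n + 1)) : ℕ) = t + a := by
      rw [Fin.val_ofNat]
      exact Nat.mod_eq_of_lt (by omega)
    have e2 : ((Fin.ofNat (n + 1) (v + c) : Fin (n + 1)) : ℕ) = v + c := by
      rw [Fin.val_ofNat]
      exact Nat.mod_eq_of_lt (by omega)
    rw [h _ (by simp only [e1, e2]; omega)]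
    simp only [e1, e2, Nat.add_sub_cancel]

theorem conc_dec1 {n : ℕ} (A : ℕ → ℕ → ℝ) {B : ℝ} (hB : 0 ≤ B)
    (h : ∀ t, t + 1 < n → |A t 0| ≤ B) :
    |∑ t ∈ range n, ∑ i ∈ range (n - 1 - t), A t i -
      ∑ t ∈ range n, ∑ v ∈ range (n - 2 - t), A t (v + 1)| ≤ n * B := by
  rw [← Finset.sum_sub_distrib]
  refine (Finset.abs_sum_le_sum_abs _ _).trans ?_
  have h1 : ∀ t ∈ range n, |∑ i ∈ range (n - 1 - t), A t i -
      ∑ v ∈ range (n - 2 - t), A t (v + 1)| ≤ B := by
    intro t ht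
    rw [mem_range] at ht
    rcases Nat.lt_or_ge (t + 1) n with h2 | h2
    · have e : n - 1 - t = n - 2 - t + 1 := by omega
      rw [e, Finset.sum_range_succ', add_sub_cancel_left]
      exact h t h2
    · have e : n - 1 - t = 0 := by omega
      have e' : n - 2 - t = 0 := by omega
      rw [e, e']
      simpa using hB
  refine (Finset.sum_le_sum h1).trans ?_
  rw [Finset.sum_const, card_range, nsmul_eq_mul]

theorem conc_dec2 {n : ℕ} (A : ℕ → ℕ → ℝ) {B : ℝ} (hB : 0 ≤ B)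
    (h0 : ∀ i, i < n → |A 0 i| ≤ B) (h : ∀ t, t < n → |A t 0| ≤ B) :
    |∑ t ∈ range n, ∑ i ∈ range (n - t), A t i -
      ∑ t ∈ range n, ∑ v ∈ range (n - 2 - t), A (t + 1) (v + 1)| ≤ 2 * n * B := by
  rcases n with _ | N
  · simp
  · rw [Finset.sum_range_succ' (fun t => ∑ i ∈ range (N + 1 - t), A t i)]
    have h1 := conc_dec1 (n := N + 1) (fun t i => A (t + 1) i) hB
      (fun t ht => h (t + 1) (by omega))
    rw [Finset.sum_range_succ (fun t => ∑ i ∈ range (N + 1 - 1 - t), A (t + 1) i)] at h1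
    have e : N + 1 - 1 - N = 0 := by omega
    rw [e, range_zero, sum_empty, add_zero] at h1
    have e2 : ∑ t ∈ range N, ∑ i ∈ range (N + 1 - (t + 1)), A (t + 1) i =
        ∑ t ∈ range N, ∑ i ∈ range (N + 1 - 1 - t), A (t + 1) i := by
      refine Finset.sum_congr rfl fun t _ => ?_
      have e3 : N + 1 - (t + 1) = N + 1 - 1 - t := by omega
      rw [e3]
    rw [e2]
    have h2 : |∑ i ∈ range (N + 1 - 0), A 0 i| ≤ (N + 1 : ℕ) * B := by
      refine (Finset.abs_sum_le_sum_abs _ _).trans ?_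
      refine (Finset.sum_le_sum (g := fun _ => B) fun i hi => ?_).trans ?_
      · exact h0 i (by simpa using hi)
      · rw [Finset.sum_const, card_range, nsmul_eq_mul, Nat.sub_zero]
    rw [abs_le] at h1 h2 ⊢
    constructor <;> linarith [h1.1, h1.2, h2.1, h2.2]

/-! ### one family -/

theorem conc_family {b n : ℕ} {G0 : Finset (ZMod b)ˣ} (hne : G0.Nonempty) {B B1 : ℝ} (hB : 0 ≤ B)
    (hB1 : 0 ≤ B1) (rk : ConcI n → ℕ) (hrk : Function.Injective rk) {a c : ℕ} (ha : a ≤ 2)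
    (hc : c ≤ 1) (h m : (ℕ → ℕ → (ZMod b)ˣ) → ℕ → ℕ → ℝ)
    (hdep : ∀ (j : ConcI n) (t v : ℕ), (j.1 : ℕ) = t + a → (j.2 : ℕ) = v + c → t + v + 2 < n →
      ∀ w w' : ConcI n → {x // x ∈ G0}, (∀ i, rk i ≤ rk j → w i = w' i) →
        h (concT w) t v = h (concT w') t v)
    (hb : ∀ t v, t + v + 2 < n → ∀ w : ConcI n → {x // x ∈ G0}, |h (concT w) t v| ≤ B)
    (hb1 : ∀ (j : ConcI n) (t v : ℕ), (j.1 : ℕ) = t + a → (j.2 : ℕ) = v + c → t + v + 2 < n →
      ∀ w : ConcI n → {x // x ∈ G0}, ∑ x, |h (concT (Function.update w j x)) t v| ≤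
        B1 * Fintype.card {x // x ∈ G0})
    (hm : ∀ (j : ConcI n) (t v : ℕ), (j.1 : ℕ) = t + a → (j.2 : ℕ) = v + c → t + v + 2 < n →
      ∀ w : ConcI n → {x // x ∈ G0}, (∑ x, h (concT (Function.update w j x)) t v) /
        Fintype.card {x // x ∈ G0} = m (concT w) t v)
    {s lam : ℝ} (hs : 0 < s) (hsB : s * (2 * B) ≤ 1) :
    ((univ.filter fun w : ConcI n → {x // x ∈ G0} => lam <
      |∑ t ∈ range n, ∑ v ∈ range (n - 2 - t), (h (concT w) t v - m (concT w) t v)|).card : ℝ) ≤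
      2 * Real.exp (-(s * lam) + ((n : ℝ) + 1) ^ 2 * (s ^ 2 * (B * B1))) *
        (Fintype.card (ConcI n → {x // x ∈ G0}) : ℝ) := by
  have : Nonempty {x // x ∈ G0} := hne.to_subtype
  obtain ⟨f, hf⟩ : ∃ f : ConcI n → (ConcI n → {x // x ∈ G0}) → ℝ, f = fun j w =>
    if a ≤ j.1 ∧ c ≤ j.2 ∧ (j.1 - a) + (j.2 - c) + 2 < n then
      h (concT w) (j.1 - a) (j.2 - c) else 0 := ⟨_, rfl⟩
  have key := bern_rank rk hrk f B B1 hB ?_ ?_ ?_ hs hsB (lam := lam)
  · have hcard : (Fintype.card (ConcI n) : ℝ) = ((n : ℝ) + 1) ^ 2 := by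
      rw [Fintype.card_prod, Fintype.card_fin]
      push_cast
      ring
    rw [hcard] at key
    refine le_trans (le_of_eq ?_) key
    congr 2
    ext w
    simp only [mem_filter, mem_univ, true_and]
    rw [conc_sum ha hc (fun j => f j w - (∑ x, f j (Function.update w j x)) /
      Fintype.card {x // x ∈ G0}) (fun t v => h (concT w) t v - m (concT w) t v)]
    · intro j hj
      have h1 := hm j (j.1 - a) (j.2 - c) (by omega) (by omega) hj.2.2 w
      simp only [hf, if_pos hj]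
      rw [h1]
    · intro j hj
      simp only [hf, if_neg hj]
      simp
  · intro j w w' hw
    simp only [hf]
    split_ifs with hj
    · exact hdep j (j.1 - a) (j.2 - c) (by omega) (by omega) hj.2.2 w w' hw
    · rfl
  · intro j w
    simp only [hf]
    split_ifs with hj
    · exact hb _ _ hj.2.2 w
    · simpa using hB
  · intro j w
    simp only [hf]
    split_ifs with hj
    · exact hb1 j _ _ (by omega) (by omega) hj.2.2 w
    · simp only [abs_zero, sum_const_zero]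
      positivity

/-! ### the four families -/

section four

variable {b : ℕ} [NeZero b] (G0 : Finset (ZMod b)ˣ) (X Y Z V0 : ℕ → ZMod b) (G : ℕ → ZMod b → ℝ)

/-- the cells `F2` -/
noncomputable def conch1 (T : ℕ → ℕ → (ZMod b)ˣ) (t v : ℕ) : ℝ :=
  F2 (G t) (VV T X Y Z V0 t (v + 1)) (om T X Y Z V0 t (v + 1)) (X (v + 1)) (Y (v + 1 + t + 1))
    (At T t (v + 1)) (T (t + 1) (v + 1))

/-- the means of the cells `F2` -/
noncomputable def conch2 (T : ℕ → ℕ → (ZMod b)ˣ) (t v : ℕ) : ℝ :=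
  (∑ x : {x // x ∈ G0}, F2 (G t) (VV T X Y Z V0 t (v + 1)) (om T X Y Z V0 t (v + 1)) (X (v + 1))
    (Y (v + 1 + t + 1)) (At T t (v + 1)) x) / Fintype.card {x // x ∈ G0}

/-- the second means of the cells `F2` -/
noncomputable def concm2 (T : ℕ → ℕ → (ZMod b)ˣ) (t v : ℕ) : ℝ :=
  (∑ x' : {x // x ∈ G0}, (∑ x : {x // x ∈ G0}, F2 (G t) (VV T X Y Z V0 t (v + 1))
    (om T X Y Z V0 t (v + 1)) (X (v + 1)) (Y (v + 1 + t + 1))
    (-(At T t v) * T t (v + 1) * (x' : (ZMod b)ˣ)⁻¹) x) / Fintype.card {x // x ∈ G0}) /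
      Fintype.card {x // x ∈ G0}

/-- the cells `F3` -/
noncomputable def conch3 (T : ℕ → ℕ → (ZMod b)ˣ) (t v : ℕ) : ℝ :=
  F3 (G (t + 1)) (VV T X Y Z V0 (t + 1) (v + 1)) (om T X Y Z V0 (t + 1) (v + 1)) (X (v + 1))
    (Y (v + 1 + (t + 1))) (At T (t + 1) (v + 1)) (T (t + 1) (v + 1))

/-- the means of the cells `F3` -/
noncomputable def conch4 (T : ℕ → ℕ → (ZMod b)ˣ) (t v : ℕ) : ℝ :=
  (∑ x : {x // x ∈ G0}, F3 (G (t + 1)) (VV T X Y Z V0 (t + 1) (v + 1))
    (om T X Y Z V0 (t + 1) (v + 1)) (X (v + 1)) (Y (v + 1 + (t + 1)))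
    (-(At T (t + 1) v) * (T (t + 1 + 1) v)⁻¹ * x) x) / Fintype.card {x // x ∈ G0}

/-- the second means of the cells `F3` -/
noncomputable def concm4 (T : ℕ → ℕ → (ZMod b)ˣ) (t v : ℕ) : ℝ :=
  (∑ x' : {x // x ∈ G0}, (∑ x : {x // x ∈ G0}, F3 (G (t + 1)) (VV T X Y Z V0 (t + 1) (v + 1))
    (om T X Y Z V0 (t + 1) (v + 1)) (X (v + 1)) (Y (v + 1 + (t + 1)))
    (-(At T (t + 1) v) * (x' : (ZMod b)ˣ)⁻¹ * x) x) / Fintype.card {x // x ∈ G0}) /
      Fintype.card {x // x ∈ G0}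

variable {G0 X Y Z V0 G} {n : ℕ}

omit [NeZero b] in
theorem conc_sumG0 (φ : (ZMod b)ˣ → ℝ) : ∑ x : {x // x ∈ G0}, φ x = ∑ x ∈ G0, φ x :=
  Finset.sum_coe_sort G0 φ

omit [NeZero b] in
theorem conc_mean_le {φ : {x // x ∈ G0} → ℝ} {c : ℝ} (hc : 0 ≤ c)
    (h : ∑ x, |φ x| ≤ c * Fintype.card {x // x ∈ G0}) :
    |(∑ x, φ x) / Fintype.card {x // x ∈ G0}| ≤ c := by
  rw [abs_div, Nat.abs_cast]
  rcases (Nat.cast_nonneg (α := ℝ) (Fintype.card {x // x ∈ G0})).eq_or_lt with h0 | h0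
  · rw [← h0, div_zero]
    exact hc
  · rw [div_le_iff₀ h0]
    exact (Finset.abs_sum_le_sum_abs _ _).trans h

omit [NeZero b] in
theorem conc_mean2_le {φ : {x // x ∈ G0} → {x // x ∈ G0} → ℝ} {c : ℝ} (hc : 0 ≤ c)
    (h : |∑ x', ∑ x, φ x' x| ≤ c * (G0.card : ℝ) ^ 2) :
    |(∑ x', (∑ x, φ x' x) / Fintype.card {x // x ∈ G0}) / Fintype.card {x // x ∈ G0}| ≤ c := by
  rw [← Finset.sum_div, div_div, abs_div, Fintype.card_coe, ← Nat.cast_mul, Nat.abs_cast]
  rcases (Nat.cast_nonneg (α := ℝ) (G0.card * G0.card)).eq_or_lt with h0 | h0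
  · rw [← h0, div_zero]
    exact hc
  · rw [div_le_iff₀ h0]
    refine h.trans (le_of_eq ?_)
    push_cast
    ring

theorem conch2_le {B B1 E : ℝ} {Lev : (ZMod b → ℝ) → Prop} (hC : Cells B B1 E G0 Lev)
    {t : ℕ} (hG : Lev (G t)) (v : ℕ) (T : ℕ → ℕ → (ZMod b)ˣ) :
    |conch2 G0 X Y Z V0 G T t v| ≤ B1 := by
  refine conc_mean_le (by linarith [hC.one_le]) ?_
  rw [conc_sumG0 (fun x => |F2 (G t) (VV T X Y Z V0 t (v + 1)) (om T X Y Z V0 t (v + 1))
    (X (v + 1)) (Y (v + 1 + t + 1)) (At T t (v + 1)) x|), Fintype.card_coe]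
  exact hC.s2 _ hG _ _ _ _ _

theorem concm2_le {B B1 E : ℝ} {Lev : (ZMod b → ℝ) → Prop} (hC : Cells B B1 E G0 Lev)
    {t : ℕ} (hG : Lev (G t)) (v : ℕ) (T : ℕ → ℕ → (ZMod b)ˣ) :
    |concm2 G0 X Y Z V0 G T t v| ≤ E := by
  refine conc_mean2_le hC.E_nonneg ?_
  refine le_trans (le_of_eq ?_) (hC.m2 (G t) hG (VV T X Y Z V0 t (v + 1))
    (om T X Y Z V0 t (v + 1)) (X (v + 1)) (Y (v + 1 + t + 1)) (-(At T t v) * T t (v + 1)))
  rw [← conc_sumG0 (fun κ' => ∑ κ ∈ G0, F2 (G t) (VV T X Y Z V0 t (v + 1))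
    (om T X Y Z V0 t (v + 1)) (X (v + 1)) (Y (v + 1 + t + 1))
    (-(At T t v) * T t (v + 1) * κ'⁻¹) κ)]
  congr 1
  refine Finset.sum_congr rfl fun x' _ => ?_
  exact conc_sumG0 (fun κ => F2 (G t) (VV T X Y Z V0 t (v + 1))
    (om T X Y Z V0 t (v + 1)) (X (v + 1)) (Y (v + 1 + t + 1))
    (-(At T t v) * T t (v + 1) * (x' : (ZMod b)ˣ)⁻¹) κ)

theorem conch4_le {B B1 E : ℝ} {Lev : (ZMod b → ℝ) → Prop} (hC : Cells B B1 E G0 Lev)
    {t : ℕ} (hG : Lev (G (t + 1))) (v : ℕ) (T : ℕ → ℕ → (ZMod b)ˣ) :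
    |conch4 G0 X Y Z V0 G T t v| ≤ B1 := by
  refine conc_mean_le (by linarith [hC.one_le]) ?_
  rw [conc_sumG0 (fun x => |F3 (G (t + 1)) (VV T X Y Z V0 (t + 1) (v + 1))
    (om T X Y Z V0 (t + 1) (v + 1)) (X (v + 1)) (Y (v + 1 + (t + 1)))
    (-(At T (t + 1) v) * (T (t + 1 + 1) v)⁻¹ * x) x|), Fintype.card_coe]
  exact hC.s3 _ hG _ _ _ _ _

theorem concm4_le {B B1 E : ℝ} {Lev : (ZMod b → ℝ) → Prop} (hC : Cells B B1 E G0 Lev)
    {t : ℕ} (hG : Lev (G (t + 1))) (v : ℕ) (T : ℕ → ℕ → (ZMod b)ˣ) :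
    |concm4 G0 X Y Z V0 G T t v| ≤ E := by
  refine conc_mean2_le hC.E_nonneg ?_
  refine le_trans (le_of_eq ?_) (hC.m3 (G (t + 1)) hG (VV T X Y Z V0 (t + 1) (v + 1))
    (om T X Y Z V0 (t + 1) (v + 1)) (X (v + 1)) (Y (v + 1 + (t + 1))) (-(At T (t + 1) v)))
  rw [← conc_sumG0 (fun κ' => ∑ κ ∈ G0, F3 (G (t + 1)) (VV T X Y Z V0 (t + 1) (v + 1))
    (om T X Y Z V0 (t + 1) (v + 1)) (X (v + 1)) (Y (v + 1 + (t + 1)))
    (-(At T (t + 1) v) * κ'⁻¹ * κ) κ)]
  congr 1
  refine Finset.sum_congr rfl fun x' _ => ?_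
  exact conc_sumG0 (fun κ => F3 (G (t + 1)) (VV T X Y Z V0 (t + 1) (v + 1))
    (om T X Y Z V0 (t + 1) (v + 1)) (X (v + 1)) (Y (v + 1 + (t + 1)))
    (-(At T (t + 1) v) * (x' : (ZMod b)ˣ)⁻¹ * κ) κ)

/-! ### updates -/

omit [NeZero b] in
theorem conch1_update {w : ConcI n → {x // x ∈ G0}} {j : ConcI n} {t v : ℕ}
    (h1 : (j.1 : ℕ) = t + 1) (h2 : (j.2 : ℕ) = v + 1) (x : {x // x ∈ G0}) :
    conch1 X Y Z V0 G (concT (Function.update w j x)) t v =
      F2 (G t) (VV (concT w) X Y Z V0 t (v + 1)) (om (concT w) X Y Z V0 t (v + 1)) (X (v + 1))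
        (Y (v + 1 + t + 1)) (At (concT w) t (v + 1)) x := by
  unfold conch1
  have hrow : ∀ s ≤ t, ∀ p, concT (Function.update w j x) s p = concT w s p :=
    fun s hs p => concT_ne (by omega)
  rw [VV_dep_row hrow (fun p hp => concT_ne (by omega)), om_dep_row hrow,
    At_dep (fun p _ _ => hrow t le_rfl p) (fun p hp => concT_ne (by omega)), concT_self h1 h2]

omit [NeZero b] in
theorem conch2_update {w : ConcI n → {x // x ∈ G0}} {j : ConcI n} {t v : ℕ}
    (h1 : (j.1 : ℕ) = t + 1) (h2 : (j.2 : ℕ) = v) (x' : {x // x ∈ G0}) :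
    conch2 G0 X Y Z V0 G (concT (Function.update w j x')) t v =
      (∑ x : {x // x ∈ G0}, F2 (G t) (VV (concT w) X Y Z V0 t (v + 1))
        (om (concT w) X Y Z V0 t (v + 1)) (X (v + 1)) (Y (v + 1 + t + 1))
        (-(At (concT w) t v) * concT w t (v + 1) * (x' : (ZMod b)ˣ)⁻¹) x) /
          Fintype.card {x // x ∈ G0} := by
  unfold conch2
  have hrow : ∀ s ≤ t, ∀ p, concT (Function.update w j x') s p = concT w s p :=
    fun s hs p => concT_ne (by omega)
  have hA : At (concT (Function.update w j x')) t (v + 1) =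
      -(At (concT w) t v) * concT w t (v + 1) * (x' : (ZMod b)ˣ)⁻¹ := by
    simp only [At]
    rw [At_dep (fun p _ _ => hrow t le_rfl p) (fun p hp => concT_ne (by omega)),
      hrow t le_rfl, concT_self h1 h2]
  rw [VV_dep_row hrow (fun p hp => concT_ne (by omega)), om_dep_row hrow, hA]

omit [NeZero b] in
theorem conch3_update {w : ConcI n → {x // x ∈ G0}} {j : ConcI n} {t v : ℕ}
    (h1 : (j.1 : ℕ) = t + 1) (h2 : (j.2 : ℕ) = v + 1) (x : {x // x ∈ G0}) :
    conch3 X Y Z V0 G (concT (Function.update w j x)) t v =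
      F3 (G (t + 1)) (VV (concT w) X Y Z V0 (t + 1) (v + 1))
        (om (concT w) X Y Z V0 (t + 1) (v + 1)) (X (v + 1)) (Y (v + 1 + (t + 1)))
        (-(At (concT w) (t + 1) v) * (concT w (t + 1 + 1) v)⁻¹ * x) x := by
  unfold conch3
  have hcol : ∀ p < v + 1, ∀ s, concT (Function.update w j x) s p = concT w s p :=
    fun p hp s => concT_ne (by omega)
  have hA : At (concT (Function.update w j x)) (t + 1) (v + 1) =
      -(At (concT w) (t + 1) v) * (concT w (t + 1 + 1) v)⁻¹ * x := by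
    simp only [At]
    rw [At_dep (fun p _ hp => hcol p (by omega) _) (fun p hp => hcol p (by omega) _),
      hcol v (by omega), concT_self h1 h2, mul_right_comm]
  rw [VV_dep_col hcol, om_dep_col (by omega) hcol (fun s hs => concT_ne (by omega)), hA,
    concT_self h1 h2]

omit [NeZero b] in
theorem conch4_update {w : ConcI n → {x // x ∈ G0}} {j : ConcI n} {t v : ℕ}
    (h1 : (j.1 : ℕ) = t + 1 + 1) (h2 : (j.2 : ℕ) = v) (x' : {x // x ∈ G0}) :
    conch4 G0 X Y Z V0 G (concT (Function.update w j x')) t v =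
      (∑ x : {x // x ∈ G0}, F3 (G (t + 1)) (VV (concT w) X Y Z V0 (t + 1) (v + 1))
        (om (concT w) X Y Z V0 (t + 1) (v + 1)) (X (v + 1)) (Y (v + 1 + (t + 1)))
        (-(At (concT w) (t + 1) v) * (x' : (ZMod b)ˣ)⁻¹ * x) x) /
          Fintype.card {x // x ∈ G0} := by
  unfold conch4
  have hrow : ∀ s ≤ t + 1, ∀ p, concT (Function.update w j x') s p = concT w s p :=
    fun s hs p => concT_ne (by omega)
  rw [VV_dep_row hrow (fun p hp => concT_ne (by omega)), om_dep_row hrow,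
    At_dep (fun p _ _ => hrow _ le_rfl p) (fun p hp => concT_ne (by omega)), concT_self h1 h2]

end four

/-! ### the theorem -/

theorem conc_flat {b : ℕ} [NeZero b] {B B1 E : ℝ} {G0 : Finset (ZMod b)ˣ}
    {Lev : (ZMod b → ℝ) → Prop} (hC : Cells B B1 E G0 Lev) (n : ℕ) (X Y Z V0 : ℕ → ZMod b)
    (G : ℕ → ZMod b → ℝ) (hG : ∀ t < n, Lev (G t)) {s lam : ℝ} (hs : 0 < s)
    (hsB : s * (2 * B) ≤ 1) :
    ((univ.filter fun w : ConcI n → {x // x ∈ G0} =>
        4 * n * B + 2 * (n : ℝ) ^ 2 * E + 4 * lam < |SS n (concT w) X Y Z V0 G|).card : ℝ) ≤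
      8 * Real.exp (-(s * lam) + ((n : ℝ) + 1) ^ 2 * (s ^ 2 * (B * B1))) *
        (Fintype.card (ConcI n → {x // x ∈ G0}) : ℝ) := by
  have hB1 : 0 ≤ B1 := by linarith [hC.one_le]
  have hB : 0 ≤ B := by linarith [hC.B1_le]
  have hE := hC.E_nonneg
  -- the four families
  have F1 := conc_family hC.ne hB hB1 (concR n) (concR_inj n) (a := 1) (c := 1) (by omega)
    (by omega) (conch1 X Y Z V0 G) (conch2 G0 X Y Z V0 G) (by
      intro j t v h1 h2 _ w w' hw
      unfold conch1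
      have hrow : ∀ s ≤ t, ∀ p, concT w s p = concT w' s p :=
        fun s hs p => concT_row hw (by omega)
      rw [VV_dep_row hrow (fun p hp => concT_row hw (by omega)), om_dep_row hrow,
        At_dep (fun p _ _ => hrow t le_rfl p) (fun p hp => concT_row hw (by omega)),
        concT_row hw (by omega)])
    (by
      intro t v h w
      exact hC.b2 _ (hG t (by omega)) _ _ _ _ _ _ (concT_mem w (by omega) (by omega)))
    (by
      intro j t v h1 h2 h w
      simp only [conch1_update h1 h2]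
      rw [conc_sumG0 (fun x => |F2 (G t) (VV (concT w) X Y Z V0 t (v + 1))
        (om (concT w) X Y Z V0 t (v + 1)) (X (v + 1)) (Y (v + 1 + t + 1))
        (At (concT w) t (v + 1)) x|), Fintype.card_coe]
      exact hC.s2 _ (hG t (by omega)) _ _ _ _ _)
    (by
      intro j t v h1 h2 h w
      simp only [conch1_update h1 h2]
      rfl) hs hsB (lam := lam)
  have F2' := conc_family hC.ne hB hB1 (concR n) (concR_inj n) (a := 1) (c := 0) (by omega)
    (by omega) (conch2 G0 X Y Z V0 G) (concm2 G0 X Y Z V0 G) (by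
      intro j t v h1 h2 _ w w' hw
      unfold conch2
      have hrow : ∀ s ≤ t, ∀ p, concT w s p = concT w' s p :=
        fun s hs p => concT_row hw (by omega)
      rw [VV_dep_row hrow (fun p hp => concT_row hw (by omega)), om_dep_row hrow,
        At_dep (fun p _ _ => hrow t le_rfl p) (fun p hp => concT_row hw (by omega))])
    (by
      intro t v h w
      exact (conch2_le hC (hG t (by omega)) v _).trans hC.B1_le)
    (by
      intro j t v h1 h2 h w
      refine (Finset.sum_le_sum (g := fun _ => B1) fun x _ =>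
        conch2_le hC (hG t (by omega)) v _).trans ?_
      rw [Finset.sum_const, card_univ, nsmul_eq_mul, mul_comm])
    (by
      intro j t v h1 h2 h w
      simp only [conch2_update (v := v) h1 h2]
      rfl) hs hsB (lam := lam)
  have F3' := conc_family hC.ne hB hB1 (concC n) (concC_inj n) (a := 1) (c := 1) (by omega)
    (by omega) (conch3 X Y Z V0 G) (conch4 G0 X Y Z V0 G) (by
      intro j t v h1 h2 _ w w' hw
      unfold conch3
      have hcol : ∀ p < v + 1, ∀ s, concT w s p = concT w' s p :=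
        fun p hp s => concT_col hw (by omega)
      rw [VV_dep_col hcol, om_dep_col (by omega) hcol (fun s hs => concT_col hw (by omega)),
        At_dep (fun p _ hp => concT_col hw (by omega)) (fun p hp => hcol p (by omega) _),
        concT_col hw (by omega)])
    (by
      intro t v h w
      exact hC.b3 _ (hG (t + 1) (by omega)) _ _ _ _ _ _ (concT_mem w (by omega) (by omega)))
    (by
      intro j t v h1 h2 h w
      simp only [conch3_update h1 h2]
      rw [conc_sumG0 (fun x => |F3 (G (t + 1)) (VV (concT w) X Y Z V0 (t + 1) (v + 1))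
        (om (concT w) X Y Z V0 (t + 1) (v + 1)) (X (v + 1)) (Y (v + 1 + (t + 1)))
        (-(At (concT w) (t + 1) v) * (concT w (t + 1 + 1) v)⁻¹ * x) x|), Fintype.card_coe]
      exact hC.s3 _ (hG (t + 1) (by omega)) _ _ _ _ _)
    (by
      intro j t v h1 h2 h w
      simp only [conch3_update h1 h2]
      rfl) hs hsB (lam := lam)
  have F4 := conc_family hC.ne hB hB1 (concR n) (concR_inj n) (a := 2) (c := 0) (by omega)
    (by omega) (conch4 G0 X Y Z V0 G) (concm4 G0 X Y Z V0 G) (by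
      intro j t v h1 h2 _ w w' hw
      unfold conch4
      have hrow : ∀ s ≤ t + 1, ∀ p, concT w s p = concT w' s p :=
        fun s hs p => concT_row hw (by omega)
      rw [VV_dep_row hrow (fun p hp => concT_row hw (by omega)), om_dep_row hrow,
        At_dep (fun p _ _ => hrow _ le_rfl p) (fun p hp => concT_row hw (by omega)),
        concT_row (t := t + 1 + 1) hw (by omega)])
    (by
      intro t v h w
      exact (conch4_le hC (hG (t + 1) (by omega)) v _).trans hC.B1_le)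
    (by
      intro j t v h1 h2 h w
      refine (Finset.sum_le_sum (g := fun _ => B1) fun x _ =>
        conch4_le hC (hG (t + 1) (by omega)) v _).trans ?_
      rw [Finset.sum_const, card_univ, nsmul_eq_mul, mul_comm])
    (by
      intro j t v h1 h2 h w
      simp only [conch4_update (t := t) (v := v) h1 h2]
      rfl) hs hsB (lam := lam)
  -- the union bound
  have hsub : (univ.filter fun w : ConcI n → {x // x ∈ G0} =>
      4 * n * B + 2 * (n : ℝ) ^ 2 * E + 4 * lam < |SS n (concT w) X Y Z V0 G|) ⊆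
      ((univ.filter fun w : ConcI n → {x // x ∈ G0} => lam < |∑ t ∈ range n,
          ∑ v ∈ range (n - 2 - t), (conch1 X Y Z V0 G (concT w) t v -
            conch2 G0 X Y Z V0 G (concT w) t v)|) ∪
        (univ.filter fun w : ConcI n → {x // x ∈ G0} => lam < |∑ t ∈ range n,
          ∑ v ∈ range (n - 2 - t), (conch2 G0 X Y Z V0 G (concT w) t v -
            concm2 G0 X Y Z V0 G (concT w) t v)|)) ∪
      ((univ.filter fun w : ConcI n → {x // x ∈ G0} => lam < |∑ t ∈ range n,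
          ∑ v ∈ range (n - 2 - t), (conch3 X Y Z V0 G (concT w) t v -
            conch4 G0 X Y Z V0 G (concT w) t v)|) ∪
        (univ.filter fun w : ConcI n → {x // x ∈ G0} => lam < |∑ t ∈ range n,
          ∑ v ∈ range (n - 2 - t), (conch4 G0 X Y Z V0 G (concT w) t v -
            concm4 G0 X Y Z V0 G (concT w) t v)|)) := by
    intro w hw
    by_contra hcon
    simp only [mem_union, mem_filter, mem_univ, true_and, not_or, not_lt] at hcon hw
    obtain ⟨⟨g1, g2⟩, g3, g4⟩ := hcon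
    have hd1 := conc_dec1 (n := n) (fun t i => F2 (G t) (VV (concT w) X Y Z V0 t i)
      (om (concT w) X Y Z V0 t i) (X i) (Y (i + t + 1)) (At (concT w) t i)
      (concT w (t + 1) i)) hB (fun t ht =>
        hC.b2 _ (hG t (by omega)) _ _ _ _ _ _ (concT_mem w (by omega) (by omega)))
    have hd2 := conc_dec2 (n := n) (fun t i => F3 (G t) (VV (concT w) X Y Z V0 t i)
      (om (concT w) X Y Z V0 t i) (X i) (Y (i + t)) (At (concT w) t i)
      (concT w t i)) hB (fun i hi =>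
        hC.b3 _ (hG 0 (by omega)) _ _ _ _ _ _ (concT_mem w (by omega) (by omega)))
        (fun t ht => hC.b3 _ (hG t ht) _ _ _ _ _ _ (concT_mem w (by omega) (by omega)))
    have hE1 : |∑ t ∈ range n, ∑ v ∈ range (n - 2 - t), concm2 G0 X Y Z V0 G (concT w) t v| ≤
        (n : ℝ) ^ 2 * E := by
      refine (Finset.abs_sum_le_sum_abs _ _).trans ?_
      refine (Finset.sum_le_sum (g := fun _ => (n : ℝ) * E) fun t ht => ?_).trans ?_
      · rw [mem_range] at ht
        refine (Finset.abs_sum_le_sum_abs _ _).trans ?_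
        refine (Finset.sum_le_sum (g := fun _ => E) fun v _ =>
          concm2_le hC (hG t ht) v _).trans ?_
        rw [Finset.sum_const, card_range, nsmul_eq_mul]
        refine mul_le_mul_of_nonneg_right ?_ hE
        exact_mod_cast (by omega : n - 2 - t ≤ n)
      · rw [Finset.sum_const, card_range, nsmul_eq_mul]
        refine le_of_eq ?_
        ring
    have hE2 : |∑ t ∈ range n, ∑ v ∈ range (n - 2 - t), concm4 G0 X Y Z V0 G (concT w) t v| ≤
        (n : ℝ) ^ 2 * E := by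
      refine (Finset.abs_sum_le_sum_abs _ _).trans ?_
      refine (Finset.sum_le_sum (g := fun _ => (n : ℝ) * E) fun t ht => ?_).trans ?_
      · rw [mem_range] at ht
        refine (Finset.abs_sum_le_sum_abs _ _).trans ?_
        refine (Finset.sum_le_sum (g := fun _ => E) fun v hv =>
          concm4_le hC (hG (t + 1) (by rw [mem_range] at hv; omega)) v _).trans ?_
        rw [Finset.sum_const, card_range, nsmul_eq_mul]
        refine mul_le_mul_of_nonneg_right ?_ hE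
        exact_mod_cast (by omega : n - 2 - t ≤ n)
      · rw [Finset.sum_const, card_range, nsmul_eq_mul]
        refine le_of_eq ?_
        ring
    have hSS : SS n (concT w) X Y Z V0 G =
        ∑ t ∈ range n, ∑ i ∈ range (n - 1 - t), F2 (G t) (VV (concT w) X Y Z V0 t i)
          (om (concT w) X Y Z V0 t i) (X i) (Y (i + t + 1)) (At (concT w) t i)
          (concT w (t + 1) i) +
        ∑ t ∈ range n, ∑ i ∈ range (n - t), F3 (G t) (VV (concT w) X Y Z V0 t i)
          (om (concT w) X Y Z V0 t i) (X i) (Y (i + t)) (At (concT w) t i) (concT w t i) := by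
      unfold SS
      rw [Finset.sum_add_distrib]
    have hs1 : ∑ t ∈ range n, ∑ v ∈ range (n - 2 - t),
        F2 (G t) (VV (concT w) X Y Z V0 t (v + 1)) (om (concT w) X Y Z V0 t (v + 1)) (X (v + 1))
          (Y (v + 1 + t + 1)) (At (concT w) t (v + 1)) (concT w (t + 1) (v + 1)) =
        ∑ t ∈ range n, ∑ v ∈ range (n - 2 - t), conch1 X Y Z V0 G (concT w) t v := rfl
    have hs2 : ∑ t ∈ range n, ∑ v ∈ range (n - 2 - t),
        F3 (G (t + 1)) (VV (concT w) X Y Z V0 (t + 1) (v + 1))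
          (om (concT w) X Y Z V0 (t + 1) (v + 1)) (X (v + 1)) (Y (v + 1 + (t + 1)))
          (At (concT w) (t + 1) (v + 1)) (concT w (t + 1) (v + 1)) =
        ∑ t ∈ range n, ∑ v ∈ range (n - 2 - t), conch3 X Y Z V0 G (concT w) t v := rfl
    simp only [Finset.sum_sub_distrib] at g1 g2 g3 g4
    beta_reduce at hd1 hd2
    rw [hs1] at hd1
    rw [hs2] at hd2
    rw [hSS] at hw
    have hnB : (0 : ℝ) ≤ n * B := by positivity
    refine absurd hw (not_lt.2 ?_)
    rw [abs_le] at g1 g2 g3 g4 hd1 hd2 hE1 hE2 ⊢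
    constructor <;> linarith [g1.1, g1.2, g2.1, g2.2, g3.1, g3.2, g4.1, g4.2, hd1.1, hd1.2,
      hd2.1, hd2.2, hE1.1, hE1.2, hE2.1, hE2.2]
  have hcard := Finset.card_le_card hsub
  have hcard' := hcard.trans ((Finset.card_union_le _ _).trans
    (Nat.add_le_add (Finset.card_union_le _ _) (Finset.card_union_le _ _)))
  have hR : ((univ.filter fun w : ConcI n → {x // x ∈ G0} =>
      4 * n * B + 2 * (n : ℝ) ^ 2 * E + 4 * lam < |SS n (concT w) X Y Z V0 G|).card : ℝ) ≤ _ :=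
    Nat.cast_le.2 hcard'
  push_cast at hR
  linarith

/-- concentration for one corner -/
theorem conc {b : ℕ} [NeZero b] {B B1 E : ℝ} {G0 : Finset (ZMod b)ˣ} {Lev : (ZMod b → ℝ) → Prop}
    (hC : Cells B B1 E G0 Lev) (n : ℕ) (X Y Z V0 : ℕ → ZMod b) (G : ℕ → ZMod b → ℝ)
    (hG : ∀ t < n, Lev (G t)) {s lam : ℝ} (hs : 0 < s) (hsB : s * (2 * B) ≤ 1) :
    ((univ.filter fun κ : Fin (n + 1) → Fin (n + 1) → {x // x ∈ G0} =>
        4 * n * B + 2 * (n : ℝ) ^ 2 * E + 4 * lam <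
          |SS n (extT n 1 fun t i => (κ t i : (ZMod b)ˣ)) X Y Z V0 G|).card : ℝ) ≤
      8 * Real.exp (-(s * lam) + ((n : ℝ) + 1) ^ 2 * (s ^ 2 * (B * B1))) *
        (Fintype.card (Fin (n + 1) → Fin (n + 1) → {x // x ∈ G0}) : ℝ) := by
  have h := conc_flat hC n X Y Z V0 G hG hs hsB (lam := lam)
  have e := Equiv.curry (Fin (n + 1)) (Fin (n + 1)) {x // x ∈ G0}
  rw [Fintype.card_congr (Equiv.curry (Fin (n + 1)) (Fin (n + 1)) {x // x ∈ G0})] at h
  refine le_trans (le_of_eq ?_) h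
  congr 1
  symm
  refine Finset.card_equiv (Equiv.curry (Fin (n + 1)) (Fin (n + 1)) {x // x ∈ G0}) fun w => ?_
  simp only [mem_filter, mem_univ, true_and]
  rfl

end DiscPS
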