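import Pool.Agent.Work.DiscPS.DefsB

/-!
# Power saving for the three-dimensional box discrepancy: the two-dimensional part
-/

namespace DiscPS

open Finset

variable {b n : ℕ}

/-- the cell `i` of `x(k) < X` -/
def DTwo_px (X : ℕ → ZMod b) (i : Fin n) (k : Vec b n) : Prop :=
  (∀ q < i, k q = X q) ∧ (k i).val < (X i).val

/-- the cell `i` of `y(k) < Y` -/
def DTwo_py (ρ : ℕ → (ZMod b)ˣ) (Y : ℕ → ZMod b) (i : Fin n) (k : Vec b n) : Prop :=
  (∀ q, i < q → (ρ q : ZMod b) * k q = Y q) ∧ ((ρ i : ZMod b) * k i).val < (Y i).val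

theorem DTwo_px_unique {X : ℕ → ZMod b} {i j : Fin n} {k : Vec b n} (hi : DTwo_px X i k)
    (hj : DTwo_px X j k) : i = j := by
  by_contra hne
  rcases lt_or_gt_of_ne hne with h1 | h1
  · have h3 := hj.1 i h1
    have h2 := hi.2
    rw [h3] at h2
    exact lt_irrefl _ h2
  · have h3 := hi.1 j h1
    have h2 := hj.2
    rw [h3] at h2
    exact lt_irrefl _ h2

theorem DTwo_py_unique {ρ : ℕ → (ZMod b)ˣ} {Y : ℕ → ZMod b} {i j : Fin n} {k : Vec b n}
    (hi : DTwo_py ρ Y i k) (hj : DTwo_py ρ Y j k) : i = j := by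
  by_contra hne
  rcases lt_or_gt_of_ne hne with h1 | h1
  · have h3 := hi.1 j h1
    have h2 := hj.2
    rw [h3] at h2
    exact lt_irrefl _ h2
  · have h3 := hj.1 i h1
    have h2 := hi.2
    rw [h3] at h2
    exact lt_irrefl _ h2

open Classical in
theorem DTwo_ind {ι : Type} [Fintype ι] {P : Prop} {p : ι → Prop} (h : P ↔ ∃ i, p i)
    (hu : ∀ i j, p i → p j → i = j) :
    (if P then (1 : ℝ) else 0) = ∑ i : ι, if p i then (1 : ℝ) else 0 := by
  split_ifs with hP
  · obtain ⟨i, hi⟩ := h.1 hP
    rw [Finset.sum_eq_single i]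
    · rw [if_pos hi]
    · intro j _ hj
      rw [if_neg]
      intro hj'
      exact hj (hu j i hj' hi)
    · intro h
      exact absurd (Finset.mem_univ i) h
  · symm
    apply Finset.sum_eq_zero
    intro i _
    rw [if_neg]
    intro hi
    exact hP (h.2 ⟨i, hi⟩)

open Classical in
/-- number of `k` in the pair of cells `(i, i')` -/
noncomputable def DTwo_cnt [NeZero b] (ρ : ℕ → (ZMod b)ˣ) (X Y : ℕ → ZMod b) (i i' : Fin n) : ℝ :=
  ((univ.filter fun k : Vec b n => DTwo_px X i k ∧ DTwo_py ρ Y i' k).card : ℝ)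

open Classical in
theorem DTwo_count [NeZero b] (ρ : ℕ → (ZMod b)ˣ) (X Y : ℕ → ZMod b) :
    ((univ.filter fun k : Vec b n => ltx k X ∧ lty ρ k Y).card : ℝ) =
      ∑ i : Fin n, ∑ i' : Fin n, DTwo_cnt ρ X Y i i' := by
  have h1 : ((univ.filter fun k : Vec b n => ltx k X ∧ lty ρ k Y).card : ℝ) =
      ∑ k : Vec b n, (if ltx k X then (1 : ℝ) else 0) * (if lty ρ k Y then (1 : ℝ) else 0) := by
    rw [Finset.card_filter]
    push_cast
    apply Finset.sum_congr rfl
    intro k _
    by_cases h1 : ltx k X <;> by_cases h2 : lty ρ k Y <;> simp [h1, h2]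
  rw [h1]
  have h2 : ∀ k : Vec b n, (if ltx k X then (1 : ℝ) else 0) * (if lty ρ k Y then (1 : ℝ) else 0) =
      ∑ i : Fin n, ∑ i' : Fin n, if DTwo_px X i k ∧ DTwo_py ρ Y i' k then (1 : ℝ) else 0 := by
    intro k
    rw [DTwo_ind (P := ltx k X) (p := fun i : Fin n => DTwo_px X i k) Iff.rfl
      (fun i j hi hj => DTwo_px_unique hi hj),
      DTwo_ind (P := lty ρ k Y) (p := fun i : Fin n => DTwo_py ρ Y i k) Iff.rfl
      (fun i j hi hj => DTwo_py_unique hi hj), Finset.sum_mul_sum]
    apply Finset.sum_congr rfl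
    intro i _
    apply Finset.sum_congr rfl
    intro i' _
    by_cases h1 : DTwo_px X i k <;> by_cases h2 : DTwo_py ρ Y i' k <;> simp [h1, h2]
  rw [Finset.sum_congr rfl (fun k _ => h2 k), Finset.sum_comm]
  apply Finset.sum_congr rfl
  intro i _
  rw [Finset.sum_comm]
  apply Finset.sum_congr rfl
  intro i' _
  unfold DTwo_cnt
  rw [Finset.card_filter]
  push_cast
  rfl

/-- expected number -/
noncomputable def DTwo_vol (X Y : ℕ → ZMod b) (i i' : ℕ) : ℝ :=
  ((X i).val : ℝ) * ((Y i').val : ℝ) * (b : ℝ) ^ i' / (b : ℝ) ^ (i + 1)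

theorem DTwo_volsum (hb : 1 < b) (X Y : ℕ → ZMod b) :
    (b : ℝ) ^ n * fr b n X 0 * fr b n (fun s => Y (n - 1 - s)) 0 =
      ∑ i : Fin n, ∑ i' : Fin n, DTwo_vol X Y i i' := by
  have hb0 : (b : ℝ) ≠ 0 := by
    have : b ≠ 0 := by omega
    exact_mod_cast this
  have h1 : fr b n (fun s => Y (n - 1 - s)) 0 =
      ∑ i' ∈ range n, ((Y i').val : ℝ) / (b : ℝ) ^ (n - i') := by
    unfold fr
    rw [← Finset.sum_range_reflect (fun i' => ((Y i').val : ℝ) / (b : ℝ) ^ (n - i'))]
    rw [Nat.sub_zero]
    apply Finset.sum_congr rfl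
    intro s hs
    rw [Finset.mem_range] at hs
    have e1 : n - (n - 1 - s) = s + 1 := by omega
    rw [e1, Nat.zero_add]
  have h2 : fr b n X 0 = ∑ i ∈ range n, ((X i).val : ℝ) / (b : ℝ) ^ (i + 1) := by
    unfold fr
    rw [Nat.sub_zero]
    apply Finset.sum_congr rfl
    intro s hs
    rw [Nat.zero_add]
  rw [h1, h2, mul_assoc, Finset.sum_mul_sum, Finset.mul_sum,
    Fin.sum_univ_eq_sum_range (fun i => ∑ i' : Fin n, DTwo_vol X Y i (i' : ℕ)) n]
  apply Finset.sum_congr rfl
  intro i _
  rw [Finset.mul_sum, Fin.sum_univ_eq_sum_range (fun i' => DTwo_vol X Y i i') n]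
  apply Finset.sum_congr rfl
  intro i' hi'
  rw [Finset.mem_range] at hi'
  unfold DTwo_vol
  have e2 : (b : ℝ) ^ n = (b : ℝ) ^ i' * (b : ℝ) ^ (n - i') := by
    rw [← pow_add]
    congr 1
    omega
  rw [e2]
  have p1 : (b : ℝ) ^ (n - i') ≠ 0 := pow_ne_zero _ hb0
  have p2 : (b : ℝ) ^ (i + 1) ≠ 0 := pow_ne_zero _ hb0
  field_simp

theorem DTwo_digits (hb : 1 < b) (Y : ℕ → ZMod b) (i : ℕ) :
    ∑ i' ∈ range i, ((Y i').val : ℝ) * (b : ℝ) ^ i' ≤ (b : ℝ) ^ i - 1 := by
  have : NeZero b := ⟨by omega⟩
  induction i with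
  | zero => simp
  | succ i ih =>
    rw [Finset.sum_range_succ]
    have h1 : ((Y i).val : ℝ) ≤ (b : ℝ) - 1 := by
      have : (Y i).val + 1 ≤ b := ZMod.val_lt _
      have : ((Y i).val : ℝ) + 1 ≤ b := by exact_mod_cast this
      linarith
    have h2 : (0 : ℝ) ≤ (b : ℝ) ^ i := by positivity
    have h3 := mul_le_mul_of_nonneg_right h1 h2
    rw [pow_succ]
    linarith

theorem DTwo_vol_le (hb : 1 < b) (X Y : ℕ → ZMod b) (i : ℕ) :
    ∑ i' ∈ range i, DTwo_vol X Y i i' ≤ 1 := by
  have : NeZero b := ⟨by omega⟩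
  have hb0 : (0 : ℝ) < (b : ℝ) := by
    have : 0 < b := by omega
    exact_mod_cast this
  have h1 : ∑ i' ∈ range i, DTwo_vol X Y i i' =
      (((X i).val : ℝ) * ∑ i' ∈ range i, ((Y i').val : ℝ) * (b : ℝ) ^ i') / (b : ℝ) ^ (i + 1) := by
    rw [Finset.mul_sum, Finset.sum_div]
    apply Finset.sum_congr rfl
    intro i' _
    unfold DTwo_vol
    ring
  rw [h1, div_le_one (by positivity)]
  have h2 := DTwo_digits hb Y i
  have h3 : ((X i).val : ℝ) ≤ b := by
    have : (X i).val ≤ b := (ZMod.val_lt _).le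
    exact_mod_cast this
  have h4 : (0 : ℝ) ≤ ∑ i' ∈ range i, ((Y i').val : ℝ) * (b : ℝ) ^ i' :=
    Finset.sum_nonneg (fun _ _ => by positivity)
  calc ((X i).val : ℝ) * ∑ i' ∈ range i, ((Y i').val : ℝ) * (b : ℝ) ^ i'
      ≤ (b : ℝ) * (b : ℝ) ^ i := by
        apply mul_le_mul h3 (by linarith) h4 hb0.le
    _ = (b : ℝ) ^ (i + 1) := by ring

theorem DTwo_vol_nonneg (X Y : ℕ → ZMod b) (i i' : ℕ) : 0 ≤ DTwo_vol X Y i i' := by
  unfold DTwo_vol
  positivity

/-- the set of digits allowed at `q` -/
def DTwo_S (ρ : ℕ → (ZMod b)ˣ) (X Y : ℕ → ZMod b) (i i' q : ℕ) (v : ZMod b) : Prop :=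
  (q < i → v = X q) ∧ (q = i → v.val < (X i).val) ∧ (i' < q → (ρ q : ZMod b) * v = Y q) ∧
    (q = i' → ((ρ i' : ZMod b) * v).val < (Y i').val)

open Classical in
theorem DTwo_cnt_prod [NeZero b] (ρ : ℕ → (ZMod b)ˣ) (X Y : ℕ → ZMod b) (i i' : Fin n) :
    DTwo_cnt ρ X Y i i' =
      ∏ q : Fin n, ((univ.filter fun v : ZMod b => DTwo_S ρ X Y i i' q v).card : ℝ) := by
  unfold DTwo_cnt
  rw [← Nat.cast_prod, ← Fintype.card_piFinset]
  congr 2
  ext k
  rw [Finset.mem_filter, Fintype.mem_piFinset]
  simp only [Finset.mem_univ, true_and, Finset.mem_filter]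
  unfold DTwo_px DTwo_py DTwo_S
  constructor
  · rintro ⟨⟨h1, h2⟩, h3, h4⟩ q
    refine ⟨fun h => h1 q h, fun h => ?_, fun h => h3 q h, fun h => ?_⟩
    · have : q = i := Fin.ext h
      rw [this]
      exact h2
    · have : q = i' := Fin.ext h
      rw [this]
      exact h4
  · intro h
    refine ⟨⟨fun q hq => (h q).1 hq, (h i).2.1 rfl⟩, fun q hq => (h q).2.2.1 hq, (h i').2.2.2 rfl⟩

theorem DTwo_card_lt [NeZero b] (x : ZMod b) :
    (univ.filter fun v : ZMod b => v.val < x.val).card = x.val := by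
  have h1 : (univ.filter fun v : ZMod b => v.val < x.val).image ZMod.val = range x.val := by
    ext j
    simp only [Finset.mem_image, Finset.mem_filter, Finset.mem_univ, true_and, Finset.mem_range]
    constructor
    · rintro ⟨v, hv, rfl⟩
      exact hv
    · intro hj
      refine ⟨(j : ZMod b), ?_, ?_⟩
      · rw [ZMod.val_cast_of_lt (hj.trans (ZMod.val_lt x))]
        exact hj
      · exact ZMod.val_cast_of_lt (hj.trans (ZMod.val_lt x))
  have h2 := Finset.card_image_of_injective (univ.filter fun v : ZMod b => v.val < x.val)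
    (ZMod.val_injective b)
  rw [← h2, h1, Finset.card_range]

theorem DTwo_card_lt_unit [NeZero b] (u : (ZMod b)ˣ) (x : ZMod b) :
    (univ.filter fun v : ZMod b => ((u : ZMod b) * v).val < x.val).card = x.val := by
  refine Eq.trans ?_ (DTwo_card_lt x)
  apply Finset.card_bij (fun v _ => (u : ZMod b) * v)
  · intro v hv
    simp only [Finset.mem_filter, Finset.mem_univ, true_and] at hv ⊢
    exact hv
  · intro v _ w _ h
    exact (Units.mul_right_inj u).1 h
  · intro w hw
    simp only [Finset.mem_filter, Finset.mem_univ, true_and] at hw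
    refine ⟨((u⁻¹ : (ZMod b)ˣ) : ZMod b) * w, ?_, ?_⟩
    · simp only [Finset.mem_filter, Finset.mem_univ, true_and]
      rw [Units.mul_inv_cancel_left]
      exact hw
    · exact Units.mul_inv_cancel_left u w

open Classical in
/-- cells with `i < i'` -/
theorem DTwo_lt [NeZero b] (hb : 1 < b) (ρ : ℕ → (ZMod b)ˣ) (X Y : ℕ → ZMod b) {i i' : Fin n}
    (h : i < i') : DTwo_cnt ρ X Y i i' = DTwo_vol X Y i i' := by
  rw [DTwo_cnt_prod]
  have hne : (i : ℕ) < (i' : ℕ) := h
  have key : ∀ q : Fin n, ((univ.filter fun v : ZMod b => DTwo_S ρ X Y i i' q v).card : ℝ) =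
      (if q = i then ((X i).val : ℝ) else 1) * (if q = i' then ((Y i').val : ℝ) else 1) *
        (if q ∈ Finset.Ioo i i' then (b : ℝ) else 1) := by
    intro q
    rcases lt_trichotomy (q : ℕ) (i : ℕ) with h1 | h1 | h1
    · -- q < i
      have e : (univ.filter fun v : ZMod b => DTwo_S ρ X Y i i' q v) = {X q} := by
        ext v
        simp only [Finset.mem_filter, Finset.mem_univ, true_and, Finset.mem_singleton]
        unfold DTwo_S
        constructor
        · intro hv
          exact hv.1 h1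
        · intro hv
          exact ⟨fun _ => hv, fun h2 => by omega, fun h2 => by omega, fun h2 => by omega⟩
      rw [e, Finset.card_singleton, if_neg, if_neg, if_neg]
      · norm_num
      · rw [Finset.mem_Ioo]
        rintro ⟨h2, -⟩
        exact absurd h2 (by rw [Fin.lt_def]; omega)
      · intro h2
        rw [h2] at h1
        omega
      · intro h2
        rw [h2] at h1
        omega
    · -- q = i
      have e : (univ.filter fun v : ZMod b => DTwo_S ρ X Y i i' q v) =
          (univ.filter fun v : ZMod b => v.val < (X i).val) := by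
        ext v
        simp only [Finset.mem_filter, Finset.mem_univ, true_and]
        unfold DTwo_S
        constructor
        · intro hv
          exact hv.2.1 h1
        · intro hv
          exact ⟨fun h2 => by omega, fun _ => hv, fun h2 => by omega, fun h2 => by omega⟩
      rw [e, DTwo_card_lt, if_pos (Fin.ext h1), if_neg, if_neg]
      · norm_num
      · rw [Finset.mem_Ioo]
        rintro ⟨h2, -⟩
        exact absurd h2 (by rw [Fin.lt_def]; omega)
      · intro h2
        rw [h2] at h1
        omega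
    · rcases lt_trichotomy (q : ℕ) (i' : ℕ) with h3 | h3 | h3
      · -- i < q < i'
        have e : (univ.filter fun v : ZMod b => DTwo_S ρ X Y i i' q v) = univ := by
          ext v
          simp only [Finset.mem_filter, Finset.mem_univ, true_and, iff_true]
          unfold DTwo_S
          exact ⟨fun h2 => by omega, fun h2 => by omega, fun h2 => by omega, fun h2 => by omega⟩
        rw [e, Finset.card_univ, ZMod.card, if_neg, if_neg, if_pos]
        · norm_num
        · rw [Finset.mem_Ioo, Fin.lt_def, Fin.lt_def]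
          exact ⟨h1, h3⟩
        · intro h2
          rw [h2] at h3
          omega
        · intro h2
          rw [h2] at h1
          omega
      · -- q = i'
        have e : (univ.filter fun v : ZMod b => DTwo_S ρ X Y i i' q v) =
            (univ.filter fun v : ZMod b => ((ρ i' : ZMod b) * v).val < (Y i').val) := by
          ext v
          simp only [Finset.mem_filter, Finset.mem_univ, true_and]
          unfold DTwo_S
          constructor
          · intro hv
            exact hv.2.2.2 h3
          · intro hv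
            exact ⟨fun h2 => by omega, fun h2 => by omega, fun h2 => by omega, fun _ => hv⟩
        rw [e, DTwo_card_lt_unit, if_neg, if_pos (Fin.ext h3), if_neg]
        · norm_num
        · rw [Finset.mem_Ioo]
          rintro ⟨-, h2⟩
          exact absurd h2 (by rw [Fin.lt_def]; omega)
        · intro h2
          rw [h2] at h1
          omega
      · -- i' < q
        have e : (univ.filter fun v : ZMod b => DTwo_S ρ X Y i i' q v) =
            {(((ρ q)⁻¹ : (ZMod b)ˣ) : ZMod b) * Y q} := by
          ext v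
          simp only [Finset.mem_filter, Finset.mem_univ, true_and, Finset.mem_singleton]
          unfold DTwo_S
          constructor
          · intro hv
            rw [← hv.2.2.1 h3, Units.inv_mul_cancel_left]
          · intro hv
            refine ⟨fun h2 => by omega, fun h2 => by omega, fun _ => ?_, fun h2 => by omega⟩
            rw [hv, Units.mul_inv_cancel_left]
        rw [e, Finset.card_singleton, if_neg, if_neg, if_neg]
        · norm_num
        · rw [Finset.mem_Ioo]
          rintro ⟨-, h2⟩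
          exact absurd h2 (by rw [Fin.lt_def]; omega)
        · intro h2
          rw [h2] at h3
          omega
        · intro h2
          rw [h2] at h1
          omega
  rw [Finset.prod_congr rfl (fun q _ => key q), Finset.prod_mul_distrib, Finset.prod_mul_distrib,
    Finset.prod_ite_eq' univ i (fun _ => ((X i).val : ℝ)),
    Finset.prod_ite_eq' univ i' (fun _ => ((Y i').val : ℝ)), if_pos (Finset.mem_univ _),
    if_pos (Finset.mem_univ _), Finset.prod_ite_mem, Finset.univ_inter, Finset.prod_const,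
    Fin.card_Ioo]
  unfold DTwo_vol
  have hb0 : (b : ℝ) ≠ 0 := by
    have : b ≠ 0 := by omega
    exact_mod_cast this
  have e1 : (b : ℝ) ^ (i' : ℕ) = (b : ℝ) ^ ((i' : ℕ) - i - 1) * (b : ℝ) ^ ((i : ℕ) + 1) := by
    rw [← pow_add]
    congr 1
    omega
  rw [e1]
  have p2 : (b : ℝ) ^ ((i : ℕ) + 1) ≠ 0 := pow_ne_zero _ hb0
  field_simp

open Classical in
/-- cells with `i = i'` -/
theorem DTwo_eq [NeZero b] (hb : 1 < b) (ρ : ℕ → (ZMod b)ˣ) (X Y : ℕ → ZMod b) (i : Fin n) :
    DTwo_cnt ρ X Y i i - DTwo_vol X Y i i = DM b (uv (ρ i)) 0 (X i).val 0 (Y i).val := by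
  have hb0 : (b : ℝ) ≠ 0 := by
    have : b ≠ 0 := by omega
    exact_mod_cast this
  have h1 : DTwo_vol X Y i i = ((X i).val : ℝ) * ((Y i).val : ℝ) / b := by
    unfold DTwo_vol
    have p2 : (b : ℝ) ^ (i : ℕ) ≠ 0 := pow_ne_zero _ hb0
    rw [pow_succ]
    field_simp
  have h2 : DTwo_cnt ρ X Y i i = (cntM b (uv (ρ i)) 0 (X i).val 0 (Y i).val : ℝ) := by
    rw [DTwo_cnt_prod]
    have key : ∀ q : Fin n, ((univ.filter fun v : ZMod b => DTwo_S ρ X Y i i q v).card : ℝ) =
        if q = i then (cntM b (uv (ρ i)) 0 (X i).val 0 (Y i).val : ℝ) else 1 := by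
      intro q
      rcases lt_trichotomy (q : ℕ) (i : ℕ) with h1 | h1 | h1
      · have e : (univ.filter fun v : ZMod b => DTwo_S ρ X Y i i q v) = {X q} := by
          ext v
          simp only [Finset.mem_filter, Finset.mem_univ, true_and, Finset.mem_singleton]
          unfold DTwo_S
          constructor
          · intro hv
            exact hv.1 h1
          · intro hv
            exact ⟨fun _ => hv, fun h2 => by omega, fun h2 => by omega, fun h2 => by omega⟩
        rw [e, Finset.card_singleton, if_neg]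
        · norm_num
        · intro h2
          rw [h2] at h1
          omega
      · rw [if_pos (Fin.ext h1)]
        congr 1
        unfold cntM
        apply Finset.card_bij (fun v _ => (v.val, ((ρ i : ZMod b) * v).val))
        · intro v hv
          simp only [Finset.mem_filter, Finset.mem_univ, true_and] at hv
          have hv1 := hv.2.1 h1
          have hv2 := hv.2.2.2 h1
          simp only [Finset.mem_filter, Finset.mem_product, Finset.mem_range]
          refine ⟨⟨hv1, hv2⟩, ?_⟩
          rw [← ZMod.intCast_zmod_eq_zero_iff_dvd]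
          unfold uv
          push_cast
          rw [ZMod.natCast_zmod_val, ZMod.natCast_zmod_val, ZMod.natCast_zmod_val]
          ring
        · intro v _ w _ h
          have h3 : v.val = w.val := (Prod.ext_iff.1 h).1
          exact ZMod.val_injective b h3
        · rintro ⟨h, h'⟩ hh
          simp only [Finset.mem_filter, Finset.mem_product, Finset.mem_range] at hh
          obtain ⟨⟨hh1, hh2⟩, hh3⟩ := hh
          have hh1b : h < b := hh1.trans (ZMod.val_lt _)
          have hh2b : h' < b := hh2.trans (ZMod.val_lt _)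
          have e1 : ((h' : ℕ) : ZMod b) = (ρ i : ZMod b) * ((h : ℕ) : ZMod b) := by
            rw [← ZMod.intCast_zmod_eq_zero_iff_dvd] at hh3
            unfold uv at hh3
            push_cast at hh3
            rw [ZMod.natCast_zmod_val] at hh3
            linear_combination hh3
          have e2 : ((ρ i : ZMod b) * ((h : ℕ) : ZMod b)).val = h' := by
            rw [← e1]
            exact ZMod.val_cast_of_lt hh2b
          have e3 : ((h : ℕ) : ZMod b).val = h := ZMod.val_cast_of_lt hh1b
          refine ⟨((h : ℕ) : ZMod b), ?_, ?_⟩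
          · simp only [Finset.mem_filter, Finset.mem_univ, true_and]
            refine ⟨fun h2 => by omega, fun _ => ?_, fun h2 => by omega, fun _ => ?_⟩
            · rw [e3]
              exact hh1
            · rw [e2]
              exact hh2
          · rw [e2, e3]
      · have e : (univ.filter fun v : ZMod b => DTwo_S ρ X Y i i q v) =
            {(((ρ q)⁻¹ : (ZMod b)ˣ) : ZMod b) * Y q} := by
          ext v
          simp only [Finset.mem_filter, Finset.mem_univ, true_and, Finset.mem_singleton]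
          unfold DTwo_S
          constructor
          · intro hv
            rw [← hv.2.2.1 h1, Units.inv_mul_cancel_left]
          · intro hv
            refine ⟨fun h2 => by omega, fun h2 => by omega, fun _ => ?_, fun h2 => by omega⟩
            rw [hv, Units.mul_inv_cancel_left]
        rw [e, Finset.card_singleton, if_neg]
        · norm_num
        · intro h2
          rw [h2] at h1
          omega
    rw [Finset.prod_congr rfl (fun q _ => key q),
      Finset.prod_ite_eq' univ i (fun _ => (cntM b (uv (ρ i)) 0 (X i).val 0 (Y i).val : ℝ)),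
      if_pos (Finset.mem_univ _)]
  rw [h1, h2]
  rfl

open Classical in
/-- cells with `i' < i` -/
theorem DTwo_gt [NeZero b] (ρ : ℕ → (ZMod b)ˣ) (X Y : ℕ → ZMod b) (i : Fin n) :
    ∑ i' ∈ univ.filter (fun i' : Fin n => i' < i), DTwo_cnt ρ X Y i i' ≤ 1 := by
  have h1 : ∑ i' ∈ univ.filter (fun i' : Fin n => i' < i), DTwo_cnt ρ X Y i i' =
      (((univ.filter (fun i' : Fin n => i' < i)).biUnion fun i' =>
        univ.filter fun k : Vec b n => DTwo_px X i k ∧ DTwo_py ρ Y i' k).card : ℝ) := by
    rw [Finset.card_biUnion]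
    · push_cast
      rfl
    · intro i1 _ i2 _ hne
      rw [Function.onFun_apply, Finset.disjoint_left]
      intro k hk1 hk2
      rw [Finset.mem_filter] at hk1 hk2
      exact hne (DTwo_py_unique hk1.2.2 hk2.2.2)
  rw [h1]
  have h2 : ((univ.filter (fun i' : Fin n => i' < i)).biUnion fun i' =>
        univ.filter fun k : Vec b n => DTwo_px X i k ∧ DTwo_py ρ Y i' k) ⊆
      {fun q : Fin n => if q < i then X q else (((ρ q)⁻¹ : (ZMod b)ˣ) : ZMod b) * Y q} := by
    intro k hk
    rw [Finset.mem_biUnion] at hk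
    obtain ⟨i', hi', hk⟩ := hk
    rw [Finset.mem_filter] at hi' hk
    rw [Finset.mem_singleton]
    funext q
    by_cases hq : q < i
    · rw [if_pos hq]
      exact hk.2.1.1 q hq
    · rw [if_neg hq]
      have h3 : i' < q := lt_of_lt_of_le hi'.2 (not_lt.1 hq)
      rw [← hk.2.2.1 q h3, Units.inv_mul_cancel_left]
  have h3 := Finset.card_le_card h2
  rw [Finset.card_singleton] at h3
  exact_mod_cast h3

theorem D2_le {b n : ℕ} [NeZero b] (hb : 1 < b) (ρ : ℕ → (ZMod b)ˣ) (B : ℝ)
    (h : ∀ i < n, ∀ X Y : ℕ, |DM b (uv (ρ i)) 0 X 0 Y| ≤ B) (X Y : Vec b n) :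
    |D2 n ρ (extZ X) (extZ Y)| ≤ n * B + 4 * n := by
  classical
  set X' := extZ X with hX'
  set Y' := extZ Y with hY'
  have h1 : D2 n ρ X' Y' =
      ∑ i : Fin n, ∑ i' : Fin n, (DTwo_cnt ρ X' Y' i i' - DTwo_vol X' Y' i i') := by
    unfold D2
    rw [DTwo_count, DTwo_volsum hb, ← Finset.sum_sub_distrib]
    apply Finset.sum_congr rfl
    intro i _
    rw [← Finset.sum_sub_distrib]
  rw [h1]
  have h2 : ∀ i : Fin n,
      |∑ i' : Fin n, (DTwo_cnt ρ X' Y' i i' - DTwo_vol X' Y' i i')| ≤ B + 4 := by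
    intro i
    have e1 : ∑ i' : Fin n, (DTwo_cnt ρ X' Y' i i' - DTwo_vol X' Y' i i') =
        ∑ i' ∈ univ.filter (fun i' : Fin n => i' < i), DTwo_cnt ρ X' Y' i i' -
        ∑ i' ∈ univ.filter (fun i' : Fin n => i' < i), DTwo_vol X' Y' i i' +
        (DTwo_cnt ρ X' Y' i i - DTwo_vol X' Y' i i) := by
      rw [← Finset.sum_sub_distrib]
      rw [← Finset.sum_filter_add_sum_filter_not univ (fun i' : Fin n => i' < i)
        (fun i' => DTwo_cnt ρ X' Y' i i' - DTwo_vol X' Y' i i')]
      congr 1
      rw [Finset.sum_eq_single_of_mem i]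
      · rw [Finset.mem_filter]
        exact ⟨Finset.mem_univ _, lt_irrefl _⟩
      · intro i' hi' hne
        rw [Finset.mem_filter] at hi'
        have hlt : i < i' := lt_of_le_of_ne (not_lt.1 hi'.2) (Ne.symm hne)
        rw [DTwo_lt hb ρ X' Y' hlt, sub_self]
    rw [e1]
    have e2 := DTwo_gt ρ X' Y' i
    have e3 : (0 : ℝ) ≤ ∑ i' ∈ univ.filter (fun i' : Fin n => i' < i), DTwo_cnt ρ X' Y' i i' :=
      Finset.sum_nonneg (fun i' _ => by unfold DTwo_cnt; positivity)
    have e4 : ∑ i' ∈ univ.filter (fun i' : Fin n => i' < i), DTwo_vol X' Y' i i' ≤ 1 := by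
      have e5 : ∑ i' ∈ univ.filter (fun i' : Fin n => i' < i), DTwo_vol X' Y' i i' =
          ∑ i' ∈ range (i : ℕ), DTwo_vol X' Y' i i' := by
        apply Finset.sum_bij (fun (i' : Fin n) _ => (i' : ℕ))
        · intro a ha
          rw [Finset.mem_filter] at ha
          rw [Finset.mem_range]
          exact ha.2
        · intro a _ a' _ haa
          exact Fin.ext haa
        · intro c hc
          rw [Finset.mem_range] at hc
          refine ⟨⟨c, hc.trans i.2⟩, ?_, rfl⟩
          rw [Finset.mem_filter]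
          exact ⟨Finset.mem_univ _, hc⟩
        · intro a _
          rfl
      rw [e5]
      exact DTwo_vol_le hb X' Y' i
    have e6 : (0 : ℝ) ≤ ∑ i' ∈ univ.filter (fun i' : Fin n => i' < i), DTwo_vol X' Y' i i' :=
      Finset.sum_nonneg (fun i' _ => DTwo_vol_nonneg _ _ _ _)
    have e7 : |DTwo_cnt ρ X' Y' i i - DTwo_vol X' Y' i i| ≤ B := by
      rw [DTwo_eq hb]
      exact h i i.2 _ _
    rw [abs_le] at e7 ⊢
    constructor <;> linarith [e7.1, e7.2]
  calc |∑ i : Fin n, ∑ i' : Fin n, (DTwo_cnt ρ X' Y' i i' - DTwo_vol X' Y' i i')|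
      ≤ ∑ i : Fin n, |∑ i' : Fin n, (DTwo_cnt ρ X' Y' i i' - DTwo_vol X' Y' i i')| :=
        Finset.abs_sum_le_sum_abs _ _
    _ ≤ ∑ i : Fin n, (B + 4) := Finset.sum_le_sum (fun i _ => h2 i)
    _ = n * B + 4 * n := by
        rw [Finset.sum_const, Finset.card_univ, Fintype.card_fin, nsmul_eq_mul]
        ring

end DiscPS
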