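import Mathlib

/-!
# Power saving for the three-dimensional box discrepancy: shared definitions

`Arith` is the interface between the arithmetic part (choice of the primes, good multipliers,
mean value over the good multipliers) and the combinatorial part (net, cells, concentration).
-/

namespace DiscPS

open Finset

/-- partial products -/
def Mk (l : ℕ → ℕ) (k : ℕ) : ℕ := ∏ i ∈ range k, l i

/-- the moduli `M_k` and `b / M_k` -/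
def IsMM (l : ℕ → ℕ) (r M : ℕ) : Prop := ∃ k ≤ r, M = Mk l k ∨ M * Mk l k = Mk l r

/-- number of `(h, h')` in `[a, a + X) × [c, c + Y)` with `h' = κ h` modulo `M` -/
def cntM (M : ℕ) (κ a : ℤ) (X : ℕ) (c : ℤ) (Y : ℕ) : ℕ :=
  ((range X ×ˢ range Y).filter fun p : ℕ × ℕ => (M : ℤ) ∣ (c + p.2) - κ * (a + p.1)).card

/-- the two-dimensional discrepancy -/
noncomputable def DM (M : ℕ) (κ a : ℤ) (X : ℕ) (c : ℤ) (Y : ℕ) : ℝ :=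
  (cntM M κ a X c Y : ℝ) - (X : ℝ) * Y / M

/-- integer representative of a unit -/
def uv {b : ℕ} (κ : (ZMod b)ˣ) : ℤ := ((κ : ZMod b).val : ℤ)

/-- the interface -/
structure Arith (C m r : ℕ) (l : ℕ → ℕ) [NeZero (Mk l r)] (G : Finset (ZMod (Mk l r))ˣ) :
    Prop where
  one_le_r : 1 ≤ r
  r_le : r ≤ m
  prime : ∀ i < r, (l i).Prime
  inj : ∀ i < r, ∀ j < r, l i = l j → i = j
  lo : ∀ i < r, m ^ 16 < l i
  hi : ∀ i < r, l i ≤ 4 * m ^ 16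
  b_le : Mk l r ≤ 2 ^ m
  b_ge : 2 ^ m ≤ Mk l r ^ 4
  card : (1 - (C : ℝ) / (m : ℝ) ^ 26) * (Fintype.card (ZMod (Mk l r))ˣ : ℝ) ≤ (G.card : ℝ)
  bound : ∀ κ ∈ G, ∀ M, IsMM l r M → ∀ (a : ℤ) (X : ℕ) (c : ℤ) (Y : ℕ),
    |DM M (uv κ) a X c Y| ≤ (C : ℝ) * (m : ℝ) ^ 30
  mean : ∀ M, IsMM l r M → ∀ (a : ℤ) (X : ℕ) (c : ℤ) (Y : ℕ),
    |∑ κ ∈ G, DM M (uv κ) a X c Y| ≤ (C : ℝ) * G.card
  triv : ∀ M, M ∣ Mk l r → ∃ W : (ZMod (Mk l r))ˣ → ℝ,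
    (∀ κ (a : ℤ) (X : ℕ) (c : ℤ) (Y : ℕ), |DM M (uv κ) a X c Y| ≤ W κ) ∧
      ∑ κ, W κ ≤ (C : ℝ) * (m : ℝ) ^ 2 * (Fintype.card (ZMod (Mk l r))ˣ : ℝ)

end DiscPS
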