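import Mathlib

set_option autoImplicit false
set_option maxHeartbeats 400000

/-! # Dyadic boxes, counts of congruent pairs, interval products (shared definitions) -/

namespace DiscPS

open Finset

/-- signed dyadic block -/
noncomputable def dy (k : ℕ) : Finset ℤ := (Ioo (-(2 ^ (k + 1) : ℤ)) (2 ^ (k + 1))).filter
  (fun x => (2 : ℤ) ^ k ≤ |x|)

theorem mem_dy {k : ℕ} {x : ℤ} : x ∈ dy k ↔ (2 : ℤ) ^ k ≤ |x| ∧ |x| < 2 ^ (k + 1) := by
  rw [dy, mem_filter, mem_Ioo, abs_lt]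
  tauto

/-- the determinant -/
def dt (v w : ℤ × ℤ) : ℤ := v.1 * w.2 - w.1 * v.2

/-- vectors of a dyadic box, both coordinates prime to `D` -/
noncomputable def vb (D i j : ℕ) : Finset (ℤ × ℤ) := (dy i ×ˢ dy j).filter
  (fun v => IsCoprime v.1 (D : ℤ) ∧ IsCoprime v.2 (D : ℤ))

theorem mem_vb {D i j : ℕ} {v : ℤ × ℤ} : v ∈ vb D i j ↔
    (v.1 ∈ dy i ∧ v.2 ∈ dy j) ∧ IsCoprime v.1 (D : ℤ) ∧ IsCoprime v.2 (D : ℤ) := by
  rw [vb, mem_filter, mem_product]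

/-- number of non parallel pairs congruent modulo `D` in two boxes -/
noncomputable def Nst (D i j i1 j1 : ℕ) : ℕ := ((vb D i j ×ˢ vb D i1 j1).filter
  (fun p => dt p.1 p.2 ≠ 0 ∧ (D : ℤ) ∣ dt p.1 p.2)).card

/-- interval products -/
def IP (l : ℕ → ℕ) (a k : ℕ) : ℕ := ∏ j ∈ Ico a k, l j

end DiscPS
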