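import Pool.Agent.Work.DiscPS.Defs
import Pool.Agent.Work.DiscPS.Dyadic

/-!
# Power saving for the discrepancy in dimension three: definitions of the arithmetic part
-/

namespace DiscPS

open Finset

/-- The properties of the modulus `b` (and of its divisors) used in the arithmetic part: all prime
factors exceed `m^16`, there are at most `m` of them, `b` is squarefree and at most `2^m`. -/
structure Bm (m b : ℕ) : Prop where
  hm : 1000 ≤ m
  sq : Squarefree b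
  le : b ≤ 2 ^ m
  lo : ∀ p, p.Prime → p ∣ b → m ^ 16 < p
  om : b.primeFactors.card ≤ m

/-- The parameters: distinct primes `l_0, ..., l_{r-1}` in `(m^16, 4 m^16]` with product at most
`2^m`. -/
structure Par (m r : ℕ) (l : ℕ → ℕ) : Prop where
  hm : 1000 ≤ m
  hr : 1 ≤ r
  hrm : 4 * (r + 1) ≤ m
  prime : ∀ i < r, (l i).Prime
  inj : ∀ i < r, ∀ j < r, l i = l j → i = j
  lo : ∀ i < r, m ^ 16 < l i
  hi : ∀ i < r, l i ≤ 4 * m ^ 16
  hb : Mk l r ≤ 2 ^ m

/-- The property obtained by the successive choice of the primes. -/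
def Gen (m r : ℕ) (l : ℕ → ℕ) : Prop :=
  ∀ a k, a ≤ k → k < r → ∀ i j i1 j1, i ≤ m → j ≤ m → i1 ≤ m → j1 ≤ m →
    m ^ 9 * Nst (IP l a (k + 1)) i j i1 j1 ≤ Nst (IP l a k) i j i1 j1

/-- Nonzero integers of absolute value less than `M / 2`. -/
noncomputable def SR (M : ℕ) : Finset ℤ :=
  (Ioo (-(M : ℤ)) M).filter (fun q => q ≠ 0 ∧ 2 * q.natAbs < M)

/-- Dyadic area of a vector. -/
def br (q p : ℤ) : ℕ := 2 ^ (Nat.log 2 q.natAbs) * 2 ^ (Nat.log 2 p.natAbs)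

/-- Dyadic area of the primitive vector in the direction of `(q,p)`. -/
def brp (q p : ℤ) : ℕ := br (q / (Int.gcd q p : ℤ)) (p / (Int.gcd q p : ℤ))

/-- `(q,p)` is a short vector of the lattice `p = - q κ mod M`. -/
def Short (m M : ℕ) (κ q p : ℤ) : Prop :=
  q ≠ 0 ∧ p ≠ 0 ∧ (M : ℤ) ∣ p + q * κ ∧ br q p * m ^ 28 ≤ M

/-- `κ` has a short vector for one of the moduli. -/
def Bad (m r : ℕ) (l : ℕ → ℕ) (κ : ℤ) : Prop := ∃ M q p, IsMM l r M ∧ Short m M κ q p

/-- `κ` has a short vector parallel to `x`. -/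
def BadA (m r : ℕ) (l : ℕ → ℕ) (x : ℤ × ℤ) (κ : ℤ) : Prop :=
  ∃ M q p, IsMM l r M ∧ Short m M κ q p ∧ x.1 * p = q * x.2

/-- `κ` has a short vector not coprime to the modulus. -/
def BadB (m r : ℕ) (l : ℕ → ℕ) (κ : ℤ) : Prop :=
  ∃ M q p, IsMM l r M ∧ Short m M κ q p ∧ Int.gcd q M ≠ 1

/-- `κ` has a short vector coprime to the modulus and not parallel to `x`. -/
def BadC (m r : ℕ) (l : ℕ → ℕ) (x : ℤ × ℤ) (κ : ℤ) : Prop :=
  ∃ M q p, IsMM l r M ∧ Short m M κ q p ∧ Int.gcd q M = 1 ∧ x.1 * p ≠ q * x.2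

open Classical in
/-- The good multipliers. -/
noncomputable def Good (m r : ℕ) (l : ℕ → ℕ) [NeZero (Mk l r)] : Finset (ZMod (Mk l r))ˣ :=
  Finset.univ.filter (fun κ => ¬ Bad m r l (uv κ))

/-- The multipliers `κ` (units modulo `b`) with `(q,p)` in the lattice `p = - q κ mod M`. -/
def UL (b M : ℕ) [NeZero b] (x : ℤ × ℤ) : Finset (ZMod b)ˣ :=
  Finset.univ.filter (fun κ => (M : ℤ) ∣ x.2 + x.1 * uv κ)

open Classical in
/-- The part of `UL` with property `BadA`. -/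
noncomputable def ULA (m r : ℕ) (l : ℕ → ℕ) [NeZero (Mk l r)] (M : ℕ) (x : ℤ × ℤ) :
    Finset (ZMod (Mk l r))ˣ := (UL (Mk l r) M x).filter (fun κ => BadA m r l x (uv κ))

open Classical in
/-- The part of `UL` with property `BadB`. -/
noncomputable def ULB (m r : ℕ) (l : ℕ → ℕ) [NeZero (Mk l r)] (M : ℕ) (x : ℤ × ℤ) :
    Finset (ZMod (Mk l r))ˣ := (UL (Mk l r) M x).filter (fun κ => BadB m r l (uv κ))

open Classical in
/-- The part of `UL` with property `BadC`. -/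
noncomputable def ULC (m r : ℕ) (l : ℕ → ℕ) [NeZero (Mk l r)] (M : ℕ) (x : ℤ × ℤ) :
    Finset (ZMod (Mk l r))ˣ := (UL (Mk l r) M x).filter (fun κ => BadC m r l x (uv κ))

/-- The vectors of the lattice `p = - q κ mod M` in the symmetric square. -/
noncomputable def SL (M : ℕ) (κ : ℤ) : Finset (ℤ × ℤ) :=
  (SR M ×ˢ SR M).filter (fun x => (M : ℤ) ∣ x.2 + x.1 * κ)

/-- The vectors coprime to `M` whose primitive vector is long. -/
noncomputable def T2 (m M : ℕ) : Finset (ℤ × ℤ) :=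
  (SR M ×ˢ SR M).filter (fun x =>
    (Int.gcd x.1 M = 1 ∧ Int.gcd x.2 M = 1) ∧ M < brp x.1 x.2 * m ^ 28)

/-- The size of the coefficient of `(q,p)`. -/
noncomputable def aw (M : ℕ) (x : ℤ × ℤ) : ℝ := (M : ℝ) / (|(x.1 : ℝ)| * |(x.2 : ℝ)|)

/-- The sum of `e(p h / M)` over the interval `[a, a + X)`. -/
noncomputable def fs (M : ℕ) (a : ℤ) (X : ℕ) (p : ℤ) : ℂ :=
  ∑ h ∈ range X, Complex.exp (2 * Real.pi * Complex.I * ((p : ℂ) * (a + h) / (M : ℂ)))

/-- The coefficient of the vector `(q, p)`. -/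
noncomputable def cf (M : ℕ) (a : ℤ) (X : ℕ) (c : ℤ) (Y : ℕ) (x : ℤ × ℤ) : ℝ :=
  (fs M a X x.2 * fs M c Y x.1).re / M

end DiscPS
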