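import Pool.Agent.Work.DiscPS.Defs

/-!
# Power saving for the three-dimensional box discrepancy: definitions of Part II
(net, cells, concentration)

`b` is the base, `n` the number of digits; `κ t i` is the table of multipliers.
-/

namespace DiscPS

open Finset

/-- vectors over `Z/b` -/
abbrev Vec (b n : ℕ) := Fin n → ZMod b

variable {b n : ℕ}

/-- scalar product -/
def dot (r k : Vec b n) : ZMod b := ∑ q, r q * k q

/-- `x(k) < X` -/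
def ltx (k : Vec b n) (X : ℕ → ZMod b) : Prop :=
  ∃ i : Fin n, (∀ q < i, k q = X q) ∧ (k i).val < (X i).val

/-- `y(k) < Y`, the `y`-digits of `k` are `ρ q * k q`, `q = n-1, n-2, ...` -/
def lty (ρ : ℕ → (ZMod b)ˣ) (k : Vec b n) (Y : ℕ → ZMod b) : Prop :=
  ∃ i : Fin n, (∀ q, i < q → (ρ q : ZMod b) * k q = Y q) ∧
    ((ρ i : ZMod b) * k i).val < (Y i).val

/-- the first `t` digits of the third coordinate of `k` are `Z` -/
def mtch (row : ℕ → Vec b n) (σ Z : ℕ → ZMod b) (t : ℕ) (k : Vec b n) : Prop :=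
  ∀ s < t, dot (row s) k + σ s = Z s

open Classical in
/-- the sum of `G` (`t`-th third digit) over the points of the box with matching first `t` third
digits -/
noncomputable def TT [NeZero b] (row : ℕ → Vec b n) (ρ : ℕ → (ZMod b)ˣ) (σ Z X Y : ℕ → ZMod b)
    (t : ℕ) (G : ZMod b → ℝ) : ℝ :=
  ∑ k : Vec b n, if mtch row σ Z t k ∧ ltx k X ∧ lty ρ k Y then G (dot (row t) k + σ t) else 0

/-- the table `A^t_i` (with `A^t_0 = 1`) -/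
def At (κ : ℕ → ℕ → (ZMod b)ˣ) (t : ℕ) : ℕ → (ZMod b)ˣ
  | 0 => 1
  | i + 1 => -(At κ t i) * κ t (i + 1) * (κ (t + 1) i)⁻¹

/-- `V^t_i` from `V^t_0 = v` and the row `ω^t` -/
def Vt (κ : ℕ → ℕ → (ZMod b)ˣ) (X : ℕ → ZMod b) (v : ZMod b) (ωt : ℕ → ZMod b) (t i : ℕ) :
    ZMod b :=
  v + ∑ p ∈ range i, (At κ t p : ZMod b) * (X p - ωt p)

/-- the table `ω^t_i` -/
def om (κ : ℕ → ℕ → (ZMod b)ˣ) (X Y Z V0 : ℕ → ZMod b) : ℕ → ℕ → ZMod b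
  | 0, i => ((κ 0 i)⁻¹ : (ZMod b)ˣ) * Y i
  | t + 1, i => om κ X Y Z V0 t i +
      (Z t - Vt κ X (V0 t) (om κ X Y Z V0 t) t i) * ((At κ t i)⁻¹ : (ZMod b)ˣ)

/-- the table `V^t_i` -/
def VV (κ : ℕ → ℕ → (ZMod b)ˣ) (X Y Z V0 : ℕ → ZMod b) (t i : ℕ) : ZMod b :=
  Vt κ X (V0 t) (om κ X Y Z V0 t) t i

/-- a cell with `i' = i + t + 1` -/
noncomputable def F2 (G : ZMod b → ℝ) (V ω x y : ZMod b) (A κ : (ZMod b)ˣ) : ℝ :=
  ∑ j ∈ range x.val, ∑ j' ∈ range y.val,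
    G (V + A * ((j : ZMod b) - ω) - A * (κ⁻¹ : (ZMod b)ˣ) * ((j' : ZMod b) - y))

/-- a cell with `i' = i + t` -/
noncomputable def F3 (G : ZMod b → ℝ) (V ω x y : ZMod b) (A κ : (ZMod b)ˣ) : ℝ :=
  ∑ j ∈ range x.val,
    if (y + κ * ((j : ZMod b) - ω)).val < y.val then G (V + A * ((j : ZMod b) - ω)) else 0

/-- all cells -/
noncomputable def SS (n : ℕ) (κ : ℕ → ℕ → (ZMod b)ˣ) (X Y Z V0 : ℕ → ZMod b)
    (G : ℕ → ZMod b → ℝ) : ℝ :=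
  ∑ t ∈ range n,
    (∑ i ∈ range (n - 1 - t), F2 (G t) (VV κ X Y Z V0 t i) (om κ X Y Z V0 t i) (X i)
        (Y (i + t + 1)) (At κ t i) (κ (t + 1) i) +
      ∑ i ∈ range (n - t), F3 (G t) (VV κ X Y Z V0 t i) (om κ X Y Z V0 t i) (X i)
        (Y (i + t)) (At κ t i) (κ t i))

/-- `0.Z_t Z_{t+1} ... Z_{n-1}` in base `b` -/
noncomputable def fr (b n : ℕ) (Z : ℕ → ZMod b) (t : ℕ) : ℝ :=
  ∑ s ∈ range (n - t), ((Z (t + s)).val : ℝ) / (b : ℝ) ^ (s + 1)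

/-- the increment function of the `t`-th digit -/
noncomputable def GG (b n : ℕ) (Z : ℕ → ZMod b) (t : ℕ) (v : ZMod b) : ℝ :=
  (if v.val < (Z t).val then 1 else 0) + (if v = Z t then fr b n Z (t + 1) else 0) - fr b n Z t

/-- the first coordinate of the point `k`, as an integer in `[0, b^n)` -/
def v1 (k : Vec b n) : ℕ := ∑ q : Fin n, (k q).val * b ^ (n - 1 - (q : ℕ))

/-- the second coordinate -/
def v2 (ρ : ℕ → (ZMod b)ˣ) (k : Vec b n) : ℕ :=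
  ∑ q : Fin n, ((ρ q : ZMod b) * k q).val * b ^ (q : ℕ)

/-- the third coordinate; `pz` is the order of the digits -/
def v3 (row : ℕ → Vec b n) (σ : ℕ → ZMod b) (pz : ZMod b → ZMod b) (k : Vec b n) : ℕ :=
  ∑ t ∈ range n, (pz (dot (row t) k + σ t)).val * b ^ (n - 1 - t)

/-- the two-dimensional discrepancy of the net -/
noncomputable def D2 [NeZero b] (n : ℕ) (ρ : ℕ → (ZMod b)ˣ) (X Y : ℕ → ZMod b) : ℝ :=
  open Classical in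
  ((univ.filter fun k : Vec b n => ltx k X ∧ lty ρ k Y).card : ℝ) -
    (b : ℝ) ^ n * fr b n X 0 * fr b n (fun s => Y (n - 1 - s)) 0

/-- sums of level functions -/
def LevG (l : ℕ → ℕ) (r : ℕ) (G : ZMod (Mk l r) → ℝ) : Prop :=
  ∃ (z : ZMod (Mk l r)) (γ : ℕ → ℕ → ℝ), (∀ k u, |γ k u| ≤ 1) ∧
    (∀ k < r, ∑ u ∈ range (l k), γ k u = 0) ∧
    ∀ v : ZMod (Mk l r), G v = ∑ k ∈ range r,
      if (Mk l k : ℤ) ∣ (v.val : ℤ) - z.val then γ k (v.val % l k) else 0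

/-- the interface between the cell estimates and the concentration argument -/
structure Cells (B B1 E : ℝ) [NeZero b] (G0 : Finset (ZMod b)ˣ) (Lev : (ZMod b → ℝ) → Prop) :
    Prop where
  ne : G0.Nonempty
  one_le : 1 ≤ B1
  B1_le : B1 ≤ B
  E_nonneg : 0 ≤ E
  b1 : ∀ κ ∈ G0, ∀ X Y : ℕ, |DM b (uv κ) 0 X 0 Y| ≤ B
  b2 : ∀ G, Lev G → ∀ V ω x y A, ∀ κ ∈ G0, |F2 G V ω x y A κ| ≤ B
  b3 : ∀ G, Lev G → ∀ V ω x y A, ∀ κ ∈ G0, |F3 G V ω x y A κ| ≤ B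
  s2 : ∀ G, Lev G → ∀ V ω x y A, ∑ κ ∈ G0, |F2 G V ω x y A κ| ≤ B1 * G0.card
  s3 : ∀ G, Lev G → ∀ V ω x y c, ∑ κ ∈ G0, |F3 G V ω x y (c * κ) κ| ≤ B1 * G0.card
  m2 : ∀ G, Lev G → ∀ V ω x y a,
    |∑ κ' ∈ G0, ∑ κ ∈ G0, F2 G V ω x y (a * κ'⁻¹) κ| ≤ E * (G0.card : ℝ) ^ 2
  m3 : ∀ G, Lev G → ∀ V ω x y a,
    |∑ κ' ∈ G0, ∑ κ ∈ G0, F3 G V ω x y (a * κ'⁻¹ * κ) κ| ≤ E * (G0.card : ℝ) ^ 2

/-- extension of a finite table -/
def extT (n : ℕ) {α : Type} (d : α) (κ : Fin (n + 1) → Fin (n + 1) → α) (t i : ℕ) : α :=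
  if h : t < n + 1 ∧ i < n + 1 then κ ⟨t, h.1⟩ ⟨i, h.2⟩ else d

/-- extension of a finite digit string -/
def extZ (Z : Vec b n) (s : ℕ) : ZMod b := if h : s < n then Z ⟨s, h⟩ else 0

end DiscPS
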