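import Pool.Agent.Work.DiscPS.DefsA

/-!
# Elementary facts on the moduli
-/

namespace DiscPS

open Finset

variable {m r : ℕ} {l : ℕ → ℕ} {b d g M M' : ℕ}

theorem Div_sum {b : ℕ} (hb : Squarefree b) (f : ℕ → ℝ) (h1 : f 1 = 1)
    (hmul : ∀ a c : ℕ, a ≠ 0 → c ≠ 0 → a.Coprime c → f (a * c) = f a * f c) :
    ∑ d ∈ b.divisors, f d = ∏ p ∈ b.primeFactors, (1 + f p) := by
  let F : ArithmeticFunction ℝ := ⟨fun n => if n = 0 then 0 else f n, by simp⟩
  have hF : ∀ n, n ≠ 0 → F n = f n := fun n hn => by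
    change (if n = 0 then 0 else f n) = f n
    rw [if_neg hn]
  have hFm : F.IsMultiplicative := by
    rw [ArithmeticFunction.IsMultiplicative.iff_ne_zero]
    refine ⟨by rw [hF 1 one_ne_zero, h1], ?_⟩
    intro a c ha hc hac
    rw [hF _ (mul_ne_zero ha hc), hF _ ha, hF _ hc]
    exact hmul a c ha hc hac
  have h := hFm.prodPrimeFactors_one_add_of_squarefree hb
  rw [← Finset.sum_congr rfl (fun d hd => hF d (Nat.pos_of_mem_divisors hd).ne'), ← h]
  exact Finset.prod_congr rfl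
    (fun p hp => by rw [hF p (Nat.prime_of_mem_primeFactors hp).ne_zero])

theorem Div_prod (hm : 1000 ≤ m) {s : Finset ℕ} (hs : s.card ≤ m) (f : ℕ → ℝ) {c : ℝ}
    (hc : 0 ≤ c) (hc' : c ≤ 8) (h0 : ∀ p ∈ s, 0 ≤ f p) (h1 : ∀ p ∈ s, f p ≤ c / (m : ℝ) ^ 16) :
    ∏ p ∈ s, (1 + f p) ≤ 1 + 2 * (c / (m : ℝ) ^ 15) := by
  have hm' : (1000 : ℝ) ≤ m := by exact_mod_cast hm
  have hm0 : (0 : ℝ) < m := by linarith
  have e1 : ∏ p ∈ s, (1 + f p) ≤ Real.exp (∑ p ∈ s, f p) := by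
    rw [Real.exp_sum]
    exact Finset.prod_le_prod (fun p hp => by have := h0 p hp; linarith)
      (fun p _ => by have := Real.add_one_le_exp (f p); linarith)
  have e2 : ∑ p ∈ s, f p ≤ c / (m : ℝ) ^ 15 := by
    calc ∑ p ∈ s, f p ≤ s.card • (c / (m : ℝ) ^ 16) := Finset.sum_le_card_nsmul _ _ _ h1
      _ = (s.card : ℝ) * (c / (m : ℝ) ^ 16) := nsmul_eq_mul _ _
      _ ≤ (m : ℝ) * (c / (m : ℝ) ^ 16) := by
          apply mul_le_mul_of_nonneg_right (by exact_mod_cast hs) (by positivity)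
      _ = c / (m : ℝ) ^ 15 := by field_simp
  have e3 : c / (m : ℝ) ^ 15 ≤ 1 := by
    rw [div_le_one (by positivity)]
    calc c ≤ 1000 := by linarith
      _ ≤ (m : ℝ) := hm'
      _ = (m : ℝ) ^ 1 := (pow_one _).symm
      _ ≤ (m : ℝ) ^ 15 := pow_le_pow_right₀ (by linarith) (by norm_num)
  have e4 : 0 ≤ c / (m : ℝ) ^ 15 := by positivity
  have e5 := Real.abs_exp_sub_one_le (x := c / (m : ℝ) ^ 15) (by rw [abs_of_nonneg e4]; exact e3)
  rw [abs_of_nonneg e4] at e5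
  have e6 := (abs_le.1 e5).2
  calc ∏ p ∈ s, (1 + f p) ≤ Real.exp (∑ p ∈ s, f p) := e1
    _ ≤ Real.exp (c / (m : ℝ) ^ 15) := Real.exp_le_exp.2 e2
    _ ≤ 1 + 2 * (c / (m : ℝ) ^ 15) := by linarith

theorem Bm.pos (h : Bm m b) : 0 < b := Nat.pos_of_ne_zero h.sq.ne_zero

theorem Bm.dvd (h : Bm m b) (hd : d ∣ b) : Bm m d where
  hm := h.hm
  sq := h.sq.squarefree_of_dvd hd
  le := (Nat.le_of_dvd h.pos hd).trans h.le
  lo := fun p hp hpd => h.lo p hp (hpd.trans hd)
  om := (Finset.card_le_card (Nat.primeFactors_mono hd h.pos.ne')).trans h.om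

theorem Div_pow (hm : 1000 ≤ m) : 2 ≤ m ^ 16 := by
  calc 2 ≤ m := by omega
    _ = m ^ 1 := (pow_one _).symm
    _ ≤ m ^ 16 := Nat.pow_le_pow_right (by omega) (by norm_num)

theorem Bm.odd (h : Bm m b) : Odd b := by
  rw [← Nat.not_even_iff_odd, even_iff_two_dvd]
  intro h2
  have h3 := h.lo 2 Nat.prime_two h2
  have h4 := Div_pow h.hm
  omega

theorem Bm.lo' (h : Bm m b) (hg : g ∣ b) (h1 : g ≠ 1) : m ^ 16 < g := by
  have h2 := h.lo g.minFac (Nat.minFac_prime h1) ((Nat.minFac_dvd g).trans hg)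
  exact h2.trans_le (Nat.minFac_le (Nat.pos_of_dvd_of_pos hg h.pos))

theorem Bm.mem_lo (h : Bm m b) {p : ℕ} (hp : p ∈ b.primeFactors) :
    (m : ℝ) ^ 16 + 1 ≤ (p : ℝ) := by
  have := h.lo p (Nat.prime_of_mem_primeFactors hp) (Nat.dvd_of_mem_primeFactors hp)
  exact_mod_cast this

theorem Div_pos (hm : 1000 ≤ m) : (0 : ℝ) < m := by
  have : 0 < m := by omega
  exact_mod_cast this

theorem Bm.half (h : Bm m b) : b ≤ 2 * Nat.totient b := by
  have hm0 := Div_pos h.hm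
  have hm' : (1000 : ℝ) ≤ m := by exact_mod_cast h.hm
  -- `b = φ(b) ∏ (1 + 1/(p-1))`
  have h1 : (Nat.totient b : ℝ) * ∏ p ∈ b.primeFactors, (1 + 1 / ((p : ℝ) - 1)) = (b : ℝ) := by
    have h2 : (Nat.totient b : ℝ) = (b : ℝ) * ∏ p ∈ b.primeFactors, (1 - ((p : ℝ))⁻¹) := by
      have := Nat.totient_eq_mul_prod_factors b
      have h3 : ((Nat.totient b : ℚ) : ℝ) =
          (((b : ℚ) * ∏ p ∈ b.primeFactors, (1 - (p : ℚ)⁻¹) : ℚ) : ℝ) := by
        rw [this]
      push_cast at h3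
      exact h3
    rw [h2, mul_assoc, ← Finset.prod_mul_distrib]
    have h4 : ∏ p ∈ b.primeFactors, ((1 - ((p : ℝ))⁻¹) * (1 + 1 / ((p : ℝ) - 1))) = 1 := by
      apply Finset.prod_eq_one
      intro p hp
      have h5 := h.mem_lo hp
      have h6 : (0 : ℝ) < (m : ℝ) ^ 16 := by positivity
      have h7 : (p : ℝ) ≠ 0 := by linarith
      have h8 : (p : ℝ) - 1 ≠ 0 := by linarith
      field_simp
      ring
    rw [h4, mul_one]
  have h2 := Div_prod h.hm h.om (fun p => 1 / ((p : ℝ) - 1)) (c := 1) (by norm_num) (by norm_num)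
    (fun p hp => by
      have h5 := h.mem_lo hp
      have h6 : (0 : ℝ) < (m : ℝ) ^ 16 := by positivity
      have : 0 < (p : ℝ) - 1 := by linarith
      positivity)
    (fun p hp => by
      have h5 := h.mem_lo hp
      have h6 : (0 : ℝ) < (m : ℝ) ^ 16 := by positivity
      exact one_div_le_one_div_of_le h6 (by linarith))
  have h3 : 1 + 2 * (1 / (m : ℝ) ^ 15) ≤ 2 := by
    have : 1 / (m : ℝ) ^ 15 ≤ 1 / 2 := by
      apply one_div_le_one_div_of_le (by norm_num)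
      calc (2 : ℝ) ≤ (m : ℝ) := by linarith
        _ = (m : ℝ) ^ 1 := (pow_one _).symm
        _ ≤ (m : ℝ) ^ 15 := pow_le_pow_right₀ (by linarith) (by norm_num)
    linarith
  have h4 : (b : ℝ) ≤ 2 * (Nat.totient b : ℝ) := by
    rw [← h1]
    have h5 : (0 : ℝ) ≤ (Nat.totient b : ℝ) := Nat.cast_nonneg _
    have h6 := mul_le_mul_of_nonneg_left (h2.trans h3) h5
    linarith
  exact_mod_cast h4

theorem Div_prodsum (h : Bm m b) :
    ∑ g ∈ b.divisors, (1 / (g : ℝ)) ≤ 1 + 2 * (1 / (m : ℝ) ^ 15) := by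
  have hm0 := Div_pos h.hm
  rw [Div_sum h.sq (fun g => 1 / (g : ℝ)) (by norm_num)
    (fun a c _ _ _ => by push_cast; rw [one_div_mul_one_div])]
  exact Div_prod h.hm h.om (fun p => 1 / (p : ℝ)) (by norm_num) (by norm_num)
    (fun p _ => by positivity)
    (fun p hp => by
      have h5 := h.mem_lo hp
      have h6 : (0 : ℝ) < (m : ℝ) ^ 16 := by positivity
      exact one_div_le_one_div_of_le h6 (by linarith))

theorem Div_le2 (hm : 1000 ≤ m) {c : ℝ} (hc : c ≤ 100) : 1 + c / (m : ℝ) ^ 15 ≤ 2 := by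
  have hm' : (1000 : ℝ) ≤ m := by exact_mod_cast hm
  have : c / (m : ℝ) ^ 15 ≤ 1 := by
    rw [div_le_one (by positivity)]
    calc c ≤ (m : ℝ) := by linarith
      _ = (m : ℝ) ^ 1 := (pow_one _).symm
      _ ≤ (m : ℝ) ^ 15 := pow_le_pow_right₀ (by linarith) (by norm_num)
  linarith

theorem Bm.sum (h : Bm m b) : ∑ g ∈ b.divisors, (1 / (g : ℝ)) ≤ 2 := by
  have h1 := Div_prodsum h
  have h2 := Div_le2 h.hm (c := 2) (by norm_num)
  have h3 : 2 * (1 / (m : ℝ) ^ 15) = 2 / (m : ℝ) ^ 15 := by ring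
  linarith

theorem Bm.sum' (h : Bm m b) : ∑ g ∈ b.divisors.erase 1, (1 / (g : ℝ)) ≤ 2 / (m : ℝ) ^ 15 := by
  have h1 := Div_prodsum h
  have h2 : ∑ g ∈ b.divisors.erase 1, (1 / (g : ℝ)) + 1 / ((1 : ℕ) : ℝ) =
      ∑ g ∈ b.divisors, (1 / (g : ℝ)) :=
    Finset.sum_erase_add _ _ (Nat.one_mem_divisors.2 h.pos.ne')
  have h3 : 2 * (1 / (m : ℝ) ^ 15) = 2 / (m : ℝ) ^ 15 := by ring
  rw [Nat.cast_one, div_one] at h2
  linarith

/-- The sum in the full mean. -/
theorem Bm.four (h : Bm m b) :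
    ∑ g ∈ b.divisors, ((4 : ℝ) ^ (b / g).primeFactors.card / (Nat.totient (b / g) : ℝ)) ≤ 2 := by
  have hm0 := Div_pos h.hm
  rw [Nat.sum_div_divisors b
    (fun g => ((4 : ℝ) ^ g.primeFactors.card / (Nat.totient g : ℝ))),
    Div_sum h.sq (fun g => ((4 : ℝ) ^ g.primeFactors.card / (Nat.totient g : ℝ))) (by simp)
    (fun a c _ _ hac => by
      rw [Nat.totient_mul hac, hac.primeFactors_mul, Finset.card_union_of_disjoint
        hac.disjoint_primeFactors, pow_add]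
      push_cast
      rw [mul_div_mul_comm])]
  refine (Div_prod h.hm h.om _ (c := 4) (by norm_num) (by norm_num)
    (fun p _ => by positivity) ?_).trans ?_
  · intro p hp
    have h5 := h.mem_lo hp
    have h6 : (0 : ℝ) < (m : ℝ) ^ 16 := by positivity
    have hpp := Nat.prime_of_mem_primeFactors hp
    rw [hpp.primeFactors, Finset.card_singleton, pow_one, Nat.totient_prime hpp,
      Nat.cast_sub hpp.one_le, Nat.cast_one]
    exact div_le_div_of_nonneg_left (by norm_num) h6 (by linarith)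
  · have h2 := Div_le2 h.hm (c := 8) (by norm_num)
    have h3 : 2 * (4 / (m : ℝ) ^ 15) = 8 / (m : ℝ) ^ 15 := by ring
    linarith

theorem Par.pos (h : Par m r l) : 0 < Mk l r :=
  Finset.prod_pos (fun i hi => (h.prime i (mem_range.1 hi)).pos)

theorem Div_pf (h : Par m r l) : (Mk l r).primeFactors = (range r).image l := by
  ext p
  rw [Nat.mem_primeFactors, Finset.mem_image]
  constructor
  · rintro ⟨hp, hd, -⟩
    rw [Mk, hp.prime.dvd_finsetProd_iff] at hd
    obtain ⟨i, hi, hpi⟩ := hd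
    exact ⟨i, hi, ((Nat.prime_dvd_prime_iff_eq hp (h.prime i (mem_range.1 hi))).1 hpi).symm⟩
  · rintro ⟨i, hi, rfl⟩
    exact ⟨h.prime i (mem_range.1 hi), Finset.dvd_prod_of_mem _ hi, h.pos.ne'⟩

theorem Div_coprime (h : Par m r l) {s t : Finset ℕ} (hs : s ⊆ range r) (ht : t ⊆ range r)
    (hst : Disjoint s t) : Nat.Coprime (∏ i ∈ s, l i) (∏ i ∈ t, l i) := by
  apply Nat.Coprime.prod_left
  intro i hi
  apply Nat.Coprime.prod_right
  intro j hj
  have hi' := mem_range.1 (hs hi)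
  have hj' := mem_range.1 (ht hj)
  rw [Nat.coprime_primes (h.prime i hi') (h.prime j hj')]
  intro he
  have := h.inj i hi' j hj' he
  subst this
  exact Finset.disjoint_left.1 hst hi hj

theorem Div_sqf (h : Par m r l) {s : Finset ℕ} (hs : s ⊆ range r) :
    Squarefree (∏ i ∈ s, l i) := by
  classical
  induction s using Finset.induction_on with
  | empty => simp
  | insert a s ha ih =>
    rw [Finset.prod_insert ha, Nat.squarefree_mul_iff]
    have hs' : s ⊆ range r := fun x hx => hs (mem_insert_of_mem hx)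
    have har : a ∈ range r := hs (mem_insert_self a s)
    refine ⟨?_, (h.prime a (mem_range.1 har)).squarefree, ih hs'⟩
    have := Div_coprime h (s := {a}) (t := s) (by simpa using har) hs' (by simpa using ha)
    simpa using this

theorem Par.bm (h : Par m r l) : Bm m (Mk l r) where
  hm := h.hm
  sq := Div_sqf h (Finset.Subset.refl _)
  le := h.hb
  lo := by
    intro p hp hd
    have : p ∈ (Mk l r).primeFactors := Nat.mem_primeFactors.2 ⟨hp, hd, h.pos.ne'⟩
    rw [Div_pf h, Finset.mem_image] at this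
    obtain ⟨i, hi, rfl⟩ := this
    exact h.lo i (mem_range.1 hi)
  om := by
    rw [Div_pf h]
    refine Finset.card_image_le.trans ?_
    rw [card_range]
    have := h.hrm
    omega

theorem IP_zero (l : ℕ → ℕ) (k : ℕ) : IP l 0 k = Mk l k := by
  rw [IP, Mk, Finset.range_eq_Ico]

theorem Div_Mk_mul (l : ℕ → ℕ) {k : ℕ} (hk : k ≤ r) : Mk l k * IP l k r = Mk l r := by
  rw [← IP_zero, ← IP_zero, IP, IP, IP]
  exact Finset.prod_Ico_consecutive l (Nat.zero_le k) hk

theorem Div_Mk_pos (h : Par m r l) {k : ℕ} (hk : k ≤ r) : 0 < Mk l k :=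
  Finset.prod_pos (fun i hi => (h.prime i ((mem_range.1 hi).trans_le hk)).pos)

/-- The moduli are interval products. -/
theorem Par.isMM (h : Par m r l) (hM : IsMM l r M) :
    ∃ k ≤ r, M = IP l 0 k ∨ M = IP l k r := by
  obtain ⟨k, hk, h1 | h1⟩ := hM
  · exact ⟨k, hk, Or.inl (by rw [IP_zero]; exact h1)⟩
  · refine ⟨k, hk, Or.inr ?_⟩
    rw [← Div_Mk_mul l hk, mul_comm (Mk l k)] at h1
    exact Nat.eq_of_mul_eq_mul_right (Div_Mk_pos h hk) h1

theorem Par.dvd (h : Par m r l) (hM : IsMM l r M) : M ∣ Mk l r := by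
  obtain ⟨k, hk, h1 | h1⟩ := h.isMM hM
  · rw [h1, IP_zero, ← Div_Mk_mul l hk]
    exact dvd_mul_right _ _
  · rw [h1, ← Div_Mk_mul l hk]
    exact dvd_mul_left _ _

theorem Par.bmM (h : Par m r l) (hM : IsMM l r M) : Bm m M := h.bm.dvd (h.dvd hM)

/-- The finite set of the moduli. -/
noncomputable def MMs (l : ℕ → ℕ) (r : ℕ) : Finset ℕ :=
  (range (r + 1)).image (fun k => IP l 0 k) ∪ (range (r + 1)).image (fun k => IP l k r)

theorem Par.mem_MMs (h : Par m r l) : M ∈ MMs l r ↔ IsMM l r M := by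
  rw [MMs, mem_union, mem_image, mem_image]
  constructor
  · rintro (⟨k, hk, rfl⟩ | ⟨k, hk, rfl⟩)
    · exact ⟨k, by rw [mem_range] at hk; omega, Or.inl (IP_zero l k)⟩
    · have hk' : k ≤ r := by rw [mem_range] at hk; omega
      exact ⟨k, hk', Or.inr (by rw [mul_comm]; exact Div_Mk_mul l hk')⟩
  · intro hM
    obtain ⟨k, hk, h1 | h1⟩ := h.isMM hM
    · exact Or.inl ⟨k, mem_range.2 (by omega), h1.symm⟩
    · exact Or.inr ⟨k, mem_range.2 (by omega), h1.symm⟩

theorem Par.card_MMs (h : Par m r l) : 2 * (MMs l r).card ≤ m := by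
  have h1 : (MMs l r).card ≤ (r + 1) + (r + 1) := by
    refine (Finset.card_union_le _ _).trans (add_le_add ?_ ?_)
    · exact Finset.card_image_le.trans (by rw [card_range])
    · exact Finset.card_image_le.trans (by rw [card_range])
  have := h.hrm
  omega

/-- The gcd of two interval products. -/
theorem Div_gcd (h : Par m r l) {a k a' k' : ℕ} (hk : k ≤ r) (hk' : k' ≤ r) :
    Nat.gcd (IP l a k) (IP l a' k') = IP l (max a a') (min k k') := by
  classical
  have hs : Ico a k ⊆ range r := fun x hx => by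
    rw [mem_Ico] at hx
    rw [mem_range]
    omega
  have ht : Ico a' k' ⊆ range r := fun x hx => by
    rw [mem_Ico] at hx
    rw [mem_range]
    omega
  have hi : Ico (max a a') (min k k') = Ico a k ∩ Ico a' k' := by
    ext x
    simp only [mem_Ico, mem_inter]
    omega
  rw [IP, IP, IP, hi]
  have e1 : ∏ j ∈ Ico a k, l j = (∏ j ∈ Ico a k ∩ Ico a' k', l j) *
      ∏ j ∈ Ico a k \ Ico a' k', l j := by
    rw [← Finset.prod_inter_mul_prod_sdiff (Ico a k) (Ico a' k')]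
  have e2 : ∏ j ∈ Ico a' k', l j = (∏ j ∈ Ico a k ∩ Ico a' k', l j) *
      ∏ j ∈ Ico a' k' \ Ico a k, l j := by
    rw [Finset.inter_comm, ← Finset.prod_inter_mul_prod_sdiff (Ico a' k') (Ico a k)]
  rw [e1, e2, Nat.gcd_mul_left]
  have e3 : Nat.gcd (∏ j ∈ Ico a k \ Ico a' k', l j) (∏ j ∈ Ico a' k' \ Ico a k, l j) = 1 := by
    apply Div_coprime h
    · exact sdiff_subset.trans hs
    · exact sdiff_subset.trans ht
    · rw [Finset.disjoint_left]
      intro x hx hx'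
      rw [mem_sdiff] at hx hx'
      exact hx'.2 hx.1
  rw [e3, mul_one]

/-- The gcd of two moduli is an interval product. -/
theorem Par.gcd_MM (h : Par m r l) (hM : IsMM l r M) (hM' : IsMM l r M') :
    ∃ a k, a ≤ k ∧ k ≤ r ∧ Nat.gcd M M' = IP l a k := by
  have key : ∀ a k a' k', k ≤ r → k' ≤ r →
      ∃ a'' k'', a'' ≤ k'' ∧ k'' ≤ r ∧ Nat.gcd (IP l a k) (IP l a' k') = IP l a'' k'' := by
    intro a k a' k' hk hk'
    rcases le_or_gt (max a a') (min k k') with hle | hlt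
    · exact ⟨max a a', min k k', hle, by omega, Div_gcd h hk hk'⟩
    · refine ⟨0, 0, le_rfl, Nat.zero_le _, ?_⟩
      rw [Div_gcd h hk hk', IP, IP, Finset.Ico_eq_empty_of_le hlt.le, Finset.Ico_self]
  obtain ⟨k, hk, h1 | h1⟩ := h.isMM hM <;> obtain ⟨k', hk', h2 | h2⟩ := h.isMM hM' <;>
    rw [h1, h2]
  · exact key _ _ _ _ hk hk'
  · exact key _ _ _ _ hk le_rfl
  · exact key _ _ _ _ le_rfl hk'
  · exact key _ _ _ _ le_rfl le_rfl

end DiscPS
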