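import Pool.Agent.Work.DiscPS.Dyadic

set_option autoImplicit false
set_option maxHeartbeats 400000

/-! # Energy of dyadic boxes modulo `D` (Lemma 2) -/

namespace DiscPS

open Finset

theorem dy_ne_zero {k : ℕ} {x : ℤ} (hx : x ∈ dy k) : x ≠ 0 := by
  rintro rfl
  have := (mem_dy.1 hx).1
  rw [abs_zero] at this
  have h2 : (0 : ℤ) < 2 ^ k := by positivity
  omega

theorem card_dy (k : ℕ) : (dy k).card ≤ 2 * 2 ^ k := by
  have h1 : dy k ⊆ Ico (2 ^ k : ℤ) (2 ^ (k + 1)) ∪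
      Ioc (-(2 ^ (k + 1)) : ℤ) (-(2 ^ k)) := by
    intro x hx
    rw [mem_dy] at hx
    rw [mem_union, mem_Ico, mem_Ioc]
    rcases abs_cases x with h | h
    · left
      omega
    · right
      omega
  refine (card_le_card h1).trans ((card_union_le _ _).trans ?_)
  rw [Int.card_Ico, Int.card_Ioc]
  have h2 : (2 : ℤ) ^ (k + 1) - 2 ^ k = ((2 ^ k : ℕ) : ℤ) := by
    push_cast
    ring
  have h3 : -(2 : ℤ) ^ k - -2 ^ (k + 1) = ((2 ^ k : ℕ) : ℤ) := by
    push_cast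
    ring
  rw [h2, h3, Int.toNat_natCast]
  omega

theorem en_coprime {q q' : ℤ} (hq : q ≠ 0) : ∃ e x y : ℤ, 0 < e ∧ q = e * x ∧ q' = e * y ∧
    IsCoprime x y ∧ x ≠ 0 ∧ e = Int.gcd q q' := by
  obtain ⟨x, hx⟩ : (Int.gcd q q' : ℤ) ∣ q := Int.gcd_dvd_left q q'
  obtain ⟨y, hy⟩ : (Int.gcd q q' : ℤ) ∣ q' := Int.gcd_dvd_right q q'
  have he0 : (0 : ℤ) < Int.gcd q q' := by exact_mod_cast Int.gcd_pos_of_ne_zero_left q' hq
  refine ⟨Int.gcd q q', x, y, he0, hx, hy, ?_, ?_, rfl⟩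
  · have h1 := Int.gcd_eq_gcd_ab q q'
    refine ⟨Int.gcdA q q', Int.gcdB q q', ?_⟩
    have h2 : (Int.gcd q q' : ℤ) * (Int.gcdA q q' * x + Int.gcdB q q' * y) =
        Int.gcd q q' * 1 := by
      rw [mul_one]
      calc (Int.gcd q q' : ℤ) * (Int.gcdA q q' * x + Int.gcdB q q' * y)
          = (Int.gcd q q' * x) * Int.gcdA q q' + (Int.gcd q q' * y) * Int.gcdB q q' := by ring
        _ = q * Int.gcdA q q' + q' * Int.gcdB q q' := by rw [← hx, ← hy]
        _ = Int.gcd q q' := h1.symm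
    exact mul_left_cancel₀ he0.ne' h2
  · rintro rfl
    exact hq (by rw [hx, mul_zero])

/-- solutions of `q p' - q' p = Δ` -/
theorem card_sol (i j : ℕ) (hij : i ≤ j) (q q' Δ : ℤ) (hq : q ∈ dy i) :
    (((dy j ×ˢ dy j).filter (fun p => q * p.2 - q' * p.1 = Δ)).card : ℝ) * 2 ^ i ≤
      8 * 2 ^ j * (Int.gcd q q' : ℝ) := by
  obtain ⟨e, x, y, he0, hx, hy, hxy, hx0, hge⟩ := en_coprime (q' := q') (dy_ne_zero hq)
  set S := (dy j ×ˢ dy j).filter (fun p => q * p.2 - q' * p.1 = Δ) with hS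
  have hX : 0 < |x| := abs_pos.2 hx0
  set B : ℤ := 2 ^ (j + 1) / |x| with hB
  have hqa : |q| = e * |x| := by rw [hx, abs_mul, abs_of_pos he0]
  have hq1 := mem_dy.1 hq
  have hXle : |x| ≤ 2 ^ (j + 1) := by
    have h1 : |x| ≤ |q| := by
      rw [hqa]
      nlinarith
    have h2 : (2 : ℤ) ^ (i + 1) ≤ 2 ^ (j + 1) := pow_le_pow_right₀ (by norm_num) (by omega)
    omega
  have hcard : S.card ≤ (Icc (-B - 1) B).card := by
    refine card_le_card_of_injOn (fun p => p.1 / |x|) ?_ ?_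
    · intro p hp
      have hp' := (mem_filter.1 (mem_coe.1 hp)).1
      have h1 := mem_dy.1 (mem_product.1 hp').1
      rw [abs_lt] at h1
      rw [mem_coe, mem_Icc]
      show -B - 1 ≤ p.1 / |x| ∧ p.1 / |x| ≤ B
      constructor
      · have h3 : -(2 ^ (j + 1)) / |x| ≤ p.1 / |x| := Int.ediv_le_ediv hX (by omega)
        have h4 : -B - 1 ≤ -(2 ^ (j + 1)) / |x| := by
          rw [Int.le_ediv_iff_mul_le hX]
          have h5 : 2 ^ (j + 1) < (B + 1) * |x| := Int.lt_ediv_add_one_mul_self _ hX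
          nlinarith
        omega
      · exact Int.ediv_le_ediv hX (by omega)
    · intro p hp p' hp' hpp
      have h1 := (mem_filter.1 (mem_coe.1 hp)).2
      have h2 := (mem_filter.1 (mem_coe.1 hp')).2
      simp only at hpp
      have h3 : x * (p.2 - p'.2) = y * (p.1 - p'.1) := by
        have h4 : e * (x * (p.2 - p'.2)) = e * (y * (p.1 - p'.1)) := by
          have h5 : q * (p.2 - p'.2) = q' * (p.1 - p'.1) := by linarith
          rw [hx, hy] at h5
          linarith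
        exact mul_left_cancel₀ he0.ne' h4
      have h4 : x ∣ p.1 - p'.1 := hxy.dvd_of_dvd_mul_left ⟨_, h3.symm⟩
      have h5 : |x| ∣ p.1 - p'.1 := (abs_dvd _ _).2 h4
      have h6 : p.1 = p'.1 := by
        have h7 : |x| * (p.1 / |x|) + p.1 % |x| = p.1 := Int.mul_ediv_add_emod _ _
        have h8 : |x| * (p'.1 / |x|) + p'.1 % |x| = p'.1 := Int.mul_ediv_add_emod _ _
        have h9 : p.1 % |x| = p'.1 % |x| := Int.ModEq.eq (Int.modEq_iff_dvd.2 (by
          have := dvd_neg.2 h5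
          rwa [neg_sub] at this))
        rw [← h7, ← h8, hpp, h9]
      have h7 : p.2 = p'.2 := by
        rw [h6, sub_self, mul_zero] at h3
        have := (mul_eq_zero.1 h3).resolve_left hx0
        omega
      exact Prod.ext h6 h7
  rw [Int.card_Icc] at hcard
  have hB0 : 1 ≤ B := by
    rw [hB, Int.le_ediv_iff_mul_le hX, one_mul]
    exact hXle
  have h1 : (S.card : ℤ) ≤ 4 * B := by
    have h2 : (S.card : ℤ) ≤ ((B + 1 - (-B - 1)).toNat : ℤ) := by exact_mod_cast hcard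
    rw [Int.toNat_of_nonneg (by omega)] at h2
    omega
  have h2 : (S.card : ℤ) * |x| ≤ 4 * 2 ^ (j + 1) := by
    have h3 : B * |x| ≤ 2 ^ (j + 1) := Int.ediv_mul_le _ hX.ne'
    nlinarith
  have h3 : (S.card : ℤ) * 2 ^ i ≤ 8 * 2 ^ j * e := by
    calc (S.card : ℤ) * 2 ^ i ≤ S.card * |q| :=
          mul_le_mul_of_nonneg_left hq1.1 (Int.natCast_nonneg _)
      _ = (S.card * |x|) * e := by rw [hqa]; ring
      _ ≤ (4 * 2 ^ (j + 1)) * e := mul_le_mul_of_nonneg_right h2 he0.le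
      _ = 8 * 2 ^ j * e := by ring
  have hger : (Int.gcd q q' : ℝ) = (e : ℝ) := by
    rw [hge, Int.cast_natCast]
  rw [hger]
  exact_mod_cast h3

/-- solutions of `D ∣ q p' - q' p` -/
theorem card_pq (D i j : ℕ) (hD : 0 < D) (hij : i ≤ j) (q q' : ℤ) (hq : q ∈ dy i)
    (hq' : q' ∈ dy i) (hqD : IsCoprime q (D : ℤ)) :
    (((dy j ×ˢ dy j).filter (fun p => (D : ℤ) ∣ q * p.2 - q' * p.1)).card : ℝ) ≤
      128 * 4 ^ j / D + 8 * 2 ^ j * (Int.gcd q q' : ℝ) / 2 ^ i := by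
  obtain ⟨e, x, y, he0, hx, hy, hxy, hx0, hge⟩ := en_coprime (q' := q') (dy_ne_zero hq)
  have hger : (Int.gcd q q' : ℝ) = (e : ℝ) := by
    rw [hge, Int.cast_natCast]
  rw [hger]
  set S := (dy j ×ˢ dy j).filter (fun p => (D : ℤ) ∣ q * p.2 - q' * p.1) with hS
  have heD : IsCoprime e (D : ℤ) := by
    rw [hx] at hqD
    exact IsCoprime.of_mul_left_left hqD
  have hDz : (0 : ℤ) < D := by exact_mod_cast hD
  have heD0 : 0 < e * D := mul_pos he0 hDz
  set A : ℤ := 8 * 2 ^ (i + j) / (e * D) with hA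
  have hA0 : 0 ≤ A := Int.ediv_nonneg (by positivity) heD0.le
  set T : Finset ℤ := (Icc (-A) A).image (fun t => t * (e * D)) with hT
  have hmaps : ∀ p ∈ S, q * p.2 - q' * p.1 ∈ T := by
    intro p hp
    have hp' := mem_filter.1 hp
    have h1 := (mem_dy.1 (mem_product.1 hp'.1).1).2
    have h2 := (mem_dy.1 (mem_product.1 hp'.1).2).2
    have h3 : e ∣ q * p.2 - q' * p.1 := by
      rw [hx, hy]
      exact ⟨x * p.2 - y * p.1, by ring⟩
    obtain ⟨t, ht⟩ := heD.mul_dvd h3 hp'.2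
    rw [hT, mem_image]
    refine ⟨t, ?_, by rw [ht]; ring⟩
    have h4 : |q * p.2 - q' * p.1| ≤ 8 * 2 ^ (i + j) := by
      have h5 := (mem_dy.1 hq).2
      have h6 := (mem_dy.1 hq').2
      have h7 : |q * p.2| ≤ 2 ^ (i + 1) * 2 ^ (j + 1) := by
        rw [abs_mul]
        gcongr
      have h8 : |q' * p.1| ≤ 2 ^ (i + 1) * 2 ^ (j + 1) := by
        rw [abs_mul]
        gcongr
      calc |q * p.2 - q' * p.1| ≤ |q * p.2| + |q' * p.1| := abs_sub _ _
        _ ≤ 2 ^ (i + 1) * 2 ^ (j + 1) + 2 ^ (i + 1) * 2 ^ (j + 1) := add_le_add h7 h8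
        _ = 8 * 2 ^ (i + j) := by ring
    rw [ht, abs_mul, abs_of_pos heD0, mul_comm] at h4
    have h5 : |t| ≤ A := by
      rw [hA, Int.le_ediv_iff_mul_le heD0]
      exact h4
    exact mem_Icc.2 (abs_le.1 h5)
  have hTc : (T.card : ℝ) ≤ 16 * 2 ^ (i + j) / (e * D) + 1 := by
    have h1 : T.card ≤ (Icc (-A) A).card := card_image_le
    rw [Int.card_Icc] at h1
    have h2 : (T.card : ℤ) ≤ 2 * A + 1 := by
      have h3 : (T.card : ℤ) ≤ ((A + 1 - -A).toNat : ℤ) := by exact_mod_cast h1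
      rw [Int.toNat_of_nonneg (by omega)] at h3
      omega
    have h3 : (A : ℝ) ≤ 8 * 2 ^ (i + j) / (e * D) := by
      have h4 : A * (e * D) ≤ 8 * 2 ^ (i + j) := Int.ediv_mul_le _ heD0.ne'
      rw [le_div_iff₀ (by exact_mod_cast heD0)]
      exact_mod_cast h4
    have h4 : (T.card : ℝ) ≤ 2 * A + 1 := by exact_mod_cast h2
    calc (T.card : ℝ) ≤ 2 * A + 1 := h4
      _ ≤ 2 * (8 * 2 ^ (i + j) / (e * D)) + 1 := by linarith
      _ = 16 * 2 ^ (i + j) / (e * D) + 1 := by ring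
  have hfib : ∀ Δ ∈ T, ((S.filter (fun p => q * p.2 - q' * p.1 = Δ)).card : ℝ) ≤
      8 * 2 ^ j * e / 2 ^ i := by
    intro Δ _
    rw [le_div_iff₀ (by positivity)]
    have h1 := card_sol i j hij q q' Δ hq
    rw [hger] at h1
    refine le_trans ?_ h1
    gcongr
    exact filter_subset _ _
  have hsum : (S.card : ℝ) ≤ T.card * (8 * 2 ^ j * e / 2 ^ i) := by
    rw [card_eq_sum_card_fiberwise hmaps]
    push_cast
    exact (sum_le_sum hfib).trans (le_of_eq (by rw [sum_const, nsmul_eq_mul]))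
  have he1 : (0 : ℝ) < e := by exact_mod_cast he0
  have hD1 : (0 : ℝ) < D := by exact_mod_cast hD
  calc (S.card : ℝ) ≤ T.card * (8 * 2 ^ j * e / 2 ^ i) := hsum
    _ ≤ (16 * 2 ^ (i + j) / (e * D) + 1) * (8 * 2 ^ j * e / 2 ^ i) := by gcongr
    _ = 128 * 4 ^ j / D + 8 * 2 ^ j * e / 2 ^ i := by
        have h4 : (4 : ℝ) ^ j = 2 ^ j * 2 ^ j := by
          rw [← mul_pow]
          norm_num
        rw [h4, pow_add]
        field_simp
        ring

theorem card_dy_dvd (i e : ℕ) :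
    (((dy i).filter (fun x => (e : ℤ) ∣ x)).card : ℝ) ≤ 4 * 2 ^ i / e := by
  have h1 : (dy i).filter (fun x => (e : ℤ) ∣ x) ⊆
      (((Ioc 0 (2 ^ (i + 1))).filter (e ∣ ·)).image (fun n : ℕ => (n : ℤ))) ∪
      (((Ioc 0 (2 ^ (i + 1))).filter (e ∣ ·)).image (fun n : ℕ => -(n : ℤ))) := by
    intro x hx
    obtain ⟨hx1, hx2⟩ := mem_filter.1 hx
    have hx0 := dy_ne_zero hx1
    have hx3 := (mem_dy.1 hx1).2
    have hmem : x.natAbs ∈ (Ioc 0 (2 ^ (i + 1))).filter (e ∣ ·) := by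
      rw [mem_filter, mem_Ioc]
      refine ⟨⟨Int.natAbs_pos.2 hx0, ?_⟩, Int.natCast_dvd.1 hx2⟩
      have h5 : (x.natAbs : ℤ) < ((2 ^ (i + 1) : ℕ) : ℤ) := by
        rw [Int.natCast_natAbs]
        exact_mod_cast hx3
      exact_mod_cast h5.le
    rw [mem_union, mem_image, mem_image]
    rcases Int.natAbs_eq x with h | h
    · left
      exact ⟨_, hmem, h.symm⟩
    · right
      exact ⟨_, hmem, h.symm⟩
  have h2 := (card_le_card h1).trans (card_union_le _ _)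
  have h3 : ((dy i).filter (fun x => (e : ℤ) ∣ x)).card ≤ 2 * (2 ^ (i + 1) / e) := by
    refine h2.trans ?_
    rw [two_mul, ← Nat.Ioc_filter_dvd_card_eq_div]
    exact add_le_add card_image_le card_image_le
  have h4 : ((2 ^ (i + 1) / e : ℕ) : ℝ) ≤ 2 ^ (i + 1) / e := by
    refine Nat.cast_div_le.trans (le_of_eq ?_)
    push_cast
    rfl
  calc (((dy i).filter (fun x => (e : ℤ) ∣ x)).card : ℝ) ≤ ((2 * (2 ^ (i + 1) / e) : ℕ) : ℝ) := by
        exact_mod_cast h3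
    _ ≤ 2 * (2 ^ (i + 1) / e) := by
        push_cast
        linarith
    _ = 4 * 2 ^ i / e := by ring

theorem sum_card_divisors_le (N : ℕ) :
    (∑ n ∈ Ioc 0 N, (n.divisors.card : ℝ)) ≤ N * (1 + Real.log N) := by
  have h1 : ∀ n ∈ Ioc 0 N, (n.divisors.card : ℝ) = ∑ d ∈ Ioc 0 N, if d ∣ n then (1 : ℝ) else 0 := by
    intro n hn
    rw [mem_Ioc] at hn
    rw [← sum_filter, sum_const, nsmul_eq_mul, mul_one]
    congr 2
    ext d
    rw [Nat.mem_divisors, mem_filter, mem_Ioc]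
    constructor
    · rintro ⟨h2, h3⟩
      exact ⟨⟨Nat.pos_of_dvd_of_pos h2 hn.1, (Nat.le_of_dvd hn.1 h2).trans hn.2⟩, h2⟩
    · rintro ⟨_, h3⟩
      exact ⟨h3, by omega⟩
  rw [sum_congr rfl h1, sum_comm]
  have h2 : ∀ d ∈ Ioc 0 N, (∑ n ∈ Ioc 0 N, if d ∣ n then (1 : ℝ) else 0) ≤ N * (d : ℝ)⁻¹ := by
    intro d hd
    rw [← sum_filter, sum_const, nsmul_eq_mul, mul_one, Nat.Ioc_filter_dvd_card_eq_div,
      ← div_eq_mul_inv]
    exact Nat.cast_div_le
  refine (sum_le_sum h2).trans ?_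
  rw [← mul_sum]
  refine mul_le_mul_of_nonneg_left ?_ (Nat.cast_nonneg _)
  have h3 := harmonic_le_one_add_log N
  rw [harmonic_eq_sum_Icc] at h3
  push_cast at h3
  have h4 : Ioc 0 N = Icc 1 N := by
    ext x
    rw [mem_Ioc, mem_Icc]
    omega
  rw [h4]
  exact h3

theorem sum_dy_divisors (i : ℕ) :
    (∑ q ∈ dy i, (q.natAbs.divisors.card : ℝ)) ≤ 4 * 2 ^ i * (i + 2) := by
  have h1 : ∀ q ∈ dy i, q.natAbs ∈ Ioc 0 (2 ^ (i + 1)) := by
    intro x hx1
    have hx0 := dy_ne_zero hx1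
    have hx3 := (mem_dy.1 hx1).2
    rw [mem_Ioc]
    refine ⟨Int.natAbs_pos.2 hx0, ?_⟩
    have h5 : (x.natAbs : ℤ) < ((2 ^ (i + 1) : ℕ) : ℤ) := by
      rw [Int.natCast_natAbs]
      exact_mod_cast hx3
    exact_mod_cast h5.le
  rw [← sum_fiberwise_of_maps_to h1]
  have h2 : ∀ n ∈ Ioc 0 (2 ^ (i + 1)), (∑ q ∈ (dy i).filter (fun q => q.natAbs = n),
      (q.natAbs.divisors.card : ℝ)) ≤ 2 * (n.divisors.card : ℝ) := by
    intro n _
    have h3 : ((dy i).filter (fun q => q.natAbs = n)).card ≤ 2 := by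
      refine (card_le_card (t := {(n : ℤ), -(n : ℤ)}) ?_).trans card_le_two
      intro q hq
      have := (mem_filter.1 hq).2
      rw [mem_insert, mem_singleton]
      omega
    calc (∑ q ∈ (dy i).filter (fun q => q.natAbs = n), (q.natAbs.divisors.card : ℝ))
        = ∑ q ∈ (dy i).filter (fun q => q.natAbs = n), (n.divisors.card : ℝ) :=
          sum_congr rfl fun q hq => by rw [(mem_filter.1 hq).2]
      _ = ((dy i).filter (fun q => q.natAbs = n)).card * (n.divisors.card : ℝ) := by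
          rw [sum_const, nsmul_eq_mul]
      _ ≤ 2 * (n.divisors.card : ℝ) := by
          gcongr
          exact_mod_cast h3
  refine (sum_le_sum h2).trans ?_
  rw [← mul_sum]
  have h4 := sum_card_divisors_le (2 ^ (i + 1))
  have h5 : Real.log ((2 ^ (i + 1) : ℕ) : ℝ) ≤ i + 1 := by
    push_cast
    rw [Real.log_pow]
    have := Real.log_two_lt_d9
    push_cast
    have h6 : (0 : ℝ) ≤ i := Nat.cast_nonneg i
    nlinarith
  calc 2 * ∑ n ∈ Ioc 0 (2 ^ (i + 1)), (n.divisors.card : ℝ)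
      ≤ 2 * (((2 ^ (i + 1) : ℕ) : ℝ) * (1 + (i + 1))) := by
        refine mul_le_mul_of_nonneg_left (h4.trans ?_) (by norm_num)
        gcongr
    _ = 4 * 2 ^ i * (i + 2) := by
        push_cast
        ring

theorem sum_gcd (i : ℕ) :
    (∑ q ∈ dy i, ∑ q' ∈ dy i, (Int.gcd q q' : ℝ)) ≤ 16 * 4 ^ i * (i + 2) := by
  have h1 : ∀ q ∈ dy i, (∑ q' ∈ dy i, (Int.gcd q q' : ℝ)) ≤
      4 * 2 ^ i * (q.natAbs.divisors.card : ℝ) := by
    intro q hq
    have hq0 := dy_ne_zero hq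
    calc (∑ q' ∈ dy i, (Int.gcd q q' : ℝ))
        ≤ ∑ q' ∈ dy i, ∑ e ∈ q.natAbs.divisors, if (e : ℤ) ∣ q' then (e : ℝ) else 0 := by
          refine sum_le_sum fun q' _ => ?_
          have hm : Int.gcd q q' ∈ q.natAbs.divisors := by
            rw [Nat.mem_divisors]
            exact ⟨Int.gcd_dvd_natAbs_left q q', Int.natAbs_ne_zero.2 hq0⟩
          refine le_trans ?_ (single_le_sum (f := fun e : ℕ => if (e : ℤ) ∣ q' then (e : ℝ) else 0)
            (fun e _ => ?_) hm)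
          · rw [if_pos (Int.gcd_dvd_right q q')]
          · positivity
      _ = ∑ e ∈ q.natAbs.divisors, (e : ℝ) * ((dy i).filter (fun x => (e : ℤ) ∣ x)).card := by
          rw [sum_comm]
          refine sum_congr rfl fun e _ => ?_
          rw [← sum_filter, sum_const, nsmul_eq_mul, mul_comm]
      _ ≤ ∑ e ∈ q.natAbs.divisors, (4 * 2 ^ i : ℝ) := by
          refine sum_le_sum fun e he => ?_
          have he0 : 0 < e := Nat.pos_of_mem_divisors he
          have he1 : (0 : ℝ) < e := by exact_mod_cast he0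
          calc (e : ℝ) * ((dy i).filter (fun x => (e : ℤ) ∣ x)).card
              ≤ e * (4 * 2 ^ i / e) := by
                gcongr
                exact card_dy_dvd i e
            _ = 4 * 2 ^ i := by field_simp
      _ = 4 * 2 ^ i * (q.natAbs.divisors.card : ℝ) := by
          rw [sum_const, nsmul_eq_mul, mul_comm]
  refine (sum_le_sum h1).trans ?_
  rw [← mul_sum]
  calc 4 * 2 ^ i * ∑ q ∈ dy i, (q.natAbs.divisors.card : ℝ)
      ≤ 4 * 2 ^ i * (4 * 2 ^ i * (i + 2)) := by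
        gcongr
        exact sum_dy_divisors i
    _ = 16 * 4 ^ i * (i + 2) := by
        have h4 : (4 : ℝ) ^ i = 2 ^ i * 2 ^ i := by
          rw [← mul_pow]
          norm_num
        rw [h4]
        ring

/-- energy of a box -/
noncomputable def En (D i j : ℕ) : ℕ := ((vb D i j ×ˢ vb D i j).filter
  (fun p => (D : ℤ) ∣ dt p.1 p.2)).card

theorem En_swap (D i j : ℕ) : En D i j = En D j i := by
  refine card_bij' (fun p _ => (p.1.swap, p.2.swap)) (fun p _ => (p.1.swap, p.2.swap)) ?_ ?_ ?_ ?_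
  · intro p hp
    rw [mem_filter, mem_product, mem_vb, mem_vb] at hp ⊢
    obtain ⟨⟨⟨⟨a1, a2⟩, a3, a4⟩, ⟨b1, b2⟩, b3, b4⟩, c⟩ := hp
    refine ⟨⟨⟨⟨a2, a1⟩, a4, a3⟩, ⟨b2, b1⟩, b4, b3⟩, ?_⟩
    have : dt p.1.swap p.2.swap = -dt p.1 p.2 := by
      simp only [dt, Prod.fst_swap, Prod.snd_swap]
      ring
    rw [this]
    exact c.neg_right
  · intro p hp
    rw [mem_filter, mem_product, mem_vb, mem_vb] at hp ⊢
    obtain ⟨⟨⟨⟨a1, a2⟩, a3, a4⟩, ⟨b1, b2⟩, b3, b4⟩, c⟩ := hp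
    refine ⟨⟨⟨⟨a2, a1⟩, a4, a3⟩, ⟨b2, b1⟩, b4, b3⟩, ?_⟩
    have : dt p.1.swap p.2.swap = -dt p.1 p.2 := by
      simp only [dt, Prod.fst_swap, Prod.snd_swap]
      ring
    rw [this]
    exact c.neg_right
  · intro p _
    simp
  · intro p _
    simp

theorem En_le_aux (D i j : ℕ) (hD : 0 < D) (hij : i ≤ j) :
    (En D i j : ℝ) ≤ 512 * 4 ^ (i + j) / D + 128 * (i + 2) * 2 ^ (i + j) := by
  set S := (vb D i j ×ˢ vb D i j).filter (fun p => (D : ℤ) ∣ dt p.1 p.2) with hS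
  have hmaps : ∀ p ∈ S, (p.1.1, p.2.1) ∈ dy i ×ˢ dy i := by
    intro p hp
    rw [hS, mem_filter, mem_product, mem_vb, mem_vb] at hp
    exact mem_product.2 ⟨hp.1.1.1.1, hp.1.2.1.1⟩
  have h1 : (S.card : ℝ) ≤ ∑ x ∈ dy i ×ˢ dy i,
      (128 * 4 ^ j / D + 8 * 2 ^ j * (Int.gcd x.1 x.2 : ℝ) / 2 ^ i) := by
    rw [card_eq_sum_card_fiberwise hmaps]
    push_cast
    refine sum_le_sum fun x hx => ?_
    rw [mem_product] at hx
    by_cases hc : IsCoprime x.1 (D : ℤ)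
    · refine le_trans ?_ (card_pq D i j hD hij x.1 x.2 hx.1 hx.2 hc)
      have h2 : (S.filter (fun p => (p.1.1, p.2.1) = x)).card ≤ ((dy j ×ˢ dy j).filter
          (fun p => (D : ℤ) ∣ x.1 * p.2 - x.2 * p.1)).card := by
        refine card_le_card_of_injOn (fun p => (p.1.2, p.2.2)) ?_ ?_
        · intro p hp
          obtain ⟨hp1, hp2⟩ := mem_filter.1 (mem_coe.1 hp)
          rw [hS, mem_filter, mem_product, mem_vb, mem_vb] at hp1
          rw [mem_coe, mem_filter, mem_product]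
          refine ⟨⟨hp1.1.1.1.2, hp1.1.2.1.2⟩, ?_⟩
          rw [← hp2]
          exact hp1.2
        · intro p hp p' hp' hpp
          have hp2 := (mem_filter.1 (mem_coe.1 hp)).2
          have hp2' := (mem_filter.1 (mem_coe.1 hp')).2
          rw [← hp2'] at hp2
          simp only [Prod.mk.injEq] at hp2 hpp
          exact Prod.ext (Prod.ext hp2.1 hpp.1) (Prod.ext hp2.2 hpp.2)
      exact_mod_cast h2
    · have h2 : S.filter (fun p => (p.1.1, p.2.1) = x) = ∅ := by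
        rw [filter_eq_empty_iff]
        intro p hp hp2
        rw [hS, mem_filter, mem_product, mem_vb, mem_vb] at hp
        apply hc
        rw [← hp2]
        exact hp.1.1.2.1
      rw [h2, card_empty]
      push_cast
      positivity
  refine h1.trans ?_
  rw [sum_add_distrib, sum_const, card_product, nsmul_eq_mul]
  have h3 : (∑ x ∈ dy i ×ˢ dy i, 8 * 2 ^ j * (Int.gcd x.1 x.2 : ℝ) / 2 ^ i) =
      8 * 2 ^ j / 2 ^ i * ∑ q ∈ dy i, ∑ q' ∈ dy i, (Int.gcd q q' : ℝ) := by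
    rw [sum_product, mul_sum]
    refine sum_congr rfl fun q _ => ?_
    rw [mul_sum]
    refine sum_congr rfl fun q' _ => ?_
    ring
  have h5 : (((dy i).card * (dy i).card : ℕ) : ℝ) ≤ 4 * 4 ^ i := by
    have h6 : ((dy i).card : ℝ) ≤ 2 * 2 ^ i := by exact_mod_cast card_dy i
    push_cast
    calc ((dy i).card : ℝ) * (dy i).card ≤ (2 * 2 ^ i) * (2 * 2 ^ i) := by gcongr
      _ = 4 * 4 ^ i := by
          have h4 : (4 : ℝ) ^ i = 2 ^ i * 2 ^ i := by
            rw [← mul_pow]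
            norm_num
          rw [h4]
          ring
  rw [h3]
  calc (((dy i).card * (dy i).card : ℕ) : ℝ) * (128 * 4 ^ j / D) +
      8 * 2 ^ j / 2 ^ i * ∑ q ∈ dy i, ∑ q' ∈ dy i, (Int.gcd q q' : ℝ)
      ≤ (4 * 4 ^ i) * (128 * 4 ^ j / D) + 8 * 2 ^ j / 2 ^ i * (16 * 4 ^ i * (i + 2)) := by
        gcongr
        exact sum_gcd i
    _ = 512 * 4 ^ (i + j) / D + 128 * (i + 2) * 2 ^ (i + j) := by
        have h4 : (4 : ℝ) ^ i = 2 ^ i * 2 ^ i := by
          rw [← mul_pow]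
          norm_num
        rw [pow_add, pow_add, h4]
        field_simp
        ring

/-- LEMMA 2 (energy) -/
theorem En_le (D i j m : ℕ) (hD : 0 < D) (hDle : D ≤ 2 ^ (i + j)) (hi : i ≤ m) (hj : j ≤ m)
    (hm : 1 ≤ m) : (En D i j : ℝ) * D ≤ 1000 * m * 4 ^ (i + j) := by
  have key : ∀ i j : ℕ, D ≤ 2 ^ (i + j) → i ≤ m → i ≤ j →
      (En D i j : ℝ) * D ≤ 1000 * m * 4 ^ (i + j) := by
    intro i j hDle hi hij
    have hD0 : (0 : ℝ) < D := by exact_mod_cast hD
    have h1 := En_le_aux D i j hD hij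
    have h2 : (D : ℝ) ≤ 2 ^ (i + j) := by exact_mod_cast hDle
    have h3 : (i : ℝ) ≤ m := by exact_mod_cast hi
    have h4 : (1 : ℝ) ≤ m := by exact_mod_cast hm
    have h5 : (4 : ℝ) ^ (i + j) = 2 ^ (i + j) * 2 ^ (i + j) := by
      rw [← mul_pow]
      norm_num
    calc (En D i j : ℝ) * D
        ≤ (512 * 4 ^ (i + j) / D + 128 * (i + 2) * 2 ^ (i + j)) * D := by gcongr
      _ = 512 * 4 ^ (i + j) + 128 * (i + 2) * 2 ^ (i + j) * D := by field_simp
      _ ≤ 512 * 4 ^ (i + j) + 128 * (m + 2) * 2 ^ (i + j) * 2 ^ (i + j) := by gcongr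
      _ = (512 + 128 * (m + 2)) * 4 ^ (i + j) := by rw [h5]; ring
      _ ≤ 1000 * m * 4 ^ (i + j) := by
          gcongr
          linarith
  rcases le_total i j with h | h
  · exact key i j hDle hi h
  · rw [En_swap, add_comm i j]
    exact key j i (by rwa [add_comm]) hj h

end DiscPS
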