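import Pool.Agent.Work.DiscPS.DefsB

/-!
# Power saving, module N4: the lexicographic order of the residues and the level decomposition
-/

namespace DiscPS

open Finset

namespace Level

variable {l : ℕ → ℕ} {r k : ℕ}

/-- tail products -/
def Bk (l : ℕ → ℕ) (r k : ℕ) : ℕ := ∏ i ∈ Ico k r, l i

/-- tail values -/
def Tk (l : ℕ → ℕ) (r k v : ℕ) : ℕ := ∑ j ∈ Ico k r, (v % l j) * Bk l r (j + 1)

lemma Bk_self : Bk l r r = 1 := by simp [Bk]

lemma Tk_self (v : ℕ) : Tk l r r v = 0 := by simp [Tk]

lemma Bk_step (h : k < r) : Bk l r k = l k * Bk l r (k + 1) := by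
  unfold Bk
  exact Finset.prod_eq_prod_Ico_succ_bot h l

lemma Tk_step (h : k < r) (v : ℕ) :
    Tk l r k v = (v % l k) * Bk l r (k + 1) + Tk l r (k + 1) v := by
  unfold Tk
  rw [Finset.sum_eq_sum_Ico_succ_bot h]

lemma Bk_zero : Bk l r 0 = Mk l r := by
  unfold Bk Mk
  rw [Finset.range_eq_Ico]

lemma Bk_pos (hp : ∀ i < r, 0 < l i) (k : ℕ) : 0 < Bk l r k :=
  Finset.prod_pos fun i hi => hp i (Finset.mem_Ico.mp hi).2

lemma Tk_lt (hp : ∀ i < r, 0 < l i) (v : ℕ) :
    ∀ d k : ℕ, k + d = r → Tk l r k v < Bk l r k := by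
  intro d
  induction d with
  | zero =>
    intro k hk
    obtain rfl : k = r := by omega
    rw [Tk_self, Bk_self]
    exact one_pos
  | succ d ih =>
    intro k hk
    have hkr : k < r := by omega
    rw [Tk_step hkr, Bk_step hkr]
    have h1 := ih (k + 1) (by omega)
    have h2 : v % l k + 1 ≤ l k := Nat.mod_lt _ (hp k hkr)
    calc v % l k * Bk l r (k + 1) + Tk l r (k + 1) v
        < v % l k * Bk l r (k + 1) + Bk l r (k + 1) := by omega
      _ = (v % l k + 1) * Bk l r (k + 1) := by ring
      _ ≤ l k * Bk l r (k + 1) := Nat.mul_le_mul_right _ h2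

lemma digit_eq {a a' t t' B : ℕ} (ht : t < B) (ht' : t' < B) :
    a * B + t = a' * B + t' ↔ a = a' ∧ t = t' := by
  constructor
  · intro h
    rcases lt_trichotomy a a' with h1 | h1 | h1
    · exfalso
      have : (a + 1) * B ≤ a' * B := Nat.mul_le_mul_right _ h1
      rw [add_mul, one_mul] at this
      omega
    · subst h1
      exact ⟨rfl, by omega⟩
    · exfalso
      have : (a' + 1) * B ≤ a * B := Nat.mul_le_mul_right _ h1
      rw [add_mul, one_mul] at this
      omega
  · rintro ⟨rfl, rfl⟩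
    rfl

lemma digit_lt {a a' t t' B : ℕ} (ht : t < B) (ht' : t' < B) :
    a * B + t < a' * B + t' ↔ a < a' ∨ (a = a' ∧ t < t') := by
  rcases lt_trichotomy a a' with h1 | h1 | h1
  · have : (a + 1) * B ≤ a' * B := Nat.mul_le_mul_right _ h1
    rw [add_mul, one_mul] at this
    exact ⟨fun _ => Or.inl h1, fun _ => by omega⟩
  · subst h1
    exact ⟨fun h => Or.inr ⟨rfl, by omega⟩, fun h => by omega⟩
  · have : (a' + 1) * B ≤ a * B := Nat.mul_le_mul_right _ h1
    rw [add_mul, one_mul] at this
    exact ⟨fun h => by omega, fun h => by omega⟩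

lemma Tk_eq (hp : ∀ i < r, 0 < l i) {v z : ℕ} :
    ∀ d k : ℕ, k + d = r → Tk l r k v = Tk l r k z → ∀ j, k ≤ j → j < r → v % l j = z % l j := by
  intro d
  induction d with
  | zero =>
    intro k hk _ j hj hj'
    omega
  | succ d ih =>
    intro k hk h j hj hj'
    have hkr : k < r := by omega
    rw [Tk_step hkr, Tk_step hkr, digit_eq (Tk_lt hp v d (k + 1) (by omega))
      (Tk_lt hp z d (k + 1) (by omega))] at h
    rcases Nat.eq_or_lt_of_le hj with rfl | hj2
    · exact h.1
    · exact ih (k + 1) (by omega) h.2 j hj2 hj'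

/-- equality of the first residues is a divisibility -/
lemma match_iff (hp : ∀ i < r, (l i).Prime) (hinj : ∀ i < r, ∀ j < r, l i = l j → i = j)
    (hk : k ≤ r) (v z : ℕ) :
    (∀ j, 0 ≤ j → j < k → v % l j = z % l j) ↔ (Mk l k : ℤ) ∣ (v : ℤ) - z := by
  have h1 : ∀ j, (v % l j = z % l j) ↔ (l j : ℤ) ∣ (v : ℤ) - z := by
    intro j
    rw [← Int.modEq_iff_dvd, ← Nat.ModEq, ← Int.natCast_modEq_iff]
    exact ⟨fun h => h.symm, fun h => h.symm⟩
  constructor
  · intro h
    have hco : (range k : Set ℕ).Pairwise (Function.onFun IsCoprime fun i => (l i : ℤ)) := by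
      intro i hi j hj hij
      have hi' : i < r := lt_of_lt_of_le (by simpa using hi) hk
      have hj' : j < r := lt_of_lt_of_le (by simpa using hj) hk
      have : Nat.Coprime (l i) (l j) :=
        (Nat.coprime_primes (hp i hi') (hp j hj')).mpr fun he => hij (hinj i hi' j hj' he)
      exact Nat.isCoprime_iff_coprime.mpr this
    have h2 := Finset.prod_dvd_of_coprime hco
      (fun i hi => (h1 i).mp (h i (Nat.zero_le _) (by simpa using hi)))
    simpa [Mk] using h2
  · intro h j _ hj
    rw [h1]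
    refine dvd_trans ?_ h
    have : l j ∣ Mk l k := Finset.dvd_prod_of_mem l (Finset.mem_range.mpr hj)
    exact_mod_cast this

/-- the order -/
def Pv (l : ℕ → ℕ) (r : ℕ) (v : ZMod (Mk l r)) : ℕ := Tk l r 0 v.val

lemma Pv_lt (hp : ∀ i < r, 0 < l i) (v : ZMod (Mk l r)) : Pv l r v < Mk l r := by
  have := Tk_lt hp v.val r 0 (by omega)
  rwa [Bk_zero] at this

lemma Pv_inj [NeZero (Mk l r)] (hp : ∀ i < r, (l i).Prime)
    (hinj : ∀ i < r, ∀ j < r, l i = l j → i = j) : Function.Injective (Pv l r) := by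
  intro v z h
  have h1 := Tk_eq (fun i hi => (hp i hi).pos) r 0 (by omega) h
  have h2 := (match_iff hp hinj le_rfl v.val z.val).mp h1
  have h3 : v.val < Mk l r := ZMod.val_lt v
  have h4 : z.val < Mk l r := ZMod.val_lt z
  have h5 : (v.val : ℤ) - z.val = 0 := by
    refine Int.eq_zero_of_abs_lt_dvd h2 ?_
    rw [abs_lt]
    constructor <;> omega
  have h6 : v.val = z.val := by omega
  exact ZMod.val_injective _ h6

/-- the permutation -/
noncomputable def perm [NeZero (Mk l r)] (hp : ∀ i < r, (l i).Prime)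
    (hinj : ∀ i < r, ∀ j < r, l i = l j → i = j) : Equiv.Perm (ZMod (Mk l r)) :=
  Equiv.ofBijective (fun v => (Pv l r v : ZMod (Mk l r))) (by
    refine (Finite.injective_iff_bijective).mp ?_
    intro v z h
    apply Pv_inj hp hinj
    have h1 := congrArg ZMod.val h
    simp only at h1
    rwa [ZMod.val_cast_of_lt (Pv_lt (fun i hi => (hp i hi).pos) v),
      ZMod.val_cast_of_lt (Pv_lt (fun i hi => (hp i hi).pos) z)] at h1)

lemma perm_val [NeZero (Mk l r)] (hp : ∀ i < r, (l i).Prime)
    (hinj : ∀ i < r, ∀ j < r, l i = l j → i = j) (v : ZMod (Mk l r)) :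
    (perm hp hinj v).val = Tk l r 0 v.val := by
  have : perm hp hinj v = (Pv l r v : ZMod (Mk l r)) := rfl
  rw [this, ZMod.val_cast_of_lt (Pv_lt (fun i hi => (hp i hi).pos) v)]
  rfl

/-- relative position of the point in its block of level `k` -/
noncomputable def cc (l : ℕ → ℕ) (r : ℕ) (z : ℕ) (f : ℝ) (k : ℕ) : ℝ :=
  ((Tk l r k z : ℝ) + f) / (Bk l r k : ℝ)

lemma cc_mem (hp : ∀ i < r, 0 < l i) {z : ℕ} {f : ℝ} (h0 : 0 ≤ f) (h1 : f ≤ 1) (hk : k ≤ r) :
    0 ≤ cc l r z f k ∧ cc l r z f k ≤ 1 := by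
  have hB : (0 : ℝ) < (Bk l r k : ℝ) := by exact_mod_cast Bk_pos hp k
  have hT : Tk l r k z + 1 ≤ Bk l r k := Tk_lt hp z (r - k) k (by omega)
  have hT' : (Tk l r k z : ℝ) + 1 ≤ (Bk l r k : ℝ) := by exact_mod_cast hT
  unfold cc
  constructor
  · positivity
  · rw [div_le_one hB]
    linarith

lemma cc_step (hp : ∀ i < r, 0 < l i) (z : ℕ) (f : ℝ) (hk : k < r) :
    (l k : ℝ) * cc l r z f k = ((z % l k : ℕ) : ℝ) + cc l r z f (k + 1) := by
  have hB : (Bk l r (k + 1) : ℝ) ≠ 0 := by exact_mod_cast (Bk_pos hp (k + 1)).ne'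
  have hl : (l k : ℝ) ≠ 0 := by exact_mod_cast (hp k hk).ne'
  unfold cc
  rw [Bk_step hk, Tk_step hk]
  push_cast
  field_simp
  ring

lemma cc_self (z : ℕ) (f : ℝ) : cc l r z f r = f := by
  simp [cc, Tk_self, Bk_self]

open Classical in
/-- the level functions -/
noncomputable def gam (l : ℕ → ℕ) (r : ℕ) (z : ℕ) (f : ℝ) (k u : ℕ) : ℝ :=
  if k < r then (if u < z % l k then 1 else 0) + (if u = z % l k then cc l r z f (k + 1) else 0) -
    cc l r z f k else 0

lemma gam_abs (hp : ∀ i < r, 0 < l i) {z : ℕ} {f : ℝ} (h0 : 0 ≤ f) (h1 : f ≤ 1) (k u : ℕ) :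
    |gam l r z f k u| ≤ 1 := by
  unfold gam
  split_ifs with hk h2 h3 h3
  · omega
  · have := cc_mem (z := z) hp h0 h1 hk.le
    rw [abs_le]
    constructor <;> linarith [this.1, this.2]
  · have := cc_mem (z := z) hp h0 h1 hk.le
    have h4 := cc_mem (z := z) hp h0 h1 (k := k + 1) hk
    rw [abs_le]
    constructor <;> linarith [this.1, this.2, h4.1, h4.2]
  · have := cc_mem (z := z) hp h0 h1 hk.le
    rw [abs_le]
    constructor <;> linarith [this.1, this.2]
  · simp

lemma gam_sum (hp : ∀ i < r, 0 < l i) {z : ℕ} {f : ℝ} (hk : k < r) :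
    ∑ u ∈ range (l k), gam l r z f k u = 0 := by
  have hz : z % l k < l k := Nat.mod_lt _ (hp k hk)
  have h1 : ∑ u ∈ range (l k), (if u < z % l k then (1 : ℝ) else 0) = ((z % l k : ℕ) : ℝ) := by
    rw [Finset.sum_boole]
    congr 1
    have : (range (l k)).filter (fun u => u < z % l k) = range (z % l k) := by
      ext u
      simp only [Finset.mem_filter, Finset.mem_range]
      exact ⟨fun h => h.2, fun h => ⟨h.trans hz, h⟩⟩
    rw [this, Finset.card_range]
  have h2 : ∑ u ∈ range (l k), (if u = z % l k then cc l r z f (k + 1) else 0) =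
      cc l r z f (k + 1) := by
    rw [Finset.sum_ite_eq' (range (l k)) (z % l k), if_pos (Finset.mem_range.mpr hz)]
  have h3 : ∀ u, gam l r z f k u = (if u < z % l k then (1 : ℝ) else 0) +
      (if u = z % l k then cc l r z f (k + 1) else 0) - cc l r z f k := by
    intro u
    simp only [gam, if_pos hk]
  simp_rw [h3]
  rw [Finset.sum_sub_distrib, Finset.sum_add_distrib, h1, h2, Finset.sum_const,
    Finset.card_range, nsmul_eq_mul, cc_step hp z f hk]
  ring

open Classical in
/-- the telescoping identity -/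
lemma tele (hp : ∀ i < r, 0 < l i) (v z : ℕ) (f : ℝ) :
    ∀ d k : ℕ, k + d = r →
      (if Tk l r k v < Tk l r k z then (1 : ℝ) else 0) +
        (if ∀ j, k ≤ j → j < r → v % l j = z % l j then f else 0) - cc l r z f k =
      ∑ i ∈ Ico k r, if ∀ j, k ≤ j → j < i → v % l j = z % l j then gam l r z f i (v % l i)
        else 0 := by
  intro d
  induction d with
  | zero =>
    intro k hk
    obtain rfl : k = r := by omega
    rw [Tk_self, Tk_self, cc_self, Finset.Ico_self, Finset.sum_empty, if_neg (lt_irrefl _),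
      if_pos (fun j hj hj' => absurd hj' (by omega))]
    ring
  | succ d ih =>
    intro k hk
    have hkr : k < r := by omega
    have h1 := ih (k + 1) (by omega)
    have hcond : ∀ j, k ≤ j → j < k → v % l j = z % l j := fun j hj hj' => absurd hj' (by omega)
    rw [Finset.sum_eq_sum_Ico_succ_bot hkr, if_pos hcond]
    have hT : (Tk l r k v < Tk l r k z) ↔
        (v % l k < z % l k ∨ (v % l k = z % l k ∧ Tk l r (k + 1) v < Tk l r (k + 1) z)) := by
      rw [Tk_step hkr, Tk_step hkr]
      exact digit_lt (Tk_lt hp v d (k + 1) (by omega)) (Tk_lt hp z d (k + 1) (by omega))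
    have hM : ∀ i, k < i → ((∀ j, k ≤ j → j < i → v % l j = z % l j) ↔
        (v % l k = z % l k ∧ ∀ j, k + 1 ≤ j → j < i → v % l j = z % l j)) := by
      intro i hi
      constructor
      · intro h
        exact ⟨h k le_rfl hi, fun j hj hj' => h j (by omega) hj'⟩
      · rintro ⟨h2, h3⟩ j hj hj'
        rcases Nat.eq_or_lt_of_le hj with rfl | hj2
        · exact h2
        · exact h3 j hj2 hj'
    have hg : gam l r z f k (v % l k) = (if v % l k < z % l k then (1 : ℝ) else 0) +
        (if v % l k = z % l k then cc l r z f (k + 1) else 0) - cc l r z f k := by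
      simp only [gam, if_pos hkr]
    rw [hg]
    by_cases he : v % l k = z % l k
    · have hs : ∑ i ∈ Ico (k + 1) r, (if ∀ j, k ≤ j → j < i → v % l j = z % l j then
          gam l r z f i (v % l i) else 0) = ∑ i ∈ Ico (k + 1) r,
          (if ∀ j, k + 1 ≤ j → j < i → v % l j = z % l j then gam l r z f i (v % l i) else 0) := by
        apply Finset.sum_congr rfl
        intro i hi
        have hi' : k < i := (Finset.mem_Ico.mp hi).1
        have : (∀ j, k ≤ j → j < i → v % l j = z % l j) ↔
            (∀ j, k + 1 ≤ j → j < i → v % l j = z % l j) := by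
          rw [hM i hi']
          exact ⟨fun h => h.2, fun h => ⟨he, h⟩⟩
        simp only [this]
      have hT' : (Tk l r k v < Tk l r k z) ↔ Tk l r (k + 1) v < Tk l r (k + 1) z := by
        rw [hT]
        constructor
        · rintro (h | h)
          · omega
          · exact h.2
        · intro h
          exact Or.inr ⟨he, h⟩
      have hM' : (∀ j, k ≤ j → j < r → v % l j = z % l j) ↔
          (∀ j, k + 1 ≤ j → j < r → v % l j = z % l j) := by
        rw [hM r hkr]
        exact ⟨fun h => h.2, fun h => ⟨he, h⟩⟩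
      rw [hs, ← h1, if_neg (by omega : ¬ v % l k < z % l k), if_pos he]
      simp only [hT', hM']
      ring
    · have hs : ∑ i ∈ Ico (k + 1) r, (if ∀ j, k ≤ j → j < i → v % l j = z % l j then
          gam l r z f i (v % l i) else 0) = 0 := by
        apply Finset.sum_eq_zero
        intro i hi
        have hi' : k < i := (Finset.mem_Ico.mp hi).1
        rw [if_neg]
        intro h
        exact he (h k le_rfl hi')
      have hT' : (Tk l r k v < Tk l r k z) ↔ v % l k < z % l k := by
        rw [hT]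
        constructor
        · rintro (h | h)
          · exact h
          · exact absurd h.1 he
        · exact Or.inl
      have hM' : ¬ (∀ j, k ≤ j → j < r → v % l j = z % l j) := fun h => he (h k le_rfl hkr)
      rw [hs, if_neg hM', if_neg he]
      simp only [hT']
      ring

lemma fr_mem {b n : ℕ} [NeZero b] (Z : ℕ → ZMod b) (t : ℕ) :
    0 ≤ fr b n Z t ∧ fr b n Z t ≤ 1 := by
  have hb : (0 : ℝ) < b := by exact_mod_cast Nat.pos_of_ne_zero (NeZero.ne b)
  unfold fr
  constructor
  · exact Finset.sum_nonneg fun s _ => by positivity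
  · have h : ∀ m : ℕ, ∑ s ∈ range m, ((Z (t + s)).val : ℝ) / (b : ℝ) ^ (s + 1) ≤
        1 - 1 / (b : ℝ) ^ m := by
      intro m
      induction m with
      | zero => simp
      | succ m ih =>
        rw [Finset.sum_range_succ]
        have h1 : ((Z (t + m)).val : ℝ) ≤ (b : ℝ) - 1 := by
          have : (Z (t + m)).val + 1 ≤ b := ZMod.val_lt _
          have : ((Z (t + m)).val : ℝ) + 1 ≤ b := by exact_mod_cast this
          linarith
        have h2 : ((Z (t + m)).val : ℝ) / (b : ℝ) ^ (m + 1) ≤ ((b : ℝ) - 1) / (b : ℝ) ^ (m + 1) :=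
          div_le_div_of_nonneg_right h1 (by positivity)
        have h3 : ((b : ℝ) - 1) / (b : ℝ) ^ (m + 1) = 1 / (b : ℝ) ^ m - 1 / (b : ℝ) ^ (m + 1) := by
          rw [pow_succ]
          field_simp
        linarith
    refine (h _).trans ?_
    have : (0 : ℝ) ≤ 1 / (b : ℝ) ^ (n - t) := by positivity
    linarith

lemma fr_step {b n : ℕ} [NeZero b] (Z : ℕ → ZMod b) {t : ℕ} (ht : t < n) :
    fr b n Z t = (((Z t).val : ℝ) + fr b n Z (t + 1)) / b := by
  have hb : (b : ℝ) ≠ 0 := by exact_mod_cast NeZero.ne b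
  unfold fr
  have h1 : n - t = (n - (t + 1)) + 1 := by omega
  rw [h1, Finset.sum_range_succ', add_div, Finset.sum_div, add_comm]
  congr 1
  · simp
  · apply Finset.sum_congr rfl
    intro s _
    have h2 : t + (s + 1) = t + 1 + s := by ring
    rw [h2, pow_succ (b : ℝ) (s + 1), div_div]

end Level

/-- the lexicographic order of the residues, and the level decomposition -/
theorem exists_pz (l : ℕ → ℕ) (r : ℕ) [NeZero (Mk l r)] (hr : 1 ≤ r)
    (hp : ∀ i < r, (l i).Prime) (hinj : ∀ i < r, ∀ j < r, l i = l j → i = j) :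
    ∃ pz : Equiv.Perm (ZMod (Mk l r)), ∀ (n : ℕ) (Z : ℕ → ZMod (Mk l r)) (t : ℕ), t < n →
      LevG l r (fun v => GG (Mk l r) n Z t (pz v)) := by
  classical
  have hp0 : ∀ i < r, 0 < l i := fun i hi => (hp i hi).pos
  refine ⟨Level.perm hp hinj, ?_⟩
  intro n Z t ht
  set z : ZMod (Mk l r) := (Level.perm hp hinj).symm (Z t) with hz
  have hzZ : Level.perm hp hinj z = Z t := by rw [hz, Equiv.apply_symm_apply]
  have hzv : (Z t).val = Level.Tk l r 0 z.val := by rw [← hzZ, Level.perm_val]
  set f : ℝ := fr (Mk l r) n Z (t + 1) with hf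
  obtain ⟨hf0, hf1⟩ := Level.fr_mem (n := n) Z (t + 1)
  refine ⟨z, Level.gam l r z.val f, Level.gam_abs hp0 hf0 hf1,
    fun k hk => Level.gam_sum hp0 hk, ?_⟩
  intro v
  have hc0 : Level.cc l r z.val f 0 = fr (Mk l r) n Z t := by
    rw [Level.fr_step Z ht, hzv, Level.cc, Level.Bk_zero]
  have h1 := Level.tele hp0 v.val z.val f r 0 (by omega)
  have h2 : ∀ i ∈ Ico 0 r, (if ∀ j, 0 ≤ j → j < i → v.val % l j = z.val % l j then
      Level.gam l r z.val f i (v.val % l i) else 0) =
      (if (Mk l i : ℤ) ∣ (v.val : ℤ) - z.val then Level.gam l r z.val f i (v.val % l i)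
        else 0) := by
    intro i hi
    have hi' : i ≤ r := (Finset.mem_Ico.mp hi).2.le
    simp only [Level.match_iff hp hinj hi' v.val z.val]
  rw [Finset.sum_congr rfl h2, ← Finset.range_eq_Ico, hc0] at h1
  rw [← h1]
  simp only [GG]
  have h3 : ((Level.perm hp hinj v).val < (Z t).val) ↔
      Level.Tk l r 0 v.val < Level.Tk l r 0 z.val := by
    rw [Level.perm_val, hzv]
  have h4 : (Level.perm hp hinj v = Z t) ↔
      (∀ j, 0 ≤ j → j < r → v.val % l j = z.val % l j) := by
    rw [← hzZ]
    constructor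
    · intro h j _ _
      rw [(Level.perm hp hinj).injective h]
    · intro h
      congr 1
      have h5 := (Level.match_iff hp hinj le_rfl v.val z.val).mp h
      have h6 : v.val < Mk l r := ZMod.val_lt v
      have h7 : z.val < Mk l r := ZMod.val_lt z
      have h8 : (v.val : ℤ) - z.val = 0 := by
        refine Int.eq_zero_of_abs_lt_dvd h5 ?_
        rw [abs_lt]
        constructor <;> omega
      exact ZMod.val_injective _ (by omega)
  simp only [h3, h4]
  rfl

end DiscPS
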