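import Pool.Agent.Work.DiscPS.DefsB

/-!
# Lexicographic telescoping for the third coordinate, and the count of points in a box
-/

namespace DiscPS

open Finset

variable {b n : ℕ}

theorem Lex_fr_of_le (Z : ℕ → ZMod b) {t : ℕ} (h : n ≤ t) : fr b n Z t = 0 := by
  unfold fr
  rw [Nat.sub_eq_zero_of_le h]
  simp

theorem Lex_fr_step (hb1 : 1 < b) (Z : ℕ → ZMod b) {t : ℕ} (h : t < n) :
    (b : ℝ) * fr b n Z t = ((Z t).val : ℝ) + fr b n Z (t + 1) := by
  have hb : (b : ℝ) ≠ 0 := by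
    have : b ≠ 0 := by omega
    exact_mod_cast this
  unfold fr
  have e : n - t = (n - (t + 1)) + 1 := by omega
  rw [e, sum_range_succ', mul_add, mul_sum]
  have e2 : (b : ℝ) * (((Z (t + 0)).val : ℝ) / (b : ℝ) ^ (0 + 1)) = ((Z t).val : ℝ) := by
    simp only [Nat.add_zero, Nat.zero_add, pow_one]
    field_simp
  rw [e2, add_comm]
  congr 1
  apply sum_congr rfl
  intro s _
  have e3 : t + (s + 1) = t + 1 + s := by omega
  rw [e3, pow_succ (b : ℝ) (s + 1)]
  field_simp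

theorem Lex_fr_nonneg (Z : ℕ → ZMod b) (t : ℕ) : 0 ≤ fr b n Z t := by
  unfold fr
  apply sum_nonneg
  intro s _
  positivity

theorem Lex_fr_le_one (hb1 : 1 < b) (Z : ℕ → ZMod b) (t : ℕ) : fr b n Z t ≤ 1 := by
  have hb : (0 : ℝ) < (b : ℝ) := by
    have : 0 < b := by omega
    exact_mod_cast this
  have : NeZero b := ⟨by omega⟩
  have key : ∀ m t, n - t = m → fr b n Z t ≤ 1 := by
    intro m
    induction m with
    | zero =>
      intro t ht
      rw [Lex_fr_of_le Z (by omega)]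
      norm_num
    | succ m ih =>
      intro t ht
      have h1 := ih (t + 1) (by omega)
      have h2 := Lex_fr_step (n := n) hb1 Z (t := t) (by omega)
      have h3 : ((Z t).val : ℝ) + 1 ≤ b := by
        have := ZMod.val_lt (Z t)
        exact_mod_cast this
      have h4 : (b : ℝ) * fr b n Z t ≤ (b : ℝ) * 1 := by
        rw [h2]; linarith
      exact le_of_mul_le_mul_left h4 hb
  exact key (n - t) t rfl

theorem Lex_card_val_lt [NeZero b] (z : ZMod b) :
    ((univ.filter (fun v : ZMod b => v.val < z.val)).card : ℝ) = (z.val : ℝ) := by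
  have : (univ.filter (fun v : ZMod b => v.val < z.val)).card = (range z.val).card := by
    apply card_bij (fun v _ => v.val)
    · intro v hv
      simpa using hv
    · intro v _ w _ h
      exact ZMod.val_injective b h
    · intro m hm
      rw [mem_range] at hm
      have hmb : m < b := lt_trans hm (ZMod.val_lt z)
      have e : ((m : ZMod b)).val = m := ZMod.val_cast_of_lt hmb
      refine ⟨(m : ZMod b), ?_, e⟩
      simp only [mem_filter, mem_univ, true_and]
      rw [e]; exact hm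
  rw [this, card_range]

theorem GG_sum {b n : ℕ} [NeZero b] (hb : 1 < b) (Z : ℕ → ZMod b) {t : ℕ} (ht : t < n) :
    ∑ v, GG b n Z t v = 0 := by
  have hs := Lex_fr_step (n := n) hb Z ht
  unfold GG
  rw [sum_sub_distrib, sum_add_distrib, sum_const, sum_ite_eq' univ (Z t)]
  simp only [mem_univ, if_true, card_univ, ZMod.card, nsmul_eq_mul]
  rw [← sum_filter, sum_const, nsmul_eq_mul, mul_one, Lex_card_val_lt, hs]
  ring

theorem GG_abs {b n : ℕ} [NeZero b] (hb : 1 < b) (Z : ℕ → ZMod b) (t : ℕ) (v : ZMod b) :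
    |GG b n Z t v| ≤ 1 := by
  have h0 := Lex_fr_nonneg (n := n) Z t
  have h1 := Lex_fr_le_one (n := n) hb Z t
  have h2 := Lex_fr_nonneg (n := n) Z (t + 1)
  have h3 := Lex_fr_le_one (n := n) hb Z (t + 1)
  unfold GG
  rw [abs_le]
  by_cases hv : v = Z t
  · rw [if_pos hv, if_neg (by rw [hv]; exact lt_irrefl _)]
    constructor <;> linarith
  · rw [if_neg hv]
    split_ifs <;> constructor <;> linarith

open Classical in
theorem Lex_partial (Z ζ : ℕ → ZMod b) (T : ℕ) :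
    (if ∃ t < T, (∀ s < t, ζ s = Z s) ∧ (ζ t).val < (Z t).val then (1 : ℝ) else 0)
      + (if ∀ s < T, ζ s = Z s then fr b n Z T else 0) =
      fr b n Z 0 + ∑ t ∈ range T, if ∀ s < t, ζ s = Z s then GG b n Z t (ζ t) else 0 := by
  induction T with
  | zero => simp
  | succ T ih =>
    rw [sum_range_succ, ← add_assoc, ← ih]
    by_cases hP : ∀ s < T, ζ s = Z s
    · have hA : ¬ ∃ t < T, (∀ s < t, ζ s = Z s) ∧ (ζ t).val < (Z t).val := by
        rintro ⟨t, ht, _, h2⟩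
        rw [hP t ht] at h2
        exact lt_irrefl _ h2
      rw [if_neg hA, if_pos hP, if_pos hP]
      unfold GG
      by_cases hE : ζ T = Z T
      · have hP1 : ∀ s < T + 1, ζ s = Z s := by
          intro s hs
          rcases Nat.lt_succ_iff_lt_or_eq.mp hs with h | h
          · exact hP s h
          · rw [h]; exact hE
        have hA1 : ¬ ∃ t < T + 1, (∀ s < t, ζ s = Z s) ∧ (ζ t).val < (Z t).val := by
          rintro ⟨t, ht, _, h2⟩
          rw [hP1 t ht] at h2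
          exact lt_irrefl _ h2
        rw [if_neg hA1, if_pos hP1, if_pos hE, if_neg (by rw [hE]; exact lt_irrefl _)]
        ring
      · have hP1 : ¬ ∀ s < T + 1, ζ s = Z s := fun h => hE (h T (Nat.lt_succ_self T))
        rw [if_neg hP1, if_neg hE]
        by_cases hL : (ζ T).val < (Z T).val
        · have hA1 : ∃ t < T + 1, (∀ s < t, ζ s = Z s) ∧ (ζ t).val < (Z t).val :=
            ⟨T, Nat.lt_succ_self T, hP, hL⟩
          rw [if_pos hA1, if_pos hL]
          ring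
        · have hA1 : ¬ ∃ t < T + 1, (∀ s < t, ζ s = Z s) ∧ (ζ t).val < (Z t).val := by
            rintro ⟨t, ht, h1, h2⟩
            rcases Nat.lt_succ_iff_lt_or_eq.mp ht with h | h
            · exact hA ⟨t, h, h1, h2⟩
            · rw [h] at h2; exact hL h2
          rw [if_neg hA1, if_neg hL]
          ring
    · have hP1 : ¬ ∀ s < T + 1, ζ s = Z s := fun h => hP (fun s hs => h s (by omega))
      rw [if_neg hP, if_neg hP1, if_neg hP]
      have hiff : (∃ t < T + 1, (∀ s < t, ζ s = Z s) ∧ (ζ t).val < (Z t).val) ↔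
          ∃ t < T, (∀ s < t, ζ s = Z s) ∧ (ζ t).val < (Z t).val := by
        constructor
        · rintro ⟨t, ht, h1, h2⟩
          rcases Nat.lt_succ_iff_lt_or_eq.mp ht with h | h
          · exact ⟨t, h, h1, h2⟩
          · rw [h] at h1; exact absurd h1 hP
        · rintro ⟨t, ht, h1, h2⟩
          exact ⟨t, by omega, h1, h2⟩
      simp only [hiff, add_zero]

open Classical in
theorem Lex_tel (Z ζ : ℕ → ZMod b) :
    (if ∃ t < n, (∀ s < t, ζ s = Z s) ∧ (ζ t).val < (Z t).val then (1 : ℝ) else 0) =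
      fr b n Z 0 + ∑ t ∈ range n, if ∀ s < t, ζ s = Z s then GG b n Z t (ζ t) else 0 := by
  have h := Lex_partial (n := n) Z ζ n
  rw [Lex_fr_of_le (n := n) Z (le_refl n)] at h
  rw [← h]
  simp

/-- little endian value of a digit string -/
def Lex_w (b : ℕ) {n : ℕ} (f : Fin n → ℕ) : ℕ := ∑ q : Fin n, f q * b ^ (q : ℕ)

theorem Lex_w_succ (f : Fin (n + 1) → ℕ) :
    Lex_w b f = Lex_w b (fun q : Fin n => f q.castSucc) + f (Fin.last n) * b ^ n := by
  unfold Lex_w
  rw [Fin.sum_univ_castSucc]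
  simp

theorem Lex_w_lt : ∀ {n : ℕ} (f : Fin n → ℕ), (∀ q, f q < b) → Lex_w b f < b ^ n := by
  intro n
  induction n with
  | zero => intro f _; simp [Lex_w]
  | succ n ih =>
    intro f hf
    rw [Lex_w_succ]
    have h1 := ih (fun q : Fin n => f q.castSucc) (fun q => hf _)
    have h2 : f (Fin.last n) + 1 ≤ b := hf _
    calc Lex_w b (fun q : Fin n => f q.castSucc) + f (Fin.last n) * b ^ n
        < b ^ n + f (Fin.last n) * b ^ n := Nat.add_lt_add_right h1 _
      _ = (f (Fin.last n) + 1) * b ^ n := by ring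
      _ ≤ b * b ^ n := Nat.mul_le_mul_right _ h2
      _ = b ^ (n + 1) := by ring

theorem Lex_w_lt_iff : ∀ {n : ℕ} (f g : Fin n → ℕ), (∀ q, f q < b) → (∀ q, g q < b) →
    (Lex_w b f < Lex_w b g ↔ ∃ i : Fin n, (∀ q, i < q → f q = g q) ∧ f i < g i) := by
  intro n
  induction n with
  | zero =>
    intro f g _ _
    constructor
    · intro h; simp [Lex_w] at h
    · rintro ⟨i, _⟩; exact i.elim0
  | succ n ih =>
    intro f g hf hg
    have hf1 := Lex_w_lt (fun q : Fin n => f q.castSucc) (fun q => hf _)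
    have hg1 := Lex_w_lt (fun q : Fin n => g q.castSucc) (fun q => hg _)
    have hi := ih (fun q : Fin n => f q.castSucc) (fun q : Fin n => g q.castSucc)
      (fun q => hf _) (fun q => hg _)
    rw [Lex_w_succ, Lex_w_succ]
    -- strict inequality in the last digit decides
    have key : ∀ x y a c : ℕ, x < b ^ n → a < c → x + a * b ^ n < y + c * b ^ n := by
      intro x y a c hx hac
      calc x + a * b ^ n < b ^ n + a * b ^ n := Nat.add_lt_add_right hx _
        _ = (a + 1) * b ^ n := by ring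
        _ ≤ c * b ^ n := Nat.mul_le_mul_right _ hac
        _ ≤ y + c * b ^ n := Nat.le_add_left _ _
    constructor
    · intro h
      rcases lt_trichotomy (f (Fin.last n)) (g (Fin.last n)) with h1 | h1 | h1
      · refine ⟨Fin.last n, fun q hq => ?_, h1⟩
        exact absurd (Fin.le_last q) (not_le.mpr hq)
      · rw [h1] at h
        have h2 := hi.1 (Nat.lt_of_add_lt_add_right h)
        obtain ⟨i, h3, h4⟩ := h2
        refine ⟨i.castSucc, fun q hq => ?_, h4⟩
        rcases Fin.eq_castSucc_or_eq_last q with ⟨j, hj⟩ | hj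
        · rw [hj] at hq ⊢
          exact h3 j (by simpa using hq)
        · rw [hj]; exact h1
      · exact absurd (key _ (Lex_w b (fun q : Fin n => f q.castSucc)) _ _ hg1 h1)
          (not_lt.mpr h.le)
    · rintro ⟨i, h1, h2⟩
      rcases Fin.eq_castSucc_or_eq_last i with ⟨j, hj⟩ | hj
      · subst hj
        have h3 : f (Fin.last n) = g (Fin.last n) := h1 _ (Fin.castSucc_lt_last j)
        rw [h3]
        refine Nat.add_lt_add_right (hi.2 ⟨j, fun q hq => ?_, h2⟩) _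
        exact h1 _ (by simpa using hq)
      · subst hj
        exact key _ _ _ _ hf1 h2

theorem Lex_w_inj {f g : Fin n → ℕ} (hf : ∀ q, f q < b) (hg : ∀ q, g q < b)
    (h : Lex_w b f = Lex_w b g) : f = g := by
  by_contra hne
  have hne' : (univ.filter (fun q : Fin n => f q ≠ g q)).Nonempty := by
    obtain ⟨q, hq⟩ := Function.ne_iff.1 hne
    exact ⟨q, by simp [hq]⟩
  set i := (univ.filter (fun q : Fin n => f q ≠ g q)).max' hne' with hi
  have h1 : f i ≠ g i := by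
    have := Finset.max'_mem _ hne'
    rw [← hi] at this
    exact (Finset.mem_filter.1 this).2
  have h2 : ∀ q, i < q → f q = g q := by
    intro q hq
    by_contra h3
    have hm : q ∈ univ.filter (fun q : Fin n => f q ≠ g q) := by simp [h3]
    have := Finset.le_max' _ q hm
    exact absurd (lt_of_lt_of_le hq this) (lt_irrefl _)
  rcases lt_or_gt_of_ne h1 with h3 | h3
  · have := (Lex_w_lt_iff f g hf hg).2 ⟨i, h2, h3⟩
    omega
  · have := (Lex_w_lt_iff g f hg hf).2 ⟨i, fun q hq => (h2 q hq).symm, h3⟩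
    omega

theorem Lex_v1 (k : Vec b n) : v1 k = Lex_w b (fun q => (k (Fin.rev q)).val) := by
  unfold v1 Lex_w
  rw [← Equiv.sum_comp Fin.revPerm]
  refine Finset.sum_congr rfl fun q _ => ?_
  rw [Fin.revPerm_apply, Fin.val_rev]
  congr 2
  omega

theorem Lex_v2 (ρ : ℕ → (ZMod b)ˣ) (k : Vec b n) :
    v2 ρ k = Lex_w b (fun q => ((ρ q : ZMod b) * k q).val) := rfl

/-- the value of the corner digits `Y` of the second coordinate -/
def Lex_y (Y : Vec b n) : ℕ := Lex_w b (fun q => (Y q).val)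

theorem v1_lt {b n : ℕ} [NeZero b] (hb : 1 < b) (k : Vec b n) : v1 k < b ^ n := by
  rw [Lex_v1]
  exact Lex_w_lt _ (fun q => ZMod.val_lt _)

theorem v1_inj {b n : ℕ} [NeZero b] (hb : 1 < b) : Function.Injective (v1 : Vec b n → ℕ) := by
  intro k Y h
  rw [Lex_v1, Lex_v1] at h
  have := Lex_w_inj (fun q => ZMod.val_lt _) (fun q => ZMod.val_lt _) h
  funext q
  have h2 := congrFun this (Fin.rev q)
  simp only [Fin.rev_rev] at h2
  exact ZMod.val_injective b h2

theorem v2_lt {b n : ℕ} [NeZero b] (hb : 1 < b) (ρ : ℕ → (ZMod b)ˣ) (k : Vec b n) :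
    v2 ρ k < b ^ n := by
  rw [Lex_v2]
  exact Lex_w_lt _ (fun q => ZMod.val_lt _)

/-- the vector of the third digits -/
def Lex_z (row : ℕ → Vec b n) (σ : ℕ → ZMod b) (pz : ZMod b → ZMod b) (k : Vec b n) : Vec b n :=
  fun t => pz (dot (row t) k + σ t)

theorem Lex_v3 (row : ℕ → Vec b n) (σ : ℕ → ZMod b) (pz : ZMod b → ZMod b) (k : Vec b n) :
    v3 row σ pz k = v1 (Lex_z row σ pz k) := by
  unfold v3 v1 Lex_z
  rw [Finset.sum_range]

theorem v3_lt {b n : ℕ} [NeZero b] (hb : 1 < b) (row : ℕ → Vec b n) (σ : ℕ → ZMod b)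
    (pz : ZMod b → ZMod b) (k : Vec b n) : v3 row σ pz k < b ^ n := by
  rw [Lex_v3]
  exact v1_lt hb _

theorem Lex_y_lt [NeZero b] (Y : Vec b n) : Lex_y Y < b ^ n :=
  Lex_w_lt _ (fun q => ZMod.val_lt _)

theorem Lex_y_inj [NeZero b] : Function.Injective (Lex_y : Vec b n → ℕ) := by
  intro k Y h
  have := Lex_w_inj (fun q => ZMod.val_lt _) (fun q => ZMod.val_lt _) h
  funext q
  exact ZMod.val_injective b (congrFun this q)

theorem Lex_v2_inj [NeZero b] (ρ : ℕ → (ZMod b)ˣ) :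
    Function.Injective (v2 ρ : Vec b n → ℕ) := by
  intro k Y h
  rw [Lex_v2, Lex_v2] at h
  have := Lex_w_inj (fun q => ZMod.val_lt _) (fun q => ZMod.val_lt _) h
  funext q
  have h2 := ZMod.val_injective b (congrFun this q)
  exact (Units.mul_right_inj (ρ q)).1 h2

theorem Lex_ext (Z : Vec b n) (i : Fin n) : extZ Z i = Z i := by
  unfold extZ
  rw [dif_pos i.2]

theorem Lex_v2_lt_iff [NeZero b] (ρ : ℕ → (ZMod b)ˣ) (k Y : Vec b n) :
    v2 ρ k < Lex_y Y ↔ lty ρ k (extZ Y) := by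
  unfold Lex_y
  rw [Lex_v2, Lex_w_lt_iff _ _ (fun q => ZMod.val_lt _) (fun q => ZMod.val_lt _)]
  unfold lty
  constructor
  · rintro ⟨i, h1, h2⟩
    refine ⟨i, fun q hq => ?_, ?_⟩
    · rw [Lex_ext]
      exact ZMod.val_injective b (h1 q hq)
    · rw [Lex_ext]
      exact h2
  · rintro ⟨i, h1, h2⟩
    refine ⟨i, fun q hq => ?_, ?_⟩
    · rw [h1 q hq, Lex_ext]
    · rw [Lex_ext] at h2
      exact h2

theorem Lex_v1_lt_iff [NeZero b] (k X : Vec b n) : v1 k < v1 X ↔ ltx k (extZ X) := by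
  rw [Lex_v1, Lex_v1, Lex_w_lt_iff _ _ (fun q => ZMod.val_lt _) (fun q => ZMod.val_lt _)]
  unfold ltx
  constructor
  · rintro ⟨i, h1, h2⟩
    refine ⟨Fin.rev i, fun q hq => ?_, ?_⟩
    · rw [Lex_ext]
      apply ZMod.val_injective b
      have h3 := h1 (Fin.rev q) (by rw [Fin.lt_rev_iff]; exact hq)
      simpa using h3
    · rw [Lex_ext]
      exact h2
  · rintro ⟨i, h1, h2⟩
    refine ⟨Fin.rev i, fun q hq => ?_, ?_⟩
    · rw [h1 (Fin.rev q) (by rw [Fin.rev_lt_iff]; exact hq), Lex_ext]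
    · rw [Lex_ext] at h2
      simpa using h2

theorem Lex_surj [NeZero b] {v : Vec b n → ℕ} (h1 : ∀ k, v k < b ^ n)
    (h2 : Function.Injective v) {A : ℕ} (hA : A < b ^ n) : ∃ k, v k = A := by
  have h3 : (univ.image v) = range (b ^ n) := by
    apply Finset.eq_of_subset_of_card_le
    · intro x hx
      obtain ⟨k, _, rfl⟩ := Finset.mem_image.1 hx
      exact Finset.mem_range.2 (h1 k)
    · rw [Finset.card_image_of_injective _ h2, Finset.card_range, Finset.card_univ,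
        Fintype.card_fun, ZMod.card, Fintype.card_fin]
  have h4 : A ∈ univ.image v := by rw [h3]; exact Finset.mem_range.2 hA
  obtain ⟨k, _, hk⟩ := Finset.mem_image.1 h4
  exact ⟨k, hk⟩

theorem Lex_fr (hb : 1 < b) (Z : Vec b n) : fr b n (extZ Z) 0 = (v1 Z : ℝ) / (b : ℝ) ^ n := by
  have hb : (b : ℝ) ≠ 0 := by
    have : b ≠ 0 := by omega
    exact_mod_cast this
  unfold fr v1
  rw [Nat.sub_zero, Finset.sum_range]
  push_cast
  rw [Finset.sum_div]
  refine Finset.sum_congr rfl fun q _ => ?_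
  rw [Nat.zero_add, Lex_ext, div_eq_div_iff (by positivity) (by positivity)]
  have h2 : (b : ℝ) ^ n = (b : ℝ) ^ (n - 1 - (q : ℕ)) * (b : ℝ) ^ ((q : ℕ) + 1) := by
    rw [← pow_add]
    congr 1
    omega
  rw [h2]
  ring

theorem Lex_fry (hb : 1 < b) (Y : Vec b n) :
    fr b n (fun s => extZ Y (n - 1 - s)) 0 = (Lex_y Y : ℝ) / (b : ℝ) ^ n := by
  have hb : (b : ℝ) ≠ 0 := by
    have : b ≠ 0 := by omega
    exact_mod_cast this
  unfold fr Lex_y Lex_w
  rw [Nat.sub_zero]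
  push_cast
  rw [Finset.sum_div, ← Finset.sum_range_reflect, Finset.sum_range]
  refine Finset.sum_congr rfl fun q _ => ?_
  have e1 : n - 1 - (0 + (n - 1 - (q : ℕ))) = q := by omega
  rw [e1, Lex_ext, div_eq_div_iff (by positivity) (by positivity)]
  have h2 : (b : ℝ) ^ n = (b : ℝ) ^ (q : ℕ) * (b : ℝ) ^ (n - 1 - (q : ℕ) + 1) := by
    rw [← pow_add]
    congr 1
    omega
  rw [h2]
  ring

open Classical in
/-- the main identity, for corners with all coordinates `< b ^ n` -/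
theorem Lex_main [NeZero b] (hb1 : 1 < b) {row : ℕ → Vec b n} {ρ : ℕ → (ZMod b)ˣ}
    {σ : ℕ → ZMod b} {pz : Equiv.Perm (ZMod b)} {E E2 : ℝ}
    (hE : ∀ X Y Z : Vec b n, |∑ t ∈ range n, TT row ρ σ (fun s => pz.symm (extZ Z s)) (extZ X)
      (extZ Y) t (fun v => GG b n (extZ Z) t (pz v))| ≤ E)
    (hE2 : ∀ X Y : Vec b n, |D2 n ρ (extZ X) (extZ Y)| ≤ E2) (X Y Z : Vec b n) :
    |((univ.filter (fun k : Vec b n => v1 k < v1 X ∧ v2 ρ k < Lex_y Y ∧
        v3 row σ pz k < v1 Z)).card : ℝ)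
      - (v1 X : ℝ) * Lex_y Y * v1 Z / (b : ℝ) ^ (2 * n)| ≤ E + E2 := by
  have hb : (0 : ℝ) < b := by
    have : 0 < b := by omega
    exact_mod_cast this
  -- the indicator of the third condition
  have hind : ∀ k : Vec b n, (if v3 row σ pz k < v1 Z then (1 : ℝ) else 0) =
      fr b n (extZ Z) 0 + ∑ t ∈ range n, if mtch row σ (fun s => pz.symm (extZ Z s)) t k then
        GG b n (extZ Z) t (pz (dot (row t) k + σ t)) else 0 := by
    intro k
    have h1 := Lex_tel (b := b) (n := n) (extZ Z) (fun t => pz (dot (row t) k + σ t))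
    have h2 : v3 row σ pz k < v1 Z ↔ ∃ t < n,
        (∀ s < t, pz (dot (row s) k + σ s) = extZ Z s) ∧
        (pz (dot (row t) k + σ t)).val < (extZ Z t).val := by
      rw [Lex_v3, Lex_v1_lt_iff]
      unfold ltx Lex_z
      constructor
      · rintro ⟨i, h3, h4⟩
        refine ⟨i, i.2, fun s hs => ?_, h4⟩
        exact h3 ⟨s, lt_trans hs i.2⟩ hs
      · rintro ⟨t, ht, h3, h4⟩
        exact ⟨⟨t, ht⟩, fun q hq => h3 q hq, h4⟩
    have h6 : ∑ t ∈ range n, (if mtch row σ (fun s => pz.symm (extZ Z s)) t k then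
        GG b n (extZ Z) t (pz (dot (row t) k + σ t)) else 0) =
        ∑ t ∈ range n, (if ∀ s < t, pz (dot (row s) k + σ s) = extZ Z s then
        GG b n (extZ Z) t (pz (dot (row t) k + σ t)) else 0) := by
      refine Finset.sum_congr rfl fun t _ => ?_
      have h5 : mtch row σ (fun s => pz.symm (extZ Z s)) t k ↔
          ∀ s < t, pz (dot (row s) k + σ s) = extZ Z s := by
        unfold mtch
        constructor
        · intro h s hs
          rw [h s hs, Equiv.apply_symm_apply]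
        · intro h s hs
          change dot (row s) k + σ s = pz.symm (extZ Z s)
          rw [← h s hs, Equiv.symm_apply_apply]
      by_cases h7 : ∀ s < t, pz (dot (row s) k + σ s) = extZ Z s
      · rw [if_pos (h5.2 h7), if_pos h7]
      · rw [if_neg (fun h => h7 (h5.1 h)), if_neg h7]
    rw [h6, ← h1]
    by_cases h7 : v3 row σ pz k < v1 Z
    · rw [if_pos h7, if_pos (h2.1 h7)]
    · rw [if_neg h7, if_neg (fun h => h7 (h2.2 h))]
  -- the count
  have hcount : ((univ.filter (fun k : Vec b n => v1 k < v1 X ∧ v2 ρ k < Lex_y Y ∧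
      v3 row σ pz k < v1 Z)).card : ℝ) =
      fr b n (extZ Z) 0 *
        ((univ.filter (fun k : Vec b n => ltx k (extZ X) ∧ lty ρ k (extZ Y))).card : ℝ) +
      ∑ t ∈ range n, TT row ρ σ (fun s => pz.symm (extZ Z s)) (extZ X)
        (extZ Y) t (fun v => GG b n (extZ Z) t (pz v)) := by
    have h1 : ((univ.filter (fun k : Vec b n => v1 k < v1 X ∧ v2 ρ k < Lex_y Y ∧
        v3 row σ pz k < v1 Z)).card : ℝ) = ∑ k : Vec b n,
        (if ltx k (extZ X) ∧ lty ρ k (extZ Y) then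
        (if v3 row σ pz k < v1 Z then (1 : ℝ) else 0) else 0) := by
      rw [Finset.card_filter]
      push_cast
      refine Finset.sum_congr rfl fun k _ => ?_
      rw [← Lex_v1_lt_iff, ← Lex_v2_lt_iff]
      by_cases h1 : v1 k < v1 X <;> by_cases h2 : v2 ρ k < Lex_y Y <;>
        by_cases h3 : v3 row σ pz k < v1 Z <;> simp [h1, h2, h3]
    have h2 : ((univ.filter (fun k : Vec b n => ltx k (extZ X) ∧ lty ρ k (extZ Y))).card : ℝ) =
        ∑ k : Vec b n, (if ltx k (extZ X) ∧ lty ρ k (extZ Y) then (1 : ℝ) else 0) := by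
      rw [Finset.card_filter]
      push_cast
      rfl
    have h3 : ∑ t ∈ range n, TT row ρ σ (fun s => pz.symm (extZ Z s)) (extZ X)
        (extZ Y) t (fun v => GG b n (extZ Z) t (pz v)) =
        ∑ k : Vec b n, (if ltx k (extZ X) ∧ lty ρ k (extZ Y) then
          (∑ t ∈ range n, if mtch row σ (fun s => pz.symm (extZ Z s)) t k then
            GG b n (extZ Z) t (pz (dot (row t) k + σ t)) else 0) else 0) := by
      unfold TT
      rw [Finset.sum_comm]
      refine Finset.sum_congr rfl fun k _ => ?_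
      by_cases h4 : ltx k (extZ X) ∧ lty ρ k (extZ Y)
      · rw [if_pos h4]
        refine Finset.sum_congr rfl fun t _ => ?_
        by_cases h5 : mtch row σ (fun s => pz.symm (extZ Z s)) t k
        · rw [if_pos ⟨h5, h4⟩, if_pos h5]
        · rw [if_neg (fun h => h5 h.1), if_neg h5]
      · rw [if_neg h4]
        exact Finset.sum_eq_zero fun t _ => if_neg (fun h => h4 h.2)
    rw [h1, h2, h3, Finset.mul_sum, ← Finset.sum_add_distrib]
    refine Finset.sum_congr rfl fun k _ => ?_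
    by_cases h4 : ltx k (extZ X) ∧ lty ρ k (extZ Y)
    · rw [if_pos h4, if_pos h4, if_pos h4, hind k, mul_one]
    · rw [if_neg h4, if_neg h4, if_neg h4, mul_zero, add_zero]
  have hfr0 := Lex_fr_nonneg (b := b) (n := n) (extZ Z) 0
  have hfr1 := Lex_fr_le_one (b := b) (n := n) hb1 (extZ Z) 0
  have hham := hE2 X Y
  unfold D2 at hham
  rw [Lex_fr hb1 X, Lex_fry hb1 Y] at hham
  have hvol : (v1 X : ℝ) * Lex_y Y * v1 Z / (b : ℝ) ^ (2 * n) =
      fr b n (extZ Z) 0 *
        ((b : ℝ) ^ n * ((v1 X : ℝ) / (b : ℝ) ^ n) * ((Lex_y Y : ℝ) / (b : ℝ) ^ n)) := by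
    rw [Lex_fr hb1, two_mul, pow_add]
    field_simp
  rw [hcount, hvol]
  set H := ((univ.filter (fun k : Vec b n => ltx k (extZ X) ∧ lty ρ k (extZ Y))).card : ℝ) with hH
  set T := ∑ t ∈ range n, TT row ρ σ (fun s => pz.symm (extZ Z s)) (extZ X)
        (extZ Y) t (fun v => GG b n (extZ Z) t (pz v)) with hT
  set V := (b : ℝ) ^ n * ((v1 X : ℝ) / (b : ℝ) ^ n) * ((Lex_y Y : ℝ) / (b : ℝ) ^ n) with hV
  have h5 : fr b n (extZ Z) 0 * H + T - fr b n (extZ Z) 0 * V
      = T + fr b n (extZ Z) 0 * (H - V) := by ring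
  rw [h5]
  refine (abs_add_le _ _).trans (add_le_add (hE X Y Z) ?_)
  rw [abs_mul, abs_of_nonneg hfr0]
  have hE20 : 0 ≤ E2 := (abs_nonneg _).trans hham
  calc fr b n (extZ Z) 0 * |H - V|
      ≤ 1 * E2 := mul_le_mul hfr1 hham (abs_nonneg _) zero_le_one
    _ = E2 := one_mul _

/-- the discrepancy function of an integer corner -/
noncomputable def Lex_D [NeZero b] (row : ℕ → Vec b n) (ρ : ℕ → (ZMod b)ˣ) (σ : ℕ → ZMod b)
    (pz : ZMod b → ZMod b) (A1 A2 A3 : ℕ) : ℝ :=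
  ((univ.filter (fun k : Vec b n => v1 k < A1 ∧ v2 ρ k < A2 ∧ v3 row σ pz k < A3)).card : ℝ)
      - (A1 : ℝ) * A2 * A3 / (b : ℝ) ^ (2 * n)

theorem Lex_vol (hb1 : 1 < b) {A B : ℕ} (hA : A ≤ b ^ n) (hB : B ≤ b ^ n) :
    0 ≤ (A : ℝ) * B / (b : ℝ) ^ (2 * n) ∧ (A : ℝ) * B / (b : ℝ) ^ (2 * n) ≤ 1 := by
  have hb : (0 : ℝ) < b := by
    have : 0 < b := by omega
    exact_mod_cast this
  have hA' : (A : ℝ) ≤ (b : ℝ) ^ n := by exact_mod_cast hA
  have hB' : (B : ℝ) ≤ (b : ℝ) ^ n := by exact_mod_cast hB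
  refine ⟨by positivity, ?_⟩
  rw [div_le_one (by positivity), two_mul, pow_add]
  exact mul_le_mul hA' hB' (by positivity) (by positivity)

/-- raising the first coordinate by one changes the discrepancy by at most one -/
theorem Lex_D_succ1 [NeZero b] (hb1 : 1 < b) (row : ℕ → Vec b n) (ρ : ℕ → (ZMod b)ˣ)
    (σ : ℕ → ZMod b) (pz : ZMod b → ZMod b) {A1 A2 A3 : ℕ}
    (h2 : A2 ≤ b ^ n) (h3 : A3 ≤ b ^ n) :
    |Lex_D row ρ σ pz (A1 + 1) A2 A3 - Lex_D row ρ σ pz A1 A2 A3| ≤ 1 := by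
  unfold Lex_D
  have hsub : (univ.filter (fun k : Vec b n => v1 k < A1 ∧ v2 ρ k < A2 ∧
      v3 row σ pz k < A3)) ⊆
      (univ.filter (fun k : Vec b n => v1 k < A1 + 1 ∧ v2 ρ k < A2 ∧ v3 row σ pz k < A3)) := by
    intro k hk
    rw [Finset.mem_filter] at hk ⊢
    exact ⟨hk.1, Nat.lt_succ_of_lt hk.2.1, hk.2.2⟩
  have hle := Finset.card_le_card hsub
  have hge : (univ.filter (fun k : Vec b n => v1 k < A1 + 1 ∧ v2 ρ k < A2 ∧
      v3 row σ pz k < A3)).card ≤
      (univ.filter (fun k : Vec b n => v1 k < A1 ∧ v2 ρ k < A2 ∧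
        v3 row σ pz k < A3)).card + 1 := by
    have h4 : (univ.filter (fun k : Vec b n => v1 k < A1 + 1 ∧ v2 ρ k < A2 ∧
        v3 row σ pz k < A3)) ⊆
        (univ.filter (fun k : Vec b n => v1 k < A1 ∧ v2 ρ k < A2 ∧ v3 row σ pz k < A3)) ∪
        (univ.filter (fun k : Vec b n => v1 k = A1)) := by
      intro k hk
      rw [Finset.mem_filter] at hk
      rw [Finset.mem_union, Finset.mem_filter, Finset.mem_filter]
      rcases Nat.lt_succ_iff_lt_or_eq.1 hk.2.1 with h5 | h5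
      · exact Or.inl ⟨hk.1, h5, hk.2.2⟩
      · exact Or.inr ⟨hk.1, h5⟩
    refine (Finset.card_le_card h4).trans ((Finset.card_union_le _ _).trans ?_)
    refine Nat.add_le_add_left (Finset.card_le_one.2 fun x hx y hy => ?_) _
    rw [Finset.mem_filter] at hx hy
    exact v1_inj hb1 (hx.2.trans hy.2.symm)
  have hv := Lex_vol (n := n) hb1 h2 h3
  have hle' : ((univ.filter (fun k : Vec b n => v1 k < A1 ∧ v2 ρ k < A2 ∧
      v3 row σ pz k < A3)).card : ℝ) ≤ ((univ.filter (fun k : Vec b n => v1 k < A1 + 1 ∧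
      v2 ρ k < A2 ∧ v3 row σ pz k < A3)).card : ℝ) := by exact_mod_cast hle
  have hge' : ((univ.filter (fun k : Vec b n => v1 k < A1 + 1 ∧ v2 ρ k < A2 ∧
      v3 row σ pz k < A3)).card : ℝ) ≤ ((univ.filter (fun k : Vec b n => v1 k < A1 ∧
      v2 ρ k < A2 ∧ v3 row σ pz k < A3)).card : ℝ) + 1 := by exact_mod_cast hge
  have h6 : ((A1 + 1 : ℕ) : ℝ) * A2 * A3 / (b : ℝ) ^ (2 * n) =
      (A1 : ℝ) * A2 * A3 / (b : ℝ) ^ (2 * n) + (A2 : ℝ) * A3 / (b : ℝ) ^ (2 * n) := by
    push_cast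
    ring
  rw [h6, abs_le]
  constructor <;> linarith [hv.1, hv.2]

/-- raising the second coordinate by one changes the discrepancy by at most one -/
theorem Lex_D_succ2 [NeZero b] (hb1 : 1 < b) (row : ℕ → Vec b n) (ρ : ℕ → (ZMod b)ˣ)
    (σ : ℕ → ZMod b) (pz : ZMod b → ZMod b) {A1 A2 A3 : ℕ}
    (h1 : A1 ≤ b ^ n) (h3 : A3 ≤ b ^ n) :
    |Lex_D row ρ σ pz A1 (A2 + 1) A3 - Lex_D row ρ σ pz A1 A2 A3| ≤ 1 := by
  unfold Lex_D
  have hsub : (univ.filter (fun k : Vec b n => v1 k < A1 ∧ v2 ρ k < A2 ∧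
      v3 row σ pz k < A3)) ⊆
      (univ.filter (fun k : Vec b n => v1 k < A1 ∧ v2 ρ k < A2 + 1 ∧ v3 row σ pz k < A3)) := by
    intro k hk
    rw [Finset.mem_filter] at hk ⊢
    exact ⟨hk.1, hk.2.1, Nat.lt_succ_of_lt hk.2.2.1, hk.2.2.2⟩
  have hle := Finset.card_le_card hsub
  have hge : (univ.filter (fun k : Vec b n => v1 k < A1 ∧ v2 ρ k < A2 + 1 ∧
      v3 row σ pz k < A3)).card ≤
      (univ.filter (fun k : Vec b n => v1 k < A1 ∧ v2 ρ k < A2 ∧
        v3 row σ pz k < A3)).card + 1 := by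
    have h4 : (univ.filter (fun k : Vec b n => v1 k < A1 ∧ v2 ρ k < A2 + 1 ∧
        v3 row σ pz k < A3)) ⊆
        (univ.filter (fun k : Vec b n => v1 k < A1 ∧ v2 ρ k < A2 ∧ v3 row σ pz k < A3)) ∪
        (univ.filter (fun k : Vec b n => v2 ρ k = A2)) := by
      intro k hk
      rw [Finset.mem_filter] at hk
      rw [Finset.mem_union, Finset.mem_filter, Finset.mem_filter]
      rcases Nat.lt_succ_iff_lt_or_eq.1 hk.2.2.1 with h5 | h5
      · exact Or.inl ⟨hk.1, hk.2.1, h5, hk.2.2.2⟩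
      · exact Or.inr ⟨hk.1, h5⟩
    refine (Finset.card_le_card h4).trans ((Finset.card_union_le _ _).trans ?_)
    refine Nat.add_le_add_left (Finset.card_le_one.2 fun x hx y hy => ?_) _
    rw [Finset.mem_filter] at hx hy
    exact Lex_v2_inj ρ (hx.2.trans hy.2.symm)
  have hv := Lex_vol (n := n) hb1 h1 h3
  have hle' : ((univ.filter (fun k : Vec b n => v1 k < A1 ∧ v2 ρ k < A2 ∧
      v3 row σ pz k < A3)).card : ℝ) ≤ ((univ.filter (fun k : Vec b n => v1 k < A1 ∧
      v2 ρ k < A2 + 1 ∧ v3 row σ pz k < A3)).card : ℝ) := by exact_mod_cast hle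
  have hge' : ((univ.filter (fun k : Vec b n => v1 k < A1 ∧ v2 ρ k < A2 + 1 ∧
      v3 row σ pz k < A3)).card : ℝ) ≤ ((univ.filter (fun k : Vec b n => v1 k < A1 ∧
      v2 ρ k < A2 ∧ v3 row σ pz k < A3)).card : ℝ) + 1 := by exact_mod_cast hge
  have h6 : (A1 : ℝ) * ((A2 + 1 : ℕ) : ℝ) * A3 / (b : ℝ) ^ (2 * n) =
      (A1 : ℝ) * A2 * A3 / (b : ℝ) ^ (2 * n) + (A1 : ℝ) * A3 / (b : ℝ) ^ (2 * n) := by
    push_cast
    ring
  rw [h6, abs_le]
  constructor <;> linarith [hv.1, hv.2]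

/-- first two coordinates smaller than `b ^ n` -/
theorem Lex_two [NeZero b] (hb1 : 1 < b) {row : ℕ → Vec b n} {ρ : ℕ → (ZMod b)ˣ}
    {σ : ℕ → ZMod b} {pz : Equiv.Perm (ZMod b)} {E E2 : ℝ}
    (hE : ∀ X Y Z : Vec b n, |∑ t ∈ range n, TT row ρ σ (fun s => pz.symm (extZ Z s)) (extZ X)
      (extZ Y) t (fun v => GG b n (extZ Z) t (pz v))| ≤ E)
    (hE2 : ∀ X Y : Vec b n, |D2 n ρ (extZ X) (extZ Y)| ≤ E2)
    {A1 A2 A3 : ℕ} (h1 : A1 < b ^ n) (h2 : A2 < b ^ n) (h3 : A3 ≤ b ^ n) :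
    |Lex_D row ρ σ pz A1 A2 A3| ≤ E + E2 := by
  have hb : (0 : ℝ) < b := by
    have : 0 < b := by omega
    exact_mod_cast this
  obtain ⟨X, hX⟩ := Lex_surj (v := v1 (b := b) (n := n)) (fun k => v1_lt hb1 k) (v1_inj hb1) h1
  obtain ⟨Y, hY⟩ := Lex_surj (v := Lex_y (b := b) (n := n)) (fun k => Lex_y_lt k) Lex_y_inj h2
  subst hX hY
  rcases h3.lt_or_eq with h3 | h3
  · obtain ⟨Z, hZ⟩ := Lex_surj (v := v1 (b := b) (n := n)) (fun k => v1_lt hb1 k)
      (v1_inj hb1) h3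
    subst hZ
    exact Lex_main hb1 hE hE2 X Y Z
  · have hK0 : 0 ≤ E := (abs_nonneg _).trans (hE X Y X)
    classical
    have h4 := hE2 X Y
    unfold D2 at h4
    rw [Lex_fr hb1 X, Lex_fry hb1 Y] at h4
    unfold Lex_D
    have h5 : (univ.filter (fun k : Vec b n => v1 k < v1 X ∧ v2 ρ k < Lex_y Y ∧
        v3 row σ pz k < A3)) =
        (univ.filter (fun k : Vec b n => ltx k (extZ X) ∧ lty ρ k (extZ Y))) := by
      refine Finset.filter_congr fun k _ => ?_
      rw [← Lex_v1_lt_iff, ← Lex_v2_lt_iff, h3]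
      have := v3_lt hb1 row σ pz k
      tauto
    rw [h5, h3]
    have h6 : (v1 X : ℝ) * (Lex_y Y : ℝ) * ((b ^ n : ℕ) : ℝ) / (b : ℝ) ^ (2 * n) =
        (b : ℝ) ^ n * ((v1 X : ℝ) / (b : ℝ) ^ n) * ((Lex_y Y : ℝ) / (b : ℝ) ^ n) := by
      push_cast
      rw [two_mul, pow_add]
      field_simp
    rw [h6]
    linarith

/-- from the sums `T_t` and `D_2` to the discrepancy of the point set -/
theorem tel {b n : ℕ} [NeZero b] (hb : 1 < b) (hn : 0 < n) (row : ℕ → Vec b n)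
    (ρ : ℕ → (ZMod b)ˣ) (σ : ℕ → ZMod b) (pz : Equiv.Perm (ZMod b)) (E E2 : ℝ)
    (hE : ∀ X Y Z : Vec b n, |∑ t ∈ range n, TT row ρ σ (fun s => pz.symm (extZ Z s)) (extZ X)
      (extZ Y) t (fun v => GG b n (extZ Z) t (pz v))| ≤ E)
    (hE2 : ∀ X Y : Vec b n, |D2 n ρ (extZ X) (extZ Y)| ≤ E2) (B : Fin 3 → ℕ)
    (hB : ∀ s, B s ≤ b ^ n) :
    |((univ.filter fun k : Vec b n =>
        ∀ s, (![v1 k, v2 ρ k, v3 row σ pz k] : Fin 3 → ℕ) s < B s).card : ℝ) -
      ((b ^ n : ℕ) : ℝ) * ∏ s, ((B s : ℝ) / ((b ^ n : ℕ) : ℝ))| ≤ E + E2 + 6 := by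
  have hpos : 0 < b ^ n := pow_pos (by omega) n
  have hb0 : (0 : ℝ) < b := by
    have : 0 < b := by omega
    exact_mod_cast this
  -- lower the first two coordinates if necessary
  have hstep : ∀ A, A ≤ b ^ n → ∃ A', A' < b ^ n ∧ (A = A' ∨ A = A' + 1) := by
    intro A hA
    rcases hA.lt_or_eq with h | h
    · exact ⟨A, h, Or.inl rfl⟩
    · exact ⟨b ^ n - 1, by omega, Or.inr (by omega)⟩
  obtain ⟨B1, hB1, e1⟩ := hstep (B 0) (hB 0)
  obtain ⟨B2, hB2, e2⟩ := hstep (B 1) (hB 1)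
  have hmain := Lex_two hb hE hE2 hB1 hB2 (hB 2)
  have d2 : |Lex_D row ρ σ pz B1 (B 1) (B 2) - Lex_D row ρ σ pz B1 B2 (B 2)| ≤ 1 := by
    rcases e2 with e2 | e2
    · rw [e2, sub_self, abs_zero]; exact zero_le_one
    · rw [e2]; exact Lex_D_succ2 hb row ρ σ pz hB1.le (hB 2)
  have d1 : |Lex_D row ρ σ pz (B 0) (B 1) (B 2) - Lex_D row ρ σ pz B1 (B 1) (B 2)| ≤ 1 := by
    rcases e1 with e1 | e1
    · rw [e1, sub_self, abs_zero]; exact zero_le_one
    · rw [e1]; exact Lex_D_succ1 hb row ρ σ pz (hB 1) (hB 2)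
  have hfin : ((univ.filter fun k : Vec b n =>
        ∀ s, (![v1 k, v2 ρ k, v3 row σ pz k] : Fin 3 → ℕ) s < B s).card : ℝ) -
      ((b ^ n : ℕ) : ℝ) * ∏ s, ((B s : ℝ) / ((b ^ n : ℕ) : ℝ)) =
      Lex_D row ρ σ pz (B 0) (B 1) (B 2) := by
    unfold Lex_D
    have h5 : (univ.filter fun k : Vec b n =>
        ∀ s, (![v1 k, v2 ρ k, v3 row σ pz k] : Fin 3 → ℕ) s < B s) =
        (univ.filter (fun k : Vec b n => v1 k < B 0 ∧ v2 ρ k < B 1 ∧
          v3 row σ pz k < B 2)) := by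
      refine Finset.filter_congr fun k _ => ?_
      constructor
      · intro h
        exact ⟨h 0, h 1, h 2⟩
      · rintro ⟨h1, h2, h3⟩ s
        fin_cases s
        · exact h1
        · exact h2
        · exact h3
    rw [h5, Fin.prod_univ_three]
    congr 1
    push_cast
    rw [two_mul, pow_add]
    field_simp
  rw [hfin]
  rw [abs_le] at *
  constructor <;> linarith [hmain.1, hmain.2, d1.1, d1.2, d2.1, d2.2]

end DiscPS
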