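import Pool.Agent.Work.DiscPS.Net
import Pool.Agent.Work.DiscPS.Lex
import Pool.Agent.Work.DiscPS.Conc

/-!
# P4: union bound, one table and one shift for all corners
-/

namespace DiscPS

open Finset

lemma uni_om_congr {b : ℕ} {κ : ℕ → ℕ → (ZMod b)ˣ} {X Y Z V0 V0' : ℕ → ZMod b} (t : ℕ)
    (h : ∀ s < t, V0 s = V0' s) : om κ X Y Z V0 t = om κ X Y Z V0' t := by
  induction t with
  | zero => funext i; rw [om, om]
  | succ t ih =>
    have ih' := ih fun s hs => h s (by omega)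
    funext i
    rw [om, om, ih', h t (by omega)]

lemma uni_VV_congr {b : ℕ} {κ : ℕ → ℕ → (ZMod b)ˣ} {X Y Z V0 V0' : ℕ → ZMod b} (t i : ℕ)
    (h : ∀ s ≤ t, V0 s = V0' s) : VV κ X Y Z V0 t i = VV κ X Y Z V0' t i := by
  rw [VV, VV, uni_om_congr t fun s hs => h s hs.le, h t le_rfl]

lemma uni_SS_congr {b n : ℕ} {κ : ℕ → ℕ → (ZMod b)ˣ} {X Y Z V0 V0' : ℕ → ZMod b}
    {G : ℕ → ZMod b → ℝ} (h : ∀ s < n, V0 s = V0' s) :
    SS n κ X Y Z V0 G = SS n κ X Y Z V0' G := by
  unfold SS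
  apply sum_congr rfl
  intro t ht
  rw [mem_range] at ht
  have e1 : ∀ i, VV κ X Y Z V0 t i = VV κ X Y Z V0' t i := fun i =>
    uni_VV_congr t i fun s hs => h s (by omega)
  have e2 : om κ X Y Z V0 t = om κ X Y Z V0' t := uni_om_congr t fun s hs => h s (by omega)
  simp only [e1, e2]

lemma uni_extZ_lt {b n : ℕ} (Z : Vec b n) (i : Fin n) : extZ Z i = Z i := by
  unfold extZ
  rw [dif_pos i.2]

lemma uni_inj {b n : ℕ} (W : ℕ → (ℕ → ZMod b) → ZMod b)
    (hW : ∀ t σ σ', (∀ s < t, σ s = σ' s) → W t σ = W t σ') :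
    Function.Injective (fun (σ : Vec b n) (i : Fin n) => σ i + W i (extZ σ)) := by
  intro σ σ' h
  have key : ∀ (k : ℕ) (hk : k < n), σ ⟨k, hk⟩ = σ' ⟨k, hk⟩ := by
    intro k
    induction k using Nat.strong_induction_on with
    | _ k ih =>
      intro hk
      have h1 := congrFun h ⟨k, hk⟩
      simp only at h1
      have h2 : W k (extZ σ) = W k (extZ σ') := by
        apply hW
        intro s hs
        have hs' : s < n := by omega
        have e1 := uni_extZ_lt σ ⟨s, hs'⟩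
        have e2 := uni_extZ_lt σ' ⟨s, hs'⟩
        simp only at e1 e2
        rw [e1, e2]
        exact ih s hs hs'
      rw [h2] at h1
      exact add_right_cancel h1
  funext i
  exact key i.1 i.2

/-- union bound: one table and one shift for all corners -/
theorem uni {b n : ℕ} [NeZero b] (hb : 1 < b) {B B1 E : ℝ} {G0 : Finset (ZMod b)ˣ}
    {Lev : (ZMod b → ℝ) → Prop} (hC : Cells B B1 E G0 Lev) (pz : Equiv.Perm (ZMod b))
    (hpz : ∀ (Z : ℕ → ZMod b) (t : ℕ), t < n → Lev (fun v => GG b n Z t (pz v)))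
    {s lam : ℝ} (hs : 0 < s) (hsB : s * (2 * B) ≤ 1)
    (h : 8 * Real.exp (-(s * lam) + ((n : ℝ) + 1) ^ 2 * (s ^ 2 * (B * B1))) *
      (b : ℝ) ^ (3 * n) < 1) :
    ∃ (ρ : ℕ → (ZMod b)ˣ) (row : ℕ → Vec b n) (σ : ℕ → ZMod b), (∀ i < n, ρ i ∈ G0) ∧
      ∀ X Y Z : Vec b n, |∑ t ∈ range n, TT row ρ σ (fun s => pz.symm (extZ Z s)) (extZ X)
        (extZ Y) t (fun v => GG b n (extZ Z) t (pz v))| ≤
          4 * n * B + 2 * (n : ℝ) ^ 2 * E + 4 * lam + 2 * (n : ℝ) ^ 2 := by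
  classical
  have hne : Nonempty {x // x ∈ G0} := by
    obtain ⟨x, hx⟩ := hC.ne
    exact ⟨⟨x, hx⟩⟩
  let 𝒦 := Fin (n + 1) → Fin (n + 1) → {x // x ∈ G0}
  let tab : 𝒦 → ℕ → ℕ → (ZMod b)ˣ := fun κ => extT n 1 fun t i => (κ t i : (ZMod b)ˣ)
  choose row hrow using fun κ : 𝒦 => net (n := n) hb (tab κ)
  choose W hW1 hW2 using hrow
  set q : ℝ := 8 * Real.exp (-(s * lam) + ((n : ℝ) + 1) ^ 2 * (s ^ 2 * (B * B1))) with hq
  have hq0 : 0 ≤ q := by positivity
  let Zp : Vec b n → ℕ → ZMod b := fun Z s => pz.symm (extZ Z s)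
  let GZ : Vec b n → ℕ → ZMod b → ℝ := fun Z t v => GG b n (extZ Z) t (pz v)
  let bnd : ℝ := 4 * n * B + 2 * (n : ℝ) ^ 2 * E + 4 * lam
  -- badness with a free shift
  let bad' : (Vec b n × Vec b n × Vec b n) → 𝒦 → Vec b n → Prop := fun c κ v =>
    bnd < |SS n (tab κ) (extZ c.1) (extZ c.2.1) (Zp c.2.2) (extZ v) (GZ c.2.2)|
  let Φ : (Vec b n × Vec b n × Vec b n) → 𝒦 → Vec b n → Vec b n := fun c κ σ i =>
    σ i + W κ (extZ c.1) (extZ c.2.1) (Zp c.2.2) i (extZ σ)
  have hΦ : ∀ c κ, Function.Injective (Φ c κ) := fun c κ =>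
    uni_inj (W κ (extZ c.1) (extZ c.2.1) (Zp c.2.2)) (hW1 κ _ _ _)
  have hcard : Fintype.card (Vec b n) = b ^ n := by
    rw [Fintype.card_fun, ZMod.card, Fintype.card_fin]
  -- the number of bad pairs for one corner
  have hone : ∀ c, (((univ : Finset (𝒦 × Vec b n)).filter
      fun p => bad' c p.1 (Φ c p.1 p.2)).card : ℝ) ≤ q * Fintype.card 𝒦 * (b : ℝ) ^ n := by
    intro c
    have h1 : ((univ : Finset (𝒦 × Vec b n)).filter fun p => bad' c p.1 (Φ c p.1 p.2)).card ≤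
        ((univ : Finset (𝒦 × Vec b n)).filter fun p => bad' c p.1 p.2).card := by
      apply card_le_card_of_injOn (fun p => (p.1, Φ c p.1 p.2))
      · intro p hp
        rw [mem_coe, mem_filter] at hp
        rw [mem_coe, mem_filter]
        exact ⟨mem_univ _, hp.2⟩
      · rintro ⟨κ, σ⟩ _ ⟨κ', σ'⟩ _ he
        simp only [Prod.mk.injEq] at he
        obtain ⟨rfl, he2⟩ := he
        rw [hΦ c κ he2]
    have h2 : ((univ : Finset (𝒦 × Vec b n)).filter fun p => bad' c p.1 p.2).card =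
        ∑ v : Vec b n, ((univ : Finset 𝒦).filter fun κ => bad' c κ v).card := by
      rw [card_filter, ← univ_product_univ, sum_product_right]
      apply sum_congr rfl
      intro v _
      rw [card_filter]
    have h3 : ∀ v : Vec b n, (((univ : Finset 𝒦).filter fun κ => bad' c κ v).card : ℝ) ≤
        q * Fintype.card 𝒦 := by
      intro v
      exact conc hC n (extZ c.1) (extZ c.2.1) (Zp c.2.2) (extZ v) (GZ c.2.2)
        (fun t ht => hpz (extZ c.2.2) t ht) hs hsB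
    calc (((univ : Finset (𝒦 × Vec b n)).filter
        fun p => bad' c p.1 (Φ c p.1 p.2)).card : ℝ)
        ≤ (((univ : Finset (𝒦 × Vec b n)).filter fun p => bad' c p.1 p.2).card : ℝ) := by
          exact_mod_cast h1
      _ = ∑ v : Vec b n, (((univ : Finset 𝒦).filter fun κ => bad' c κ v).card : ℝ) := by
          rw [h2]; push_cast; rfl
      _ ≤ ∑ _v : Vec b n, q * Fintype.card 𝒦 := sum_le_sum fun v _ => h3 v
      _ = q * Fintype.card 𝒦 * (b : ℝ) ^ n := by
          rw [sum_const, card_univ, hcard, nsmul_eq_mul]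
          push_cast
          ring
  -- a good pair
  obtain ⟨κ, σ, hgood⟩ : ∃ (κ : 𝒦) (σ : Vec b n), ∀ c, ¬ bad' c κ (Φ c κ σ) := by
    by_contra hcon
    push Not at hcon
    have h1 : (univ : Finset (𝒦 × Vec b n)) ⊆
        (univ : Finset (Vec b n × Vec b n × Vec b n)).biUnion fun c =>
          (univ : Finset (𝒦 × Vec b n)).filter fun p => bad' c p.1 (Φ c p.1 p.2) := by
      intro p _
      obtain ⟨c, hc⟩ := hcon p.1 p.2
      rw [mem_biUnion]
      exact ⟨c, mem_univ _, by rw [mem_filter]; exact ⟨mem_univ _, hc⟩⟩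
    have h2 := (card_le_card h1).trans card_biUnion_le
    have h3 : (Fintype.card (𝒦 × Vec b n) : ℝ) ≤
        ∑ _c : Vec b n × Vec b n × Vec b n, q * Fintype.card 𝒦 * (b : ℝ) ^ n := by
      refine le_trans ?_ (sum_le_sum fun c _ => hone c)
      rw [← card_univ]
      exact_mod_cast h2
    rw [sum_const, card_univ, nsmul_eq_mul, Fintype.card_prod, Fintype.card_prod,
      Fintype.card_prod, hcard] at h3
    have hK : (0 : ℝ) < Fintype.card 𝒦 := by exact_mod_cast Fintype.card_pos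
    have hbn : (0 : ℝ) < (b : ℝ) ^ n := by
      have : (0 : ℝ) < b := by exact_mod_cast (by omega : 0 < b)
      positivity
    have h4 : (Fintype.card 𝒦 : ℝ) * (b : ℝ) ^ n * 1 ≤
        (Fintype.card 𝒦 : ℝ) * (b : ℝ) ^ n * (q * (b : ℝ) ^ (3 * n)) := by
      calc (Fintype.card 𝒦 : ℝ) * (b : ℝ) ^ n * 1 =
            ((Fintype.card 𝒦 * b ^ n : ℕ) : ℝ) := by push_cast; ring
        _ ≤ _ := h3
        _ = (Fintype.card 𝒦 : ℝ) * (b : ℝ) ^ n * (q * (b : ℝ) ^ (3 * n)) := by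
          push_cast
          ring
    have h5 := le_of_mul_le_mul_left h4 (by positivity)
    linarith
  refine ⟨tab κ 0, row κ, extZ σ, fun i hi => ?_, fun X Y Z => ?_⟩
  · show extT n 1 (fun t i => (κ t i : (ZMod b)ˣ)) 0 i ∈ G0
    unfold extT
    rw [dif_pos ⟨by omega, by omega⟩]
    exact (κ _ _).2
  · have hg : |SS n (tab κ) (extZ X) (extZ Y) (Zp Z) (extZ (Φ (X, Y, Z) κ σ)) (GZ Z)| ≤ bnd :=
      not_lt.mp (hgood (X, Y, Z))
    have hV : SS n (tab κ) (extZ X) (extZ Y) (Zp Z) (extZ (Φ (X, Y, Z) κ σ)) (GZ Z) =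
        SS n (tab κ) (extZ X) (extZ Y) (Zp Z)
          (fun s => extZ σ s + W κ (extZ X) (extZ Y) (Zp Z) s (extZ σ)) (GZ Z) := by
      apply uni_SS_congr
      intro u hu
      have e1 := uni_extZ_lt (Φ (X, Y, Z) κ σ) ⟨u, hu⟩
      have e2 := uni_extZ_lt σ ⟨u, hu⟩
      simp only at e1 e2
      rw [e1, e2]
    rw [hV] at hg
    have hstep : ∀ t ∈ range n,
        |TT (row κ) (tab κ 0) (extZ σ) (Zp Z) (extZ X) (extZ Y) t (GZ Z t) -
          (∑ i ∈ range (n - 1 - t), F2 (GZ Z t)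
              (VV (tab κ) (extZ X) (extZ Y) (Zp Z)
                (fun s => extZ σ s + W κ (extZ X) (extZ Y) (Zp Z) s (extZ σ)) t i)
              (om (tab κ) (extZ X) (extZ Y) (Zp Z)
                (fun s => extZ σ s + W κ (extZ X) (extZ Y) (Zp Z) s (extZ σ)) t i)
              (extZ X i) (extZ Y (i + t + 1)) (At (tab κ) t i) (tab κ (t + 1) i) +
            ∑ i ∈ range (n - t), F3 (GZ Z t)
              (VV (tab κ) (extZ X) (extZ Y) (Zp Z)
                (fun s => extZ σ s + W κ (extZ X) (extZ Y) (Zp Z) s (extZ σ)) t i)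
              (om (tab κ) (extZ X) (extZ Y) (Zp Z)
                (fun s => extZ σ s + W κ (extZ X) (extZ Y) (Zp Z) s (extZ σ)) t i)
              (extZ X i) (extZ Y (i + t)) (At (tab κ) t i) (tab κ t i))| ≤ (n : ℝ) + 1 := by
      intro t ht
      rw [mem_range] at ht
      have hz : ∑ x, GZ Z t x = 0 := by
        have := GG_sum hb (extZ Z) ht
        rw [← this]
        exact Equiv.sum_comp pz (fun v => GG b n (extZ Z) t v)
      have ha : ∀ x, |GZ Z t x| ≤ 1 := fun x => GG_abs hb (extZ Z) t (pz x)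
      have h1 := hW2 κ (extZ X) (extZ Y) (Zp Z) (extZ σ) t ht (GZ Z t) hz ha
      refine h1.trans ?_
      have : (0 : ℝ) ≤ t := Nat.cast_nonneg t
      linarith
    have hsum : |∑ t ∈ range n, TT (row κ) (tab κ 0) (extZ σ) (Zp Z) (extZ X) (extZ Y) t
          (GZ Z t) -
        SS n (tab κ) (extZ X) (extZ Y) (Zp Z)
          (fun s => extZ σ s + W κ (extZ X) (extZ Y) (Zp Z) s (extZ σ)) (GZ Z)| ≤
        (n : ℝ) * (n + 1) := by
      unfold SS
      rw [← sum_sub_distrib]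
      refine (abs_sum_le_sum_abs _ _).trans ?_
      refine (sum_le_sum hstep).trans (le_of_eq ?_)
      rw [sum_const, card_range, nsmul_eq_mul]
    have hn : (n : ℝ) * (n + 1) ≤ 2 * (n : ℝ) ^ 2 := by
      rcases Nat.eq_zero_or_pos n with h0 | h0
      · rw [h0]; norm_num
      · have : (1 : ℝ) ≤ n := by exact_mod_cast h0
        nlinarith
    have hfin : |∑ t ∈ range n, TT (row κ) (tab κ 0) (extZ σ) (Zp Z) (extZ X) (extZ Y) t
          (GZ Z t)| ≤ bnd + 2 * (n : ℝ) ^ 2 := by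
      have h1 := abs_sub_abs_le_abs_sub
        (∑ t ∈ range n, TT (row κ) (tab κ 0) (extZ σ) (Zp Z) (extZ X) (extZ Y) t (GZ Z t))
        (SS n (tab κ) (extZ X) (extZ Y) (Zp Z)
          (fun s => extZ σ s + W κ (extZ X) (extZ Y) (Zp Z) s (extZ σ)) (GZ Z))
      linarith
    exact hfin

end DiscPS
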