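import Pool.Agent.Work.DiscPS.FinAux
import Pool.Agent.Work.DiscPS.Lex
import Pool.Agent.Work.DiscPS.DTwo
import Pool.Agent.Work.DiscPS.Level
import Pool.Agent.Work.DiscPS.CellB
import Pool.Agent.Work.DiscPS.Uni
import Pool.Agent.Work.DiscPS.ArithF

/-!
# Z2: the theorem
-/

namespace DiscPS

open Finset

theorem fin_set : FinSet := by
  intro l r n _ hr hp hinj hb hn B B1 E G0 hC s lam hs hsB hexp
  obtain ⟨pz, hpz⟩ := exists_pz l r hr hp hinj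
  obtain ⟨ρ, row, σ, hρ, hTT⟩ := uni hb hC pz (fun Z t ht => hpz n Z t ht) hs hsB hexp
  refine ⟨fun k => ![v1 k, v2 ρ k, v3 row σ pz k], ?_, ?_, ?_⟩
  · intro k s
    fin_cases s
    · exact v1_lt hb k
    · exact v2_lt hb ρ k
    · exact v3_lt hb row σ pz k
  · intro k k' h
    exact v1_inj hb h
  · intro A hA
    exact tel hb hn row ρ σ pz _ _ (fun X Y Z => hTT X Y Z)
      (fun X Y => D2_le hb ρ B (fun i hi X Y => hC.b1 _ (hρ i hi) X Y) X Y) A hA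

theorem upper3 : ∃ C : ℝ, 0 < C ∧ ∀ N : ℕ, 3 ≤ N →
    ∃ u : Fin N → Fin 3 → ℝ, (∀ i s, 0 ≤ u i s ∧ u i s < 1) ∧
      ∀ α : Fin 3 → ℝ, (∀ s, 0 ≤ α s ∧ α s < 1) →
        |((univ.filter (fun i : Fin N => ∀ s, u i s ≤ α s)).card : ℝ) - N * ∏ s, α s| ≤
          C * (Real.log N) ^ (2 - 1 / 70 : ℝ) :=
  fin_main arith cells fin_set

end DiscPS
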