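import Pool.Agent.Work.DiscPS.DefsB
import Pool.Agent.Work.DiscTower.GenN

/-!
# The choice of the parameters
-/

namespace DiscPS

open Finset

/-- the arithmetic input -/
def FinArith : Prop := ∃ C m0 : ℕ, ∀ m, m0 ≤ m → ∃ (r : ℕ) (l : ℕ → ℕ) (_ : NeZero (Mk l r))
    (G : Finset (ZMod (Mk l r))ˣ), Arith C m r l G

/-- the cell estimates -/
def FinCells : Prop := ∀ C : ℕ, ∃ (m1 : ℕ) (C' : ℝ), 0 ≤ C' ∧ ∀ (m r : ℕ) (l : ℕ → ℕ)
    [NeZero (Mk l r)] (G0 : Finset (ZMod (Mk l r))ˣ), m1 ≤ m → Arith C m r l G0 →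
    Cells ((m : ℝ) ^ 48) ((m : ℝ) ^ 20) (C' * m) G0 (LevG l r)

/-- from the cell estimates to a good point set with `b ^ n` points -/
def FinSet : Prop := ∀ (l : ℕ → ℕ) (r n : ℕ) [NeZero (Mk l r)], 1 ≤ r →
    (∀ i < r, (l i).Prime) → (∀ i < r, ∀ j < r, l i = l j → i = j) → 1 < Mk l r → 0 < n →
    ∀ (B B1 E : ℝ) (G0 : Finset (ZMod (Mk l r))ˣ), Cells B B1 E G0 (LevG l r) →
    ∀ s lam : ℝ, 0 < s → s * (2 * B) ≤ 1 →
    8 * Real.exp (-(s * lam) + ((n : ℝ) + 1) ^ 2 * (s ^ 2 * (B * B1))) *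
      (Mk l r : ℝ) ^ (3 * n) < 1 →
    ∃ X : Vec (Mk l r) n → Fin 3 → ℕ, (∀ k s, X k s < Mk l r ^ n) ∧
      Function.Injective (fun k => X k 0) ∧ ∀ A : Fin 3 → ℕ, (∀ s, A s ≤ Mk l r ^ n) →
        |((univ.filter fun k : Vec (Mk l r) n => ∀ s, X k s < A s).card : ℝ) -
          ((Mk l r ^ n : ℕ) : ℝ) * ∏ s, ((A s : ℝ) / ((Mk l r ^ n : ℕ) : ℝ))| ≤
          4 * n * B + 2 * (n : ℝ) ^ 2 * E + 4 * lam + 2 * (n : ℝ) ^ 2 + (n * B + 4 * n) + 6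

theorem fin_triv (N : ℕ) (hN : 0 < N) : ∃ u : Fin N → Fin 3 → ℝ, (∀ i s, 0 ≤ u i s ∧ u i s < 1) ∧
      ∀ α : Fin 3 → ℝ, (∀ s, 0 ≤ α s ∧ α s < 1) →
        |((univ.filter (fun i : Fin N => ∀ s, u i s ≤ α s)).card : ℝ) - N * ∏ s, α s| ≤ N := by
  refine ⟨fun _ _ => 0, fun _ _ => ⟨le_rfl, one_pos⟩, fun α hα => ?_⟩
  have h1 : (0 : ℝ) ≤ ((univ.filter (fun i : Fin N => ∀ s : Fin 3, (0 : ℝ) ≤ α s)).card : ℝ) := by
    positivity
  have h2 : ((univ.filter (fun i : Fin N => ∀ s : Fin 3, (0 : ℝ) ≤ α s)).card : ℝ) ≤ N := by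
    have := card_filter_le (univ : Finset (Fin N)) (fun i => ∀ s : Fin 3, (0 : ℝ) ≤ α s)
    rw [card_univ, Fintype.card_fin] at this
    exact_mod_cast this
  have h3 : 0 ≤ ∏ s, α s := prod_nonneg fun s _ => (hα s).1
  have h4 : ∏ s, α s ≤ 1 := prod_le_one (fun s _ => (hα s).1) (fun s _ => (hα s).2.le)
  have h5 : (0 : ℝ) < N := by exact_mod_cast hN
  rw [abs_le]
  constructor
  · nlinarith
  · nlinarith

theorem fin_num {C' : ℝ} (hC' : 0 ≤ C') {N m b : ℕ} {x : ℝ} (hN3 : 3 ≤ N) (hx3 : 3 ≤ x)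
    (hx70 : x ^ 70 = Real.log N) (hmx : (m : ℝ) ≤ x) (hxm : x < m + 1) (hm2 : 2 ≤ m)
    (hbge : 2 ^ m ≤ b ^ 4) (hble : b ≤ 2 ^ m) (hb1 : 1 < b) :
    ∃ (n : ℕ) (s lam : ℝ), 0 < n ∧ N ≤ b ^ n ∧ 0 < s ∧ s * (2 * (m : ℝ) ^ 48) ≤ 1 ∧
      8 * Real.exp (-(s * lam) + ((n : ℝ) + 1) ^ 2 * (s ^ 2 * ((m : ℝ) ^ 48 * (m : ℝ) ^ 20))) *
      (b : ℝ) ^ (3 * n) < 1 ∧
      4 * n * (m : ℝ) ^ 48 + 2 * (n : ℝ) ^ 2 * (C' * m) + 4 * lam + 2 * (n : ℝ) ^ 2 +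
        (n * (m : ℝ) ^ 48 + 4 * n) + 6 + (2 + 1) ≤ (3000 + 648 * C') * x ^ 139 := by
  have hNpos : (0 : ℝ) < N := by exact_mod_cast (by omega : 0 < N)
  have hx0 : 0 ≤ x := by linarith
  have hm2r : (2 : ℝ) ≤ m := by exact_mod_cast hm2
  obtain ⟨L, hL⟩ : ∃ L, L = Real.log N := ⟨_, rfl⟩
  rw [← hL] at hx70
  have hL1 : 1 ≤ L := by
    rw [← hx70]
    exact one_le_pow₀ (by linarith)
  have hbr : (1 : ℝ) < b := by exact_mod_cast hb1
  have hlogb : (m : ℝ) / 8 ≤ Real.log b := by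
    have h1 : ((2 : ℝ)) ^ m ≤ (b : ℝ) ^ 4 := by exact_mod_cast hbge
    have h2 := Real.log_le_log (by positivity) h1
    rw [Real.log_pow, Real.log_pow] at h2
    have h3 := Real.log_two_gt_d9
    push_cast at h2
    nlinarith
  have hlogb2 : Real.log b ≤ m := by
    have h1 : (b : ℝ) ≤ (2 : ℝ) ^ m := by exact_mod_cast hble
    have h2 := Real.log_le_log (by linarith) h1
    rw [Real.log_pow] at h2
    have h3 := Real.log_two_lt_d9
    nlinarith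
  have hlogpos : 0 < Real.log b := Real.log_pos hbr
  obtain ⟨n, hn⟩ : ∃ n : ℕ, n = ⌈L / Real.log b⌉₊ := ⟨_, rfl⟩
  have hnge : L / Real.log b ≤ n := by rw [hn]; exact Nat.le_ceil _
  have hnlt : (n : ℝ) < L / Real.log b + 1 := by
    rw [hn]; exact Nat.ceil_lt_add_one (by positivity)
  have hn0 : 0 < n := by
    rw [hn, Nat.ceil_pos]
    positivity
  have hxL : x ≤ L := by
    rw [← hx70]
    exact le_self_pow₀ (by linarith) (by norm_num)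
  have hmL : (m : ℝ) ≤ L := hmx.trans hxL
  have hnlog : n * Real.log b ≤ 2 * L := by
    have h1 : n * Real.log b ≤ (L / Real.log b + 1) * Real.log b :=
      mul_le_mul_of_nonneg_right hnlt.le hlogpos.le
    have h2 : (L / Real.log b + 1) * Real.log b = L + Real.log b := by field_simp
    linarith
  have hnlog' : L ≤ n * Real.log b := by
    have h1 : L / Real.log b * Real.log b ≤ n * Real.log b :=
      mul_le_mul_of_nonneg_right hnge hlogpos.le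
    rwa [div_mul_cancel₀ _ hlogpos.ne'] at h1
  have hNM : N ≤ b ^ n := by
    have h1 : Real.log N ≤ Real.log ((b : ℝ) ^ n) := by rw [Real.log_pow, ← hL]; exact hnlog'
    have h2 := (Real.log_le_log_iff hNpos (by positivity)).mp h1
    exact_mod_cast h2
  have hLdiv : L / Real.log b ≤ 16 * x ^ 69 := by
    rw [div_le_iff₀ hlogpos]
    have h1 : x ≤ 2 * m := by linarith
    have h2 : x ^ 69 * x = L := by rw [← hx70]; ring
    have h3 : (x : ℝ) / 16 ≤ Real.log b := by linarith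
    calc L = 16 * x ^ 69 * (x / 16) := by rw [← h2]; ring
      _ ≤ 16 * x ^ 69 * Real.log b := mul_le_mul_of_nonneg_left h3 (by positivity)
  have hx69 : 1 ≤ x ^ 69 := one_le_pow₀ (by linarith)
  have hn18 : (n : ℝ) ≤ 17 * x ^ 69 := by linarith
  have hn19 : (n : ℝ) + 1 ≤ 18 * x ^ 69 := by linarith
  obtain ⟨Lam, hLam⟩ : ∃ Lam : ℝ, Lam = 3 * (n * Real.log b) + 3 := ⟨_, rfl⟩
  have hLam9 : Lam ≤ 9 * x ^ 70 := by rw [hx70]; linarith
  obtain ⟨K, hK⟩ : ∃ K : ℝ, K = x ^ 68 := ⟨_, rfl⟩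
  have hKpos : 0 < K := by rw [hK]; positivity
  obtain ⟨B, hB⟩ : ∃ B : ℝ, B = (m : ℝ) ^ 48 := ⟨_, rfl⟩
  obtain ⟨B1, hB1⟩ : ∃ B1 : ℝ, B1 = (m : ℝ) ^ 20 := ⟨_, rfl⟩
  have hB0 : 0 ≤ B := by rw [hB]; positivity
  have hB10 : 0 ≤ B1 := by rw [hB1]; positivity
  have hBx : B ≤ x ^ 48 := by rw [hB]; exact pow_le_pow_left₀ (by positivity) hmx 48
  have hB1x : B1 ≤ x ^ 20 := by rw [hB1]; exact pow_le_pow_left₀ (by positivity) hmx 20
  obtain ⟨lam, hlam⟩ : ∃ lam : ℝ, lam = K * Lam + ((n : ℝ) + 1) ^ 2 * (B * B1) / K := ⟨_, rfl⟩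
  refine ⟨n, 1 / K, lam, hn0, hNM, by positivity, ?_, ?_, ?_⟩
  · rw [← hB, one_div, inv_mul_le_iff₀ hKpos, mul_one, hK]
    have h1 : x ^ 68 = x ^ 20 * x ^ 48 := by ring
    have h2 : (3 : ℝ) ^ 20 ≤ x ^ 20 := pow_le_pow_left₀ (by norm_num) hx3 20
    have h3 : (2 : ℝ) ≤ x ^ 20 := le_trans (by norm_num) h2
    rw [h1]
    exact mul_le_mul h3 hBx hB0 (by positivity)
  · rw [← hB, ← hB1]
    have h1 : -((1 / K) * lam) + ((n : ℝ) + 1) ^ 2 * ((1 / K) ^ 2 * (B * B1)) = -Lam := by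
      rw [hlam]
      field_simp
      ring
    have h2 : (b : ℝ) ^ (3 * n) = Real.exp (3 * (n * Real.log b)) := by
      rw [← Real.exp_log (by positivity : (0 : ℝ) < (b : ℝ) ^ (3 * n)), Real.log_pow]
      push_cast
      ring_nf
    rw [h1, h2, mul_assoc, ← Real.exp_add, hLam]
    have h3 : -(3 * (n * Real.log b) + 3) + 3 * (n * Real.log b) = -3 := by ring
    rw [h3, Real.exp_neg]
    have h4 : (8 : ℝ) < Real.exp 3 := by
      have h5 : Real.exp 3 = Real.exp 1 ^ 3 := by rw [← Real.exp_nat_mul]; norm_num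
      rw [h5]
      have h6 := Real.exp_one_gt_d9
      have h7 : (2.7 : ℝ) ^ 3 ≤ Real.exp 1 ^ 3 := pow_le_pow_left₀ (by norm_num) (by linarith) 3
      refine lt_of_lt_of_le (by norm_num) h7
    rw [← div_eq_mul_inv, div_lt_one (Real.exp_pos 3)]
    exact h4
  rw [← hB]
  have e1 : (n : ℝ) * B ≤ 17 * x ^ 139 := by
    calc (n : ℝ) * B ≤ (17 * x ^ 69) * x ^ 48 := mul_le_mul hn18 hBx hB0 (by positivity)
      _ = 17 * x ^ 117 := by ring
      _ ≤ 17 * x ^ 139 := by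
          apply mul_le_mul_of_nonneg_left _ (by norm_num)
          exact pow_le_pow_right₀ (by linarith) (by norm_num)
  have e2 : (n : ℝ) ^ 2 ≤ 289 * x ^ 138 := by
    calc (n : ℝ) ^ 2 ≤ (17 * x ^ 69) ^ 2 := pow_le_pow_left₀ (by positivity) hn18 2
      _ = 289 * x ^ 138 := by ring
  have e138 : x ^ 138 ≤ x ^ 139 := pow_le_pow_right₀ (by linarith) (by norm_num)
  have e69 : x ^ 69 ≤ x ^ 139 := pow_le_pow_right₀ (by linarith) (by norm_num)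
  have e0 : 1 ≤ x ^ 139 := one_le_pow₀ (by linarith)
  have e3 : (n : ℝ) ^ 2 * (C' * m) ≤ 289 * (C' * x ^ 139) := by
    calc (n : ℝ) ^ 2 * (C' * m) ≤ (289 * x ^ 138) * (C' * x) := by
          apply mul_le_mul e2 _ (by positivity) (by positivity)
          exact mul_le_mul_of_nonneg_left hmx hC'
      _ = 289 * (C' * x ^ 139) := by ring
  have e4 : lam ≤ 333 * x ^ 138 := by
    have f1 : K * Lam ≤ 9 * x ^ 138 := by
      calc K * Lam ≤ K * (9 * x ^ 70) := mul_le_mul_of_nonneg_left hLam9 hKpos.le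
        _ = 9 * x ^ 138 := by rw [hK]; ring
    have f2 : ((n : ℝ) + 1) ^ 2 * (B * B1) / K ≤ 324 * x ^ 138 := by
      rw [div_le_iff₀ hKpos]
      calc ((n : ℝ) + 1) ^ 2 * (B * B1) ≤ (18 * x ^ 69) ^ 2 * (x ^ 48 * x ^ 20) := by
            apply mul_le_mul (pow_le_pow_left₀ (by positivity) hn19 2) _ (by positivity)
              (by positivity)
            exact mul_le_mul hBx hB1x hB10 (by positivity)
        _ = 324 * x ^ 138 * K := by rw [hK]; ring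
    rw [hlam]; linarith
  have e6 : 0 ≤ C' * x ^ 139 := mul_nonneg hC' (by positivity)
  have g1 : 4 * n * B = 4 * ((n : ℝ) * B) := by ring
  have g2 : 2 * (n : ℝ) ^ 2 * (C' * m) = 2 * ((n : ℝ) ^ 2 * (C' * m)) := by ring
  have g3 : (3000 + 648 * C') * x ^ 139 = 3000 * x ^ 139 + 648 * (C' * x ^ 139) := by ring
  rw [g1, g2, g3]
  linarith

theorem fin_main (harith : FinArith) (hcells : FinCells) (hset : FinSet) :
    ∃ C : ℝ, 0 < C ∧ ∀ N : ℕ, 3 ≤ N →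
    ∃ u : Fin N → Fin 3 → ℝ, (∀ i s, 0 ≤ u i s ∧ u i s < 1) ∧
      ∀ α : Fin 3 → ℝ, (∀ s, 0 ≤ α s ∧ α s < 1) →
        |((univ.filter (fun i : Fin N => ∀ s, u i s ≤ α s)).card : ℝ) - N * ∏ s, α s| ≤
          C * (Real.log N) ^ (2 - 1 / 70 : ℝ) := by
  obtain ⟨C0, m0, hA⟩ := harith
  obtain ⟨m1, C', hC', hCe⟩ := hcells C0
  obtain ⟨M0, hM0⟩ : ∃ M0 : ℕ, M0 = max (max m0 m1) 2 := ⟨_, rfl⟩
  obtain ⟨N0, hN0⟩ : ∃ N0 : ℝ, N0 = Real.exp (((M0 : ℝ) + 1) ^ 70) := ⟨_, rfl⟩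
  have hN0pos : 0 < N0 := by rw [hN0]; exact Real.exp_pos _
  refine ⟨N0 + (3000 + 648 * C'), by positivity, ?_⟩
  intro N hN3
  have hNpos : (0 : ℝ) < N := by exact_mod_cast (by omega : 0 < N)
  obtain ⟨L, hL⟩ : ∃ L, L = Real.log N := ⟨_, rfl⟩
  have hL1 : 1 ≤ L := by
    rw [hL, Real.le_log_iff_exp_le hNpos]
    have h1 : (3 : ℝ) ≤ N := by exact_mod_cast hN3
    linarith [Real.exp_one_lt_d9]
  rw [← hL]
  have hpow1 : 1 ≤ L ^ (2 - 1 / 70 : ℝ) := Real.one_le_rpow hL1 (by norm_num)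
  by_cases hbig : N0 ≤ N
  swap
  · push Not at hbig
    obtain ⟨u, hu, h⟩ := fin_triv N (by omega)
    refine ⟨u, hu, fun α hα => (h α hα).trans ?_⟩
    calc (N : ℝ) ≤ N0 * 1 := by linarith
      _ ≤ (N0 + (3000 + 648 * C')) * L ^ (2 - 1 / 70 : ℝ) := by
          apply mul_le_mul _ hpow1 zero_le_one (by positivity)
          linarith
  have hLbig : ((M0 : ℝ) + 1) ^ 70 ≤ L := by
    rw [hL, Real.le_log_iff_exp_le hNpos, ← hN0]
    exact hbig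
  obtain ⟨x, hx⟩ : ∃ x : ℝ, x = L ^ (1 / 70 : ℝ) := ⟨_, rfl⟩
  have hx70 : x ^ 70 = L := by
    rw [hx, ← Real.rpow_natCast, ← Real.rpow_mul (by linarith)]
    norm_num
  have hx139 : x ^ 139 = L ^ (2 - 1 / 70 : ℝ) := by
    rw [hx, ← Real.rpow_natCast, ← Real.rpow_mul (by linarith)]
    norm_num
  have hx0 : 0 ≤ x := by rw [hx]; positivity
  have hxM : (M0 : ℝ) + 1 ≤ x := by
    rw [← hx70] at hLbig
    exact le_of_pow_le_pow_left₀ (by norm_num) hx0 hLbig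
  have hM02 : (2 : ℝ) ≤ M0 := by
    have : 2 ≤ M0 := by rw [hM0]; exact le_max_right _ _
    exact_mod_cast this
  have hx3 : 3 ≤ x := by linarith
  obtain ⟨m, hm⟩ : ∃ m : ℕ, m = ⌊x⌋₊ := ⟨_, rfl⟩
  have hmx : (m : ℝ) ≤ x := by rw [hm]; exact Nat.floor_le hx0
  have hxm : x < m + 1 := by rw [hm]; exact Nat.lt_floor_add_one x
  have hmM : M0 ≤ m := by
    rw [hm]
    exact Nat.le_floor (by linarith)
  rw [hM0] at hmM
  have hm0 : m0 ≤ m := le_trans (le_trans (le_max_left _ _) (le_max_left _ _)) hmM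
  have hm1 : m1 ≤ m := le_trans (le_trans (le_max_right _ _) (le_max_left _ _)) hmM
  have hm2 : 2 ≤ m := le_trans (le_max_right _ _) hmM
  obtain ⟨r, l, hne, G, hAr⟩ := hA m hm0
  have hCell := hCe m r l G hm1 hAr
  have hb1 : 1 < Mk l r := by
    by_contra hcon
    have h1 : Mk l r ≤ 1 := by omega
    have h2 : Mk l r ^ 4 ≤ 1 := by
      calc Mk l r ^ 4 ≤ 1 ^ 4 := Nat.pow_le_pow_left h1 4
        _ = 1 := by norm_num
    have h3 : 2 ^ 2 ≤ 2 ^ m := Nat.pow_le_pow_right (by norm_num) hm2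
    have h4 := hAr.b_ge
    omega
  obtain ⟨n, s, lam, hn0, hNM, hs, hcond, hexp, hfin⟩ := fin_num hC' (N := N) hN3 hx3
    (by rw [hx70, hL]) hmx hxm hm2 hAr.b_ge hAr.b_le hb1
  obtain ⟨X, hX, hinj, hdisc⟩ := hset l r n hAr.one_le_r hAr.prime hAr.inj hb1 hn0 _ _
    _ G hCell s lam hs hcond hexp
  have hcard : Fintype.card (Vec (Mk l r) n) = Mk l r ^ n := by
    simp [Vec, ZMod.card]
  obtain ⟨u, hu, hu2⟩ := DiscTower.genN_transfer (by omega) hNM hcard X hX hinj _ hdisc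
  refine ⟨u, hu, fun α hα => (hu2 α hα).trans ?_⟩
  rw [← hx139]
  have e5 : 0 ≤ N0 * x ^ 139 := by positivity
  have e6 : (N0 + (3000 + 648 * C')) * x ^ 139 =
    N0 * x ^ 139 + (3000 + 648 * C') * x ^ 139 := by ring
  rw [e6]
  push_cast
  linarith

end DiscPS
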