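import Pool.Agent.Work.DiscPS.DefsA

/-!
# The Fourier expansion of the two-dimensional discrepancy
-/

namespace DiscPS

open Finset

theorem fou_fs (M : ℕ) [NeZero M] (a : ℤ) (X : ℕ) (p : ℤ) :
    fs M a X p = ∑ h ∈ range X, ZMod.stdAddChar ((p : ZMod M) * ((a : ZMod M) + (h : ZMod M))) := by
  rw [fs]
  refine Finset.sum_congr rfl fun h _ => ?_
  have : (p : ZMod M) * ((a : ZMod M) + (h : ZMod M)) = ((p * (a + h) : ℤ) : ZMod M) := by
    push_cast
    ring
  rw [this, ZMod.stdAddChar_coe]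
  congr 1
  push_cast
  ring

theorem fou_norm (M : ℕ) (a : ℤ) (X : ℕ) (p : ℤ) (hp : p ≠ 0) (hpM : 2 * p.natAbs < M) :
    ‖fs M a X p‖ ≤ (M : ℝ) / (2 * |(p : ℝ)|) := by
  have hM : (0 : ℝ) < M := by
    have : 0 < M := by omega
    exact_mod_cast this
  have hp' : (0 : ℝ) < |(p : ℝ)| := abs_pos.mpr (by exact_mod_cast hp)
  have hpM' : 2 * |(p : ℝ)| < M := by
    have h1 : ((2 * p.natAbs : ℕ) : ℝ) < M := by exact_mod_cast hpM
    push_cast [Nat.cast_natAbs] at h1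
    exact h1
  set w : ℂ := Complex.exp (Complex.I * ((2 * Real.pi * p / M : ℝ) : ℂ)) with hw
  have hfs : fs M a X p = Complex.exp (Complex.I * ((2 * Real.pi * p * a / M : ℝ) : ℂ)) *
      ∑ h ∈ range X, w ^ h := by
    rw [fs, Finset.mul_sum]
    refine Finset.sum_congr rfl fun h _ => ?_
    rw [hw, ← Complex.exp_nat_mul, ← Complex.exp_add]
    congr 1
    push_cast
    ring
  have hw1 : ‖w‖ = 1 := by
    rw [hw, mul_comm]
    exact Complex.norm_exp_ofReal_mul_I _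
  have hw2 : 4 * |(p : ℝ)| / M ≤ ‖w - 1‖ := by
    rw [hw, Complex.norm_exp_I_mul_ofReal_sub_one, Real.norm_eq_abs, abs_mul, abs_two]
    have h1 : 2 * Real.pi * p / M / 2 = Real.pi * p / M := by ring
    rw [h1]
    have h2 : |Real.sin (Real.pi * p / M)| = Real.sin (Real.pi * |(p : ℝ)| / M) := by
      rcases abs_cases (p : ℝ) with ⟨h, h'⟩ | ⟨h, h'⟩
      · rw [h, abs_of_nonneg]
        refine Real.sin_nonneg_of_nonneg_of_le_pi (by positivity) ?_
        rw [div_le_iff₀ hM]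
        rw [h] at hpM'
        nlinarith [Real.pi_pos]
      · rw [h]
        have h3 : Real.pi * -(p : ℝ) / M = -(Real.pi * p / M) := by ring
        rw [h3, Real.sin_neg, abs_of_nonpos]
        have h4 : 0 ≤ Real.sin (-(Real.pi * p / M)) := by
          rw [← h3]
          rw [h] at hpM' hp'
          refine Real.sin_nonneg_of_nonneg_of_le_pi ?_ ?_
          · have := Real.pi_pos
            positivity
          · rw [div_le_iff₀ hM]
            nlinarith [Real.pi_pos]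
        rw [Real.sin_neg] at h4
        linarith
    rw [h2]
    have h3 : 2 / Real.pi * (Real.pi * |(p : ℝ)| / M) ≤ Real.sin (Real.pi * |(p : ℝ)| / M) := by
      refine Real.mul_le_sin (by positivity) ?_
      rw [div_le_div_iff₀ hM (by norm_num)]
      nlinarith [Real.pi_pos]
    have h4 : 2 / Real.pi * (Real.pi * |(p : ℝ)| / M) = 2 * |(p : ℝ)| / M := by
      have := Real.pi_pos.ne'
      field_simp
    rw [h4] at h3
    calc 4 * |(p : ℝ)| / M = 2 * (2 * |(p : ℝ)| / M) := by ring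
      _ ≤ _ := by linarith
  have hw3 : 0 < ‖w - 1‖ := lt_of_lt_of_le (by positivity) hw2
  have hne : w ≠ 1 := by
    intro h
    rw [h] at hw3
    simp at hw3
  rw [hfs, norm_mul, mul_comm Complex.I, Complex.norm_exp_ofReal_mul_I, one_mul, geom_sum_eq hne,
    norm_div]
  have h5 : ‖w ^ X - 1‖ ≤ 2 := by
    calc ‖w ^ X - 1‖ ≤ ‖w ^ X‖ + ‖(1 : ℂ)‖ := norm_sub_le _ _
      _ = 2 := by rw [norm_pow, hw1]; norm_num
  rw [div_le_div_iff₀ hw3 (by positivity)]
  rw [div_le_iff₀ hM] at hw2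
  nlinarith [norm_nonneg (w ^ X - 1)]

theorem fou_mem {M : ℕ} {q : ℤ} : q ∈ SR M ↔ q ≠ 0 ∧ 2 * q.natAbs < M := by
  rw [SR, Finset.mem_filter, Finset.mem_Ioo]
  constructor
  · exact fun h => h.2
  · intro h
    refine ⟨?_, h⟩
    omega

theorem cf_le {M : ℕ} (a : ℤ) (X : ℕ) (c : ℤ) (Y : ℕ) {x : ℤ × ℤ} (hx : x ∈ SR M ×ˢ SR M) :
    |cf M a X c Y x| ≤ aw M x / 4 := by
  obtain ⟨h1, h2⟩ := Finset.mem_product.mp hx
  rw [fou_mem] at h1 h2
  have hM : (0 : ℝ) < M := by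
    have : 0 < M := by omega
    exact_mod_cast this
  have hp1 : (0 : ℝ) < |(x.1 : ℝ)| := abs_pos.mpr (by exact_mod_cast h1.1)
  have hp2 : (0 : ℝ) < |(x.2 : ℝ)| := abs_pos.mpr (by exact_mod_cast h2.1)
  have n1 := fou_norm M a X x.2 h2.1 h2.2
  have n2 := fou_norm M c Y x.1 h1.1 h1.2
  rw [cf, abs_div, abs_of_pos hM, aw]
  have h3 : |(fs M a X x.2 * fs M c Y x.1).re| ≤
      (M : ℝ) / (2 * |(x.2 : ℝ)|) * (M / (2 * |(x.1 : ℝ)|)) := by
    refine (Complex.abs_re_le_norm _).trans ?_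
    rw [norm_mul]
    exact mul_le_mul n1 n2 (norm_nonneg _) (by positivity)
  rw [div_le_iff₀ hM]
  refine h3.trans (le_of_eq ?_)
  field_simp
  norm_num

theorem fou_count {M : ℕ} [NeZero M] (κ a : ℤ) (X : ℕ) (c : ℤ) (Y : ℕ) :
    (cntM M κ a X c Y : ℂ) * M = ∑ q : ZMod M,
      (∑ j ∈ range Y, ZMod.stdAddChar (q * ((c : ZMod M) + (j : ZMod M)))) *
        ∑ i ∈ range X, ZMod.stdAddChar (-(q * (κ : ZMod M)) * ((a : ZMod M) + (i : ZMod M))) := by
  classical
  have h1 : (cntM M κ a X c Y : ℂ) * M = ∑ p ∈ range X ×ˢ range Y,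
      ∑ q : ZMod M, (ZMod.stdAddChar (q * (((c : ZMod M) + (p.2 : ZMod M)) -
        (κ : ZMod M) * ((a : ZMod M) + (p.1 : ZMod M)))) : ℂ) := by
    rw [cntM, Finset.card_filter, Nat.cast_sum, Finset.sum_mul]
    refine Finset.sum_congr rfl fun p _ => ?_
    rw [AddChar.sum_mulShift _ (ZMod.isPrimitive_stdAddChar M), ZMod.card]
    have h2 : (((c : ZMod M) + (p.2 : ZMod M)) - (κ : ZMod M) * ((a : ZMod M) + (p.1 : ZMod M))
        = 0) ↔ (M : ℤ) ∣ (c + p.2) - κ * (a + p.1) := by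
      rw [← ZMod.intCast_zmod_eq_zero_iff_dvd]
      push_cast
      rfl
    by_cases h3 : (M : ℤ) ∣ (c + p.2) - κ * (a + p.1)
    · rw [if_pos h3, if_pos (h2.mpr h3)]
      push_cast
      ring
    · rw [if_neg h3, if_neg fun h => h3 (h2.mp h)]
      push_cast
      ring
  rw [h1, Finset.sum_comm]
  refine Finset.sum_congr rfl fun q _ => ?_
  rw [Finset.sum_product, Finset.sum_comm, Finset.sum_mul_sum]
  refine Finset.sum_congr rfl fun j _ => Finset.sum_congr rfl fun i _ => ?_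
  rw [← AddChar.map_add_eq_mul]
  congr 1
  ring

/-- (2.1) -/
theorem DM_eq {M : ℕ} (hM : Odd M) {κ : ℤ} (hκ : Int.gcd κ M = 1) (a : ℤ) (X : ℕ) (c : ℤ)
    (Y : ℕ) : DM M κ a X c Y = ∑ x ∈ SL M κ, cf M a X c Y x := by
  classical
  have : NeZero M := ⟨fun h => by rw [h] at hM; exact absurd hM (by decide)⟩
  have hM0 : (M : ℝ) ≠ 0 := Nat.cast_ne_zero.mpr (NeZero.ne M)
  have hMc : (M : ℂ) ≠ 0 := Nat.cast_ne_zero.mpr (NeZero.ne M)
  have hκu : IsUnit (κ : ZMod M) := by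
    rw [ZMod.coe_int_isUnit_iff_isCoprime, Int.isCoprime_iff_gcd_eq_one, Int.gcd_comm]
    exact hκ
  set FY : ZMod M → ℂ := fun u => ∑ j ∈ range Y, ZMod.stdAddChar (u * ((c : ZMod M) + (j : ZMod M)))
    with hFY
  set FX : ZMod M → ℂ := fun u => ∑ i ∈ range X, ZMod.stdAddChar (u * ((a : ZMod M) + (i : ZMod M)))
    with hFX
  have hcount : (cntM M κ a X c Y : ℂ) * M = ∑ q : ZMod M, FY q * FX (-(q * (κ : ZMod M))) :=
    fou_count κ a X c Y
  have h0 : ∑ q : ZMod M, FY q * FX (-(q * (κ : ZMod M))) =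
      (Y : ℂ) * X + ∑ q ∈ univ.erase (0 : ZMod M), FY q * FX (-(q * (κ : ZMod M))) := by
    rw [← Finset.add_sum_erase _ _ (Finset.mem_univ (0 : ZMod M))]
    congr 1
    simp [hFY, hFX]
  have hSL : ∑ x ∈ SL M κ, fs M a X x.2 * fs M c Y x.1 =
      ∑ q ∈ univ.erase (0 : ZMod M), FY q * FX (-(q * (κ : ZMod M))) := by
    have hrel : ∀ x ∈ SL M κ, (-((x.1 : ZMod M) * (κ : ZMod M))) = (x.2 : ZMod M) := by
      intro x hx
      have h1 := (Finset.mem_filter.mp hx).2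
      rw [← ZMod.intCast_zmod_eq_zero_iff_dvd] at h1
      push_cast at h1
      linear_combination -h1
    have hioc : ∀ q : ℤ, 2 * q.natAbs < M → q * 2 ∈ Set.Ioc (-(M : ℤ)) M := by
      intro q hq
      constructor <;> omega
    refine Finset.sum_bij' (fun x _ => (x.1 : ZMod M))
      (fun q _ => (q.valMinAbs, (-(q * (κ : ZMod M))).valMinAbs)) ?_ ?_ ?_ ?_ ?_
    · intro x hx
      have h1 := fou_mem.mp (Finset.mem_product.mp (Finset.mem_filter.mp hx).1).1
      rw [Finset.mem_erase]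
      refine ⟨fun h => ?_, Finset.mem_univ _⟩
      rw [ZMod.intCast_zmod_eq_zero_iff_dvd] at h
      have h2 := Int.natAbs_dvd_natAbs.mpr h
      rw [Int.natAbs_natCast] at h2
      have h3 := Nat.le_of_dvd (Int.natAbs_pos.mpr h1.1) h2
      omega
    · intro q hq
      have hq0 : q ≠ 0 := (Finset.mem_erase.mp hq).1
      have hodd : M % 2 = 1 := Nat.odd_iff.mp hM
      have hq1 : -(q * (κ : ZMod M)) ≠ 0 := by
        rw [neg_ne_zero]
        intro h
        exact hq0 (hκu.mul_left_eq_zero.mp h)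
      have b1 := ZMod.natAbs_valMinAbs_le q
      have b2 := ZMod.natAbs_valMinAbs_le (-(q * (κ : ZMod M)))
      rw [SL, Finset.mem_filter, Finset.mem_product]
      refine ⟨⟨fou_mem.mpr ⟨?_, ?_⟩, fou_mem.mpr ⟨?_, ?_⟩⟩, ?_⟩
      · rw [Ne, ZMod.valMinAbs_eq_zero]
        exact hq0
      · change 2 * q.valMinAbs.natAbs < M
        omega
      · rw [Ne, ZMod.valMinAbs_eq_zero]
        exact hq1
      · change 2 * (-(q * (κ : ZMod M))).valMinAbs.natAbs < M
        omega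
      · rw [← ZMod.intCast_zmod_eq_zero_iff_dvd]
        push_cast
        ring
    · intro x hx
      have h1 := fou_mem.mp (Finset.mem_product.mp (Finset.mem_filter.mp hx).1).1
      have h2 := fou_mem.mp (Finset.mem_product.mp (Finset.mem_filter.mp hx).1).2
      refine Prod.ext ?_ ?_
      · exact (ZMod.valMinAbs_spec _ _).mpr ⟨rfl, hioc _ h1.2⟩
      · exact (ZMod.valMinAbs_spec _ _).mpr ⟨hrel x hx, hioc _ h2.2⟩
    · intro q _
      exact ZMod.coe_valMinAbs q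
    · intro x hx
      rw [fou_fs, fou_fs, hrel x hx, mul_comm]
  have hre : ∑ x ∈ SL M κ, cf M a X c Y x = (∑ x ∈ SL M κ, fs M a X x.2 * fs M c Y x.1).re / M := by
    rw [Complex.re_sum, Finset.sum_div]
    rfl
  have hfin : ∑ x ∈ SL M κ, fs M a X x.2 * fs M c Y x.1 =
      (((cntM M κ a X c Y : ℝ) * M - (Y : ℝ) * X : ℝ) : ℂ) := by
    rw [hSL]
    push_cast
    rw [hcount, h0]
    ring
  rw [hre, hfin, Complex.ofReal_re, DM]
  field_simp

/-- `|DM|` is bounded by the sum of the weights. -/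
theorem DM_le {M : ℕ} (hM : Odd M) {κ : ℤ} (hκ : Int.gcd κ M = 1) (a : ℤ) (X : ℕ) (c : ℤ)
    (Y : ℕ) : |DM M κ a X c Y| ≤ (∑ x ∈ SL M κ, aw M x) / 4 := by
  rw [DM_eq hM hκ, Finset.sum_div]
  refine (Finset.abs_sum_le_sum_abs _ _).trans (Finset.sum_le_sum fun x hx => ?_)
  exact cf_le a X c Y (Finset.mem_filter.1 hx).1

end DiscPS
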