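import Pool.Agent.Work.DiscPS.Cnt
import Pool.Agent.Work.DiscPS.Div

/-!
# The full mean
-/

namespace DiscPS

open Finset

variable {m b M : ℕ}

/-- Moebius sum over the common divisors. -/
theorem fm_mu (z : ℤ) {K : ℕ} (hK : 0 < K) :
    (∑ d ∈ K.divisors, if (d : ℤ) ∣ z then ((ArithmeticFunction.moebius d : ℤ) : ℝ) else 0) =
      if Int.gcd z K = 1 then 1 else 0 := by
  have h1 : K.divisors.filter (fun d : ℕ => (d : ℤ) ∣ z) = (Int.gcd z K).divisors := by
    ext d
    have hg : Int.gcd z K ≠ 0 := by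
      intro h0
      rw [Int.gcd_eq_zero_iff] at h0
      exact hK.ne' (by exact_mod_cast h0.2)
    simp only [mem_filter, Nat.mem_divisors, hK.ne', hg, ne_eq, not_false_eq_true, and_true]
    constructor
    · rintro ⟨h2, h3⟩
      have := Int.dvd_coe_gcd h3 (Int.natCast_dvd_natCast.2 h2)
      exact Int.natCast_dvd_natCast.1 this
    · intro h2
      have h3 : (d : ℤ) ∣ (Int.gcd z K : ℤ) := Int.natCast_dvd_natCast.2 h2
      exact ⟨Int.natCast_dvd_natCast.1 (h3.trans (Int.gcd_dvd_right z K)),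
        h3.trans (Int.gcd_dvd_left z K)⟩
  rw [← Finset.sum_filter, h1]
  have h2 : (ArithmeticFunction.moebius * (ArithmeticFunction.zeta : ArithmeticFunction ℤ) :
      ArithmeticFunction ℤ) (Int.gcd z K) = (1 : ArithmeticFunction ℤ) (Int.gcd z K) := by
    rw [ArithmeticFunction.moebius_mul_coe_zeta]
  rw [ArithmeticFunction.coe_mul_zeta_apply, ArithmeticFunction.one_apply] at h2
  have h3 : ((∑ d ∈ (Int.gcd z K).divisors, (ArithmeticFunction.moebius d : ℤ) : ℤ) : ℝ) =
      ((if Int.gcd z K = 1 then 1 else 0 : ℤ) : ℝ) := by rw [h2]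
  push_cast at h3
  rw [h3]

/-- Multiples in an interval. -/
theorem fm_cnt (a : ℤ) (X : ℕ) {k : ℕ} (hk : 0 < k) :
    |((((range X).filter (fun i : ℕ => (k : ℤ) ∣ a + i)).card : ℕ) : ℝ) - (X : ℝ) / k| ≤ 1 := by
  have h1 : ((range X).filter (fun i : ℕ => (k : ℤ) ∣ a + i)).card =
      ((Ico a (a + X)).filter (fun x : ℤ => (k : ℤ) ∣ x)).card := by
    refine Finset.card_bij (fun i _ => a + (i : ℤ)) ?_ ?_ ?_
    · intro i hi
      rw [mem_filter, mem_range] at hi
      rw [mem_filter, mem_Ico]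
      exact ⟨⟨by omega, by omega⟩, hi.2⟩
    · intro i _ j _ hij
      simpa using hij
    · intro x hx
      rw [mem_filter, mem_Ico] at hx
      refine ⟨(x - a).toNat, ?_, ?_⟩
      · rw [mem_filter, mem_range]
        have h2 : ((x - a).toNat : ℤ) = x - a := Int.toNat_of_nonneg (by omega)
        refine ⟨by omega, ?_⟩
        rw [h2]
        have : a + (x - a) = x := by ring
        rw [this]
        exact hx.2
      · have h2 : ((x - a).toNat : ℤ) = x - a := Int.toNat_of_nonneg (by omega)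
        show a + ((x - a).toNat : ℤ) = x
        rw [h2]
        ring
  rw [h1]
  have h2 := Int.Ico_filter_dvd_card a (a + X) (r := (k : ℤ)) (by exact_mod_cast hk)
  have hkq : (0 : ℚ) < k := by exact_mod_cast hk
  have hdiv : ((a + X : ℤ) : ℚ) / ((k : ℤ) : ℚ) = (a : ℚ) / k + (X : ℚ) / k := by
    push_cast
    ring
  have hX0 : (0 : ℚ) ≤ (X : ℚ) / k := by positivity
  set u : ℤ := ⌈((a + X : ℤ) : ℚ) / ((k : ℤ) : ℚ)⌉ with hu
  set v : ℤ := ⌈(a : ℚ) / ((k : ℤ) : ℚ)⌉ with hv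
  have hu1 : (u : ℚ) < (a : ℚ) / k + (X : ℚ) / k + 1 := by
    rw [hu, hdiv]
    exact Int.ceil_lt_add_one _
  have hu2 : (a : ℚ) / k + (X : ℚ) / k ≤ (u : ℚ) := by
    rw [hu, hdiv]
    exact Int.le_ceil _
  have hv1 : (v : ℚ) < (a : ℚ) / k + 1 := by
    rw [hv]
    have := Int.ceil_lt_add_one ((a : ℚ) / ((k : ℤ) : ℚ))
    simpa using this
  have hv2 : (a : ℚ) / k ≤ (v : ℚ) := by
    rw [hv]
    have := Int.le_ceil ((a : ℚ) / ((k : ℤ) : ℚ))
    simpa using this
  have huv : v ≤ u := by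
    rw [hu, hv]
    apply Int.ceil_le_ceil
    rw [hdiv]
    have : (a : ℚ) / ((k : ℤ) : ℚ) = (a : ℚ) / k := by simp
    rw [this]
    linarith
  have h3 : (((Ico a (a + X)).filter (fun x : ℤ => (k : ℤ) ∣ x)).card : ℤ) = u - v := by
    rw [h2]
    exact max_eq_left (by omega)
  have h4 : |((u - v : ℤ) : ℚ) - (X : ℚ) / k| ≤ 1 := by
    rw [abs_le]
    push_cast
    constructor <;> linarith
  have h5 : |(((u - v : ℤ) : ℚ) - (X : ℚ) / k : ℚ)| ≤ 1 := h4
  have h6 : (((|(((u - v : ℤ) : ℚ) - (X : ℚ) / k)| : ℚ)) : ℝ) ≤ ((1 : ℚ) : ℝ) := by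
    exact_mod_cast h5
  rw [Rat.cast_abs] at h6
  push_cast at h6
  have h7 : ((((Ico a (a + X)).filter (fun x : ℤ => (k : ℤ) ∣ x)).card : ℕ) : ℝ) =
      (u : ℝ) - v := by
    have : (((((Ico a (a + X)).filter (fun x : ℤ => (k : ℤ) ∣ x)).card : ℕ) : ℤ) : ℝ) =
        ((u - v : ℤ) : ℝ) := by rw [h3]
    push_cast at this
    exact this
  rw [h7]
  exact h6

theorem fm_tot {K : ℕ} (hK : 0 < K) :
    (∑ d ∈ K.divisors, ((ArithmeticFunction.moebius d : ℤ) : ℝ) / d) * K =
      (Nat.totient K : ℝ) := by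
  have h := (ArithmeticFunction.sum_eq_iff_sum_mul_moebius_eq
    (f := fun n => (Nat.totient n : ℝ)) (g := fun n => (n : ℝ))).1
    (fun n _ => by exact_mod_cast Nat.sum_totient n) K hK
  rw [← h, Nat.sum_divisorsAntidiagonal
    (f := fun x y => ((ArithmeticFunction.moebius x : ℤ) : ℝ) * (y : ℝ)), Finset.sum_mul]
  refine Finset.sum_congr rfl fun d hd => ?_
  have hd' := Nat.dvd_of_mem_divisors hd
  have hd0 : (d : ℝ) ≠ 0 := by
    have := Nat.pos_of_mem_divisors hd
    positivity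
  rw [Nat.cast_div hd' hd0]
  ring

theorem fm_card {K : ℕ} (hK : Squarefree K) : K.divisors.card = 2 ^ K.primeFactors.card := by
  rw [Nat.card_divisors hK.ne_zero]
  have : ∀ p ∈ K.primeFactors, K.factorization p + 1 = 2 := by
    intro p hp
    rw [Nat.factorization_eq_one_of_squarefree hK (Nat.prime_of_mem_primeFactors hp)
      (Nat.dvd_of_mem_primeFactors hp)]
  rw [Finset.prod_congr rfl this, Finset.prod_const]

/-- Number of elements of an interval with a given gcd. -/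
noncomputable def fmN (M : ℕ) (a : ℤ) (X g : ℕ) : ℕ :=
  ((range X).filter (fun i : ℕ => Int.gcd (a + i) M = g)).card

theorem fm_gcd {g K : ℕ} (hgK : Nat.Coprime g K) (_hg : 0 < g) (z : ℤ) :
    Int.gcd z ((g * K : ℕ) : ℤ) = g ↔ ((g : ℤ) ∣ z ∧ Int.gcd z K = 1) := by
  have h1 : Int.gcd z ((g * K : ℕ) : ℤ) = Nat.gcd z.natAbs (g * K) := by
    rw [Int.gcd_def, Int.natAbs_natCast]
  have h2 : Int.gcd z (K : ℤ) = Nat.gcd z.natAbs K := by
    rw [Int.gcd_def, Int.natAbs_natCast]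
  rw [h1, h2, Nat.Coprime.gcd_mul _ hgK, Int.natCast_dvd]
  constructor
  · intro h
    have h3 : Nat.gcd z.natAbs K ∣ g := ⟨Nat.gcd z.natAbs g, by rw [mul_comm]; exact h.symm⟩
    have h4 : Nat.gcd z.natAbs K = 1 := by
      have h5 := Nat.dvd_gcd h3 (Nat.gcd_dvd_right z.natAbs K)
      rw [hgK] at h5
      exact Nat.dvd_one.1 h5
    rw [h4, mul_one] at h
    exact ⟨h ▸ Nat.gcd_dvd_left z.natAbs g, h4⟩
  · rintro ⟨h3, h4⟩
    rw [h4, mul_one]
    exact Nat.gcd_eq_right h3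

theorem fm_E (hM : Squarefree M) {g : ℕ} (hg : g ∣ M) (a : ℤ) (X : ℕ) :
    |(fmN M a X g : ℝ) - (X : ℝ) * (Nat.totient (M / g) : ℝ) / M| ≤
      2 ^ (M / g).primeFactors.card := by
  obtain ⟨K, rfl⟩ := hg
  have hM0 : g * K ≠ 0 := hM.ne_zero
  have hg0 : 0 < g := Nat.pos_of_ne_zero (left_ne_zero_of_mul hM0)
  have hK0 : 0 < K := Nat.pos_of_ne_zero (right_ne_zero_of_mul hM0)
  have hKs : Squarefree K := hM.of_mul_right
  have hgK : Nat.Coprime g K := Nat.coprime_of_squarefree_mul hM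
  rw [Nat.mul_div_cancel_left K hg0]
  have h1 : (fmN (g * K) a X g : ℝ) = ∑ d ∈ K.divisors,
      ((ArithmeticFunction.moebius d : ℤ) : ℝ) *
        (((range X).filter (fun i : ℕ => ((g * d : ℕ) : ℤ) ∣ a + i)).card : ℝ) := by
    have h2 : (fmN (g * K) a X g : ℝ) = ∑ i ∈ range X, if ((g : ℤ) ∣ a + i) then
        (∑ d ∈ K.divisors, if (d : ℤ) ∣ a + i then
          ((ArithmeticFunction.moebius d : ℤ) : ℝ) else 0) else 0 := by
      rw [fmN, Finset.card_filter]
      push_cast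
      refine Finset.sum_congr rfl fun i _ => ?_
      rw [fm_mu _ hK0]
      have h3 := fm_gcd hgK hg0 (a + i)
      push_cast at h3
      by_cases h4 : (g : ℤ) ∣ a + i
      · by_cases h5 : Int.gcd (a + i) K = 1
        · rw [if_pos (h3.2 ⟨h4, h5⟩), if_pos h4, if_pos h5]
        · rw [if_neg (fun h => h5 (h3.1 h).2), if_pos h4, if_neg h5]
      · rw [if_neg (fun h => h4 (h3.1 h).1), if_neg h4]
    rw [h2]
    have h3 : ∀ d ∈ K.divisors, ((ArithmeticFunction.moebius d : ℤ) : ℝ) *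
        (((range X).filter (fun i : ℕ => ((g * d : ℕ) : ℤ) ∣ a + i)).card : ℝ) =
        ∑ i ∈ range X, if ((g : ℤ) ∣ a + i) then (if (d : ℤ) ∣ a + i then
          ((ArithmeticFunction.moebius d : ℤ) : ℝ) else 0) else 0 := by
      intro d hd
      rw [Finset.card_filter]
      push_cast
      rw [Finset.mul_sum]
      refine Finset.sum_congr rfl fun i _ => ?_
      have hcop : IsCoprime (g : ℤ) (d : ℤ) := by
        rw [Nat.isCoprime_iff_coprime]
        exact Nat.Coprime.coprime_dvd_right (Nat.dvd_of_mem_divisors hd) hgK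
      by_cases h4 : (g : ℤ) ∣ a + i
      · by_cases h5 : (d : ℤ) ∣ a + i
        · rw [if_pos (hcop.mul_dvd h4 h5), if_pos h4, if_pos h5, mul_one]
        · rw [if_neg (fun h => h5 ((dvd_mul_left _ _).trans h)), if_pos h4, if_neg h5, mul_zero]
      · rw [if_neg (fun h => h4 ((dvd_mul_right _ _).trans h)), if_neg h4, mul_zero]
    rw [Finset.sum_congr rfl h3, Finset.sum_comm]
    refine Finset.sum_congr rfl fun i _ => ?_
    by_cases h4 : (g : ℤ) ∣ a + i
    · simp only [h4, if_true]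
    · simp only [h4, if_false, Finset.sum_const_zero]
  have h2 : (X : ℝ) * (Nat.totient K : ℝ) / ((g * K : ℕ) : ℝ) = ∑ d ∈ K.divisors,
      ((ArithmeticFunction.moebius d : ℤ) : ℝ) * ((X : ℝ) / ((g * d : ℕ) : ℝ)) := by
    rw [← fm_tot hK0]
    have hg' : (g : ℝ) ≠ 0 := by positivity
    have hK' : (K : ℝ) ≠ 0 := by positivity
    push_cast
    rw [Finset.sum_mul, Finset.mul_sum, Finset.sum_div]
    refine Finset.sum_congr rfl fun d hd => ?_
    have hd0 : (d : ℝ) ≠ 0 := by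
      have := Nat.pos_of_mem_divisors hd
      positivity
    field_simp
  rw [h1, h2, ← Finset.sum_sub_distrib]
  refine (Finset.abs_sum_le_sum_abs _ _).trans ?_
  have h3 : ∀ d ∈ K.divisors, |((ArithmeticFunction.moebius d : ℤ) : ℝ) *
        (((range X).filter (fun i : ℕ => ((g * d : ℕ) : ℤ) ∣ a + i)).card : ℝ) -
      ((ArithmeticFunction.moebius d : ℤ) : ℝ) * ((X : ℝ) / ((g * d : ℕ) : ℝ))| ≤ 1 := by
    intro d hd
    rw [← mul_sub, abs_mul]
    have h4 : |((ArithmeticFunction.moebius d : ℤ) : ℝ)| ≤ 1 := by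
      have := ArithmeticFunction.abs_moebius_le_one (n := d)
      exact_mod_cast this
    have h5 := fm_cnt a X (k := g * d) (Nat.mul_pos hg0 (Nat.pos_of_mem_divisors hd))
    calc _ ≤ 1 * 1 := mul_le_mul h4 h5 (abs_nonneg _) zero_le_one
      _ = 1 := one_mul 1
  refine (Finset.sum_le_sum h3).trans ?_
  rw [Finset.sum_const, nsmul_eq_mul, mul_one, fm_card hKs]
  push_cast
  exact le_refl _

theorem fm_sumN (hM : 0 < M) (a : ℤ) (X : ℕ) : ∑ g ∈ M.divisors, fmN M a X g = X := by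
  have h := Finset.card_eq_sum_card_fiberwise (s := range X) (t := M.divisors)
    (f := fun i : ℕ => Int.gcd (a + i) M) (by
      intro i _
      rw [Finset.mem_coe, Nat.mem_divisors]
      exact ⟨Int.natCast_dvd_natCast.1 (Int.gcd_dvd_right (a + i) M), hM.ne'⟩)
  rw [card_range] at h
  exact h.symm

/-- The count as a sum over the gcd. -/
theorem fm_count [NeZero b] (hM : M ∣ b) (a : ℤ) (X : ℕ) (c : ℤ) (Y : ℕ) :
    (∑ κ : (ZMod b)ˣ, (cntM M (uv κ) a X c Y : ℝ)) = ∑ g ∈ M.divisors,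
      (fmN M a X g : ℝ) * (fmN M c Y g : ℝ) * ((Nat.totient b : ℝ) /
        (Nat.totient (M / g) : ℝ)) := by
  have hb0 : 0 < b := Nat.pos_of_ne_zero (NeZero.ne b)
  have hM0 : 0 < M := Nat.pos_of_dvd_of_pos hM hb0
  have h1 : (∑ κ : (ZMod b)ˣ, (cntM M (uv κ) a X c Y : ℝ)) =
      ∑ p ∈ range X ×ˢ range Y, ((UL b M (-(a + p.1), c + p.2)).card : ℝ) := by
    have h2 : ∀ κ : (ZMod b)ˣ, (cntM M (uv κ) a X c Y : ℝ) = ∑ p ∈ range X ×ˢ range Y,
        if κ ∈ UL b M (-(a + p.1), c + p.2) then (1 : ℝ) else 0 := by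
      intro κ
      rw [cntM, Finset.card_filter]
      push_cast
      refine Finset.sum_congr rfl fun p _ => ?_
      have h3 : ((M : ℤ) ∣ (c + p.2) - uv κ * (a + p.1)) ↔
          κ ∈ UL b M (-(a + p.1), c + p.2) := by
        rw [UL, mem_filter]
        simp only [mem_univ, true_and]
        have : (c + (p.2 : ℤ)) + -(a + (p.1 : ℤ)) * uv κ = (c + p.2) - uv κ * (a + p.1) := by
          ring
        rw [this]
      by_cases h4 : (M : ℤ) ∣ (c + p.2) - uv κ * (a + p.1)
      · rw [if_pos h4, if_pos (h3.1 h4)]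
      · rw [if_neg h4, if_neg (fun h => h4 (h3.2 h))]
    simp_rw [h2]
    rw [Finset.sum_comm]
    refine Finset.sum_congr rfl fun p _ => ?_
    rw [Finset.sum_ite_mem, Finset.univ_inter, Finset.sum_const, nsmul_eq_mul, mul_one]
  have h2 : ∀ p ∈ range X ×ˢ range Y, ((UL b M (-(a + p.1), c + p.2)).card : ℝ) =
      ∑ g ∈ M.divisors, (if Int.gcd (a + p.1) M = g then (1 : ℝ) else 0) *
        (if Int.gcd (c + p.2) M = g then (1 : ℝ) else 0) * ((Nat.totient b : ℝ) /
        (Nat.totient (M / g) : ℝ)) := by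
    intro p _
    have hgd : Int.gcd (a + p.1) M ∈ M.divisors := by
      rw [Nat.mem_divisors]
      exact ⟨Int.natCast_dvd_natCast.1 (Int.gcd_dvd_right (a + p.1) M), hM0.ne'⟩
    have h3 : (∑ g ∈ M.divisors, (if Int.gcd (a + p.1) M = g then (1 : ℝ) else 0) *
        (if Int.gcd (c + p.2) M = g then (1 : ℝ) else 0) * ((Nat.totient b : ℝ) /
        (Nat.totient (M / g) : ℝ))) =
        (if Int.gcd (c + p.2) M = Int.gcd (a + p.1) M then (1 : ℝ) else 0) *
          ((Nat.totient b : ℝ) / (Nat.totient (M / Int.gcd (a + p.1) M) : ℝ)) := by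
      rw [Finset.sum_eq_single (Int.gcd (a + p.1) M)]
      · rw [if_pos rfl, one_mul]
      · intro g _ hg
        rw [if_neg (Ne.symm hg), zero_mul, zero_mul]
      · intro h
        exact absurd hgd h
    rw [h3]
    have hneg : Int.gcd (-(a + (p.1 : ℤ))) M = Int.gcd (a + p.1) M := by
      rw [Int.gcd_def, Int.gcd_def, Int.natAbs_neg]
    by_cases h4 : Int.gcd (c + p.2) M = Int.gcd (a + p.1) M
    · rw [if_pos h4, one_mul]
      have h5 := cnt_gcd b hM (-(a + p.1), c + p.2) (by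
        show Int.gcd (-(a + (p.1 : ℤ))) M = Int.gcd (c + p.2) M
        rw [hneg, h4])
      have h5' : Nat.totient (M / Int.gcd (a + p.1) M) *
          (UL b M (-(a + p.1), c + p.2)).card = Nat.totient b := by
        rw [← hneg]
        exact h5
      have h6 : (0 : ℝ) < (Nat.totient (M / Int.gcd (a + p.1) M) : ℝ) := by
        have h7 : 0 < Nat.totient (M / Int.gcd (a + p.1) M) := by
          rw [Nat.totient_pos]
          exact Nat.div_pos (Nat.le_of_dvd hM0 (Nat.dvd_of_mem_divisors hgd))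
            (Nat.pos_of_mem_divisors hgd)
        exact_mod_cast h7
      rw [eq_div_iff h6.ne', mul_comm]
      exact_mod_cast h5'
    · rw [if_neg h4, zero_mul]
      have h5 : UL b M (-(a + p.1), c + p.2) = ∅ := by
        rw [Finset.eq_empty_iff_forall_notMem]
        intro κ hκ
        have h6 : Int.gcd (-(a + (p.1 : ℤ))) M = Int.gcd (c + p.2) M := UL_gcd b hM _ hκ
        rw [hneg] at h6
        exact h4 h6.symm
      rw [h5]
      simp
  rw [h1, Finset.sum_congr rfl h2, Finset.sum_comm]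
  refine Finset.sum_congr rfl fun g _ => ?_
  rw [← Finset.sum_mul, Finset.sum_product]
  congr 1
  rw [fmN, fmN, Finset.card_filter, Finset.card_filter]
  push_cast
  rw [Finset.sum_mul_sum]

theorem full_mean (h : Bm m b) [NeZero b] (hM : M ∣ b) (a : ℤ) (X : ℕ) (c : ℤ) (Y : ℕ) :
    |∑ κ : (ZMod b)ˣ, DM M (uv κ) a X c Y| ≤ 2 * (Nat.totient b : ℝ) := by
  have hb0 : 0 < b := Nat.pos_of_ne_zero (NeZero.ne b)
  have hM0 : 0 < M := Nat.pos_of_dvd_of_pos hM hb0
  have hMr : (0 : ℝ) < M := by exact_mod_cast hM0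
  have hMs : Squarefree M := h.sq.squarefree_of_dvd hM
  have hB : (0 : ℝ) ≤ (Nat.totient b : ℝ) := by positivity
  set E : ℕ → ℝ := fun g => (fmN M a X g : ℝ) - (X : ℝ) * (Nat.totient (M / g) : ℝ) / M with hE
  set F : ℕ → ℝ := fun g => (fmN M c Y g : ℝ) - (Y : ℝ) * (Nat.totient (M / g) : ℝ) / M with hF
  have htot : (∑ g ∈ M.divisors, (Nat.totient (M / g) : ℝ)) = M := by
    have h1 := Nat.sum_totient M
    rw [← Nat.sum_div_divisors] at h1
    exact_mod_cast h1
  have hpos : ∀ g ∈ M.divisors, (0 : ℝ) < (Nat.totient (M / g) : ℝ) := by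
    intro g hg
    have h7 : 0 < Nat.totient (M / g) := by
      rw [Nat.totient_pos]
      exact Nat.div_pos (Nat.le_of_dvd hM0 (Nat.dvd_of_mem_divisors hg))
        (Nat.pos_of_mem_divisors hg)
    exact_mod_cast h7
  have hsE : (∑ g ∈ M.divisors, E g) = 0 := by
    rw [hE, Finset.sum_sub_distrib]
    have h1 : (∑ g ∈ M.divisors, (fmN M a X g : ℝ)) = X := by
      exact_mod_cast fm_sumN hM0 a X
    rw [h1]
    have h2 : (∑ g ∈ M.divisors, (X : ℝ) * (Nat.totient (M / g) : ℝ) / M) = X := by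
      rw [← Finset.sum_div, ← Finset.mul_sum, htot]
      field_simp
    rw [h2, sub_self]
  have hsF : (∑ g ∈ M.divisors, F g) = 0 := by
    rw [hF, Finset.sum_sub_distrib]
    have h1 : (∑ g ∈ M.divisors, (fmN M c Y g : ℝ)) = Y := by
      exact_mod_cast fm_sumN hM0 c Y
    rw [h1]
    have h2 : (∑ g ∈ M.divisors, (Y : ℝ) * (Nat.totient (M / g) : ℝ) / M) = Y := by
      rw [← Finset.sum_div, ← Finset.mul_sum, htot]
      field_simp
    rw [h2, sub_self]
  have hcard : (Fintype.card (ZMod b)ˣ : ℝ) = (Nat.totient b : ℝ) := by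
    rw [ZMod.card_units_eq_totient]
  have hmain : (∑ κ : (ZMod b)ˣ, DM M (uv κ) a X c Y) = (Nat.totient b : ℝ) *
      ∑ g ∈ M.divisors, E g * F g / (Nat.totient (M / g) : ℝ) := by
    simp only [DM]
    rw [Finset.sum_sub_distrib, fm_count hM, Finset.sum_const, Finset.card_univ, nsmul_eq_mul,
      hcard]
    have h1 : (∑ g ∈ M.divisors, (fmN M a X g : ℝ) * (fmN M c Y g : ℝ) *
        ((Nat.totient b : ℝ) / (Nat.totient (M / g) : ℝ))) =
        (Nat.totient b : ℝ) * ∑ g ∈ M.divisors, (E g * F g / (Nat.totient (M / g) : ℝ) +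
          (X : ℝ) / M * F g + (Y : ℝ) / M * E g +
          (X : ℝ) * Y / M / M * (Nat.totient (M / g) : ℝ)) := by
      rw [Finset.mul_sum]
      refine Finset.sum_congr rfl fun g hg => ?_
      have h2 := hpos g hg
      simp only [hE, hF]
      field_simp
      ring
    rw [h1]
    simp only [Finset.sum_add_distrib]
    rw [← Finset.mul_sum, ← Finset.mul_sum, ← Finset.mul_sum, hsE, hsF, htot]
    field_simp
    ring
  rw [hmain, abs_mul, abs_of_nonneg hB, mul_comm]
  refine mul_le_mul_of_nonneg_right ?_ hB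
  refine (Finset.abs_sum_le_sum_abs _ _).trans ?_
  refine (Finset.sum_le_sum (fun g hg => ?_)).trans (h.dvd hM).four
  have h2 := hpos g hg
  rw [abs_div, abs_of_pos h2, abs_mul]
  refine div_le_div_of_nonneg_right ?_ h2.le
  have hgM := Nat.dvd_of_mem_divisors hg
  have h3 := fm_E hMs hgM a X
  have h4 := fm_E hMs hgM c Y
  calc |E g| * |F g| ≤ 2 ^ (M / g).primeFactors.card * 2 ^ (M / g).primeFactors.card :=
        mul_le_mul h3 h4 (abs_nonneg _) (by positivity)
    _ = (4 : ℝ) ^ (M / g).primeFactors.card := by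
        rw [← mul_pow]
        norm_num

end DiscPS
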