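import Pool.Agent.Work.DiscPS.Cnt
import Pool.Agent.Work.DiscPS.Div

/-!
# The number of bad multipliers: (2.4)
-/

namespace DiscPS

open Finset

variable {m r : ℕ} {l : ℕ → ℕ}

/-- multiples of `g` in a dyadic block -/
lemma goodC_cnt (g i : ℕ) (hg : 0 < g) :
    (((dy i).filter fun x => (g : ℤ) ∣ x).card : ℝ) ≤ 4 * 2 ^ i / g := by
  set Y : ℕ := 2 ^ (i + 1) / g with hY
  have hgz : (0 : ℤ) < g := by exact_mod_cast hg
  have h1 : ((dy i).filter fun x => (g : ℤ) ∣ x).card ≤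
      ((Icc (-(Y : ℤ)) Y).erase 0).card := by
    apply card_le_card_of_injOn (fun x => x / (g : ℤ))
    · intro x hx
      rw [mem_coe, mem_filter, mem_dy] at hx
      obtain ⟨⟨hx1, hx2⟩, y, rfl⟩ := hx
      rw [mem_coe, mem_erase, mem_Icc]
      simp only
      rw [Int.mul_ediv_cancel_left y hgz.ne']
      have hy0 : y ≠ 0 := by
        rintro rfl
        rw [mul_zero, abs_zero] at hx1
        have : (0 : ℤ) < 2 ^ i := by positivity
        omega
      refine ⟨hy0, ?_⟩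
      rw [← abs_le]
      have h3 : y.natAbs ≤ Y := by
        rw [hY, Nat.le_div_iff_mul_le hg]
        have h4 : ((y.natAbs * g : ℕ) : ℤ) ≤ ((2 ^ (i + 1) : ℕ) : ℤ) := by
          push_cast
          rw [abs_mul, abs_of_pos hgz] at hx2
          rw [mul_comm]
          exact hx2.le
        exact_mod_cast h4
      rw [Int.abs_eq_natAbs]
      exact_mod_cast h3
    · intro x hx x' hx' he
      rw [mem_coe, mem_filter] at hx hx'
      simp only at he
      obtain ⟨y, rfl⟩ := hx.2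
      obtain ⟨y', rfl⟩ := hx'.2
      rw [Int.mul_ediv_cancel_left y hgz.ne', Int.mul_ediv_cancel_left y' hgz.ne'] at he
      rw [he]
  have h2 : ((Icc (-(Y : ℤ)) Y).erase 0).card = 2 * Y := by
    have h0 : (0 : ℤ) ≤ (Y : ℤ) := Int.natCast_nonneg Y
    generalize Y = Y' at h0 ⊢
    rw [card_erase_of_mem (by rw [mem_Icc]; omega), Int.card_Icc]
    omega
  rw [h2] at h1
  have h3 : ((2 * Y : ℕ) : ℝ) ≤ 4 * 2 ^ i / g := by
    have h4 : (Y : ℝ) ≤ ((2 ^ (i + 1) : ℕ) : ℝ) / g := Nat.cast_div_le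
    push_cast at h4 ⊢
    calc (2 : ℝ) * Y ≤ 2 * (2 ^ (i + 1) / g) := by linarith
      _ = 4 * 2 ^ i / g := by rw [pow_succ]; ring
  exact le_trans (by exact_mod_cast h1) h3

lemma goodC_geo (J : Finset ℕ) (A : ℝ) (hA : 0 ≤ A) (hJ : ∀ j ∈ J, (2 : ℝ) ^ j ≤ A) :
    ∑ j ∈ J, (2 : ℝ) ^ j ≤ 2 * A := by
  rcases J.eq_empty_or_nonempty with rfl | hne
  · rw [sum_empty]; linarith
  · have h1 : J ⊆ range (J.max' hne + 1) := by
      intro j hj
      rw [mem_range]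
      have := J.le_max' j hj
      omega
    have h2 := hJ _ (J.max'_mem hne)
    calc ∑ j ∈ J, (2 : ℝ) ^ j ≤ ∑ j ∈ range (J.max' hne + 1), (2 : ℝ) ^ j :=
          sum_le_sum_of_subset_of_nonneg h1 fun _ _ _ => by positivity
      _ = 2 ^ (J.max' hne + 1) - 1 := by
          rw [geom_sum_eq (by norm_num)]; norm_num
      _ ≤ 2 * A := by rw [pow_succ]; linarith

lemma goodC_UL (h : Par m r l) [NeZero (Mk l r)] {M : ℕ} (hM : IsMM l r M) (x : ℤ × ℤ) :
    ((UL (Mk l r) M x).card : ℝ) ≤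
      2 * (Int.gcd x.1 M : ℝ) / M * (Nat.totient (Mk l r) : ℝ) := by
  have hMb := h.bmM hM
  have hM0 : (0 : ℝ) < M := by exact_mod_cast hMb.pos
  rcases (UL (Mk l r) M x).eq_empty_or_nonempty with he | ⟨κ, hκ⟩
  · rw [he, card_empty, Nat.cast_zero]
    positivity
  · have hg := UL_gcd (Mk l r) (h.dvd hM) x hκ
    have hc := cnt_gcd (Mk l r) (h.dvd hM) x hg
    have hdv : Int.gcd x.1 M ∣ M := by
      have := Int.gcd_dvd_right x.1 (M : ℤ)
      exact_mod_cast this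
    have hgpos : 0 < Int.gcd x.1 M := Nat.pos_of_dvd_of_pos hdv hMb.pos
    have hhalf := (hMb.dvd (Nat.div_dvd_of_dvd hdv)).half
    have h1 : M * (UL (Mk l r) M x).card ≤ 2 * Int.gcd x.1 M * Nat.totient (Mk l r) := by
      calc M * (UL (Mk l r) M x).card
          = Int.gcd x.1 M * (M / Int.gcd x.1 M) * (UL (Mk l r) M x).card := by
            rw [Nat.mul_div_cancel' hdv]
        _ ≤ Int.gcd x.1 M * (2 * Nat.totient (M / Int.gcd x.1 M)) * (UL (Mk l r) M x).card :=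
            Nat.mul_le_mul_right _ (Nat.mul_le_mul_left _ hhalf)
        _ = 2 * Int.gcd x.1 M * (Nat.totient (M / Int.gcd x.1 M) * (UL (Mk l r) M x).card) := by
            ring
        _ = 2 * Int.gcd x.1 M * Nat.totient (Mk l r) := by rw [hc]
    have h2 : (M : ℝ) * ((UL (Mk l r) M x).card : ℝ) ≤
        2 * (Int.gcd x.1 M : ℝ) * (Nat.totient (Mk l r) : ℝ) := by exact_mod_cast h1
    rw [div_mul_eq_mul_div, le_div_iff₀ hM0]
    linarith

open Classical in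
lemma goodC_box (h : Par m r l) [NeZero (Mk l r)] {M : ℕ} (hM : IsMM l r M) (D : Finset ℕ)
    (hD : D ⊆ M.divisors) (i j : ℕ) :
    ((univ.filter fun κ : (ZMod (Mk l r))ˣ => ∃ x ∈ dy i ×ˢ dy j, κ ∈ UL (Mk l r) M x ∧
        Int.gcd x.1 M ∈ D).card : ℝ) ≤
      32 / M * (Nat.totient (Mk l r) : ℝ) * (∑ g ∈ D, 1 / (g : ℝ)) * (2 ^ i * 2 ^ j) := by
  have hMb := h.bmM hM
  have hM0 : (0 : ℝ) < M := by exact_mod_cast hMb.pos
  set φ : ℝ := (Nat.totient (Mk l r) : ℝ) with hφ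
  have hφ0 : 0 ≤ φ := Nat.cast_nonneg _
  have hsub : (univ.filter fun κ : (ZMod (Mk l r))ˣ => ∃ x ∈ dy i ×ˢ dy j,
      κ ∈ UL (Mk l r) M x ∧ Int.gcd x.1 M ∈ D) ⊆
      D.biUnion fun g => (((dy i).filter fun x => (g : ℤ) ∣ x) ×ˢ
        ((dy j).filter fun x => (g : ℤ) ∣ x)).biUnion fun x =>
          if Int.gcd x.1 M = g then UL (Mk l r) M x else ∅ := by
    intro κ hκ
    rw [mem_filter] at hκ
    obtain ⟨-, x, hx, hκx, hg⟩ := hκ
    rw [mem_product] at hx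
    rw [mem_biUnion]
    refine ⟨_, hg, ?_⟩
    rw [mem_biUnion]
    refine ⟨x, ?_, ?_⟩
    · rw [mem_product, mem_filter, mem_filter]
      refine ⟨⟨hx.1, Int.gcd_dvd_left x.1 (M : ℤ)⟩, hx.2, ?_⟩
      rw [UL_gcd (Mk l r) (h.dvd hM) x hκx]
      exact Int.gcd_dvd_left x.2 (M : ℤ)
    · rw [if_pos rfl]
      exact hκx
  have h1 := (card_le_card hsub).trans card_biUnion_le
  have h2 : ∀ g ∈ D, (((((dy i).filter fun x => (g : ℤ) ∣ x) ×ˢ
        ((dy j).filter fun x => (g : ℤ) ∣ x)).biUnion fun x =>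
          if Int.gcd x.1 M = g then UL (Mk l r) M x else ∅).card : ℝ) ≤
        32 / M * φ * (1 / (g : ℝ)) * (2 ^ i * 2 ^ j) := by
    intro g hg
    have hgpos : 0 < g := Nat.pos_of_mem_divisors (hD hg)
    have hg0 : (0 : ℝ) < g := by exact_mod_cast hgpos
    have h3 : ∀ x : ℤ × ℤ, ((if Int.gcd x.1 M = g then UL (Mk l r) M x else ∅ :
        Finset (ZMod (Mk l r))ˣ).card : ℝ) ≤ 2 * (g : ℝ) / M * φ := by
      intro x
      split_ifs with hx
      · rw [← hx]; exact goodC_UL h hM x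
      · rw [card_empty, Nat.cast_zero]; positivity
    have h4 := card_biUnion_le (s := (((dy i).filter fun x => (g : ℤ) ∣ x) ×ˢ
        ((dy j).filter fun x => (g : ℤ) ∣ x))) (t := fun x =>
          if Int.gcd x.1 M = g then UL (Mk l r) M x else ∅)
    have h5 := goodC_cnt g i hgpos
    have h6 := goodC_cnt g j hgpos
    calc (((((dy i).filter fun x => (g : ℤ) ∣ x) ×ˢ
        ((dy j).filter fun x => (g : ℤ) ∣ x)).biUnion fun x =>
          if Int.gcd x.1 M = g then UL (Mk l r) M x else ∅).card : ℝ)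
        ≤ ∑ x ∈ (((dy i).filter fun x => (g : ℤ) ∣ x) ×ˢ
          ((dy j).filter fun x => (g : ℤ) ∣ x)),
            ((if Int.gcd x.1 M = g then UL (Mk l r) M x else ∅ :
              Finset (ZMod (Mk l r))ˣ).card : ℝ) := by exact_mod_cast h4
      _ ≤ ∑ _x ∈ (((dy i).filter fun x => (g : ℤ) ∣ x) ×ˢ
          ((dy j).filter fun x => (g : ℤ) ∣ x)), 2 * (g : ℝ) / M * φ :=
          sum_le_sum fun x _ => h3 x
      _ = (((dy i).filter fun x => (g : ℤ) ∣ x).card : ℝ) *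
          (((dy j).filter fun x => (g : ℤ) ∣ x).card : ℝ) * (2 * (g : ℝ) / M * φ) := by
          rw [sum_const, card_product, nsmul_eq_mul]; push_cast; ring
      _ ≤ (4 * 2 ^ i / g) * (4 * 2 ^ j / g) * (2 * (g : ℝ) / M * φ) := by
          apply mul_le_mul_of_nonneg_right _ (by positivity)
          exact mul_le_mul h5 h6 (Nat.cast_nonneg _) (by positivity)
      _ = 32 / M * φ * (1 / (g : ℝ)) * (2 ^ i * 2 ^ j) := by
          field_simp
          ring
  calc ((univ.filter fun κ : (ZMod (Mk l r))ˣ => ∃ x ∈ dy i ×ˢ dy j, κ ∈ UL (Mk l r) M x ∧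
        Int.gcd x.1 M ∈ D).card : ℝ) ≤ ∑ g ∈ D, (((((dy i).filter fun x => (g : ℤ) ∣ x) ×ˢ
        ((dy j).filter fun x => (g : ℤ) ∣ x)).biUnion fun x =>
          if Int.gcd x.1 M = g then UL (Mk l r) M x else ∅).card : ℝ) := by exact_mod_cast h1
    _ ≤ ∑ g ∈ D, 32 / M * φ * (1 / (g : ℝ)) * (2 ^ i * 2 ^ j) := sum_le_sum h2
    _ = 32 / M * φ * (∑ g ∈ D, 1 / (g : ℝ)) * (2 ^ i * 2 ^ j) := by
        rw [mul_sum, sum_mul]

open Classical in
lemma goodC_M (h : Par m r l) [NeZero (Mk l r)] {M : ℕ} (hM : IsMM l r M) (D : Finset ℕ)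
    (hD : D ⊆ M.divisors) (S : ℝ) (hS : ∑ g ∈ D, 1 / (g : ℝ) ≤ S) :
    ((univ.filter fun κ : (ZMod (Mk l r))ˣ => ∃ q p, Short m M (uv κ) q p ∧
        Int.gcd q M ∈ D).card : ℝ) ≤
      64 * S * (m + 1) / (m : ℝ) ^ 28 * (Nat.totient (Mk l r) : ℝ) := by
  have hMb := h.bmM hM
  have hM0 : (0 : ℝ) < M := by exact_mod_cast hMb.pos
  have hm0 : 0 < m := by have := h.hm; omega
  have hm1 : (0 : ℝ) < m := by exact_mod_cast hm0
  have hS0 : 0 ≤ S := le_trans (sum_nonneg fun g _ => by positivity) hS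
  set φ : ℝ := (Nat.totient (Mk l r) : ℝ) with hφ
  have hφ0 : 0 ≤ φ := Nat.cast_nonneg _
  let Bx : Finset (ℕ × ℕ) := (range (m + 1) ×ˢ range (m + 1)).filter
    fun p => 2 ^ p.1 * 2 ^ p.2 * m ^ 28 ≤ M
  have hsub : (univ.filter fun κ : (ZMod (Mk l r))ˣ => ∃ q p, Short m M (uv κ) q p ∧
        Int.gcd q M ∈ D) ⊆ Bx.biUnion fun p => univ.filter fun κ : (ZMod (Mk l r))ˣ =>
          ∃ x ∈ dy p.1 ×ˢ dy p.2, κ ∈ UL (Mk l r) M x ∧ Int.gcd x.1 M ∈ D := by
    intro κ hκ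
    rw [mem_filter] at hκ
    obtain ⟨-, q, p, ⟨hq, hp, hdv, hbr⟩, hg⟩ := hκ
    have hlt : ∀ i j : ℕ, 2 ^ i * 2 ^ j * m ^ 28 ≤ M → i < m + 1 ∧ j < m + 1 := by
      intro i j hij
      have h28 : 1 ≤ m ^ 28 := Nat.one_le_pow _ _ hm0
      have h1 : 2 ^ i * 2 ^ j ≤ 2 ^ m := by
        calc 2 ^ i * 2 ^ j = 2 ^ i * 2 ^ j * 1 := (mul_one _).symm
          _ ≤ 2 ^ i * 2 ^ j * m ^ 28 := Nat.mul_le_mul_left _ h28
          _ ≤ M := hij
          _ ≤ 2 ^ m := hMb.le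
      rw [← pow_add] at h1
      have := (Nat.pow_le_pow_iff_right (by norm_num : 1 < 2)).mp h1
      omega
    unfold br at hbr
    have hb := hlt _ _ hbr
    rw [mem_biUnion]
    refine ⟨(Nat.log 2 q.natAbs, Nat.log 2 p.natAbs), ?_, ?_⟩
    · rw [mem_filter, mem_product, mem_range, mem_range]
      exact ⟨hb, hbr⟩
    · rw [mem_filter]
      refine ⟨mem_univ _, (q, p), ?_, ?_, hg⟩
      · have hdy : ∀ z : ℤ, z ≠ 0 → z ∈ dy (Nat.log 2 z.natAbs) := by
          intro z hz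
          rw [mem_dy, Int.abs_eq_natAbs]
          have hz' : z.natAbs ≠ 0 := Int.natAbs_ne_zero.mpr hz
          constructor
          · exact_mod_cast Nat.pow_log_le_self 2 hz'
          · exact_mod_cast Nat.lt_pow_succ_log_self (by norm_num : 1 < 2) z.natAbs
        rw [mem_product]
        exact ⟨hdy q hq, hdy p hp⟩
      · unfold UL
        rw [mem_filter]
        exact ⟨mem_univ _, hdv⟩
  have h1 := (card_le_card hsub).trans card_biUnion_le
  have h2 : ∑ p ∈ Bx, ((2 : ℝ) ^ p.1 * 2 ^ p.2) ≤ (m + 1) * (2 * (M / (m : ℝ) ^ 28)) := by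
    show ∑ p ∈ (range (m + 1) ×ˢ range (m + 1)).filter
      (fun p => 2 ^ p.1 * 2 ^ p.2 * m ^ 28 ≤ M), ((2 : ℝ) ^ p.1 * 2 ^ p.2) ≤ _
    rw [sum_filter, sum_product]
    have h3 : ∀ i ∈ range (m + 1), ∑ j ∈ range (m + 1),
        (if 2 ^ i * 2 ^ j * m ^ 28 ≤ M then (2 : ℝ) ^ i * 2 ^ j else 0) ≤
        2 * (M / (m : ℝ) ^ 28) := by
      intro i _
      rw [← sum_filter, ← mul_sum]
      have h4 := goodC_geo ((range (m + 1)).filter fun j => 2 ^ i * 2 ^ j * m ^ 28 ≤ M)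
        (M / (2 ^ i * (m : ℝ) ^ 28)) (by positivity) (by
          intro j hj
          rw [mem_filter] at hj
          rw [le_div_iff₀ (by positivity)]
          have h5 : ((2 ^ i * 2 ^ j * m ^ 28 : ℕ) : ℝ) ≤ M := by exact_mod_cast hj.2
          push_cast at h5
          calc (2 : ℝ) ^ j * ((2 : ℝ) ^ i * (m : ℝ) ^ 28) =
                (2 : ℝ) ^ i * (2 : ℝ) ^ j * (m : ℝ) ^ 28 := by ring
            _ ≤ (M : ℝ) := h5)
      calc (2 : ℝ) ^ i * ∑ j ∈ (range (m + 1)).filter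
            (fun j => 2 ^ i * 2 ^ j * m ^ 28 ≤ M), (2 : ℝ) ^ j
          ≤ 2 ^ i * (2 * (M / (2 ^ i * (m : ℝ) ^ 28))) :=
            mul_le_mul_of_nonneg_left h4 (by positivity)
        _ = 2 * (M / (m : ℝ) ^ 28) := by
            field_simp
    refine (sum_le_sum h3).trans (le_of_eq ?_)
    rw [sum_const, card_range, nsmul_eq_mul]
    push_cast
    ring
  calc ((univ.filter fun κ : (ZMod (Mk l r))ˣ => ∃ q p, Short m M (uv κ) q p ∧
        Int.gcd q M ∈ D).card : ℝ)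
      ≤ ∑ p ∈ Bx, ((univ.filter fun κ : (ZMod (Mk l r))ˣ =>
          ∃ x ∈ dy p.1 ×ˢ dy p.2, κ ∈ UL (Mk l r) M x ∧ Int.gcd x.1 M ∈ D).card : ℝ) := by
        exact_mod_cast h1
    _ ≤ ∑ p ∈ Bx, 32 / M * φ * (∑ g ∈ D, 1 / (g : ℝ)) * (2 ^ p.1 * 2 ^ p.2) :=
        sum_le_sum fun p _ => goodC_box h hM D hD p.1 p.2
    _ = 32 / M * φ * (∑ g ∈ D, 1 / (g : ℝ)) * ∑ p ∈ Bx, ((2 : ℝ) ^ p.1 * 2 ^ p.2) :=
        (mul_sum _ _ _).symm
    _ ≤ 32 / M * φ * S * ((m + 1) * (2 * (M / (m : ℝ) ^ 28))) := by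
        apply mul_le_mul _ h2 (sum_nonneg fun p _ => by positivity) (by positivity)
        exact mul_le_mul_of_nonneg_left hS (by positivity)
    _ = 64 * S * (m + 1) / (m : ℝ) ^ 28 * φ := by
        field_simp
        ring

open Classical in
lemma goodC_all (h : Par m r l) [NeZero (Mk l r)] (D : ℕ → Finset ℕ)
    (hD : ∀ M, IsMM l r M → D M ⊆ M.divisors) (S : ℝ) (hS0 : 0 ≤ S)
    (hS : ∀ M, IsMM l r M → ∑ g ∈ D M, 1 / (g : ℝ) ≤ S) :
    ((univ.filter fun κ : (ZMod (Mk l r))ˣ => ∃ M q p, IsMM l r M ∧ Short m M (uv κ) q p ∧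
        Int.gcd q M ∈ D M).card : ℝ) ≤
      64 * S / (m : ℝ) ^ 26 * (Nat.totient (Mk l r) : ℝ) := by
  have hm0 : 0 < m := by have := h.hm; omega
  have hm1 : (1 : ℝ) ≤ m := by exact_mod_cast hm0
  set φ : ℝ := (Nat.totient (Mk l r) : ℝ) with hφ
  have hφ0 : 0 ≤ φ := Nat.cast_nonneg _
  have hsub : (univ.filter fun κ : (ZMod (Mk l r))ˣ => ∃ M q p, IsMM l r M ∧
      Short m M (uv κ) q p ∧ Int.gcd q M ∈ D M) ⊆
      (MMs l r).biUnion fun M => univ.filter fun κ : (ZMod (Mk l r))ˣ =>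
        ∃ q p, Short m M (uv κ) q p ∧ Int.gcd q M ∈ D M := by
    intro κ hκ
    rw [mem_filter] at hκ
    obtain ⟨-, M, q, p, hM, hs, hg⟩ := hκ
    rw [mem_biUnion]
    exact ⟨M, (h.mem_MMs).mpr hM, by rw [mem_filter]; exact ⟨mem_univ _, q, p, hs, hg⟩⟩
  have h1 := (card_le_card hsub).trans card_biUnion_le
  have h2 : ((MMs l r).card : ℝ) ≤ m / 2 := by
    have : ((2 * (MMs l r).card : ℕ) : ℝ) ≤ m := by exact_mod_cast h.card_MMs
    push_cast at this
    linarith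
  calc ((univ.filter fun κ : (ZMod (Mk l r))ˣ => ∃ M q p, IsMM l r M ∧
      Short m M (uv κ) q p ∧ Int.gcd q M ∈ D M).card : ℝ)
      ≤ ∑ M ∈ MMs l r, ((univ.filter fun κ : (ZMod (Mk l r))ˣ =>
        ∃ q p, Short m M (uv κ) q p ∧ Int.gcd q M ∈ D M).card : ℝ) := by exact_mod_cast h1
    _ ≤ ∑ _M ∈ MMs l r, 64 * S * (m + 1) / (m : ℝ) ^ 28 * φ := by
        apply sum_le_sum
        intro M hM
        have hM' := (h.mem_MMs).mp hM
        exact goodC_M h hM' (D M) (hD M hM') S (hS M hM')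
    _ = ((MMs l r).card : ℝ) * (64 * S * (m + 1) / (m : ℝ) ^ 28 * φ) := by
        rw [sum_const, nsmul_eq_mul]
    _ ≤ (m / 2) * (64 * S * (m + 1) / (m : ℝ) ^ 28 * φ) :=
        mul_le_mul_of_nonneg_right h2 (by positivity)
    _ ≤ (m / 2) * (64 * S * (2 * m) / (m : ℝ) ^ 28 * φ) := by
        apply mul_le_mul_of_nonneg_left _ (by positivity)
        apply mul_le_mul_of_nonneg_right _ hφ0
        apply div_le_div_of_nonneg_right _ (by positivity)
        apply mul_le_mul_of_nonneg_left _ (by positivity)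
        linarith
    _ = 64 * S / (m : ℝ) ^ 26 * φ := by
        have : (m : ℝ) ≠ 0 := by linarith
        field_simp

theorem good_card (h : Par m r l) [NeZero (Mk l r)] :
    (1 - 1000 / (m : ℝ) ^ 26) * (Nat.totient (Mk l r) : ℝ) ≤ ((Good m r l).card : ℝ) := by
  classical
  have hm0 : 0 < m := by have := h.hm; omega
  have hm1 : (0 : ℝ) < m := by exact_mod_cast hm0
  have hb := goodC_all h (fun M => M.divisors) (fun M _ => Subset.rfl) 2 (by norm_num)
    (fun M hM => (h.bmM hM).sum)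
  have hsub : (univ.filter fun κ : (ZMod (Mk l r))ˣ => Bad m r l (uv κ)) ⊆
      univ.filter fun κ : (ZMod (Mk l r))ˣ => ∃ M q p, IsMM l r M ∧ Short m M (uv κ) q p ∧
        Int.gcd q M ∈ M.divisors := by
    intro κ hκ
    rw [mem_filter] at hκ ⊢
    obtain ⟨-, M, q, p, hM, hs⟩ := hκ
    refine ⟨mem_univ _, M, q, p, hM, hs, ?_⟩
    rw [Nat.mem_divisors]
    refine ⟨?_, (h.bmM hM).pos.ne'⟩
    have := Int.gcd_dvd_right q (M : ℤ)
    exact_mod_cast this
  have h1 : ((univ.filter fun κ : (ZMod (Mk l r))ˣ => Bad m r l (uv κ)).card : ℝ) ≤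
      64 * 2 / (m : ℝ) ^ 26 * (Nat.totient (Mk l r) : ℝ) :=
    le_trans (by exact_mod_cast card_le_card hsub) hb
  have h2 : ((Good m r l).card : ℝ) +
      ((univ.filter fun κ : (ZMod (Mk l r))ˣ => Bad m r l (uv κ)).card : ℝ) =
      (Nat.totient (Mk l r) : ℝ) := by
    have h3 := card_filter_add_card_filter_not (s := (univ : Finset (ZMod (Mk l r))ˣ))
      (fun κ => Bad m r l (uv κ))
    rw [card_univ, ZMod.card_units_eq_totient] at h3
    have h4 : (Good m r l) = univ.filter fun κ : (ZMod (Mk l r))ˣ => ¬ Bad m r l (uv κ) := by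
      unfold Good
      congr
    rw [h4]
    exact_mod_cast (add_comm _ _).trans h3
  have h5 : 64 * 2 / (m : ℝ) ^ 26 * (Nat.totient (Mk l r) : ℝ) ≤
      1000 / (m : ℝ) ^ 26 * (Nat.totient (Mk l r) : ℝ) := by
    apply mul_le_mul_of_nonneg_right _ (Nat.cast_nonneg _)
    apply div_le_div_of_nonneg_right _ (by positivity)
    norm_num
  linarith

open Classical in
theorem badB_card (h : Par m r l) [NeZero (Mk l r)] :
    (((Finset.univ : Finset (ZMod (Mk l r))ˣ).filter (fun κ => BadB m r l (uv κ))).card : ℝ) ≤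
      1000 / (m : ℝ) ^ 41 * (Nat.totient (Mk l r) : ℝ) := by
  have hm0 : 0 < m := by have := h.hm; omega
  have hm1 : (0 : ℝ) < m := by exact_mod_cast hm0
  have hb := goodC_all h (fun M => M.divisors.erase 1) (fun M _ => erase_subset _ _)
    (2 / (m : ℝ) ^ 15) (by positivity) (fun M hM => (h.bmM hM).sum')
  have hsub : (univ.filter fun κ : (ZMod (Mk l r))ˣ => BadB m r l (uv κ)) ⊆
      univ.filter fun κ : (ZMod (Mk l r))ˣ => ∃ M q p, IsMM l r M ∧ Short m M (uv κ) q p ∧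
        Int.gcd q M ∈ M.divisors.erase 1 := by
    intro κ hκ
    rw [mem_filter] at hκ ⊢
    obtain ⟨-, M, q, p, hM, hs, hg⟩ := hκ
    refine ⟨mem_univ _, M, q, p, hM, hs, ?_⟩
    rw [mem_erase, Nat.mem_divisors]
    refine ⟨hg, ?_, (h.bmM hM).pos.ne'⟩
    have := Int.gcd_dvd_right q (M : ℤ)
    exact_mod_cast this
  calc (((Finset.univ : Finset (ZMod (Mk l r))ˣ).filter
        (fun κ => BadB m r l (uv κ))).card : ℝ)
      ≤ 64 * (2 / (m : ℝ) ^ 15) / (m : ℝ) ^ 26 * (Nat.totient (Mk l r) : ℝ) :=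
        le_trans (by exact_mod_cast card_le_card hsub) hb
    _ = 128 / (m : ℝ) ^ 41 * (Nat.totient (Mk l r) : ℝ) := by
        field_simp
        ring
    _ ≤ 1000 / (m : ℝ) ^ 41 * (Nat.totient (Mk l r) : ℝ) := by
        apply mul_le_mul_of_nonneg_right _ (Nat.cast_nonneg _)
        apply div_le_div_of_nonneg_right _ (by positivity)
        norm_num

end DiscPS
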