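import Pool.Agent.Work.DiscPS.Cnt
import Pool.Agent.Work.DiscPS.Div

/-!
# Harmonic sums over the lattices: (2.3)
-/

namespace DiscPS

open Finset

variable {m b M : ℕ}

theorem Har_mem_SR {q : ℤ} : q ∈ SR M ↔ q ≠ 0 ∧ 2 * q.natAbs < M := by
  rw [SR, mem_filter, mem_Ioo]
  constructor
  · rintro ⟨_, h⟩
    exact h
  · rintro ⟨h1, h2⟩
    refine ⟨?_, h1, h2⟩
    omega

theorem Har_abs (q : ℤ) : |(q : ℝ)| = (q.natAbs : ℝ) := by
  rw [← Int.cast_abs, Int.abs_eq_natAbs]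
  rfl

theorem Har_log (hm : 1 ≤ m) (hM : M ≤ 2 ^ m) :
    ∑ n ∈ Icc 1 (M / 2), (1 / (n : ℝ)) ≤ m := by
  have h1 : ∑ n ∈ Icc 1 (M / 2), (1 / (n : ℝ)) = ((harmonic (M / 2) : ℚ) : ℝ) := by
    rw [harmonic_eq_sum_Icc]
    push_cast
    exact Finset.sum_congr rfl fun n _ => one_div _
  rw [h1]
  refine (harmonic_le_one_add_log _).trans ?_
  rcases Nat.eq_zero_or_pos (M / 2) with h0 | h0
  · rw [h0]
    simp only [Nat.cast_zero, Real.log_zero, add_zero]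
    exact_mod_cast hm
  · have h2 : M / 2 ≤ 2 ^ (m - 1) := by
      obtain ⟨k, rfl⟩ : ∃ k, m = k + 1 := ⟨m - 1, by omega⟩
      rw [pow_succ] at hM
      simp only [Nat.add_sub_cancel]
      omega
    have h3 : Real.log ((M / 2 : ℕ) : ℝ) ≤ (m - 1 : ℕ) * Real.log 2 := by
      rw [← Real.log_pow]
      refine Real.log_le_log (by exact_mod_cast h0) ?_
      exact_mod_cast h2
    have h4 : Real.log 2 ≤ 1 := by
      have := Real.log_two_lt_d9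
      linarith
    have h5 : ((m - 1 : ℕ) : ℝ) * Real.log 2 ≤ (m - 1 : ℕ) :=
      mul_le_of_le_one_right (Nat.cast_nonneg _) h4
    have h6 : ((m - 1 : ℕ) : ℝ) = m - 1 := by
      rw [Nat.cast_sub hm]
      simp
    linarith

theorem Har_half (P : ℤ → Prop) [DecidablePred P]
    (hP : ∀ q q' : ℤ, P q → P q' → q.natAbs = q'.natAbs → q = q') :
    ∑ q ∈ (SR M).filter P, 1 / |(q : ℝ)| ≤ ∑ n ∈ Icc 1 (M / 2), (1 / (n : ℝ)) := by
  have hinj : Set.InjOn Int.natAbs (((SR M).filter P : Finset ℤ) : Set ℤ) := by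
    intro q hq q' hq' h
    rw [mem_coe, mem_filter] at hq hq'
    exact hP q q' hq.2 hq'.2 h
  have h1 : ∑ q ∈ (SR M).filter P, 1 / |(q : ℝ)| =
      ∑ n ∈ ((SR M).filter P).image Int.natAbs, (1 / (n : ℝ)) := by
    rw [Finset.sum_image hinj]
    exact Finset.sum_congr rfl fun q _ => by rw [Har_abs]
  rw [h1]
  refine Finset.sum_le_sum_of_subset_of_nonneg ?_ fun n _ _ => by positivity
  intro n hn
  rw [mem_image] at hn
  obtain ⟨q, hq, rfl⟩ := hn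
  rw [mem_filter, Har_mem_SR] at hq
  rw [mem_Icc]
  have := hq.1.1
  have := hq.1.2
  omega

theorem har1 (hm : 1 ≤ m) (hM : M ≤ 2 ^ m) : ∑ q ∈ SR M, 1 / |(q : ℝ)| ≤ 4 * m := by
  rw [← Finset.sum_filter_add_sum_filter_not (SR M) (fun q => 0 < q)]
  have h1 := Har_half (M := M) (fun q : ℤ => 0 < q) (by intro q q' h h' h2; omega)
  have h2 := Har_half (M := M) (fun q : ℤ => ¬ 0 < q) (by intro q q' h h' h2; omega)
  have h3 := Har_log hm hM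
  have h4 : (0 : ℝ) ≤ m := Nat.cast_nonneg _
  linarith

theorem Har_nonneg (s : Finset ℤ) : 0 ≤ ∑ q ∈ s, 1 / |(q : ℝ)| :=
  Finset.sum_nonneg fun _ _ => by positivity

/-- the multiples of a divisor -/
theorem Har_dvd (hm : 1 ≤ m) (hM : M ≤ 2 ^ m) {g : ℕ} (hg : g ∣ M) (hg0 : 0 < g) :
    ∑ q ∈ (SR M).filter (fun q => (g : ℤ) ∣ q), 1 / |(q : ℝ)| ≤ 4 * m / g := by
  have hinj : Set.InjOn (fun q : ℤ => q / (g : ℤ))
      (((SR M).filter (fun q => (g : ℤ) ∣ q) : Finset ℤ) : Set ℤ) := by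
    intro q hq q' hq' h
    rw [mem_coe, mem_filter] at hq hq'
    obtain ⟨u, hu⟩ := hq.2
    obtain ⟨v, hv⟩ := hq'.2
    have hg1 : (g : ℤ) ≠ 0 := by exact_mod_cast hg0.ne'
    simp only [hu, hv, Int.mul_ediv_cancel_left _ hg1] at h
    rw [hu, hv, h]
  have h1 : ∑ q ∈ (SR M).filter (fun q => (g : ℤ) ∣ q), 1 / |(q : ℝ)| =
      (∑ q ∈ ((SR M).filter (fun q => (g : ℤ) ∣ q)).image (fun q : ℤ => q / (g : ℤ)),
        1 / |(q : ℝ)|) / g := by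
    rw [Finset.sum_image hinj, Finset.sum_div]
    refine Finset.sum_congr rfl fun q hq => ?_
    rw [mem_filter] at hq
    obtain ⟨u, hu⟩ := hq.2
    have hg1 : (g : ℤ) ≠ 0 := by exact_mod_cast hg0.ne'
    rw [hu, Int.mul_ediv_cancel_left _ hg1]
    push_cast
    rw [abs_mul, Nat.abs_cast, div_div, mul_comm]
  rw [h1]
  refine div_le_div_of_nonneg_right ?_ (Nat.cast_nonneg _)
  have h2 : M / g ≤ 2 ^ m := (Nat.div_le_self _ _).trans hM
  refine le_trans ?_ (har1 hm h2)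
  refine Finset.sum_le_sum_of_subset_of_nonneg ?_ fun n _ _ => by positivity
  intro n hn
  rw [mem_image] at hn
  obtain ⟨q, hq, rfl⟩ := hn
  rw [mem_filter, Har_mem_SR] at hq
  rw [Har_mem_SR]
  obtain ⟨⟨h3, h4⟩, u, hu⟩ := hq
  obtain ⟨N, hN⟩ := hg
  have hg1 : (g : ℤ) ≠ 0 := by exact_mod_cast hg0.ne'
  rw [hu, Int.mul_ediv_cancel_left _ hg1]
  rw [hN, Nat.mul_div_cancel_left _ hg0]
  rw [hu, Int.natAbs_mul, Int.natAbs_natCast, hN] at h4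
  refine ⟨fun h => h3 (by rw [hu, h, mul_zero]), ?_⟩
  refine Nat.lt_of_mul_lt_mul_left (a := g) ?_
  linarith

theorem Har_aw (x : ℤ × ℤ) : aw M x = M * ((1 / |(x.1 : ℝ)|) * (1 / |(x.2 : ℝ)|)) := by
  rw [aw, one_div_mul_one_div, mul_one_div]

theorem Har_aw_nonneg (x : ℤ × ℤ) : 0 ≤ aw M x := by
  rw [aw]
  positivity

theorem Har_prod (s t : Finset ℤ) :
    ∑ x ∈ s ×ˢ t, aw M x = M * ((∑ q ∈ s, 1 / |(q : ℝ)|) * ∑ q ∈ t, 1 / |(q : ℝ)|) := by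
  rw [Finset.sum_mul_sum, ← Finset.sum_product', Finset.mul_sum]
  exact Finset.sum_congr rfl fun x _ => Har_aw x

theorem har1' (hm : 1 ≤ m) (hM : M ≤ 2 ^ m) :
    ∑ x ∈ SR M ×ˢ SR M, aw M x ≤ 16 * (m : ℝ) ^ 2 * M := by
  rw [Har_prod]
  have h1 := har1 hm hM
  have h0 := Har_nonneg (SR M)
  have h2 : (∑ q ∈ SR M, 1 / |(q : ℝ)|) * ∑ q ∈ SR M, 1 / |(q : ℝ)| ≤ (4 * m) * (4 * m) :=
    mul_le_mul h1 h1 h0 (by positivity)
  have h3 : (0 : ℝ) ≤ M := Nat.cast_nonneg _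
  nlinarith

theorem Har_aux {N f c g : ℝ} (h : N ≤ 2 * f) (hc : 0 ≤ c) (hg : 0 ≤ g) :
    c * (g * N) ≤ 2 * g * (f * c) := by
  have h1 : 0 ≤ c * g := mul_nonneg hc hg
  nlinarith

theorem Har_card (h : Bm m b) [NeZero b] (hM : M ∣ b) {x : ℤ × ℤ} {κ : (ZMod b)ˣ}
    (hκ : κ ∈ UL b M x) :
    ((UL b M x).card : ℝ) ≤ 2 * (Int.gcd x.1 M : ℕ) * (Nat.totient b : ℝ) / M := by
  have hb := h.pos
  have hM0 : 0 < M := Nat.pos_of_dvd_of_pos hM hb
  have hg : Int.gcd x.1 M ∣ M := by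
    have := Int.gcd_dvd_right (a := x.1) (b := (M : ℤ))
    exact_mod_cast this
  have h1 := cnt_gcd b hM x (UL_gcd b hM x hκ)
  obtain ⟨N, hN⟩ := hg
  have hg0 : 0 < Int.gcd x.1 M := by
    rcases Nat.eq_zero_or_pos (Int.gcd x.1 M) with h0 | h0
    · rw [h0] at hN
      omega
    · exact h0
  have hN0 : 0 < N := by
    rcases Nat.eq_zero_or_pos N with h0 | h0
    · rw [h0] at hN
      omega
    · exact h0
  have hN' : M / Int.gcd x.1 M = N := Nat.div_eq_of_eq_mul_right hg0 hN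
  rw [hN'] at h1
  have hNb : N ∣ b := (Dvd.intro_left _ hN.symm).trans hM
  have h2 := (h.dvd hNb).half
  have h3 : (M : ℝ) = ((Int.gcd x.1 M : ℕ) : ℝ) * (N : ℝ) := by
    rw [← Nat.cast_mul]
    exact congrArg _ hN
  have h4 : ((Nat.totient N : ℕ) : ℝ) * ((UL b M x).card : ℝ) = (Nat.totient b : ℝ) := by
    exact_mod_cast h1
  have h5 : (N : ℝ) ≤ 2 * (Nat.totient N : ℝ) := by exact_mod_cast h2
  have hM1 : (0 : ℝ) < M := by exact_mod_cast hM0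
  rw [le_div_iff₀ hM1, ← h4, h3]
  exact Har_aux h5 (Nat.cast_nonneg _) (Nat.cast_nonneg _)

/-- the main computation -/
theorem Har_main (h : Bm m b) [NeZero b] (hM : M ∣ b) (D : Finset ℕ) (hD : D ⊆ M.divisors) :
    ∑ κ : (ZMod b)ˣ, ∑ x ∈ (SL M (uv κ)).filter (fun x => Int.gcd x.1 M ∈ D), aw M x ≤
      32 * (m : ℝ) ^ 2 * (Nat.totient b : ℝ) * ∑ g ∈ D, (1 / (g : ℝ)) := by
  have hm1 : 1 ≤ m := le_trans (by norm_num) h.hm
  have hb := h.pos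
  have hM0 : 0 < M := Nat.pos_of_dvd_of_pos hM hb
  have hM2 : M ≤ 2 ^ m := (Nat.le_of_dvd hb hM).trans h.le
  -- swap
  have h1 : ∑ κ : (ZMod b)ˣ, ∑ x ∈ (SL M (uv κ)).filter (fun x => Int.gcd x.1 M ∈ D), aw M x =
      ∑ x ∈ (SR M ×ˢ SR M).filter (fun x => Int.gcd x.1 M ∈ D), (UL b M x).card * aw M x := by
    have h2 : ∀ κ : (ZMod b)ˣ,
        ∑ x ∈ (SL M (uv κ)).filter (fun x => Int.gcd x.1 M ∈ D), aw M x =
        ∑ x ∈ (SR M ×ˢ SR M).filter (fun x => Int.gcd x.1 M ∈ D),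
          if (M : ℤ) ∣ x.2 + x.1 * uv κ then aw M x else 0 := by
      intro κ
      rw [← Finset.sum_filter, SL, Finset.filter_filter, Finset.filter_filter]
      refine Finset.sum_congr ?_ fun _ _ => rfl
      ext x
      simp only [mem_filter]
      tauto
    rw [Finset.sum_congr rfl fun κ _ => h2 κ, Finset.sum_comm]
    refine Finset.sum_congr rfl fun x _ => ?_
    rw [← Finset.sum_filter, Finset.sum_const, nsmul_eq_mul, UL]
  rw [h1]
  have h3 : ∀ x ∈ (SR M ×ˢ SR M).filter (fun x => Int.gcd x.1 M ∈ D),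
      (UL b M x).card * aw M x ≤ ∑ g ∈ D, if (g : ℤ) ∣ x.1 ∧ (g : ℤ) ∣ x.2 then
        2 * (g : ℝ) * (Nat.totient b : ℝ) * ((1 / |(x.1 : ℝ)|) * (1 / |(x.2 : ℝ)|)) else 0 := by
    intro x hx
    rw [mem_filter] at hx
    have hnn : ∀ g ∈ D, 0 ≤ (if (g : ℤ) ∣ x.1 ∧ (g : ℤ) ∣ x.2 then
        2 * (g : ℝ) * (Nat.totient b : ℝ) * ((1 / |(x.1 : ℝ)|) * (1 / |(x.2 : ℝ)|)) else 0) := by
      intro g _
      split_ifs
      · positivity
      · exact le_refl _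
    rcases (UL b M x).eq_empty_or_nonempty with h0 | ⟨κ, hκ⟩
    · rw [h0, card_empty, Nat.cast_zero, zero_mul]
      exact Finset.sum_nonneg hnn
    · refine le_trans ?_ (Finset.single_le_sum hnn hx.2)
      have hg1 : ((Int.gcd x.1 M : ℕ) : ℤ) ∣ x.1 := Int.gcd_dvd_left ..
      have hg2 : ((Int.gcd x.1 M : ℕ) : ℤ) ∣ x.2 := by
        rw [UL_gcd b hM x hκ]
        exact Int.gcd_dvd_left ..
      rw [if_pos ⟨hg1, hg2⟩]
      have h4 := Har_card h hM hκ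
      have hM1 : (0 : ℝ) < M := by exact_mod_cast hM0
      refine (mul_le_mul_of_nonneg_right h4 (Har_aw_nonneg x)).trans (le_of_eq ?_)
      rw [Har_aw]
      field_simp
  refine (Finset.sum_le_sum h3).trans ?_
  have h5 : ∑ x ∈ (SR M ×ˢ SR M).filter (fun x => Int.gcd x.1 M ∈ D),
      ∑ g ∈ D, (if (g : ℤ) ∣ x.1 ∧ (g : ℤ) ∣ x.2 then
        2 * (g : ℝ) * (Nat.totient b : ℝ) * ((1 / |(x.1 : ℝ)|) * (1 / |(x.2 : ℝ)|)) else 0) ≤
      ∑ x ∈ (SR M ×ˢ SR M),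
      ∑ g ∈ D, (if (g : ℤ) ∣ x.1 ∧ (g : ℤ) ∣ x.2 then
        2 * (g : ℝ) * (Nat.totient b : ℝ) * ((1 / |(x.1 : ℝ)|) * (1 / |(x.2 : ℝ)|)) else 0) := by
    refine Finset.sum_le_sum_of_subset_of_nonneg (Finset.filter_subset _ _) fun x _ _ => ?_
    refine Finset.sum_nonneg fun g _ => ?_
    split_ifs
    · positivity
    · exact le_refl _
  refine h5.trans ?_
  rw [Finset.sum_comm, Finset.mul_sum]
  refine Finset.sum_le_sum fun g hg => ?_
  have hgM : g ∣ M := (Nat.mem_divisors.1 (hD hg)).1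
  have hg0 : 0 < g := Nat.pos_of_dvd_of_pos hgM hM0
  have hg1 : (0 : ℝ) < g := by exact_mod_cast hg0
  have h6 : ∑ x ∈ SR M ×ˢ SR M, (if (g : ℤ) ∣ x.1 ∧ (g : ℤ) ∣ x.2 then
        2 * (g : ℝ) * (Nat.totient b : ℝ) * ((1 / |(x.1 : ℝ)|) * (1 / |(x.2 : ℝ)|)) else 0) =
      2 * (g : ℝ) * (Nat.totient b : ℝ) *
        ((∑ q ∈ (SR M).filter (fun q => (g : ℤ) ∣ q), 1 / |(q : ℝ)|) *
          ∑ q ∈ (SR M).filter (fun q => (g : ℤ) ∣ q), 1 / |(q : ℝ)|) := by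
    rw [← Finset.sum_filter, Finset.sum_mul_sum, ← Finset.sum_product', Finset.mul_sum]
    refine Finset.sum_congr ?_ fun _ _ => rfl
    ext x
    simp only [mem_filter, mem_product]
    tauto
  rw [h6]
  have h7 := Har_dvd hm1 hM2 hgM hg0
  have h8 := Har_nonneg ((SR M).filter (fun q => (g : ℤ) ∣ q))
  have h9 : (∑ q ∈ (SR M).filter (fun q => (g : ℤ) ∣ q), 1 / |(q : ℝ)|) *
      ∑ q ∈ (SR M).filter (fun q => (g : ℤ) ∣ q), 1 / |(q : ℝ)| ≤ (4 * m / g) * (4 * m / g) :=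
    mul_le_mul h7 h7 h8 (by positivity)
  refine (mul_le_mul_of_nonneg_left h9 (by positivity)).trans (le_of_eq ?_)
  field_simp
  ring

/-- (2.3), all vectors -/
theorem har2 (h : Bm m b) [NeZero b] (hM : M ∣ b) :
    ∑ κ : (ZMod b)ˣ, ∑ x ∈ SL M (uv κ), aw M x ≤ 64 * (m : ℝ) ^ 2 * (Nat.totient b : ℝ) := by
  have hb := h.pos
  have hM0 : 0 < M := Nat.pos_of_dvd_of_pos hM hb
  have h1 := Har_main h hM M.divisors (Finset.Subset.refl _)
  have h2 : ∀ κ : (ZMod b)ˣ,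
      (SL M (uv κ)).filter (fun x => Int.gcd x.1 M ∈ M.divisors) = SL M (uv κ) := by
    intro κ
    refine Finset.filter_true_of_mem fun x _ => ?_
    rw [Nat.mem_divisors]
    refine ⟨?_, hM0.ne'⟩
    have := Int.gcd_dvd_right (a := x.1) (b := (M : ℤ))
    exact_mod_cast this
  rw [Finset.sum_congr rfl fun κ _ => by rw [h2 κ]] at h1
  refine h1.trans ?_
  have h3 := (h.dvd hM).sum
  have h4 : (0 : ℝ) ≤ 32 * (m : ℝ) ^ 2 * (Nat.totient b : ℝ) := by positivity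
  nlinarith

theorem Har_pow (h : Bm m b) : 128 * (m : ℝ) ^ 2 * (1 / (m : ℝ) ^ 15) ≤ 1 := by
  have h1 : (1000 : ℝ) ≤ m := by exact_mod_cast h.hm
  have h0 : (0 : ℝ) < m := by linarith
  rw [mul_one_div, div_le_one (by positivity)]
  have h2 : (m : ℝ) ^ 15 = m ^ 2 * (m * m ^ 12) := by ring
  have h3 : (1 : ℝ) ≤ (m : ℝ) ^ 12 := one_le_pow₀ (by linarith)
  rw [h2, mul_comm]
  refine mul_le_mul_of_nonneg_left ?_ (by positivity)
  nlinarith

/-- (2.3), the vectors not coprime to `M` -/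
theorem har3 (h : Bm m b) [NeZero b] (hM : M ∣ b) :
    ∑ κ : (ZMod b)ˣ, ∑ x ∈ (SL M (uv κ)).filter (fun x => Int.gcd x.1 M ≠ 1), aw M x ≤
      (Nat.totient b : ℝ) := by
  have hb := h.pos
  have hM0 : 0 < M := Nat.pos_of_dvd_of_pos hM hb
  have h1 := Har_main h hM (M.divisors.erase 1) (Finset.erase_subset _ _)
  have h2 : ∀ κ : (ZMod b)ˣ,
      (SL M (uv κ)).filter (fun x => Int.gcd x.1 M ∈ M.divisors.erase 1) =
        (SL M (uv κ)).filter (fun x => Int.gcd x.1 M ≠ 1) := by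
    intro κ
    refine Finset.filter_congr fun x _ => ?_
    rw [mem_erase, Nat.mem_divisors]
    refine ⟨fun h => h.1, fun h => ⟨h, ?_, hM0.ne'⟩⟩
    have := Int.gcd_dvd_right (a := x.1) (b := (M : ℤ))
    exact_mod_cast this
  rw [Finset.sum_congr rfl fun κ _ => by rw [h2 κ]] at h1
  refine h1.trans ?_
  have h3 := (h.dvd hM).sum'
  have h4 : (0 : ℝ) ≤ 32 * (m : ℝ) ^ 2 * (Nat.totient b : ℝ) := by positivity
  have h5 := Har_pow h
  have h6 : (0 : ℝ) ≤ (Nat.totient b : ℝ) := by positivity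
  calc 32 * (m : ℝ) ^ 2 * (Nat.totient b : ℝ) * ∑ g ∈ M.divisors.erase 1, (1 / (g : ℝ))
      ≤ 32 * (m : ℝ) ^ 2 * (Nat.totient b : ℝ) * (2 / (m : ℝ) ^ 15) :=
        mul_le_mul_of_nonneg_left h3 h4
    _ = (128 * (m : ℝ) ^ 2 * (1 / (m : ℝ) ^ 15)) * ((Nat.totient b : ℝ) / 2) := by ring
    _ ≤ 1 * ((Nat.totient b : ℝ) / 2) := mul_le_mul_of_nonneg_right h5 (by positivity)
    _ ≤ (Nat.totient b : ℝ) := by linarith

theorem Har_not (h : Bm m b) :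
    ∑ q ∈ (SR b).filter (fun q => Int.gcd q b ≠ 1), 1 / |(q : ℝ)| ≤ 8 * m / (m : ℝ) ^ 15 := by
  have hm1 : 1 ≤ m := le_trans (by norm_num) h.hm
  have hb := h.pos
  have h1 : ∀ q ∈ (SR b).filter (fun q => Int.gcd q b ≠ 1), 1 / |(q : ℝ)| ≤
      ∑ g ∈ b.divisors.erase 1, if (g : ℤ) ∣ q then 1 / |(q : ℝ)| else 0 := by
    intro q hq
    rw [mem_filter] at hq
    have hnn : ∀ g ∈ b.divisors.erase 1, 0 ≤ (if (g : ℤ) ∣ q then 1 / |(q : ℝ)| else 0) := by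
      intro g _
      split_ifs
      · positivity
      · exact le_refl _
    have hmem : Int.gcd q b ∈ b.divisors.erase 1 := by
      rw [mem_erase, Nat.mem_divisors]
      refine ⟨hq.2, ?_, hb.ne'⟩
      have := Int.gcd_dvd_right (a := q) (b := (b : ℤ))
      exact_mod_cast this
    refine le_trans ?_ (Finset.single_le_sum hnn hmem)
    have hg1 : ((Int.gcd q b : ℕ) : ℤ) ∣ q := Int.gcd_dvd_left ..
    rw [if_pos hg1]
  refine (Finset.sum_le_sum h1).trans ?_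
  have h2 : ∑ q ∈ (SR b).filter (fun q => Int.gcd q b ≠ 1),
      ∑ g ∈ b.divisors.erase 1, (if (g : ℤ) ∣ q then 1 / |(q : ℝ)| else 0) ≤
      ∑ q ∈ SR b, ∑ g ∈ b.divisors.erase 1, (if (g : ℤ) ∣ q then 1 / |(q : ℝ)| else 0) := by
    refine Finset.sum_le_sum_of_subset_of_nonneg (Finset.filter_subset _ _) fun x _ _ => ?_
    refine Finset.sum_nonneg fun g _ => ?_
    split_ifs
    · positivity
    · exact le_refl _
  refine h2.trans ?_
  rw [Finset.sum_comm]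
  have h3 : ∀ g ∈ b.divisors.erase 1,
      ∑ q ∈ SR b, (if (g : ℤ) ∣ q then 1 / |(q : ℝ)| else 0) ≤ 4 * m * (1 / (g : ℝ)) := by
    intro g hg
    have hgM : g ∣ b := (Nat.mem_divisors.1 (Finset.mem_of_mem_erase hg)).1
    have hg0 : 0 < g := Nat.pos_of_dvd_of_pos hgM hb
    rw [← Finset.sum_filter, mul_one_div]
    exact Har_dvd hm1 h.le hgM hg0
  refine (Finset.sum_le_sum h3).trans ?_
  rw [← Finset.mul_sum]
  have h4 := h.sum'
  refine (mul_le_mul_of_nonneg_left h4 (by positivity)).trans (le_of_eq ?_)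
  ring

/-- (2.3), last part, for `b` itself -/
theorem har4 (h : Bm m b) :
    ∑ x ∈ (SR b ×ˢ SR b).filter (fun x => ¬ (Int.gcd x.1 b = 1 ∧ Int.gcd x.2 b = 1)), aw b x ≤
      (Nat.totient b : ℝ) := by
  have hm1 : 1 ≤ m := le_trans (by norm_num) h.hm
  have h1 : (SR b ×ˢ SR b).filter (fun x => ¬ (Int.gcd x.1 b = 1 ∧ Int.gcd x.2 b = 1)) ⊆
      (((SR b).filter (fun q => Int.gcd q b ≠ 1)) ×ˢ SR b) ∪
        (SR b ×ˢ ((SR b).filter (fun q => Int.gcd q b ≠ 1))) := by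
    intro x hx
    simp only [mem_filter, mem_product, mem_union] at hx ⊢
    tauto
  have h2 : ∑ x ∈ (SR b ×ˢ SR b).filter
      (fun x => ¬ (Int.gcd x.1 b = 1 ∧ Int.gcd x.2 b = 1)), aw b x ≤
      ∑ x ∈ (((SR b).filter (fun q => Int.gcd q b ≠ 1)) ×ˢ SR b), aw b x +
        ∑ x ∈ (SR b ×ˢ ((SR b).filter (fun q => Int.gcd q b ≠ 1))), aw b x := by
    refine (Finset.sum_le_sum_of_subset_of_nonneg h1 fun x _ _ => Har_aw_nonneg x).trans ?_
    rw [← Finset.sum_union_inter]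
    have : 0 ≤ ∑ x ∈ (((SR b).filter (fun q => Int.gcd q b ≠ 1)) ×ˢ SR b) ∩
        (SR b ×ˢ ((SR b).filter (fun q => Int.gcd q b ≠ 1))), aw b x :=
      Finset.sum_nonneg fun x _ => Har_aw_nonneg x
    linarith
  refine h2.trans ?_
  rw [Har_prod, Har_prod]
  have h3 := Har_not h
  have h4 := har1 hm1 h.le
  have h5 := Har_nonneg (SR b)
  have h6 := Har_nonneg ((SR b).filter (fun q => Int.gcd q b ≠ 1))
  have h7 : (∑ q ∈ (SR b).filter (fun q => Int.gcd q b ≠ 1), 1 / |(q : ℝ)|) *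
      ∑ q ∈ SR b, 1 / |(q : ℝ)| ≤ (8 * m / (m : ℝ) ^ 15) * (4 * m) :=
    mul_le_mul h3 h4 h5 (by positivity)
  have h8 := Har_pow h
  have h9 : (b : ℝ) ≤ 2 * (Nat.totient b : ℝ) := by exact_mod_cast h.half
  have h10 : (0 : ℝ) ≤ b := Nat.cast_nonneg _
  have h11 : (8 * m / (m : ℝ) ^ 15) * (4 * m) = (128 * (m : ℝ) ^ 2 * (1 / (m : ℝ) ^ 15)) / 4 := by
    ring
  have h12 : (∑ q ∈ (SR b).filter (fun q => Int.gcd q b ≠ 1), 1 / |(q : ℝ)|) *
      ∑ q ∈ SR b, 1 / |(q : ℝ)| ≤ 1 / 4 := by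
    rw [h11] at h7
    linarith
  have h13 : (∑ q ∈ SR b, 1 / |(q : ℝ)|) *
      ∑ q ∈ (SR b).filter (fun q => Int.gcd q b ≠ 1), 1 / |(q : ℝ)| ≤ 1 / 4 := by
    rw [mul_comm]
    exact h12
  nlinarith [mul_le_mul_of_nonneg_left h12 h10, mul_le_mul_of_nonneg_left h13 h10]

end DiscPS
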