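import Pool.Agent.Work.DiscPS.Energy
import Pool.Agent.Work.DiscPS.Primes

set_option autoImplicit false
set_option maxHeartbeats 400000

/-!
# Lemmas 2 and 3: pairs of non-parallel vectors
-/

namespace DiscPS

open Finset

variable {m r : ℕ} {l : ℕ → ℕ}

/-- pairs with equal values, as a sum over the values -/
theorem card_eq_pairs {α β : Type*} [DecidableEq β] (S T : Finset α) (φ : α → β) (K : Finset β)
    (hK : ∀ x ∈ S, φ x ∈ K) :
    ((S ×ˢ T).filter (fun p => φ p.1 = φ p.2)).card =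
      ∑ κ ∈ K, (S.filter (fun x => φ x = κ)).card * (T.filter (fun x => φ x = κ)).card := by
  rw [card_eq_sum_card_fiberwise (f := fun p : α × α => φ p.1) (t := K)]
  · refine sum_congr rfl fun κ _ => ?_
    rw [← card_product]
    congr 1
    ext ⟨x, y⟩
    simp only [mem_filter, mem_product]
    constructor
    · rintro ⟨⟨⟨h1, h2⟩, h3⟩, h4⟩
      exact ⟨⟨h1, h4⟩, h2, h3 ▸ h4⟩
    · rintro ⟨⟨h1, h2⟩, h3, h4⟩
      exact ⟨⟨⟨h1, h3⟩, h2.trans h4.symm⟩, h2⟩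
  · intro p hp
    have hp' := mem_coe.1 hp
    rw [mem_filter, mem_product] at hp'
    exact mem_coe.2 (hK _ hp'.1.1)

theorem card_pairs_sq_le {α β : Type*} [DecidableEq β] (S T : Finset α) (φ : α → β) :
    ((S ×ˢ T).filter (fun p => φ p.1 = φ p.2)).card ^ 2 ≤
      ((S ×ˢ S).filter (fun p => φ p.1 = φ p.2)).card *
        ((T ×ˢ T).filter (fun p => φ p.1 = φ p.2)).card := by
  classical
  have hS : ∀ x ∈ S, φ x ∈ S.image φ ∪ T.image φ := fun x hx =>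
    mem_union_left _ (mem_image_of_mem _ hx)
  have hT : ∀ x ∈ T, φ x ∈ S.image φ ∪ T.image φ := fun x hx =>
    mem_union_right _ (mem_image_of_mem _ hx)
  rw [card_eq_pairs S T φ _ hS, card_eq_pairs S S φ _ hS, card_eq_pairs T T φ _ hT]
  have h := sum_mul_sq_le_sq_mul_sq (S.image φ ∪ T.image φ)
    (fun κ => (S.filter (fun x => φ x = κ)).card) (fun κ => (T.filter (fun x => φ x = κ)).card)
  simpa only [pow_two] using h

/-- the slope of a vector modulo `D` -/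
def slp (D : ℕ) (v : ℤ × ℤ) : ZMod D := (v.2 : ZMod D) * (v.1 : ZMod D)⁻¹

theorem slp_eq_iff {D i j i1 j1 : ℕ} {v w : ℤ × ℤ} (hv : v ∈ vb D i j) (hw : w ∈ vb D i1 j1) :
    slp D v = slp D w ↔ (D : ℤ) ∣ dt v w := by
  have unit : ∀ {x : ℤ}, IsCoprime x (D : ℤ) → (x : ZMod D) * (x : ZMod D)⁻¹ = 1 := by
    intro x hx
    obtain ⟨a, b, hab⟩ := hx
    have h1 : (a : ZMod D) * (x : ZMod D) = 1 := by
      have := congrArg (fun z : ℤ => (z : ZMod D)) hab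
      push_cast at this
      simpa using this
    have h2 : IsUnit (x : ZMod D) := IsUnit.of_mul_eq_one_right _ h1
    exact ZMod.mul_inv_of_unit _ h2
  have hv1 := unit (mem_vb.1 hv).2.1
  have hw1 := unit (mem_vb.1 hw).2.1
  rw [← ZMod.intCast_zmod_eq_zero_iff_dvd, dt]
  push_cast
  unfold slp
  constructor
  · intro h
    have h3 : (v.1 : ZMod D) * w.2 - w.1 * v.2 = (v.1 * w.1) *
        (w.2 * (w.1 : ZMod D)⁻¹ - v.2 * (v.1 : ZMod D)⁻¹) +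
        (v.1 : ZMod D) * w.2 * (1 - w.1 * (w.1 : ZMod D)⁻¹) -
        w.1 * v.2 * (1 - v.1 * (v.1 : ZMod D)⁻¹) := by ring
    rw [h3, hv1, hw1, h]
    ring
  · intro h
    have h3 : (v.2 : ZMod D) * (v.1 : ZMod D)⁻¹ - w.2 * (w.1 : ZMod D)⁻¹ =
        -((v.1 : ZMod D) * w.2 - w.1 * v.2) * ((v.1 : ZMod D)⁻¹ * (w.1 : ZMod D)⁻¹) +
        (w.2 * (w.1 : ZMod D)⁻¹) * (v.1 * (v.1 : ZMod D)⁻¹ - 1) -
        (v.2 * (v.1 : ZMod D)⁻¹) * (w.1 * (w.1 : ZMod D)⁻¹ - 1) := by ring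
    rw [hv1, hw1, h] at h3
    rw [← sub_eq_zero, h3]
    ring

theorem Nst_sq_le (D i j i1 j1 : ℕ) : Nst D i j i1 j1 ^ 2 ≤ En D i j * En D i1 j1 := by
  classical
  have key : ∀ i j i1 j1 : ℕ, ((vb D i j ×ˢ vb D i1 j1).filter
      (fun p => (D : ℤ) ∣ dt p.1 p.2)) = ((vb D i j ×ˢ vb D i1 j1).filter
      (fun p => slp D p.1 = slp D p.2)) := by
    intro i j i1 j1
    refine filter_congr fun p hp => ?_
    rw [mem_product] at hp
    exact (slp_eq_iff hp.1 hp.2).symm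
  -- the two families of vectors live in the same type
  have h1 : Nst D i j i1 j1 ≤ ((vb D i j ×ˢ vb D i1 j1).filter
      (fun p => slp D p.1 = slp D p.2)).card := by
    rw [← key]
    refine card_le_card fun p hp => ?_
    rw [mem_filter] at hp ⊢
    exact ⟨hp.1, hp.2.2⟩
  have h2 := card_pairs_sq_le (vb D i j) (vb D i1 j1) (slp D)
  rw [← key i j i j, ← key i1 j1 i1 j1] at h2
  exact (Nat.pow_le_pow_left h1 2).trans h2

/-- Lemma 2 for two boxes -/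
theorem Nst_le (D i j i1 j1 : ℕ) (hD : 0 < D) (h1 : D ≤ 2 ^ (i + j)) (h2 : D ≤ 2 ^ (i1 + j1))
    (hi : i ≤ m) (hj : j ≤ m) (hi1 : i1 ≤ m) (hj1 : j1 ≤ m) (hm : 1 ≤ m) :
    (D : ℝ) * (Nst D i j i1 j1 : ℝ) ≤ 1000 * m * 2 ^ (i + j) * 2 ^ (i1 + j1) := by
  have e1 := En_le D i j m hD h1 hi hj hm
  have e2 := En_le D i1 j1 m hD h2 hi1 hj1 hm
  have h3 : (Nst D i j i1 j1 : ℝ) ^ 2 ≤ (En D i j : ℝ) * En D i1 j1 := by
    exact_mod_cast Nst_sq_le D i j i1 j1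
  refine le_of_sq_le_sq ?_ (by positivity)
  have h4 : ∀ n : ℕ, (4 : ℝ) ^ n = (2 ^ n) ^ 2 := by
    intro n
    rw [← pow_mul, mul_comm, pow_mul]
    norm_num
  calc ((D : ℝ) * (Nst D i j i1 j1 : ℝ)) ^ 2 = (D : ℝ) ^ 2 * (Nst D i j i1 j1 : ℝ) ^ 2 := by ring
    _ ≤ (D : ℝ) ^ 2 * ((En D i j : ℝ) * En D i1 j1) := by gcongr
    _ = ((En D i j : ℝ) * D) * ((En D i1 j1 : ℝ) * D) := by ring
    _ ≤ (1000 * m * 4 ^ (i + j)) * (1000 * m * 4 ^ (i1 + j1)) := by gcongr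
    _ = (1000 * m * 2 ^ (i + j) * 2 ^ (i1 + j1)) ^ 2 := by
        rw [h4, h4]
        ring

theorem IP_pos (h : Par m r l) {a k : ℕ} (hk : k ≤ r) : 0 < IP l a k := by
  refine prod_pos fun i hi => ?_
  exact (h.prime i ((mem_Ico.1 hi).2.trans_le hk)).pos

/-- one step of the chain -/
theorem chain_step (h : Par m r l) (hg : Gen m r l) {a k : ℕ} (hak : a ≤ k) (hk : k < r)
    {i j i1 j1 : ℕ} (hi : i ≤ m) (hj : j ≤ m) (hi1 : i1 ≤ m) (hj1 : j1 ≤ m) :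
    IP l a (k + 1) * Nst (IP l a (k + 1)) i j i1 j1 ≤
      4 * m ^ 7 * (IP l a k * Nst (IP l a k) i j i1 j1) := by
  have h1 := hg a k hak hk i j i1 j1 hi hj hi1 hj1
  have h2 := h.hi k hk
  have hm := h.hm
  have hm0 : 0 < m ^ 9 := Nat.pow_pos (by omega)
  refine le_of_mul_le_mul_left (a := m ^ 9) ?_ hm0
  calc m ^ 9 * (IP l a (k + 1) * Nst (IP l a (k + 1)) i j i1 j1)
      = IP l a (k + 1) * (m ^ 9 * Nst (IP l a (k + 1)) i j i1 j1) := by ring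
    _ ≤ IP l a (k + 1) * Nst (IP l a k) i j i1 j1 := Nat.mul_le_mul_left _ h1
    _ = (IP l a k * l k) * Nst (IP l a k) i j i1 j1 := by rw [IP_succ l hak]
    _ ≤ (IP l a k * (4 * m ^ 16)) * Nst (IP l a k) i j i1 j1 := by gcongr
    _ = m ^ 9 * (4 * m ^ 7 * (IP l a k * Nst (IP l a k) i j i1 j1)) := by ring

theorem chain_steps (h : Par m r l) (hg : Gen m r l) {a t : ℕ} (hat : a ≤ t)
    {i j i1 j1 : ℕ} (hi : i ≤ m) (hj : j ≤ m) (hi1 : i1 ≤ m) (hj1 : j1 ≤ m) :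
    ∀ s : ℕ, t + s ≤ r → IP l a (t + s) * Nst (IP l a (t + s)) i j i1 j1 ≤
      (4 * m ^ 7) ^ s * (IP l a t * Nst (IP l a t) i j i1 j1) := by
  intro s
  induction s with
  | zero => intro _; simp
  | succ s ih =>
    intro hs
    have h1 := chain_step h hg (a := a) (k := t + s) (by omega) (by omega) hi hj hi1 hj1
    rw [← add_assoc]
    calc _ ≤ 4 * m ^ 7 * (IP l a (t + s) * Nst (IP l a (t + s)) i j i1 j1) := h1
      _ ≤ 4 * m ^ 7 * ((4 * m ^ 7) ^ s * (IP l a t * Nst (IP l a t) i j i1 j1)) :=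
          Nat.mul_le_mul_left _ (ih (by omega))
      _ = _ := by ring

theorem IP_add_ge (h : Par m r l) {a t : ℕ} (hat : a ≤ t) :
    ∀ s : ℕ, t + s ≤ r → IP l a t * (m ^ 16) ^ s ≤ IP l a (t + s) := by
  intro s
  induction s with
  | zero => intro _; simp
  | succ s ih =>
    intro hs
    rw [← add_assoc, IP_succ l (by omega : a ≤ t + s), pow_succ, ← mul_assoc]
    exact Nat.mul_le_mul (ih (by omega)) (h.lo _ (by omega)).le

/-- Lemma 3 -/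
theorem lem3 (h : Par m r l) (hg : Gen m r l) {a k : ℕ} (hak : a ≤ k) (hk : k ≤ r)
    {i j i1 j1 : ℕ} (hi : i ≤ m) (hj : j ≤ m) (hi1 : i1 ≤ m) (hj1 : j1 ≤ m) {T Z : ℝ}
    (hT : 1 ≤ T) (hZ : 0 ≤ Z) (hTZ : T ≤ Z ^ 2) (h1 : (IP l a k : ℝ) ≤ T * 2 ^ (i + j))
    (h2 : (IP l a k : ℝ) ≤ T * 2 ^ (i1 + j1)) :
    (IP l a k : ℝ) * (Nst (IP l a k) i j i1 j1 : ℝ) ≤
      10 ^ 5 * (m : ℝ) ^ 9 * Z * 2 ^ (i + j) * 2 ^ (i1 + j1) := by
  have hm : 1000 ≤ m := h.hm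
  have hmr : (1000 : ℝ) ≤ m := by exact_mod_cast hm
  have hZ1 : 1 ≤ Z := by nlinarith
  -- the last modulus below both areas
  set Q : ℕ → Prop := fun t => IP l a t ≤ 2 ^ (i + j) ∧ IP l a t ≤ 2 ^ (i1 + j1) with hQ
  have hQa : Q a := by
    simp only [hQ, IP, Ico_self, prod_empty]
    exact ⟨Nat.one_le_two_pow, Nat.one_le_two_pow⟩
  classical
  obtain ⟨t, hat, htk, hQt, htmax⟩ : ∃ t, a ≤ t ∧ t ≤ k ∧ Q t ∧ ∀ s, t < s → s ≤ k → ¬ Q s := by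
    have hne : ((Icc a k).filter Q).Nonempty :=
      ⟨a, mem_filter.2 ⟨mem_Icc.2 ⟨le_rfl, hak⟩, hQa⟩⟩
    refine ⟨((Icc a k).filter Q).max' hne, ?_, ?_, ?_, ?_⟩
    · exact (mem_Icc.1 (mem_filter.1 (max'_mem _ hne)).1).1
    · exact (mem_Icc.1 (mem_filter.1 (max'_mem _ hne)).1).2
    · exact (mem_filter.1 (max'_mem _ hne)).2
    · intro s hs hsk hQs
      have h3 := le_max' ((Icc a k).filter Q) s (mem_filter.2 ⟨mem_Icc.2 ⟨?_, hsk⟩, hQs⟩)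
      · omega
      · exact ((mem_Icc.1 (mem_filter.1 (max'_mem _ hne)).1).1).trans hs.le
  have hN : ((IP l a t : ℕ) : ℝ) * (Nst (IP l a t) i j i1 j1 : ℝ) ≤
      1000 * m * 2 ^ (i + j) * 2 ^ (i1 + j1) :=
    Nst_le _ i j i1 j1 (IP_pos h (htk.trans hk)) hQt.1 hQt.2 hi hj hi1 hj1 (by omega)
  have hm8 : (4 : ℝ) * (m : ℝ) ^ 7 ≤ (m : ℝ) ^ 8 := by
    have : (m : ℝ) ^ 8 = m * (m : ℝ) ^ 7 := by ring
    rw [this]
    gcongr
    linarith
  rcases Nat.lt_or_ge t k with htk' | htk'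
  · -- the chain
    obtain ⟨s, rfl⟩ : ∃ s, k = t + 1 + s := ⟨k - (t + 1), by omega⟩
    have hc := chain_steps h hg hat hi hj hi1 hj1 (s + 1) (by omega : t + (s + 1) ≤ r)
    rw [show t + (s + 1) = t + 1 + s by ring] at hc
    have hc' : ((IP l a (t + 1 + s) : ℕ) : ℝ) * (Nst (IP l a (t + 1 + s)) i j i1 j1 : ℝ) ≤
        (4 * (m : ℝ) ^ 7) ^ (s + 1) * ((IP l a t : ℝ) * (Nst (IP l a t) i j i1 j1 : ℝ)) := by
      exact_mod_cast hc
    have hge := IP_add_ge h (a := a) (t := t + 1) (by omega) s hk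
    have hge' : ((IP l a (t + 1) : ℕ) : ℝ) * ((m : ℝ) ^ 16) ^ s ≤ (IP l a (t + 1 + s) : ℝ) := by
      exact_mod_cast hge
    have hnQ := htmax (t + 1) (by omega) (by omega)
    have hT' : ((m : ℝ) ^ 16) ^ s ≤ T := by
      simp only [hQ, not_and_or, not_le] at hnQ
      rcases hnQ with h3 | h3
      · have h4 : ((2 : ℝ) ^ (i + j)) ≤ (IP l a (t + 1) : ℝ) := by exact_mod_cast h3.le
        have h5 : (2 : ℝ) ^ (i + j) * ((m : ℝ) ^ 16) ^ s ≤ (2 : ℝ) ^ (i + j) * T := by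
          calc (2 : ℝ) ^ (i + j) * ((m : ℝ) ^ 16) ^ s ≤ (IP l a (t + 1) : ℝ) * ((m : ℝ) ^ 16) ^ s := by
                gcongr
            _ ≤ (IP l a (t + 1 + s) : ℝ) := hge'
            _ ≤ T * 2 ^ (i + j) := h1
            _ = _ := mul_comm _ _
        exact le_of_mul_le_mul_left h5 (by positivity)
      · have h4 : ((2 : ℝ) ^ (i1 + j1)) ≤ (IP l a (t + 1) : ℝ) := by exact_mod_cast h3.le
        have h5 : (2 : ℝ) ^ (i1 + j1) * ((m : ℝ) ^ 16) ^ s ≤ (2 : ℝ) ^ (i1 + j1) * T := by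
          calc (2 : ℝ) ^ (i1 + j1) * ((m : ℝ) ^ 16) ^ s ≤
                (IP l a (t + 1) : ℝ) * ((m : ℝ) ^ 16) ^ s := by gcongr
            _ ≤ (IP l a (t + 1 + s) : ℝ) := hge'
            _ ≤ T * 2 ^ (i1 + j1) := h2
            _ = _ := mul_comm _ _
        exact le_of_mul_le_mul_left h5 (by positivity)
    have hZs : ((m : ℝ) ^ 8) ^ s ≤ Z := by
      refine le_of_sq_le_sq ?_ hZ
      calc (((m : ℝ) ^ 8) ^ s) ^ 2 = ((m : ℝ) ^ 16) ^ s := by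
            rw [← pow_mul, ← pow_mul, ← pow_mul]
            ring_nf
        _ ≤ Z ^ 2 := hT'.trans hTZ
    calc _ ≤ (4 * (m : ℝ) ^ 7) ^ (s + 1) * ((IP l a t : ℝ) * (Nst (IP l a t) i j i1 j1 : ℝ)) := hc'
      _ ≤ ((4 * (m : ℝ) ^ 7) * ((m : ℝ) ^ 8) ^ s) * (1000 * m * 2 ^ (i + j) * 2 ^ (i1 + j1)) := by
          refine mul_le_mul ?_ hN (by positivity) (by positivity)
          rw [pow_succ, mul_comm]
          gcongr
      _ ≤ ((4 * (m : ℝ) ^ 7) * Z) * (1000 * m * 2 ^ (i + j) * 2 ^ (i1 + j1)) := by gcongr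
      _ = 4000 * (m : ℝ) ^ 8 * (Z * 2 ^ (i + j) * 2 ^ (i1 + j1)) := by ring
      _ ≤ 10 ^ 5 * (m : ℝ) ^ 9 * (Z * 2 ^ (i + j) * 2 ^ (i1 + j1)) := by
          refine mul_le_mul_of_nonneg_right ?_ (by positivity)
          have : (m : ℝ) ^ 9 = m * (m : ℝ) ^ 8 := by ring
          rw [this]
          nlinarith [pow_pos (by linarith : (0 : ℝ) < m) 8]
      _ = _ := by ring
  · have hkt : t = k := le_antisymm htk htk'
    subst hkt
    refine hN.trans ?_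
    calc 1000 * (m : ℝ) * 2 ^ (i + j) * 2 ^ (i1 + j1)
        = (1000 * m) * (1 * 2 ^ (i + j) * 2 ^ (i1 + j1)) := by ring
      _ ≤ (10 ^ 5 * (m : ℝ) ^ 9) * (Z * 2 ^ (i + j) * 2 ^ (i1 + j1)) := by
          have : (1000 : ℝ) * m ≤ 10 ^ 5 * (m : ℝ) ^ 9 := by
            have h8 : (1 : ℝ) ≤ (m : ℝ) ^ 8 := one_le_pow₀ (by linarith)
            have : (m : ℝ) ^ 9 = m * (m : ℝ) ^ 8 := by ring
            rw [this]
            nlinarith
          gcongr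
      _ = _ := by ring

end DiscPS
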