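import Pool.Agent.Work.DiscPS.DefsB

/-!
# Power saving: the linear algebra of the net over `Z/b` (helper59)

The kernel system is normalised: the leading entry of `u^t_p` is `1`, the last one is
`κ^t_p / ρ_{p+t}` and `r_t . u^t_p = A^t_p`.
-/

namespace DiscPS

open Finset

variable {b n : ℕ}

/-- `v` vanishes outside `[p, p + m)` -/
def supp (p m : ℕ) (v : Vec b n) : Prop := ∀ q : Fin n, (q : ℕ) < p ∨ p + m ≤ (q : ℕ) → v q = 0

/-- the normalised kernel system of the rows `row s`, `s < t` -/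
structure Ker (κ : ℕ → ℕ → (ZMod b)ˣ) (row : ℕ → Vec b n) (t : ℕ) (u : ℕ → Vec b n) : Prop where
  ker : ∀ s < t, ∀ p, p + t < n → dot (row s) (u p) = 0
  sup : ∀ p, p + t < n → supp p (t + 1) (u p)
  left : ∀ p (h : p + t < n), u p ⟨p, by omega⟩ = 1
  right : ∀ p (h : p + t < n), (κ 0 (p + t) : ZMod b) * u p ⟨p + t, h⟩ = κ t p
  uniq : ∀ p, ∀ v : Vec b n, (∀ s < t, dot (row s) v = 0) → supp p t v → v = 0

/-- the points `w_p` of the `t`-th coset: first digits from `X`, last digits from `Y` -/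
structure WW (κ : ℕ → ℕ → (ZMod b)ˣ) (row : ℕ → Vec b n) (σ Z X Y : ℕ → ZMod b) (t : ℕ)
    (w : ℕ → Vec b n) : Prop where
  m : ∀ p, p + t ≤ n → mtch row σ Z t (w p)
  l : ∀ p, p + t ≤ n → ∀ q : Fin n, (q : ℕ) < p → w p q = X q
  r : ∀ p, p + t ≤ n → ∀ q : Fin n, p + t ≤ (q : ℕ) → (κ 0 q : ZMod b) * w p q = Y q

theorem linr_dot_add_right (r v w : Vec b n) : dot r (v + w) = dot r v + dot r w := by
  simp only [dot, Pi.add_apply, mul_add, sum_add_distrib]

theorem linr_dot_sub_right (r v w : Vec b n) : dot r (v - w) = dot r v - dot r w := by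
  simp only [dot, Pi.sub_apply, mul_sub, sum_sub_distrib]

theorem linr_dot_smul_right (r : Vec b n) (a : ZMod b) (v : Vec b n) :
    dot r (a • v) = a * dot r v := by
  simp only [dot, Pi.smul_apply, smul_eq_mul, mul_sum]
  exact sum_congr rfl fun q _ => by ring

theorem linr_dot_add_left (r s v : Vec b n) : dot (r + s) v = dot r v + dot s v := by
  simp only [dot, Pi.add_apply, add_mul, sum_add_distrib]

theorem linr_dot_single (i : Fin n) (a : ZMod b) (v : Vec b n) :
    dot (Pi.single i a) v = a * v i := by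
  simp only [dot]
  rw [Finset.sum_eq_single i]
  · rw [Pi.single_eq_same]
  · intro j _ hj
    rw [Pi.single_eq_of_ne hj, zero_mul]
  · intro h; exact absurd (mem_univ i) h

theorem linr_unit_cancel (a : (ZMod b)ˣ) {x y : ZMod b} (h : (a : ZMod b) * x = a * y) :
    x = y := by
  have h1 := congrArg (fun z => ((a⁻¹ : (ZMod b)ˣ) : ZMod b) * z) h
  simpa [← mul_assoc] using h1

/-- congruence in the rows `s < t` -/
theorem Ker.congr {κ : ℕ → ℕ → (ZMod b)ˣ} {row row' : ℕ → Vec b n} {t : ℕ} {u : ℕ → Vec b n}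
    (h : Ker κ row t u) (hr : ∀ s < t, row s = row' s) : Ker κ row' t u where
  ker := fun s hs p hp => by rw [← hr s hs]; exact h.ker s hs p hp
  sup := h.sup
  left := h.left
  right := h.right
  uniq := fun p v hv hs => h.uniq p v (fun s hst => by rw [hr s hst]; exact hv s hst) hs

theorem linr_Ker_zero (κ : ℕ → ℕ → (ZMod b)ˣ) (row : ℕ → Vec b n) :
    Ker κ row 0 (fun p q => if (q : ℕ) = p then 1 else 0) where
  ker := fun s hs => absurd hs (Nat.not_lt_zero s)
  sup := by
    intro p _ q hq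
    have hne : (q : ℕ) ≠ p := by omega
    simp only [if_neg hne]
  left := by
    intro p _
    simp
  right := by
    intro p _
    simp
  uniq := by
    intro p v _ hv
    funext q
    exact hv q (by omega)

/-- a vector of the kernel supported on `[p, p + t]` is a multiple of `u p` -/
theorem linr_span1 {κ : ℕ → ℕ → (ZMod b)ˣ} {row : ℕ → Vec b n} {t : ℕ} {u : ℕ → Vec b n}
    (h : Ker κ row t u) {p : ℕ} (hp : p + t < n) {v : Vec b n} (hv : ∀ s < t, dot (row s) v = 0)
    (hs : supp p (t + 1) v) : v = v ⟨p, by omega⟩ • u p := by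
  have hpn : p < n := by omega
  have h0 : v - v ⟨p, hpn⟩ • u p = 0 := by
    refine h.uniq (p + 1) _ (fun s hst => ?_) (fun q hq => ?_)
    · rw [linr_dot_sub_right, linr_dot_smul_right, hv s hst, h.ker s hst p hp]
      ring
    · rcases Nat.lt_trichotomy (q : ℕ) p with h1 | h1 | h1
      · have e1 := hs q (Or.inl h1)
        have e2 := h.sup p hp q (Or.inl h1)
        simp only [Pi.sub_apply, Pi.smul_apply, smul_eq_mul, e1, e2, mul_zero, sub_zero]
      · have hqp : q = ⟨p, hpn⟩ := Fin.ext h1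
        subst hqp
        have e3 := h.left p hp
        simp only [Pi.sub_apply, Pi.smul_apply, smul_eq_mul, e3, mul_one, sub_self]
      · have h3 : p + (t + 1) ≤ (q : ℕ) := by omega
        have e1 := hs q (Or.inr h3)
        have e2 := h.sup p hp q (Or.inr h3)
        simp only [Pi.sub_apply, Pi.smul_apply, smul_eq_mul, e1, e2, mul_zero, sub_zero]
  exact sub_eq_zero.1 h0

/-- a vector of the kernel supported on `[p, p + t + 1]` -/
theorem linr_span2 {κ : ℕ → ℕ → (ZMod b)ˣ} {row : ℕ → Vec b n} {t : ℕ} {u : ℕ → Vec b n}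
    (h : Ker κ row t u) {p : ℕ} (hp : p + 1 + t < n) {v : Vec b n}
    (hv : ∀ s < t, dot (row s) v = 0) (hs : supp p (t + 2) v) :
    ∃ ν : ZMod b, v = v ⟨p, by omega⟩ • u p + ν • u (p + 1) := by
  have hpn : p < n := by omega
  have hpt : p + t < n := by omega
  have h1 : v - v ⟨p, hpn⟩ • u p
      = (v - v ⟨p, hpn⟩ • u p) ⟨p + 1, by omega⟩ • u (p + 1) := by
    refine linr_span1 h hp (fun s hst => ?_) (fun q hq => ?_)
    · rw [linr_dot_sub_right, linr_dot_smul_right, hv s hst, h.ker s hst p hpt]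
      ring
    · rcases Nat.lt_trichotomy (q : ℕ) p with h1 | h1 | h1
      · have e1 := hs q (Or.inl h1)
        have e2 := h.sup p hpt q (Or.inl h1)
        simp only [Pi.sub_apply, Pi.smul_apply, smul_eq_mul, e1, e2, mul_zero, sub_zero]
      · have hqp : q = ⟨p, hpn⟩ := Fin.ext h1
        subst hqp
        have e3 := h.left p hpt
        simp only [Pi.sub_apply, Pi.smul_apply, smul_eq_mul, e3, mul_one, sub_self]
      · have h3 : p + 1 + (t + 1) ≤ (q : ℕ) := by omega
        have e1 := hs q (Or.inr (by omega))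
        have e2 := h.sup p hpt q (Or.inr (by omega))
        simp only [Pi.sub_apply, Pi.smul_apply, smul_eq_mul, e1, e2, mul_zero, sub_zero]
  exact ⟨_, by rw [← h1]; abel⟩

theorem linr_Ker_succ {κ : ℕ → ℕ → (ZMod b)ˣ} {row : ℕ → Vec b n} {t : ℕ} {u : ℕ → Vec b n}
    (h : Ker κ row t u) (hr : ∀ p, p + t < n → dot (row t) (u p) = At κ t p) :
    Ker κ row (t + 1)
      (fun p => u p - ((At κ t p * (At κ t (p + 1))⁻¹ : (ZMod b)ˣ) : ZMod b) • u (p + 1)) where
  ker := by
    intro s hs p hp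
    rcases Nat.lt_succ_iff_lt_or_eq.1 hs with hs' | rfl
    · rw [linr_dot_sub_right, linr_dot_smul_right, h.ker s hs' p (by omega),
        h.ker s hs' (p + 1) (by omega)]
      ring
    · rw [linr_dot_sub_right, linr_dot_smul_right, hr p (by omega), hr (p + 1) (by omega),
        Units.val_mul, mul_assoc, Units.inv_mul, mul_one, sub_self]
  sup := by
    intro p hp q hq
    have h1 : u p q = 0 := h.sup p (by omega) q (by omega)
    have h2 : u (p + 1) q = 0 := h.sup (p + 1) (by omega) q (by omega)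
    simp only [Pi.sub_apply, Pi.smul_apply, smul_eq_mul, h1, h2, mul_zero, sub_zero]
  left := by
    intro p hp
    have h2 : u (p + 1) ⟨p, by omega⟩ = 0 :=
      h.sup (p + 1) (by omega) ⟨p, by omega⟩ (Or.inl (by simp))
    simp only [Pi.sub_apply, Pi.smul_apply, smul_eq_mul, h2, mul_zero, sub_zero]
    exact h.left p (by omega)
  right := by
    intro p hp
    have h1 : u p ⟨p + (t + 1), hp⟩ = 0 :=
      h.sup p (by omega) ⟨p + (t + 1), hp⟩ (Or.inr (by simp only; omega))
    have h3 := h.right (p + 1) (by omega)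
    have h4 : (⟨p + 1 + t, by omega⟩ : Fin n) = ⟨p + (t + 1), hp⟩ := by
      apply Fin.ext; simp only; omega
    have h5 : p + 1 + t = p + (t + 1) := by omega
    rw [h4, h5] at h3
    simp only [Pi.sub_apply, Pi.smul_apply, smul_eq_mul, h1, zero_sub]
    have e1 : (κ 0 (p + (t + 1)) : ZMod b) *
        -(((At κ t p * (At κ t (p + 1))⁻¹ : (ZMod b)ˣ) : ZMod b) * u (p + 1) ⟨p + (t + 1), hp⟩) =
        -(((At κ t p * (At κ t (p + 1))⁻¹ : (ZMod b)ˣ) : ZMod b) *
          ((κ 0 (p + (t + 1)) : ZMod b) * u (p + 1) ⟨p + (t + 1), hp⟩)) := by ring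
    rw [e1, h3, ← Units.val_mul, ← Units.val_neg]
    congr 1
    have e2 : At κ t (p + 1) = -(At κ t p) * κ t (p + 1) * (κ (t + 1) p)⁻¹ := rfl
    rw [e2]
    have e3 : (-At κ t p * κ t (p + 1) * (κ (t + 1) p)⁻¹)⁻¹ =
        -((At κ t p)⁻¹ * (κ t (p + 1))⁻¹ * κ (t + 1) p) := by
      rw [mul_inv, mul_inv, inv_inv, inv_neg]
      rw [neg_mul, neg_mul]
    rw [e3]
    rw [mul_neg, neg_mul, neg_neg]
    have e4 : At κ t p * ((At κ t p)⁻¹ * (κ t (p + 1))⁻¹ * κ (t + 1) p) * κ t (p + 1) =
      (At κ t p * (At κ t p)⁻¹) * (κ t (p + 1) * (κ t (p + 1))⁻¹) * κ (t + 1) p := by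
      ac_rfl
    rw [e4, mul_inv_cancel, mul_inv_cancel, one_mul, one_mul]
  uniq := by
    intro p v hv hs
    have hv' : ∀ s < t, dot (row s) v = 0 := fun s hst => hv s (by omega)
    have hvr : dot (row t) v = 0 := hv t (by omega)
    rcases Nat.lt_or_ge (p + t) n with hp | hp
    · have h1 := linr_span1 h hp hv' hs
      have h2 : v ⟨p, by omega⟩ * (At κ t p : ZMod b) = 0 := by
        rw [← hr p hp, ← linr_dot_smul_right, ← h1]
        exact hvr
      have h3 : v ⟨p, by omega⟩ = 0 := by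
        refine linr_unit_cancel (At κ t p) ?_
        rw [mul_comm, h2, mul_zero]
      rw [h1, h3, zero_smul]
    · refine h.uniq p v hv' ?_
      intro q hq
      have := q.2
      exact hs q (by omega)

theorem linr_exists_row {κ : ℕ → ℕ → (ZMod b)ˣ} {row : ℕ → Vec b n} {t : ℕ} {u : ℕ → Vec b n}
    (h : Ker κ row t u) (c : ℕ → ZMod b) : ∃ r : Vec b n, ∀ p, p + t < n → dot r (u p) = c p := by
  have key : ∀ m : ℕ, ∃ r : Vec b n, ∀ p, p + t < n → n ≤ p + t + m → dot r (u p) = c p := by
    intro m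
    induction m with
    | zero => exact ⟨0, fun p h1 h2 => by omega⟩
    | succ m ih =>
      obtain ⟨r, hr⟩ := ih
      by_cases hm : ∃ p0, p0 + t + (m + 1) = n
      · obtain ⟨p0, hp0⟩ := hm
        have hp0n : p0 < n := by omega
        have hp0t : p0 + t < n := by omega
        have hne : u p0 ⟨p0, hp0n⟩ = 1 := h.left p0 hp0t
        refine ⟨r + Pi.single ⟨p0, hp0n⟩ (c p0 - dot r (u p0)), ?_⟩
        intro p h1 h2
        rw [linr_dot_add_left, linr_dot_single]
        rcases Nat.lt_or_ge p0 p with h3 | h3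
        · have e1 : u p ⟨p0, hp0n⟩ = 0 := h.sup p h1 ⟨p0, hp0n⟩ (Or.inl h3)
          rw [e1, mul_zero, add_zero]
          exact hr p h1 (by omega)
        · have e1 : p = p0 := by omega
          subst e1
          rw [hne]
          ring
      · exact ⟨r, fun p h1 h2 => hr p h1 (by
          by_contra h3
          exact hm ⟨p, by omega⟩)⟩
  obtain ⟨r, hr⟩ := key n
  exact ⟨r, fun p hp => hr p hp (by omega)⟩

/-- **the rows exist** -/
theorem linr_rows (κ : ℕ → ℕ → (ZMod b)ˣ) : ∃ (row : ℕ → Vec b n) (u : ℕ → ℕ → Vec b n),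
    (∀ t ≤ n, Ker κ row t (u t)) ∧
      ∀ t < n, ∀ p, p + t < n → dot (row t) (u t p) = At κ t p := by
  have key : ∀ m ≤ n, ∃ (row : ℕ → Vec b n) (u : ℕ → ℕ → Vec b n),
    (∀ t ≤ m, Ker κ row t (u t)) ∧
      ∀ t < m, ∀ p, p + t < n → dot (row t) (u t p) = At κ t p := by
    intro m
    induction m with
    | zero =>
      intro _
      refine ⟨fun _ => 0, fun _ p q => if (q : ℕ) = p then 1 else 0, fun t ht => ?_,
        fun t ht => absurd ht (Nat.not_lt_zero t)⟩
      obtain rfl : t = 0 := by omega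
      exact linr_Ker_zero κ _
    | succ m ih =>
      intro hm
      obtain ⟨row, u, h1, h2⟩ := ih (by omega)
      obtain ⟨r, hr⟩ := linr_exists_row (h1 m le_rfl) (fun p => (At κ m p : ZMod b))
      have hk : ∀ t ≤ m, Ker κ (Function.update row m r) t (u t) := fun t ht =>
        (h1 t ht).congr fun s hs => by rw [Function.update_of_ne (by omega)]
      have hr' : ∀ p, p + m < n → dot (Function.update row m r m) (u m p) = At κ m p := by
        intro p hp
        rw [Function.update_self]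
        exact hr p hp
      refine ⟨Function.update row m r, Function.update u (m + 1)
        (fun p => u m p - ((At κ m p * (At κ m (p + 1))⁻¹ : (ZMod b)ˣ) : ZMod b) • u m (p + 1)),
        fun t ht => ?_, fun t ht p hp => ?_⟩
      · rcases Nat.lt_succ_iff_lt_or_eq.1 (Nat.lt_succ_of_le ht) with h3 | h3
        · rw [Function.update_of_ne (by omega)]
          exact hk t (by omega)
        · rw [h3, Function.update_self]
          exact linr_Ker_succ (hk m le_rfl) hr'
      · rw [Function.update_of_ne (show t ≠ m + 1 by omega)]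
        rcases Nat.lt_succ_iff_lt_or_eq.1 ht with h3 | h3
        · rw [Function.update_of_ne (show t ≠ m by omega)]
          exact h2 t h3 p hp
        · subst h3
          exact hr' p hp
  exact key n le_rfl

theorem linr_exists_w [NeZero b] {κ : ℕ → ℕ → (ZMod b)ˣ} {row : ℕ → Vec b n} {t : ℕ}
    {u : ℕ → Vec b n} (h : Ker κ row t u) (σ Z X Y : ℕ → ZMod b) {p : ℕ} (hp : p + t ≤ n) :
    ∃ w : Vec b n, mtch row σ Z t w ∧ (∀ q : Fin n, (q : ℕ) < p → w q = X q) ∧
      ∀ q : Fin n, p + t ≤ (q : ℕ) → (κ 0 q : ZMod b) * w q = Y q := by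
  set emb : (Fin t → ZMod b) → Vec b n := fun y q =>
    if hq : p ≤ (q : ℕ) ∧ (q : ℕ) < p + t then y ⟨(q : ℕ) - p, by omega⟩ else 0 with hemb
  have emb_sub : ∀ y y', emb (y - y') = emb y - emb y' := by
    intro y y'
    funext q
    simp only [hemb, Pi.sub_apply]
    split_ifs with hq
    · rfl
    · ring
  have emb_supp : ∀ y, supp p t (emb y) := by
    intro y q hq
    simp only [hemb]
    rw [dif_neg (by omega)]
  have emb_at : ∀ y (j : Fin t), emb y ⟨p + j, by have := j.2; omega⟩ = y j := by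
    intro y j
    have hj := j.2
    simp only [hemb]
    rw [dif_pos ⟨by omega, by omega⟩]
    congr 1
    apply Fin.ext
    simp only
    omega
  set L : (Fin t → ZMod b) → (Fin t → ZMod b) := fun y s => dot (row s) (emb y) with hL
  have hinj : Function.Injective L := by
    intro y y' hyy
    have h1 : emb (y - y') = 0 := by
      refine h.uniq p _ ?_ (emb_supp _)
      intro s hs
      rw [emb_sub, linr_dot_sub_right]
      have h2 := congrFun hyy ⟨s, hs⟩
      simp only [hL] at h2
      rw [h2, sub_self]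
    funext j
    have h2 := emb_at (y - y') j
    rw [h1] at h2
    simp only [Pi.zero_apply, Pi.sub_apply] at h2
    exact sub_eq_zero.1 h2.symm
  have hsurj : Function.Surjective L := Finite.surjective_of_injective hinj
  set w0 : Vec b n := fun q => if (q : ℕ) < p then X q else
    if p + t ≤ (q : ℕ) then (((κ 0 q)⁻¹ : (ZMod b)ˣ) : ZMod b) * Y q else 0 with hw0
  obtain ⟨y, hy⟩ := hsurj (fun s => Z s - σ s - dot (row s) w0)
  refine ⟨w0 + emb y, ?_, ?_, ?_⟩
  · intro s hs
    rw [linr_dot_add_right]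
    have h1 := congrFun hy ⟨s, hs⟩
    simp only [hL] at h1
    rw [h1]
    ring
  · intro q hq
    have h1 : emb y q = 0 := emb_supp y q (Or.inl hq)
    rw [Pi.add_apply, h1, add_zero, hw0]
    simp only [if_pos hq]
  · intro q hq
    have h1 : emb y q = 0 := emb_supp y q (Or.inr hq)
    rw [Pi.add_apply, h1, add_zero, hw0]
    have h2 : ¬ (q : ℕ) < p := by omega
    simp only [if_neg h2, if_pos hq]
    rw [← mul_assoc, Units.mul_inv, one_mul]

theorem linr_exists_W [NeZero b] {κ : ℕ → ℕ → (ZMod b)ˣ} {row : ℕ → Vec b n} {t : ℕ}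
    {u : ℕ → Vec b n} (h : Ker κ row t u) (σ Z X Y : ℕ → ZMod b) :
    ∃ w : ℕ → Vec b n, WW κ row σ Z X Y t w := by
  choose w h1 h2 h3 using fun (p : ℕ) (hp : p + t ≤ n) => linr_exists_w h σ Z X Y hp
  refine ⟨fun p => if hp : p + t ≤ n then w p hp else 0, fun p hp => ?_, fun p hp => ?_,
    fun p hp => ?_⟩
  · simp only [dif_pos hp]
    exact h1 p hp
  · simp only [dif_pos hp]
    exact h2 p hp
  · simp only [dif_pos hp]
    exact h3 p hp

theorem linr_eq_of_agree {κ : ℕ → ℕ → (ZMod b)ˣ} {row : ℕ → Vec b n} {t : ℕ} {u : ℕ → Vec b n}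
    (h : Ker κ row t u) {σ Z : ℕ → ZMod b} {k k' : Vec b n} (hk : mtch row σ Z t k)
    (hk' : mtch row σ Z t k') {p : ℕ} (h1 : ∀ q : Fin n, (q : ℕ) < p → k q = k' q)
    (h2 : ∀ q : Fin n, p + t ≤ (q : ℕ) → (κ 0 q : ZMod b) * k q = κ 0 q * k' q) : k = k' := by
  have h0 : k - k' = 0 := by
    refine h.uniq p _ (fun s hs => ?_) (fun q hq => ?_)
    · rw [linr_dot_sub_right]
      have e1 := hk s hs
      have e2 := hk' s hs
      linear_combination e1 - e2
    · rcases hq with hq | hq
      · simp only [Pi.sub_apply, h1 q hq, sub_self]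
      · rw [Pi.sub_apply, linr_unit_cancel _ (h2 q hq), sub_self]
  exact sub_eq_zero.1 h0

theorem linr_mtch_add {row : ℕ → Vec b n} {σ Z : ℕ → ZMod b} {t : ℕ} {k v : Vec b n}
    (hk : mtch row σ Z t k) (hv : ∀ s < t, dot (row s) v = 0) : mtch row σ Z t (k + v) := by
  intro s hs
  rw [linr_dot_add_right, hv s hs, add_zero]
  exact hk s hs

theorem linr_mtch_sub {row : ℕ → Vec b n} {σ Z : ℕ → ZMod b} {t : ℕ} {k k' : Vec b n}
    (hk : mtch row σ Z t k) (hk' : mtch row σ Z t k') : ∀ s < t, dot (row s) (k - k') = 0 := by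
  intro s hs
  rw [linr_dot_sub_right]
  have e1 := hk s hs
  have e2 := hk' s hs
  linear_combination e1 - e2

/-- consecutive points -/
theorem linr_W_succ {κ : ℕ → ℕ → (ZMod b)ˣ} {row : ℕ → Vec b n} {t : ℕ} {u : ℕ → Vec b n}
    (h : Ker κ row t u) {σ Z X Y : ℕ → ZMod b} {w : ℕ → Vec b n} (hw : WW κ row σ Z X Y t w)
    {i : ℕ} (hi : i + t < n) :
    w (i + 1) = w i + (X i - w i ⟨i, by omega⟩) • u i := by
  have hin : i < n := by omega
  refine linr_eq_of_agree h (hw.m (i + 1) (by omega)) (linr_mtch_add (hw.m i (by omega)) ?_)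
    (p := i + 1) (fun q hq => ?_) (fun q hq => ?_)
  · intro s hs
    rw [linr_dot_smul_right, h.ker s hs i hi, mul_zero]
  · rw [hw.l (i + 1) (by omega) q hq]
    rcases Nat.lt_or_ge (q : ℕ) i with h1 | h1
    · have e1 := h.sup i hi q (Or.inl h1)
      simp only [Pi.add_apply, Pi.smul_apply, smul_eq_mul, e1, mul_zero, add_zero]
      rw [hw.l i (by omega) q h1]
    · have hqi : q = ⟨i, hin⟩ := Fin.ext (by simp only; omega)
      subst hqi
      have e1 := h.left i hi
      simp only [Pi.add_apply, Pi.smul_apply, smul_eq_mul, e1, mul_one]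
      ring
  · rw [hw.r (i + 1) (by omega) q hq]
    have e1 := h.sup i hi q (Or.inr (by omega))
    simp only [Pi.add_apply, Pi.smul_apply, smul_eq_mul, e1, mul_zero, add_zero]
    exact (hw.r i (by omega) q (by omega)).symm

/-- the same point in the next coset -/
theorem linr_W_next {κ : ℕ → ℕ → (ZMod b)ˣ} {row : ℕ → Vec b n} {t : ℕ} {u u' : ℕ → Vec b n}
    (h : Ker κ row t u) (h' : Ker κ row (t + 1) u')
    (hr : ∀ p, p + t < n → dot (row t) (u p) = At κ t p) {σ Z X Y : ℕ → ZMod b}
    {w w' : ℕ → Vec b n} (hw : WW κ row σ Z X Y t w) (hw' : WW κ row σ Z X Y (t + 1) w')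
    {i : ℕ} (hi : i + t < n) :
    w' i = w i + ((Z t - (dot (row t) (w i) + σ t)) * ((At κ t i)⁻¹ : (ZMod b)ˣ)) • u i := by
  refine linr_eq_of_agree h' (hw'.m i (by omega)) ?_ (p := i) (fun q hq => ?_) (fun q hq => ?_)
  · intro s hs
    rcases Nat.lt_succ_iff_lt_or_eq.1 hs with hs' | rfl
    · rw [linr_dot_add_right, linr_dot_smul_right, h.ker s hs' i hi, mul_zero, add_zero]
      exact hw.m i (by omega) s hs'
    · rw [linr_dot_add_right, linr_dot_smul_right, hr i hi, mul_assoc, Units.inv_mul]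
      ring
  · rw [hw'.l i (by omega) q hq]
    have e1 := h.sup i hi q (Or.inl hq)
    simp only [Pi.add_apply, Pi.smul_apply, smul_eq_mul, e1, mul_zero, add_zero]
    rw [hw.l i (by omega) q hq]
  · rw [hw'.r i (by omega) q hq]
    have e1 := h.sup i hi q (Or.inr (by omega))
    simp only [Pi.add_apply, Pi.smul_apply, smul_eq_mul, e1, mul_zero, add_zero]
    exact (hw.r i (by omega) q (by omega)).symm

/-- **the points `w^t_i` follow the tables `ω` and `V`** -/
theorem linr_tab [NeZero b] (κ : ℕ → ℕ → (ZMod b)ˣ) {row : ℕ → Vec b n} {u : ℕ → ℕ → Vec b n}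
    (h1 : ∀ t ≤ n, Ker κ row t (u t))
    (h2 : ∀ t < n, ∀ p, p + t < n → dot (row t) (u t p) = At κ t p) (X Y Z : ℕ → ZMod b) :
    ∃ w : (ℕ → ZMod b) → ℕ → ℕ → Vec b n,
      (∀ t σ σ', (∀ s < t, σ s = σ' s) → w σ t = w σ' t) ∧
      ∀ σ : ℕ → ZMod b,
        (∀ t ≤ n, WW κ row σ Z X Y t (w σ t)) ∧
        (∀ t < n, ∀ i, i + t ≤ n → dot (row t) (w σ t i) + σ t =
          VV κ X Y Z (fun s => σ s + dot (row s) (w σ s 0)) t i) ∧
        (∀ t ≤ n, ∀ i (hi : i < n), i + t ≤ n → w σ t i ⟨i, hi⟩ =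
          om κ X Y Z (fun s => σ s + dot (row s) (w σ s 0)) t i) ∧
        ∀ t < n, ∀ i, i + t < n → w σ t (i + 1) = w σ t i +
          (X i - om κ X Y Z (fun s => σ s + dot (row s) (w σ s 0)) t i) • u t i := by
  classical
  have hex : ∀ (σ : ℕ → ZMod b) (t : ℕ), ∃ w : ℕ → Vec b n, t ≤ n → WW κ row σ Z X Y t w := by
    intro σ t
    by_cases ht : t ≤ n
    · obtain ⟨w, hw⟩ := linr_exists_W (h1 t ht) σ Z X Y
      exact ⟨w, fun _ => hw⟩
    · exact ⟨fun _ => 0, fun h => absurd h ht⟩
  choose w0 hw0 using hex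
  -- make the choice depend on the first `t` values of `σ` only
  set w : (ℕ → ZMod b) → ℕ → ℕ → Vec b n :=
    fun σ t => w0 (fun s => if s < t then σ s else 0) t with hwdef
  have hWW : ∀ σ, ∀ t ≤ n, WW κ row σ Z X Y t (w σ t) := by
    intro σ t ht
    have h3 := hw0 (fun s => if s < t then σ s else 0) t ht
    refine ⟨fun p hp s hs => ?_, h3.l, h3.r⟩
    have h4 := h3.m p hp s hs
    simp only [if_pos hs] at h4
    exact h4
  refine ⟨w, ?_, fun σ => ?_⟩
  · intro t σ σ' hσ
    have h3 : (fun s => if s < t then σ s else 0) = fun s => if s < t then σ' s else 0 := by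
      funext s
      by_cases hs : s < t
      · rw [if_pos hs, if_pos hs, hσ s hs]
      · rw [if_neg hs, if_neg hs]
    simp only [hwdef, h3]
  · set V0 : ℕ → ZMod b := fun s => σ s + dot (row s) (w σ s 0) with hV0
    -- (V) from (om)
    have hstepV : ∀ t < n, (∀ i (hi : i < n), i + t ≤ n → w σ t i ⟨i, hi⟩ = om κ X Y Z V0 t i) →
        ∀ i, i + t ≤ n → dot (row t) (w σ t i) + σ t = VV κ X Y Z V0 t i := by
      intro t ht hom i
      induction i with
      | zero =>
        intro _
        simp only [VV, Vt, Finset.range_zero, Finset.sum_empty, add_zero, hV0]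
        ring
      | succ i ih =>
        intro hi
        have h3 := ih (by omega)
        have h4 := linr_W_succ (h1 t ht.le) (hWW σ t ht.le) (show i + t < n by omega)
        rw [h4, linr_dot_add_right, linr_dot_smul_right, h2 t ht i (by omega),
          hom i (by omega) (by omega)]
        have h5 : VV κ X Y Z V0 t (i + 1) = VV κ X Y Z V0 t i +
            (At κ t i : ZMod b) * (X i - om κ X Y Z V0 t i) := by
          simp only [VV, Vt, Finset.sum_range_succ]
          ring
        rw [h5, ← h3]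
        ring
    have hom : ∀ t ≤ n, ∀ i (hi : i < n), i + t ≤ n → w σ t i ⟨i, hi⟩ = om κ X Y Z V0 t i := by
      intro t
      induction t with
      | zero =>
        intro _ i hi _
        have h3 := (hWW σ 0 (by omega)).r i (by omega) ⟨i, hi⟩ (by simp)
        simp only at h3
        simp only [om]
        rw [← h3, ← mul_assoc, Units.inv_mul, one_mul]
      | succ t ih =>
        intro ht i hi hit
        have h3 := ih (by omega)
        have h4 := hstepV t (by omega) h3
        have h5 := linr_W_next (h1 t (by omega)) (h1 (t + 1) ht) (h2 t (by omega))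
          (hWW σ t (by omega)) (hWW σ (t + 1) ht) (show i + t < n by omega)
        rw [h5]
        have e1 := (h1 t (by omega)).left i (by omega)
        simp only [Pi.add_apply, Pi.smul_apply, smul_eq_mul, e1, mul_one]
        rw [h3 i hi (by omega), h4 i (by omega)]
        rfl
    refine ⟨hWW σ, fun t ht => hstepV t ht (hom t ht.le), hom, fun t ht i hi => ?_⟩
    rw [← hom t ht.le i (by omega) (by omega)]
    exact linr_W_succ (h1 t ht.le) (hWW σ t ht.le) hi

end DiscPS
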