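import Pool.Agent.Work.DiscPS.T1b

/-!
# The signed sum over the vectors with a short primitive vector
-/

namespace DiscPS

open Finset

/-- positive integers below `M / 2` -/
def T1H (M : ℕ) : Finset ℕ := (range M).filter (fun n => 1 ≤ n ∧ 2 * n < M)

theorem T1_mem_SR {M : ℕ} {q : ℤ} : q ∈ SR M ↔ q ≠ 0 ∧ 2 * q.natAbs < M := by
  unfold SR
  rw [mem_filter, mem_Ioo]
  constructor
  · exact fun h => h.2
  · intro h
    refine ⟨?_, h⟩
    omega

theorem T1_SR_eq (M : ℕ) : SR M = (T1H M).image (fun n : ℕ => (n : ℤ)) ∪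
    (T1H M).image (fun n : ℕ => -(n : ℤ)) := by
  ext q
  rw [T1_mem_SR, mem_union, mem_image, mem_image]
  unfold T1H
  constructor
  · rintro ⟨h0, h⟩
    rcases le_total 0 q with hq | hq
    · left
      refine ⟨q.natAbs, ?_, by omega⟩
      rw [mem_filter, mem_range]
      omega
    · right
      refine ⟨q.natAbs, ?_, by omega⟩
      rw [mem_filter, mem_range]
      omega
  · rintro (⟨n, hn, rfl⟩ | ⟨n, hn, rfl⟩) <;> rw [mem_filter, mem_range] at hn <;> omega

theorem T1_sum_SR (M : ℕ) (f : ℤ → ℝ) (hf : ∀ q, f (-q) = f q) :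
    ∑ q ∈ SR M, f q = 2 * ∑ n ∈ T1H M, f (n : ℤ) := by
  rw [T1_SR_eq, sum_union, sum_image, sum_image]
  · simp only [hf]
    ring
  · intro x _ y _ h
    simpa using h
  · intro x _ y _ h
    simpa using h
  · rw [disjoint_left]
    intro q h1 h2
    rw [mem_image] at h1 h2
    obtain ⟨n, hn, rfl⟩ := h1
    obtain ⟨k, hk, h⟩ := h2
    unfold T1H at hn hk
    rw [mem_filter, mem_range] at hn hk
    omega

theorem T1_fs_neg (M : ℕ) (a : ℤ) (X : ℕ) (p : ℤ) : fs M a X (-p) = (starRingEnd ℂ) (fs M a X p) := by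
  unfold fs
  rw [map_sum]
  refine sum_congr rfl fun h _ => ?_
  rw [← Complex.exp_conj]
  congr 1
  simp only [map_mul, map_div₀, map_add, Complex.conj_I, Complex.conj_ofReal, map_ofNat,
    map_intCast, map_natCast, Int.cast_neg]
  ring

theorem T1_re_neg (M : ℕ) (a : ℤ) (X : ℕ) (p : ℤ) : (fs M a X (-p)).re = (fs M a X p).re := by
  rw [T1_fs_neg, Complex.conj_re]

theorem T1_im_neg (M : ℕ) (a : ℤ) (X : ℕ) (p : ℤ) : (fs M a X (-p)).im = -(fs M a X p).im := by
  rw [T1_fs_neg, Complex.conj_im]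

theorem T1_brp_neg_left (q p : ℤ) : brp (-q) p = brp q p := by
  unfold brp br
  rw [Int.neg_gcd]
  have h : (-q / (Int.gcd q p : ℤ)).natAbs = (q / (Int.gcd q p : ℤ)).natAbs := by
    rw [Int.neg_ediv_of_dvd (Int.gcd_dvd_left ..), Int.natAbs_neg]
  rw [h]

theorem T1_brp_neg_right (q p : ℤ) : brp q (-p) = brp q p := by
  unfold brp br
  rw [Int.gcd_neg]
  have h : (-p / (Int.gcd q p : ℤ)).natAbs = (p / (Int.gcd q p : ℤ)).natAbs := by
    rw [Int.neg_ediv_of_dvd (Int.gcd_dvd_right ..), Int.natAbs_neg]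
  rw [h]

/-- the sum over the four signs -/
theorem T1_signs (M u : ℕ) (a : ℤ) (X : ℕ) (c : ℤ) (Y : ℕ) :
    ∑ x ∈ (SR M ×ˢ SR M).filter (fun x => brp x.1 x.2 * u ≤ M), cf M a X c Y x =
      4 / M * ∑ q ∈ T1H M, ∑ p ∈ T1H M,
        if brp q p * u ≤ M then (fs M c Y q).re * (fs M a X p).re else 0 := by
  rw [sum_filter, sum_product]
  have key : ∀ q ∈ SR M, ∑ p ∈ SR M, (if brp q p * u ≤ M then cf M a X c Y (q, p) else 0) =
      ∑ p ∈ SR M, (if brp q p * u ≤ M then (fs M c Y q).re * (fs M a X p).re / M else 0) := by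
    intro q _
    have h1 : ∀ p, (if brp q p * u ≤ M then cf M a X c Y (q, p) else 0) =
        (if brp q p * u ≤ M then (fs M c Y q).re * (fs M a X p).re / M else 0) -
        (if brp q p * u ≤ M then (fs M c Y q).im * (fs M a X p).im / M else 0) := by
      intro p
      unfold cf
      split_ifs
      · rw [Complex.mul_re]
        ring
      · ring
    rw [sum_congr rfl fun p _ => h1 p, sum_sub_distrib]
    have h2 : ∑ p ∈ SR M, (if brp q p * u ≤ M then (fs M c Y q).im * (fs M a X p).im / M else 0)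
        = 0 := by
      have h3 : ∑ p ∈ SR M, (if brp q p * u ≤ M then (fs M c Y q).im * (fs M a X p).im / (M:ℝ)
          else 0) = ∑ p ∈ SR M, -(if brp q p * u ≤ M then (fs M c Y q).im * (fs M a X p).im / M
          else 0) := by
        refine sum_bij' (fun p _ => -p) (fun p _ => -p) ?_ ?_ ?_ ?_ ?_
        · intro p hp
          rw [T1_mem_SR] at hp ⊢
          omega
        · intro p hp
          rw [T1_mem_SR] at hp ⊢
          omega
        · intro p _
          exact neg_neg p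
        · intro p _
          exact neg_neg p
        · intro p _
          rw [T1_brp_neg_right, T1_im_neg]
          split_ifs
          · ring
          · ring
      rw [sum_neg_distrib] at h3
      linarith
    rw [h2, sub_zero]
  rw [sum_congr rfl key]
  rw [T1_sum_SR M (fun q => ∑ p ∈ SR M,
    (if brp q p * u ≤ M then (fs M c Y q).re * (fs M a X p).re / M else 0))
    (fun q => by simp only [T1_brp_neg_left, T1_re_neg])]
  have h4 : ∀ q : ℕ, ∑ p ∈ SR M,
      (if brp q p * u ≤ M then (fs M c Y q).re * (fs M a X p).re / (M:ℝ) else 0) =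
      2 * ∑ p ∈ T1H M,
        (if brp q p * u ≤ M then (fs M c Y q).re * (fs M a X p).re / (M:ℝ) else 0) := by
    intro q
    exact T1_sum_SR M (fun p =>
      (if brp q p * u ≤ M then (fs M c Y q).re * (fs M a X p).re / (M:ℝ) else 0))
      (fun p => by simp only [T1_brp_neg_right, T1_re_neg])
  rw [sum_congr rfl fun q _ => h4 q, ← mul_sum, mul_sum, mul_sum, mul_sum]
  refine sum_congr rfl fun q _ => ?_
  rw [mul_sum, mul_sum, mul_sum]
  refine sum_congr rfl fun p _ => ?_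
  split_ifs
  · ring
  · ring

theorem T1_sum_mu (s : ℕ) : ∑ d ∈ s.divisors, (ArithmeticFunction.moebius d : ℝ) =
    if s = 1 then 1 else 0 := by
  have h := congrArg (fun f : ArithmeticFunction ℤ => f s) ArithmeticFunction.moebius_mul_coe_zeta
  simp only [ArithmeticFunction.coe_mul_zeta_apply, ArithmeticFunction.one_apply] at h
  have h2 : ((∑ d ∈ s.divisors, ArithmeticFunction.moebius d : ℤ) : ℝ) =
      (((if s = 1 then 1 else 0 : ℤ)) : ℝ) := by rw [h]
  rw [Int.cast_sum] at h2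
  rw [h2]
  split_ifs <;> simp

/-- Moebius: the indicator of the primitive condition as a double sum -/
theorem T1_moebius {M u q p : ℕ} (hq : q ∈ T1H M) (hp : p ∈ T1H M) :
    (if brp q p * u ≤ M then (1 : ℝ) else 0) =
      ∑ t ∈ Icc 1 M, ∑ d ∈ Icc 1 M, (ArithmeticFunction.moebius d : ℝ) *
        (if (t * d ∣ q ∧ t * d ∣ p) ∧ 2 ^ Nat.log 2 (q / t) * 2 ^ Nat.log 2 (p / t) * u ≤ M
          then 1 else 0) := by
  have hq1 : 1 ≤ q ∧ 2 * q < M := by
    unfold T1H at hq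
    rw [mem_filter] at hq
    exact hq.2
  have hp1 : 1 ≤ p ∧ 2 * p < M := by
    unfold T1H at hp
    rw [mem_filter] at hp
    exact hp.2
  set g := Nat.gcd q p with hg
  have hg0 : 0 < g := Nat.gcd_pos_of_pos_left _ (by omega)
  have hgq : g ∣ q := Nat.gcd_dvd_left q p
  have hgp : g ∣ p := Nat.gcd_dvd_right q p
  have hgM : g ≤ M := (Nat.le_of_dvd (by omega) hgq).trans (by omega)
  have hdv : ∀ n : ℕ, (n ∣ q ∧ n ∣ p) ↔ n ∣ g := fun n => (Nat.dvd_gcd_iff).symm
  -- inner sum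
  have inner : ∀ t ∈ Icc 1 M, ∑ d ∈ Icc 1 M, (ArithmeticFunction.moebius d : ℝ) *
        (if (t * d ∣ q ∧ t * d ∣ p) ∧ 2 ^ Nat.log 2 (q / t) * 2 ^ Nat.log 2 (p / t) * u ≤ M
          then (1 : ℝ) else 0) =
      if t = g ∧ 2 ^ Nat.log 2 (q / t) * 2 ^ Nat.log 2 (p / t) * u ≤ M then 1 else 0 := by
    intro t ht
    rw [mem_Icc] at ht
    by_cases hc : 2 ^ Nat.log 2 (q / t) * 2 ^ Nat.log 2 (p / t) * u ≤ M
    · by_cases htg : t ∣ g
      · obtain ⟨s, hs⟩ := htg
        have hs0 : 0 < s := Nat.pos_of_ne_zero (by rintro rfl; simp at hs; omega)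
        have h1 : ∑ d ∈ Icc 1 M, (ArithmeticFunction.moebius d : ℝ) *
            (if (t * d ∣ q ∧ t * d ∣ p) ∧ 2 ^ Nat.log 2 (q / t) * 2 ^ Nat.log 2 (p / t) * u ≤ M
              then (1 : ℝ) else 0) = ∑ d ∈ s.divisors, (ArithmeticFunction.moebius d : ℝ) := by
          rw [← sum_filter_add_sum_filter_not (Icc 1 M) (fun d => d ∣ s)]
          have hz : ∑ d ∈ (Icc 1 M).filter (fun d => ¬ d ∣ s),
              (ArithmeticFunction.moebius d : ℝ) *
              (if (t * d ∣ q ∧ t * d ∣ p) ∧ 2 ^ Nat.log 2 (q / t) * 2 ^ Nat.log 2 (p / t) * u ≤ M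
              then (1 : ℝ) else 0) = 0 := by
            refine sum_eq_zero fun d hd => ?_
            rw [mem_filter] at hd
            rw [if_neg, mul_zero]
            rintro ⟨h, -⟩
            rw [hdv, hs] at h
            exact hd.2 (Nat.dvd_of_mul_dvd_mul_left (by omega) h)
          rw [hz, add_zero]
          refine sum_congr ?_ fun d hd => ?_
          · ext d
            rw [mem_filter, mem_Icc, Nat.mem_divisors]
            constructor
            · rintro ⟨-, h⟩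
              exact ⟨h, by omega⟩
            · rintro ⟨h, -⟩
              have := Nat.le_of_dvd hs0 h
              have h2 : s ≤ g := by rw [hs]; exact Nat.le_mul_of_pos_left s (by omega)
              have h3 : 0 < d := Nat.pos_of_dvd_of_pos h hs0
              exact ⟨⟨h3, by omega⟩, h⟩
          · have hds : d ∣ s := by
              rw [Nat.mem_divisors] at hd
              exact hd.1
            rw [if_pos, mul_one]
            refine ⟨?_, hc⟩
            rw [hdv, hs]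
            exact Nat.mul_dvd_mul_left t hds
        rw [h1, T1_sum_mu]
        by_cases h1s : s = 1
        · rw [if_pos h1s, if_pos]
          exact ⟨by rw [hs, h1s, mul_one], hc⟩
        · rw [if_neg h1s, if_neg]
          rintro ⟨h, -⟩
          apply h1s
          have h3 : t * s = t * 1 := by rw [mul_one, ← hs]; exact h.symm
          exact Nat.eq_of_mul_eq_mul_left (by omega) h3
      · rw [if_neg]
        · refine sum_eq_zero fun d hd => ?_
          rw [if_neg, mul_zero]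
          rintro ⟨h, -⟩
          rw [hdv] at h
          exact htg ((Nat.dvd_mul_right t d).trans h)
        · rintro ⟨h, -⟩
          exact htg (h ▸ dvd_refl g)
    · rw [if_neg (fun h => hc h.2)]
      refine sum_eq_zero fun d _ => ?_
      rw [if_neg (fun h => hc h.2), mul_zero]
  rw [sum_congr rfl inner]
  have hb : brp q p = 2 ^ Nat.log 2 (q / g) * 2 ^ Nat.log 2 (p / g) := by
    unfold brp br
    have e1 : (Int.gcd (q : ℤ) (p : ℤ) : ℤ) = (g : ℤ) := by
      rw [Int.gcd_natCast_natCast]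
    rw [e1, ← Int.natCast_div, ← Int.natCast_div, Int.natAbs_natCast, Int.natAbs_natCast]
  rw [hb]
  rw [sum_eq_single g]
  · by_cases hc : 2 ^ Nat.log 2 (q / g) * 2 ^ Nat.log 2 (p / g) * u ≤ M
    · rw [if_pos hc, if_pos ⟨rfl, hc⟩]
    · rw [if_neg hc, if_neg (fun h => hc h.2)]
  · intro t _ ht
    rw [if_neg (fun h => ht h.1)]
  · intro h
    exfalso
    apply h
    rw [mem_Icc]
    exact ⟨hg0, hgM⟩

/-- the multiples of `t d` in a dyadic block -/
theorem T1_conv (M t d i : ℕ) (ht : 1 ≤ t) (hd : 1 ≤ d) (A : ℕ → ℝ) :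
    ∑ q ∈ (T1H M).filter (fun q => t * d ∣ q ∧ Nat.log 2 (q / t) = i), A q =
      ∑ p ∈ (range M).filter (fun p => (2 ^ i ≤ d * p ∧ d * p < 2 ^ (i + 1)) ∧
        2 * (t * (d * p)) < M), A (t * (d * p)) := by
  symm
  refine sum_bij' (fun p _ => t * (d * p)) (fun q _ => q / (t * d)) ?_ ?_ ?_ ?_ ?_
  · intro p hp
    rw [mem_filter, mem_range] at hp
    obtain ⟨hpM, ⟨h1, h2⟩, h3⟩ := hp
    have h4 : 0 < d * p := lt_of_lt_of_le (by positivity) h1
    have h5 : 0 < t * (d * p) := Nat.mul_pos ht h4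
    rw [mem_filter]
    refine ⟨?_, ?_, ?_⟩
    · unfold T1H
      rw [mem_filter, mem_range]
      omega
    · rw [← mul_assoc]
      exact Nat.dvd_mul_right _ _
    · rw [Nat.mul_div_cancel_left _ ht]
      exact (Nat.log_eq_iff (Or.inr ⟨by norm_num, by omega⟩)).2 ⟨h1, h2⟩
  · intro q hq
    rw [mem_filter] at hq
    obtain ⟨hq1, hq2, hq3⟩ := hq
    unfold T1H at hq1
    rw [mem_filter, mem_range] at hq1
    obtain ⟨k, rfl⟩ := hq2
    have htd : 0 < t * d := Nat.mul_pos ht hd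
    have hk : 0 < k := Nat.pos_of_ne_zero (by rintro rfl; simp at hq1)
    rw [mul_assoc, Nat.mul_div_cancel_left _ ht] at hq3
    rw [Nat.mul_div_cancel_left _ htd, mem_filter, mem_range]
    have h6 := (Nat.log_eq_iff (b := 2) (m := i) (n := d * k)
      (Or.inr ⟨by norm_num, (Nat.mul_pos hd hk).ne'⟩)).1 hq3
    refine ⟨?_, h6, ?_⟩
    · have : k ≤ t * d * k := Nat.le_mul_of_pos_left k htd
      omega
    · rw [← mul_assoc t d k]
      exact hq1.2.2
  · intro p hp
    rw [← mul_assoc, Nat.mul_div_cancel_left _ (Nat.mul_pos ht hd)]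
  · intro q hq
    rw [mem_filter] at hq
    obtain ⟨k, rfl⟩ := hq.2.1
    rw [Nat.mul_div_cancel_left _ (Nat.mul_pos ht hd), mul_assoc]
  · intro p hp
    rfl

/-- the sum for fixed `t, d`, grouped by dyadic blocks -/
theorem T1_group (M t d u : ℕ) (A B : ℕ → ℝ) :
    |∑ q ∈ T1H M, ∑ p ∈ T1H M,
      (if (t * d ∣ q ∧ t * d ∣ p) ∧ 2 ^ Nat.log 2 (q / t) * 2 ^ Nat.log 2 (p / t) * u ≤ M
          then (1 : ℝ) else 0) * (A q * B p)| ≤
      (∑ i ∈ range M, |∑ q ∈ (T1H M).filter (fun q => t * d ∣ q ∧ Nat.log 2 (q / t) = i), A q|) *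
      (∑ i ∈ range M, |∑ q ∈ (T1H M).filter (fun q => t * d ∣ q ∧ Nat.log 2 (q / t) = i), B q|)
      := by
  have hlog : ∀ q ∈ T1H M, Nat.log 2 (q / t) ∈ range M := by
    intro q hq
    unfold T1H at hq
    rw [mem_filter, mem_range] at hq
    rw [mem_range]
    exact (Nat.log_le_self 2 (q / t)).trans_lt ((Nat.div_le_self q t).trans_lt hq.1)
  have e1 : ∑ q ∈ T1H M, ∑ p ∈ T1H M,
      (if (t * d ∣ q ∧ t * d ∣ p) ∧ 2 ^ Nat.log 2 (q / t) * 2 ^ Nat.log 2 (p / t) * u ≤ M
          then (1 : ℝ) else 0) * (A q * B p) =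
      ∑ i ∈ range M, ∑ j ∈ range M, (if 2 ^ i * 2 ^ j * u ≤ M then (1 : ℝ) else 0) *
        ((∑ q ∈ (T1H M).filter (fun q => t * d ∣ q ∧ Nat.log 2 (q / t) = i), A q) *
          (∑ q ∈ (T1H M).filter (fun q => t * d ∣ q ∧ Nat.log 2 (q / t) = j), B q)) := by
    rw [← sum_fiberwise_of_maps_to hlog]
    refine sum_congr rfl fun i _ => ?_
    have e2 : ∀ q ∈ (T1H M).filter (fun q => Nat.log 2 (q / t) = i), ∑ p ∈ T1H M,
      (if (t * d ∣ q ∧ t * d ∣ p) ∧ 2 ^ Nat.log 2 (q / t) * 2 ^ Nat.log 2 (p / t) * u ≤ M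
          then (1 : ℝ) else 0) * (A q * B p) = ∑ j ∈ range M,
      (if 2 ^ i * 2 ^ j * u ≤ M then (1 : ℝ) else 0) * ((if t * d ∣ q then A q else 0) *
        (∑ q ∈ (T1H M).filter (fun q => t * d ∣ q ∧ Nat.log 2 (q / t) = j), B q)) := by
      intro q hq
      rw [mem_filter] at hq
      rw [← sum_fiberwise_of_maps_to hlog]
      refine sum_congr rfl fun j _ => ?_
      have e3 : ∑ q ∈ (T1H M).filter (fun q => t * d ∣ q ∧ Nat.log 2 (q / t) = j), B q =
          ∑ p ∈ (T1H M).filter (fun p => Nat.log 2 (p / t) = j), if t * d ∣ p then B p else 0 := by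
        rw [← sum_filter, filter_filter]
        refine sum_congr ?_ fun _ _ => rfl
        ext p
        simp only [mem_filter]
        tauto
      rw [e3, mul_sum, mul_sum]
      refine sum_congr rfl fun p hp => ?_
      rw [mem_filter] at hp
      rw [hq.2, hp.2]
      by_cases c1 : t * d ∣ q <;> by_cases c2 : t * d ∣ p <;>
        by_cases c3 : 2 ^ i * 2 ^ j * u ≤ M <;> simp [c1, c2, c3]
    rw [sum_congr rfl e2, sum_comm]
    refine sum_congr rfl fun j _ => ?_
    have e4 : ∑ q ∈ (T1H M).filter (fun q => t * d ∣ q ∧ Nat.log 2 (q / t) = i), A q =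
        ∑ p ∈ (T1H M).filter (fun p => Nat.log 2 (p / t) = i), if t * d ∣ p then A p else 0 := by
      rw [← sum_filter, filter_filter]
      refine sum_congr ?_ fun _ _ => rfl
      ext p
      simp only [mem_filter]
      tauto
    rw [e4, sum_mul, mul_sum]
  rw [e1, sum_mul_sum]
  refine (abs_sum_le_sum_abs _ _).trans (sum_le_sum fun i _ => ?_)
  refine (abs_sum_le_sum_abs _ _).trans (sum_le_sum fun j _ => ?_)
  rw [abs_mul, abs_mul]
  split_ifs
  · rw [abs_one, one_mul]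
  · rw [abs_zero, zero_mul]
    positivity

theorem T1_inv_sq (n : ℕ) : ∑ t ∈ Icc 1 n, 1 / (t : ℝ) ^ 2 ≤ 2 := by
  have h : ∀ n : ℕ, 1 ≤ n → ∑ t ∈ Icc 1 n, 1 / (t : ℝ) ^ 2 ≤ 2 - 1 / (n : ℝ) := by
    intro n hn
    induction n, hn using Nat.le_induction with
    | base => norm_num
    | succ n hn ih =>
      rw [sum_Icc_succ_top (by omega)]
      have hn0 : (0 : ℝ) < n := by exact_mod_cast hn
      have h1 : 1 / ((n + 1 : ℕ) : ℝ) ^ 2 ≤ 1 / n - 1 / ((n + 1 : ℕ) : ℝ) := by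
        push_cast
        rw [div_sub_div _ _ hn0.ne' (by positivity), div_le_div_iff₀ (by positivity)
          (by positivity)]
        nlinarith
      linarith
  rcases Nat.eq_zero_or_pos n with rfl | hn
  · simp
  · have h1 := h n hn
    have h2 : (0 : ℝ) ≤ 1 / (n : ℝ) := by positivity
    linarith

theorem T1_sum : ∃ C : ℝ, 0 < C ∧ ∀ (M u : ℕ), Odd M → ∀ (a : ℤ) (X : ℕ) (c : ℤ) (Y : ℕ),
    |∑ x ∈ (SR M ×ˢ SR M).filter (fun x => brp x.1 x.2 * u ≤ M), cf M a X c Y x| ≤ C * M := by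
  obtain ⟨C, hC, hcl⟩ := T1_claim
  refine ⟨16 * C ^ 2, by positivity, fun M u hM a X c Y => ?_⟩
  have hM0 : (0 : ℝ) < M := by exact_mod_cast hM.pos
  rw [T1_signs]
  set A : ℕ → ℝ := fun q => (fs M c Y q).re with hA
  set B : ℕ → ℝ := fun q => (fs M a X q).re with hB
  have e1 : ∑ q ∈ T1H M, ∑ p ∈ T1H M,
        (if brp q p * u ≤ M then (fs M c Y q).re * (fs M a X p).re else 0) =
      ∑ t ∈ Icc 1 M, ∑ d ∈ Icc 1 M, (ArithmeticFunction.moebius d : ℝ) *
        ∑ q ∈ T1H M, ∑ p ∈ T1H M,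
      (if (t * d ∣ q ∧ t * d ∣ p) ∧ 2 ^ Nat.log 2 (q / t) * 2 ^ Nat.log 2 (p / t) * u ≤ M
          then (1 : ℝ) else 0) * (A q * B p) := by
    have h1 : ∀ q ∈ T1H M, ∀ p ∈ T1H M,
        (if brp q p * u ≤ M then (fs M c Y q).re * (fs M a X p).re else 0) =
        ∑ t ∈ Icc 1 M, ∑ d ∈ Icc 1 M, (ArithmeticFunction.moebius d : ℝ) *
        ((if (t * d ∣ q ∧ t * d ∣ p) ∧ 2 ^ Nat.log 2 (q / t) * 2 ^ Nat.log 2 (p / t) * u ≤ M
          then (1 : ℝ) else 0) * (A q * B p)) := by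
      intro q hq p hp
      have h2 : (if brp q p * u ≤ M then (fs M c Y q).re * (fs M a X p).re else 0) =
          (if brp q p * u ≤ M then (1 : ℝ) else 0) * (A q * B p) := by
        split_ifs <;> simp [hA, hB]
      rw [h2, T1_moebius hq hp, sum_mul]
      refine sum_congr rfl fun t _ => ?_
      rw [sum_mul]
      refine sum_congr rfl fun d _ => ?_
      ring
    rw [sum_congr rfl fun q hq => sum_congr rfl fun p hp => h1 q hq p hp]
    simp_rw [mul_sum]
    rw [sum_congr rfl fun q _ => sum_comm, sum_comm]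
    refine sum_congr rfl fun t _ => ?_
    rw [sum_congr rfl fun q _ => sum_comm, sum_comm]
  rw [e1, abs_mul, abs_of_pos (by positivity : (0 : ℝ) < 4 / M)]
  have e2 : |∑ t ∈ Icc 1 M, ∑ d ∈ Icc 1 M, (ArithmeticFunction.moebius d : ℝ) *
        ∑ q ∈ T1H M, ∑ p ∈ T1H M,
      (if (t * d ∣ q ∧ t * d ∣ p) ∧ 2 ^ Nat.log 2 (q / t) * 2 ^ Nat.log 2 (p / t) * u ≤ M
          then (1 : ℝ) else 0) * (A q * B p)| ≤
      ∑ t ∈ Icc 1 M, ∑ d ∈ Icc 1 M, (C * M) ^ 2 * (1 / (t : ℝ) ^ 2 * (1 / (d : ℝ) ^ 2)) := by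
    refine (abs_sum_le_sum_abs _ _).trans (sum_le_sum fun t ht => ?_)
    refine (abs_sum_le_sum_abs _ _).trans (sum_le_sum fun d hd => ?_)
    rw [mem_Icc] at ht hd
    have ht0 : (0 : ℝ) < t := by exact_mod_cast ht.1
    have hd0 : (0 : ℝ) < d := by exact_mod_cast hd.1
    rw [abs_mul]
    have hmu : |(ArithmeticFunction.moebius d : ℝ)| ≤ 1 := by
      have := ArithmeticFunction.abs_moebius_le_one (n := d)
      exact_mod_cast this
    have h1 := T1_group M t d u A B
    have hAA : ∑ i ∈ range M,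
        |∑ q ∈ (T1H M).filter (fun q => t * d ∣ q ∧ Nat.log 2 (q / t) = i), A q| ≤
        C * M / ((t : ℝ) * d) := by
      rw [sum_congr rfl fun i _ => by rw [T1_conv M t d i ht.1 hd.1 A]]
      exact hcl M hM t d ht.1 hd.1 c Y M
    have hBB : ∑ i ∈ range M,
        |∑ q ∈ (T1H M).filter (fun q => t * d ∣ q ∧ Nat.log 2 (q / t) = i), B q| ≤
        C * M / ((t : ℝ) * d) := by
      rw [sum_congr rfl fun i _ => by rw [T1_conv M t d i ht.1 hd.1 B]]
      exact hcl M hM t d ht.1 hd.1 a X M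
    calc |(ArithmeticFunction.moebius d : ℝ)| * |∑ q ∈ T1H M, ∑ p ∈ T1H M,
      (if (t * d ∣ q ∧ t * d ∣ p) ∧ 2 ^ Nat.log 2 (q / t) * 2 ^ Nat.log 2 (p / t) * u ≤ M
          then (1 : ℝ) else 0) * (A q * B p)|
        ≤ 1 * ((C * M / ((t : ℝ) * d)) * (C * M / ((t : ℝ) * d))) := by
          refine mul_le_mul hmu (h1.trans ?_) (abs_nonneg _) (by norm_num)
          exact mul_le_mul hAA hBB (sum_nonneg fun _ _ => abs_nonneg _) (by positivity)
      _ = (C * M) ^ 2 * (1 / (t : ℝ) ^ 2 * (1 / (d : ℝ) ^ 2)) := by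
          field_simp
  have e3 : ∑ t ∈ Icc 1 M, ∑ d ∈ Icc 1 M, (C * M) ^ 2 * (1 / (t : ℝ) ^ 2 * (1 / (d : ℝ) ^ 2)) ≤
      (C * M) ^ 2 * 4 := by
    simp_rw [← mul_sum]
    rw [← sum_mul]
    have h1 := T1_inv_sq M
    have h2 : 0 ≤ ∑ t ∈ Icc 1 M, 1 / (t : ℝ) ^ 2 := sum_nonneg fun _ _ => by positivity
    refine mul_le_mul_of_nonneg_left ?_ (by positivity)
    nlinarith
  calc 4 / (M : ℝ) * |∑ t ∈ Icc 1 M, ∑ d ∈ Icc 1 M, (ArithmeticFunction.moebius d : ℝ) *
        ∑ q ∈ T1H M, ∑ p ∈ T1H M,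
      (if (t * d ∣ q ∧ t * d ∣ p) ∧ 2 ^ Nat.log 2 (q / t) * 2 ^ Nat.log 2 (p / t) * u ≤ M
          then (1 : ℝ) else 0) * (A q * B p)|
      ≤ 4 / (M : ℝ) * ((C * M) ^ 2 * 4) := by
        refine mul_le_mul_of_nonneg_left (e2.trans e3) (by positivity)
    _ = 16 * C ^ 2 * M := by
        field_simp
        ring

end DiscPS
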