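import Pool.Agent.Work.DiscPS.Har

/-!
# Long vectors, parallel witnesses
-/

namespace DiscPS

open Finset

variable {m r M : ℕ} {l : ℕ → ℕ}

theorem T2a_br_le {q p : ℤ} (hq : q ≠ 0) (hp : p ≠ 0) : br q p ≤ q.natAbs * p.natAbs := by
  unfold br
  exact Nat.mul_le_mul (Nat.pow_log_le_self 2 (by simpa using hq))
    (Nat.pow_log_le_self 2 (by simpa using hp))

theorem T2a_lt_br (q p : ℤ) : q.natAbs * p.natAbs < 4 * br q p := by
  unfold br
  have h1 : q.natAbs < 2 ^ (Nat.log 2 q.natAbs + 1) := Nat.lt_pow_succ_log_self (by norm_num) _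
  have h2 : p.natAbs < 2 ^ (Nat.log 2 p.natAbs + 1) := Nat.lt_pow_succ_log_self (by norm_num) _
  calc q.natAbs * p.natAbs
      < 2 ^ (Nat.log 2 q.natAbs + 1) * 2 ^ (Nat.log 2 p.natAbs + 1) := Nat.mul_lt_mul'' h1 h2
    _ = 4 * (2 ^ (Nat.log 2 q.natAbs) * 2 ^ (Nat.log 2 p.natAbs)) := by
        rw [pow_succ, pow_succ]; ring

theorem T2a_br_mono {q p q' p' : ℤ} (h1 : q.natAbs ≤ q'.natAbs) (h2 : p.natAbs ≤ p'.natAbs) :
    br q p ≤ br q' p' := by
  unfold br
  exact Nat.mul_le_mul (Nat.pow_le_pow_right (by norm_num) (Nat.log_mono_right h1))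
    (Nat.pow_le_pow_right (by norm_num) (Nat.log_mono_right h2))

theorem T2a_sq_dvd {M n : ℕ} (hM : Squarefree M) (h : ∀ t, t.Prime → t ∣ M → t ∣ n) : M ∣ n := by
  rw [← Nat.prod_primeFactors_of_squarefree hM]
  refine Finset.prod_primes_dvd n (fun a ha => (Nat.prime_of_mem_primeFactors ha).prime)
    (fun a ha => ?_)
  exact h a (Nat.prime_of_mem_primeFactors ha) (Nat.dvd_of_mem_primeFactors ha)

/-- A short vector parallel to `x` yields a new prime factor. -/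
theorem T2a_prime {M M' U : ℕ} {q0 p0 q1 p1 lam κ : ℤ}
    (hM : 0 < M) (hsq : Squarefree M') (hbig : ∀ t, t.Prime → t ∣ M' → 3 < t)
    (hq0 : q0 ≠ 0) (hp0 : p0 ≠ 0) (hlam : lam ≠ 0)
    (hq1 : q1 = lam * q0) (hp1 : p1 = lam * p0)
    (hlong : M < br q0 p0 * U) (hshort : br q1 p1 * U ≤ M')
    (hd : (M' : ℤ) ∣ p1 + q1 * κ) :
    ∃ t, t.Prime ∧ t ∣ M' ∧ ¬ t ∣ M ∧ (t : ℤ) ∣ p0 + q0 * κ := by
  by_contra hcon
  push Not at hcon
  have hX : ∀ t, t.Prime → t ∣ M' → ¬ t ∣ M → t ∣ lam.natAbs := by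
    intro t ht htM' htM
    have h1 := hcon t ht htM' htM
    have h2 : (t : ℤ) ∣ lam * (p0 + q0 * κ) := by
      have : p1 + q1 * κ = lam * (p0 + q0 * κ) := by rw [hq1, hp1]; ring
      rw [← this]
      exact (Int.natCast_dvd_natCast.mpr htM').trans hd
    rcases (Nat.prime_iff_prime_int.mp ht).dvd_or_dvd h2 with h3 | h3
    · exact Int.natCast_dvd.mp h3
    · exact absurd h3 h1
  have hlam1 : 0 < lam.natAbs := Int.natAbs_pos.mpr hlam
  have hdvd : M' ∣ lam.natAbs * M := by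
    refine T2a_sq_dvd hsq (fun t ht htM' => ?_)
    by_cases htM : t ∣ M
    · exact htM.mul_left _
    · exact (hX t ht htM' htM).mul_right _
  have hle : M' ≤ lam.natAbs * M := Nat.le_of_dvd (Nat.mul_pos hlam1 hM) hdvd
  have hn1 : q1.natAbs = lam.natAbs * q0.natAbs := by rw [hq1, Int.natAbs_mul]
  have hn2 : p1.natAbs = lam.natAbs * p0.natAbs := by rw [hp1, Int.natAbs_mul]
  by_cases h4 : 4 ≤ lam.natAbs
  · have h5 : q1.natAbs * p1.natAbs < 4 * br q1 p1 := T2a_lt_br q1 p1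
    have h6 : br q0 p0 ≤ q0.natAbs * p0.natAbs := T2a_br_le hq0 hp0
    have h7 : lam.natAbs * br q0 p0 ≤ br q1 p1 := by
      have : 4 * (lam.natAbs * br q0 p0) ≤ q1.natAbs * p1.natAbs := by
        rw [hn1, hn2]
        calc 4 * (lam.natAbs * br q0 p0) ≤ lam.natAbs * (lam.natAbs * (q0.natAbs * p0.natAbs)) :=
              Nat.mul_le_mul h4 (Nat.mul_le_mul_left _ h6)
          _ = _ := by ring
      omega
    have h8 : lam.natAbs * M < M' := by
      calc lam.natAbs * M < lam.natAbs * (br q0 p0 * U) := Nat.mul_lt_mul_of_pos_left hlong hlam1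
        _ = (lam.natAbs * br q0 p0) * U := by ring
        _ ≤ br q1 p1 * U := Nat.mul_le_mul_right _ h7
        _ ≤ M' := hshort
    omega
  · have hdvd' : M' ∣ M := by
      refine T2a_sq_dvd hsq (fun t ht htM' => ?_)
      by_contra htM
      have h5 := Nat.le_of_dvd hlam1 (hX t ht htM' htM)
      have h6 := hbig t ht htM'
      omega
    have h5 : M' ≤ M := Nat.le_of_dvd hM hdvd'
    have h6 : br q0 p0 ≤ br q1 p1 := by
      apply T2a_br_mono
      · rw [hn1]; exact Nat.le_mul_of_pos_left _ hlam1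
      · rw [hn2]; exact Nat.le_mul_of_pos_left _ hlam1
    have h7 := Nat.mul_le_mul_right U h6
    omega

theorem T2a_mem {x : ℤ × ℤ} (hx : x ∈ T2 m M) :
    x.1 ≠ 0 ∧ x.2 ≠ 0 ∧ Int.gcd x.1 M = 1 ∧ Int.gcd x.2 M = 1 ∧
      M < br (x.1 / (Int.gcd x.1 x.2 : ℤ)) (x.2 / (Int.gcd x.1 x.2 : ℤ)) * m ^ 28 := by
  unfold T2 at hx
  rw [mem_filter, mem_product] at hx
  obtain ⟨⟨h1, h2⟩, ⟨h3, h4⟩, h5⟩ := hx
  unfold SR at h1 h2
  rw [mem_filter] at h1 h2
  exact ⟨h1.2.1, h2.2.1, h3, h4, h5⟩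

theorem T2a_key (h : Par m r l) [NeZero (Mk l r)] (hM : IsMM l r M) {x : ℤ × ℤ}
    (hx : x ∈ T2 m M) {κ : (ZMod (Mk l r))ˣ} (hκ : κ ∈ ULA m r l M x) :
    ∃ t ∈ (Mk l r).primeFactors.filter (fun t => ¬ t ∣ M), κ ∈ UL (Mk l r) (M * t)
      (x.1 / (Int.gcd x.1 x.2 : ℤ), x.2 / (Int.gcd x.1 x.2 : ℤ)) := by
  classical
  obtain ⟨hq, hp, hqM, hpM, hlong⟩ := T2a_mem hx
  have hm := h.hm
  have hBM : Bm m M := h.bmM hM
  have hMpos : 0 < M := hBM.pos
  unfold ULA at hκ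
  rw [mem_filter] at hκ
  obtain ⟨hκ1, M', q1, p1, hM', ⟨hq1, hp1, hd1, hs1⟩, hpar⟩ := hκ
  unfold UL at hκ1
  rw [mem_filter] at hκ1
  have hκM := hκ1.2
  have hg : (Int.gcd x.1 x.2 : ℤ) ≠ 0 := by
    intro h0
    rw [Int.natCast_eq_zero, Int.gcd_eq_zero_iff] at h0
    exact hq h0.1
  set g : ℤ := (Int.gcd x.1 x.2 : ℤ) with hgdef
  set q0 := x.1 / g with hq0def
  set p0 := x.2 / g with hp0def
  have e1 : x.1 = g * q0 := (Int.mul_ediv_cancel' (Int.gcd_dvd_left _ _)).symm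
  have e2 : x.2 = g * p0 := (Int.mul_ediv_cancel' (Int.gcd_dvd_right _ _)).symm
  have hq0 : q0 ≠ 0 := by rintro h0; rw [h0, mul_zero] at e1; exact hq e1
  have hp0 : p0 ≠ 0 := by rintro h0; rw [h0, mul_zero] at e2; exact hp e2
  have hcop : IsCoprime q0 p0 := by
    rw [Int.isCoprime_iff_gcd_eq_one]
    have hgpos : 0 < Int.gcd x.1 x.2 := Int.gcd_pos_of_ne_zero_left _ hq
    exact Int.gcd_ediv_gcd_ediv_gcd hgpos
  have hpar' : q0 * p1 = q1 * p0 := by
    rw [e1, e2] at hpar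
    have : g * (q0 * p1) = g * (q1 * p0) := by linear_combination hpar
    exact mul_left_cancel₀ hg this
  obtain ⟨lam, hlam⟩ : q0 ∣ q1 := hcop.dvd_of_dvd_mul_right ⟨p1, hpar'.symm⟩
  have hq1' : q1 = lam * q0 := by rw [hlam]; ring
  have hp1' : p1 = lam * p0 := by
    have : q0 * p1 = q0 * (lam * p0) := by rw [hpar', hlam]; ring
    exact mul_left_cancel₀ hq0 this
  have hlam0 : lam ≠ 0 := by rintro rfl; rw [zero_mul] at hq1'; exact hq1 hq1'
  have hBM' : Bm m M' := h.bmM hM'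
  have hm16 : 3 < m ^ 16 := by
    calc 3 < m := by omega
      _ ≤ m ^ 16 := Nat.le_self_pow (by norm_num) m
  obtain ⟨t, ht, htM', htM, htd⟩ := T2a_prime (M := M) (M' := M') (U := m ^ 28)
    (q0 := q0) (p0 := p0) (q1 := q1) (p1 := p1) (lam := lam) (κ := uv κ) hMpos
    hBM'.sq (fun t ht htM => hm16.trans (hBM'.lo t ht htM)) hq0 hp0 hlam0 hq1' hp1' hlong hs1 hd1
  refine ⟨t, ?_, ?_⟩
  · rw [mem_filter, Nat.mem_primeFactors]
    exact ⟨⟨ht, htM'.trans (h.dvd hM'), h.pos.ne'⟩, htM⟩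
  · unfold UL
    rw [mem_filter]
    refine ⟨mem_univ _, ?_⟩
    have hX : (M : ℤ) ∣ p0 + q0 * uv κ := by
      have h1 : (M : ℤ) ∣ g * (p0 + q0 * uv κ) := by
        have : x.2 + x.1 * uv κ = g * (p0 + q0 * uv κ) := by rw [e1, e2]; ring
        rw [← this]; exact hκM
      have h2 : IsCoprime (M : ℤ) g := by
        have h3 : IsCoprime x.1 (M : ℤ) := Int.isCoprime_iff_gcd_eq_one.mpr hqM
        rw [e1] at h3
        exact (IsCoprime.of_mul_left_left h3).symm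
      exact h2.dvd_of_dvd_mul_left h1
    have hcopt : IsCoprime (M : ℤ) (t : ℤ) := by
      rw [Nat.isCoprime_iff_coprime]
      exact ((Nat.Prime.coprime_iff_not_dvd ht).mpr htM).symm
    have := hcopt.mul_dvd hX htd
    push_cast
    exact this

theorem T2a_cnt (h : Par m r l) [NeZero (Mk l r)] (hM : IsMM l r M) {x : ℤ × ℤ}
    (hx : x ∈ T2 m M) {t : ℕ} (ht : t ∈ (Mk l r).primeFactors.filter (fun t => ¬ t ∣ M)) :
    Nat.totient M * m ^ 16 * (UL (Mk l r) (M * t)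
      (x.1 / (Int.gcd x.1 x.2 : ℤ), x.2 / (Int.gcd x.1 x.2 : ℤ))).card ≤
      Nat.totient (Mk l r) := by
  obtain ⟨hq, hp, hqM, hpM, hlong⟩ := T2a_mem hx
  have hm := h.hm
  rw [mem_filter, Nat.mem_primeFactors] at ht
  obtain ⟨⟨htp, htb, -⟩, htM⟩ := ht
  have hg : (Int.gcd x.1 x.2 : ℤ) ≠ 0 := by
    intro h0
    rw [Int.natCast_eq_zero, Int.gcd_eq_zero_iff] at h0
    exact hq h0.1
  set g : ℤ := (Int.gcd x.1 x.2 : ℤ) with hgdef
  set q0 := x.1 / g with hq0def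
  set p0 := x.2 / g with hp0def
  have e1 : x.1 = g * q0 := (Int.mul_ediv_cancel' (Int.gcd_dvd_left _ _)).symm
  have hcop : IsCoprime q0 p0 := by
    rw [Int.isCoprime_iff_gcd_eq_one]
    have hgpos : 0 < Int.gcd x.1 x.2 := Int.gcd_pos_of_ne_zero_left _ hq
    exact Int.gcd_ediv_gcd_ediv_gcd hgpos
  have hcopM : Nat.Coprime M t := ((Nat.Prime.coprime_iff_not_dvd htp).mpr htM).symm
  have hMt : M * t ∣ Mk l r := hcopM.mul_dvd_of_dvd_of_dvd (h.dvd hM) htb
  have hlo : m ^ 16 < t := h.bm.lo t htp htb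
  by_cases htq : (t : ℤ) ∣ q0
  · have hempty : UL (Mk l r) (M * t) (q0, p0) = ∅ := by
      rw [Finset.eq_empty_iff_forall_notMem]
      intro κ hκ
      unfold UL at hκ
      rw [mem_filter] at hκ
      have h1 : (t : ℤ) ∣ p0 + q0 * uv κ := by
        refine dvd_trans ?_ hκ.2
        push_cast
        exact Dvd.intro_left _ rfl
      have h2 : (t : ℤ) ∣ p0 := (Int.dvd_add_left (htq.mul_right _)).mp h1
      have h3 := hcop.isUnit_of_dvd' htq h2
      have h4 := (Nat.prime_iff_prime_int.mp htp).not_isUnit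
      exact h4 h3
    rw [hempty, card_empty, mul_zero]
    exact Nat.zero_le _
  · have hgcd : Int.gcd q0 ((M * t : ℕ) : ℤ) = 1 := by
      rw [← Int.isCoprime_iff_gcd_eq_one]
      push_cast
      refine IsCoprime.mul_right ?_ ?_
      · have h3 : IsCoprime x.1 (M : ℤ) := Int.isCoprime_iff_gcd_eq_one.mpr hqM
        rw [e1] at h3
        exact IsCoprime.of_mul_left_right h3
      · exact ((Nat.prime_iff_prime_int.mp htp).coprime_iff_not_dvd.mpr htq).symm
    have h1 := cnt_le (Mk l r) hMt (q0, p0) hgcd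
    refine le_trans ?_ h1
    refine Nat.mul_le_mul_right _ ?_
    rw [Nat.totient_mul hcopM, Nat.totient_prime htp]
    exact Nat.mul_le_mul_left _ (by omega)

theorem T2a (h : Par m r l) [NeZero (Mk l r)] (hM : IsMM l r M) :
    ∑ x ∈ T2 m M, aw M x * ((ULA m r l M x).card : ℝ) ≤ (Nat.totient (Mk l r) : ℝ) := by
  classical
  have hm := h.hm
  have hBM : Bm m M := h.bmM hM
  have hMpos : 0 < M := hBM.pos
  have htot : 0 < Nat.totient M := Nat.totient_pos.mpr hMpos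
  set F : ℝ := (Nat.totient (Mk l r) : ℝ) with hF
  have hF0 : 0 ≤ F := by positivity
  have hcard : ∀ x ∈ T2 m M, ((ULA m r l M x).card : ℝ) ≤
      m * (F / ((Nat.totient M : ℝ) * (m : ℝ) ^ 16)) := by
    intro x hx
    have hpos : (0 : ℝ) < (Nat.totient M : ℝ) * (m : ℝ) ^ 16 := by positivity
    have h1 : (ULA m r l M x).card ≤ ∑ t ∈ (Mk l r).primeFactors.filter (fun t => ¬ t ∣ M),
        (UL (Mk l r) (M * t)
          (x.1 / (Int.gcd x.1 x.2 : ℤ), x.2 / (Int.gcd x.1 x.2 : ℤ))).card := by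
      refine le_trans (card_le_card ?_) card_biUnion_le
      intro κ hκ
      rw [mem_biUnion]
      exact T2a_key h hM hx hκ
    have h2 : ((∑ t ∈ (Mk l r).primeFactors.filter (fun t => ¬ t ∣ M),
        (UL (Mk l r) (M * t)
          (x.1 / (Int.gcd x.1 x.2 : ℤ), x.2 / (Int.gcd x.1 x.2 : ℤ))).card : ℕ) : ℝ) ≤
        ∑ t ∈ (Mk l r).primeFactors.filter (fun t => ¬ t ∣ M),
          F / ((Nat.totient M : ℝ) * (m : ℝ) ^ 16) := by
      push_cast
      refine sum_le_sum (fun t ht => ?_)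
      rw [le_div_iff₀ hpos]
      have h3 := T2a_cnt h hM hx ht
      have h4 : ((Nat.totient M * m ^ 16 * (UL (Mk l r) (M * t)
        (x.1 / (Int.gcd x.1 x.2 : ℤ), x.2 / (Int.gcd x.1 x.2 : ℤ))).card : ℕ) : ℝ) ≤ F := by
        rw [hF]; exact_mod_cast h3
      push_cast at h4
      linarith
    have h5 : ((Mk l r).primeFactors.filter (fun t => ¬ t ∣ M)).card ≤ m :=
      (card_filter_le _ _).trans h.bm.om
    calc ((ULA m r l M x).card : ℝ) ≤ _ := by exact_mod_cast h1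
      _ ≤ _ := h2
      _ = (((Mk l r).primeFactors.filter (fun t => ¬ t ∣ M)).card : ℝ) *
            (F / ((Nat.totient M : ℝ) * (m : ℝ) ^ 16)) := by
          rw [sum_const, nsmul_eq_mul]
      _ ≤ _ := by
          refine mul_le_mul_of_nonneg_right (by exact_mod_cast h5) (by positivity)
  have haw : ∀ x, 0 ≤ aw M x := by
    intro x
    unfold aw
    positivity
  have hsub : T2 m M ⊆ SR M ×ˢ SR M := filter_subset _ _
  have hhar := har1' (m := m) (M := M) (by omega) hBM.le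
  have hhalf : (M : ℝ) ≤ 2 * (Nat.totient M : ℝ) := by exact_mod_cast hBM.half
  have htot' : (0 : ℝ) < (Nat.totient M : ℝ) := by exact_mod_cast htot
  have hmR : (1000 : ℝ) ≤ m := by exact_mod_cast hm
  have hm0 : (0 : ℝ) < m := by linarith
  calc ∑ x ∈ T2 m M, aw M x * ((ULA m r l M x).card : ℝ)
      ≤ ∑ x ∈ T2 m M, aw M x * (m * (F / ((Nat.totient M : ℝ) * (m : ℝ) ^ 16))) :=
        sum_le_sum (fun x hx => mul_le_mul_of_nonneg_left (hcard x hx) (haw x))
    _ = (∑ x ∈ T2 m M, aw M x) * (m * (F / ((Nat.totient M : ℝ) * (m : ℝ) ^ 16))) := by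
        rw [sum_mul]
    _ ≤ (16 * (m : ℝ) ^ 2 * M) * (m * (F / ((Nat.totient M : ℝ) * (m : ℝ) ^ 16))) := by
        refine mul_le_mul_of_nonneg_right ?_ (by positivity)
        exact (sum_le_sum_of_subset_of_nonneg hsub (fun x _ _ => haw x)).trans hhar
    _ ≤ (16 * (m : ℝ) ^ 2 * (2 * (Nat.totient M : ℝ))) *
          (m * (F / ((Nat.totient M : ℝ) * (m : ℝ) ^ 16))) := by
        refine mul_le_mul_of_nonneg_right ?_ (by positivity)
        exact mul_le_mul_of_nonneg_left hhalf (by positivity)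
    _ = (32 / (m : ℝ) ^ 13) * F := by
        field_simp
        ring
    _ ≤ 1 * F := by
        refine mul_le_mul_of_nonneg_right ?_ hF0
        rw [div_le_one (by positivity)]
        calc (32 : ℝ) ≤ m := by linarith
          _ ≤ (m : ℝ) ^ 13 := le_self_pow₀ (by linarith) (by norm_num)
    _ = F := one_mul F

end DiscPS
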