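import Pool.Agent.Work.DiscPS.Har
import Pool.Agent.Work.DiscPS.Lem3

/-!
# Long vectors, non-parallel witnesses
-/

namespace DiscPS

open Finset

variable {m r M : ℕ} {l : ℕ → ℕ}

theorem T2c_dy {x : ℤ} (hx : x ≠ 0) : x ∈ dy (Nat.log 2 x.natAbs) := by
  have h1 : 2 ^ Nat.log 2 x.natAbs ≤ x.natAbs := Nat.pow_log_le_self 2 (Int.natAbs_ne_zero.2 hx)
  have h2 : x.natAbs < 2 ^ (Nat.log 2 x.natAbs + 1) := Nat.lt_pow_succ_log_self (by norm_num) _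
  rw [mem_dy, Int.abs_eq_natAbs]
  exact ⟨by exact_mod_cast h1, by exact_mod_cast h2⟩

theorem T2c_brp_le (q p : ℤ) : brp q p ≤ br q p := by
  unfold brp br
  have h : ∀ a b : ℤ, 2 ^ Nat.log 2 (a / b).natAbs ≤ 2 ^ Nat.log 2 a.natAbs := fun a b =>
    Nat.pow_le_pow_right (by norm_num) (Nat.log_mono_right (Int.natAbs_ediv_le_natAbs a b))
  exact Nat.mul_le_mul (h _ _) (h _ _)

theorem T2c_coprime {x : ℤ} {D M : ℕ} (h : Int.gcd x M = 1) (hD : D ∣ M) :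
    IsCoprime x (D : ℤ) := by
  have h1 : IsCoprime x (M : ℤ) := Int.isCoprime_iff_gcd_eq_one.2 h
  exact h1.of_isCoprime_of_dvd_right (Int.natCast_dvd_natCast.2 hD)

theorem T2c_log_le {x : ℤ} {M m : ℕ} (hx : x ∈ SR M) (hM : M ≤ 2 ^ m) :
    Nat.log 2 x.natAbs ≤ m := by
  rw [SR, mem_filter] at hx
  have h1 : x.natAbs ≤ 2 ^ m := by omega
  calc Nat.log 2 x.natAbs ≤ Nat.log 2 (2 ^ m) := Nat.log_mono_right h1
    _ = m := Nat.log_pow (by norm_num) m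

theorem T2c_ne {x : ℤ} {M : ℕ} (hx : x ∈ SR M) : x ≠ 0 := by
  rw [SR, mem_filter] at hx
  exact hx.2.1

/-- the number of multipliers with two given vectors -/
theorem T2c_pair (h : Par m r l) [NeZero (Mk l r)] (hM : IsMM l r M) {M' : ℕ}
    (hM' : IsMM l r M') (x y : ℤ × ℤ) (h1 : Int.gcd x.1 M = 1) (h2 : Int.gcd y.1 M' = 1) :
    ((UL (Mk l r) M x ∩ UL (Mk l r) M' y).card : ℝ) ≤
      2 * (Nat.totient (Mk l r) : ℝ) * (Nat.gcd M M' : ℝ) / ((M : ℝ) * M') := by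
  have hc := cnt_pair (Mk l r) (h.dvd hM) (h.dvd hM') x y h1 h2
  have hlcm : Bm m (Nat.lcm M M') := h.bm.dvd (Nat.lcm_dvd (h.dvd hM) (h.dvd hM'))
  have hhalf := hlcm.half
  have hM0 : 0 < M := (h.bmM hM).pos
  have hM0' : 0 < M' := (h.bmM hM').pos
  have hg := Nat.gcd_mul_lcm M M'
  rw [le_div_iff₀ (by positivity)]
  set c := (UL (Mk l r) M x ∩ UL (Mk l r) M' y).card with hcdef
  have h3 : c * (M * M') ≤ 2 * Nat.totient (Mk l r) * Nat.gcd M M' := by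
    rw [← hg]
    calc c * (Nat.gcd M M' * Nat.lcm M M') ≤
        c * (Nat.gcd M M' * (2 * Nat.totient (Nat.lcm M M'))) := by gcongr
      _ = 2 * (Nat.totient (Nat.lcm M M') * c) * Nat.gcd M M' := by ring
      _ ≤ 2 * Nat.totient (Mk l r) * Nat.gcd M M' := by gcongr
  exact_mod_cast h3

/-- the index set of the union bound -/
noncomputable def T2cI (m r : ℕ) (l : ℕ → ℕ) : Finset (ℕ × ℕ × ℕ) :=
  (MMs l r ×ˢ (range (m + 1) ×ˢ range (m + 1))).filter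
    (fun t => 2 ^ (t.2.1 + t.2.2) * m ^ 28 ≤ t.1)

/-- the vectors of one box -/
noncomputable def T2cV (M : ℕ) (t : ℕ × ℕ × ℕ) (x : ℤ × ℤ) : Finset (ℤ × ℤ) :=
  (vb t.1 t.2.1 t.2.2).filter (fun v => dt x v ≠ 0 ∧ ((Nat.gcd M t.1 : ℕ) : ℤ) ∣ dt x v)

theorem T2c_card (h : Par m r l) [NeZero (Mk l r)] (hM : IsMM l r M) {x : ℤ × ℤ}
    (hx : Int.gcd x.1 M = 1) :
    ((ULC m r l M x).card : ℝ) ≤ ∑ t ∈ T2cI m r l, ((T2cV M t x).card : ℝ) *
      (2 * (Nat.totient (Mk l r) : ℝ) * (Nat.gcd M t.1 : ℝ) / ((M : ℝ) * t.1)) := by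
  classical
  have hsub : ULC m r l M x ⊆ (T2cI m r l).biUnion fun t => (T2cV M t x).biUnion fun v =>
      UL (Mk l r) M x ∩ UL (Mk l r) t.1 v := by
    intro κ hκ
    rw [ULC, mem_filter] at hκ
    obtain ⟨hκ1, M', q, p, hM', ⟨hq, hp, hd, hb⟩, hg, hdt⟩ := hκ
    have hbM' := h.bmM hM'
    have hUL : κ ∈ UL (Mk l r) M' (q, p) := mem_filter.2 ⟨mem_univ _, hd⟩
    have hgp : Int.gcd p M' = 1 := by
      have := UL_gcd (Mk l r) (h.dvd hM') (q, p) hUL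
      rw [← this]
      exact hg
    have hm28 : 1 ≤ m ^ 28 := Nat.one_le_pow _ _ (by have := h.hm; omega)
    have hbr : br q p = 2 ^ (Nat.log 2 q.natAbs + Nat.log 2 p.natAbs) := by
      rw [br, pow_add]
    have hlog : Nat.log 2 q.natAbs + Nat.log 2 p.natAbs ≤ m := by
      have h1 : 2 ^ (Nat.log 2 q.natAbs + Nat.log 2 p.natAbs) ≤ 2 ^ m := by
        rw [← hbr]
        calc br q p ≤ br q p * m ^ 28 := Nat.le_mul_of_pos_right _ hm28
          _ ≤ M' := hb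
          _ ≤ 2 ^ m := hbM'.le
      exact (Nat.pow_le_pow_iff_right (by norm_num)).1 h1
    rw [mem_biUnion]
    refine ⟨(M', Nat.log 2 q.natAbs, Nat.log 2 p.natAbs), ?_, ?_⟩
    · rw [T2cI, mem_filter, mem_product, mem_product, mem_range, mem_range]
      refine ⟨⟨(h.mem_MMs).2 hM', ?_, ?_⟩, ?_⟩
      · simp only
        omega
      · simp only
        omega
      · rw [← hbr]
        exact hb
    · rw [mem_biUnion]
      refine ⟨(q, p), ?_, mem_inter.2 ⟨hκ1, hUL⟩⟩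
      rw [T2cV, mem_filter, mem_vb]
      refine ⟨⟨⟨T2c_dy hq, T2c_dy hp⟩, T2c_coprime hg dvd_rfl, T2c_coprime hgp dvd_rfl⟩, ?_, ?_⟩
      · rw [dt]
        exact sub_ne_zero.2 hdt
      · exact cnt_pair_dvd (Mk l r) x (q, p) (mem_inter.2 ⟨hκ1, hUL⟩)
  have h1 : ((ULC m r l M x).card : ℝ) ≤ ∑ t ∈ T2cI m r l, ∑ v ∈ T2cV M t x,
      ((UL (Mk l r) M x ∩ UL (Mk l r) t.1 v).card : ℝ) := by
    have h2 : (ULC m r l M x).card ≤ ∑ t ∈ T2cI m r l, ∑ v ∈ T2cV M t x,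
        (UL (Mk l r) M x ∩ UL (Mk l r) t.1 v).card :=
      (card_le_card hsub).trans (card_biUnion_le.trans (sum_le_sum fun t _ => card_biUnion_le))
    exact_mod_cast h2
  refine h1.trans (sum_le_sum fun t ht => ?_)
  rw [T2cI, mem_filter, mem_product] at ht
  have hM' : IsMM l r t.1 := (h.mem_MMs).1 ht.1.1
  rw [← nsmul_eq_mul]
  refine sum_le_card_nsmul _ _ _ fun v hv => ?_
  rw [T2cV, mem_filter, mem_vb] at hv
  exact T2c_pair h hM hM' x v hx (Int.isCoprime_iff_gcd_eq_one.1 hv.1.2.1)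

theorem T2c_prod {α : Type*} (S V : Finset α) (P : α → α → Prop) [∀ x y, Decidable (P x y)] :
    ∑ x ∈ S, (V.filter (P x)).card = ((S ×ˢ V).filter (fun p => P p.1 p.2)).card := by
  rw [card_filter, sum_product]
  simp only [card_filter]

/-- one box -/
theorem T2c_box (h : Par m r l) (hg : Gen m r l) [NeZero (Mk l r)] (hM : IsMM l r M)
    {t : ℕ × ℕ × ℕ} (ht : t ∈ T2cI m r l) {i j : ℕ} (hi : i ≤ m) (hj : j ≤ m) :
    ∑ x ∈ (T2 m M).filter (fun x => (Nat.log 2 x.1.natAbs, Nat.log 2 x.2.natAbs) = (i, j)),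
      aw M x * (((T2cV M t x).card : ℝ) *
      (2 * (Nat.totient (Mk l r) : ℝ) * (Nat.gcd M t.1 : ℝ) / ((M : ℝ) * t.1))) ≤
        2 * 10 ^ 5 * (Nat.totient (Mk l r) : ℝ) / (m : ℝ) ^ 5 := by
  obtain ⟨M', i1, j1⟩ := t
  rw [T2cI, mem_filter, mem_product, mem_product, mem_range, mem_range] at ht
  obtain ⟨⟨hM'1, hi1, hj1⟩, hb⟩ := ht
  simp only at hM'1 hi1 hj1 hb ⊢
  have hM' : IsMM l r M' := (h.mem_MMs).1 hM'1
  set S := (T2 m M).filter (fun x => (Nat.log 2 x.1.natAbs, Nat.log 2 x.2.natAbs) = (i, j)) with hS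
  have hm : 1000 ≤ m := h.hm
  have hm0 : (0 : ℝ) < m := by
    have : 0 < m := by omega
    exact_mod_cast this
  rcases S.eq_empty_or_nonempty with hSe | ⟨x0, hx0⟩
  · rw [hSe, sum_empty]
    positivity
  have hM0 : 0 < M := (h.bmM hM).pos
  have hM0' : 0 < M' := (h.bmM hM').pos
  have hMr : (0 : ℝ) < M := by exact_mod_cast hM0
  have hMr' : (0 : ℝ) < M' := by exact_mod_cast hM0'
  set D := Nat.gcd M M' with hD
  have hDM : D ∣ M := Nat.gcd_dvd_left _ _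
  have hDM' : D ∣ M' := Nat.gcd_dvd_right _ _
  -- the long vector
  have hlong : (M : ℝ) ≤ (m : ℝ) ^ 28 * 2 ^ (i + j) := by
    rw [hS, mem_filter, T2, mem_filter] at hx0
    obtain ⟨⟨_, _, h2⟩, h3⟩ := hx0
    rw [Prod.mk.injEq] at h3
    have h4 := T2c_brp_le x0.1 x0.2
    have h5 : br x0.1 x0.2 = 2 ^ (i + j) := by rw [br, h3.1, h3.2, pow_add]
    rw [h5] at h4
    have h6 : M ≤ m ^ 28 * 2 ^ (i + j) := by
      calc M ≤ brp x0.1 x0.2 * m ^ 28 := h2.le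
        _ ≤ 2 ^ (i + j) * m ^ 28 := Nat.mul_le_mul_right _ h4
        _ = _ := mul_comm _ _
    exact_mod_cast h6
  -- the sum of the weights
  have haw : ∀ x ∈ S, aw M x ≤ M / 2 ^ (i + j) := by
    intro x hx
    rw [hS, mem_filter, T2, mem_filter, mem_product] at hx
    obtain ⟨⟨⟨hx1, hx2⟩, _, _⟩, h3⟩ := hx
    rw [Prod.mk.injEq] at h3
    have h4 := (mem_dy.1 (T2c_dy (T2c_ne hx1))).1
    have h5 := (mem_dy.1 (T2c_dy (T2c_ne hx2))).1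
    rw [h3.1] at h4
    rw [h3.2] at h5
    have h4' : (2 : ℝ) ^ i ≤ |(x.1 : ℝ)| := by exact_mod_cast h4
    have h5' : (2 : ℝ) ^ j ≤ |(x.2 : ℝ)| := by exact_mod_cast h5
    rw [aw, pow_add]
    gcongr
  have hcard : ∑ x ∈ S, (T2cV M (M', i1, j1) x).card ≤ Nst D i j i1 j1 := by
    unfold T2cV
    rw [T2c_prod]
    refine card_le_card fun p hp => ?_
    rw [mem_filter, mem_product, hS, mem_filter, T2, mem_filter, mem_product, mem_vb] at hp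
    obtain ⟨⟨⟨⟨⟨hx1, hx2⟩, ⟨hc1, hc2⟩, _⟩, h3⟩, hv1, hv2, hv3⟩, hdt1, hdt2⟩ := hp
    rw [Prod.mk.injEq] at h3
    rw [mem_filter, mem_product, mem_vb, mem_vb]
    refine ⟨⟨⟨⟨?_, ?_⟩, T2c_coprime hc1 hDM, T2c_coprime hc2 hDM⟩, hv1,
      ?_, ?_⟩, hdt1, hdt2⟩
    · rw [← h3.1]
      exact T2c_dy (T2c_ne hx1)
    · rw [← h3.2]
      exact T2c_dy (T2c_ne hx2)
    · exact hv2.of_isCoprime_of_dvd_right (Int.natCast_dvd_natCast.2 hDM')
    · exact hv3.of_isCoprime_of_dvd_right (Int.natCast_dvd_natCast.2 hDM')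
  -- Lemma 3
  obtain ⟨a, k, hak, hkr, hDe⟩ := h.gcd_MM hM hM'
  have hA : (m : ℝ) ^ 28 ≤ M' / 2 ^ (i1 + j1) := by
    rw [le_div_iff₀ (by positivity), mul_comm]
    exact_mod_cast hb
  set A : ℝ := M' / 2 ^ (i1 + j1) with hAdef
  have hm28 : (1 : ℝ) ≤ (m : ℝ) ^ 28 := one_le_pow₀ (by
    have : (1000 : ℝ) ≤ m := by exact_mod_cast hm
    linarith)
  have hDle : (D : ℝ) ≤ M := by exact_mod_cast Nat.le_of_dvd hM0 hDM
  have hDle' : (D : ℝ) ≤ M' := by exact_mod_cast Nat.le_of_dvd hM0' hDM'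
  have hA' : (M' : ℝ) = A * 2 ^ (i1 + j1) := by
    rw [hAdef]
    field_simp
  have h3 := lem3 h hg hak hkr hi hj (Nat.lt_succ_iff.1 hi1) (Nat.lt_succ_iff.1 hj1)
    (T := A) (Z := A / (m : ℝ) ^ 14) (hm28.trans hA) (by positivity) (by
      rw [div_pow, ← pow_mul, le_div_iff₀ (by positivity), pow_two]
      exact mul_le_mul_of_nonneg_left hA (by positivity))
    (by
      rw [← hDe]
      exact hDle.trans (hlong.trans (by gcongr)))
    (by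
      rw [← hDe, ← hA']
      exact hDle')
  rw [← hDe] at h3
  have hcardr : ∑ x ∈ S, ((T2cV M (M', i1, j1) x).card : ℝ) ≤ (Nst D i j i1 j1 : ℝ) := by
    exact_mod_cast hcard
  have hc0 : 0 ≤ 2 * (Nat.totient (Mk l r) : ℝ) * (D : ℝ) / ((M : ℝ) * M') :=
    div_nonneg (mul_nonneg (mul_nonneg (by norm_num) (Nat.cast_nonneg _)) (Nat.cast_nonneg _))
      (mul_pos hMr hMr').le
  have alg : ∀ n f d : ℝ, (M : ℝ) / 2 ^ (i + j) * (n * (2 * f * d / ((M : ℝ) * M'))) =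
      n * (2 * f * d / (M' * 2 ^ (i + j))) := by
    intro n f d
    field_simp
  calc ∑ x ∈ S, aw M x * (((T2cV M (M', i1, j1) x).card : ℝ) *
      (2 * (Nat.totient (Mk l r) : ℝ) * (D : ℝ) / ((M : ℝ) * M')))
      ≤ ∑ x ∈ S, (M / 2 ^ (i + j)) * (((T2cV M (M', i1, j1) x).card : ℝ) *
      (2 * (Nat.totient (Mk l r) : ℝ) * (D : ℝ) / ((M : ℝ) * M'))) := by
        refine sum_le_sum fun x hx => ?_
        exact mul_le_mul_of_nonneg_right (haw x hx) (mul_nonneg (Nat.cast_nonneg _) hc0)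
    _ = (∑ x ∈ S, ((T2cV M (M', i1, j1) x).card : ℝ)) *
        (2 * (Nat.totient (Mk l r) : ℝ) * (D : ℝ) / (M' * 2 ^ (i + j))) := by
        rw [sum_mul]
        exact sum_congr rfl fun x _ => alg _ _ _
    _ ≤ (Nst D i j i1 j1 : ℝ) *
        (2 * (Nat.totient (Mk l r) : ℝ) * (D : ℝ) / (M' * 2 ^ (i + j))) := by gcongr
    _ = (2 * (Nat.totient (Mk l r) : ℝ) / (M' * 2 ^ (i + j))) *
        ((D : ℝ) * (Nst D i j i1 j1 : ℝ)) := by ring
    _ ≤ (2 * (Nat.totient (Mk l r) : ℝ) / (M' * 2 ^ (i + j))) *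
        (10 ^ 5 * (m : ℝ) ^ 9 * (A / (m : ℝ) ^ 14) * 2 ^ (i + j) * 2 ^ (i1 + j1)) := by gcongr
    _ = 2 * 10 ^ 5 * (Nat.totient (Mk l r) : ℝ) / (m : ℝ) ^ 5 := by
        rw [hA']
        have hA0 : 0 < A := by positivity
        field_simp

theorem T2c (h : Par m r l) (hg : Gen m r l) [NeZero (Mk l r)] (hM : IsMM l r M) :
    ∑ x ∈ T2 m M, aw M x * ((ULC m r l M x).card : ℝ) ≤ 10 ^ 6 * (Nat.totient (Mk l r) : ℝ) := by
  have hm : 1000 ≤ m := h.hm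
  have hmr : (1000 : ℝ) ≤ m := by exact_mod_cast hm
  have haw0 : ∀ x : ℤ × ℤ, 0 ≤ aw M x := fun x => by
    rw [aw]
    positivity
  set φ : ℝ := (Nat.totient (Mk l r) : ℝ) with hφ
  have hφ0 : 0 ≤ φ := Nat.cast_nonneg _
  have h1 : ∑ x ∈ T2 m M, aw M x * ((ULC m r l M x).card : ℝ) ≤
      ∑ t ∈ T2cI m r l, ∑ x ∈ T2 m M, aw M x * (((T2cV M t x).card : ℝ) *
        (2 * φ * (Nat.gcd M t.1 : ℝ) / ((M : ℝ) * t.1))) := by
    rw [sum_comm]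
    refine sum_le_sum fun x hx => ?_
    rw [← mul_sum]
    refine mul_le_mul_of_nonneg_left ?_ (haw0 x)
    rw [T2, mem_filter] at hx
    exact T2c_card h hM hx.2.1.1
  have h2 : ∀ t ∈ T2cI m r l, ∑ x ∈ T2 m M, aw M x * (((T2cV M t x).card : ℝ) *
        (2 * φ * (Nat.gcd M t.1 : ℝ) / ((M : ℝ) * t.1))) ≤
        ((m : ℝ) + 1) ^ 2 * (2 * 10 ^ 5 * φ / (m : ℝ) ^ 5) := by
    intro t ht
    have hmaps : ∀ x ∈ T2 m M, (Nat.log 2 x.1.natAbs, Nat.log 2 x.2.natAbs) ∈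
        range (m + 1) ×ˢ range (m + 1) := by
      intro x hx
      rw [T2, mem_filter, mem_product] at hx
      rw [mem_product, mem_range, mem_range]
      have hle := (h.bmM hM).le
      exact ⟨Nat.lt_succ_of_le (T2c_log_le hx.1.1 hle), Nat.lt_succ_of_le (T2c_log_le hx.1.2 hle)⟩
    rw [← sum_fiberwise_of_maps_to hmaps]
    calc _ ≤ ∑ ij ∈ range (m + 1) ×ˢ range (m + 1), (2 * 10 ^ 5 * φ / (m : ℝ) ^ 5) := by
          refine sum_le_sum fun ij hij => ?_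
          obtain ⟨i, j⟩ := ij
          rw [mem_product, mem_range, mem_range] at hij
          exact T2c_box h hg hM ht (Nat.lt_succ_iff.1 hij.1) (Nat.lt_succ_iff.1 hij.2)
      _ = ((m : ℝ) + 1) ^ 2 * (2 * 10 ^ 5 * φ / (m : ℝ) ^ 5) := by
          rw [sum_const, card_product, card_range, nsmul_eq_mul]
          push_cast
          ring
  have h3 : ((T2cI m r l).card : ℝ) ≤ (m : ℝ) / 2 * ((m : ℝ) + 1) ^ 2 := by
    have h4 : (T2cI m r l).card ≤ (MMs l r).card * (m + 1) ^ 2 := by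
      refine (card_filter_le _ _).trans ?_
      rw [card_product, card_product, card_range, pow_two]
    have h5 : (((MMs l r).card : ℕ) : ℝ) ≤ (m : ℝ) / 2 := by
      have h6 : ((2 * (MMs l r).card : ℕ) : ℝ) ≤ (m : ℝ) := by exact_mod_cast h.card_MMs
      push_cast at h6
      linarith
    calc ((T2cI m r l).card : ℝ) ≤ (((MMs l r).card * (m + 1) ^ 2 : ℕ) : ℝ) := by exact_mod_cast h4
      _ = ((MMs l r).card : ℝ) * ((m : ℝ) + 1) ^ 2 := by push_cast; ring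
      _ ≤ (m : ℝ) / 2 * ((m : ℝ) + 1) ^ 2 := by gcongr
  have h6 : ((m : ℝ) + 1) ^ 4 ≤ 2 * (m : ℝ) ^ 4 := by
    have h7 : ((m : ℝ) + 1) ^ 2 ≤ (1.01 : ℝ) * (m : ℝ) ^ 2 := by nlinarith
    calc ((m : ℝ) + 1) ^ 4 = (((m : ℝ) + 1) ^ 2) ^ 2 := by ring
      _ ≤ ((1.01 : ℝ) * (m : ℝ) ^ 2) ^ 2 := by gcongr
      _ = 1.0201 * (m : ℝ) ^ 4 := by ring
      _ ≤ 2 * (m : ℝ) ^ 4 := by
          have : 0 ≤ (m : ℝ) ^ 4 := by positivity
          linarith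
  calc _ ≤ _ := h1
    _ ≤ ∑ t ∈ T2cI m r l, ((m : ℝ) + 1) ^ 2 * (2 * 10 ^ 5 * φ / (m : ℝ) ^ 5) := sum_le_sum h2
    _ = ((T2cI m r l).card : ℝ) * (((m : ℝ) + 1) ^ 2 * (2 * 10 ^ 5 * φ / (m : ℝ) ^ 5)) := by
        rw [sum_const, nsmul_eq_mul]
    _ ≤ ((m : ℝ) / 2 * ((m : ℝ) + 1) ^ 2) * (((m : ℝ) + 1) ^ 2 *
        (2 * 10 ^ 5 * φ / (m : ℝ) ^ 5)) := by gcongr
    _ = 10 ^ 5 * φ / (m : ℝ) ^ 4 * ((m : ℝ) + 1) ^ 4 := by
        field_simp
    _ ≤ 10 ^ 5 * φ / (m : ℝ) ^ 4 * (2 * (m : ℝ) ^ 4) := by gcongr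
    _ = 2 * 10 ^ 5 * φ := by field_simp
    _ ≤ 10 ^ 6 * φ := by nlinarith

end DiscPS
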