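import Pool.Agent.Work.DiscPS.Har
import Pool.Agent.Work.DiscPS.GoodC
import Pool.Agent.Work.DiscPS.T2c

/-!
# Long vectors, witnesses not coprime to the modulus
-/

namespace DiscPS

open Finset

variable {m r M : ℕ} {l : ℕ → ℕ}

theorem T2b_inv_sq (n : ℕ) : ∑ i ∈ range n, 1 / ((i : ℝ) + 1) ^ 2 ≤ 2 - 1 / ((n : ℝ) + 1 / 2) := by
  induction n with
  | zero => norm_num
  | succ n ih =>
    rw [sum_range_succ]
    have hn : (0 : ℝ) ≤ n := Nat.cast_nonneg n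
    have h1 : 1 / ((n : ℝ) + 1) ^ 2 ≤ 1 / ((n : ℝ) + 1 / 2) - 1 / ((n : ℝ) + 1 + 1 / 2) := by
      rw [div_sub_div _ _ (by positivity) (by positivity), div_le_div_iff₀ (by positivity)
        (by positivity)]
      nlinarith
    push_cast
    linarith

theorem T2b_sq (M : ℕ) :
    ∑ k ∈ (Ioo (-(M : ℤ)) M).filter (fun k => k ≠ 0), 1 / (k : ℝ) ^ 2 ≤ 4 := by
  classical
  set A := (range M).image (fun n : ℕ => ((n : ℤ) + 1)) with hA
  set B := (range M).image (fun n : ℕ => (-((n : ℤ) + 1))) with hB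
  have hsub : (Ioo (-(M : ℤ)) M).filter (fun k => k ≠ 0) ⊆ A ∪ B := by
    intro k hk
    rw [mem_filter, mem_Ioo] at hk
    rw [mem_union, hA, hB, mem_image, mem_image]
    rcases lt_or_gt_of_ne hk.2 with h | h
    · right
      refine ⟨(-k - 1).toNat, ?_, ?_⟩
      · rw [mem_range]
        omega
      · omega
    · left
      refine ⟨(k - 1).toNat, ?_, ?_⟩
      · rw [mem_range]
        omega
      · omega
  have hdis : Disjoint A B := by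
    rw [disjoint_left]
    intro k hk hk'
    rw [hA, mem_image] at hk
    rw [hB, mem_image] at hk'
    obtain ⟨a, _, ha⟩ := hk
    obtain ⟨b, _, hb⟩ := hk'
    omega
  have hAs : ∑ k ∈ A, 1 / (k : ℝ) ^ 2 = ∑ i ∈ range M, 1 / ((i : ℝ) + 1) ^ 2 := by
    rw [hA, sum_image]
    · refine sum_congr rfl fun i _ => ?_
      push_cast
      rfl
    · intro a _ b _ hab
      simpa using hab
  have hBs : ∑ k ∈ B, 1 / (k : ℝ) ^ 2 = ∑ i ∈ range M, 1 / ((i : ℝ) + 1) ^ 2 := by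
    rw [hB, sum_image]
    · refine sum_congr rfl fun i _ => ?_
      push_cast
      rw [neg_sq]
    · intro a _ b _ hab
      have : -((a : ℤ) + 1) = -((b : ℤ) + 1) := hab
      omega
  have h1 := T2b_inv_sq M
  have h2 : (0 : ℝ) ≤ 1 / ((M : ℝ) + 1 / 2) := by positivity
  calc _ ≤ ∑ k ∈ A ∪ B, 1 / (k : ℝ) ^ 2 :=
        sum_le_sum_of_subset_of_nonneg hsub fun k _ _ => by positivity
    _ = _ := sum_union hdis
    _ ≤ 4 := by
        rw [hAs, hBs]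
        linarith

theorem T2b_inj {α β : Type*} (S : Finset α) (T : Finset β) (f : α → β)
    (hinj : ∀ x ∈ S, ∀ y ∈ S, f x = f y → x = y) (hmap : ∀ x ∈ S, f x ∈ T) (g : β → ℝ)
    (hg : ∀ y ∈ T, 0 ≤ g y) : ∑ x ∈ S, g (f x) ≤ ∑ y ∈ T, g y := by
  classical
  rw [← sum_image (f := g) (g := f) (s := S) (fun x hx y hy hxy => hinj x hx y hy hxy)]
  refine sum_le_sum_of_subset_of_nonneg ?_ fun y hy _ => hg y hy
  intro y hy
  obtain ⟨x, hx, rfl⟩ := mem_image.1 hy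
  exact hmap x hx

theorem T2b_aw_nonneg (M : ℕ) (x : ℤ × ℤ) : 0 ≤ aw M x := by
  rw [aw]
  positivity

/-- the vectors parallel to a given one -/
theorem T2b_par {x : ℤ × ℤ} (hx : x ∈ T2 m M) :
    ∑ y ∈ (T2 m M).filter (fun y => dt x y = 0), aw M y ≤ 4 * (m : ℝ) ^ 28 := by
  rw [T2, mem_filter, mem_product] at hx
  obtain ⟨⟨hx1, hx2⟩, _, hlong⟩ := hx
  have hx10 := T2c_ne hx1
  have hx20 := T2c_ne hx2
  set g : ℤ := (Int.gcd x.1 x.2 : ℤ) with hg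
  set q0 := x.1 / g with hq0
  set p0 := x.2 / g with hp0
  have hg0 : 0 < Int.gcd x.1 x.2 := Int.gcd_pos_of_ne_zero_left _ hx10
  have hgz : g ≠ 0 := by
    rw [hg]
    exact_mod_cast hg0.ne'
  have e1 : g * q0 = x.1 := Int.mul_ediv_cancel' (Int.gcd_dvd_left _ _)
  have e2 : g * p0 = x.2 := Int.mul_ediv_cancel' (Int.gcd_dvd_right _ _)
  have hcop : IsCoprime q0 p0 := Int.isCoprime_iff_gcd_eq_one.2 (Int.gcd_ediv_gcd_ediv_gcd hg0)
  have hq00 : q0 ≠ 0 := by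
    intro h
    rw [h, mul_zero] at e1
    exact hx10 e1.symm
  have hp00 : p0 ≠ 0 := by
    intro h
    rw [h, mul_zero] at e2
    exact hx20 e2.symm
  -- the primitive vector is long
  have hbr : (M : ℝ) ≤ (m : ℝ) ^ 28 * (|(q0 : ℝ)| * |(p0 : ℝ)|) := by
    have h1 : brp x.1 x.2 = 2 ^ Nat.log 2 q0.natAbs * 2 ^ Nat.log 2 p0.natAbs := rfl
    have h2 : (M : ℝ) ≤ (2 ^ Nat.log 2 q0.natAbs * 2 ^ Nat.log 2 p0.natAbs) * (m : ℝ) ^ 28 := by
      rw [h1] at hlong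
      exact_mod_cast hlong.le
    have h3 := (mem_dy.1 (T2c_dy hq00)).1
    have h4 := (mem_dy.1 (T2c_dy hp00)).1
    have h3' : (2 : ℝ) ^ Nat.log 2 q0.natAbs ≤ |(q0 : ℝ)| := by exact_mod_cast h3
    have h4' : (2 : ℝ) ^ Nat.log 2 p0.natAbs ≤ |(p0 : ℝ)| := by exact_mod_cast h4
    calc (M : ℝ) ≤ (2 ^ Nat.log 2 q0.natAbs * 2 ^ Nat.log 2 p0.natAbs) * (m : ℝ) ^ 28 := h2
      _ ≤ (|(q0 : ℝ)| * |(p0 : ℝ)|) * (m : ℝ) ^ 28 := by gcongr
      _ = _ := mul_comm _ _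
  -- parallel vectors are multiples
  have hmul : ∀ y : ℤ × ℤ, dt x y = 0 → y.1 = q0 * (y.1 / q0) ∧ y.2 = p0 * (y.1 / q0) := by
    intro y hy
    rw [dt, sub_eq_zero, ← e1, ← e2] at hy
    have h1 : q0 * y.2 = y.1 * p0 := by
      refine mul_left_cancel₀ hgz ?_
      linarith
    have h2 : q0 ∣ y.1 := hcop.dvd_of_dvd_mul_right ⟨y.2, h1.symm⟩
    have h3 : q0 * (y.1 / q0) = y.1 := Int.mul_ediv_cancel' h2
    refine ⟨h3.symm, mul_left_cancel₀ hq00 ?_⟩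
    rw [h1]
    calc y.1 * p0 = (q0 * (y.1 / q0)) * p0 := by rw [h3]
      _ = _ := by ring
  have hq0r : (0 : ℝ) < |(q0 : ℝ)| := abs_pos.2 (by exact_mod_cast hq00)
  have hp0r : (0 : ℝ) < |(p0 : ℝ)| := abs_pos.2 (by exact_mod_cast hp00)
  calc ∑ y ∈ (T2 m M).filter (fun y => dt x y = 0), aw M y
      ≤ ∑ y ∈ (T2 m M).filter (fun y => dt x y = 0),
        (m : ℝ) ^ 28 * (1 / ((y.1 / q0 : ℤ) : ℝ) ^ 2) := by
        refine sum_le_sum fun y hy => ?_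
        rw [mem_filter, T2, mem_filter, mem_product] at hy
        obtain ⟨h1, h2⟩ := hmul y hy.2
        set k := y.1 / q0 with hk
        have hk0 : k ≠ 0 := by
          intro h
          rw [h, mul_zero] at h1
          exact T2c_ne hy.1.1.1 h1
        have hkr : (0 : ℝ) < |(k : ℝ)| := abs_pos.2 (by exact_mod_cast hk0)
        rw [aw, h1, h2]
        push_cast
        rw [abs_mul, abs_mul, ← sq_abs (k : ℝ), div_le_iff₀ (by positivity)]
        calc (M : ℝ) ≤ (m : ℝ) ^ 28 * (|(q0 : ℝ)| * |(p0 : ℝ)|) := hbr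
          _ = _ := by field_simp
    _ ≤ ∑ k ∈ (Ioo (-(M : ℤ)) M).filter (fun k => k ≠ 0), (m : ℝ) ^ 28 * (1 / (k : ℝ) ^ 2) := by
        refine T2b_inj _ _ (fun y : ℤ × ℤ => y.1 / q0) ?_ ?_
          (fun k : ℤ => (m : ℝ) ^ 28 * (1 / (k : ℝ) ^ 2)) ?_
        · intro y hy z hz hyz
          have hyz' : y.1 / q0 = z.1 / q0 := hyz
          obtain ⟨h1, h2⟩ := hmul y (mem_filter.1 hy).2
          obtain ⟨h3, h4⟩ := hmul z (mem_filter.1 hz).2
          refine Prod.ext ?_ ?_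
          · rw [h1, h3, hyz']
          · rw [h2, h4, hyz']
        · intro y hy
          rw [mem_filter, T2, mem_filter, mem_product] at hy
          obtain ⟨h1, h2⟩ := hmul y hy.2
          have hy1 := hy.1.1.1
          rw [SR, mem_filter, mem_Ioo] at hy1
          have hk0 : y.1 / q0 ≠ 0 := by
            intro h
            rw [h, mul_zero] at h1
            exact hy1.2.1 h1
          have h3 : (y.1 / q0).natAbs ≤ y.1.natAbs := Int.natAbs_ediv_le_natAbs _ _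
          rw [mem_filter, mem_Ioo]
          refine ⟨?_, hk0⟩
          omega
        · intro k _
          positivity
    _ = (m : ℝ) ^ 28 * ∑ k ∈ (Ioo (-(M : ℤ)) M).filter (fun k => k ≠ 0), (1 / (k : ℝ) ^ 2) := by
        rw [mul_sum]
    _ ≤ (m : ℝ) ^ 28 * 4 := by
        have := T2b_sq M
        gcongr
    _ = _ := mul_comm _ _

/-- the pairs of non-parallel long vectors congruent modulo `M` -/
noncomputable def T2bP (m M : ℕ) : Finset ((ℤ × ℤ) × (ℤ × ℤ)) :=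
  (T2 m M ×ˢ T2 m M).filter (fun p => dt p.1 p.2 ≠ 0 ∧ (M : ℤ) ∣ dt p.1 p.2)

theorem T2b_aw_le {x : ℤ × ℤ} (hx : x ∈ T2 m M) :
    aw M x ≤ M / 2 ^ (Nat.log 2 x.1.natAbs + Nat.log 2 x.2.natAbs) ∧
      (M : ℝ) ≤ (m : ℝ) ^ 28 * 2 ^ (Nat.log 2 x.1.natAbs + Nat.log 2 x.2.natAbs) := by
  rw [T2, mem_filter, mem_product] at hx
  obtain ⟨⟨hx1, hx2⟩, _, h2⟩ := hx
  constructor
  · have h4 := (mem_dy.1 (T2c_dy (T2c_ne hx1))).1
    have h5 := (mem_dy.1 (T2c_dy (T2c_ne hx2))).1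
    have h4' : (2 : ℝ) ^ Nat.log 2 x.1.natAbs ≤ |(x.1 : ℝ)| := by exact_mod_cast h4
    have h5' : (2 : ℝ) ^ Nat.log 2 x.2.natAbs ≤ |(x.2 : ℝ)| := by exact_mod_cast h5
    rw [aw, pow_add]
    gcongr
  · have h4 := T2c_brp_le x.1 x.2
    have h5 : br x.1 x.2 = 2 ^ (Nat.log 2 x.1.natAbs + Nat.log 2 x.2.natAbs) := by
      rw [br, pow_add]
    rw [h5] at h4
    have h6 : M ≤ m ^ 28 * 2 ^ (Nat.log 2 x.1.natAbs + Nat.log 2 x.2.natAbs) := by
      calc M ≤ brp x.1 x.2 * m ^ 28 := h2.le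
        _ ≤ 2 ^ (Nat.log 2 x.1.natAbs + Nat.log 2 x.2.natAbs) * m ^ 28 := Nat.mul_le_mul_right _ h4
        _ = _ := mul_comm _ _
    exact_mod_cast h6

/-- the non-parallel pairs -/
theorem T2b_non (h : Par m r l) (hg : Gen m r l) (hM : IsMM l r M) :
    ∑ p ∈ T2bP m M, aw M p.1 * aw M p.2 ≤ 2 * 10 ^ 5 * (m : ℝ) ^ 27 * M := by
  have hm : 1000 ≤ m := h.hm
  have hmr : (1000 : ℝ) ≤ m := by exact_mod_cast hm
  have hm0 : (0 : ℝ) < m := by linarith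
  have hM0 : 0 < M := (h.bmM hM).pos
  have hMr : (0 : ℝ) < M := by exact_mod_cast hM0
  have hMle := (h.bmM hM).le
  obtain ⟨a, k, hak, hkr, hMe⟩ : ∃ a k, a ≤ k ∧ k ≤ r ∧ M = IP l a k := by
    obtain ⟨k, hk, h1 | h1⟩ := h.isMM hM
    · exact ⟨0, k, Nat.zero_le _, hk, h1⟩
    · exact ⟨k, r, hk, le_rfl, h1⟩
  set F : (ℤ × ℤ) × (ℤ × ℤ) → (ℕ × ℕ) × (ℕ × ℕ) := fun p =>
    ((Nat.log 2 p.1.1.natAbs, Nat.log 2 p.1.2.natAbs),
      (Nat.log 2 p.2.1.natAbs, Nat.log 2 p.2.2.natAbs)) with hF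
  have hT2 : ∀ x ∈ T2 m M, Nat.log 2 x.1.natAbs < m + 1 ∧ Nat.log 2 x.2.natAbs < m + 1 := by
    intro x hx
    rw [T2, mem_filter, mem_product] at hx
    exact ⟨Nat.lt_succ_of_le (T2c_log_le hx.1.1 hMle), Nat.lt_succ_of_le (T2c_log_le hx.1.2 hMle)⟩
  have hmaps : ∀ p ∈ T2bP m M, F p ∈
      (range (m + 1) ×ˢ range (m + 1)) ×ˢ (range (m + 1) ×ˢ range (m + 1)) := by
    intro p hp
    rw [T2bP, mem_filter, mem_product] at hp
    obtain ⟨⟨h1, h2⟩, _⟩ := hp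
    simp only [hF, mem_product, mem_range]
    exact ⟨hT2 _ h1, hT2 _ h2⟩
  rw [← sum_fiberwise_of_maps_to hmaps]
  have hbox : ∀ t ∈ (range (m + 1) ×ˢ range (m + 1)) ×ˢ (range (m + 1) ×ˢ range (m + 1)),
      ∑ p ∈ (T2bP m M).filter (fun p => F p = t), aw M p.1 * aw M p.2 ≤
        10 ^ 5 * (m : ℝ) ^ 23 * M := by
    rintro ⟨⟨i, j⟩, i1, j1⟩ ht
    rw [mem_product, mem_product, mem_product, mem_range, mem_range, mem_range, mem_range] at ht
    simp only at ht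
    obtain ⟨⟨hi, hj⟩, hi1, hj1⟩ := ht
    set S := (T2bP m M).filter (fun p => F p = ((i, j), (i1, j1))) with hS
    have hSm : ∀ p ∈ S, (p.1 ∈ T2 m M ∧ p.2 ∈ T2 m M) ∧ (dt p.1 p.2 ≠ 0 ∧ (M : ℤ) ∣ dt p.1 p.2) ∧
        (Nat.log 2 p.1.1.natAbs = i ∧ Nat.log 2 p.1.2.natAbs = j) ∧
        (Nat.log 2 p.2.1.natAbs = i1 ∧ Nat.log 2 p.2.2.natAbs = j1) := by
      intro p hp
      rw [hS, mem_filter, T2bP, mem_filter, mem_product] at hp
      obtain ⟨⟨h1, h2⟩, h3⟩ := hp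
      simp only [hF, Prod.mk.injEq] at h3
      exact ⟨h1, h2, h3⟩
    rcases S.eq_empty_or_nonempty with hSe | ⟨p0, hp0⟩
    · rw [hSe, sum_empty]
      positivity
    obtain ⟨⟨g1, g2⟩, _, ⟨g3, g4⟩, g5, g6⟩ := hSm p0 hp0
    have l1 := (T2b_aw_le g1).2
    have l2 := (T2b_aw_le g2).2
    rw [g3, g4] at l1
    rw [g5, g6] at l2
    have hcard : S.card ≤ Nst M i j i1 j1 := by
      refine card_le_card fun p hp => ?_
      obtain ⟨⟨k1, k2⟩, k3, ⟨k4, k5⟩, k6, k7⟩ := hSm p hp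
      rw [T2, mem_filter, mem_product] at k1 k2
      rw [mem_filter, mem_product, mem_vb, mem_vb]
      refine ⟨⟨⟨⟨?_, ?_⟩, T2c_coprime k1.2.1.1 dvd_rfl, T2c_coprime k1.2.1.2 dvd_rfl⟩,
        ⟨?_, ?_⟩, T2c_coprime k2.2.1.1 dvd_rfl, T2c_coprime k2.2.1.2 dvd_rfl⟩, k3⟩
      · rw [← k4]
        exact T2c_dy (T2c_ne k1.1.1)
      · rw [← k5]
        exact T2c_dy (T2c_ne k1.1.2)
      · rw [← k6]
        exact T2c_dy (T2c_ne k2.1.1)
      · rw [← k7]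
        exact T2c_dy (T2c_ne k2.1.2)
    have h3 := lem3 h hg hak hkr (Nat.lt_succ_iff.1 hi) (Nat.lt_succ_iff.1 hj)
      (Nat.lt_succ_iff.1 hi1) (Nat.lt_succ_iff.1 hj1) (T := (m : ℝ) ^ 28) (Z := (m : ℝ) ^ 14)
      (one_le_pow₀ (by linarith)) (by positivity) (by rw [← pow_mul])
      (by rw [← hMe]; exact l1) (by rw [← hMe]; exact l2)
    rw [← hMe] at h3
    have hcr : (S.card : ℝ) ≤ (Nst M i j i1 j1 : ℝ) := by exact_mod_cast hcard
    calc ∑ p ∈ S, aw M p.1 * aw M p.2 ≤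
          ∑ p ∈ S, ((M : ℝ) / 2 ^ (i + j)) * ((M : ℝ) / 2 ^ (i1 + j1)) := by
          refine sum_le_sum fun p hp => ?_
          obtain ⟨⟨k1, k2⟩, _, ⟨k4, k5⟩, k6, k7⟩ := hSm p hp
          have a1 := (T2b_aw_le k1).1
          have a2 := (T2b_aw_le k2).1
          rw [k4, k5] at a1
          rw [k6, k7] at a2
          exact mul_le_mul a1 a2 (T2b_aw_nonneg _ _) (by positivity)
      _ = (S.card : ℝ) * (((M : ℝ) / 2 ^ (i + j)) * ((M : ℝ) / 2 ^ (i1 + j1))) := by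
          rw [sum_const, nsmul_eq_mul]
      _ ≤ (Nst M i j i1 j1 : ℝ) * (((M : ℝ) / 2 ^ (i + j)) * ((M : ℝ) / 2 ^ (i1 + j1))) := by
          gcongr
      _ = ((M : ℝ) / (2 ^ (i + j) * 2 ^ (i1 + j1))) * ((M : ℝ) * (Nst M i j i1 j1 : ℝ)) := by
          field_simp
      _ ≤ ((M : ℝ) / (2 ^ (i + j) * 2 ^ (i1 + j1))) *
          (10 ^ 5 * (m : ℝ) ^ 9 * (m : ℝ) ^ 14 * 2 ^ (i + j) * 2 ^ (i1 + j1)) := by gcongr
      _ = 10 ^ 5 * (m : ℝ) ^ 23 * M := by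
          field_simp
  have h6 : ((m : ℝ) + 1) ^ 4 ≤ 2 * (m : ℝ) ^ 4 := by
    have h7 : ((m : ℝ) + 1) ^ 2 ≤ (1.01 : ℝ) * (m : ℝ) ^ 2 := by nlinarith
    calc ((m : ℝ) + 1) ^ 4 = (((m : ℝ) + 1) ^ 2) ^ 2 := by ring
      _ ≤ ((1.01 : ℝ) * (m : ℝ) ^ 2) ^ 2 := by gcongr
      _ = 1.0201 * (m : ℝ) ^ 4 := by ring
      _ ≤ 2 * (m : ℝ) ^ 4 := by
          have : 0 ≤ (m : ℝ) ^ 4 := by positivity
          linarith
  calc _ ≤ ∑ t ∈ (range (m + 1) ×ˢ range (m + 1)) ×ˢ (range (m + 1) ×ˢ range (m + 1)),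
        (10 ^ 5 * (m : ℝ) ^ 23 * M) := sum_le_sum hbox
    _ = ((m : ℝ) + 1) ^ 4 * (10 ^ 5 * (m : ℝ) ^ 23 * M) := by
        rw [sum_const, card_product, card_product, card_range, nsmul_eq_mul]
        push_cast
        ring
    _ ≤ (2 * (m : ℝ) ^ 4) * (10 ^ 5 * (m : ℝ) ^ 23 * M) := by gcongr
    _ = _ := by ring

/-- The second moment. -/
theorem T2_second (h : Par m r l) (hg : Gen m r l) [NeZero (Mk l r)] (hM : IsMM l r M) :
    ∑ κ : (ZMod (Mk l r))ˣ, (∑ x ∈ (T2 m M).filter (fun x => κ ∈ UL (Mk l r) M x), aw M x) ^ 2 ≤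
      1000 * (m : ℝ) ^ 30 * (Nat.totient (Mk l r) : ℝ) := by
  classical
  have hm : 1000 ≤ m := h.hm
  have hmr : (1000 : ℝ) ≤ m := by exact_mod_cast hm
  have hm0 : (0 : ℝ) < m := by linarith
  have hM0 : 0 < M := (h.bmM hM).pos
  have hMr : (0 : ℝ) < M := by exact_mod_cast hM0
  set φ : ℝ := (Nat.totient (Mk l r) : ℝ) with hφ
  have hφ0 : 0 ≤ φ := Nat.cast_nonneg _
  set T : (ZMod (Mk l r))ˣ → Finset (ℤ × ℤ) := fun κ =>
    (T2 m M).filter (fun x => κ ∈ UL (Mk l r) M x) with hT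
  have hTm : ∀ κ x, x ∈ T κ ↔ x ∈ T2 m M ∧ κ ∈ UL (Mk l r) M x := by
    intro κ x
    rw [hT]
    exact mem_filter
  -- splitting of the square
  have hsplit : ∀ κ : (ZMod (Mk l r))ˣ, (∑ x ∈ T κ, aw M x) ^ 2 =
      ∑ x ∈ T κ, aw M x * ∑ y ∈ (T κ).filter (fun y => dt x y = 0), aw M y +
      ∑ x ∈ T κ, ∑ y ∈ (T κ).filter (fun y => ¬ dt x y = 0), aw M x * aw M y := by
    intro κ
    rw [pow_two, sum_mul, ← sum_add_distrib]
    refine sum_congr rfl fun x _ => ?_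
    rw [← mul_sum, ← mul_add, sum_filter_add_sum_filter_not]
  have hpar : ∀ κ : (ZMod (Mk l r))ˣ,
      ∑ x ∈ T κ, aw M x * ∑ y ∈ (T κ).filter (fun y => dt x y = 0), aw M y ≤
        4 * (m : ℝ) ^ 28 * ∑ x ∈ SL M (uv κ), aw M x := by
    intro κ
    calc ∑ x ∈ T κ, aw M x * ∑ y ∈ (T κ).filter (fun y => dt x y = 0), aw M y
        ≤ ∑ x ∈ T κ, aw M x * (4 * (m : ℝ) ^ 28) := by
          refine sum_le_sum fun x hx => ?_
          refine mul_le_mul_of_nonneg_left ?_ (T2b_aw_nonneg _ _)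
          refine le_trans ?_ (T2b_par ((hTm κ x).1 hx).1)
          refine sum_le_sum_of_subset_of_nonneg ?_ fun y _ _ => T2b_aw_nonneg _ _
          refine filter_subset_filter _ fun y hy => ((hTm κ y).1 hy).1
      _ = 4 * (m : ℝ) ^ 28 * ∑ x ∈ T κ, aw M x := by rw [← sum_mul, mul_comm]
      _ ≤ _ := by
          refine mul_le_mul_of_nonneg_left ?_ (by positivity)
          refine sum_le_sum_of_subset_of_nonneg ?_ fun y _ _ => T2b_aw_nonneg _ _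
          intro x hx
          have hx' := (hTm κ x).1 hx
          rw [T2, mem_filter] at hx'
          rw [SL, mem_filter]
          exact ⟨hx'.1.1, (mem_filter.1 hx'.2).2⟩
  have hnon : ∑ κ : (ZMod (Mk l r))ˣ,
      ∑ x ∈ T κ, ∑ y ∈ (T κ).filter (fun y => ¬ dt x y = 0), aw M x * aw M y ≤
        4 * 10 ^ 5 * (m : ℝ) ^ 27 * φ := by
    have e1 : ∀ κ : (ZMod (Mk l r))ˣ,
        ∑ x ∈ T κ, ∑ y ∈ (T κ).filter (fun y => ¬ dt x y = 0), aw M x * aw M y =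
        ∑ p ∈ T2bP m M, if κ ∈ UL (Mk l r) M p.1 ∩ UL (Mk l r) M p.2 then
          aw M p.1 * aw M p.2 else 0 := by
      intro κ
      rw [← sum_filter]
      have e2 : ∑ x ∈ T κ, ∑ y ∈ (T κ).filter (fun y => ¬ dt x y = 0), aw M x * aw M y =
          ∑ p ∈ (T κ ×ˢ T κ).filter (fun p => ¬ dt p.1 p.2 = 0), aw M p.1 * aw M p.2 := by
        rw [sum_filter (s := T κ ×ˢ T κ), sum_product]
        refine sum_congr rfl fun x _ => ?_
        rw [sum_filter]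
      rw [e2]
      refine sum_congr ?_ fun _ _ => rfl
      ext p
      rw [mem_filter, mem_product, hTm, hTm, mem_filter, T2bP, mem_filter, mem_product, mem_inter]
      constructor
      · rintro ⟨⟨⟨h1, h2⟩, h3, h4⟩, h5⟩
        refine ⟨⟨⟨h1, h3⟩, h5, ?_⟩, h2, h4⟩
        have := cnt_pair_dvd (Mk l r) (M := M) (M' := M) p.1 p.2 (mem_inter.2 ⟨h2, h4⟩)
        rwa [Nat.gcd_self] at this
      · rintro ⟨⟨⟨h1, h3⟩, h5, _⟩, h2, h4⟩
        exact ⟨⟨⟨h1, h2⟩, h3, h4⟩, h5⟩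
    rw [sum_congr rfl fun κ _ => e1 κ, sum_comm]
    calc ∑ p ∈ T2bP m M, ∑ κ : (ZMod (Mk l r))ˣ,
          (if κ ∈ UL (Mk l r) M p.1 ∩ UL (Mk l r) M p.2 then aw M p.1 * aw M p.2 else 0)
        = ∑ p ∈ T2bP m M, ((UL (Mk l r) M p.1 ∩ UL (Mk l r) M p.2).card : ℝ) *
            (aw M p.1 * aw M p.2) := by
          refine sum_congr rfl fun p _ => ?_
          rw [← sum_filter, sum_const, nsmul_eq_mul, filter_mem_eq_inter, univ_inter]
      _ ≤ ∑ p ∈ T2bP m M, (2 * φ / M) * (aw M p.1 * aw M p.2) := by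
          refine sum_le_sum fun p hp => ?_
          refine mul_le_mul_of_nonneg_right ?_
            (mul_nonneg (T2b_aw_nonneg _ _) (T2b_aw_nonneg _ _))
          rw [T2bP, mem_filter, mem_product, T2, mem_filter, mem_filter] at hp
          have h1 := T2c_pair h hM hM p.1 p.2 hp.1.1.2.1.1 hp.1.2.2.1.1
          rw [Nat.gcd_self] at h1
          refine h1.trans (le_of_eq ?_)
          rw [hφ]
          field_simp
      _ = (2 * φ / M) * ∑ p ∈ T2bP m M, (aw M p.1 * aw M p.2) := by rw [mul_sum]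
      _ ≤ (2 * φ / M) * (2 * 10 ^ 5 * (m : ℝ) ^ 27 * M) := by
          have := T2b_non h hg hM
          gcongr
      _ = 4 * 10 ^ 5 * (m : ℝ) ^ 27 * φ := by
          field_simp
          ring
  have hhar := har2 h.bm (h.dvd hM)
  calc ∑ κ : (ZMod (Mk l r))ˣ, (∑ x ∈ T κ, aw M x) ^ 2
      = ∑ κ : (ZMod (Mk l r))ˣ,
          ∑ x ∈ T κ, aw M x * ∑ y ∈ (T κ).filter (fun y => dt x y = 0), aw M y +
        ∑ κ : (ZMod (Mk l r))ˣ,
          ∑ x ∈ T κ, ∑ y ∈ (T κ).filter (fun y => ¬ dt x y = 0), aw M x * aw M y := by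
        rw [← sum_add_distrib]
        exact sum_congr rfl fun κ _ => hsplit κ
    _ ≤ ∑ κ : (ZMod (Mk l r))ˣ, 4 * (m : ℝ) ^ 28 * ∑ x ∈ SL M (uv κ), aw M x +
        4 * 10 ^ 5 * (m : ℝ) ^ 27 * φ := add_le_add (sum_le_sum fun κ _ => hpar κ) hnon
    _ = 4 * (m : ℝ) ^ 28 * ∑ κ : (ZMod (Mk l r))ˣ, ∑ x ∈ SL M (uv κ), aw M x +
        4 * 10 ^ 5 * (m : ℝ) ^ 27 * φ := by rw [mul_sum]
    _ ≤ 4 * (m : ℝ) ^ 28 * (64 * (m : ℝ) ^ 2 * φ) + 4 * 10 ^ 5 * (m : ℝ) ^ 27 * φ := by gcongr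
    _ ≤ 1000 * (m : ℝ) ^ 30 * φ := by
        have h27 : 4 * 10 ^ 5 * (m : ℝ) ^ 27 ≤ (m : ℝ) ^ 30 := by
          have e : (m : ℝ) ^ 30 = m ^ 3 * (m : ℝ) ^ 27 := by ring
          rw [e]
          have h1000 : (1000 : ℝ) ^ 3 ≤ (m : ℝ) ^ 3 := pow_le_pow_left₀ (by norm_num) hmr 3
          refine mul_le_mul_of_nonneg_right ?_ (by positivity)
          linarith
        have h30 : (0 : ℝ) ≤ (m : ℝ) ^ 30 := by positivity
        have e2 : 4 * (m : ℝ) ^ 28 * (64 * (m : ℝ) ^ 2 * φ) = 256 * (m : ℝ) ^ 30 * φ := by ring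
        rw [e2, ← add_mul]
        refine mul_le_mul_of_nonneg_right ?_ hφ0
        linarith

theorem T2b (h : Par m r l) (hg : Gen m r l) [NeZero (Mk l r)] (hM : IsMM l r M) :
    ∑ x ∈ T2 m M, aw M x * ((ULB m r l M x).card : ℝ) ≤ (Nat.totient (Mk l r) : ℝ) := by
  classical
  have hm : 1000 ≤ m := h.hm
  have hmr : (1000 : ℝ) ≤ m := by exact_mod_cast hm
  have hm0 : (0 : ℝ) < m := by linarith
  set φ : ℝ := (Nat.totient (Mk l r) : ℝ) with hφ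
  have hφ0 : 0 ≤ φ := Nat.cast_nonneg _
  set B := (Finset.univ : Finset (ZMod (Mk l r))ˣ).filter (fun κ => BadB m r l (uv κ)) with hB
  have e1 : ∑ x ∈ T2 m M, aw M x * ((ULB m r l M x).card : ℝ) =
      ∑ κ ∈ B, 1 * ∑ x ∈ (T2 m M).filter (fun x => κ ∈ UL (Mk l r) M x), aw M x := by
    have e2 : ∀ x : ℤ × ℤ, ((ULB m r l M x).card : ℝ) =
        ∑ κ ∈ B, if κ ∈ UL (Mk l r) M x then (1 : ℝ) else 0 := by
      intro x
      rw [← sum_filter, sum_const, nsmul_eq_mul, mul_one]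
      congr 1
      refine congrArg Finset.card ?_
      ext κ
      rw [ULB, mem_filter, mem_filter, hB, mem_filter]
      constructor
      · rintro ⟨h1, h2⟩
        exact ⟨⟨mem_univ _, h2⟩, h1⟩
      · rintro ⟨⟨_, h2⟩, h1⟩
        exact ⟨h1, h2⟩
    calc ∑ x ∈ T2 m M, aw M x * ((ULB m r l M x).card : ℝ)
        = ∑ x ∈ T2 m M, ∑ κ ∈ B, if κ ∈ UL (Mk l r) M x then aw M x else 0 := by
          refine sum_congr rfl fun x _ => ?_
          rw [e2, mul_sum]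
          refine sum_congr rfl fun κ _ => ?_
          split_ifs <;> simp
      _ = ∑ κ ∈ B, ∑ x ∈ T2 m M, if κ ∈ UL (Mk l r) M x then aw M x else 0 := sum_comm
      _ = _ := by
          refine sum_congr rfl fun κ _ => ?_
          rw [one_mul, sum_filter]
  rw [e1]
  refine le_of_sq_le_sq ?_ hφ0
  have hcs := sum_mul_sq_le_sq_mul_sq B (fun _ => (1 : ℝ))
    (fun κ => ∑ x ∈ (T2 m M).filter (fun x => κ ∈ UL (Mk l r) M x), aw M x)
  refine hcs.trans ?_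
  have hb := badB_card h
  rw [← hB] at hb
  have hs : ∑ κ ∈ B, (∑ x ∈ (T2 m M).filter (fun x => κ ∈ UL (Mk l r) M x), aw M x) ^ 2 ≤
      1000 * (m : ℝ) ^ 30 * φ :=
    (sum_le_sum_of_subset_of_nonneg (subset_univ _) fun _ _ _ => sq_nonneg _).trans
      (T2_second h hg hM)
  calc (∑ κ ∈ B, (1 : ℝ) ^ 2) *
        ∑ κ ∈ B, (∑ x ∈ (T2 m M).filter (fun x => κ ∈ UL (Mk l r) M x), aw M x) ^ 2
      ≤ (1000 / (m : ℝ) ^ 41 * φ) * (1000 * (m : ℝ) ^ 30 * φ) := by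
        refine mul_le_mul ?_ hs (sum_nonneg fun _ _ => sq_nonneg _) (by positivity)
        simpa using hb
    _ = (10 ^ 6 / (m : ℝ) ^ 11) * φ ^ 2 := by
        field_simp
        ring
    _ ≤ 1 * φ ^ 2 := by
        refine mul_le_mul_of_nonneg_right ?_ (sq_nonneg _)
        rw [div_le_one (by positivity)]
        calc (10 : ℝ) ^ 6 ≤ 1000 ^ 11 := by norm_num
          _ ≤ (m : ℝ) ^ 11 := pow_le_pow_left₀ (by norm_num) hmr 11
    _ = φ ^ 2 := one_mul _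

end DiscPS
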