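import Pool.Agent.Work.DiscPS.Fou
import Pool.Agent.Work.DiscPS.FullM
import Pool.Agent.Work.DiscPS.T1
import Pool.Agent.Work.DiscPS.T2a
import Pool.Agent.Work.DiscPS.T2b
import Pool.Agent.Work.DiscPS.T2c

/-!
# The mean over the good multipliers
-/

namespace DiscPS

open Finset

theorem MeanG_uv_gcd {b : ℕ} [NeZero b] {M : ℕ} (hM : M ∣ b) (κ : (ZMod b)ˣ) :
    Int.gcd (uv κ) M = 1 := by
  have h1 : Nat.Coprime (κ : ZMod b).val b := ZMod.val_coe_unit_coprime κ
  have h2 : Nat.Coprime (κ : ZMod b).val M := Nat.Coprime.coprime_dvd_right hM h1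
  unfold uv
  rw [Int.gcd_natCast_natCast]
  exact h2

theorem MeanG_mem_SR {M : ℕ} {q : ℤ} (h : q ∈ SR M) : q ≠ 0 := by
  unfold SR at h
  rw [mem_filter] at h
  exact h.2.1

/-- a unit whose lattice contains a coprime vector with short primitive vector is bad -/
theorem MeanG_bad {m r : ℕ} {l : ℕ → ℕ} [NeZero (Mk l r)] {M : ℕ} (hM : IsMM l r M)
    {x : ℤ × ℤ} (hx : x ∈ SR M ×ˢ SR M) (hg : Int.gcd x.1 M = 1)
    (hb : brp x.1 x.2 * m ^ 28 ≤ M) {κ : (ZMod (Mk l r))ˣ} (hκ : κ ∈ UL (Mk l r) M x) :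
    Bad m r l (uv κ) := by
  rw [mem_product] at hx
  have h1 := MeanG_mem_SR hx.1
  have h2 := MeanG_mem_SR hx.2
  have hκ' : (M : ℤ) ∣ x.2 + x.1 * uv κ := by
    unfold UL at hκ
    rw [mem_filter] at hκ
    exact hκ.2
  obtain ⟨q, hq⟩ := Int.gcd_dvd_left x.1 x.2
  obtain ⟨p, hp⟩ := Int.gcd_dvd_right x.1 x.2
  have hg0 : (Int.gcd x.1 x.2 : ℤ) ≠ 0 := by
    intro h0
    rw [h0, zero_mul] at hq
    exact h1 hq
  have eq1 : x.1 / (Int.gcd x.1 x.2 : ℤ) = q := by
    rw [Int.ediv_eq_iff_eq_mul_right hg0 (Int.gcd_dvd_left x.1 x.2)]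
    exact hq
  have eq2 : x.2 / (Int.gcd x.1 x.2 : ℤ) = p := by
    rw [Int.ediv_eq_iff_eq_mul_right hg0 (Int.gcd_dvd_right x.1 x.2)]
    exact hp
  refine ⟨M, q, p, hM, ?_, ?_, ?_, ?_⟩
  · rintro rfl
    rw [mul_zero] at hq
    exact h1 hq
  · rintro rfl
    rw [mul_zero] at hp
    exact h2 hp
  · have h3 : x.2 + x.1 * uv κ = (Int.gcd x.1 x.2 : ℤ) * (p + q * uv κ) := by
      rw [mul_add, ← hp, ← mul_assoc, ← hq]
    rw [h3] at hκ'
    have h4 : IsCoprime (M : ℤ) (Int.gcd x.1 x.2 : ℤ) := by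
      rw [← Int.isCoprime_iff_gcd_eq_one] at hg
      exact (hg.of_isCoprime_of_dvd_left (Int.gcd_dvd_left x.1 x.2)).symm
    exact h4.dvd_of_dvd_mul_left hκ'
  · unfold brp at hb
    rw [eq1, eq2] at hb
    exact hb

/-- exchange of the sums over the units and over the vectors -/
theorem MeanG_swap {b : ℕ} [NeZero b] (M : ℕ) (K : Finset (ZMod b)ˣ) (P : ℤ × ℤ → Prop)
    [DecidablePred P] (f : ℤ × ℤ → ℝ) :
    ∑ κ ∈ K, ∑ x ∈ (SL M (uv κ)).filter P, f x =
      ∑ x ∈ (SR M ×ˢ SR M).filter P, f x * (((UL b M x).filter (fun κ => κ ∈ K)).card : ℝ) := by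
  have h1 : ∀ κ ∈ K, ∑ x ∈ (SL M (uv κ)).filter P, f x =
      ∑ x ∈ (SR M ×ˢ SR M).filter P, if κ ∈ UL b M x then f x else 0 := by
    intro κ _
    rw [← sum_filter]
    refine sum_congr ?_ fun _ _ => rfl
    ext x
    unfold SL UL
    simp only [mem_filter, mem_univ, true_and]
    tauto
  rw [sum_congr rfl h1, sum_comm]
  refine sum_congr rfl fun x _ => ?_
  rw [← sum_filter, sum_const, nsmul_eq_mul, mul_comm]
  congr 3
  ext κ
  simp only [mem_filter]
  tauto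

open Classical in
theorem mean_good : ∃ C : ℝ, 0 < C ∧ ∀ (m r : ℕ) (l : ℕ → ℕ), Par m r l → Gen m r l →
    ∀ [NeZero (Mk l r)] (M : ℕ), IsMM l r M → ∀ (a : ℤ) (X : ℕ) (c : ℤ) (Y : ℕ),
      |∑ κ ∈ Good m r l, DM M (uv κ) a X c Y| ≤ C * (Nat.totient (Mk l r) : ℝ) := by
  obtain ⟨C1, hC1, hT1⟩ := T1_sum
  refine ⟨2 * C1 + 10 ^ 6, by positivity, fun m r l h hgen _ M hM a X c Y => ?_⟩
  set b := Mk l r with hb
  set F : ℝ := (Nat.totient b : ℝ) with hF
  have hMb : M ∣ b := h.dvd hM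
  have hbm : Bm m b := h.bm
  have hbmM : Bm m M := h.bmM hM
  have hodd : Odd M := hbmM.odd
  have hMpos : 0 < M := hbmM.pos
  have hphi : (0 : ℝ) < Nat.totient M := by exact_mod_cast Nat.totient_pos.2 hMpos
  have hF0 : 0 ≤ F := by positivity
  -- the bad multipliers
  set K : Finset (ZMod b)ˣ := Finset.univ.filter (fun κ => Bad m r l (uv κ)) with hK
  have e0 : ∑ κ ∈ Good m r l, DM M (uv κ) a X c Y =
      (∑ κ : (ZMod b)ˣ, DM M (uv κ) a X c Y) - ∑ κ ∈ K, DM M (uv κ) a X c Y := by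
    have := sum_filter_add_sum_filter_not (Finset.univ : Finset (ZMod b)ˣ)
      (fun κ => Bad m r l (uv κ)) (fun κ => DM M (uv κ) a X c Y)
    unfold Good
    rw [← this]
    ring
  have e1 : ∑ κ ∈ K, DM M (uv κ) a X c Y = ∑ κ ∈ K, ∑ x ∈ SL M (uv κ), cf M a X c Y x :=
    sum_congr rfl fun κ _ => DM_eq hodd (MeanG_uv_gcd hMb κ) a X c Y
  have e2 : ∀ κ : (ZMod b)ˣ, ∑ x ∈ SL M (uv κ), cf M a X c Y x =
      ∑ x ∈ (SL M (uv κ)).filter (fun x => Int.gcd x.1 M ≠ 1), cf M a X c Y x +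
      ∑ x ∈ (SL M (uv κ)).filter (fun x => Int.gcd x.1 M = 1 ∧ brp x.1 x.2 * m ^ 28 ≤ M),
        cf M a X c Y x +
      ∑ x ∈ (SL M (uv κ)).filter (fun x => Int.gcd x.1 M = 1 ∧ M < brp x.1 x.2 * m ^ 28),
        cf M a X c Y x := by
    intro κ
    rw [sum_filter, sum_filter, sum_filter, ← sum_add_distrib, ← sum_add_distrib]
    refine sum_congr rfl fun x _ => ?_
    by_cases c1 : Int.gcd x.1 M = 1
    · by_cases c2 : brp x.1 x.2 * m ^ 28 ≤ M
      · have c3 : ¬ (M < brp x.1 x.2 * m ^ 28) := by omega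
        simp [c1, c2, c3]
      · have c3 : M < brp x.1 x.2 * m ^ 28 := by omega
        simp [c1, c2, c3]
    · simp [c1]
  have e3 : ∑ κ ∈ K, DM M (uv κ) a X c Y =
      ∑ κ ∈ K, ∑ x ∈ (SL M (uv κ)).filter (fun x => Int.gcd x.1 M ≠ 1), cf M a X c Y x +
      ∑ κ ∈ K, ∑ x ∈ (SL M (uv κ)).filter (fun x => Int.gcd x.1 M = 1 ∧
        brp x.1 x.2 * m ^ 28 ≤ M), cf M a X c Y x +
      ∑ κ ∈ K, ∑ x ∈ (SL M (uv κ)).filter (fun x => Int.gcd x.1 M = 1 ∧
        M < brp x.1 x.2 * m ^ 28), cf M a X c Y x := by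
    rw [e1, sum_congr rfl fun κ _ => e2 κ, sum_add_distrib, sum_add_distrib]
  have hSL : ∀ κ : (ZMod b)ˣ, ∀ x ∈ SL M (uv κ), |cf M a X c Y x| ≤ aw M x / 4 := by
    intro κ x hx
    unfold SL at hx
    rw [mem_filter] at hx
    exact cf_le a X c Y hx.1
  have haw : ∀ x : ℤ × ℤ, 0 ≤ aw M x := fun x => by unfold aw; positivity
  -- first part
  have f1 : |∑ κ ∈ K, ∑ x ∈ (SL M (uv κ)).filter (fun x => Int.gcd x.1 M ≠ 1),
      cf M a X c Y x| ≤ F / 4 := by
    have h1 : |∑ κ ∈ K, ∑ x ∈ (SL M (uv κ)).filter (fun x => Int.gcd x.1 M ≠ 1),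
        cf M a X c Y x| ≤ ∑ κ ∈ K, ∑ x ∈ (SL M (uv κ)).filter (fun x => Int.gcd x.1 M ≠ 1),
        aw M x / 4 := by
      refine (abs_sum_le_sum_abs _ _).trans (sum_le_sum fun κ _ => ?_)
      refine (abs_sum_le_sum_abs _ _).trans (sum_le_sum fun x hx => ?_)
      exact hSL κ x (mem_filter.1 hx).1
    have h2 : ∑ κ ∈ K, ∑ x ∈ (SL M (uv κ)).filter (fun x => Int.gcd x.1 M ≠ 1), aw M x / 4 ≤
        ∑ κ : (ZMod b)ˣ, ∑ x ∈ (SL M (uv κ)).filter (fun x => Int.gcd x.1 M ≠ 1),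
          aw M x / 4 := by
      refine sum_le_sum_of_subset_of_nonneg (subset_univ _) fun κ _ _ => ?_
      exact sum_nonneg fun x _ => div_nonneg (haw x) (by norm_num)
    have h3 : ∑ κ : (ZMod b)ˣ, ∑ x ∈ (SL M (uv κ)).filter (fun x => Int.gcd x.1 M ≠ 1),
          aw M x / 4 = (∑ κ : (ZMod b)ˣ, ∑ x ∈ (SL M (uv κ)).filter
            (fun x => Int.gcd x.1 M ≠ 1), aw M x) / 4 := by
      rw [sum_div]
      exact sum_congr rfl fun κ _ => (sum_div _ _ _).symm
    have h4 := har3 hbm hMb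
    rw [h3] at h2
    linarith
  -- second part
  have f2 : |∑ κ ∈ K, ∑ x ∈ (SL M (uv κ)).filter (fun x => Int.gcd x.1 M = 1 ∧
      brp x.1 x.2 * m ^ 28 ≤ M), cf M a X c Y x| ≤ (2 * C1 + 1 / 4) * F := by
    rw [MeanG_swap]
    have h1 : ∑ x ∈ (SR M ×ˢ SR M).filter (fun x => Int.gcd x.1 M = 1 ∧
          brp x.1 x.2 * m ^ 28 ≤ M), cf M a X c Y x *
          (((UL b M x).filter (fun κ => κ ∈ K)).card : ℝ) =
        (∑ x ∈ (SR M ×ˢ SR M).filter (fun x => (Int.gcd x.1 M = 1 ∧ Int.gcd x.2 M = 1) ∧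
          brp x.1 x.2 * m ^ 28 ≤ M), cf M a X c Y x) * (F / Nat.totient M) := by
      rw [sum_mul]
      symm
      refine sum_subset_zero_on_sdiff ?_ ?_ ?_
      · intro x hx
        rw [mem_filter] at hx ⊢
        exact ⟨hx.1, hx.2.1.1, hx.2.2⟩
      · intro x hx
        rw [mem_sdiff, mem_filter, mem_filter] at hx
        have h2 : (UL b M x).filter (fun κ => κ ∈ K) = ∅ := by
          rw [filter_eq_empty_iff]
          intro κ hκ _
          apply hx.2
          refine ⟨hx.1.1, ⟨hx.1.2.1, ?_⟩, hx.1.2.2⟩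
          rw [← UL_gcd b hMb x hκ]
          exact hx.1.2.1
        rw [h2, card_empty, Nat.cast_zero, mul_zero]
      · intro x hx
        rw [mem_filter] at hx
        have h2 : (UL b M x).filter (fun κ => κ ∈ K) = UL b M x := by
          rw [filter_eq_self]
          intro κ hκ
          rw [hK, mem_filter]
          exact ⟨mem_univ _, MeanG_bad hM hx.1 hx.2.1.1 hx.2.2 hκ⟩
        rw [h2]
        have h3 := cnt_eq b hMb x hx.2.1.1 hx.2.1.2
        have h4 : (Nat.totient M : ℝ) * ((UL b M x).card : ℝ) = F := by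
          rw [hF]
          exact_mod_cast h3
        rw [← h4]
        field_simp
    rw [h1, abs_mul, abs_of_nonneg (by positivity : (0:ℝ) ≤ F / Nat.totient M)]
    have h5 : |∑ x ∈ (SR M ×ˢ SR M).filter (fun x => (Int.gcd x.1 M = 1 ∧ Int.gcd x.2 M = 1) ∧
          brp x.1 x.2 * m ^ 28 ≤ M), cf M a X c Y x| ≤ C1 * M + Nat.totient M / 4 := by
      have h6 : ∑ x ∈ (SR M ×ˢ SR M).filter (fun x => (Int.gcd x.1 M = 1 ∧ Int.gcd x.2 M = 1) ∧
          brp x.1 x.2 * m ^ 28 ≤ M), cf M a X c Y x =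
          ∑ x ∈ (SR M ×ˢ SR M).filter (fun x => brp x.1 x.2 * m ^ 28 ≤ M), cf M a X c Y x -
          ∑ x ∈ ((SR M ×ˢ SR M).filter (fun x => ¬ (Int.gcd x.1 M = 1 ∧ Int.gcd x.2 M = 1))).filter
            (fun x => brp x.1 x.2 * m ^ 28 ≤ M), cf M a X c Y x := by
        rw [filter_filter, sum_filter, sum_filter, sum_filter, ← sum_sub_distrib]
        refine sum_congr rfl fun x _ => ?_
        by_cases c1 : Int.gcd x.1 M = 1 ∧ Int.gcd x.2 M = 1
        · simp [c1]
        · by_cases c2 : brp x.1 x.2 * m ^ 28 ≤ M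
          · simp only [c1, c2, not_false_eq_true, and_true, and_self, if_true, false_and,
              if_false, sub_self]
          · simp only [c1, c2, and_false, if_false, sub_self]
      rw [h6]
      have h7 := hT1 M (m ^ 28) hodd a X c Y
      have h8 : |∑ x ∈ ((SR M ×ˢ SR M).filter
            (fun x => ¬ (Int.gcd x.1 M = 1 ∧ Int.gcd x.2 M = 1))).filter
            (fun x => brp x.1 x.2 * m ^ 28 ≤ M), cf M a X c Y x| ≤ Nat.totient M / 4 := by
        have h9 : ∑ x ∈ ((SR M ×ˢ SR M).filter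
            (fun x => ¬ (Int.gcd x.1 M = 1 ∧ Int.gcd x.2 M = 1))).filter
            (fun x => brp x.1 x.2 * m ^ 28 ≤ M), |cf M a X c Y x| ≤
            (∑ x ∈ (SR M ×ˢ SR M).filter
            (fun x => ¬ (Int.gcd x.1 M = 1 ∧ Int.gcd x.2 M = 1)), aw M x) / 4 := by
          rw [sum_div]
          refine (sum_le_sum fun x hx => cf_le a X c Y
            (mem_filter.1 (mem_filter.1 hx).1).1).trans ?_
          exact sum_le_sum_of_subset_of_nonneg (filter_subset _ _)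
            fun x _ _ => div_nonneg (haw x) (by norm_num)
        have h10 := har4 hbmM
        have h11 := (abs_sum_le_sum_abs (fun x => cf M a X c Y x)
          (((SR M ×ˢ SR M).filter
            (fun x => ¬ (Int.gcd x.1 M = 1 ∧ Int.gcd x.2 M = 1))).filter
            (fun x => brp x.1 x.2 * m ^ 28 ≤ M))).trans h9
        linarith
      refine (abs_sub _ _).trans ?_
      linarith
    have h12 : (M : ℝ) ≤ 2 * Nat.totient M := by exact_mod_cast hbmM.half
    calc |∑ x ∈ (SR M ×ˢ SR M).filter (fun x => (Int.gcd x.1 M = 1 ∧ Int.gcd x.2 M = 1) ∧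
          brp x.1 x.2 * m ^ 28 ≤ M), cf M a X c Y x| * (F / Nat.totient M)
        ≤ (C1 * (2 * Nat.totient M) + Nat.totient M / 4) * (F / Nat.totient M) := by
          refine mul_le_mul_of_nonneg_right (h5.trans ?_) (by positivity)
          have := mul_le_mul_of_nonneg_left h12 hC1.le
          linarith
      _ = (2 * C1 + 1 / 4) * F := by
          field_simp
  -- third part
  have f3 : |∑ κ ∈ K, ∑ x ∈ (SL M (uv κ)).filter (fun x => Int.gcd x.1 M = 1 ∧
      M < brp x.1 x.2 * m ^ 28), cf M a X c Y x| ≤ (10 ^ 6 + 2) / 4 * F := by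
    rw [MeanG_swap]
    have hA := T2a h hM
    have hB := T2b h hgen hM
    have hC := T2c h hgen hM
    have h1 : |∑ x ∈ (SR M ×ˢ SR M).filter (fun x => Int.gcd x.1 M = 1 ∧
        M < brp x.1 x.2 * m ^ 28), cf M a X c Y x *
          (((UL b M x).filter (fun κ => κ ∈ K)).card : ℝ)| ≤
        ∑ x ∈ T2 m M, (aw M x * ((ULA m r l M x).card : ℝ) / 4 +
          aw M x * ((ULB m r l M x).card : ℝ) / 4 + aw M x * ((ULC m r l M x).card : ℝ) / 4) := by
      have h2 : ∑ x ∈ (SR M ×ˢ SR M).filter (fun x => Int.gcd x.1 M = 1 ∧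
          M < brp x.1 x.2 * m ^ 28), cf M a X c Y x *
          (((UL b M x).filter (fun κ => κ ∈ K)).card : ℝ) =
          ∑ x ∈ T2 m M, cf M a X c Y x * (((UL b M x).filter (fun κ => κ ∈ K)).card : ℝ) := by
        symm
        refine sum_subset_zero_on_sdiff ?_ ?_ fun _ _ => rfl
        · intro x hx
          unfold T2 at hx
          rw [mem_filter] at hx ⊢
          exact ⟨hx.1, hx.2.1.1, hx.2.2⟩
        · intro x hx
          unfold T2 at hx
          rw [mem_sdiff, mem_filter, mem_filter] at hx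
          have h2 : (UL b M x).filter (fun κ => κ ∈ K) = ∅ := by
            rw [filter_eq_empty_iff]
            intro κ hκ _
            apply hx.2
            refine ⟨hx.1.1, ⟨hx.1.2.1, ?_⟩, hx.1.2.2⟩
            rw [← UL_gcd b hMb x hκ]
            exact hx.1.2.1
          rw [h2, card_empty, Nat.cast_zero, mul_zero]
      rw [h2]
      refine (abs_sum_le_sum_abs _ _).trans (sum_le_sum fun x hx => ?_)
      unfold T2 at hx
      rw [mem_filter] at hx
      rw [abs_mul, Nat.abs_cast]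
      have h3 := cf_le a X c Y hx.1
      have h4 : (((UL b M x).filter (fun κ => κ ∈ K)).card : ℝ) ≤ ((ULA m r l M x).card : ℝ) +
          ((ULB m r l M x).card : ℝ) + ((ULC m r l M x).card : ℝ) := by
        have h5 : (UL b M x).filter (fun κ => κ ∈ K) ⊆
            (ULA m r l M x ∪ ULB m r l M x) ∪ ULC m r l M x := by
          intro κ hκ
          rw [mem_filter, hK, mem_filter] at hκ
          obtain ⟨hκ1, -, M', q, p, hM', hs⟩ := hκ
          rw [mem_union, mem_union]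
          unfold ULA ULB ULC
          rw [mem_filter, mem_filter, mem_filter]
          by_cases c1 : x.1 * p = q * x.2
          · exact Or.inl (Or.inl ⟨hκ1, M', q, p, hM', hs, c1⟩)
          · by_cases c2 : Int.gcd q M' = 1
            · exact Or.inr ⟨hκ1, M', q, p, hM', hs, c2, c1⟩
            · exact Or.inl (Or.inr ⟨hκ1, M', q, p, hM', hs, c2⟩)
        have h6 := (card_le_card h5).trans ((card_union_le _ _).trans
          (Nat.add_le_add_right (card_union_le _ _) _))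
        exact_mod_cast h6
      calc |cf M a X c Y x| * (((UL b M x).filter (fun κ => κ ∈ K)).card : ℝ)
          ≤ (aw M x / 4) * (((ULA m r l M x).card : ℝ) +
          ((ULB m r l M x).card : ℝ) + ((ULC m r l M x).card : ℝ)) :=
            mul_le_mul h3 h4 (Nat.cast_nonneg _) (div_nonneg (haw x) (by norm_num))
        _ = _ := by ring
    rw [sum_add_distrib, sum_add_distrib, ← sum_div, ← sum_div, ← sum_div] at h1
    have hA' : ∑ x ∈ T2 m M, aw M x * ((ULA m r l M x).card : ℝ) ≤ F := hA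
    have hB' : ∑ x ∈ T2 m M, aw M x * ((ULB m r l M x).card : ℝ) ≤ F := hB
    have hC' : ∑ x ∈ T2 m M, aw M x * ((ULC m r l M x).card : ℝ) ≤ 10 ^ 6 * F := hC
    linarith
  have f0 : |∑ κ : (ZMod b)ˣ, DM M (uv κ) a X c Y| ≤ 2 * F := full_mean hbm hMb a X c Y
  rw [e0, e3]
  set s1 := ∑ κ ∈ K, ∑ x ∈ (SL M (uv κ)).filter (fun x => Int.gcd x.1 M ≠ 1), cf M a X c Y x
  set s2 := ∑ κ ∈ K, ∑ x ∈ (SL M (uv κ)).filter (fun x => Int.gcd x.1 M = 1 ∧
      brp x.1 x.2 * m ^ 28 ≤ M), cf M a X c Y x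
  set s3 := ∑ κ ∈ K, ∑ x ∈ (SL M (uv κ)).filter (fun x => Int.gcd x.1 M = 1 ∧
      M < brp x.1 x.2 * m ^ 28), cf M a X c Y x
  set s0 := ∑ κ : (ZMod b)ˣ, DM M (uv κ) a X c Y
  have hh : |s0 - (s1 + s2 + s3)| ≤ |s0| + (|s1| + |s2| + |s3|) := by
    refine (abs_sub _ _).trans ?_
    have := abs_add_three s1 s2 s3
    linarith
  refine hh.trans ?_
  nlinarith

end DiscPS
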