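import Pool.Agent.Work.DiscPS.LinR

/-!
# Power saving: rows from the table and the decomposition into cells (helper59)
-/

namespace DiscPS

open Finset

variable {b n : ℕ}

/-- `i` is the first index where `k` differs from `X`, `i'` the last one where its `y`-digits
differ from `Y` -/
def net_E (ρ : ℕ → (ZMod b)ˣ) (X Y : ℕ → ZMod b) (k : Vec b n) (i i' : Fin n) : Prop :=
  ((∀ q < i, k q = X q) ∧ (k i).val < (X i).val) ∧
    ((∀ q, i' < q → (ρ q : ZMod b) * k q = Y q) ∧ ((ρ i' : ZMod b) * k i').val < (Y i').val)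

theorem net_fst_uniq {X : ℕ → ZMod b} {k : Vec b n} {i j : Fin n} (hi : (∀ q < i, k q = X q) ∧
    (k i).val < (X i).val) (hj : (∀ q < j, k q = X q) ∧ (k j).val < (X j).val) : i = j := by
  rcases lt_trichotomy i j with h | h | h
  · have := hi.2
    rw [hj.1 i h] at this
    exact absurd this (lt_irrefl _)
  · exact h
  · have := hj.2
    rw [hi.1 j h] at this
    exact absurd this (lt_irrefl _)

theorem net_lst_uniq {ρ : ℕ → (ZMod b)ˣ} {Y : ℕ → ZMod b} {k : Vec b n} {i j : Fin n}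
    (hi : (∀ q, i < q → (ρ q : ZMod b) * k q = Y q) ∧ ((ρ i : ZMod b) * k i).val < (Y i).val)
    (hj : (∀ q, j < q → (ρ q : ZMod b) * k q = Y q) ∧ ((ρ j : ZMod b) * k j).val < (Y j).val) :
    i = j := by
  rcases lt_trichotomy i j with h | h | h
  · have := hj.2
    rw [hi.1 j h] at this
    exact absurd this (lt_irrefl _)
  · exact h
  · have := hi.2
    rw [hj.1 i h] at this
    exact absurd this (lt_irrefl _)

open Classical in
theorem net_split (ρ : ℕ → (ZMod b)ˣ) (X Y : ℕ → ZMod b) (k : Vec b n) (M : Prop) (g : ℝ) :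
    (if M ∧ ltx k X ∧ lty ρ k Y then g else 0) =
      ∑ i : Fin n, ∑ i' : Fin n, if M ∧ net_E ρ X Y k i i' then g else 0 := by
  by_cases hM : M
  · by_cases hx : ltx k X
    · by_cases hy : lty ρ k Y
      · obtain ⟨i, hi⟩ := hx
        obtain ⟨j, hj⟩ := hy
        rw [if_pos ⟨hM, ⟨i, hi⟩, ⟨j, hj⟩⟩, Finset.sum_eq_single i, Finset.sum_eq_single j,
          if_pos ⟨hM, hi, hj⟩]
        · intro j' _ hj'
          exact if_neg fun hc => hj' (net_lst_uniq hc.2.2 hj)
        · intro hc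
          exact absurd (mem_univ _) hc
        · intro i' _ hi'
          exact Finset.sum_eq_zero fun j' _ => if_neg fun hc => hi' (net_fst_uniq hc.2.1 hi)
        · intro hc
          exact absurd (mem_univ _) hc
      · rw [if_neg fun hc => hy hc.2.2]
        refine (Finset.sum_eq_zero fun i _ => Finset.sum_eq_zero fun i' _ => if_neg fun hc => ?_).symm
        exact hy ⟨i', hc.2.2⟩
    · rw [if_neg fun hc => hx hc.2.1]
      refine (Finset.sum_eq_zero fun i _ => Finset.sum_eq_zero fun i' _ => if_neg fun hc => ?_).symm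
      exact hx ⟨i, hc.2.1⟩
  · rw [if_neg fun hc => hM hc.1]
    exact (Finset.sum_eq_zero fun i _ => Finset.sum_eq_zero fun i' _ => if_neg fun hc => hM hc.1).symm

theorem net_sum_shift [NeZero b] {G : ZMod b → ℝ} (hG : ∑ x, G x = 0) (c : (ZMod b)ˣ)
    (x : ZMod b) : ∑ a : ZMod b, G (x + a * c) = 0 := by
  have h1 : ∑ a : ZMod b, G (x + a * c) = ∑ y, G y := by
    refine Fintype.sum_bijective (fun a : ZMod b => x + a * c) ?_ _ _ (fun a => rfl)
    constructor
    · intro a a' haa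
      have h2 : a * (c : ZMod b) = a' * c := add_left_cancel haa
      refine linr_unit_cancel c ?_
      rw [mul_comm, h2, mul_comm]
    · intro y
      refine ⟨(y - x) * ((c⁻¹ : (ZMod b)ˣ) : ZMod b), ?_⟩
      simp only
      rw [mul_assoc, Units.inv_mul]
      ring
  rw [h1, hG]

open Classical in
/-- the sum over the points with given first and last differing index -/
noncomputable def net_S [NeZero b] (row : ℕ → Vec b n) (ρ : ℕ → (ZMod b)ˣ) (σ Z X Y : ℕ → ZMod b)
    (t : ℕ) (G : ZMod b → ℝ) (i i' : Fin n) : ℝ :=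
  ∑ k : Vec b n, if mtch row σ Z t k ∧ net_E ρ X Y k i i' then G (dot (row t) k + σ t) else 0

theorem net_TT_eq [NeZero b] (row : ℕ → Vec b n) (ρ : ℕ → (ZMod b)ˣ) (σ Z X Y : ℕ → ZMod b)
    (t : ℕ) (G : ZMod b → ℝ) :
    TT row ρ σ Z X Y t G = ∑ i : Fin n, ∑ i' : Fin n, net_S row ρ σ Z X Y t G i i' := by
  unfold TT net_S
  rw [Finset.sum_congr rfl fun k _ =>
    net_split ρ X Y k (mtch row σ Z t k) (G (dot (row t) k + σ t)), Finset.sum_comm]
  exact Finset.sum_congr rfl fun i _ => Finset.sum_comm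

theorem net_mtch_add {row : ℕ → Vec b n} {σ Z : ℕ → ZMod b} {t : ℕ} {k v : Vec b n}
    (hv : ∀ s < t, dot (row s) v = 0) : mtch row σ Z t (k + v) ↔ mtch row σ Z t k := by
  unfold mtch
  refine forall_congr' fun s => forall_congr' fun hs => ?_
  rw [linr_dot_add_right, hv s hs, add_zero]

/-- case (1): a free middle vector -/
theorem net_far [NeZero b] {κ : ℕ → ℕ → (ZMod b)ˣ} {row : ℕ → Vec b n} {t : ℕ}
    {u : ℕ → Vec b n} (h : Ker κ row t u) (hr : ∀ p, p + t < n → dot (row t) (u p) = At κ t p)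
    (σ Z X Y : ℕ → ZMod b) {G : ZMod b → ℝ} (hG : ∑ x, G x = 0) {i i' : Fin n}
    (hi : (i : ℕ) + t + 1 < i') :
    net_S row (κ 0) σ Z X Y t G i i' = 0 := by
  classical
  have hp : (i : ℕ) + 1 + t < n := by have := i'.2; omega
  have hc := hr _ hp
  have hsup := h.sup _ hp
  have hker : ∀ s < t, dot (row s) (u ((i : ℕ) + 1)) = 0 := fun s hs => h.ker s hs _ hp
  have hE : ∀ (a : ZMod b) (k : Vec b n),
      net_E (κ 0) X Y (k + a • u ((i : ℕ) + 1)) i i' ↔ net_E (κ 0) X Y k i i' := by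
    intro a k
    have e1 : ∀ q : Fin n, q ≤ i → (k + a • u ((i : ℕ) + 1)) q = k q := by
      intro q hq
      have : u ((i : ℕ) + 1) q = 0 := hsup q (Or.inl (by have := Fin.le_def.1 hq; omega))
      simp only [Pi.add_apply, Pi.smul_apply, smul_eq_mul, this, mul_zero, add_zero]
    have e2 : ∀ q : Fin n, i' ≤ q → (k + a • u ((i : ℕ) + 1)) q = k q := by
      intro q hq
      have : u ((i : ℕ) + 1) q = 0 := hsup q (Or.inr (by have := Fin.le_def.1 hq; omega))
      simp only [Pi.add_apply, Pi.smul_apply, smul_eq_mul, this, mul_zero, add_zero]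
    unfold net_E
    rw [e1 i le_rfl, e2 i' le_rfl]
    have e3 : (∀ q < i, (k + a • u ((i : ℕ) + 1)) q = X q) ↔ ∀ q < i, k q = X q :=
      forall_congr' fun q => forall_congr' fun hq => by rw [e1 q hq.le]
    have e4 : (∀ q, i' < q → (κ 0 q : ZMod b) * (k + a • u ((i : ℕ) + 1)) q = Y q) ↔
        ∀ q, i' < q → (κ 0 q : ZMod b) * k q = Y q :=
      forall_congr' fun q => forall_congr' fun hq => by rw [e2 q hq.le]
    rw [e3, e4]
  have hstep : ∀ a : ZMod b, net_S row (κ 0) σ Z X Y t G i i' =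
      ∑ k : Vec b n, if mtch row σ Z t k ∧ net_E (κ 0) X Y k i i' then
        G (dot (row t) k + σ t + a * dot (row t) (u ((i : ℕ) + 1))) else 0 := by
    intro a
    unfold net_S
    rw [← Equiv.sum_comp (Equiv.addRight (a • u ((i : ℕ) + 1)))]
    refine Finset.sum_congr rfl fun k _ => ?_
    simp only [Equiv.coe_addRight]
    have hk : mtch row σ Z t (k + a • u ((i : ℕ) + 1)) ↔ mtch row σ Z t k :=
      net_mtch_add fun s hs => by rw [linr_dot_smul_right, hker s hs, mul_zero]
    rw [hE, hk, linr_dot_add_right, linr_dot_smul_right]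
    congr 2
    ring
  have hsum : ∑ _a : ZMod b, net_S row (κ 0) σ Z X Y t G i i' = 0 := by
    rw [Finset.sum_congr rfl fun a _ => hstep a, Finset.sum_comm]
    refine Finset.sum_eq_zero fun k _ => ?_
    by_cases hk : mtch row σ Z t k ∧ net_E (κ 0) X Y k i i'
    · simp only [if_pos hk, hc]
      exact net_sum_shift hG _ _
    · simp only [if_neg hk, Finset.sum_const_zero]
  rw [Finset.sum_const, nsmul_eq_mul] at hsum
  rcases mul_eq_zero.1 hsum with h1 | h1
  · exfalso
    have : (univ : Finset (ZMod b)).card = 0 := by exact_mod_cast h1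
    rw [Finset.card_eq_zero] at this
    exact (Finset.univ_nonempty.ne_empty) this
  · exact h1

theorem net_val_cast [NeZero b] {x : ZMod b} {j : ℕ} (hj : j < x.val) :
    ((j : ZMod b)).val = j := ZMod.val_cast_of_lt (hj.trans (ZMod.val_lt x))

open Classical in
/-- case (2): `i' = i + t + 1` -/
theorem net_case2 [NeZero b] {κ : ℕ → ℕ → (ZMod b)ˣ} {row : ℕ → Vec b n} {t : ℕ}
    {u : ℕ → Vec b n} (h : Ker κ row t u) (hr : ∀ p, p + t < n → dot (row t) (u p) = At κ t p)
    {σ Z X Y : ℕ → ZMod b} {w : ℕ → Vec b n} (hw : WW κ row σ Z X Y t w) (G : ZMod b → ℝ)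
    {i i' : Fin n} (hi : (i' : ℕ) = i + t + 1) {V ω : ZMod b}
    (hV : dot (row t) (w i) + σ t = V) (hω : w i i = ω) :
    net_S row (κ 0) σ Z X Y t G i i' =
      F2 G V ω (X i) (Y (i + t + 1)) (At κ t i) (κ (t + 1) i) := by
  have hi' := i'.2
  have hp1 : (i : ℕ) + 1 + t < n := by omega
  have hp0 : (i : ℕ) + t < n := by omega
  have hs0 := h.sup (i : ℕ) hp0
  have hs1 := h.sup ((i : ℕ) + 1) hp1
  have hl := hw.l (i : ℕ) (by omega)
  have hrr := hw.r (i : ℕ) (by omega)
  have hm := hw.m (i : ℕ) (by omega)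
  have hu0 : u (i : ℕ) i = 1 := h.left (i : ℕ) hp0
  have hu1 : (κ 0 i' : ZMod b) * u ((i : ℕ) + 1) i' = κ t ((i : ℕ) + 1) := by
    have h1 := h.right ((i : ℕ) + 1) hp1
    have h2 : (⟨(i : ℕ) + 1 + t, hp1⟩ : Fin n) = i' := by apply Fin.ext; simp only; omega
    have h3 : (i : ℕ) + 1 + t = i' := by omega
    rw [h2, h3] at h1
    exact h1
  set g : ℕ × ℕ → Vec b n := fun p => w i + (((p.1 : ZMod b) - ω) • u i +
    (((p.2 : ZMod b) - Y i') * (((κ t ((i : ℕ) + 1))⁻¹ : (ZMod b)ˣ) : ZMod b)) •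
      u ((i : ℕ) + 1)) with hg
  have gker : ∀ (p : ℕ × ℕ), ∀ s < t, dot (row s) (((p.1 : ZMod b) - ω) • u i +
    (((p.2 : ZMod b) - Y i') * (((κ t ((i : ℕ) + 1))⁻¹ : (ZMod b)ˣ) : ZMod b)) •
      u ((i : ℕ) + 1)) = 0 := by
    intro p s hs
    rw [linr_dot_add_right, linr_dot_smul_right, linr_dot_smul_right, h.ker s hs _ hp0,
      h.ker s hs _ hp1, mul_zero, mul_zero, add_zero]
  have gm : ∀ p, mtch row σ Z t (g p) := fun p => linr_mtch_add hm (gker p)
  have glt : ∀ p, ∀ q : Fin n, (q : ℕ) < i → g p q = X q := by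
    intro p q hq
    have e0 : u (i : ℕ) q = 0 := hs0 q (Or.inl hq)
    have e1 : u ((i : ℕ) + 1) q = 0 := hs1 q (Or.inl (by omega))
    simp only [hg, Pi.add_apply, Pi.smul_apply, smul_eq_mul, e0, e1, mul_zero, add_zero]
    exact hl q hq
  have gi : ∀ p, g p i = (p.1 : ZMod b) := by
    intro p
    have e1 : u ((i : ℕ) + 1) i = 0 := hs1 i (Or.inl (by omega))
    simp only [hg, Pi.add_apply, Pi.smul_apply, smul_eq_mul, e1, hu0, mul_zero, add_zero, mul_one,
      hω]
    ring
  have ggt : ∀ p, ∀ q : Fin n, (i' : ℕ) < q → (κ 0 q : ZMod b) * g p q = Y q := by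
    intro p q hq
    have e0 : u (i : ℕ) q = 0 := hs0 q (Or.inr (by omega))
    have e1 : u ((i : ℕ) + 1) q = 0 := hs1 q (Or.inr (by omega))
    simp only [hg, Pi.add_apply, Pi.smul_apply, smul_eq_mul, e0, e1, mul_zero, add_zero]
    exact hrr q (by omega)
  have gi' : ∀ p, (κ 0 i' : ZMod b) * g p i' = (p.2 : ZMod b) := by
    intro p
    have e0 : u (i : ℕ) i' = 0 := hs0 i' (Or.inr (by omega))
    have e2 := hrr i' (by omega)
    simp only [hg, Pi.add_apply, Pi.smul_apply, smul_eq_mul, e0, mul_zero, zero_add]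
    have e3 : (κ 0 i' : ZMod b) * (w i i' + ((p.2 : ZMod b) - Y i') *
        (((κ t ((i : ℕ) + 1))⁻¹ : (ZMod b)ˣ) : ZMod b) * u ((i : ℕ) + 1) i') =
        (κ 0 i' : ZMod b) * w i i' + ((p.2 : ZMod b) - Y i') *
        ((((κ t ((i : ℕ) + 1))⁻¹ : (ZMod b)ˣ) : ZMod b) *
          ((κ 0 i' : ZMod b) * u ((i : ℕ) + 1) i')) := by ring
    rw [e3, hu1, e2, Units.inv_mul]
    ring
  have gdot : ∀ p, dot (row t) (g p) + σ t = V + (At κ t i : ZMod b) * ((p.1 : ZMod b) - ω) -
      (At κ t i : ZMod b) * (((κ (t + 1) i)⁻¹ : (ZMod b)ˣ) : ZMod b) *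
        ((p.2 : ZMod b) - Y ((i : ℕ) + t + 1)) := by
    intro p
    have e0 : At κ t ((i : ℕ) + 1) = -(At κ t i) * κ t ((i : ℕ) + 1) * (κ (t + 1) i)⁻¹ := rfl
    simp only [hg]
    rw [linr_dot_add_right, linr_dot_add_right, linr_dot_smul_right, linr_dot_smul_right,
      hr _ hp0, hr _ hp1, ← hi, ← hV, e0, Units.val_mul, Units.val_mul, Units.val_neg]
    have e1 : (((κ t ((i : ℕ) + 1))⁻¹ : (ZMod b)ˣ) : ZMod b) * (κ t ((i : ℕ) + 1) : ZMod b) = 1 :=
      Units.inv_mul _
    linear_combination (-(((p.2 : ZMod b) - Y i') * (At κ t i : ZMod b) *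
      (((κ (t + 1) i)⁻¹ : (ZMod b)ˣ) : ZMod b))) * e1
  -- a point is determined by its two digits
  have guniq : ∀ k : Vec b n, mtch row σ Z t k → net_E (κ 0) X Y k i i' →
      g ((k i).val, ((κ 0 i' : ZMod b) * k i').val) = k := by
    intro k hk hE
    refine linr_eq_of_agree h (gm _) hk (p := (i : ℕ) + 1) (fun q hq => ?_) (fun q hq => ?_)
    · rcases Nat.lt_or_ge (q : ℕ) i with h1 | h1
      · rw [glt _ q h1, hE.1.1 q (Fin.lt_def.2 h1)]
      · have hqi : q = i := Fin.ext (by omega)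
        subst hqi
        rw [gi]
        simp only [ZMod.natCast_val, ZMod.cast_id', id]
    · rcases Nat.lt_or_ge (i' : ℕ) q with h1 | h1
      · rw [ggt _ q h1, hE.2.1 q (Fin.lt_def.2 h1)]
      · have hqi : q = i' := Fin.ext (by omega)
        subst hqi
        rw [gi']
        simp only [ZMod.natCast_val, ZMod.cast_id', id]
  unfold net_S F2
  rw [← Finset.sum_filter, ← Finset.sum_product']
  refine Finset.sum_nbij' (fun k => ((k i).val, ((κ 0 i' : ZMod b) * k i').val)) g ?_ ?_ ?_ ?_ ?_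
  · intro k hk
    rw [Finset.mem_filter] at hk
    rw [Finset.mem_product, Finset.mem_range, Finset.mem_range, ← hi]
    exact ⟨hk.2.2.1.2, hk.2.2.2.2⟩
  · intro p hp
    rw [Finset.mem_product, Finset.mem_range, Finset.mem_range, ← hi] at hp
    rw [Finset.mem_filter]
    refine ⟨mem_univ _, gm p, ⟨fun q hq => glt p q (Fin.lt_def.1 hq), ?_⟩,
      fun q hq => ggt p q (Fin.lt_def.1 hq), ?_⟩
    · rw [gi, net_val_cast hp.1]
      exact hp.1
    · rw [gi', net_val_cast hp.2]
      exact hp.2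
  · intro k hk
    rw [Finset.mem_filter] at hk
    exact guniq k hk.2.1 hk.2.2
  · intro p hp
    rw [Finset.mem_product, Finset.mem_range, Finset.mem_range, ← hi] at hp
    simp only [gi, gi']
    rw [net_val_cast hp.1, net_val_cast hp.2]
  · intro k hk
    rw [Finset.mem_filter] at hk
    have h1 := gdot ((k i).val, ((κ 0 i' : ZMod b) * k i').val)
    rw [guniq k hk.2.1 hk.2.2] at h1
    rw [h1]

open Classical in
/-- case (3): `i' = i + t` -/
theorem net_case3 [NeZero b] {κ : ℕ → ℕ → (ZMod b)ˣ} {row : ℕ → Vec b n} {t : ℕ}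
    {u : ℕ → Vec b n} (h : Ker κ row t u) (hr : ∀ p, p + t < n → dot (row t) (u p) = At κ t p)
    {σ Z X Y : ℕ → ZMod b} {w : ℕ → Vec b n} (hw : WW κ row σ Z X Y t w) (G : ZMod b → ℝ)
    {i i' : Fin n} (hi : (i' : ℕ) = i + t) {V ω : ZMod b}
    (hV : dot (row t) (w i) + σ t = V) (hω : w i i = ω) :
    net_S row (κ 0) σ Z X Y t G i i' =
      F3 G V ω (X i) (Y (i + t)) (At κ t i) (κ t i) := by
  have hi' := i'.2
  have hp0 : (i : ℕ) + t < n := by omega
  have hs0 := h.sup (i : ℕ) hp0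
  have hl := hw.l (i : ℕ) (by omega)
  have hrr := hw.r (i : ℕ) (by omega)
  have hm := hw.m (i : ℕ) (by omega)
  have hu0 : u (i : ℕ) i = 1 := h.left (i : ℕ) hp0
  have hu1 : (κ 0 i' : ZMod b) * u (i : ℕ) i' = κ t i := by
    have h1 := h.right (i : ℕ) hp0
    have h2 : (⟨(i : ℕ) + t, hp0⟩ : Fin n) = i' := by apply Fin.ext; simp only; omega
    rw [h2, ← hi] at h1
    exact h1
  set g : ℕ → Vec b n := fun j => w i + ((j : ZMod b) - ω) • u i with hg
  have gm : ∀ j, mtch row σ Z t (g j) := fun j => linr_mtch_add hm fun s hs => by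
    rw [linr_dot_smul_right, h.ker s hs _ hp0, mul_zero]
  have glt : ∀ j, ∀ q : Fin n, (q : ℕ) < i → g j q = X q := by
    intro j q hq
    have e0 : u (i : ℕ) q = 0 := hs0 q (Or.inl hq)
    simp only [hg, Pi.add_apply, Pi.smul_apply, smul_eq_mul, e0, mul_zero, add_zero]
    exact hl q hq
  have gi : ∀ j, g j i = (j : ZMod b) := by
    intro j
    simp only [hg, Pi.add_apply, Pi.smul_apply, smul_eq_mul, hu0, mul_one, hω]
    ring
  have ggt : ∀ j, ∀ q : Fin n, (i' : ℕ) < q → (κ 0 q : ZMod b) * g j q = Y q := by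
    intro j q hq
    have e0 : u (i : ℕ) q = 0 := hs0 q (Or.inr (by omega))
    simp only [hg, Pi.add_apply, Pi.smul_apply, smul_eq_mul, e0, mul_zero, add_zero]
    exact hrr q (by omega)
  have gi' : ∀ j : ℕ, (κ 0 i' : ZMod b) * g j i' = Y i' + (κ t i : ZMod b) * ((j : ZMod b) - ω) := by
    intro j
    have e2 := hrr i' (by omega)
    simp only [hg, Pi.add_apply, Pi.smul_apply, smul_eq_mul]
    linear_combination e2 + ((j : ZMod b) - ω) * hu1
  have gdot : ∀ j : ℕ, dot (row t) (g j) + σ t = V + (At κ t i : ZMod b) * ((j : ZMod b) - ω) := by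
    intro j
    simp only [hg]
    rw [linr_dot_add_right, linr_dot_smul_right, hr _ hp0, ← hV]
    ring
  have guniq : ∀ k : Vec b n, mtch row σ Z t k → net_E (κ 0) X Y k i i' → g (k i).val = k := by
    intro k hk hE
    refine linr_eq_of_agree h (gm _) hk (p := (i : ℕ) + 1) (fun q hq => ?_) (fun q hq => ?_)
    · rcases Nat.lt_or_ge (q : ℕ) i with h1 | h1
      · rw [glt _ q h1, hE.1.1 q (Fin.lt_def.2 h1)]
      · have hqi : q = i := Fin.ext (by omega)
        subst hqi
        rw [gi]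
        simp only [ZMod.natCast_val, ZMod.cast_id', id]
    · rw [ggt _ q (by omega), hE.2.1 q (Fin.lt_def.2 (by omega))]
  unfold net_S F3
  rw [← Finset.sum_filter, ← Finset.sum_filter]
  refine Finset.sum_nbij' (fun k => (k i).val) g ?_ ?_ ?_ ?_ ?_
  · intro k hk
    rw [Finset.mem_filter] at hk
    rw [Finset.mem_filter, Finset.mem_range]
    refine ⟨hk.2.2.1.2, ?_⟩
    rw [← hi, ← gi', guniq k hk.2.1 hk.2.2]
    exact hk.2.2.2.2
  · intro j hj
    rw [Finset.mem_filter, Finset.mem_range, ← hi] at hj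
    rw [Finset.mem_filter]
    refine ⟨mem_univ _, gm j, ⟨fun q hq => glt j q (Fin.lt_def.1 hq), ?_⟩,
      fun q hq => ggt j q (Fin.lt_def.1 hq), ?_⟩
    · rw [gi, net_val_cast hj.1]
      exact hj.1
    · rw [gi']
      exact hj.2
  · intro k hk
    rw [Finset.mem_filter] at hk
    exact guniq k hk.2.1 hk.2.2
  · intro j hj
    rw [Finset.mem_filter, Finset.mem_range] at hj
    simp only [gi]
    exact net_val_cast hj.1
  · intro k hk
    rw [Finset.mem_filter] at hk
    have h1 := gdot (k i).val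
    rw [guniq k hk.2.1 hk.2.2] at h1
    rw [h1]

theorem net_case4 {κ : ℕ → ℕ → (ZMod b)ˣ} {row : ℕ → Vec b n} {t : ℕ}
    {u : ℕ → Vec b n} (h : Ker κ row t u) (ht : t < n)
    {σ Z X Y : ℕ → ZMod b} {w : ℕ → Vec b n} (hw : WW κ row σ Z X Y t w)
    {k : Vec b n} (hk : mtch row σ Z t k) {i i' : Fin n}
    (hE : net_E (κ 0) X Y k i i') (hi : (i' : ℕ) < i + t) : k = w (min (i : ℕ) (n - t)) := by
  have hp : min (i : ℕ) (n - t) + t ≤ n := by
    have := min_le_right (i : ℕ) (n - t)
    omega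
  refine linr_eq_of_agree h hk (hw.m _ hp) (p := min (i : ℕ) (n - t)) (fun q hq => ?_)
    (fun q hq => ?_)
  · rw [hw.l _ hp q hq]
    exact hE.1.1 q (Fin.lt_def.2 (lt_of_lt_of_le hq (min_le_left _ _)))
  · rw [hw.r _ hp q hq]
    refine hE.2.1 q (Fin.lt_def.2 ?_)
    have := q.2
    rcases min_choice (i : ℕ) (n - t) with h1 | h1
    · rw [h1] at hq
      omega
    · rw [h1] at hq
      omega

theorem net_rest [NeZero b] {κ : ℕ → ℕ → (ZMod b)ˣ} {row : ℕ → Vec b n} {t : ℕ}
    {u : ℕ → Vec b n} (h : Ker κ row t u) (ht : t < n)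
    {σ Z X Y : ℕ → ZMod b} {w : ℕ → Vec b n} (hw : WW κ row σ Z X Y t w) {G : ZMod b → ℝ}
    (hG1 : ∀ x, |G x| ≤ 1) :
    |∑ i : Fin n, ∑ i' : Fin n, if (i' : ℕ) < i + t then
      net_S row (κ 0) σ Z X Y t G i i' else 0| ≤ (n : ℝ) - t + 1 := by
  classical
  have h1 : (∑ i : Fin n, ∑ i' : Fin n, if (i' : ℕ) < i + t then
      net_S row (κ 0) σ Z X Y t G i i' else 0) =
      ∑ k : Vec b n, ∑ i : Fin n, ∑ i' : Fin n,
        if (i' : ℕ) < i + t ∧ mtch row σ Z t k ∧ net_E (κ 0) X Y k i i' then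
          G (dot (row t) k + σ t) else 0 := by
    rw [Finset.sum_comm]
    simp_rw [Finset.sum_comm (s := (univ : Finset (Vec b n)))]
    rw [Finset.sum_comm]
    refine Finset.sum_congr rfl fun i _ => ?_
    refine Finset.sum_congr rfl fun i' _ => ?_
    by_cases hc : (i' : ℕ) < i + t
    · rw [if_pos hc]
      unfold net_S
      refine Finset.sum_congr rfl fun k _ => ?_
      by_cases hk : mtch row σ Z t k ∧ net_E (κ 0) X Y k i i'
      · rw [if_pos hk, if_pos ⟨hc, hk⟩]
      · rw [if_neg hk, if_neg fun hh => hk hh.2]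
    · rw [if_neg hc]
      exact (Finset.sum_eq_zero fun k _ => if_neg fun hh => hc hh.1).symm
  have h2 : ∀ k : Vec b n, |∑ i : Fin n, ∑ i' : Fin n,
        if (i' : ℕ) < i + t ∧ mtch row σ Z t k ∧ net_E (κ 0) X Y k i i' then
          G (dot (row t) k + σ t) else 0| ≤
      if k ∈ (range (n - t + 1)).image w then 1 else 0 := by
    intro k
    by_cases hex : ∃ i i' : Fin n, (i' : ℕ) < i + t ∧ mtch row σ Z t k ∧ net_E (κ 0) X Y k i i'
    · obtain ⟨i, i', hc, hk, hE⟩ := hex
      have hmem : k ∈ (range (n - t + 1)).image w := by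
        rw [Finset.mem_image]
        refine ⟨min (i : ℕ) (n - t), ?_, (net_case4 h ht hw hk hE hc).symm⟩
        rw [Finset.mem_range]
        have := min_le_right (i : ℕ) (n - t)
        omega
      rw [if_pos hmem, Finset.sum_eq_single i, Finset.sum_eq_single i', if_pos ⟨hc, hk, hE⟩]
      · exact hG1 _
      · intro j _ hj
        exact if_neg fun hh => hj (net_lst_uniq hh.2.2.2 hE.2)
      · intro hc
        exact absurd (mem_univ _) hc
      · intro j _ hj
        exact Finset.sum_eq_zero fun j' _ => if_neg fun hh => hj (net_fst_uniq hh.2.2.1 hE.1)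
      · intro hc
        exact absurd (mem_univ _) hc
    · have h0 : (∑ i : Fin n, ∑ i' : Fin n,
          if (i' : ℕ) < i + t ∧ mtch row σ Z t k ∧ net_E (κ 0) X Y k i i' then
            G (dot (row t) k + σ t) else 0) = 0 :=
        Finset.sum_eq_zero fun i _ => Finset.sum_eq_zero fun i' _ => if_neg fun hh =>
          hex ⟨i, i', hh⟩
      rw [h0, abs_zero]
      split_ifs <;> norm_num
  rw [h1]
  refine (Finset.abs_sum_le_sum_abs _ _).trans ((Finset.sum_le_sum fun k _ => h2 k).trans ?_)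
  rw [← Finset.sum_filter, Finset.sum_const, nsmul_eq_mul, mul_one]
  have h3 : (univ.filter fun k : Vec b n => k ∈ (range (n - t + 1)).image w).card ≤ n - t + 1 := by
    have h4 : (univ.filter fun k : Vec b n => k ∈ (range (n - t + 1)).image w)
        = (range (n - t + 1)).image w := by
      ext k
      simp
    rw [h4]
    exact Finset.card_image_le.trans (by rw [Finset.card_range])
  have h5 : ((n - t + 1 : ℕ) : ℝ) = (n : ℝ) - t + 1 := by
    rw [Nat.cast_add, Nat.cast_sub ht.le]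
    norm_num
  rw [← h5]
  exact_mod_cast h3

theorem net_sum_range (m c : ℕ) (f : ℕ → ℝ) (hm : m + c = n ∨ (m = 0 ∧ n ≤ c)) :
    (∑ i : Fin n, if (i : ℕ) + c < n then f i else 0) = ∑ i ∈ range m, f i := by
  rw [Fin.sum_univ_eq_sum_range (fun i => if i + c < n then f i else 0) n, ← Finset.sum_filter]
  refine Finset.sum_congr ?_ fun i _ => rfl
  ext i
  simp only [mem_filter, mem_range]
  omega

/-- rows from the table, and the decomposition of each `T_t` into cells -/
theorem net {b n : ℕ} [NeZero b] (hb : 1 < b) (κ : ℕ → ℕ → (ZMod b)ˣ) :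
    ∃ row : ℕ → Vec b n, ∀ X Y Z : ℕ → ZMod b, ∃ W : ℕ → (ℕ → ZMod b) → ZMod b,
      (∀ t σ σ', (∀ s < t, σ s = σ' s) → W t σ = W t σ') ∧
      ∀ σ : ℕ → ZMod b, ∀ t < n, ∀ G : ZMod b → ℝ, ∑ x, G x = 0 → (∀ x, |G x| ≤ 1) →
        |TT row (κ 0) σ Z X Y t G -
          (∑ i ∈ range (n - 1 - t), F2 G (VV κ X Y Z (fun s => σ s + W s σ) t i)
              (om κ X Y Z (fun s => σ s + W s σ) t i) (X i) (Y (i + t + 1)) (At κ t i)
              (κ (t + 1) i) +
            ∑ i ∈ range (n - t), F3 G (VV κ X Y Z (fun s => σ s + W s σ) t i)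
              (om κ X Y Z (fun s => σ s + W s σ) t i) (X i) (Y (i + t)) (At κ t i)
              (κ t i))| ≤ (n : ℝ) - t + 1 := by
  classical
  obtain ⟨row, u, h1, h2⟩ := linr_rows (n := n) κ
  refine ⟨row, fun X Y Z => ?_⟩
  obtain ⟨w, hdep, hw⟩ := linr_tab κ h1 h2 X Y Z
  refine ⟨fun s σ => dot (row s) (w σ s 0), fun t σ σ' hσ => ?_, ?_⟩
  · simp only [hdep t σ σ' hσ]
  · intro σ t ht G hG hG1
    obtain ⟨hWW, hV, hom, -⟩ := hw σ
    set V0 : ℕ → ZMod b := fun s => σ s + dot (row s) (w σ s 0) with hV0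
    set f2 : ℕ → ℝ := fun i => F2 G (VV κ X Y Z V0 t i) (om κ X Y Z V0 t i) (X i)
      (Y (i + t + 1)) (At κ t i) (κ (t + 1) i) with hf2
    set f3 : ℕ → ℝ := fun i => F3 G (VV κ X Y Z V0 t i) (om κ X Y Z V0 t i) (X i)
      (Y (i + t)) (At κ t i) (κ t i) with hf3
    have hS : ∀ i i' : Fin n, net_S row (κ 0) σ Z X Y t G i i' =
        (if (i' : ℕ) = i + t + 1 then f2 i else 0) +
        (if (i' : ℕ) = i + t then f3 i else 0) +
        (if (i' : ℕ) < i + t then net_S row (κ 0) σ Z X Y t G i i' else 0) := by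
      intro i i'
      have hi' := i'.2
      rcases Nat.lt_or_ge ((i : ℕ) + t + 1) i' with h3 | h3
      · rw [net_far (h1 t ht.le) (h2 t ht) σ Z X Y hG h3, if_neg (by omega), if_neg (by omega),
          if_neg (by omega)]
        norm_num
      · rcases Nat.lt_or_ge (i' : ℕ) (i + t) with h4 | h4
        · rw [if_neg (by omega), if_neg (by omega), if_pos h4]
          ring
        · rcases Nat.lt_or_ge ((i : ℕ) + t) i' with h5 | h5
          · have h6 : (i' : ℕ) = i + t + 1 := by omega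
            rw [if_pos h6, if_neg (by omega), if_neg (by omega), add_zero, add_zero]
            exact net_case2 (h1 t ht.le) (h2 t ht) (hWW t ht.le) G h6
              (hV t ht i (by omega)) (hom t ht.le i i.2 (by omega))
          · have h6 : (i' : ℕ) = i + t := by omega
            rw [if_neg (by omega), if_pos h6, if_neg (by omega), add_zero, zero_add]
            exact net_case3 (h1 t ht.le) (h2 t ht) (hWW t ht.le) G h6
              (hV t ht i (by omega)) (hom t ht.le i i.2 (by omega))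
    have e0 : (∑ i : Fin n, ∑ i' : Fin n, net_S row (κ 0) σ Z X Y t G i i') =
        (∑ i : Fin n, ∑ i' : Fin n, if (i' : ℕ) = i + t + 1 then f2 i else 0) +
        (∑ i : Fin n, ∑ i' : Fin n, if (i' : ℕ) = i + t then f3 i else 0) +
        ∑ i : Fin n, ∑ i' : Fin n,
          if (i' : ℕ) < i + t then net_S row (κ 0) σ Z X Y t G i i' else 0 := by
      rw [← Finset.sum_add_distrib, ← Finset.sum_add_distrib]
      refine Finset.sum_congr rfl fun i _ => ?_
      rw [← Finset.sum_add_distrib, ← Finset.sum_add_distrib]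
      exact Finset.sum_congr rfl fun i' _ => hS i i'
    have e1 : (∑ i : Fin n, ∑ i' : Fin n, if (i' : ℕ) = i + t + 1 then f2 i else 0)
        = ∑ i ∈ range (n - 1 - t), f2 i := by
      rw [← net_sum_range (n := n) (n - 1 - t) (t + 1) f2 (by omega)]
      refine Finset.sum_congr rfl fun i _ => ?_
      by_cases hi : (i : ℕ) + (t + 1) < n
      · rw [if_pos hi, Finset.sum_eq_single ⟨(i : ℕ) + t + 1, by omega⟩]
        · rw [if_pos rfl]
        · intro j _ hj
          exact if_neg fun hh => hj (Fin.ext hh)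
        · intro hh
          exact absurd (mem_univ _) hh
      · rw [if_neg hi]
        refine Finset.sum_eq_zero fun j _ => if_neg fun hh => hi ?_
        have := j.2
        omega
    have e2 : (∑ i : Fin n, ∑ i' : Fin n, if (i' : ℕ) = i + t then f3 i else 0)
        = ∑ i ∈ range (n - t), f3 i := by
      rw [← net_sum_range (n := n) (n - t) t f3 (by omega)]
      refine Finset.sum_congr rfl fun i _ => ?_
      by_cases hi : (i : ℕ) + t < n
      · rw [if_pos hi, Finset.sum_eq_single ⟨(i : ℕ) + t, hi⟩]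
        · rw [if_pos rfl]
        · intro j _ hj
          exact if_neg fun hh => hj (Fin.ext hh)
        · intro hh
          exact absurd (mem_univ _) hh
      · rw [if_neg hi]
        refine Finset.sum_eq_zero fun j _ => if_neg fun hh => hi ?_
        have := j.2
        omega
    rw [net_TT_eq, e0, e1, e2, add_sub_cancel_left]
    exact net_rest (h1 t ht.le) ht (hWW t ht.le) hG1

end DiscPS
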