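import Pool.Agent.Work.DiscPS.DefsB

set_option autoImplicit false

/-!
# Power saving for the three-dimensional box discrepancy: the scalar average (helper31)

The average of a sum of level functions over the units `g` of `Z/b` splits over the primes `l j`.
-/

namespace DiscPS

open Finset

theorem scal_two (m n : ℕ) [NeZero m] [NeZero n] [NeZero (m * n)] (h : m.Coprime n)
    (f g : ℕ → ℝ) :
    ∑ u : (ZMod (m * n))ˣ, f ((u : ZMod (m * n)).val % m) * g ((u : ZMod (m * n)).val % n) =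
      (∑ u : (ZMod m)ˣ, f (u : ZMod m).val) * ∑ u : (ZMod n)ˣ, g (u : ZMod n).val := by
  rw [Finset.sum_mul_sum, ← Fintype.sum_prod_type']
  refine Fintype.sum_equiv ((Units.mapEquiv (ZMod.chineseRemainder h).toMulEquiv).trans
    MulEquiv.prodUnits).toEquiv _ _ fun u => ?_
  have h1 : (((((Units.mapEquiv (ZMod.chineseRemainder h).toMulEquiv).trans
      MulEquiv.prodUnits).toEquiv u).1 : (ZMod m)ˣ) : ZMod m) =
      ((u : ZMod (m * n)).val : ZMod m) := by
    rw [ZMod.natCast_val]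
    change (ZMod.chineseRemainder h (u : ZMod (m * n))).1 = _
    change (ZMod.cast (u : ZMod (m * n)) : ZMod m × ZMod n).1 = _
    exact Prod.fst_zmod_cast _
  have h2 : (((((Units.mapEquiv (ZMod.chineseRemainder h).toMulEquiv).trans
      MulEquiv.prodUnits).toEquiv u).2 : (ZMod n)ˣ) : ZMod n) =
      ((u : ZMod (m * n)).val : ZMod n) := by
    rw [ZMod.natCast_val]
    change (ZMod.chineseRemainder h (u : ZMod (m * n))).2 = _
    change (ZMod.cast (u : ZMod (m * n)) : ZMod m × ZMod n).2 = _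
    exact Prod.snd_zmod_cast _
  rw [h1, h2, ZMod.val_natCast, ZMod.val_natCast]

theorem scal_units (p : ℕ) [NeZero p] (hp : p.Prime) (f : ℕ → ℝ) :
    ∑ u : (ZMod p)ˣ, f (u : ZMod p).val = ∑ u ∈ Ico 1 p, f u := by
  have : Fact p.Prime := ⟨hp⟩
  refine Finset.sum_bij' (fun u _ => (u : ZMod p).val)
    (fun u hu => if h : ((u : ℕ) : ZMod p) = 0 then 1 else Units.mk0 _ h) ?_ ?_ ?_ ?_ ?_
  · intro u _
    rw [Finset.mem_Ico]
    refine ⟨Nat.one_le_iff_ne_zero.mpr fun h => ?_, ZMod.val_lt _⟩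
    rw [ZMod.val_eq_zero] at h
    exact u.ne_zero h
  · intro u _
    exact Finset.mem_univ _
  · intro u _
    ext
    simp
  · intro u hu
    rw [Finset.mem_Ico] at hu
    have h0 : ((u : ℕ) : ZMod p) ≠ 0 := by
      rw [Ne, ZMod.natCast_eq_zero_iff]
      exact Nat.not_dvd_of_pos_of_lt hu.1 hu.2
    simp [h0, ZMod.val_natCast, Nat.mod_eq_of_lt hu.2]
  · intro u _
    rfl

theorem scal_pos {l : ℕ → ℕ} {r : ℕ} (hp : ∀ i < r, (l i).Prime) : Mk l r ≠ 0 :=
  Finset.prod_ne_zero_iff.mpr fun i hi => (hp i (Finset.mem_range.mp hi)).ne_zero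

theorem scal_coprime {l : ℕ → ℕ} {r : ℕ} (hp : ∀ i < r + 1, (l i).Prime)
    (hinj : ∀ i < r + 1, ∀ j < r + 1, l i = l j → i = j) : (Mk l r).Coprime (l r) := by
  refine Nat.Coprime.prod_left fun i hi => ?_
  rw [Finset.mem_range] at hi
  rw [Nat.coprime_primes (hp i (by omega)) (hp r (by omega))]
  intro h
  have := hinj i (by omega) r (by omega) h
  omega

theorem scal_pf (l : ℕ → ℕ) (f : ℕ → ℕ → ℝ) (r : ℕ) : (∀ i < r, (l i).Prime) →
    (∀ i < r, ∀ j < r, l i = l j → i = j) → ∀ [NeZero (Mk l r)],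
    ∑ u : (ZMod (Mk l r))ˣ, ∏ j ∈ range r, f j ((u : ZMod (Mk l r)).val % l j) =
      ∏ j ∈ range r, ∑ u ∈ Ico 1 (l j), f j u := by
  induction r with
  | zero =>
    intro _ _ _
    simp only [Finset.range_zero, Finset.prod_empty, Finset.sum_const, nsmul_eq_mul, mul_one]
    have : Fintype.card (ZMod (Mk l 0))ˣ = 1 := by
      rw [ZMod.card_units_eq_totient]
      simp [Mk]
    rw [Finset.card_univ, this]
    simp
  | succ r ih =>
    intro hp hinj hne
    have hM : Mk l (r + 1) = Mk l r * l r := Finset.prod_range_succ _ _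
    have h1 : NeZero (Mk l r) := ⟨scal_pos fun i hi => hp i (by omega)⟩
    have h2 : NeZero (l r) := ⟨(hp r (by omega)).ne_zero⟩
    have h3 : NeZero (Mk l r * l r) := ⟨mul_ne_zero h1.out h2.out⟩
    have hcop := scal_coprime hp hinj
    have key := scal_two (Mk l r) (l r) hcop (fun u => ∏ j ∈ range r, f j (u % l j)) (f r)
    rw [Finset.prod_range_succ, ← ih (fun i hi => hp i (by omega))
      (fun i hi j hj => hinj i (by omega) j (by omega)), ← scal_units (l r) (hp r (by omega)), ← key]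
    have gen : ∀ (M : ℕ) [NeZero M], M = Mk l r * l r →
        ∑ u : (ZMod M)ˣ, ∏ j ∈ range (r + 1), f j ((u : ZMod M).val % l j) =
        ∑ u : (ZMod (Mk l r * l r))ˣ,
          (∏ j ∈ range r, f j ((u : ZMod (Mk l r * l r)).val % Mk l r % l j)) *
            f r ((u : ZMod (Mk l r * l r)).val % l r) := by
      intro M hMM hMe
      subst hMe
      refine Finset.sum_congr rfl fun u _ => ?_
      rw [Finset.prod_range_succ]
      congr 1
      refine Finset.prod_congr rfl fun j hj => ?_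
      rw [Nat.mod_mod_of_dvd]
      exact Finset.dvd_prod_of_mem _ hj
    exact gen _ hM

theorem scal_lin (p : ℕ) (hp : p.Prime) (a x : ℕ) (h : ℕ → ℝ) :
    ∑ u ∈ range p, h ((a + u * x) % p) =
      if p ∣ x then (p : ℝ) * h (a % p) else ∑ w ∈ range p, h w := by
  split_ifs with hx
  · rw [Finset.sum_congr rfl fun u _ => ?_, Finset.sum_const, Finset.card_range, nsmul_eq_mul]
    obtain ⟨y, rfl⟩ := hx
    congr 1
    rw [show u * (p * y) = p * (u * y) by ring, Nat.add_mul_mod_self_left]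
  · have himg : (range p).image (fun u => (a + u * x) % p) = range p := by
      refine Finset.eq_of_subset_of_card_le ?_ ?_
      · intro w hw
        obtain ⟨u, _, rfl⟩ := Finset.mem_image.mp hw
        exact Finset.mem_range.mpr (Nat.mod_lt _ hp.pos)
      · rw [Finset.card_image_of_injOn]
        intro u hu v hv huv
        have hu' := Finset.mem_range.mp hu
        have hv' := Finset.mem_range.mp hv
        have h1 : a + u * x ≡ a + v * x [MOD p] := huv
        have h2 := Nat.ModEq.add_left_cancel' a h1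
        have h3 := Nat.ModEq.cancel_right_of_coprime ((Nat.Prime.coprime_iff_not_dvd hp).mpr hx) h2
        rwa [Nat.ModEq, Nat.mod_eq_of_lt hu', Nat.mod_eq_of_lt hv'] at h3
    conv_rhs => rw [← himg]
    rw [Finset.sum_image]
    intro u hu v hv huv
    have hu' := Finset.mem_range.mp hu
    have hv' := Finset.mem_range.mp hv
    have h1 : a + u * x ≡ a + v * x [MOD p] := huv
    have h2 := Nat.ModEq.add_left_cancel' a h1
    have h3 := Nat.ModEq.cancel_right_of_coprime ((Nat.Prime.coprime_iff_not_dvd hp).mpr hx) h2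
    rwa [Nat.ModEq, Nat.mod_eq_of_lt hu', Nat.mod_eq_of_lt hv'] at h3


theorem scal_dvd_iff {l : ℕ → ℕ} {r k : ℕ} (hk : k ≤ r) (hp : ∀ i < r, (l i).Prime)
    (hinj : ∀ i < r, ∀ j < r, l i = l j → i = j) (A B : ℕ) :
    (Mk l k : ℤ) ∣ (A : ℤ) - B ↔ ∀ j ∈ range k, A % l j = B % l j := by
  constructor
  · intro h j hj
    have h1 : (l j : ℤ) ∣ (A : ℤ) - B := by
      refine Dvd.dvd.trans ?_ h
      exact_mod_cast Finset.dvd_prod_of_mem _ hj
    exact (Nat.modEq_iff_dvd.mpr h1).symm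
  · intro h
    have hc : ((Mk l k : ℕ) : ℤ) = ∏ j ∈ range k, (l j : ℤ) := by
      rw [Mk]
      push_cast
      rfl
    rw [hc]
    refine Finset.prod_dvd_of_coprime ?_ fun j hj => ?_
    · intro i hi j hj hij
      have hi' := Finset.mem_range.mp (Finset.mem_coe.mp hi)
      have hj' := Finset.mem_range.mp (Finset.mem_coe.mp hj)
      change IsCoprime (l i : ℤ) (l j : ℤ)
      rw [Nat.isCoprime_iff_coprime, Nat.coprime_primes (hp i (by omega)) (hp j (by omega))]
      exact fun h => hij (hinj i (by omega) j (by omega) h)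
    · exact Nat.modEq_iff_dvd.mp (h j hj).symm

/-- constant weight of the prime `l j` -/
noncomputable def scA (l : ℕ → ℕ) (V z : ℕ) (j : ℕ) : ℝ :=
  if V % l j = z % l j then 0 else 1 / ((l j : ℝ) - 1)

/-- divisibility weight of the prime `l j` -/
noncomputable def scB (l : ℕ → ℕ) (V z : ℕ) (j : ℕ) : ℝ :=
  if V % l j = z % l j then 1 else -(1 / ((l j : ℝ) - 1))

/-- divisibility by `l j` -/
noncomputable def scD (l : ℕ → ℕ) (x : ℕ) (j : ℕ) : ℝ := if l j ∣ x then 1 else 0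

theorem scal_ico (p : ℕ) (hp : 0 < p) (F : ℕ → ℝ) :
    ∑ u ∈ Ico 1 p, F u = ∑ u ∈ range p, F u - F 0 := by
  rw [Finset.range_eq_Ico, Finset.sum_eq_sum_Ico_succ_bot hp]
  ring

theorem scal_E1 (l : ℕ → ℕ) (j : ℕ) (hp : (l j).Prime) (V x z : ℕ) :
    ∑ u ∈ Ico 1 (l j), (if (V + u * x) % l j = z % l j then (1 : ℝ) else 0) =
      ((l j : ℝ) - 1) * (scB l V z j * scD l x j + scA l V z j) := by
  have h2 : (2 : ℝ) ≤ l j := by exact_mod_cast hp.two_le
  have h3 : ((l j : ℝ) - 1) ≠ 0 := by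
    intro h
    linarith
  rw [scal_ico _ hp.pos, scal_lin (l j) hp V x (fun w => if w = z % l j then (1 : ℝ) else 0)]
  have h4 : ∑ w ∈ range (l j), (if w = z % l j then (1 : ℝ) else 0) = 1 := by
    rw [Finset.sum_ite_eq']
    rw [if_pos (Finset.mem_range.mpr (Nat.mod_lt _ hp.pos))]
  rw [h4]
  simp only [zero_mul, add_zero, scA, scB, scD]
  split_ifs <;> field_simp <;> ring

theorem scal_E2 (l : ℕ → ℕ) (j : ℕ) (hp : (l j).Prime) (V x : ℕ) (γ : ℕ → ℝ)
    (hγ : ∑ u ∈ range (l j), γ u = 0) :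
    ∑ u ∈ Ico 1 (l j), γ ((V + u * x) % l j) =
      γ (V % l j) * ((l j : ℝ) * scD l x j - 1) := by
  rw [scal_ico _ hp.pos, scal_lin (l j) hp V x γ, hγ]
  simp only [zero_mul, add_zero, scD]
  split_ifs <;> ring

theorem scal_card (l : ℕ → ℕ) (r : ℕ) (hp : ∀ i < r, (l i).Prime)
    (hinj : ∀ i < r, ∀ j < r, l i = l j → i = j) [NeZero (Mk l r)] :
    (Fintype.card (ZMod (Mk l r))ˣ : ℝ) = ∏ j ∈ range r, ((l j : ℝ) - 1) := by
  have h := scal_pf l (fun _ _ => 1) r hp hinj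
  simp only [Finset.prod_const_one, Finset.sum_const, Finset.card_univ, nsmul_eq_mul, mul_one,
    Nat.card_Ico] at h
  rw [h]
  refine Finset.prod_congr rfl fun j hj => ?_
  rw [Nat.cast_sub (hp j (Finset.mem_range.mp hj)).one_le, Nat.cast_one]

theorem scal_split (r k : ℕ) (hk : k < r) (f : ℕ → ℝ) :
    ∏ j ∈ range r, f j = (∏ j ∈ range k, f j) * f k * ∏ j ∈ Ico (k + 1) r, f j := by
  rw [← Finset.prod_range_succ, Finset.prod_range_mul_prod_Ico _ (by omega)]

theorem scal_T (l : ℕ → ℕ) (r : ℕ) (hp : ∀ i < r, (l i).Prime)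
    (hinj : ∀ i < r, ∀ j < r, l i = l j → i = j) [NeZero (Mk l r)] (V z x : ZMod (Mk l r))
    (k : ℕ) (hk : k < r) (γ : ℕ → ℝ) (hγ : ∑ u ∈ range (l k), γ u = 0) :
    ∑ g : (ZMod (Mk l r))ˣ, (if (Mk l k : ℤ) ∣ ((V + g * x).val : ℤ) - z.val then
        γ ((V + g * x).val % l k) else 0) =
      (Fintype.card (ZMod (Mk l r))ˣ : ℝ) *
        ((∏ j ∈ range k, (scB l V.val z.val j * scD l x.val j + scA l V.val z.val j)) *
          (γ (V.val % l k) * (((l k : ℝ) * scD l x.val k - 1) / ((l k : ℝ) - 1)))) := by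
  have hval : ∀ (g : (ZMod (Mk l r))ˣ) (j : ℕ), j < r → (V + g * x).val % l j =
      (V.val + ((g : ZMod (Mk l r)).val % l j) * x.val) % l j := by
    intro g j hj
    have hd : l j ∣ Mk l r := Finset.dvd_prod_of_mem _ (Finset.mem_range.mpr hj)
    rw [ZMod.val_add, ZMod.val_mul, Nat.mod_mod_of_dvd _ hd]
    have h1 : (g : ZMod (Mk l r)).val * x.val % Mk l r ≡
        (g : ZMod (Mk l r)).val % l j * x.val [MOD l j] := by
      refine Nat.ModEq.trans (Nat.ModEq.of_dvd hd (Nat.mod_modEq _ _)) ?_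
      exact Nat.ModEq.mul_right _ (Nat.mod_modEq _ _).symm
    exact Nat.ModEq.add_left V.val h1
  set f : ℕ → ℕ → ℝ := fun j u =>
    if j < k then (if (V.val + u * x.val) % l j = z.val % l j then 1 else 0)
    else if j = k then γ ((V.val + u * x.val) % l k) else 1 with hf
  have hL : ∀ g : (ZMod (Mk l r))ˣ, (if (Mk l k : ℤ) ∣ ((V + g * x).val : ℤ) - z.val then
        γ ((V + g * x).val % l k) else 0) =
      ∏ j ∈ range r, f j ((g : ZMod (Mk l r)).val % l j) := by
    intro g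
    rw [scal_split r k hk]
    have e1 : ∏ j ∈ Ico (k + 1) r, f j ((g : ZMod (Mk l r)).val % l j) = 1 := by
      refine Finset.prod_eq_one fun j hj => ?_
      rw [Finset.mem_Ico] at hj
      rw [hf]
      simp only
      rw [if_neg (by omega), if_neg (by omega)]
    have e2 : f k ((g : ZMod (Mk l r)).val % l k) = γ ((V + g * x).val % l k) := by
      rw [hf]
      simp only
      rw [if_neg (lt_irrefl k), if_true, hval g k hk]
    have e3 : ∏ j ∈ range k, f j ((g : ZMod (Mk l r)).val % l j) =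
        if (∀ j ∈ range k, (V + g * x).val % l j = z.val % l j) then 1 else 0 := by
      have e4 : ∏ j ∈ range k, f j ((g : ZMod (Mk l r)).val % l j) =
          ∏ j ∈ range k, if (V + g * x).val % l j = z.val % l j then (1 : ℝ) else 0 := by
        refine Finset.prod_congr rfl fun j hj => ?_
        have hj' := Finset.mem_range.mp hj
        rw [hf]
        simp only
        rw [if_pos hj', hval g j (by omega)]
      rw [e4, Finset.prod_ite_zero, Finset.prod_const_one]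
    rw [e1, e2, e3]
    by_cases h : (Mk l k : ℤ) ∣ ((V + g * x).val : ℤ) - z.val
    · rw [if_pos h, if_pos ((scal_dvd_iff hk.le hp hinj _ _).mp h)]
      ring
    · rw [if_neg h, if_neg fun h' => h ((scal_dvd_iff hk.le hp hinj _ _).mpr h')]
      ring
  rw [Finset.sum_congr rfl fun g _ => hL g, scal_pf l f r hp hinj, scal_split r k hk,
    scal_card l r hp hinj, scal_split r k hk]
  have h3 : ((l k : ℝ) - 1) ≠ 0 := by
    have h2 : (2 : ℝ) ≤ l k := by exact_mod_cast (hp k hk).two_le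
    intro h
    linarith
  have e1 : ∏ j ∈ Ico (k + 1) r, ∑ u ∈ Ico 1 (l j), f j u =
      ∏ j ∈ Ico (k + 1) r, ((l j : ℝ) - 1) := by
    refine Finset.prod_congr rfl fun j hj => ?_
    rw [Finset.mem_Ico] at hj
    have : ∀ u ∈ Ico 1 (l j), f j u = 1 := by
      intro u _
      rw [hf]
      simp only
      rw [if_neg (by omega), if_neg (by omega)]
    rw [Finset.sum_congr rfl this]
    simp only [Finset.sum_const, nsmul_eq_mul, mul_one, Nat.card_Ico]
    rw [Nat.cast_sub (hp j (by omega)).one_le, Nat.cast_one]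
  have e2 : ∑ u ∈ Ico 1 (l k), f k u = γ (V.val % l k) * ((l k : ℝ) * scD l x.val k - 1) := by
    rw [← scal_E2 l k (hp k hk) V.val x.val γ hγ]
    refine Finset.sum_congr rfl fun u _ => ?_
    rw [hf]
    simp only
    rw [if_neg (lt_irrefl k), if_true]
  have e3 : ∏ j ∈ range k, ∑ u ∈ Ico 1 (l j), f j u =
      (∏ j ∈ range k, ((l j : ℝ) - 1)) *
        ∏ j ∈ range k, (scB l V.val z.val j * scD l x.val j + scA l V.val z.val j) := by
    rw [← Finset.prod_mul_distrib]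
    refine Finset.prod_congr rfl fun j hj => ?_
    have hj' := Finset.mem_range.mp hj
    rw [← scal_E1 l j (hp j (by omega)) V.val x.val z.val]
    refine Finset.sum_congr rfl fun u _ => ?_
    rw [hf]
    simp only
    rw [if_pos hj']
  rw [e1, e2, e3]
  field_simp


theorem scal_prodD {l : ℕ → ℕ} {r : ℕ} (hp : ∀ i < r, (l i).Prime)
    (hinj : ∀ i < r, ∀ j < r, l i = l j → i = j) (T : Finset ℕ) (hT : ∀ j ∈ T, j < r) (x : ℕ) :
    ∏ j ∈ T, scD l x j = if (∏ j ∈ T, l j) ∣ x then (1 : ℝ) else 0 := by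
  simp only [scD]
  rw [Finset.prod_ite_zero, Finset.prod_const_one]
  by_cases h : ∀ i ∈ T, l i ∣ x
  · rw [if_pos h, if_pos]
    have h1 : (∏ j ∈ T, (l j : ℤ)) ∣ (x : ℤ) := by
      refine Finset.prod_dvd_of_coprime ?_ fun j hj => by exact_mod_cast h j hj
      intro i hi j hj hij
      have hi' := hT i (Finset.mem_coe.mp hi)
      have hj' := hT j (Finset.mem_coe.mp hj)
      change IsCoprime (l i : ℤ) (l j : ℤ)
      rw [Nat.isCoprime_iff_coprime, Nat.coprime_primes (hp i hi') (hp j hj')]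
      exact fun h => hij (hinj i hi' j hj' h)
    exact_mod_cast h1
  · rw [if_neg h, if_neg]
    intro h1
    exact h fun i hi => (Finset.dvd_prod_of_mem _ hi).trans h1

/-- the increment of the counting errors -/
noncomputable def scI (l : ℕ → ℕ) (k : ℕ) (e : ℕ → ℝ) (T : Finset ℕ) : ℝ :=
  ((l k : ℝ) * e (∏ j ∈ insert k T, l j) - e (∏ j ∈ T, l j)) / ((l k : ℝ) - 1)

theorem scal_count {l : ℕ → ℕ} {r : ℕ} (hp : ∀ i < r, (l i).Prime)
    (hinj : ∀ i < r, ∀ j < r, l i = l j → i = j) (S : Finset (ℕ × ℕ)) (x : ℕ × ℕ → ℕ)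
    (c0 : ℝ) (e : ℕ → ℝ) (hN : ∀ d, d ∣ Mk l r →
      ((S.filter fun p => d ∣ x p).card : ℝ) = c0 / d + e d) (k : ℕ) (hk : k < r)
    (T : Finset ℕ) (hT : T ⊆ range k) :
    ∑ p ∈ S, (∏ j ∈ T, scD l (x p) j) * (((l k : ℝ) * scD l (x p) k - 1) / ((l k : ℝ) - 1)) =
      scI l k e T := by
  have hkT : k ∉ T := fun h => lt_irrefl k (Finset.mem_range.mp (hT h))
  have hTr : ∀ j ∈ T, j < r := fun j hj => (Finset.mem_range.mp (hT hj)).trans hk
  have hTr' : ∀ j ∈ insert k T, j < r := by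
    intro j hj
    rcases Finset.mem_insert.mp hj with rfl | hj
    · exact hk
    · exact hTr j hj
  have hd : ∀ T' : Finset ℕ, (∀ j ∈ T', j < r) → (∏ j ∈ T', l j) ∣ Mk l r := fun T' h =>
    Finset.prod_dvd_prod_of_subset _ _ _ fun j hj => Finset.mem_range.mpr (h j hj)
  have hsum : ∀ T' : Finset ℕ, (∀ j ∈ T', j < r) → ∑ p ∈ S, ∏ j ∈ T', scD l (x p) j =
      c0 / ((∏ j ∈ T', l j : ℕ) : ℝ) + e (∏ j ∈ T', l j) := by
    intro T' h
    rw [← hN _ (hd T' h), Finset.card_filter, Nat.cast_sum]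
    refine Finset.sum_congr rfl fun p _ => ?_
    rw [scal_prodD hp hinj T' h]
    split_ifs <;> simp
  have h3 : ((l k : ℝ) - 1) ≠ 0 := by
    have h2 : (2 : ℝ) ≤ l k := by exact_mod_cast (hp k hk).two_le
    intro h
    linarith
  have e1 : ∀ p ∈ S, (∏ j ∈ T, scD l (x p) j) *
      (((l k : ℝ) * scD l (x p) k - 1) / ((l k : ℝ) - 1)) =
      ((l k : ℝ) * ∏ j ∈ insert k T, scD l (x p) j - ∏ j ∈ T, scD l (x p) j) /
        ((l k : ℝ) - 1) := by
    intro p _
    rw [Finset.prod_insert hkT]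
    ring
  rw [Finset.sum_congr rfl e1, ← Finset.sum_div, Finset.sum_sub_distrib, ← Finset.mul_sum,
    hsum _ hTr', hsum _ hTr, scI]
  congr 1
  have hl : (l k : ℝ) ≠ 0 := by exact_mod_cast (hp k hk).ne_zero
  have hdT : ((∏ j ∈ T, l j : ℕ) : ℝ) ≠ 0 := by
    exact_mod_cast Finset.prod_ne_zero_iff.mpr fun j hj => (hp j (hTr j hj)).ne_zero
  have : c0 / ((∏ j ∈ insert k T, l j : ℕ) : ℝ) * l k = c0 / ((∏ j ∈ T, l j : ℕ) : ℝ) := by
    rw [Finset.prod_insert hkT]
    push_cast at hdT ⊢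
    field_simp
  linarith

theorem scal_expand {l : ℕ → ℕ} {r : ℕ} (hp : ∀ i < r, (l i).Prime)
    (hinj : ∀ i < r, ∀ j < r, l i = l j → i = j) (V z : ℕ) (S : Finset (ℕ × ℕ))
    (x : ℕ × ℕ → ℕ) (c0 : ℝ) (e : ℕ → ℝ) (hN : ∀ d, d ∣ Mk l r →
      ((S.filter fun p => d ∣ x p).card : ℝ) = c0 / d + e d) (k : ℕ) (hk : k < r) :
    ∑ p ∈ S, (∏ j ∈ range k, (scB l V z j * scD l (x p) j + scA l V z j)) *
        (((l k : ℝ) * scD l (x p) k - 1) / ((l k : ℝ) - 1)) =
      ∑ T ∈ (range k).powerset, (∏ j ∈ T, scB l V z j) * (∏ j ∈ range k \ T, scA l V z j) *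
        scI l k e T := by
  have e1 : ∀ p ∈ S, (∏ j ∈ range k, (scB l V z j * scD l (x p) j + scA l V z j)) *
        (((l k : ℝ) * scD l (x p) k - 1) / ((l k : ℝ) - 1)) =
      ∑ T ∈ (range k).powerset, (∏ j ∈ T, scB l V z j) * (∏ j ∈ range k \ T, scA l V z j) *
        ((∏ j ∈ T, scD l (x p) j) * (((l k : ℝ) * scD l (x p) k - 1) / ((l k : ℝ) - 1))) := by
    intro p _
    rw [Finset.prod_add, Finset.sum_mul]
    refine Finset.sum_congr rfl fun T _ => ?_
    rw [Finset.prod_mul_distrib]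
    ring
  rw [Finset.sum_congr rfl e1, Finset.sum_comm]
  refine Finset.sum_congr rfl fun T hT => ?_
  rw [← Finset.mul_sum, scal_count hp hinj S x c0 e hN k hk T (Finset.mem_powerset.mp hT)]

theorem scal_abs {l : ℕ → ℕ} {r : ℕ} (hp : ∀ i < r, (l i).Prime) (m : ℕ) (hm : 2 ≤ m)
    (hlo : ∀ i < r, m ^ 16 < l i) (V z : ℕ) (k : ℕ) (hk : k < r)
    (hE : ¬ ∀ j ∈ range k, V % l j = z % l j) :
    ∏ j ∈ range k, (|scB l V z j| + |scA l V z j|) ≤ 2 / (m : ℝ) ^ 16 := by
  have hm1 : (2 : ℝ) ≤ m := by exact_mod_cast hm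
  have hm16 : (2 : ℝ) ≤ (m : ℝ) ^ 16 :=
    hm1.trans (le_self_pow₀ (by linarith) (by norm_num))
  have hinv : ∀ j < r, 1 / ((l j : ℝ) - 1) ≤ 1 / (m : ℝ) ^ 16 := by
    intro j hj
    have : ((m ^ 16 + 1 : ℕ) : ℝ) ≤ l j := by exact_mod_cast hlo j hj
    push_cast at this
    exact one_div_le_one_div_of_le (by positivity) (by linarith)
  have hpos : ∀ j < r, 0 ≤ 1 / ((l j : ℝ) - 1) := by
    intro j hj
    have : (2 : ℝ) ≤ l j := by exact_mod_cast (hp j hj).two_le
    have : (0 : ℝ) ≤ (l j : ℝ) - 1 := by linarith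
    positivity
  have hfac : ∀ j < r, |scB l V z j| + |scA l V z j| ≤ 1 := by
    intro j hj
    have h1 := hinv j hj
    have h2 := hpos j hj
    have h3 : 1 / (m : ℝ) ^ 16 ≤ 1 / 2 := one_div_le_one_div_of_le (by norm_num) hm16
    simp only [scA, scB]
    split_ifs
    · simp
    · rw [abs_neg, abs_of_nonneg h2]
      linarith
  push Not at hE
  obtain ⟨j0, hj0, hne⟩ := hE
  have hj0' := Finset.mem_range.mp hj0
  rw [← Finset.mul_prod_erase _ _ hj0]
  have h1 : |scB l V z j0| + |scA l V z j0| ≤ 2 / (m : ℝ) ^ 16 := by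
    have h1 := hinv j0 (by omega)
    have h2 := hpos j0 (by omega)
    simp only [scA, scB]
    rw [if_neg hne, if_neg hne, abs_neg, abs_of_nonneg h2]
    have : 2 / (m : ℝ) ^ 16 = 2 * (1 / (m : ℝ) ^ 16) := by ring
    linarith
  have h2 : ∏ j ∈ (range k).erase j0, (|scB l V z j| + |scA l V z j|) ≤ 1 := by
    refine Finset.prod_le_one (fun j _ => by positivity) fun j hj => ?_
    have := Finset.mem_range.mp (Finset.mem_of_mem_erase hj)
    exact hfac j (by omega)
  have h3 : 0 ≤ ∏ j ∈ (range k).erase j0, (|scB l V z j| + |scA l V z j|) :=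
    Finset.prod_nonneg fun j _ => by positivity
  calc (|scB l V z j0| + |scA l V z j0|) *
        ∏ j ∈ (range k).erase j0, (|scB l V z j| + |scA l V z j|)
      ≤ 2 / (m : ℝ) ^ 16 * 1 := by
        refine mul_le_mul h1 h2 h3 (by positivity)
    _ = _ := mul_one _

theorem scal_k (C : ℕ) {m r : ℕ} {l : ℕ → ℕ} (hm : 2 ≤ m) (hp : ∀ i < r, (l i).Prime)
    (hinj : ∀ i < r, ∀ j < r, l i = l j → i = j) (hlo : ∀ i < r, m ^ 16 < l i) (V z : ℕ)
    {ι : Type} (P : Finset ι) (S : ι → Finset (ℕ × ℕ)) (x : ι → ℕ × ℕ → ℕ)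
    (c0 : ℝ) (e : ι → ℕ → ℝ)
    (h1 : ∀ i ∈ P, ∀ d, d ∣ Mk l r →
      (((S i).filter fun p => d ∣ x i p).card : ℝ) = c0 / d + e i d)
    (h2 : ∀ k ≤ r, |∑ i ∈ P, e i (Mk l k)| ≤ (C : ℝ) * P.card)
    (h3 : ∀ d, d ∣ Mk l r → ∑ i ∈ P, |e i d| ≤ (C : ℝ) * (m : ℝ) ^ 2 * P.card)
    (k : ℕ) (hk : k < r) :
    |∑ i ∈ P, ∑ p ∈ S i, (∏ j ∈ range k, (scB l V z j * scD l (x i p) j + scA l V z j)) *
        (((l k : ℝ) * scD l (x i p) k - 1) / ((l k : ℝ) - 1))| ≤ 6 * C * P.card := by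
  have hm1 : (2 : ℝ) ≤ m := by exact_mod_cast hm
  have hl2 : (2 : ℝ) ≤ l k := by exact_mod_cast (hp k hk).two_le
  have hlpos : 0 < (l k : ℝ) - 1 := by linarith
  have hC : (0 : ℝ) ≤ C := Nat.cast_nonneg C
  have hP : (0 : ℝ) ≤ P.card := Nat.cast_nonneg _
  rw [Finset.sum_congr rfl fun i hi => scal_expand hp hinj V z (S i) (x i) c0 (e i) (h1 i hi) k hk,
    Finset.sum_comm]
  have e2 : ∀ T ∈ (range k).powerset, ∑ i ∈ P, (∏ j ∈ T, scB l V z j) *
      (∏ j ∈ range k \ T, scA l V z j) * scI l k (e i) T =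
      (∏ j ∈ T, scB l V z j) * (∏ j ∈ range k \ T, scA l V z j) *
        ∑ i ∈ P, scI l k (e i) T := fun T _ => by rw [Finset.mul_sum]
  rw [Finset.sum_congr rfl e2]
  by_cases hE : ∀ j ∈ range k, V % l j = z % l j
  · have hz : ∀ T ∈ (range k).powerset, T ≠ range k → (∏ j ∈ T, scB l V z j) *
        (∏ j ∈ range k \ T, scA l V z j) * ∑ i ∈ P, scI l k (e i) T = 0 := by
      intro T hT hne
      have hne' : (range k \ T).Nonempty := by
        rw [Finset.sdiff_nonempty]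
        exact fun h => hne (Finset.Subset.antisymm (Finset.mem_powerset.mp hT) h)
      obtain ⟨j, hj⟩ := hne'
      have : ∏ j ∈ range k \ T, scA l V z j = 0 := by
        refine Finset.prod_eq_zero hj ?_
        rw [scA, if_pos (hE j (Finset.mem_sdiff.mp hj).1)]
      rw [this]
      ring
    rw [Finset.sum_eq_single_of_mem (range k) (Finset.mem_powerset_self _) hz]
    have hB : ∏ j ∈ range k, scB l V z j = 1 := by
      refine Finset.prod_eq_one fun j hj => ?_
      rw [scB, if_pos (hE j hj)]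
    rw [hB, Finset.sdiff_self, Finset.prod_empty]
    simp only [one_mul, scI]
    rw [← Finset.sum_div, Finset.sum_sub_distrib, ← Finset.mul_sum]
    have g1 := h2 (k + 1) (by omega)
    have g2 := h2 k hk.le
    have hins : insert k (range k) = range (k + 1) := Finset.range_add_one.symm
    rw [hins]
    change |((l k : ℝ) * ∑ i ∈ P, e i (Mk l (k + 1)) - ∑ i ∈ P, e i (Mk l k)) / ((l k : ℝ) - 1)| ≤ _
    rw [abs_div, abs_of_pos hlpos, div_le_iff₀ hlpos]
    calc |(l k : ℝ) * ∑ i ∈ P, e i (Mk l (k + 1)) - ∑ i ∈ P, e i (Mk l k)|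
        ≤ |(l k : ℝ) * ∑ i ∈ P, e i (Mk l (k + 1))| + |∑ i ∈ P, e i (Mk l k)| := abs_sub _ _
      _ ≤ (l k : ℝ) * (C * P.card) + C * P.card := by
          rw [abs_mul, abs_of_nonneg (by linarith : (0 : ℝ) ≤ l k)]
          gcongr
      _ ≤ 6 * C * P.card * ((l k : ℝ) - 1) := by
          have : 0 ≤ (C : ℝ) * P.card := by positivity
          nlinarith
  · have hI : ∀ T ∈ (range k).powerset, |∑ i ∈ P, scI l k (e i) T| ≤
        3 * (C * (m : ℝ) ^ 2 * P.card) := by
      intro T hT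
      have hT' := Finset.mem_powerset.mp hT
      have hd1 : (∏ j ∈ T, l j) ∣ Mk l r := by
        refine Finset.prod_dvd_prod_of_subset _ _ _ fun j hj => ?_
        have := Finset.mem_range.mp (hT' hj)
        exact Finset.mem_range.mpr (by omega)
      have hd2 : (∏ j ∈ insert k T, l j) ∣ Mk l r := by
        refine Finset.prod_dvd_prod_of_subset _ _ _ fun j hj => ?_
        rcases Finset.mem_insert.mp hj with rfl | hj
        · exact Finset.mem_range.mpr hk
        · have := Finset.mem_range.mp (hT' hj)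
          exact Finset.mem_range.mpr (by omega)
      simp only [scI]
      rw [← Finset.sum_div, Finset.sum_sub_distrib, ← Finset.mul_sum, abs_div,
        abs_of_pos hlpos, div_le_iff₀ hlpos]
      calc |(l k : ℝ) * ∑ i ∈ P, e i (∏ j ∈ insert k T, l j) - ∑ i ∈ P, e i (∏ j ∈ T, l j)|
          ≤ |(l k : ℝ) * ∑ i ∈ P, e i (∏ j ∈ insert k T, l j)| +
            |∑ i ∈ P, e i (∏ j ∈ T, l j)| := abs_sub _ _
        _ ≤ (l k : ℝ) * (C * (m : ℝ) ^ 2 * P.card) + C * (m : ℝ) ^ 2 * P.card := by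
            rw [abs_mul, abs_of_nonneg (by linarith : (0 : ℝ) ≤ l k)]
            have t1 := (Finset.abs_sum_le_sum_abs _ _).trans (h3 _ hd1)
            have t2 := (Finset.abs_sum_le_sum_abs _ _).trans (h3 _ hd2)
            gcongr
        _ ≤ 3 * (C * (m : ℝ) ^ 2 * P.card) * ((l k : ℝ) - 1) := by
            have : 0 ≤ (C : ℝ) * (m : ℝ) ^ 2 * P.card := by positivity
            nlinarith
    calc |∑ T ∈ (range k).powerset, (∏ j ∈ T, scB l V z j) * (∏ j ∈ range k \ T, scA l V z j) *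
          ∑ i ∈ P, scI l k (e i) T|
        ≤ ∑ T ∈ (range k).powerset, |(∏ j ∈ T, scB l V z j) *
          (∏ j ∈ range k \ T, scA l V z j) * ∑ i ∈ P, scI l k (e i) T| :=
          Finset.abs_sum_le_sum_abs _ _
      _ ≤ ∑ T ∈ (range k).powerset, ((∏ j ∈ T, |scB l V z j|) *
          ∏ j ∈ range k \ T, |scA l V z j|) * (3 * (C * (m : ℝ) ^ 2 * P.card)) := by
          refine Finset.sum_le_sum fun T hT => ?_
          rw [abs_mul, abs_mul, Finset.abs_prod, Finset.abs_prod]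
          exact mul_le_mul_of_nonneg_left (hI T hT) (by positivity)
      _ = (∏ j ∈ range k, (|scB l V z j| + |scA l V z j|)) *
          (3 * (C * (m : ℝ) ^ 2 * P.card)) := by
          rw [Finset.prod_add, Finset.sum_mul]
      _ ≤ 2 / (m : ℝ) ^ 16 * (3 * (C * (m : ℝ) ^ 2 * P.card)) := by
          refine mul_le_mul_of_nonneg_right (scal_abs hp m hm hlo V z k hk hE) (by positivity)
      _ ≤ 6 * C * P.card := by
          have hpow : (m : ℝ) ^ 2 ≤ (m : ℝ) ^ 16 :=
            pow_le_pow_right₀ (by linarith) (by norm_num)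
          have h16 : 0 < (m : ℝ) ^ 16 := by positivity
          rw [div_mul_eq_mul_div, div_le_iff₀ h16]
          have : 0 ≤ 6 * (C : ℝ) * P.card := by positivity
          nlinarith

/-- `N i d` counts the `x ∈ S i` with `d ∣ x`; main term `c0 / d`, error `e i d`. -/
theorem scal (C : ℕ) : ∃ (m1 : ℕ) (C' : ℝ), ∀ (m r : ℕ) (l : ℕ → ℕ) [NeZero (Mk l r)],
    m1 ≤ m → 1 ≤ r → r ≤ m → (∀ i < r, (l i).Prime) →
    (∀ i < r, ∀ j < r, l i = l j → i = j) → (∀ i < r, m ^ 16 < l i) →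
    ∀ (G : ZMod (Mk l r) → ℝ), LevG l r G → ∀ (V : ZMod (Mk l r))
      {ι : Type} (P : Finset ι) (S : ι → Finset (ℕ × ℕ)) (x : ι → ℕ × ℕ → ZMod (Mk l r))
      (c0 : ℝ) (e : ι → ℕ → ℝ),
      (∀ i ∈ P, ∀ d, d ∣ Mk l r →
        (((S i).filter fun p => d ∣ (x i p).val).card : ℝ) = c0 / d + e i d) →
      (∀ k ≤ r, |∑ i ∈ P, e i (Mk l k)| ≤ (C : ℝ) * P.card) →
      (∀ d, d ∣ Mk l r → ∑ i ∈ P, |e i d| ≤ (C : ℝ) * (m : ℝ) ^ 2 * P.card) →
      |∑ i ∈ P, ∑ g : (ZMod (Mk l r))ˣ, ∑ p ∈ S i, G (V + g * x i p)| ≤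
        C' * m * P.card * (Fintype.card (ZMod (Mk l r))ˣ : ℝ) := by
  refine ⟨2, 6 * C, ?_⟩
  intro m r l _ hm hr hrm hp hinj hlo G hG V ι P S x c0 e h1 h2 h3
  obtain ⟨z, γ, hγ1, hγ0, hGv⟩ := hG
  have hP : (0 : ℝ) ≤ P.card := Nat.cast_nonneg _
  have hφ : (0 : ℝ) ≤ (Fintype.card (ZMod (Mk l r))ˣ : ℝ) := Nat.cast_nonneg _
  have e1 : ∑ i ∈ P, ∑ g : (ZMod (Mk l r))ˣ, ∑ p ∈ S i, G (V + g * x i p) =
      ∑ k ∈ range r, (Fintype.card (ZMod (Mk l r))ˣ : ℝ) * (γ k (V.val % l k) *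
        ∑ i ∈ P, ∑ p ∈ S i,
          (∏ j ∈ range k, (scB l V.val z.val j * scD l (x i p).val j + scA l V.val z.val j)) *
            (((l k : ℝ) * scD l (x i p).val k - 1) / ((l k : ℝ) - 1))) := by
    have e3 : ∀ i ∈ P, ∑ g : (ZMod (Mk l r))ˣ, ∑ p ∈ S i, G (V + g * x i p) =
        ∑ k ∈ range r, ∑ p ∈ S i, (Fintype.card (ZMod (Mk l r))ˣ : ℝ) * (γ k (V.val % l k) *
          ((∏ j ∈ range k, (scB l V.val z.val j * scD l (x i p).val j + scA l V.val z.val j)) *
            (((l k : ℝ) * scD l (x i p).val k - 1) / ((l k : ℝ) - 1)))) := by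
      intro i _
      rw [Finset.sum_comm, Finset.sum_comm (s := range r)]
      refine Finset.sum_congr rfl fun p _ => ?_
      rw [Finset.sum_congr rfl fun (g : (ZMod (Mk l r))ˣ) _ =>
        hGv (V + (g : ZMod (Mk l r)) * x i p), Finset.sum_comm]
      refine Finset.sum_congr rfl fun k hk => ?_
      have hk' := Finset.mem_range.mp hk
      rw [scal_T l r hp hinj V z (x i p) k hk' (γ k) (hγ0 k hk')]
      ring
    rw [Finset.sum_congr rfl e3, Finset.sum_comm]
    refine Finset.sum_congr rfl fun k _ => ?_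
    rw [Finset.mul_sum, Finset.mul_sum]
    refine Finset.sum_congr rfl fun i _ => ?_
    rw [Finset.mul_sum, Finset.mul_sum]
  rw [e1]
  calc |∑ k ∈ range r, (Fintype.card (ZMod (Mk l r))ˣ : ℝ) * (γ k (V.val % l k) *
        ∑ i ∈ P, ∑ p ∈ S i,
          (∏ j ∈ range k, (scB l V.val z.val j * scD l (x i p).val j + scA l V.val z.val j)) *
            (((l k : ℝ) * scD l (x i p).val k - 1) / ((l k : ℝ) - 1)))|
      ≤ ∑ k ∈ range r, |(Fintype.card (ZMod (Mk l r))ˣ : ℝ) * (γ k (V.val % l k) *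
        ∑ i ∈ P, ∑ p ∈ S i,
          (∏ j ∈ range k, (scB l V.val z.val j * scD l (x i p).val j + scA l V.val z.val j)) *
            (((l k : ℝ) * scD l (x i p).val k - 1) / ((l k : ℝ) - 1)))| :=
        Finset.abs_sum_le_sum_abs _ _
    _ ≤ ∑ k ∈ range r, (Fintype.card (ZMod (Mk l r))ˣ : ℝ) * (1 * (6 * C * P.card)) := by
        refine Finset.sum_le_sum fun k hk => ?_
        rw [abs_mul, abs_mul, abs_of_nonneg hφ]
        refine mul_le_mul_of_nonneg_left ?_ hφ
        refine mul_le_mul (hγ1 k _) ?_ (abs_nonneg _) zero_le_one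
        exact scal_k C hm hp hinj hlo V.val z.val P S (fun i p => (x i p).val) c0 e h1 h2 h3 k
          (Finset.mem_range.mp hk)
    _ = (r : ℝ) * ((Fintype.card (ZMod (Mk l r))ˣ : ℝ) * (6 * C * P.card)) := by
        rw [Finset.sum_const, Finset.card_range, nsmul_eq_mul, one_mul]
    _ ≤ (m : ℝ) * ((Fintype.card (ZMod (Mk l r))ˣ : ℝ) * (6 * C * P.card)) := by
        have : (r : ℝ) ≤ m := by exact_mod_cast hrm
        gcongr
    _ = _ := by ring

end DiscPS
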