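import Pool.Agent.Work.DiscPS.DefsA

/-!
# Dyadic blocks of the real parts of the exponential sums (CLAIM in section 3, T1)
-/

namespace DiscPS

open Finset

/-! ### elementary trigonometric inequalities -/

theorem T1b_sin_nsmul (x : ℝ) (n : ℕ) : |Real.sin (n * x)| ≤ n * |Real.sin x| := by
  induction n with
  | zero => simp
  | succ n ih =>
    have e : ((n + 1 : ℕ) : ℝ) * x = n * x + x := by push_cast; ring
    rw [e, Real.sin_add]
    have h1 := Real.abs_cos_le_one x
    have h2 := Real.abs_cos_le_one (n * x)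
    calc |Real.sin (n * x) * Real.cos x + Real.cos (n * x) * Real.sin x|
        ≤ |Real.sin (n * x)| * |Real.cos x| + |Real.cos (n * x)| * |Real.sin x| := by
          rw [← abs_mul, ← abs_mul]
          exact abs_add_le _ _
      _ ≤ (n * |Real.sin x|) * 1 + 1 * |Real.sin x| := by
          gcongr
      _ = _ := by push_cast; ring

/-- partial sums of the sine -/
theorem T1b_sum_sin (x y : ℝ) (n : ℕ) :
    |∑ i ∈ range n, Real.sin (x + i * (2 * y))| * |Real.sin y| ≤ 1 := by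
  have h : 2 * Real.sin y * ∑ i ∈ range n, Real.sin (x + i * (2 * y)) =
      Real.cos (x - y) - Real.cos (x - y + n * (2 * y)) := by
    induction n with
    | zero => simp
    | succ n ih =>
      rw [Finset.sum_range_succ, mul_add, ih]
      have e1 : x - y + n * (2 * y) = (x + n * (2 * y)) - y := by ring
      have e2 : x - y + ((n + 1 : ℕ) : ℝ) * (2 * y) = (x + n * (2 * y)) + y := by
        push_cast; ring
      rw [e1, e2, Real.cos_sub (x + n * (2 * y)) y, Real.cos_add (x + n * (2 * y)) y]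
      ring
  have h1 := Real.abs_cos_le_one (x - y)
  have h2 := Real.abs_cos_le_one (x - y + n * (2 * y))
  have h3 : |2 * Real.sin y * ∑ i ∈ range n, Real.sin (x + i * (2 * y))| ≤ 2 := by
    rw [h]
    calc _ ≤ |Real.cos (x - y)| + |Real.cos (x - y + n * (2 * y))| := abs_sub _ _
      _ ≤ 2 := by linarith
  rw [abs_mul, abs_mul, abs_two] at h3
  nlinarith

/-- Abel summation -/
theorem T1b_abel {w s : ℕ → ℝ} {S : ℝ} (hw : ∀ i, 0 ≤ w i) (hanti : ∀ i, w (i + 1) ≤ w i)
    (hs : ∀ n, |∑ i ∈ range n, s i| ≤ S) (n : ℕ) : |∑ i ∈ range n, w i * s i| ≤ w 0 * S := by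
  have hS : 0 ≤ S := by simpa using hs 0
  rcases n with _ | n
  · simpa using mul_nonneg (hw 0) hS
  · have key : |∑ i ∈ range (n + 1), w i * s i - w n * ∑ i ∈ range (n + 1), s i| ≤
        (w 0 - w n) * S := by
      induction n with
      | zero => simp
      | succ n ih =>
        have e : ∑ i ∈ range (n + 1 + 1), w i * s i - w (n + 1) * ∑ i ∈ range (n + 1 + 1), s i =
            (∑ i ∈ range (n + 1), w i * s i - w n * ∑ i ∈ range (n + 1), s i) +
              (w n - w (n + 1)) * ∑ i ∈ range (n + 1), s i := by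
          rw [Finset.sum_range_succ (fun i => w i * s i), Finset.sum_range_succ s]
          ring
        rw [e]
        refine (abs_add_le _ _).trans ?_
        rw [abs_mul, abs_of_nonneg (by linarith [hanti n] : 0 ≤ w n - w (n + 1))]
        have h1 := mul_le_mul_of_nonneg_left (hs (n + 1))
          (by linarith [hanti n] : 0 ≤ w n - w (n + 1))
        linarith
    have h1 : |w n * ∑ i ∈ range (n + 1), s i| ≤ w n * S := by
      rw [abs_mul, abs_of_nonneg (hw n)]
      exact mul_le_mul_of_nonneg_left (hs _) (hw n)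
    have h2 := abs_add_le (∑ i ∈ range (n + 1), w i * s i - w n * ∑ i ∈ range (n + 1), s i)
      (w n * ∑ i ∈ range (n + 1), s i)
    rw [sub_add_cancel] at h2
    linarith

/-- the same for a version in which the weights are only controlled up to `n` -/
theorem T1b_abel' {w s : ℕ → ℝ} {S : ℝ} {n : ℕ} (hw : ∀ i < n, 0 ≤ w i)
    (hanti : ∀ i, i + 1 < n → w (i + 1) ≤ w i)
    (hs : ∀ n, |∑ i ∈ range n, s i| ≤ S) (hn : 0 < n) :
    |∑ i ∈ range n, w i * s i| ≤ w 0 * S := by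
  have h := T1b_abel (w := fun i => w (min i (n - 1))) (s := s) (S := S)
    (fun i => hw _ (by omega)) (fun i => by
      rcases Nat.lt_or_ge (i + 1) n with h1 | h1
      · have e1 : min (i + 1) (n - 1) = i + 1 := by omega
        have e2 : min i (n - 1) = i := by omega
        simp only [e1, e2]
        exact hanti i h1
      · have e1 : min (i + 1) (n - 1) = n - 1 := by omega
        have e2 : min i (n - 1) = n - 1 := by omega
        simp only [e1, e2]
        exact le_rfl) hs n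
  have e : ∑ i ∈ range n, w (min i (n - 1)) * s i = ∑ i ∈ range n, w i * s i := by
    refine Finset.sum_congr rfl fun i hi => ?_
    rw [mem_range] at hi
    have e2 : min i (n - 1) = i := by omega
    rw [e2]
  simp only [e, Nat.zero_min] at h
  exact h

/-- the sum over the dyadic scales -/
theorem T1b_dyadic {y : ℝ} (hy : 0 < y) (J : ℕ) :
    ∑ j ∈ range J, min (y * 2 ^ j) (1 / (y * 2 ^ j)) ≤ 6 := by
  have hstep : ∀ z : ℝ, 0 < z → min z (1 / z) ≤ 6 * (2 * z / (1 + 2 * z) - z / (1 + z)) := by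
    intro z hz
    have e : 2 * z / (1 + 2 * z) - z / (1 + z) = z / ((1 + 2 * z) * (1 + z)) := by
      field_simp
      ring
    rw [e]
    rcases le_or_gt z 1 with h | h
    · refine (min_le_left _ _).trans ?_
      rw [mul_div_assoc', le_div_iff₀ (by positivity)]
      nlinarith [mul_nonneg hz.le (sub_nonneg.2 h)]
    · refine (min_le_right _ _).trans ?_
      rw [mul_div_assoc', div_le_div_iff₀ hz (by positivity)]
      nlinarith
  have key : ∀ J : ℕ, ∑ j ∈ range J, min (y * 2 ^ j) (1 / (y * 2 ^ j)) ≤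
      6 * (y * 2 ^ J / (1 + y * 2 ^ J) - y / (1 + y)) := by
    intro J
    induction J with
    | zero => simp
    | succ J ih =>
      rw [Finset.sum_range_succ]
      have h1 := hstep (y * 2 ^ J) (by positivity)
      have e : 2 * (y * 2 ^ J) = y * 2 ^ (J + 1) := by rw [pow_succ]; ring
      rw [e] at h1
      linarith
  refine (key J).trans ?_
  have h1 : y * 2 ^ J / (1 + y * 2 ^ J) ≤ 1 := by
    rw [div_le_one (by positivity)]
    linarith
  have h2 : 0 ≤ y / (1 + y) := by positivity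
  linarith

/-! ### a convex finite set of natural numbers -/

theorem T1b_convex {S : Finset ℕ} (hne : S.Nonempty)
    (h : ∀ x ∈ S, ∀ z ∈ S, ∀ y, x ≤ y → y ≤ z → y ∈ S) : ∃ a n, S = Ico a (a + n) ∧ 0 < n := by
  refine ⟨S.min' hne, S.max' hne - S.min' hne + 1, ?_, by omega⟩
  have h0 := S.min'_le _ (S.max'_mem hne)
  ext y
  rw [mem_Ico]
  constructor
  · intro hy
    have h1 := S.min'_le _ hy
    have h2 := S.le_max' _ hy
    omega
  · rintro ⟨h1, h2⟩
    exact h _ (S.min'_mem hne) _ (S.max'_mem hne) _ h1 (by omega)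

/-! ### one block -/

/-- one block, one end point: `β` integer, `η = ν / M` -/
theorem T1b_block {M ν d : ℕ} (hν : 0 < ν) (hd : 0 < d) (hM : 0 < M) (β : ℤ) (j : ℕ)
    {S : Finset ℕ} (hS : ∀ x ∈ S, ∀ z ∈ S, ∀ y, x ≤ y → y ≤ z → y ∈ S)
    (hS1 : ∀ p ∈ S, 2 ^ j ≤ d * p ∧ d * p < 2 ^ (j + 1) ∧ 2 * (ν * p) < M) :
    |∑ p ∈ S, Real.sin (Real.pi * β * (ν * p) / M) / Real.sin (Real.pi * (ν * p) / M)| ≤
      3 * M / ν * min (|Real.sin (Real.pi * β * ν / (2 * M))| / d * 2 ^ j)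
        (1 / (|Real.sin (Real.pi * β * ν / (2 * M))| / d * 2 ^ j)) := by
  have hνR : (0 : ℝ) < ν := by exact_mod_cast hν
  have hdR : (0 : ℝ) < d := by exact_mod_cast hd
  have hMR : (0 : ℝ) < M := by exact_mod_cast hM
  have hπ := Real.pi_pos
  obtain ⟨ψ, hψ⟩ : ∃ ψ : ℝ, ψ = Real.pi * β * ν / (2 * M) := ⟨_, rfl⟩
  rw [← hψ]
  have h2j : (0 : ℝ) < 2 ^ j := by positivity
  rcases S.eq_empty_or_nonempty with hE | hne
  · rw [hE, sum_empty, abs_zero]
    refine mul_nonneg (by positivity) (le_min (by positivity) (by positivity))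
  obtain ⟨a, n, hSeq, hn⟩ := T1b_convex hne hS
  have hmem : ∀ i, i < n → a + i ∈ S := by
    intro i hi
    rw [hSeq, mem_Ico]
    omega
  have hp1 : ∀ p ∈ S, 1 ≤ p := by
    intro p hp
    obtain ⟨h1, -, -⟩ := hS1 p hp
    have h2 : 0 < 2 ^ j := by positivity
    rcases Nat.eq_zero_or_pos p with h | h
    · rw [h] at h1
      omega
    · exact h
  have hrange : ∀ p ∈ S, 0 ≤ Real.pi * (ν * p) / M ∧ Real.pi * (ν * p) / M ≤ Real.pi / 2 := by
    intro p hp
    obtain ⟨-, -, h3⟩ := hS1 p hp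
    have h4 : 2 * ((ν : ℝ) * p) < M := by exact_mod_cast h3
    refine ⟨by positivity, ?_⟩
    rw [div_le_div_iff₀ hMR (by norm_num)]
    nlinarith
  have hsin : ∀ p ∈ S, 2 * ((ν : ℝ) * p) / M ≤ Real.sin (Real.pi * (ν * p) / M) := by
    intro p hp
    obtain ⟨h1, h2⟩ := hrange p hp
    have h3 := Real.mul_le_sin h1 h2
    refine le_trans (le_of_eq ?_) h3
    field_simp
  have hpos : ∀ p ∈ S, 0 < Real.sin (Real.pi * (ν * p) / M) := by
    intro p hp
    have h1 : (0 : ℝ) < p := by exact_mod_cast hp1 p hp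
    exact lt_of_lt_of_le (by positivity) (hsin p hp)
  have harg : ∀ p : ℕ, Real.sin (Real.pi * β * (ν * p) / M) = Real.sin (((2 * p : ℕ) : ℝ) * ψ) := by
    intro p
    congr 1
    rw [hψ]
    push_cast
    field_simp
  -- the number of terms
  have hcard : (d : ℝ) * n ≤ 3 * 2 ^ j := by
    obtain ⟨h1, -, -⟩ := hS1 a (by simpa using hmem 0 hn)
    obtain ⟨-, h2, -⟩ := hS1 (a + (n - 1)) (hmem (n - 1) (by omega))
    have ha1 := hp1 a (by simpa using hmem 0 hn)
    have h3 : d * (a + (n - 1)) = d * a + d * (n - 1) := by ring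
    have h4 : d * n = d * (n - 1) + d := by
      obtain ⟨k, rfl⟩ : ∃ k, n = k + 1 := ⟨n - 1, by omega⟩
      rw [Nat.add_sub_cancel]
      ring
    have h5 : d ≤ d * a := Nat.le_mul_of_pos_right _ ha1
    have h6 : (2 : ℕ) ^ (j + 1) = 2 * 2 ^ j := by ring
    have h7 : d * n ≤ 3 * 2 ^ j := by omega
    exact_mod_cast h7
  have hB : |∑ p ∈ S, Real.sin (Real.pi * β * (ν * p) / M) / Real.sin (Real.pi * (ν * p) / M)| ≤
      3 * M / ν * (|Real.sin ψ| / d * 2 ^ j) := by
    refine (Finset.abs_sum_le_sum_abs _ _).trans ?_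
    have h1 : ∀ p ∈ S, |Real.sin (Real.pi * β * (ν * p) / M) / Real.sin (Real.pi * (ν * p) / M)| ≤
        M / ν * |Real.sin ψ| := by
      intro p hp
      have hp0 : (0 : ℝ) < p := by exact_mod_cast hp1 p hp
      rw [abs_div, abs_of_pos (hpos p hp), div_le_iff₀ (hpos p hp), harg p]
      have h2 := T1b_sin_nsmul ψ (2 * p)
      refine h2.trans ?_
      have h3 : 0 ≤ M / ν * |Real.sin ψ| := by positivity
      have h4 := mul_le_mul_of_nonneg_left (hsin p hp) h3
      refine le_trans (le_of_eq ?_) h4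
      push_cast
      field_simp
    refine (Finset.sum_le_sum h1).trans ?_
    rw [Finset.sum_const, hSeq, Nat.card_Ico, Nat.add_sub_cancel_left, nsmul_eq_mul]
    have h3 : 0 ≤ M / ν * |Real.sin ψ| / d := by positivity
    have h4 := mul_le_mul_of_nonneg_right hcard h3
    calc (n : ℝ) * (M / ν * |Real.sin ψ|) = d * n * (M / ν * |Real.sin ψ| / d) := by
          field_simp
      _ ≤ _ := h4
      _ = _ := by ring
  rw [mul_min_of_nonneg _ _ (by positivity)]
  refine le_min hB ?_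
  rcases (abs_nonneg (Real.sin ψ)).eq_or_lt with h0 | h0
  · rw [← h0] at hB ⊢
    simpa using hB
  · have hs : ∀ k : ℕ, |∑ i ∈ range k, Real.sin (((2 * a : ℕ) : ℝ) * ψ + i * (2 * ψ))| ≤
        1 / |Real.sin ψ| := by
      intro k
      rw [le_div_iff₀ h0]
      exact T1b_sum_sin _ _ _
    have hanti : ∀ i, i + 1 < n → 1 / Real.sin (Real.pi * (ν * ((a + (i + 1) : ℕ) : ℝ)) / M) ≤
        1 / Real.sin (Real.pi * (ν * ((a + i : ℕ) : ℝ)) / M) := by
      intro i hi
      have h1 := hrange _ (hmem i (by omega))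
      have h2 := hrange _ (hmem (i + 1) hi)
      refine one_div_le_one_div_of_le (hpos _ (hmem i (by omega))) ?_
      refine Real.strictMonoOn_sin.monotoneOn ⟨by linarith [h1.1], h1.2⟩
        ⟨by linarith [h2.1], h2.2⟩ ?_
      gcongr
      omega
    have key := T1b_abel' (w := fun i => 1 / Real.sin (Real.pi * (ν * ((a + i : ℕ) : ℝ)) / M))
      (s := fun i => Real.sin (((2 * a : ℕ) : ℝ) * ψ + i * (2 * ψ))) (n := n)
      (fun i hi => by
        have := hpos _ (hmem i hi)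
        positivity) hanti hs hn
    have e1 : ∑ p ∈ S, Real.sin (Real.pi * β * (ν * p) / M) / Real.sin (Real.pi * (ν * p) / M) =
        ∑ i ∈ range n, 1 / Real.sin (Real.pi * (ν * ((a + i : ℕ) : ℝ)) / M) *
          Real.sin (((2 * a : ℕ) : ℝ) * ψ + i * (2 * ψ)) := by
      rw [hSeq, Finset.sum_Ico_eq_sum_range, Nat.add_sub_cancel_left]
      refine Finset.sum_congr rfl fun i _ => ?_
      rw [harg (a + i)]
      have e2 : ((2 * (a + i) : ℕ) : ℝ) * ψ = ((2 * a : ℕ) : ℝ) * ψ + i * (2 * ψ) := by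
        push_cast
        ring
      rw [e2]
      ring
    rw [e1]
    refine key.trans ?_
    have ha := hmem 0 hn
    have h5 := hsin _ ha
    have h6 : (0 : ℝ) < ((a + 0 : ℕ) : ℝ) := by exact_mod_cast hp1 _ ha
    have h7 : (2 : ℝ) ^ j ≤ d * ((a + 0 : ℕ) : ℝ) := by exact_mod_cast (hS1 _ ha).1
    have h8 : 1 / Real.sin (Real.pi * (ν * ((a + 0 : ℕ) : ℝ)) / M) ≤ M * d / (2 * ν * 2 ^ j) := by
      rw [div_le_div_iff₀ (hpos _ ha) (by positivity)]
      have h9 : (2 : ℝ) * ν * 2 ^ j ≤ 2 * ν * (d * ((a + 0 : ℕ) : ℝ)) := by gcongr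
      rw [div_le_iff₀ hMR] at h5
      nlinarith
    calc 1 / Real.sin (Real.pi * (ν * ((a + 0 : ℕ) : ℝ)) / M) * (1 / |Real.sin ψ|)
        ≤ M * d / (2 * ν * 2 ^ j) * (1 / |Real.sin ψ|) := by gcongr
      _ = 1 / 2 * (M / ν * (1 / (|Real.sin ψ| / d * 2 ^ j))) := by
          field_simp
      _ ≤ 3 * (M / ν * (1 / (|Real.sin ψ| / d * 2 ^ j))) := by
          gcongr
          norm_num
      _ = _ := by ring

/-! ### the real part of the exponential sum -/

theorem T1b_fs (M : ℕ) (a : ℤ) (X : ℕ) (u : ℕ) :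
    (fs M a X (u : ℤ)).re * (2 * Real.sin (Real.pi * u / M)) =
      Real.sin (Real.pi * ((2 * (a + X) - 1 : ℤ) : ℝ) * u / M) -
        Real.sin (Real.pi * ((2 * a - 1 : ℤ) : ℝ) * u / M) := by
  have hterm : ∀ h : ℕ, (Complex.exp (2 * Real.pi * Complex.I *
      ((((u : ℕ) : ℤ) : ℂ) * (a + h) / (M : ℂ)))).re =
      Real.cos (2 * Real.pi * u * (a + h) / M) := by
    intro h
    have e : (2 * Real.pi * Complex.I * ((((u : ℕ) : ℤ) : ℂ) * (a + h) / (M : ℂ)) : ℂ) =
        ((2 * Real.pi * u * (a + h) / M : ℝ) : ℂ) * Complex.I := by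
      push_cast
      ring
    rw [e, Complex.exp_ofReal_mul_I_re]
  unfold fs
  rw [Complex.re_sum, Finset.sum_congr rfl (fun h _ => hterm h)]
  induction X with
  | zero => simp
  | succ X ih =>
    rw [Finset.sum_range_succ, add_mul, ih]
    have e1 : Real.pi * ((2 * (a + (X : ℤ)) - 1 : ℤ) : ℝ) * u / M =
        2 * Real.pi * u * (a + X) / M - Real.pi * u / M := by
      push_cast
      ring
    have e2 : Real.pi * ((2 * (a + ((X + 1 : ℕ) : ℤ)) - 1 : ℤ) : ℝ) * u / M =
        2 * Real.pi * u * (a + X) / M + Real.pi * u / M := by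
      push_cast
      ring
    rw [e1, e2, Real.sin_sub, Real.sin_add]
    ring

theorem T1_claim : ∃ C : ℝ, 0 < C ∧ ∀ (M : ℕ), Odd M → ∀ (lam d : ℕ), 1 ≤ lam → 1 ≤ d →
    ∀ (a : ℤ) (X J : ℕ),
      ∑ j ∈ range J, |∑ p ∈ (range M).filter (fun p => (2 ^ j ≤ d * p ∧ d * p < 2 ^ (j + 1)) ∧
        2 * (lam * (d * p)) < M), (fs M a X ((lam * (d * p) : ℕ) : ℤ)).re| ≤
          C * M / ((lam : ℝ) * d) := by
  refine ⟨18, by norm_num, fun M hM lam d hlam hd a X J => ?_⟩
  have hM0 : 0 < M := hM.pos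
  have hMR : (0 : ℝ) < M := by exact_mod_cast hM0
  have hν : 0 < lam * d := Nat.mul_pos hlam hd
  have hνR : (0 : ℝ) < ((lam * d : ℕ) : ℝ) := by exact_mod_cast hν
  have hπ := Real.pi_pos
  obtain ⟨S, hSdef⟩ : ∃ S : ℕ → Finset ℕ, S = fun j => (range M).filter
    (fun p => (2 ^ j ≤ d * p ∧ d * p < 2 ^ (j + 1)) ∧ 2 * (lam * (d * p)) < M) := ⟨_, rfl⟩
  have hmemS : ∀ j p, p ∈ S j ↔ p < M ∧ (2 ^ j ≤ d * p ∧ d * p < 2 ^ (j + 1)) ∧
      2 * (lam * (d * p)) < M := by
    intro j p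
    rw [hSdef, mem_filter, mem_range]
  have hconv : ∀ j, ∀ x ∈ S j, ∀ z ∈ S j, ∀ y, x ≤ y → y ≤ z → y ∈ S j := by
    intro j x hx z hz y hxy hyz
    rw [hmemS] at hx hz ⊢
    have h1 : d * x ≤ d * y := Nat.mul_le_mul_left _ hxy
    have h2 : d * y ≤ d * z := Nat.mul_le_mul_left _ hyz
    have h3 : lam * (d * y) ≤ lam * (d * z) := Nat.mul_le_mul_left _ h2
    refine ⟨by omega, ⟨by omega, by omega⟩, by omega⟩
  have hS1 : ∀ j, ∀ p ∈ S j, 2 ^ j ≤ d * p ∧ d * p < 2 ^ (j + 1) ∧ 2 * (lam * d * p) < M := by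
    intro j p hp
    rw [hmemS] at hp
    refine ⟨hp.2.1.1, hp.2.1.2, ?_⟩
    rw [mul_assoc lam d p]
    exact hp.2.2
  obtain ⟨θ, hθ⟩ : ∃ θ : ℤ → ℝ, θ = fun β : ℤ =>
    |Real.sin (Real.pi * (β : ℝ) * ((lam * d : ℕ) : ℝ) / (2 * M))| / d := ⟨_, rfl⟩
  have hθ0 : ∀ β, 0 ≤ θ β := by
    intro β
    rw [hθ]
    positivity
  -- one block
  have hblock : ∀ j, |∑ p ∈ S j, (fs M a X ((lam * (d * p) : ℕ) : ℤ)).re| ≤
      3 * M / ((lam * d : ℕ) : ℝ) / 2 * (min (θ (2 * (a + X) - 1) * 2 ^ j)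
        (1 / (θ (2 * (a + X) - 1) * 2 ^ j)) + min (θ (2 * a - 1) * 2 ^ j)
        (1 / (θ (2 * a - 1) * 2 ^ j))) := by
    intro j
    have h1 := T1b_block hν hd hM0 (2 * (a + X) - 1) j (hconv j) (hS1 j)
    have h2 := T1b_block hν hd hM0 (2 * a - 1) j (hconv j) (hS1 j)
    have e1 : ∑ p ∈ S j, (fs M a X ((lam * (d * p) : ℕ) : ℤ)).re =
        1 / 2 * (∑ p ∈ S j, Real.sin (Real.pi * ((2 * (a + X) - 1 : ℤ) : ℝ) *
            (((lam * d : ℕ) : ℝ) * p) / M) / Real.sin (Real.pi * (((lam * d : ℕ) : ℝ) * p) / M) -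
          ∑ p ∈ S j, Real.sin (Real.pi * ((2 * a - 1 : ℤ) : ℝ) *
            (((lam * d : ℕ) : ℝ) * p) / M) /
              Real.sin (Real.pi * (((lam * d : ℕ) : ℝ) * p) / M)) := by
      rw [← Finset.sum_sub_distrib, Finset.mul_sum]
      refine Finset.sum_congr rfl fun p hp => ?_
      obtain ⟨g1, g2, g3⟩ := hS1 j p hp
      have hp1 : 1 ≤ p := by
        rcases Nat.eq_zero_or_pos p with h | h
        · rw [h] at g1
          have : 0 < 2 ^ j := by positivity
          omega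
        · exact h
      have hpR : (0 : ℝ) < p := by exact_mod_cast hp1
      have e2 : ((lam * (d * p) : ℕ) : ℝ) = ((lam * d : ℕ) : ℝ) * p := by push_cast; ring
      have h3 := T1b_fs M a X (lam * (d * p))
      rw [e2] at h3
      have hlt : Real.pi * (((lam * d : ℕ) : ℝ) * p) / M < Real.pi := by
        have g4 : 2 * (((lam * d : ℕ) : ℝ) * p) < M := by exact_mod_cast g3
        rw [div_lt_iff₀ hMR]
        have : 0 < ((lam * d : ℕ) : ℝ) * p := by positivity
        nlinarith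
      have hs : 0 < Real.sin (Real.pi * (((lam * d : ℕ) : ℝ) * p) / M) :=
        Real.sin_pos_of_pos_of_lt_pi (by positivity) hlt
      obtain ⟨σ, hσ⟩ : ∃ σ, σ = Real.sin (Real.pi * (((lam * d : ℕ) : ℝ) * p) / M) := ⟨_, rfl⟩
      rw [← hσ] at h3 hs ⊢
      rw [← sub_div, ← h3]
      field_simp
    rw [e1, abs_mul, abs_of_pos (by norm_num : (0 : ℝ) < 1 / 2)]
    have h4 := abs_sub (∑ p ∈ S j, Real.sin (Real.pi * ((2 * (a + X) - 1 : ℤ) : ℝ) *
            (((lam * d : ℕ) : ℝ) * p) / M) / Real.sin (Real.pi * (((lam * d : ℕ) : ℝ) * p) / M))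
      (∑ p ∈ S j, Real.sin (Real.pi * ((2 * a - 1 : ℤ) : ℝ) *
            (((lam * d : ℕ) : ℝ) * p) / M) / Real.sin (Real.pi * (((lam * d : ℕ) : ℝ) * p) / M))
    rw [hθ]
    beta_reduce
    linarith
  have hdy : ∀ β, ∑ j ∈ range J, min (θ β * 2 ^ j) (1 / (θ β * 2 ^ j)) ≤ 6 := by
    intro β
    rcases (hθ0 β).eq_or_lt with h | h
    · rw [← h]
      simp
    · exact T1b_dyadic h J
  have hfin : ∑ j ∈ range J, |∑ p ∈ S j, (fs M a X ((lam * (d * p) : ℕ) : ℤ)).re| ≤
      18 * M / ((lam : ℝ) * d) := by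
    refine (Finset.sum_le_sum fun j _ => hblock j).trans ?_
    rw [← Finset.mul_sum, Finset.sum_add_distrib]
    have h1 := hdy (2 * (a + X) - 1)
    have h2 := hdy (2 * a - 1)
    have h3 : 0 ≤ 3 * M / ((lam * d : ℕ) : ℝ) / 2 := by positivity
    have h4 := mul_le_mul_of_nonneg_left (add_le_add h1 h2) h3
    refine h4.trans (le_of_eq ?_)
    push_cast
    ring
  rw [hSdef] at hfin
  exact hfin

end DiscPS
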